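import Pool.Agent.H966.T1.Stubs2
import Pool.Graph.R_pool_sql_team_seeded_3dad9d7b.NH38.Fork.R1

/-!
Task T1-A1 (helper582): the algebraic generating function `S1_WI`. Adapted from
`Pool/Agent/NH38/Fork/R1.lean` (the case `c = 2/3`; here `c = 4/3`).
-/

set_option autoImplicit false

namespace Pool.Agent.H966.T1

namespace A1

open Finset Filter Topology
open Pool.Agent.NH97.WI (Co derF sumw sumwd hcd ca ca_succ rf_succ rf_pos)
open Pool.Agent.NH38.Fork (x1 x2 rf rr)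

/-- weighted convolution -/
noncomputable def T (A B : ℝ) (m : ℕ) (φ : ℝ → ℝ → ℝ) : ℝ :=
  ∑ p ∈ Finset.HasAntidiagonal.antidiagonal m, φ ((p.1 : ℕ) : ℝ) ((p.2 : ℕ) : ℝ) * (ca B p.1 * ca A p.2)

theorem shiftB (A B : ℝ) (m : ℕ) (φ : ℝ → ℝ → ℝ) :
    B * T A B m φ = T A B (m+1) (fun i l => i * (i + 1/3) * φ (i-1) l) := by
  unfold T
  rw [Finset.Nat.sum_antidiagonal_succ, Finset.mul_sum]
  have h0 : ((0:ℕ):ℝ) * (((0:ℕ):ℝ) + 1/3) * φ (((0:ℕ):ℝ)-1) ((m+1:ℕ):ℝ) *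
    (ca B 0 * ca A (m+1)) = 0 := by simp
  rw [h0, zero_add]
  apply Finset.sum_congr rfl
  rintro ⟨i, l⟩ _
  simp only
  have h := ca_succ B i
  have e1 : ((i+1:ℕ):ℝ) - 1 = i := by push_cast; ring
  rw [e1]
  calc B * (φ i l * (ca B i * ca A l)) = φ i l * (B * ca B i) * ca A l := by ring
    _ = _ := by rw [h]; push_cast; ring

theorem shiftA (A B : ℝ) (m : ℕ) (φ : ℝ → ℝ → ℝ) :
    A * T A B m φ = T A B (m+1) (fun i l => l * (l + 1/3) * φ i (l-1)) := by
  unfold T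
  rw [Finset.Nat.sum_antidiagonal_succ', Finset.mul_sum]
  have h0 : ((0:ℕ):ℝ) * (((0:ℕ):ℝ) + 1/3) * φ ((m+1:ℕ):ℝ) (((0:ℕ):ℝ)-1) *
    (ca B (m+1) * ca A 0) = 0 := by simp
  rw [h0, zero_add]
  apply Finset.sum_congr rfl
  rintro ⟨i, l⟩ _
  simp only
  have h := ca_succ A l
  have e1 : ((l+1:ℕ):ℝ) - 1 = l := by push_cast; ring
  rw [e1]
  calc A * (φ i l * (ca B i * ca A l)) = φ i l * (A * ca A l) * ca B i := by ring
    _ = _ := by rw [h]; push_cast; ring

theorem T_add (A B : ℝ) (m : ℕ) (φ ψ : ℝ → ℝ → ℝ) :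
    T A B m φ + T A B m ψ = T A B m (fun i l => φ i l + ψ i l) := by
  unfold T
  rw [← Finset.sum_add_distrib]
  apply Finset.sum_congr rfl
  intro p _
  ring

theorem T_sub (A B : ℝ) (m : ℕ) (φ ψ : ℝ → ℝ → ℝ) :
    T A B m φ - T A B m ψ = T A B m (fun i l => φ i l - ψ i l) := by
  unfold T
  rw [← Finset.sum_sub_distrib]
  apply Finset.sum_congr rfl
  intro p _
  ring

theorem T_smul (A B : ℝ) (m : ℕ) (c : ℝ) (φ : ℝ → ℝ → ℝ) :
    c * T A B m φ = T A B m (fun i l => c * φ i l) := by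
  unfold T
  rw [Finset.mul_sum]
  apply Finset.sum_congr rfl
  intro p _
  ring

theorem T_zero (A B : ℝ) (m : ℕ) (φ : ℝ → ℝ → ℝ) (h : ∀ i l : ℝ, i + l = m → φ i l = 0) :
    T A B m φ = 0 := by
  unfold T
  apply Finset.sum_eq_zero
  rintro ⟨i, l⟩ hp
  have : i + l = m := by simpa using hp
  have h2 : (i:ℝ) + l = m := by exact_mod_cast this
  simp only
  rw [h i l h2, zero_mul]

theorem wp1_eq (A B : ℝ) (m : ℕ) :
    wp1 A B m = rf (5/3) m * rf (4/3) m * T A B m (fun _ _ => 1) := by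
  unfold wp1 T
  rw [Finset.Nat.sum_antidiagonal_eq_sum_range_succ_mk, Finset.mul_sum]
  apply Finset.sum_congr rfl
  intro i _
  unfold ca
  simp only
  have h1 : 0 < rf (4/3) (m-i) := rf_pos (s := 4/3) (by norm_num) (m-i)
  have h2 : 0 < rf (4/3) i := rf_pos (s := 4/3) (by norm_num) i
  have h3 : (0:ℝ) < (Nat.factorial i : ℝ) := by positivity
  have h4 : (0:ℝ) < (Nat.factorial (m-i) : ℝ) := by positivity
  change _ = rf (5/3) m * rf (4/3) m * (1 * (B^i / (rf (4/3) i * (Nat.factorial i : ℝ)) *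
    (A^(m-i) / (rf (4/3) (m-i) * (Nat.factorial (m-i) : ℝ)))))
  field_simp

theorem Trec (A B : ℝ) (m : ℕ) :
    ((m:ℝ)+2) * (m+8/3) * (m+4/3) * (m+7/3) * T A B (m+2) (fun _ _ => 1) =
      (A + B) * ((2*m+11/3) * (m+4/3)) * T A B (m+1) (fun _ _ => 1) -
        (A - B)^2 * T A B m (fun _ _ => 1) := by
  have e1 : (A + B) * T A B (m+1) (fun _ _ => 1) =
      T A B (m+2) (fun i l => i * (i + 1/3) + l * (l + 1/3)) := by
    rw [add_mul, shiftA, shiftB, T_add]
    unfold T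
    apply Finset.sum_congr rfl
    intro p _
    ring
  have e2 : (A - B) * T A B m (fun _ _ => 1) =
      T A B (m+1) (fun i l => l * (l + 1/3) - i * (i + 1/3)) := by
    rw [sub_mul, shiftA, shiftB, T_sub]
    unfold T
    apply Finset.sum_congr rfl
    intro p _
    ring
  have e3 : (A - B)^2 * T A B m (fun _ _ => 1) =
      T A B (m+2) (fun i l => l * (l + 1/3) * ((l-1) * (l - 1 + 1/3) - i * (i + 1/3)) -
        i * (i + 1/3) * (l * (l + 1/3) - (i-1) * (i - 1 + 1/3))) := by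
    rw [sq, mul_assoc, e2, sub_mul, shiftA, shiftB, T_sub]
  have e4 : (A + B) * ((2*m+11/3) * (m+4/3)) * T A B (m+1) (fun _ _ => 1) =
      T A B (m+2) (fun i l => (2*m+11/3) * (m+4/3) * (i * (i + 1/3) + l * (l + 1/3))) := by
    rw [← T_smul, ← e1]
    ring
  rw [e3, e4, T_smul, T_sub, ← sub_eq_zero, T_sub]
  apply T_zero
  intro i l h
  have hm : (m:ℝ) = i + l - 2 := by
    rw [h]; push_cast; ring
  rw [hm]
  ring

theorem wp1_zero (A B : ℝ) : wp1 A B 0 = 1 := by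
  simp [wp1, rf]

theorem wp1_one (A B : ℝ) : wp1 A B 1 = 5 * (A + B) / 3 := by
  simp [wp1, rf, Finset.sum_range_succ]
  ring

theorem rfs (s : ℝ) (n : ℕ) : rf s (n+1) = rf s n * (s + n) := rf_succ s n

theorem wp1_rec (A B : ℝ) (m : ℕ) :
    ((m:ℝ)+2) * wp1 A B (m+2) - (A+B) * (2*m+11/3) * wp1 A B (m+1) +
      (A-B)^2 * (m+5/3) * wp1 A B m = 0 := by
  have h := Trec A B m
  rw [wp1_eq, wp1_eq, wp1_eq, rfs, rfs, rfs, rfs]
  push_cast
  linear_combination (rf (5/3) m * rf (4/3) m * ((m:ℝ)+5/3)) * h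

theorem rf53 (m : ℕ) : rf (5/3) m ≤ ((m:ℝ)+1) * (Nat.factorial m : ℝ) := by
  induction m with
  | zero => simp [rf]
  | succ m ih =>
    rw [rfs, Nat.factorial_succ]
    push_cast
    have h1 : 0 < rf (5/3) m := rf_pos (by norm_num) m
    have h3 : (0:ℝ) < (Nat.factorial m : ℝ) := by positivity
    calc rf (5/3) m * (5/3 + m) ≤ (((m:ℝ)+1) * (Nat.factorial m : ℝ)) * (5/3 + m) := by
          apply mul_le_mul_of_nonneg_right ih (by positivity)
      _ ≤ (((m:ℝ)+1) * (Nat.factorial m : ℝ)) * (m+1+1) := by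
          apply mul_le_mul_of_nonneg_left _ (by positivity)
          linarith
      _ = _ := by ring

theorem rf43 (i l : ℕ) : rf (4/3) (i+l) * ((Nat.factorial i : ℝ) * (Nat.factorial l : ℝ)) ≤
    rf (4/3) i * rf (4/3) l * (Nat.factorial (i+l) : ℝ) := by
  induction l with
  | zero => simp [rf]
  | succ l ih =>
    rw [← Nat.add_assoc, rfs, rfs, Nat.factorial_succ, Nat.factorial_succ]
    push_cast
    have h1 : 0 < rf (4/3) (i+l) := rf_pos (by norm_num) _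
    have h2 : 0 < rf (4/3) i := rf_pos (by norm_num) _
    have h3 : 0 < rf (4/3) l := rf_pos (by norm_num) _
    have f1 : (0:ℝ) < (Nat.factorial i : ℝ) := by positivity
    have f2 : (0:ℝ) < (Nat.factorial l : ℝ) := by positivity
    have f3 : (0:ℝ) < (Nat.factorial (i+l) : ℝ) := by positivity
    have hi : (0:ℝ) ≤ i := by positivity
    have hl : (0:ℝ) ≤ l := by positivity
    have key : (4/3 + ((i:ℝ) + l)) * ((l:ℝ)+1) ≤ (4/3 + (l:ℝ)) * ((i:ℝ)+l+1) := by nlinarith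
    calc rf (4/3) (i+l) * (4/3 + ((i:ℝ) + l)) * ((Nat.factorial i : ℝ) * (((l:ℝ)+1) * (Nat.factorial l : ℝ)))
        = (rf (4/3) (i+l) * ((Nat.factorial i : ℝ) * (Nat.factorial l : ℝ))) *
            ((4/3 + ((i:ℝ) + l)) * ((l:ℝ)+1)) := by ring
      _ ≤ (rf (4/3) i * rf (4/3) l * (Nat.factorial (i+l) : ℝ)) * ((4/3 + (l:ℝ)) * ((i:ℝ)+l+1)) :=
          mul_le_mul ih key (by positivity) (by positivity)
      _ = _ := by ring

theorem coef_le {i m : ℕ} (h : i ≤ m) :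
    rf (5/3) m * rf (4/3) m / (rf (4/3) i * (Nat.factorial i : ℝ) * (rf (4/3) (m-i) *
    (Nat.factorial (m-i) : ℝ))) ≤ ((m:ℝ)+1) * (Nat.choose m i : ℝ)^2 := by
  obtain ⟨l, rfl⟩ := Nat.exists_eq_add_of_le h
  rw [Nat.add_sub_cancel_left]
  have a1 := rf43 i l
  have a2 := rf53 (i+l)
  have h1 : 0 < rf (5/3) (i+l) := rf_pos (by norm_num) _
  have h2 : 0 < rf (4/3) l := rf_pos (by norm_num) l
  have h3 : 0 < rf (4/3) (i+l) := rf_pos (by norm_num) _
  have h4 : 0 < rf (4/3) i := rf_pos (by norm_num) i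
  have f1 : (0:ℝ) < (Nat.factorial i : ℝ) := by positivity
  have f2 : (0:ℝ) < (Nat.factorial l : ℝ) := by positivity
  have f3 : (0:ℝ) < (Nat.factorial (i+l) : ℝ) := by positivity
  have hc : (Nat.choose (i+l) i : ℝ) * (Nat.factorial i : ℝ) * (Nat.factorial l : ℝ) =
      (Nat.factorial (i+l) : ℝ) := by
    have := Nat.choose_mul_factorial_mul_factorial (Nat.le_add_right i l)
    rw [Nat.add_sub_cancel_left] at this
    exact_mod_cast this
  have hcc : (Nat.choose (i+l) i : ℝ) = (Nat.factorial (i+l) : ℝ) / ((Nat.factorial i : ℝ) *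
      (Nat.factorial l : ℝ)) := by
    rw [eq_div_iff (by positivity), ← hc]; ring
  rw [div_le_iff₀ (by positivity), hcc]
  have b2 : rf (5/3) (i+l) * (rf (4/3) (i+l) * ((Nat.factorial i : ℝ) * (Nat.factorial l : ℝ))) ≤
      ((((i+l:ℕ):ℝ)+1) * (Nat.factorial (i+l) : ℝ)) *
        (rf (4/3) i * rf (4/3) l * (Nat.factorial (i+l) : ℝ)) :=
    mul_le_mul a2 a1 (by positivity) (by positivity)
  have e : (((i+l:ℕ):ℝ)+1) * ((Nat.factorial (i+l) : ℝ) / ((Nat.factorial i : ℝ) *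
      (Nat.factorial l : ℝ)))^2 * (rf (4/3) i * (Nat.factorial i : ℝ) * (rf (4/3) l *
      (Nat.factorial l : ℝ))) = ((((i+l:ℕ):ℝ)+1) * (Nat.factorial (i+l) : ℝ)) *
        (rf (4/3) i * rf (4/3) l * (Nat.factorial (i+l) : ℝ)) / ((Nat.factorial i : ℝ) * (Nat.factorial l : ℝ)) := by
    field_simp
  rw [e, le_div_iff₀ (by positivity)]
  calc _ = rf (5/3) (i+l) * (rf (4/3) (i+l) * ((Nat.factorial i : ℝ) * (Nat.factorial l : ℝ))) := by ring
    _ ≤ _ := b2

theorem wp1_nonneg {A B : ℝ} (hA : 0 < A) (hB : 0 < B) (m : ℕ) : 0 ≤ wp1 A B m := by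
  unfold wp1
  apply Finset.sum_nonneg
  intro i _
  have h1 : 0 < rf (5/3) m := rf_pos (by norm_num) m
  have h2 : 0 < rf (4/3) (m-i) := rf_pos (by norm_num) (m-i)
  have h3 : 0 < rf (4/3) m := rf_pos (by norm_num) m
  have h4 : 0 < rf (4/3) i := rf_pos (by norm_num) i
  positivity

theorem wp1_le {A B : ℝ} (hA : 0 < A) (hB : 0 < B) (m : ℕ) :
    wp1 A B m ≤ ((m:ℝ)+1) * ((Real.sqrt A + Real.sqrt B)^2)^m := by
  have hsA := Real.sqrt_pos.mpr hA
  have hsB := Real.sqrt_pos.mpr hB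
  have hbin : (Real.sqrt B + Real.sqrt A)^m = ∑ i ∈ Finset.range (m+1),
      Real.sqrt B ^ i * Real.sqrt A ^ (m-i) * (Nat.choose m i : ℝ) := add_pow _ _ _
  set S := (Real.sqrt B + Real.sqrt A)^m with hS
  have hle : ∀ i ∈ Finset.range (m+1), Real.sqrt B ^ i * Real.sqrt A ^ (m-i) *
      (Nat.choose m i : ℝ) ≤ S := by
    intro i hi
    rw [hbin]
    exact Finset.single_le_sum (f := fun i => Real.sqrt B ^ i * Real.sqrt A ^ (m-i) *
      (Nat.choose m i : ℝ)) (fun j _ => by positivity) hi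
  have hSpos : 0 < S := by positivity
  calc wp1 A B m ≤ ∑ i ∈ Finset.range (m+1), (((m:ℝ)+1) * ((Real.sqrt B ^ i * Real.sqrt A ^ (m-i) *
      (Nat.choose m i : ℝ)) * S)) := by
        unfold wp1
        apply Finset.sum_le_sum
        intro i hi
        have him : i ≤ m := by
          have := Finset.mem_range.mp hi; omega
        have hc := coef_le him
        have e1 : B^i = (Real.sqrt B ^ i)^2 := by
          rw [← pow_mul, mul_comm, pow_mul, Real.sq_sqrt hB.le]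
        have e2 : A^(m-i) = (Real.sqrt A ^ (m-i))^2 := by
          rw [← pow_mul, mul_comm, pow_mul, Real.sq_sqrt hA.le]
        calc _ ≤ (((m:ℝ)+1) * (Nat.choose m i : ℝ)^2) * B^i * A^(m-i) := by
              apply mul_le_mul_of_nonneg_right _ (by positivity)
              apply mul_le_mul_of_nonneg_right hc (by positivity)
          _ = ((m:ℝ)+1) * ((Real.sqrt B ^ i * Real.sqrt A ^ (m-i) * (Nat.choose m i : ℝ)) *
              (Real.sqrt B ^ i * Real.sqrt A ^ (m-i) * (Nat.choose m i : ℝ))) := by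
              rw [e1, e2]; ring
          _ ≤ _ := mul_le_mul_of_nonneg_left (mul_le_mul_of_nonneg_left (hle i hi) (by positivity))
              (by positivity)
    _ = ((m:ℝ)+1) * (S * S) := by
        rw [← Finset.mul_sum, ← Finset.sum_mul, ← hbin]
    _ = _ := by
        rw [hS]
        rw [← pow_mul, mul_comm 2 m, pow_mul, add_comm (Real.sqrt B), sq]

section
variable {w : ℕ → ℝ} {u r : ℝ} (h : Co w u) (hr : 1 < r) (hru : r * u < 1)
include h hr hru

/-- the differential equation -/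
theorem ode {a d : ℝ} (w0 : w 0 = 1) (w1 : w 1 = 5 * a / 3)
    (hrec : ∀ m : ℕ, ((m:ℝ)+2) * w (m+2) - a * (2*m+11/3) * w (m+1) + d^2 * (m+5/3) * w m = 0)
    {t : ℝ} (ht : |t| < r) :
    (1 - 2*a*t + d^2*t^2) * (∑' m : ℕ, ((m:ℝ)+1) * w (m+1) * t^m) =
      (5/3) * (a - d^2 * t) * (∑' m : ℕ, w m * t^m) := by
  set f1 := ∑' m : ℕ, ((m:ℝ)+1) * w (m+1) * t^m with hf1
  set f0 := ∑' m : ℕ, w m * t^m with hf0
  have H1 : HasSum (fun m : ℕ => ((m:ℝ)+1) * w (m+1) * t^m) f1 := (sumwd h hr hru ht.le).hasSum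
  have H0 : HasSum (fun m : ℕ => w m * t^m) f0 := (sumw h hr hru ht.le).hasSum
  have Ha : HasSum (fun m : ℕ => ((m:ℝ)+2) * w (m+2) * t^(m+1)) (f1 - w 1) := by
    have := (hasSum_nat_add_iff' 1).mpr H1
    simp only [Finset.sum_range_one, Nat.cast_zero, zero_add, pow_zero, one_mul, mul_one] at this
    refine this.congr_fun ?_ |> fun h => h
    intro m
    push_cast
    ring
  have Hb : HasSum (fun m : ℕ => ((m:ℝ)+1) * w (m+1) * t^(m+1)) (t * f1) := by
    refine (H1.mul_left t).congr_fun ?_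
    intro m
    ring
  have Hc0 : HasSum (fun m : ℕ => (m:ℝ) * w m * t^m) (t * f1) := by
    rw [← hasSum_nat_add_iff' 1]
    simp only [Finset.sum_range_one, Nat.cast_zero, zero_mul, sub_zero]
    refine Hb.congr_fun ?_
    intro m
    push_cast
    ring
  have Hc : HasSum (fun m : ℕ => (m:ℝ) * w m * t^(m+1)) (t * (t * f1)) := by
    refine (Hc0.mul_left t).congr_fun ?_
    intro m
    ring
  have Hd : HasSum (fun m : ℕ => w (m+1) * t^(m+1)) (f0 - w 0) := by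
    have := (hasSum_nat_add_iff' 1).mpr H0
    simp only [Finset.sum_range_one, pow_zero, mul_one] at this
    exact this
  have He : HasSum (fun m : ℕ => w m * t^(m+1)) (t * f0) := by
    refine (H0.mul_left t).congr_fun ?_
    intro m
    ring
  have HH := ((((Ha.sub (Hb.mul_left (2*a))).add (Hc.mul_left (d^2))).sub
    (Hd.mul_left (5*a/3))).add (He.mul_left (5*d^2/3)))
  have HZ : HasSum (fun _ : ℕ => (0:ℝ)) 0 := hasSum_zero
  have hz : ∀ m : ℕ, ((m:ℝ)+2) * w (m+2) * t^(m+1) - 2*a*(((m:ℝ)+1) * w (m+1) * t^(m+1)) +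
      d^2 * ((m:ℝ) * w m * t^(m+1)) - 5*a/3 * (w (m+1) * t^(m+1)) +
      5*d^2/3 * (w m * t^(m+1)) = 0 := by
    intro m
    have := hrec m
    linear_combination t^(m+1) * this
  have HH2 : HasSum (fun _ : ℕ => (0:ℝ)) (f1 - w 1 - 2*a*(t*f1) + d^2*(t*(t*f1)) -
      5*a/3 * (f0 - w 0) + 5*d^2/3 * (t * f0)) := by
    refine HH.congr_fun ?_
    intro m
    exact (hz m).symm
  have hu := HH2.unique HZ
  rw [w0, w1] at hu
  linear_combination hu

end

/-- the solution of the differential equation -/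
theorem main0 {w : ℕ → ℝ} {u v a d : ℝ} (h : Co w u) (hv0 : 0 ≤ v) (hvu : v ≤ u)
    (huv : u + v = 2 * a) (huvd : u * v = d^2)
    (w0 : w 0 = 1) (w1 : w 1 = 5 * a / 3)
    (hrec : ∀ m : ℕ, ((m:ℝ)+2) * w (m+2) - a * (2*m+11/3) * w (m+1) +
      d^2 * (m+5/3) * w m = 0) :
    0 < 1 - 2*a + d^2 ∧ HasSum w ((1 - 2*a + d^2) ^ (-(5:ℝ)/6)) := by
  have hu0 := h.u0
  have hu1 := h.u1
  obtain ⟨r, hr, hru⟩ : ∃ r : ℝ, 1 < r ∧ r * u < 1 := by
    refine ⟨2 / (1 + u), ?_, ?_⟩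
    · rw [lt_div_iff₀ (by linarith)]; linarith
    · rw [div_mul_eq_mul_div, div_lt_one (by linarith)]; linarith
  have hQ : ∀ t : ℝ, 0 ≤ t → t ≤ 1 → 0 < 1 - 2*a*t + d^2*t^2 := by
    intro t h0 h1
    have e : 1 - 2*a*t + d^2*t^2 = (1 - u*t) * (1 - v*t) := by
      rw [← huv, ← huvd]; ring
    rw [e]
    apply mul_pos
    · nlinarith
    · nlinarith
  set Q : ℝ → ℝ := fun t => 1 - 2*a*t + d^2*t^2 with hQd
  have hq : ∀ t : ℝ, HasDerivAt Q (2*(-a + d^2*t)) t := by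
    intro t
    have := ((hasDerivAt_const t (1:ℝ)).sub ((hasDerivAt_id t).const_mul (2*a))).add
      ((hasDerivAt_pow 2 t).const_mul (d^2))
    refine hcd this ?_
    simp
    ring
  set f : ℝ → ℝ := fun t => ∑' m : ℕ, w m * t^m with hfd
  have habs : ∀ t : ℝ, 0 ≤ t → t ≤ 1 → |t| < r := by
    intro t h0 h1
    rw [abs_of_nonneg h0]; linarith
  have c1 : ∀ t ∈ Set.Icc (0:ℝ) 1, (fun t => f t * Q t ^ ((5:ℝ)/6)) t =
      (fun t => f t * Q t ^ ((5:ℝ)/6)) 0 := by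
    have hder : ∀ t : ℝ, 0 ≤ t → t ≤ 1 → HasDerivAt (fun t => f t * Q t ^ ((5:ℝ)/6)) 0 t := by
      intro t h0 h1
      have qp := hQ t h0 h1
      have hg : HasDerivAt (fun t => Q t ^ ((5:ℝ)/6))
          (2*(-a + d^2*t) * ((5:ℝ)/6) * Q t ^ ((5:ℝ)/6 - 1)) t :=
        (hq t).rpow_const (Or.inl qp.ne')
      have := (derF h hr hru (habs t h0 h1)).mul hg
      refine hcd this ?_
      have ho := ode h hr hru w0 w1 hrec (habs t h0 h1)
      set f1 := ∑' m : ℕ, ((m:ℝ)+1) * w (m+1) * t^m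
      have e1 : Q t ^ ((5:ℝ)/6) = Q t * Q t ^ ((5:ℝ)/6 - 1) := by
        have qp' : Q t ≠ 0 := qp.ne'
        rw [Real.rpow_sub_one qp', mul_div_assoc']
        exact (mul_div_cancel_left₀ _ qp').symm
      have ho' : Q t * f1 = (5/3) * (a - d^2 * t) * f t := ho
      show (0:ℝ) = f1 * Q t ^ ((5:ℝ)/6) + f t * (2*(-a + d^2*t) * ((5:ℝ)/6) * Q t ^ ((5:ℝ)/6 - 1))
      rw [e1]
      linear_combination (- Q t ^ ((5:ℝ)/6 - 1)) * ho'
    apply constant_of_has_deriv_right_zero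
    · intro t ht
      exact (hder t ht.1 ht.2).continuousAt.continuousWithinAt
    · intro t ht
      exact (hder t ht.1 ht.2.le).hasDerivWithinAt
  have f0 : f 0 = 1 := by
    show ∑' m : ℕ, w m * (0:ℝ)^m = 1
    rw [tsum_eq_single 0]
    · simp [w0]
    · intro m hm
      simp [hm]
  have Q0 : Q 0 = 1 := by
    show 1 - 2*a*0 + d^2*0^2 = (1:ℝ)
    ring
  have Q1 : Q 1 = 1 - 2*a + d^2 := by
    show 1 - 2*a*1 + d^2*1^2 = _
    ring
  have k1 := c1 1 ⟨zero_le_one, le_refl _⟩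
  simp only [f0, Q0, Real.one_rpow, mul_one] at k1
  have qp := hQ 1 zero_le_one (le_refl _)
  have qp' : 0 < Q 1 := qp
  refine ⟨by rw [← Q1]; exact qp', ?_⟩
  have hs : HasSum (fun m => w m * (1:ℝ)^m) (f 1) :=
    (sumw h hr hru (habs 1 zero_le_one (le_refl _)).le).hasSum
  simp only [one_pow, mul_one] at hs
  have e1 : f 1 = (1 - 2*a + d^2) ^ (-(5:ℝ)/6) := by
    rw [← Q1, neg_div, Real.rpow_neg qp'.le]
    exact eq_inv_of_mul_eq_one_left k1
  rw [← e1]
  exact hs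

theorem wi (A B : ℝ) (hA : 0 < A) (hB : 0 < B) (hAB : Real.sqrt A + Real.sqrt B < 1) :
    HasSum (wp1 A B) ((x2 A B - x1 A B)^(-(5:ℝ)/3)) := by
  have sA := Real.sqrt_pos.mpr hA
  have sB := Real.sqrt_pos.mpr hB
  have qA := Real.sq_sqrt hA.le
  have qB := Real.sq_sqrt hB.le
  have hco : Co (wp1 A B) ((Real.sqrt A + Real.sqrt B)^2) := by
    refine ⟨by positivity, ?_, ?_⟩
    · nlinarith
    · intro m
      rw [abs_of_nonneg (wp1_nonneg hA hB m)]
      exact wp1_le hA hB m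
  have key := main0 (v := (Real.sqrt A - Real.sqrt B)^2) (a := A + B) (d := A - B)
    hco (by positivity) (by nlinarith [mul_pos sA sB]) (by nlinarith) (by
      have : ((Real.sqrt A + Real.sqrt B)^2) * ((Real.sqrt A - Real.sqrt B)^2) =
        ((Real.sqrt A)^2 - (Real.sqrt B)^2)^2 := by ring
      rw [this, qA, qB]) (wp1_zero A B) (wp1_one A B) (wp1_rec A B)
  obtain ⟨h1, h2⟩ := key
  have e : (x2 A B - x1 A B)^(-(5:ℝ)/3) = (1 - 2*(A+B) + (A-B)^2) ^ (-(5:ℝ)/6) := by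
    have er : x2 A B - x1 A B = Real.sqrt (1 - 2*(A+B) + (A-B)^2) := by
      have : x2 A B - x1 A B = rr A B := by unfold x1 x2; ring
      rw [this]
      unfold rr
      congr 1
      ring
    rw [er, Real.sqrt_eq_rpow, ← Real.rpow_mul h1.le]
    congr 1
    norm_num
  rw [e]
  exact h2

end A1

theorem t1_WI : S1_WI := by
  intro A B hA hB h
  exact A1.wi A B hA hB h

end Pool.Agent.H966.T1
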