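import Pool.Agent.H966.T1.Stubs2
import Pool.Graph.R_pool_sql_team_seeded_3dad9d7b.NH38.Fork.NG4

/-!
Forked channels of even width, both inner walls (helper966): task A2, the limit function.
helper238, adapted from `NH38/Fork/NG4.lean`.
-/

set_option autoImplicit false

namespace Pool.Agent.H966.T1

open Filter Topology MeasureTheory

namespace A2

open Pool.Agent.NH38.Step (cardy)
open Pool.Agent.NH38.Step.A2 (BB BB_pos cardy_zero cardy_cont cardy_deriv)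
open Pool.Agent.H757R2.CardyLimit (gd int_gd)
open Pool.Agent.NH38.Fork (x1 x2 rf Bt rr)
open Pool.Agent.NH38.Fork.NG4 (rf_pos disc_pos roots root_cont root_deriv Bt_BB)

theorem wp1_nonneg {A B : ℝ} (hA : 0 < A) (hB : 0 < B) (m : ℕ) : 0 ≤ wp1 A B m := by
  refine Finset.sum_nonneg fun i _ => ?_
  have h1 := rf_pos (s := 5/3) (by norm_num) m
  have h2 := rf_pos (s := 4/3) (by norm_num) m
  have h3 := rf_pos (s := 4/3) (by norm_num) i
  have h4 := rf_pos (s := 4/3) (by norm_num) (m - i)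
  positivity

/-- the recursion of the rising factorial -/
theorem rf_shift1 (m : ℕ) : rf (2/3) m * (m + 2/3) = 2/3 * rf (5/3) m := by
  induction m with
  | zero => simp [rf]
  | succ m ih =>
    have h1 : rf (2/3) (m+1) = rf (2/3) m * (2/3 + m) := Finset.prod_range_succ _ _
    have h2 : rf (5/3) (m+1) = rf (5/3) m * (5/3 + m) := Finset.prod_range_succ _ _
    rw [h1, h2]
    push_cast
    linear_combination (5/3 + (m:ℝ)) * ih

theorem ap1_eq (A B : ℝ) (m : ℕ) : ap1 A B m = 2/3 * (wp1 A B m * (1 / ((m:ℝ) + 2/3))) := by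
  have hm : (m:ℝ) + 2/3 ≠ 0 := by positivity
  have h1 : rf (2/3) m = 2/3 * rf (5/3) m * (1 / ((m:ℝ) + 2/3)) := by
    rw [← rf_shift1]
    field_simp
  unfold ap1 wp1
  rw [Finset.sum_mul, Finset.mul_sum]
  refine Finset.sum_congr rfl fun i _ => ?_
  rw [h1]
  ring

theorem wp1_scale (A B t : ℝ) (m : ℕ) : wp1 (t * A) (t * B) m = t ^ m * wp1 A B m := by
  unfold wp1
  rw [Finset.mul_sum]
  refine Finset.sum_congr rfl fun i hi => ?_
  have hi' : i ≤ m := Nat.lt_succ_iff.1 (Finset.mem_range.1 hi)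
  have h1 : t ^ m = t ^ i * t ^ (m - i) := by
    rw [← pow_add]
    congr 1
    omega
  rw [mul_pow, mul_pow, h1]
  ring

/-- the cross-ratio -/
noncomputable def lam (A B : ℝ) : ℝ := x1 A B * (1 - x2 A B) / (x2 A B * (1 - x1 A B))

section

variable {ρ σ : ℝ} (hρ : 0 < ρ) (hσ : 0 < σ) (hρσ : ρ + σ < 1)
include hρ hσ hρσ

/-- further facts about the roots -/
theorem roots1 {t : ℝ} (h0 : 0 ≤ t) (h1 : t ≤ 1) :
    (1 - x1 (t * ρ^2) (t * σ^2)) * (1 - x2 (t * ρ^2) (t * σ^2)) = t * σ^2 ∧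
    x2 (t * ρ^2) (t * σ^2) ≤ 1 ∧ x1 (t * ρ^2) (t * σ^2) < 1 ∧
    (0 < t → x2 (t * ρ^2) (t * σ^2) < 1) := by
  have hd := disc_pos hρ hσ hρσ h0 h1
  obtain ⟨hr, h21, h12, h3, h4, h5, h6⟩ := roots hρ hσ hρσ h0 h1
  have hrr : rr (t * ρ^2) (t * σ^2)^2 = (1 + t * ρ^2 - t * σ^2)^2 - 4 * (t * ρ^2) :=
    Real.sq_sqrt hd.le
  set A := t * ρ^2 with hA
  set B := t * σ^2 with hB
  have e1 : x1 A B = ((1 + A - B) - rr A B) / 2 := rfl
  have e2 : x2 A B = ((1 + A - B) + rr A B) / 2 := rfl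
  have h7 : (1 - x1 A B) * (1 - x2 A B) = B := by
    rw [e1, e2]
    linear_combination (-1/4 : ℝ) * hrr
  have hB0 : 0 ≤ B := by positivity
  have h8 : x1 A B < 1 := by
    rcases h4.eq_or_lt with h | h
    · -- `x1 = 1` forces `x2 > 1` and `B = 0`, hence `t = 0`
      have hB' : B = 0 := by rw [← h7, h, sub_self, zero_mul]
      have ht : t = 0 := by
        rcases mul_eq_zero.1 (hB ▸ hB' : t * σ^2 = 0) with h' | h'
        · exact h'
        · exact absurd h' (by positivity)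
      have hA' : A = 0 := by rw [hA, ht, zero_mul]
      rw [h, one_mul, hA'] at h12
      linarith
    · exact h
  have h9 : x2 A B ≤ 1 := by
    by_contra hcon
    push Not at hcon
    have : (1 - x1 A B) * (1 - x2 A B) < 0 := mul_neg_of_pos_of_neg (by linarith) (by linarith)
    linarith
  refine ⟨h7, h9, h8, fun ht => ?_⟩
  have hB1 : 0 < B := by rw [hB]; positivity
  rcases h9.eq_or_lt with h | h
  · rw [h, sub_self, mul_zero] at h7
    linarith
  · exact h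

/-- the cross-ratio stays in `[0, 1]` -/
theorem lam_mem {t : ℝ} (h0 : 0 ≤ t) (h1 : t ≤ 1) :
    lam (t * ρ^2) (t * σ^2) ∈ Set.Icc (0:ℝ) 1 ∧
    (0 < t → 0 < lam (t * ρ^2) (t * σ^2) ∧ lam (t * ρ^2) (t * σ^2) < 1) := by
  obtain ⟨hr, h21, h12, h3, h4, h5, h6⟩ := roots hρ hσ hρσ h0 h1
  obtain ⟨h7, h8, h9, h10⟩ := roots1 hρ hσ hρσ h0 h1
  unfold lam
  set x := x1 (t * ρ^2) (t * σ^2) with hx
  set y := x2 (t * ρ^2) (t * σ^2) with hy
  have hden : 0 < y * (1 - x) := mul_pos h5 (by linarith)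
  refine ⟨⟨div_nonneg (mul_nonneg h3 (by linarith)) hden.le, ?_⟩, fun ht => ⟨?_, ?_⟩⟩
  · rw [div_le_one hden]
    nlinarith
  · exact div_pos (mul_pos (h6 ht).1 (by linarith [h10 ht])) hden
  · rw [div_lt_one hden]
    nlinarith

theorem lam_cont : ContinuousOn (fun t : ℝ => lam (t * ρ^2) (t * σ^2)) (Set.Icc 0 1) := by
  have h1 : ContinuousOn (fun t : ℝ => x1 (t * ρ^2) (t * σ^2)) (Set.Icc 0 1) := root_cont
  have h2 : ContinuousOn (fun t : ℝ => x2 (t * ρ^2) (t * σ^2)) (Set.Icc 0 1) := by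
    unfold x2 rr
    fun_prop
  unfold lam
  refine ContinuousOn.div (by fun_prop) (by fun_prop) fun t ht => ?_
  obtain ⟨hr, h21, h12, h3, h4, h5, h6⟩ := roots hρ hσ hρσ ht.1 ht.2
  obtain ⟨h7, h8, h9, h10⟩ := roots1 hρ hσ hρσ ht.1 ht.2
  exact (mul_pos h5 (by linarith)).ne'

theorem root2_deriv {t : ℝ} (h0 : 0 < t) (h1 : t < 1) :
    HasDerivAt (fun t : ℝ => x2 (t * ρ^2) (t * σ^2))
      (-(x2 (t * ρ^2) (t * σ^2) * (1 - x2 (t * ρ^2) (t * σ^2)) /
        (t * rr (t * ρ^2) (t * σ^2)))) t := by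
  have hr1 := root_deriv hρ hσ hρσ h0 h1
  obtain ⟨hr, h21, h12, h3, h4, h5, h6⟩ := roots hρ hσ hρσ h0.le h1.le
  obtain ⟨h7, h8, h9, h10⟩ := roots1 hρ hσ hρσ h0.le h1.le
  have g1 : HasDerivAt (fun t : ℝ => 1 + t * ρ^2 - t * σ^2) (ρ^2 - σ^2) t := by
    refine ((((hasDerivAt_id t).mul_const (ρ^2)).const_add 1).sub
      ((hasDerivAt_id t).mul_const (σ^2))).congr_deriv ?_
    ring
  have g2 := g1.sub hr1
  have e0 : (fun t : ℝ => x2 (t * ρ^2) (t * σ^2)) =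
      (fun t : ℝ => 1 + t * ρ^2 - t * σ^2) - (fun t : ℝ => x1 (t * ρ^2) (t * σ^2)) := by
    funext t
    simp only [Pi.sub_apply, x1, x2]
    ring
  rw [e0]
  refine g2.congr_deriv ?_
  set x := x1 (t * ρ^2) (t * σ^2) with hx
  set y := x2 (t * ρ^2) (t * σ^2) with hy
  set r := rr (t * ρ^2) (t * σ^2) with hrdef
  have ht : t ≠ 0 := h0.ne'
  have hr' : r ≠ 0 := hr.ne'
  have e : (ρ^2 - σ^2) = (x + y - 1) / t := by
    rw [eq_div_iff ht]
    linear_combination h7 - h12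
  rw [e]
  field_simp
  linear_combination (-(x + y - 1)) * h21

theorem lam_deriv {t : ℝ} (h0 : 0 < t) (h1 : t < 1) :
    HasDerivAt (fun t : ℝ => lam (t * ρ^2) (t * σ^2))
      (2 * lam (t * ρ^2) (t * σ^2) / (t * rr (t * ρ^2) (t * σ^2))) t := by
  have hr1 := root_deriv hρ hσ hρσ h0 h1
  have hr2 := root2_deriv hρ hσ hρσ h0 h1
  obtain ⟨hr, h21, h12, h3, h4, h5, h6⟩ := roots hρ hσ hρσ h0.le h1.le
  obtain ⟨h7, h8, h9, h10⟩ := roots1 hρ hσ hρσ h0.le h1.le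
  have hden : 0 < x2 (t * ρ^2) (t * σ^2) * (1 - x1 (t * ρ^2) (t * σ^2)) :=
    mul_pos h5 (by linarith)
  have g := (hr1.mul (hr2.const_sub 1)).div (hr2.mul (hr1.const_sub 1)) hden.ne'
  refine g.congr_deriv ?_
  unfold lam
  simp only [Pi.mul_apply]
  set x := x1 (t * ρ^2) (t * σ^2) with hx
  set y := x2 (t * ρ^2) (t * σ^2) with hy
  set r := rr (t * ρ^2) (t * σ^2) with hrdef
  have ht : t ≠ 0 := h0.ne'
  have hr' : r ≠ 0 := hr.ne'
  have hy' : y ≠ 0 := h5.ne'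
  have hx' : 1 - x ≠ 0 := by linarith
  field_simp
  ring

theorem integ1 : IntervalIntegrable (fun t : ℝ => t^(-(1:ℝ)/3) *
      (x2 (t * ρ^2) (t * σ^2) - x1 (t * ρ^2) (t * σ^2))^(-(5:ℝ)/3)) volume 0 1 ∧
    ∫ t in (0:ℝ)..1, t^(-(1:ℝ)/3) *
      (x2 (t * ρ^2) (t * σ^2) - x1 (t * ρ^2) (t * σ^2))^(-(5:ℝ)/3) =
      ((ρ*σ)^((2:ℝ)/3))⁻¹ * (BB / 2 * cardy (lam (ρ^2) (σ^2))) := by
  set W : ℝ → ℝ := fun t => t^(-(1:ℝ)/3) *
      (x2 (t * ρ^2) (t * σ^2) - x1 (t * ρ^2) (t * σ^2))^(-(5:ℝ)/3) with hW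
  set g : ℝ → ℝ := fun t => ((ρ*σ)^((2:ℝ)/3))⁻¹ * (BB / 2 * cardy (lam (t * ρ^2) (t * σ^2)))
    with hg
  have hcont : ContinuousOn g (Set.Icc 0 1) := by
    have h1 : ContinuousOn (fun t : ℝ => cardy (lam (t * ρ^2) (t * σ^2))) (Set.Icc 0 1) :=
      cardy_cont.comp (lam_cont hρ hσ hρσ) fun t ht => (lam_mem hρ hσ hρσ ht.1 ht.2).1
    exact (h1.const_smul (BB / 2)).const_smul ((ρ*σ)^((2:ℝ)/3))⁻¹
  have hρ3 : 0 < (ρ*σ)^((2:ℝ)/3) := Real.rpow_pos_of_pos (mul_pos hρ hσ) _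
  have hderiv : ∀ t ∈ Set.Ioo (0:ℝ) 1, HasDerivAt g (W t) t := by
    intro t ht
    obtain ⟨hr, h21, h12, _, _, hx2, h5⟩ := roots hρ hσ hρσ ht.1.le ht.2.le
    obtain ⟨h7, h8, h9, h10⟩ := roots1 hρ hσ hρσ ht.1.le ht.2.le
    obtain ⟨hx1, hx11⟩ := h5 ht.1
    have hx21 := h10 ht.1
    obtain ⟨hl0, hl1⟩ := (lam_mem hρ hσ hρσ ht.1.le ht.2.le).2 ht.1
    have ht0 := ht.1
    have h1 := (cardy_deriv hl0 hl1).comp t (lam_deriv hρ hσ hρσ ht.1 ht.2)
    have h2 := (h1.const_mul (BB / 2)).const_mul ((ρ*σ)^((2:ℝ)/3))⁻¹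
    have e : W t = ((ρ*σ)^((2:ℝ)/3))⁻¹ * (BB / 2 * (gd (lam (t * ρ^2) (t * σ^2)) / BB *
        (2 * lam (t * ρ^2) (t * σ^2) / (t * rr (t * ρ^2) (t * σ^2))))) := by
      rw [hW]
      simp only
      rw [h21]
      unfold lam at hl0 hl1 ⊢
      set x := x1 (t * ρ^2) (t * σ^2) with hx
      set y := x2 (t * ρ^2) (t * σ^2) with hy
      set r := rr (t * ρ^2) (t * σ^2) with hrdef
      have hx1m : 0 < 1 - x := by linarith
      have hy1m : 0 < 1 - y := by linarith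
      have hBB := BB_pos
      set l := x * (1 - y) / (y * (1 - x)) with hl
      have hP : 0 < x * (1 - y) := mul_pos hx1 hy1m
      have hQ : 0 < y * (1 - x) := mul_pos hx2 hx1m
      have hl1' : 1 - l = r / (y * (1 - x)) := by
        rw [hl, ← h21]
        field_simp
        ring
      -- `l (1-l) = P r / Q²`
      have hll : l * (1 - l) = (x * (1 - y)) * r / (y * (1 - x))^2 := by
        rw [hl1', hl]
        field_simp
      have a1 : gd l * (2 * l / (t * r)) =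
          2 / (t * r) * ((x * (1 - y))^((1:ℝ)/3) * (r^(-(2:ℝ)/3) * (y * (1 - x))^((1:ℝ)/3))) := by
        unfold Pool.Agent.H757R2.CardyLimit.gd
        rw [hll, Real.div_rpow (by positivity) (by positivity),
          Real.mul_rpow hP.le hr.le]
        have b1 : ((y * (1 - x))^2)^(-(2/3) : ℝ) = (y * (1 - x))^(-(4:ℝ)/3) := by
          rw [← Real.rpow_natCast (y * (1 - x)) 2, ← Real.rpow_mul hQ.le]
          norm_num
        have b2 : (x * (1 - y))^((1:ℝ)/3) = (x * (1 - y))^(-(2/3) : ℝ) * (x * (1 - y)) := by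
          conv_rhs => rw [← Real.rpow_one (x * (1 - y))]
          rw [← Real.rpow_mul hP.le, one_mul, ← Real.rpow_add hP]
          norm_num
        have b3 : (y * (1 - x))^((1:ℝ)/3) = ((y * (1 - x))^(-(4:ℝ)/3))⁻¹ * (y * (1 - x))⁻¹ := by
          rw [← Real.rpow_neg hQ.le, ← Real.rpow_neg_one (y * (1 - x)), ← Real.rpow_add hQ]
          norm_num
        have b4 : r^(-(2/3) : ℝ) = r^(-(2:ℝ)/3) := by norm_num
        rw [b1, b2, b3, b4, hl]
        have c1 : (y * (1 - x))^(-(4:ℝ)/3) ≠ 0 := (Real.rpow_pos_of_pos hQ _).ne'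
        field_simp
      have a2 : (x * (1 - y))^((1:ℝ)/3) * (y * (1 - x))^((1:ℝ)/3) =
          t^((2:ℝ)/3) * (ρ*σ)^((2:ℝ)/3) := by
        rw [← Real.mul_rpow hP.le hQ.le]
        have : x * (1 - y) * (y * (1 - x)) = (t * (ρ*σ))^2 := by
          have : x * (1 - y) * (y * (1 - x)) = (x * y) * ((1 - x) * (1 - y)) := by ring
          rw [this, h12, h7]
          ring
        rw [this, ← Real.rpow_natCast (t * (ρ*σ)) 2, ← Real.rpow_mul (by positivity),
          Real.mul_rpow ht0.le (by positivity)]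
        norm_num
      have a3 : t^(-(1:ℝ)/3) = t^((2:ℝ)/3) / t := by
        rw [eq_div_iff ht0.ne']
        calc t^(-(1:ℝ)/3) * t = t^(-(1:ℝ)/3) * t^(1:ℝ) := by rw [Real.rpow_one]
          _ = _ := by rw [← Real.rpow_add ht0]; norm_num
      have a4 : r^(-(5:ℝ)/3) = r^(-(2:ℝ)/3) / r := by
        rw [eq_div_iff hr.ne']
        calc r^(-(5:ℝ)/3) * r = r^(-(5:ℝ)/3) * r^(1:ℝ) := by rw [Real.rpow_one]
          _ = _ := by rw [← Real.rpow_add hr]; norm_num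
      have a5 : BB / 2 * (gd l / BB * (2 * l / (t * r))) = (gd l * (2 * l / (t * r))) / 2 := by
        field_simp
      have a6 : 2 / (t * r) * ((x * (1 - y))^((1:ℝ)/3) *
          (r^(-(2:ℝ)/3) * (y * (1 - x))^((1:ℝ)/3))) / 2 =
          ((x * (1 - y))^((1:ℝ)/3) * (y * (1 - x))^((1:ℝ)/3)) * r^(-(2:ℝ)/3) / (t * r) := by
        field_simp
      rw [a5, a1, a6, a2, a3, a4]
      field_simp
    rw [e]
    exact h2
  have hpos : ∀ t ∈ Set.Ioo (0:ℝ) 1, 0 ≤ W t := by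
    intro t ht
    obtain ⟨hr, h21, h12, _, _, hx2, h5⟩ := roots hρ hσ hρσ ht.1.le ht.2.le
    have ht0 := ht.1
    rw [hW]
    simp only
    rw [h21]
    positivity
  have hint : IntervalIntegrable W volume 0 1 := by
    refine intervalIntegral.intervalIntegrable_deriv_of_nonneg (g := g) ?_ ?_ ?_
    · rw [Set.uIcc_of_le zero_le_one]
      exact hcont
    · rw [min_eq_left zero_le_one, max_eq_right zero_le_one]
      exact hderiv
    · rw [min_eq_left zero_le_one, max_eq_right zero_le_one]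
      exact hpos
  refine ⟨hint, ?_⟩
  rw [intervalIntegral.integral_eq_sub_of_hasDerivAt_of_le zero_le_one hcont hderiv hint, hg]
  simp only [one_mul, zero_mul]
  have h0 : lam 0 0 = 0 := by
    unfold lam x1 rr
    simp
  rw [h0, cardy_zero]
  ring

end

end A2

open A2 Pool.Agent.NH38.Step Pool.Agent.NH38.Fork Pool.Agent.NH38.Fork.NG4 in
theorem t1_F4 : S1_WI → S1_F4 := by
  intro hWI ρ σ hρ hσ hρσ
  have hA : 0 < ρ^2 := by positivity
  have hB : 0 < σ^2 := by positivity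
  have hWt : ∀ t : ℝ, 0 < t → t ≤ 1 → HasSum (fun m : ℕ => t^m * wp1 (ρ^2) (σ^2) m)
      ((x2 (t * ρ^2) (t * σ^2) - x1 (t * ρ^2) (t * σ^2))^(-(5:ℝ)/3)) := by
    intro t h0 h1
    have hs1 : √t ≤ 1 := Real.sqrt_le_iff.2 ⟨zero_le_one, by linarith⟩
    have hs0 : 0 ≤ √t := Real.sqrt_nonneg _
    have h2 : √(t * ρ^2) + √(t * σ^2) < 1 := by
      rw [Real.sqrt_mul h0.le, Real.sqrt_mul h0.le, Real.sqrt_sq hρ.le, Real.sqrt_sq hσ.le]
      nlinarith
    have h3 := hWI (t * ρ^2) (t * σ^2) (by positivity) (by positivity) h2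
    have e : wp1 (t * ρ^2) (t * σ^2) = fun m : ℕ => t^m * wp1 (ρ^2) (σ^2) m := by
      funext m
      exact wp1_scale _ _ _ _
    rwa [e] at h3
  have hw1 : Summable (fun m : ℕ => wp1 (ρ^2) (σ^2) m) := by
    have := (hWt 1 one_pos le_rfl).summable
    simpa using this
  -- the integrals of the terms
  set F : ℕ → ℝ → ℝ := fun m t => wp1 (ρ^2) (σ^2) m * t^((m:ℝ) - 1/3) with hF
  have hexp : ∀ m : ℕ, -1 < (m:ℝ) - 1/3 := fun m => by
    have : (0:ℝ) ≤ m := Nat.cast_nonneg m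
    linarith
  have hFint : ∀ m, IntervalIntegrable (F m) volume 0 1 := fun m =>
    (intervalIntegral.intervalIntegrable_rpow' (hexp m)).const_mul _
  have hFval : ∀ m, ∫ t in (0:ℝ)..1, F m t = wp1 (ρ^2) (σ^2) m * (1 / ((m:ℝ) + 2/3)) := by
    intro m
    rw [hF]
    simp only
    rw [intervalIntegral.integral_const_mul, integral_rpow (Or.inl (hexp m)), Real.one_rpow,
      Real.zero_rpow (by have := hexp m; linarith)]
    congr 1
    rw [sub_zero]
    congr 1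
    ring
  have hsum := MeasureTheory.hasSum_integral_of_summable_integral_norm
    (μ := volume.restrict (Set.Ioc (0:ℝ) 1)) (F := F) (fun m => (intervalIntegrable_iff_integrableOn_Ioc_of_le
      zero_le_one).1 (hFint m)) (by
    have h1 : ∀ m, ∫ t in Set.Ioc (0:ℝ) 1, ‖F m t‖ = wp1 (ρ^2) (σ^2) m * (1 / ((m:ℝ) + 2/3)) := by
      intro m
      rw [← hFval m, intervalIntegral.integral_of_le zero_le_one]
      refine MeasureTheory.setIntegral_congr_fun measurableSet_Ioc fun t ht => ?_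
      have : 0 ≤ F m t := mul_nonneg (wp1_nonneg hA hB m) (Real.rpow_nonneg ht.1.le _)
      exact Real.norm_of_nonneg this
    simp only [h1]
    refine Summable.of_nonneg_of_le (fun m => mul_nonneg (wp1_nonneg hA hB m) (by positivity))
      (fun m => ?_) (hw1.mul_right 3)
    refine mul_le_mul_of_nonneg_left ?_ (wp1_nonneg hA hB m)
    rw [div_le_iff₀ (by positivity)]
    have : (0:ℝ) ≤ m := Nat.cast_nonneg m
    linarith)
  have hval : ∫ t in Set.Ioc (0:ℝ) 1, ∑' m, F m t =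
      ((ρ*σ)^((2:ℝ)/3))⁻¹ * (Pool.Agent.NH38.Step.A2.BB / 2 * cardy (lam (ρ^2) (σ^2))) := by
    rw [← (integ1 hρ hσ hρσ).2, intervalIntegral.integral_of_le zero_le_one]
    refine MeasureTheory.setIntegral_congr_fun measurableSet_Ioc fun t ht => ?_
    have h1 := ((hWt t ht.1 ht.2).mul_left (t^(-(1:ℝ)/3))).tsum_eq
    rw [← h1]
    refine tsum_congr fun m => ?_
    have ht0 : 0 < t := ht.1
    rw [hF]
    simp only
    have e : t^((m:ℝ) - 1/3) = t^(-(1:ℝ)/3) * t^m := by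
      rw [← Real.rpow_natCast t m, ← Real.rpow_add ht0]
      congr 1
      ring
    rw [e]
    ring
  rw [hval] at hsum
  have hsum2 : HasSum (fun m => ap1 (ρ^2) (σ^2) m)
      (2/3 * (((ρ*σ)^((2:ℝ)/3))⁻¹ *
        (Pool.Agent.NH38.Step.A2.BB / 2 * cardy (lam (ρ^2) (σ^2))))) := by
    have h1 := hsum.mul_left (2/3)
    have e : (fun m => ap1 (ρ^2) (σ^2) m) = fun m => 2/3 * ∫ t in Set.Ioc (0:ℝ) 1, F m t := by
      funext m
      rw [ap1_eq, ← hFval m, intervalIntegral.integral_of_le zero_le_one]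
    rwa [e]
  have h1 := hsum2.mul_left ((2*ρ*σ)^((2:ℝ)/3) * (3 / (2*Bt)))
  have hρ3 : 0 < (ρ*σ)^((2:ℝ)/3) := Real.rpow_pos_of_pos (mul_pos hρ hσ) _
  have h23 : (0:ℝ) < 2^((2:ℝ)/3) := by positivity
  have hBB := Pool.Agent.NH38.Step.A2.BB_pos
  have e : (2*ρ*σ)^((2:ℝ)/3) * (3 / (2*Bt)) * (2/3 * (((ρ*σ)^((2:ℝ)/3))⁻¹ *
      (Pool.Agent.NH38.Step.A2.BB / 2 * cardy (lam (ρ^2) (σ^2))))) = cardy (lam (ρ^2) (σ^2)) := by
    rw [Bt_BB, mul_assoc 2 ρ σ, Real.mul_rpow (by norm_num) (mul_pos hρ hσ).le]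
    field_simp
  rw [e] at h1
  exact h1

end Pool.Agent.H966.T1
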