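import Pool.Agent.H966.T1.Stubs2
import Pool.Graph.R_pool_sql_team_seeded_3dad9d7b.NH38.Fork.NG1
import Pool.Graph.R_pool_sql_team_seeded_3dad9d7b.NH38.Fork.NG2
import Pool.Graph.R_pool_sql_team_seeded_3dad9d7b.NH38.Fork.N5

set_option autoImplicit false

/-!
# T1-A3: the asymptotics of `FT` (S1_Asy). helper209.
-/

namespace Pool.Agent.H966.T1.A3

open Polynomial Filter Topology Finset
open Pool.Agent.NH38.Step (cardy)
open Pool.Agent.NH38.Fork

/-- the factors of the masses -/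
noncomputable def hf (N i : ℕ) : ℚ :=
  4 * ((i:ℚ) + 2/3) * (i + 4/3) / (((N:ℚ) - 3 - 2*i) * (N + 4 + 2*i))

lemma M1_pos (n : ℕ) : 0 < M1 n := by
  unfold M1
  refine mul_pos (by norm_num) (Finset.prod_pos fun i _ => by positivity)

lemma kap_pos (a : ℕ) : 0 < kap a := by
  unfold kap
  exact Finset.prod_pos fun i _ => by positivity

lemma M1_anti : Antitone M1 := by
  apply antitone_nat_of_succ_le
  intro n
  have h1 : M1 (n+1) = M1 n * ((2*(n:ℚ) + 3) * (3*n + 10) / ((n + 4) * (6*n + 13))) := by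
    unfold M1
    rw [Finset.prod_range_succ]
    ring
  rw [h1]
  have h2 : ((2*(n:ℚ) + 3) * (3*n + 10) / ((n + 4) * (6*n + 13))) ≤ 1 := by
    rw [div_le_one (by positivity)]
    have : (0:ℚ) ≤ n := Nat.cast_nonneg n
    nlinarith
  calc M1 n * _ ≤ M1 n * 1 := mul_le_mul_of_nonneg_left h2 (M1_pos n).le
    _ = M1 n := mul_one _

lemma hf_nonneg {N i : ℕ} (hi : 2 * i + 4 ≤ N) : 0 ≤ hf N i := by
  unfold hf
  have h2 : (0:ℚ) ≤ (N:ℚ) - 3 - 2*i := by
    have : ((2 * i + 4 : ℕ) : ℚ) ≤ N := by exact_mod_cast hi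
    push_cast at this
    linarith
  positivity

lemma hf_le {N0 N i : ℕ} {r : ℝ} (hi : 2 * i + 4 ≤ N0) (hn : N0 ≤ N)
    (hr : (N0:ℝ) - 3 ≤ r * (N - 3)) (hr0 : 0 ≤ r) (hr1 : r ≤ 1) :
    ((hf N i : ℚ) : ℝ) ≤ r * ((hf N0 i : ℚ) : ℝ) := by
  unfold hf
  push_cast
  have hi0 : (0:ℝ) ≤ i := Nat.cast_nonneg i
  have h1 : 2 * (i:ℝ) + 4 ≤ N0 := by exact_mod_cast hi
  have hn' : (N0:ℝ) ≤ N := by exact_mod_cast hn
  have h2 : (0:ℝ) < N - 3 - 2*i := by linarith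
  have h3 : (0:ℝ) < N + 4 + 2*i := by linarith
  have h4 : (0:ℝ) < N0 - 3 - 2*i := by linarith
  have h5 : (0:ℝ) < N0 + 4 + 2*i := by linarith
  have e1 : r * (4 * ((i:ℝ) + 2/3) * (i + 4/3) / ((N0 - 3 - 2*i) * (N0 + 4 + 2*i))) =
    (r * (4 * ((i:ℝ) + 2/3) * (i + 4/3))) / ((N0 - 3 - 2*i) * (N0 + 4 + 2*i)) := by ring
  rw [e1, div_le_div_iff₀ (by positivity) (by positivity)]
  have e2 : ((N0:ℝ) - 3 - 2*i) * (N0 + 4 + 2*i) ≤ r * ((N - 3 - 2*i) * (N + 4 + 2*i)) := by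
    have a1 : ((N0:ℝ) - 3 - 2*i) ≤ r * (N - 3 - 2*i) := by nlinarith
    have a2 : ((N0:ℝ) + 4 + 2*i) ≤ N + 4 + 2*i := by linarith
    calc _ ≤ (r * (N - 3 - 2*i)) * (N + 4 + 2*i) :=
          mul_le_mul a1 a2 h5.le (mul_nonneg hr0 h2.le)
      _ = _ := by ring
  calc _ ≤ 4 * ((i:ℝ) + 2/3) * (i + 4/3) * (r * ((N - 3 - 2*i) * (N + 4 + 2*i))) :=
        mul_le_mul_of_nonneg_left e2 (by positivity)
    _ = _ := by ring

lemma nj_eq (N j : ℕ) : nj N j = M1 ((N-4)/2) / 9 * ∏ i ∈ range j, hf N i := rfl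

lemma prod_hf_nonneg {N j : ℕ} (hj : 2 * j + 2 ≤ N) : 0 ≤ ∏ i ∈ range j, hf N i :=
  Finset.prod_nonneg fun i hi => hf_nonneg (by rw [mem_range] at hi; omega)

lemma nj_nonneg {N j : ℕ} (hj : 2 * j + 2 ≤ N) : 0 ≤ nj N j := by
  rw [nj_eq]
  have := prod_hf_nonneg hj
  have := M1_pos ((N-4)/2)
  positivity

lemma nj_le {N0 N j : ℕ} {r : ℝ} (hj : 2 * j + 2 ≤ N0) (hn : N0 ≤ N)
    (hr : (N0:ℝ) - 3 ≤ r * (N - 3)) (hr0 : 0 ≤ r) (hr1 : r ≤ 1) :
    ((nj N j : ℚ) : ℝ) ≤ r^j * ((nj N0 j : ℚ) : ℝ) := by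
  rw [nj_eq, nj_eq]
  push_cast
  have h1 : ∏ i ∈ range j, ((hf N i : ℚ) : ℝ) ≤ r^j * ∏ i ∈ range j, ((hf N0 i : ℚ) : ℝ) := by
    have h := Finset.prod_le_prod (s := range j) (f := fun i => ((hf N i : ℚ) : ℝ))
      (g := fun i => r * ((hf N0 i : ℚ) : ℝ))
      (fun i hi => by exact_mod_cast hf_nonneg (by rw [mem_range] at hi; omega))
      (fun i hi => hf_le (by rw [mem_range] at hi; omega) hn hr hr0 hr1)
    rwa [Finset.prod_mul_distrib, Finset.prod_const, Finset.card_range] at h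
  have h2 : ((M1 ((N-4)/2) : ℚ) : ℝ) ≤ ((M1 ((N0-4)/2) : ℚ) : ℝ) := by
    exact_mod_cast M1_anti (by omega)
  have h3 : (0:ℝ) < ((M1 ((N-4)/2) : ℚ) : ℝ) := by exact_mod_cast M1_pos _
  have h4 : (0:ℝ) ≤ ∏ i ∈ range j, ((hf N0 i : ℚ) : ℝ) := by
    have := prod_hf_nonneg hj
    exact_mod_cast this
  calc ((M1 ((N-4)/2) : ℚ) : ℝ) / 9 * ∏ i ∈ range j, ((hf N i : ℚ) : ℝ)
      ≤ ((M1 ((N-4)/2) : ℚ) : ℝ) / 9 * (r^j * ∏ i ∈ range j, ((hf N0 i : ℚ) : ℝ)) :=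
        mul_le_mul_of_nonneg_left h1 (by positivity)
    _ ≤ ((M1 ((N0-4)/2) : ℚ) : ℝ) / 9 * (r^j * ∏ i ∈ range j, ((hf N0 i : ℚ) : ℝ)) :=
        mul_le_mul_of_nonneg_right (by linarith) (by positivity)
    _ = _ := by ring

/-- the limits of the factors -/
lemma hf_lim {N : ℕ → ℕ} (hN : Tendsto N atTop atTop) (j : ℕ) :
    Tendsto (fun i => (N i : ℝ)^2 * ((hf (N i) j : ℚ) : ℝ)) atTop
      (𝓝 (4 * ((2/3 + (j:ℝ)) * (4/3 + j)))) := by
  have hn' : Tendsto (fun i => ((N i : ℕ) : ℝ)) atTop atTop :=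
    tendsto_natCast_atTop_atTop.comp hN
  have hc : ∀ c : ℝ, Tendsto (fun i => c / (N i : ℝ)) atTop (𝓝 0) := fun c =>
    Tendsto.div_atTop tendsto_const_nhds hn'
  have h1 : Tendsto (fun i => 4 * ((2/3 + (j:ℝ)) * (4/3 + j)) /
      ((1 - (3 + 2 * (j:ℝ)) / N i) * (1 + (4 + 2 * j) / N i))) atTop
      (𝓝 (4 * ((2/3 + (j:ℝ)) * (4/3 + j)) / ((1 - 0) * (1 + 0)))) := by
    refine Tendsto.div tendsto_const_nhds ?_ (by norm_num)
    exact (tendsto_const_nhds.sub (hc (3 + 2 * j))).mul (tendsto_const_nhds.add (hc (4 + 2 * j)))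
  have h2 : (4 * ((2/3 + (j:ℝ)) * (4/3 + j)) / ((1 - 0) * (1 + 0))) =
      4 * ((2/3 + (j:ℝ)) * (4/3 + j)) := by ring
  rw [h2] at h1
  refine h1.congr' ?_
  filter_upwards [hn'.eventually_gt_atTop 0] with i hi
  unfold hf
  push_cast
  have hne : (N i : ℝ) ≠ 0 := hi.ne'
  rw [show (1 - (3 + 2 * (j:ℝ)) / N i) * (1 + (4 + 2 * j) / N i) =
      (((N i : ℝ) - 3 - 2 * j) * (N i + 4 + 2 * j)) / ((N i : ℝ)^2) by
        field_simp; ring]
  rw [div_div_eq_mul_div]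
  ring

/-- the limit of the masses -/
lemma nj_lim {N : ℕ → ℕ} (hN : Tendsto N atTop atTop) (j : ℕ) :
    Tendsto (fun i => (N i : ℝ)^(2*j) * ((nj (N i) j / (M1 ((N i - 4)/2) / 9) : ℚ) : ℝ)) atTop
      (𝓝 (4^j * (rf (2/3) j * rf (4/3) j))) := by
  have h1 : Tendsto (fun i => ∏ l ∈ range j, ((N i : ℝ)^2 * ((hf (N i) l : ℚ) : ℝ))) atTop
      (𝓝 (∏ l ∈ range j, (4 * ((2/3 + (l:ℝ)) * (4/3 + l))))) :=
    tendsto_finsetProd _ fun l _ => hf_lim hN l
  have e : ∏ l ∈ range j, (4 * ((2/3 + (l:ℝ)) * (4/3 + l))) = 4^j * (rf (2/3) j * rf (4/3) j) := by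
    unfold rf
    rw [Finset.prod_mul_distrib, Finset.prod_mul_distrib, Finset.prod_const, Finset.card_range]
  rw [e] at h1
  refine h1.congr' (Eventually.of_forall fun i => ?_)
  beta_reduce
  rw [nj_eq]
  have h2 := (M1_pos ((N i - 4)/2)).ne'
  rw [show (M1 ((N i - 4)/2) / 9 * ∏ l ∈ range j, hf (N i) l) / (M1 ((N i - 4)/2) / 9) =
    ∏ l ∈ range j, hf (N i) l by field_simp]
  push_cast
  rw [Finset.prod_mul_distrib, Finset.prod_const, Finset.card_range, ← pow_mul]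

lemma M1_eq (n : ℕ) : ((M1 n : ℚ) : ℝ) = 1/3 * (N5.Rat (3/2) 4 n * N5.Rat (10/3) (13/6) n) := by
  unfold M1 N5.Rat
  rw [← Finset.prod_mul_distrib]
  push_cast
  congr 1
  refine Finset.prod_congr rfl fun i _ => ?_
  have h1 : (0:ℝ) ≤ i := Nat.cast_nonneg i
  have h2 : (i:ℝ) + 4 ≠ 0 := by positivity
  have h3 : (6:ℝ) * i + 13 ≠ 0 := by positivity
  have h4 : (i:ℝ) + 13/6 ≠ 0 := by positivity
  field_simp
  ring

/-- the limit of the constant -/
theorem const_lim (a b m : ℕ → ℕ) (ρ σ : ℝ) (hρ : 0 < ρ) (hσ : 0 < σ) (ha : Tendsto a atTop atTop)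
    (hb : Tendsto b atTop atTop) (hm : Tendsto m atTop atTop)
    (hla : Tendsto (fun i => (a i : ℝ) / m i) atTop (𝓝 (2*ρ)))
    (hlb : Tendsto (fun i => (b i : ℝ) / m i) atTop (𝓝 (2*σ))) :
    Tendsto (fun i => ((kap (a i) * kap (b i) * (M1 (m i) / 9) : ℚ) : ℝ)) atTop
      (𝓝 ((2*ρ*σ)^((2:ℝ)/3) * (3 / (2*Bt)))) := by
  have h1 := (N5.Rat_tendsto (s := 4/3) (t := 2/3) (by norm_num) (by norm_num)).comp ha
  have h1b := (N5.Rat_tendsto (s := 4/3) (t := 2/3) (by norm_num) (by norm_num)).comp hb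
  have h2 := (N5.Rat_tendsto (s := 3/2) (t := 4) (by norm_num) (by norm_num)).comp hm
  have h3 := (N5.Rat_tendsto (s := 10/3) (t := 13/6) (by norm_num) (by norm_num)).comp hm
  have h4 : Tendsto (fun i => ((a i : ℝ) / m i)^((2:ℝ)/3)) atTop (𝓝 ((2*ρ)^((2:ℝ)/3))) :=
    hla.rpow_const (Or.inr (by norm_num))
  have h4b : Tendsto (fun i => ((b i : ℝ) / m i)^((2:ℝ)/3)) atTop (𝓝 ((2*σ)^((2:ℝ)/3))) :=
    hlb.rpow_const (Or.inr (by norm_num))
  have h5 := ((h1.mul h1b).mul (((h2.mul h3).const_mul (1/27)))).mul (h4.mul h4b)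
  have g1 : Real.Gamma (4/3) = 1/3 * Real.Gamma (1/3) := by
    have := Real.Gamma_add_one (s := 1/3) (by norm_num)
    rw [← this]
    norm_num
  have g2 : Real.Gamma 4 = 6 := by
    rw [show (4:ℝ) = ((3:ℕ):ℝ) + 1 by norm_num, Real.Gamma_nat_eq_factorial 3]
    norm_num [Nat.factorial]
  have g3 : Real.Gamma (3/2) = 1/2 * Real.Gamma (1/2) := by
    have := Real.Gamma_add_one (s := 1/2) (by norm_num)
    rw [← this]
    norm_num
  have g4 : Real.Gamma (10/3) = 28/27 * Real.Gamma (1/3) := by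
    have a1 := Real.Gamma_add_one (s := 7/3) (by norm_num)
    have a2 := Real.Gamma_add_one (s := 4/3) (by norm_num)
    have e1 : (7:ℝ)/3 + 1 = 10/3 := by norm_num
    have e2 : (4:ℝ)/3 + 1 = 7/3 := by norm_num
    rw [e1] at a1
    rw [e2] at a2
    rw [a1, a2, g1]
    ring
  have g5 : Real.Gamma (13/6) = 7/36 * Real.Gamma (1/6) := by
    have a1 := Real.Gamma_add_one (s := 7/6) (by norm_num)
    have a2 := Real.Gamma_add_one (s := 1/6) (by norm_num)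
    have e1 : (7:ℝ)/6 + 1 = 13/6 := by norm_num
    have e2 : (1:ℝ)/6 + 1 = 7/6 := by norm_num
    rw [e1] at a1
    rw [e2] at a2
    rw [a1, a2]
    ring
  have p1 : 0 < Real.Gamma (1/3) := Real.Gamma_pos_of_pos (by norm_num)
  have p2 : 0 < Real.Gamma (2/3) := Real.Gamma_pos_of_pos (by norm_num)
  have p3 : 0 < Real.Gamma (1/2) := Real.Gamma_pos_of_pos (by norm_num)
  have p4 : 0 < Real.Gamma (5/6) := Real.Gamma_pos_of_pos (by norm_num)
  have p5 : 0 < Real.Gamma (1/6) := Real.Gamma_pos_of_pos (by norm_num)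
  -- duplication formulas
  have d1 : Real.Gamma (1/6) * Real.Gamma (2/3) =
      Real.Gamma (1/3) * 2^((2:ℝ)/3) * Real.sqrt Real.pi := by
    have := Real.Gamma_mul_Gamma_add_half (1/6)
    have e1 : (1:ℝ)/6 + 1/2 = 2/3 := by norm_num
    have e2 : (2:ℝ) * (1/6) = 1/3 := by norm_num
    have e3 : (1:ℝ) - 1/3 = 2/3 := by norm_num
    rw [e1, e2, e3] at this
    exact this
  have d2 : Real.Gamma (1/3) * Real.Gamma (5/6) =
      Real.Gamma (2/3) * 2^((1:ℝ)/3) * Real.sqrt Real.pi := by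
    have := Real.Gamma_mul_Gamma_add_half (1/3)
    have e1 : (1:ℝ)/3 + 1/2 = 5/6 := by norm_num
    have e2 : (2:ℝ) * (1/3) = 2/3 := by norm_num
    have e3 : (1:ℝ) - 2/3 = 1/3 := by norm_num
    rw [e1, e2, e3] at this
    exact this
  have e2 : (2:ℝ)^((2:ℝ)/3) * 2^((2:ℝ)/3) = 2 * 2^((1:ℝ)/3) := by
    rw [← Real.rpow_add (by norm_num)]
    have : (2:ℝ) * 2^((1:ℝ)/3) = 2^((1:ℝ) + 1/3) := by
      rw [Real.rpow_add (by norm_num), Real.rpow_one]
    rw [this]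
    norm_num
  have key : (2:ℝ)^((2:ℝ)/3) * (Real.Gamma (2/3) * Real.Gamma (2/3) * Real.Gamma (1/6)) =
      2 * (Real.Gamma (5/6) * Real.Gamma (1/3) * Real.Gamma (1/3)) := by
    calc (2:ℝ)^((2:ℝ)/3) * (Real.Gamma (2/3) * Real.Gamma (2/3) * Real.Gamma (1/6))
        = (2:ℝ)^((2:ℝ)/3) * Real.Gamma (2/3) * (Real.Gamma (1/6) * Real.Gamma (2/3)) := by ring
      _ = ((2:ℝ)^((2:ℝ)/3) * 2^((2:ℝ)/3)) * (Real.Gamma (2/3) * Real.Gamma (1/3) *
            Real.sqrt Real.pi) := by rw [d1]; ring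
      _ = 2 * Real.Gamma (1/3) * (Real.Gamma (2/3) * 2^((1:ℝ)/3) * Real.sqrt Real.pi) := by
          rw [e2]; ring
      _ = _ := by rw [← d2]; ring
  have hr : (2*ρ)^((2:ℝ)/3) * (2*σ)^((2:ℝ)/3) = 2^((2:ℝ)/3) * (2*ρ*σ)^((2:ℝ)/3) := by
    rw [← Real.mul_rpow (by positivity) (by positivity),
      ← Real.mul_rpow (by positivity) (by positivity)]
    congr 1
    ring
  have e : Real.Gamma (2/3) / Real.Gamma (4/3) * (Real.Gamma (2/3) / Real.Gamma (4/3)) *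
      (1/27 * (Real.Gamma 4 / Real.Gamma (3/2) * (Real.Gamma (13/6) / Real.Gamma (10/3)))) *
      ((2*ρ)^((2:ℝ)/3) * (2*σ)^((2:ℝ)/3)) = (2*ρ*σ)^((2:ℝ)/3) * (3 / (2*Bt)) := by
    rw [hr, N5.Bt_eq, g1, g2, g3, g4, g5]
    have k2 : (2:ℝ)^((2:ℝ)/3) = 2 * (Real.Gamma (5/6) * Real.Gamma (1/3) * Real.Gamma (1/3)) /
        (Real.Gamma (2/3) * Real.Gamma (2/3) * Real.Gamma (1/6)) := by
      rw [← key]
      field_simp
    rw [k2]
    field_simp
    ring
  rw [e] at h5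
  refine h5.congr' ?_
  filter_upwards [ha.eventually_ge_atTop 1, hb.eventually_ge_atTop 1, hm.eventually_ge_atTop 1]
    with i hi1 hi1b hi2
  have ha0 : (0:ℝ) < a i := by exact_mod_cast hi1
  have hb0 : (0:ℝ) < b i := by exact_mod_cast hi1b
  have hn0 : (0:ℝ) < m i := by exact_mod_cast hi2
  simp only [Function.comp]
  rw [Rat.cast_mul, Rat.cast_mul, Rat.cast_div, N5.kap_eq, N5.kap_eq, M1_eq,
    Real.div_rpow ha0.le hn0.le, Real.div_rpow hb0.le hn0.le]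
  have e1 : (a i : ℝ)^((2:ℝ)/3 - 4/3) * (a i : ℝ)^((2:ℝ)/3) = 1 := by
    rw [← Real.rpow_add ha0]
    norm_num
  have e1b : (b i : ℝ)^((2:ℝ)/3 - 4/3) * (b i : ℝ)^((2:ℝ)/3) = 1 := by
    rw [← Real.rpow_add hb0]
    norm_num
  have e2 : (m i : ℝ)^((4:ℝ) - 3/2) * (m i : ℝ)^((13:ℝ)/6 - 10/3) =
      (m i : ℝ)^((2:ℝ)/3) * (m i : ℝ)^((2:ℝ)/3) := by
    rw [← Real.rpow_add hn0, ← Real.rpow_add hn0]
    norm_num
  have hn1 : (m i : ℝ)^((2:ℝ)/3) ≠ 0 := by positivity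
  calc N5.Rat (4/3) (2/3) (a i) * (a i : ℝ)^((2:ℝ)/3 - 4/3) *
        (N5.Rat (4/3) (2/3) (b i) * (b i : ℝ)^((2:ℝ)/3 - 4/3)) *
        (1/27 * (N5.Rat (3/2) 4 (m i) * (m i : ℝ)^((4:ℝ) - 3/2) *
          (N5.Rat (10/3) (13/6) (m i) * (m i : ℝ)^((13:ℝ)/6 - 10/3)))) *
        ((a i : ℝ)^((2:ℝ)/3) / (m i : ℝ)^((2:ℝ)/3) * ((b i : ℝ)^((2:ℝ)/3) / (m i : ℝ)^((2:ℝ)/3)))
      = N5.Rat (4/3) (2/3) (a i) * N5.Rat (4/3) (2/3) (b i) *
          (1/27 * (N5.Rat (3/2) 4 (m i) * N5.Rat (10/3) (13/6) (m i))) *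
        ((a i : ℝ)^((2:ℝ)/3 - 4/3) * (a i : ℝ)^((2:ℝ)/3)) *
        ((b i : ℝ)^((2:ℝ)/3 - 4/3) * (b i : ℝ)^((2:ℝ)/3)) *
        (((m i : ℝ)^((4:ℝ) - 3/2) * (m i : ℝ)^((13:ℝ)/6 - 10/3)) /
          ((m i : ℝ)^((2:ℝ)/3) * (m i : ℝ)^((2:ℝ)/3))) := by
        field_simp
    _ = _ := by
        rw [e1, e1b, e2, div_self (mul_ne_zero hn1 hn1), mul_one, mul_one, mul_one]
        push_cast
        ring

end Pool.Agent.H966.T1.A3

namespace Pool.Agent.H966.T1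

open Polynomial Filter Topology Finset
open Pool.Agent.NH38.Step (cardy)
open Pool.Agent.NH38.Fork
open A3

theorem t1_Asy (hF4 : S1_F4) (hb1 : ∀ a b : ℕ, Odd a → Odd b → FT a b (a+b+2) ≤ 1) : S1_Asy := by
  intro a b N ρ σ hρ hσ hρσ ha hb hN habN hNt hla hlb
  have hpos := t_pos
  have hsv := t_svA
  -- `a + b + 2 ≤ N`
  set N0 : ℕ → ℕ := fun i => a i + b i + 2 with hN0
  have hN0e : ∀ i, a i + b i + 2 = N0 i := fun i => rfl
  have hNN : ∀ i, N0 i ≤ N i := fun i => by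
    obtain ⟨x, hx⟩ := ha i
    obtain ⟨y, hy⟩ := hb i
    obtain ⟨z, hz⟩ := hN i
    have := habN i
    show a i + b i + 2 ≤ N i
    omega
  set m : ℕ → ℕ := fun i => (N i - 4) / 2 with hm
  have hNm : ∀ i, 4 ≤ N i → N i = 2 * m i + 4 := fun i h => by
    obtain ⟨z, hz⟩ := hN i
    show N i = 2 * ((N i - 4) / 2) + 4
    omega
  have hmt : Tendsto m atTop atTop := by
    rw [tendsto_atTop] at hNt ⊢
    intro c
    filter_upwards [hNt (2 * c + 4)] with i hi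
    show c ≤ (N i - 4) / 2
    omega
  have hNt' : Tendsto (fun i => ((N i : ℕ) : ℝ)) atTop atTop :=
    tendsto_natCast_atTop_atTop.comp hNt
  have hmt' : Tendsto (fun i => ((m i : ℕ) : ℝ)) atTop atTop :=
    tendsto_natCast_atTop_atTop.comp hmt
  have hc : ∀ c : ℝ, Tendsto (fun i => c / (m i : ℝ)) atTop (𝓝 0) := fun c =>
    Tendsto.div_atTop tendsto_const_nhds hmt'
  have key : ∀ (f : ℕ → ℕ) (τ : ℝ), Tendsto (fun i => (f i : ℝ) / N i) atTop (𝓝 τ) →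
      Tendsto (fun i => (f i : ℝ) / m i) atTop (𝓝 (2 * τ)) := by
    intro f τ hf
    have h1 : Tendsto (fun i => (f i : ℝ) / N i * (2 * (1 + 2 / m i))) atTop
        (𝓝 (τ * (2 * (1 + 0)))) := hf.mul ((tendsto_const_nhds.add (hc 2)).const_mul 2)
    rw [show τ * (2 * (1 + 0)) = 2 * τ by ring] at h1
    refine h1.congr' ?_
    filter_upwards [hmt'.eventually_gt_atTop 0, hNt.eventually_ge_atTop 4] with i hi hi4
    have h3 : (N i : ℝ) = 2 * m i + 4 := by exact_mod_cast hNm i hi4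
    rw [h3]
    have h2 : (2 * (m i : ℝ) + 4) ≠ 0 := by positivity
    field_simp
    ring
  have hla' := key a ρ hla
  have hlb' := key b σ hlb
  have toinf : ∀ (f : ℕ → ℕ) (τ : ℝ), 0 < τ → Tendsto (fun i => (f i : ℝ) / N i) atTop (𝓝 τ) →
      Tendsto f atTop atTop := by
    intro f τ hτ hf
    have h1 : Tendsto (fun i => (N i : ℝ) * ((f i : ℝ) / N i)) atTop atTop :=
      hNt'.atTop_mul_pos hτ hf
    have h2 : Tendsto (fun i => (f i : ℝ)) atTop atTop := by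
      refine h1.congr' ?_
      filter_upwards [hNt'.eventually_gt_atTop 0] with i hi
      field_simp
    exact tendsto_natCast_atTop_iff.mp h2
  have hat : Tendsto a atTop atTop := toinf a ρ hρ hla
  have hbt : Tendsto b atTop atTop := toinf b σ hσ hlb
  have half : ∀ (f : ℕ → ℕ), Tendsto f atTop atTop → Tendsto (fun i => (f i - 1) / 2) atTop atTop := by
    intro f hf
    rw [tendsto_atTop]
    intro c
    filter_upwards [hf.eventually_ge_atTop (2 * c + 1)] with i hi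
    omega
  -- the bound `r`
  set r : ℝ := (1 + (ρ + σ)) / 2 with hr
  have hr1 : r < 1 := by rw [hr]; linarith
  have hr0 : 0 < r := by rw [hr]; linarith
  have hrb : ∀ᶠ i in atTop, (N0 i : ℝ) - 3 ≤ r * (N i - 3) := by
    have hcN : Tendsto (fun i => 2 / (N i : ℝ)) atTop (𝓝 0) :=
      Tendsto.div_atTop tendsto_const_nhds hNt'
    have h1 : Tendsto (fun i => ((a i : ℝ) / N i + (b i : ℝ) / N i) + 2 / (N i : ℝ)) atTop
        (𝓝 ((ρ+σ) + 0)) := (hla.add hlb).add hcN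
    have h2 : (ρ+σ) + 0 < r := by rw [hr]; linarith
    filter_upwards [h1.eventually (gt_mem_nhds h2), hNt'.eventually_gt_atTop 0] with i hi hi0
    rw [← add_div, ← add_div, div_lt_iff₀ hi0] at hi
    have h3 : (a i : ℝ) + b i + 2 = N0 i := by exact_mod_cast hN0e i
    rw [h3] at hi
    nlinarith
  -- the constants
  have hK := const_lim a b m ρ σ hρ hσ hat hbt hmt hla' hlb'
  set c0 : ℝ := (2*ρ*σ)^((2:ℝ)/3) * (3 / (2*Bt)) with hc0
  -- the terms
  let t : ℕ → ℕ → ℝ := fun i j => if j < (a i + b i) / 2 then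
    (((sv (a i) * sv (b i)).coeff j * nj (N i) j : ℚ) : ℝ) else 0
  have hcg : ∀ x y j, 0 ≤ (sv x * sv y).coeff j := by
    intro x y j
    rw [Polynomial.coeff_mul]
    exact Finset.sum_nonneg fun p _ => mul_nonneg (hpos x p.1).2 (hpos y p.2).2
  have hsum : ∀ i, ∑' j, t i j = ((FT (a i) (b i) (N i) : ℚ) : ℝ) := by
    intro i
    rw [tsum_eq_sum (s := range ((a i + b i) / 2)) (fun j hj => by
      simp only [t]; rw [if_neg (by rwa [mem_range] at hj)])]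
    unfold FT
    push_cast
    refine Finset.sum_congr rfl fun j hj => ?_
    simp only [t]
    rw [if_pos (mem_range.mp hj)]
    push_cast
    rfl
  have hbd0 : ∀ i j, j < (a i + b i) / 2 →
      (((sv (a i) * sv (b i)).coeff j * nj (N0 i) j : ℚ) : ℝ) ≤ 1 := by
    intro i j hj
    have h1 := hb1 (a i) (b i) (ha i) (hb i)
    unfold FT at h1
    have h2 := Finset.single_le_sum (f := fun j => (sv (a i) * sv (b i)).coeff j * nj (N0 i) j)
      (s := range ((a i + b i) / 2)) (fun l hl => mul_nonneg (hcg _ _ _) (nj_nonneg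
        (by rw [mem_range] at hl; show 2 * l + 2 ≤ a i + b i + 2; omega))) (mem_range.mpr hj)
    have h3 : (sv (a i) * sv (b i)).coeff j * nj (N0 i) j ≤ 1 := h2.trans h1
    exact_mod_cast h3
  -- dominated convergence
  have hB := hF4 ρ σ hρ hσ hρσ
  have hdc : Tendsto (fun i => ∑' j, t i j) atTop (𝓝 (∑' j : ℕ, (2*ρ*σ)^((2:ℝ)/3) * (3 / (2*Bt)) *
      ap1 (ρ^2) (σ^2) j)) := by
    refine tendsto_tsum_of_dominated_convergence (bound := fun j => r^j) ?_ ?_ ?_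
    · exact summable_geometric_of_lt_one hr0.le hr1
    · intro j
      -- the termwise limit
      have hs : ∀ (f : ℕ → ℕ), (∀ i, Odd (f i)) → Tendsto f atTop atTop → ∀ m,
          Tendsto (fun i => (((sv (f i)).coeff m / kap (f i) : ℚ) : ℝ) /
          (f i : ℝ)^(2*m)) atTop (𝓝 (1 / (4^m * rf (4/3) m * (Nat.factorial m : ℝ)))) := by
        intro f hfo hft m
        refine ((hsv m).comp (half f hft)).congr fun i => ?_
        obtain ⟨y, hy⟩ := hfo i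
        simp only [Function.comp]
        rw [show 2 * ((f i - 1) / 2) + 1 = f i by omega]
      have hm := nj_lim hNt j
      have hterm : Tendsto (fun i => ∑ p ∈ antidiagonal j,
          (((((sv (b i)).coeff p.1 / kap (b i) : ℚ) : ℝ) / (b i : ℝ)^(2*p.1)) *
            ((b i : ℝ) / N i)^(2*p.1)) *
          (((((sv (a i)).coeff p.2 / kap (a i) : ℚ) : ℝ) / (a i : ℝ)^(2*p.2)) *
            ((a i : ℝ) / N i)^(2*p.2)) *
          (((kap (a i) * kap (b i) * (M1 (m i) / 9) : ℚ) : ℝ) *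
            ((N i : ℝ)^(2*j) * ((nj (N i) j / (M1 (m i) / 9) : ℚ) : ℝ)))) atTop
          (𝓝 (∑ p ∈ antidiagonal j,
            ((1 / (4^p.1 * rf (4/3) p.1 * (Nat.factorial p.1 : ℝ))) * σ^(2*p.1)) *
            ((1 / (4^p.2 * rf (4/3) p.2 * (Nat.factorial p.2 : ℝ))) * ρ^(2*p.2)) *
            (c0 * (4^j * (rf (2/3) j * rf (4/3) j))))) := by
        refine tendsto_finsetSum _ fun p _ => ?_
        exact (((hs b hb hbt p.1).mul (hlb.pow _)).mul ((hs a ha hat p.2).mul (hla.pow _))).mul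
          (hK.mul hm)
      have hval : (∑ p ∈ antidiagonal j,
            ((1 / (4^p.1 * rf (4/3) p.1 * (Nat.factorial p.1 : ℝ))) * σ^(2*p.1)) *
            ((1 / (4^p.2 * rf (4/3) p.2 * (Nat.factorial p.2 : ℝ))) * ρ^(2*p.2)) *
            (c0 * (4^j * (rf (2/3) j * rf (4/3) j)))) =
            (2*ρ*σ)^((2:ℝ)/3) * (3 / (2*Bt)) * ap1 (ρ^2) (σ^2) j := by
        unfold ap1
        rw [Finset.Nat.sum_antidiagonal_eq_sum_range_succ (fun x y =>
          ((1 / (4^x * rf (4/3) x * (Nat.factorial x : ℝ))) * σ^(2*x)) *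
            ((1 / (4^y * rf (4/3) y * (Nat.factorial y : ℝ))) * ρ^(2*y)) *
            (c0 * (4^j * (rf (2/3) j * rf (4/3) j)))) j, Finset.mul_sum]
        refine Finset.sum_congr rfl fun l hl => ?_
        rw [mem_range] at hl
        rw [hc0, pow_mul σ, pow_mul ρ]
        have h7 : (4:ℝ)^j = 4^l * 4^(j-l) := by
          rw [← pow_add]
          congr 1
          omega
        rw [h7]
        have h5 : (4:ℝ)^l ≠ 0 := by positivity
        have h6 : (4:ℝ)^(j-l) ≠ 0 := by positivity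
        field_simp
      rw [hval] at hterm
      refine hterm.congr' ?_
      filter_upwards [hat.eventually_gt_atTop j, hbt.eventually_gt_atTop j,
        hNt'.eventually_gt_atTop 0] with i hia hib hin
      simp only [t]
      have hab2 := ha i
      rw [if_pos (by omega)]
      rw [mul_comm (sv (a i)) (sv (b i)), Polynomial.coeff_mul, Finset.sum_mul, Rat.cast_sum]
      refine Finset.sum_congr rfl fun p hp => ?_
      have hp' : p.1 + p.2 = j := by simpa using hp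
      rw [← hp']
      have h1 : (a i : ℝ) ≠ 0 := by
        have : 0 < a i := by omega
        positivity
      have h2 : (b i : ℝ) ≠ 0 := by
        have : 0 < b i := by omega
        positivity
      have h3 : (N i : ℝ) ≠ 0 := hin.ne'
      have h4 : ((kap (a i) : ℚ) : ℝ) ≠ 0 := by exact_mod_cast (kap_pos (a i)).ne'
      have h4b : ((kap (b i) : ℚ) : ℝ) ≠ 0 := by exact_mod_cast (kap_pos (b i)).ne'
      have h5 : ((M1 (m i) : ℚ) : ℝ) ≠ 0 := by exact_mod_cast (M1_pos (m i)).ne'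
      push_cast
      rw [mul_add, pow_add, div_pow, div_pow]
      field_simp
    · filter_upwards [hrb] with i hi j
      by_cases hj : j < (a i + b i) / 2
      · simp only [t]
        rw [if_pos hj]
        have hj2 : 2 * j + 2 ≤ N0 i := by
          show 2 * j + 2 ≤ a i + b i + 2
          omega
        have h1 := nj_le hj2 (hNN i) hi hr0.le hr1.le
        have h2 := hbd0 i j hj
        have h3 : (0:ℝ) ≤ (((sv (a i) * sv (b i)).coeff j : ℚ) : ℝ) := by exact_mod_cast hcg _ _ _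
        have h4 : (0:ℝ) ≤ ((nj (N i) j : ℚ) : ℝ) := by
          exact_mod_cast nj_nonneg (hj2.trans (hNN i))
        push_cast at h2 ⊢
        rw [Real.norm_eq_abs, abs_of_nonneg (mul_nonneg h3 h4)]
        calc _ ≤ (((sv (a i) * sv (b i)).coeff j : ℚ) : ℝ) * (r^j * ((nj (N0 i) j : ℚ) : ℝ)) :=
              mul_le_mul_of_nonneg_left h1 h3
          _ = r^j * ((((sv (a i) * sv (b i)).coeff j : ℚ) : ℝ) * ((nj (N0 i) j : ℚ) : ℝ)) := by ring
          _ ≤ r^j * 1 := mul_le_mul_of_nonneg_left h2 (by positivity)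
          _ = _ := by ring
      · simp only [t]
        rw [if_neg hj, norm_zero]
        positivity
  rw [hB.tsum_eq] at hdc
  simp only [hsum] at hdc
  exact hdc

end Pool.Agent.H966.T1
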