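import Pool.Agent.H966.T1.Stubs
import Pool.Graph.R_pool_sql_team_seeded_3dad9d7b.NH38.Fork.N1
import Pool.Graph.R_seed8.H337R2.CB.Inst

/-!
Forked channels of even width, both inner walls: task C (helper286). Closed form of the residues.

Write `e(N, j) = R(N+2j+1)(j+2/3)(P*_N)` and `m(N, j) = R(N+2j+2)(j+2/3)((1+T) P*_N)`. By the Padé
property and the inversion `T -> 1/T`, for odd `N` in the range of the task, `m(N, j) = e(N, j)` is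
one half of the residue `mm'(N, j)` evaluated in the task `N1` of the library; `m(N, j)` for even `N`
follows from the three term recurrence.
-/

namespace Pool.Agent.H966.T1

open Polynomial
open Pool.Agent.NH38.Fork (kap M0)

namespace C

open H337CB (R P Ps R_swap R_refl reflect_P natDegree_P_le R_shift1 R_add R_sub R_C)
open Pool.Agent.NH38.Fork.N1 (R_X R_sq mm' Q' key Q'_succ odd_ne odd_ne' M0_succ)

/-- removing a factor `X - 1` -/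
theorem R_sh (m : ℕ) (c : ℚ) (F : ℚ[X]) : R (m + 1) c ((X - 1) * F) = R m c F := by
  have h := R_shift1 m c F
  have e : (X - 1) * F = C (-1) * ((1 - X) * F) := by
    rw [map_neg, C_1]; ring
  rw [e, R_C, h]; ring

/-- splitting a factor `1 + X` -/
theorem R_one_add (m : ℕ) (c : ℚ) (F : ℚ[X]) :
    R (m + 1) c ((1 + X) * F) = R m c F + 2 * R (m + 1) c F := by
  have e : (1 + X) * F = (X - 1) * F + C 2 * F := by
    rw [show (C 2 : ℚ[X]) = 2 from map_ofNat C 2]; ring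
  rw [e, R_add, R_C, R_sh]

theorem swap (m N : ℕ) (hm : m ≤ 2 * N) (c d : ℚ) (hc : d = c + 1/3) :
    R m d (Ps N) = R m c (P N) := by
  have h := R_swap m N (by omega) c 1
  rw [mul_one, mul_one] at h
  rw [hc, h]

theorem refl (m N : ℕ) (c d : ℚ) (hc : d = (m:ℚ) - 1 - c - N) :
    R m d (Ps N) = (-1) ^ m * R m c (P N) := by
  have h := R_refl m c (P N) N (natDegree_P_le N)
  rw [reflect_P] at h
  rw [hc, h]

noncomputable def e (N j : ℕ) : ℚ := R (N + 2*j + 1) ((j:ℚ) + 2/3) (Ps N)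

noncomputable def m (N j : ℕ) : ℚ := R (N + 2*j + 2) ((j:ℚ) + 2/3) ((1 + X) * Ps N)

theorem recE (N j : ℕ) : (3 * (N:ℚ) + 5) * e (N+2) j =
    (6 * (N:ℚ) + 9) * m (N+1) j - (3 * (N:ℚ) + 4) * e N j := by
  have h := congrArg (R (N + 2 + 2*j + 1) ((j:ℚ) + 2/3)) (H337CB.Ps_rec N)
  rw [Pool.Agent.NH38.Fork.N1.c1, Pool.Agent.NH38.Fork.N1.c2, Pool.Agent.NH38.Fork.N1.c3,
    R_C, R_sub, mul_assoc, mul_assoc, R_C, R_C] at h
  have e1 : N + 2 + 2 * j + 1 = (N + 2*j + 1) + 2 := by ring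
  have h2 : R (N + 2 + 2*j + 1) ((j:ℚ) + 2/3) ((X - 1) ^ 2 * Ps N) = e N j := by
    rw [e1]; exact R_sq _ _ _
  have h3 : R (N + 2 + 2*j + 1) ((j:ℚ) + 2/3) ((1 + X) * Ps (N+1)) = m (N+1) j := by
    unfold m
    congr 1; ring
  rw [h2, h3] at h
  exact h

/-- for odd `N`, `2j + 1 ≤ N` -/
theorem two_e (n j : ℕ) (hj : j ≤ n) : 2 * e (2*n+1) j = mm' (2*n+1) j := by
  have h1 : e (2*n+1) j = R (2*n+1 + 2*j + 1) ((j:ℚ) + 1/3) (P (2*n+1)) := by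
    unfold e
    exact swap _ _ (by omega) _ _ (by ring)
  have h2 : R (2*n+1 + 2*j + 1) ((j:ℚ) - 1/3) (Ps (2*n+1)) =
      (-1) ^ (2*n+1 + 2*j + 1) * R (2*n+1 + 2*j + 1) ((j:ℚ) + 1/3) (P (2*n+1)) :=
    refl _ _ _ _ (by push_cast; ring)
  have h3 : R (2*n+1 + 2*j + 1) ((j:ℚ) - 1/3) (Ps (2*n+1)) =
      R (2*n+1 + 2*j + 1) ((j:ℚ) - 2/3) (P (2*n+1)) :=
    swap _ _ (by omega) _ _ (by ring)
  have h4 : ((-1 : ℚ)) ^ (2*n+1 + 2*j + 1) = 1 :=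
    Even.neg_one_pow ⟨n + j + 1, by ring⟩
  have h5 : R (2*n+1 + 2*j) ((j:ℚ) - 1/3) (Ps (2*n+1)) =
      (-1) ^ (2*n+1 + 2*j) * R (2*n+1 + 2*j) ((j:ℚ) - 2/3) (P (2*n+1)) :=
    refl _ _ _ _ (by push_cast; ring)
  have h6 : R (2*n+1 + 2*j) ((j:ℚ) - 1/3) (Ps (2*n+1)) =
      R (2*n+1 + 2*j) ((j:ℚ) - 2/3) (P (2*n+1)) :=
    swap _ _ (by omega) _ _ (by ring)
  have h7 : ((-1 : ℚ)) ^ (2*n+1 + 2*j) = -1 :=
    Odd.neg_one_pow ⟨n + j, by ring⟩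
  have h8 : mm' (2*n+1) j = R (2*n+1 + 2*j) ((j:ℚ) - 2/3) (P (2*n+1)) +
      2 * R (2*n+1 + 2*j + 1) ((j:ℚ) - 2/3) (P (2*n+1)) := by
    unfold Pool.Agent.NH38.Fork.N1.mm'
    exact R_one_add _ _ _
  rw [h4, one_mul] at h2
  rw [h7] at h5
  rw [h8, h1, ← h2, h3]
  linarith

/-- for odd `N`, `2j + 3 ≤ N` -/
theorem m_odd (n j : ℕ) (hj : j + 1 ≤ n) : m (2*n+1) j = e (2*n+1) j := by
  have h1 : m (2*n+1) j = e (2*n+1) j + 2 * R (2*n+1 + 2*j + 2) ((j:ℚ) + 2/3) (Ps (2*n+1)) := by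
    unfold m e
    exact R_one_add _ _ _
  have h2 : R (2*n+1 + 2*j + 2) ((j:ℚ) + 2/3) (Ps (2*n+1)) =
      R (2*n+1 + 2*j + 2) ((j:ℚ) + 1/3) (P (2*n+1)) :=
    swap _ _ (by omega) _ _ (by ring)
  have h3 : R (2*n+1 + 2*j + 2) ((j:ℚ) + 2/3) (Ps (2*n+1)) =
      (-1) ^ (2*n+1 + 2*j + 2) * R (2*n+1 + 2*j + 2) ((j:ℚ) + 1/3) (P (2*n+1)) :=
    refl _ _ _ _ (by push_cast; ring)
  have h4 : ((-1 : ℚ)) ^ (2*n+1 + 2*j + 2) = -1 :=
    Odd.neg_one_pow ⟨n + j + 1, by ring⟩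
  rw [h4] at h3
  linarith

/-- the constants -/
theorem const (k : ℕ) : 3 * (3 * (k:ℚ) + 7) * M0 (k+1) = 2 * ((k:ℚ) + 3) * kap (2*k+3) * M1 k := by
  induction k with
  | zero =>
    have h1 : M0 1 = 1/3 := by
      unfold Pool.Agent.NH38.Fork.M0
      rw [Finset.prod_range_one]; norm_num
    have h2 : kap 3 = 7/2 := by
      unfold Pool.Agent.NH38.Fork.kap
      rw [Finset.prod_range_succ, Finset.prod_range_succ, Finset.prod_range_one]; norm_num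
    have h3 : M1 0 = 1/3 := by simp [M1]
    norm_num [h1, h2, h3]
  | succ k ih =>
    have h1 : M0 (k+1+1) = M0 (k+1) *
      ((((k+1:ℕ):ℚ) + 1/2) * (((k+1:ℕ):ℚ) + 5/3) / ((((k+1:ℕ):ℚ) + 5/6) * (((k+1:ℕ):ℚ) + 2))) :=
      M0_succ (k+1)
    have h2 : kap (2*(k+1)+3) = kap (2*k+3) * (((2*k+3:ℕ):ℚ) + 4/3) / (((2*k+3:ℕ):ℚ) + 2/3) *
        ((((2*k+4:ℕ):ℚ) + 4/3) / (((2*k+4:ℕ):ℚ) + 2/3)) := by
      unfold Pool.Agent.NH38.Fork.kap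
      rw [show 2*(k+1)+3 = 2*k+3+1+1 by ring, Finset.prod_range_succ, Finset.prod_range_succ,
        show 2*k+3+1 = 2*k+4 by ring, mul_div_assoc]
    have h3 : M1 (k+1) = M1 k * ((2*(k:ℚ) + 3) * (3*k + 10) / ((k + 4) * (6*k + 13))) := by
      unfold M1; rw [Finset.prod_range_succ, mul_assoc]
    have hk : M1 k * kap (2*k+3) = 3 * (3 * (k:ℚ) + 7) * M0 (k+1) / (2 * ((k:ℚ) + 3)) := by
      rw [eq_div_iff (by positivity)]
      linear_combination -ih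
    rw [h1, h2, h3]
    push_cast
    have a1 : ((k:ℚ) + 3) ≠ 0 := by positivity
    have a2 : ((k:ℚ) + 4) ≠ 0 := by positivity
    have a3 : (6*(k:ℚ) + 13) ≠ 0 := by positivity
    have a4 : (2*(k:ℚ) + 3 + 2/3) ≠ 0 := by positivity
    have a5 : (2*(k:ℚ) + 4 + 2/3) ≠ 0 := by positivity
    have a6 : ((k:ℚ) + 1 + 5/6) ≠ 0 := by positivity
    have a7 : ((k:ℚ) + 1 + 2) ≠ 0 := by positivity
    have e1 : 2 * ((k:ℚ) + 1 + 3) * (kap (2*k+3) * (2 * (k:ℚ) + 3 + 4/3) / (2 * (k:ℚ) + 3 + 2/3) *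
        ((2 * (k:ℚ) + 4 + 4/3) / (2 * (k:ℚ) + 4 + 2/3))) *
        (M1 k * ((2*(k:ℚ) + 3) * (3*k + 10) / ((k + 4) * (6*k + 13)))) =
        (M1 k * kap (2*k+3)) * (2 * ((k:ℚ) + 1 + 3) * ((2 * (k:ℚ) + 3 + 4/3) /
          (2 * (k:ℚ) + 3 + 2/3) * ((2 * (k:ℚ) + 4 + 4/3) / (2 * (k:ℚ) + 4 + 2/3))) *
          ((2*(k:ℚ) + 3) * (3*k + 10) / ((k + 4) * (6*k + 13)))) := by ring
    rw [e1, hk]
    field_simp
    ring

/-- the products of the answer, `N = 2k + 4` -/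
noncomputable def Zp (k j : ℕ) : ℚ := ∏ i ∈ Finset.range j,
  (((i:ℚ) + 2/3) * (i + 4/3) / ((2*((k:ℚ)+1) - 1 - 2*i) * (2*((k:ℚ)+1) + 6 + 2*i)))

theorem Zp_eq (k j : ℕ) : Zp k j * ((k:ℚ) + 3 + j) =
    Q' (k+1) j * (3*j+1) * ((k:ℚ) + 3) := by
  induction j with
  | zero => simp [Zp, Pool.Agent.NH38.Fork.N1.Q']
  | succ j ih =>
    have hz : Zp k (j+1) = Zp k j * (((j:ℚ) + 2/3) * (j + 4/3) /
        ((2*((k:ℚ)+1) - 1 - 2*j) * (2*((k:ℚ)+1) + 6 + 2*j))) := by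
      unfold Zp; rw [Finset.prod_range_succ]
    have h0 : ((k:ℚ) + 3 + j) ≠ 0 := by positivity
    have hz2 : Zp k j = Q' (k+1) j * (3*j+1) * ((k:ℚ) + 3) / ((k:ℚ) + 3 + j) := by
      rw [eq_div_iff h0]; exact ih
    rw [hz, Q'_succ, hz2]
    have h1 := odd_ne (k+1) j
    push_cast at h1 ⊢
    have h2 : (2*((k:ℚ)+1) + 6 + 2*j) ≠ 0 := by positivity
    have h3 : (2*((k:ℚ)+1) + 4 + 2*j) ≠ 0 := by positivity
    field_simp
    ring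

theorem nj_eq (k j : ℕ) : nj (2*k+4) j = M1 k / 9 * (4^j * Zp k j) := by
  unfold nj
  have e : (2*k+4-4)/2 = k := by omega
  rw [e]
  congr 1
  unfold Zp
  rw [← Finset.card_range j, ← Finset.prod_const, Finset.card_range, ← Finset.prod_mul_distrib]
  apply Finset.prod_congr rfl
  intro i _
  have e1 : (((2*k+4:ℕ):ℚ) - 3 - 2*i) = 2*((k:ℚ)+1) - 1 - 2*i := by push_cast; ring
  have e2 : (((2*k+4:ℕ):ℚ) + 4 + 2*i) = 2*((k:ℚ)+1) + 6 + 2*i := by push_cast; ring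
  rw [e1, e2]
  ring

/-- quotient of consecutive values -/
theorem Q'_next (n j : ℕ) : Q' (n+1) j * ((2*(n:ℚ)+1) * (n + 2 + j)) =
    Q' n j * ((2*(n:ℚ) + 1 - 2*j) * (n + 2)) := by
  induction j with
  | zero => simp [Pool.Agent.NH38.Fork.N1.Q']
  | succ j ih =>
    have h0 : ((2*(n:ℚ)+1) * (n + 2 + j)) ≠ 0 := by positivity
    have hq : Q' (n+1) j = Q' n j * ((2*(n:ℚ) + 1 - 2*j) * (n + 2)) /
        ((2*(n:ℚ)+1) * (n + 2 + j)) := by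
      rw [eq_div_iff h0]; exact ih
    rw [Q'_succ, Q'_succ, hq]
    have h1 := odd_ne n j
    have h2 := odd_ne' n j
    have h4 : (2*((n+1:ℕ):ℚ) - 1 - 2*j) = 2*(n:ℚ) + 1 - 2*j := by push_cast; ring
    rw [h4]
    have h3 : (2*(n:ℚ) + 4 + 2*j) ≠ 0 := by positivity
    have h5 : (2*((n+1:ℕ):ℚ) + 4 + 2*j) ≠ 0 := by positivity
    have h6 : ((n:ℚ) + 2 + j) ≠ 0 := by positivity
    have h7 : (2*(n:ℚ)+1) ≠ 0 := by positivity
    push_cast at h5 ⊢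
    field_simp
    ring

end C

open C in
theorem t1_C : S1_C := by
  intro N j hN h4 hj
  obtain ⟨k, rfl⟩ : ∃ k, N = 2*k+4 := by
    obtain ⟨r, hr⟩ := hN
    exact ⟨r - 2, by omega⟩
  have hjk : j ≤ k := by omega
  -- the residue
  have hR : H337CB.R (2*k+4 + 2 + 2*j) ((j:ℚ) + 2/3)
      ((1 + X) * ((X - 1) * H337CB.Ps (2*k+4-1) - H337CB.Ps (2*k+4))) =
      C.m (2*k+3) j - C.m (2*k+4) j := by
    have e1 : (1 + X) * ((X - 1) * H337CB.Ps (2*k+4-1) - H337CB.Ps (2*k+4)) =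
        (X - 1) * ((1 + X) * H337CB.Ps (2*k+3)) - (1 + X) * H337CB.Ps (2*k+4) := by
      rw [show 2*k+4-1 = 2*k+3 by omega]; ring
    rw [e1, H337CB.R_sub]
    have e2 : 2*k+4+2+2*j = (2*k+3 + 2*j + 2) + 1 := by ring
    have e3 : H337CB.R (2*k+4+2+2*j) ((j:ℚ) + 2/3) ((X - 1) * ((1 + X) * H337CB.Ps (2*k+3))) =
        C.m (2*k+3) j := by
      rw [e2]; exact C.R_sh _ _ _
    rw [e3]
    unfold C.m
    congr 2
    ring
  rw [hR]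
  have ho1 := C.m_odd (k+1) j (by omega)
  have ho2 := C.two_e (k+1) j (by omega)
  have ho3 := C.two_e (k+2) j (by omega)
  have hr := C.recE (2*k+3) j
  rw [show 2*(k+1)+1 = 2*k+3 by ring] at ho1 ho2
  rw [show 2*(k+2)+1 = 2*k+3+2 by ring] at ho3
  have k1 := (Pool.Agent.NH38.Fork.N1.key (k+1) j).2
  have k2 := (Pool.Agent.NH38.Fork.N1.key (k+2) j).2
  rw [show 2*(k+1)+1 = 2*k+3 by ring] at k1
  rw [show 2*(k+2)+1 = 2*k+3+2 by ring] at k2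
  rw [k1] at ho2
  rw [k2] at ho3
  rw [show 2*k+3+1 = 2*k+4 by ring] at hr
  -- products
  have hq := C.Q'_next (k+1) j
  rw [show k+1+1 = k+2 by ring] at hq
  have hM : M0 (k+2) = M0 (k+1) *
      ((((k+1:ℕ):ℚ) + 1/2) * (((k+1:ℕ):ℚ) + 5/3) / ((((k+1:ℕ):ℚ) + 5/6) * (((k+1:ℕ):ℚ) + 2))) :=
    Pool.Agent.NH38.Fork.N1.M0_succ (k+1)
  have hkap : kap (2*k+4) - kap (2*k+4-1) = kap (2*k+3) * (2 / (6 * (k:ℚ) + 11)) := by
    rw [show 2*k+4-1 = 2*k+3 by omega]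
    have : kap (2*k+4) = kap (2*k+3) * ((((2*k+3:ℕ):ℚ) + 4/3) / (((2*k+3:ℕ):ℚ) + 2/3)) := by
      unfold Pool.Agent.NH38.Fork.kap
      rw [Finset.prod_range_succ]
    rw [this]
    push_cast
    have a1 : (2*(k:ℚ) + 3 + 2/3) ≠ 0 := by positivity
    have a2 : (6*(k:ℚ) + 11) ≠ 0 := by positivity
    field_simp
    ring
  rw [hkap, C.nj_eq]
  have hc := C.const k
  have hz := C.Zp_eq k j
  push_cast at hr hq hM
  -- solve
  have b1 : ((k:ℚ) + 3) ≠ 0 := by positivity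
  have b2 : ((k:ℚ) + 3 + j) ≠ 0 := by positivity
  have b3 : (6*(k:ℚ) + 11) ≠ 0 := by positivity
  have b4 : (12*(k:ℚ) + 27) ≠ 0 := by positivity
  have b5 : (2*((k:ℚ)+1)+1) ≠ 0 := by positivity
  have b6 : ((k:ℚ)+1+5/6) ≠ 0 := by positivity
  have b7 : ((k:ℚ)+1+2) ≠ 0 := by positivity
  have b8 : ((k:ℚ)+1+2+j) ≠ 0 := by positivity
  have hZ : C.Zp k j = Pool.Agent.NH38.Fork.N1.Q' (k+1) j * (3*j+1) * ((k:ℚ) + 3) /
      ((k:ℚ) + 3 + j) := by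
    rw [eq_div_iff b2]; exact hz
  have hQ2 : Pool.Agent.NH38.Fork.N1.Q' (k+2) j = Pool.Agent.NH38.Fork.N1.Q' (k+1) j *
      ((2*((k:ℚ)+1) + 1 - 2*j) * ((k:ℚ) + 1 + 2)) / ((2*((k:ℚ)+1)+1) * ((k:ℚ) + 1 + 2 + j)) := by
    rw [eq_div_iff (mul_ne_zero b5 b8)]; exact hq
  have hKM : kap (2*k+3) * M1 k = 3 * (3 * (k:ℚ) + 7) * M0 (k+1) / (2 * ((k:ℚ) + 3)) := by
    rw [eq_div_iff (by positivity)]
    linear_combination -hc
  have he1 : C.e (2*k+3) j = M0 (k+1) * Pool.Agent.NH38.Fork.N1.Q' (k+1) j / 2 := by linarith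
  have he2 : C.e (2*k+3+2) j = M0 (k+2) * Pool.Agent.NH38.Fork.N1.Q' (k+2) j / 2 := by linarith
  have hm : C.m (2*k+4) j = ((3 * (2*(k:ℚ)+3) + 5) * C.e (2*k+3+2) j +
      (3 * (2*(k:ℚ)+3) + 4) * C.e (2*k+3) j) / (12*(k:ℚ) + 27) := by
    rw [eq_div_iff b4]
    linear_combination -hr
  rw [ho1, hm, he1, he2, hM, hQ2, hZ]
  have e4 : kap (2*k+3) * (2 / (6 * (k:ℚ) + 11)) * (M1 k / 9 * (4^j *
      (Pool.Agent.NH38.Fork.N1.Q' (k+1) j * (3*j+1) * ((k:ℚ) + 3) / ((k:ℚ) + 3 + j)))) =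
      (kap (2*k+3) * M1 k) * ((2 / (6 * (k:ℚ) + 11)) * (1/9) * (4^j *
      (Pool.Agent.NH38.Fork.N1.Q' (k+1) j * (3*j+1) * ((k:ℚ) + 3) / ((k:ℚ) + 3 + j)))) := by ring
  rw [e4, hKM]
  field_simp
  ring

end Pool.Agent.H966.T1
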