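import Pool.Agent.H966.T1.Stubs
import Pool.Graph.R_pool_sql_team_seeded_3dad9d7b.NH38.Fork.GG
import Pool.Graph.R_seed8.H981R2.TP.Plane2

/-!
Forked channels of even width, both inner walls: all widths, the scaling limit (helper293).
-/

namespace Pool.Agent.H966.T1

open Pool.Agent.H988R2.Perc hiding X
open Pool.Agent.NH38.Step (cardy)
open Pool.Agent.NH38.Fork (x1 x2)
open Filter Topology MeasureTheory

namespace G

/-- steps change the column and the height by one -/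
theorem step {ω : Conf} {x y : ℤ × ℤ} (h : OpenAdj ω x y) :
    (y.1 - y.2 = x.1 - x.2 + 1 ∨ y.1 - y.2 = x.1 - x.2 - 1) ∧
      (y.1 + y.2 = x.1 + x.2 + 1 ∨ y.1 + y.2 = x.1 + x.2 - 1) := by
  rcases h with ⟨h, _⟩ | ⟨h, _⟩ | ⟨h, _⟩ | ⟨h, _⟩ <;> rw [h] <;> simp <;> omega

theorem mono {a a' : ℕ} (ha : a ≤ a') (m : ℕ) {b b' : ℕ} (hb : b ≤ b') :
    FCross1 a m b ⊆ FCross1 a' m b' := by
  rintro ω ⟨x, y, h1, h2, h3, h4, h5⟩
  refine ⟨x, y, h1, h2, h3, h4, h5.lift id ?_⟩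
  rintro p q ⟨e1, e2, e3, e4, e5, e6⟩
  have h1 : (a:ℤ) ≤ a' := by exact_mod_cast ha
  have h2 : (b:ℤ) ≤ b' := by exact_mod_cast hb
  show FAdj1 a' m b' ω p q
  refine ⟨e1, by linarith, ?_, by linarith, ?_, e6⟩
  · push_cast at e3 ⊢; linarith
  · push_cast at e5 ⊢; linarith

open Pool.Agent.H863R4 in
/-- translation -/
theorem cross_eq {a : ℕ} (ha : Odd a) (k b : ℕ) :
    perc.real (FCross1 a (2*k+2) b) = perc.real (ECross1 a k b) := by
  obtain ⟨l, hl⟩ := ha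
  have hlz : (a:ℤ) = 2 * l + 1 := by exact_mod_cast hl
  rw [← perc_map (sh (l + 1) (-l)) (ECross1 a k b)]
  congr 1
  have hstep : ∀ (ω : Conf) (x y : ℤ × ℤ), FAdj1 a (2*k+2) b ω x y ↔
      EAdj1 a k b (fun i => ω ((sh (l+1) (-l)).symm i)) (x.1 + (l+1), x.2 + (-l))
        (y.1 + (l+1), y.2 + (-l)) := by
    intro ω x y
    unfold FAdj1 EAdj1
    rw [openAdj_sh]
    simp only
    push_cast
    constructor
    · rintro ⟨e1, e2, e3, e4, e5, e6⟩
      exact ⟨e1, ⟨by omega, by omega⟩, ⟨by omega, by omega⟩, by omega⟩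
    · rintro ⟨e1, ⟨e2, e3⟩, ⟨e4, e5⟩, e6⟩
      exact ⟨e1, by omega, by omega, by omega, by omega, by omega⟩
  ext ω
  constructor
  · rintro ⟨x, y, h1, h2, h3, h3', h4⟩
    refine ⟨(x.1 + (l+1), x.2 + (-l)), (y.1 + (l+1), y.2 + (-l)), ?_, ?_, ?_, ?_, ?_⟩
    · show x.1 + (l+1) - (x.2 + (-l)) = (a:ℤ); omega
    · show 1 ≤ x.1 + (l+1) + (x.2 + (-l)); omega
    · show y.1 + (l+1) - (y.2 + (-l)) = ((a+2+2*k : ℕ) : ℤ)
      push_cast at h3 ⊢
      omega
    · show 1 ≤ y.1 + (l+1) + (y.2 + (-l)); omega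
    · exact h4.lift (fun z : ℤ × ℤ => (z.1 + (l+1), z.2 + (-l))) fun p q hpq => (hstep ω p q).mp hpq
  · rintro ⟨x, y, h1, h2, h3, h3', h4⟩
    refine ⟨(x.1 - (l+1), x.2 - (-l)), (y.1 - (l+1), y.2 - (-l)), ?_, ?_, ?_, ?_, ?_⟩
    · show x.1 - (l+1) - (x.2 - (-l)) = 0; omega
    · show 0 ≤ x.1 - (l+1) + (x.2 - (-l)); omega
    · show y.1 - (l+1) - (y.2 - (-l)) = ((2*k+2 : ℕ) : ℤ)
      push_cast at h3 ⊢
      omega
    · show 0 ≤ y.1 - (l+1) + (y.2 - (-l)); omega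
    · refine h4.lift (fun z : ℤ × ℤ => (z.1 - (l+1), z.2 - (-l))) fun p q hpq => ?_
      show FAdj1 a (2*k+2) b ω (p.1 - (l+1), p.2 - (-l)) (q.1 - (l+1), q.2 - (-l))
      rw [hstep]
      simpa using hpq

/-- odd thickness: comparison with the next even thickness -/
theorem upper (a : ℕ) {m : ℕ} (hm : Odd m) (b : ℕ) : FCross1 a m b ⊆ FCross1 a (m+1) b := by
  rintro ω ⟨x, y, h1, h2, h3, h3', h4⟩
  have hm1 : 1 ≤ m := hm.pos
  obtain ⟨l, hl⟩ := hm
  have key : ∀ z, Relation.ReflTransGen (FAdj1 a m b ω) x z →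
      (Relation.ReflTransGen (FAdj1 a (m+1) b ω) x z ∧ ¬ (z.1 - z.2 = (m:ℤ) + 1 ∧ 0 ≤ z.1 + z.2) ∧
        ¬ (z.1 - z.2 = m ∧ 0 ≤ z.1 + z.2)) ∨
        ∃ y : ℤ × ℤ, y.1 - y.2 = (m:ℤ) + 1 ∧ 0 ≤ y.1 + y.2 ∧
          Relation.ReflTransGen (FAdj1 a (m+1) b ω) x y := by
    intro z hz
    induction hz with
    | refl =>
      left
      exact ⟨Relation.ReflTransGen.refl, by omega, by omega⟩
    | tail hpq hqr ih =>
      rename_i q r
      rcases ih with ⟨i1, i2, i3⟩ | i4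
      · obtain ⟨e1, e2, e3, e4, e5, e6⟩ := hqr
        obtain ⟨s1, s2⟩ := step e1
        push_cast at e3 e5
        have hadj : ∀ _ : ¬ (r.1 - r.2 = m ∧ 0 ≤ r.1 + r.2), FAdj1 a (m+1) b ω q r ∨
            (r.1 - r.2 = (m:ℤ) + 1 ∧ 0 ≤ r.1 + r.2 ∧ ¬ FAdj1 a (m+1) b ω q r) := by
          intro _
          by_cases hF : FAdj1 a (m+1) b ω q r
          · exact Or.inl hF
          · right
            have : ¬ ¬ (0 ≤ q.1 + q.2 ∧ 0 ≤ r.1 + r.2 ∧ 0 ≤ q.1 - q.2 ∧ q.1 - q.2 ≤ ((m+1 : ℕ):ℤ) ∧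
                0 ≤ r.1 - r.2 ∧ r.1 - r.2 ≤ ((m+1 : ℕ):ℤ)) := fun hc =>
              hF ⟨e1, e2, by push_cast; omega, e4, by push_cast; omega, hc⟩
            rw [not_not] at this
            push_cast at this
            refine ⟨by omega, this.2.1, hF⟩
        by_cases hr : r.1 - r.2 = m ∧ 0 ≤ r.1 + r.2
        · exfalso
          have hr2 := hr.1
          have hpar : 1 ≤ r.1 + r.2 := by omega
          omega
        · by_cases hr' : r.1 - r.2 = (m:ℤ) + 1 ∧ 0 ≤ r.1 + r.2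
          · right
            refine ⟨r, hr'.1, hr'.2, i1.tail ?_⟩
            refine ⟨e1, e2, by push_cast; omega, e4, by push_cast; omega, ?_⟩
            push_cast
            omega
          · left
            refine ⟨i1.tail ?_, hr', hr⟩
            refine ⟨e1, e2, by push_cast; omega, e4, by push_cast; omega, ?_⟩
            push_cast
            omega
      · exact Or.inr i4
  rcases key y h4 with ⟨_, _, h5⟩ | ⟨y', h5, h6, h7⟩
  · exact absurd ⟨h3, h3'⟩ h5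
  · exact ⟨x, y', h1, h2, by push_cast; exact h5, h6, h7⟩

/-- open edges of the plane slit along the column `M` above the corner -/
def SlitC (M : ℕ) (ω : Conf) (x y : ℤ × ℤ) : Prop :=
  OpenAdj ω x y ∧ ¬ (0 ≤ x.1 + x.2 ∧ 0 ≤ y.1 + y.2 ∧ (x.1 - x.2 = M ∨ y.1 - y.2 = M))

/-- the corner `(K, -K)` is joined to the column `0` -/
def CArm (K : ℕ) : Set Conf :=
  {ω | ∃ x : ℤ × ℤ, x.1 - x.2 = 0 ∧ Relation.ReflTransGen (SlitC (2*K) ω) ((K:ℤ), -(K:ℤ)) x}

theorem slitC_symm {M : ℕ} {ω : Conf} {x y : ℤ × ℤ} (h : SlitC M ω x y) : SlitC M ω y x := by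
  obtain ⟨h1, h2⟩ := h
  refine ⟨?_, by omega⟩
  rcases h1 with h | h | h | h
  · exact Or.inr (Or.inl h)
  · exact Or.inl h
  · exact Or.inr (Or.inr (Or.inr h))
  · exact Or.inr (Or.inr (Or.inl h))

theorem slitC_rtg_symm {M : ℕ} {ω : Conf} {x y : ℤ × ℤ}
    (h : Relation.ReflTransGen (SlitC M ω) x y) : Relation.ReflTransGen (SlitC M ω) y x := by
  induction h with
  | refl => exact Relation.ReflTransGen.refl
  | tail _ h2 ih => exact Relation.ReflTransGen.head (slitC_symm h2) ih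

/-- odd thickness: comparison with the previous even thickness -/
theorem lower (a : ℕ) {K : ℕ} (hK : 1 ≤ K) (b : ℕ) :
    FCross1 a (2*K) b ⊆ FCross1 a (2*K+1) b ∪ CArm K := by
  rintro ω ⟨x, y, h1, h2, h3, h3', h4⟩
  have key : ∀ z, Relation.ReflTransGen (FAdj1 a (2*K) b ω) x z →
      (Relation.ReflTransGen (FAdj1 a (2*K+1) b ω) x z ∧
        Relation.ReflTransGen (SlitC (2*K) ω) x z ∧
        ¬ (z.1 - z.2 = 2 * (K:ℤ) + 1 ∧ 0 ≤ z.1 + z.2) ∧
        ¬ (z.1 - z.2 = 2 * (K:ℤ) ∧ 0 ≤ z.1 + z.2)) ∨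
        (∃ y : ℤ × ℤ, y.1 - y.2 = 2 * (K:ℤ) + 1 ∧ 0 ≤ y.1 + y.2 ∧
          Relation.ReflTransGen (FAdj1 a (2*K+1) b ω) x y) ∨
        Relation.ReflTransGen (SlitC (2*K) ω) x ((K:ℤ), -(K:ℤ)) := by
    intro z hz
    induction hz with
    | refl =>
      left
      exact ⟨Relation.ReflTransGen.refl, Relation.ReflTransGen.refl, by omega, by omega⟩
    | tail hpq hqr ih =>
      rename_i q r
      rcases ih with ⟨i1, i1', i2, i3⟩ | i4 | i5
      · obtain ⟨e1, e2, e3, e4, e5, e6⟩ := hqr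
        obtain ⟨s1, s2⟩ := step e1
        push_cast at e3 e5 e6
        by_cases hr : r.1 - r.2 = 2 * (K:ℤ) ∧ 0 ≤ r.1 + r.2
        · right; right
          obtain ⟨r1, r2⟩ := hr
          have hr0 : r.1 + r.2 = 0 := by omega
          have hrr : r = ((K:ℤ), -(K:ℤ)) := by
            apply Prod.ext
            · show r.1 = K; omega
            · show r.2 = -K; omega
          rw [← hrr]
          refine i1'.tail ⟨e1, ?_⟩
          push_cast
          omega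
        · by_cases hr' : r.1 - r.2 = 2 * (K:ℤ) + 1 ∧ 0 ≤ r.1 + r.2
          · right; left
            refine ⟨r, hr'.1, hr'.2, i1.tail ?_⟩
            refine ⟨e1, e2, by push_cast; omega, e4, by push_cast; omega, ?_⟩
            push_cast
            omega
          · left
            refine ⟨i1.tail ?_, i1'.tail ?_, hr', hr⟩
            · refine ⟨e1, e2, by push_cast; omega, e4, by push_cast; omega, ?_⟩
              push_cast
              omega
            · refine ⟨e1, ?_⟩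
              push_cast
              omega
      · exact Or.inr (Or.inl i4)
      · exact Or.inr (Or.inr i5)
  push_cast at h3
  rcases key y h4 with ⟨_, _, _, h5⟩ | ⟨y', h5, h6, h7⟩ | h8
  · exact absurd ⟨h3, h3'⟩ h5
  · left
    exact ⟨x, y', h1, h2, by push_cast; exact h5, h6, h7⟩
  · right
    exact ⟨x, h1, slitC_rtg_symm h8⟩

/-! ## the mirror image -/

/-- mirror image of edges -/
def mi (K : ℤ) : Edge ≃ Edge where
  toFun e := (e.2.1 + 1 + K, e.1 - K, !e.2.2)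
  invFun e := (e.2.1 + K, e.1 - 1 - K, !e.2.2)
  left_inv e := by
    obtain ⟨a, b, c⟩ := e
    simp
    ring
  right_inv e := by
    obtain ⟨a, b, c⟩ := e
    simp
    ring

theorem or_rot {P Q R S : Prop} : (P ∨ Q ∨ R ∨ S) ↔ (R ∨ S ∨ P ∨ Q) := by tauto

theorem openAdj_mi (K : ℤ) (ω : Conf) (x y : ℤ × ℤ) :
    OpenAdj (fun i => ω ((mi K).symm i)) (x.2 + 1 + K, x.1 - K) (y.2 + 1 + K, y.1 - K) ↔
      OpenAdj ω x y := by
  obtain ⟨x1, x2⟩ := x
  obtain ⟨y1, y2⟩ := y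
  unfold OpenAdj mi
  simp only [Equiv.coe_fn_symm_mk, Prod.mk.injEq, Bool.not_false, Bool.not_true, sub_add_cancel]
  have f1 : x2 + 1 + K - 1 - K = x2 := by ring
  have f2 : y2 + 1 + K - 1 - K = y2 := by ring
  rw [f1, f2]
  have e1 : (y2 + 1 + K = x2 + 1 + K + 1 ∧ y1 - K = x1 - K) ↔ (y1 = x1 ∧ y2 = x2 + 1) := by omega
  have e2 : (x2 + 1 + K = y2 + 1 + K + 1 ∧ x1 - K = y1 - K) ↔ (x1 = y1 ∧ x2 = y2 + 1) := by omega
  have e3 : (y2 + 1 + K = x2 + 1 + K ∧ y1 - K = x1 - K + 1) ↔ (y1 = x1 + 1 ∧ y2 = x2) := by omega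
  have e4 : (x2 + 1 + K = y2 + 1 + K ∧ x1 - K = y1 - K + 1) ↔ (x1 = y1 + 1 ∧ x2 = y2) := by omega
  rw [e1, e2, e3, e4]
  exact or_rot

open Pool.Agent.H981R2.TP.PL in
theorem carm_le (K : ℕ) : perc.real (CArm K) ≤ perc.real (PlaneArm (2*K)) := by
  rw [← Pool.Agent.H863R4.perc_map (mi K) (PlaneArm (2*K))]
  refine measureReal_mono ?_
  rintro ω ⟨x, h1, h2⟩
  show (fun i => ω ((mi K).symm i)) ∈ PlaneArm (2*K)
  refine ⟨(x.2 + 1 + K, x.1 - K), ?_, ?_⟩
  · show x.2 + 1 + K - (x.1 - K) = 1 + ((2*K : ℕ) : ℤ)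
    push_cast
    omega
  · have h3 := h2.lift (p := SlitAdj (fun i => ω ((mi K).symm i)))
      (fun z : ℤ × ℤ => (z.2 + 1 + (K:ℤ), z.1 - (K:ℤ))) (fun p q hpq => by
        obtain ⟨g1, g2⟩ := hpq
        refine ⟨(openAdj_mi K ω p q).mpr g1, ?_⟩
        push_cast at g2
        show ¬ (1 ≤ p.2 + 1 + (K:ℤ) + (p.1 - K) ∧ 1 ≤ q.2 + 1 + (K:ℤ) + (q.1 - K) ∧
          (p.2 + 1 + (K:ℤ) - (p.1 - K) = 1 ∨ q.2 + 1 + (K:ℤ) - (q.1 - K) = 1))
        omega)
    have e : ((-(K:ℤ)) + 1 + (K:ℤ), (K:ℤ) - (K:ℤ)) = ((1, 0) : ℤ × ℤ) := by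
      apply Prod.ext <;> simp
    rw [← e]
    exact h3

open Pool.Agent.H981R2.TP.PL in
theorem plane_zero : Tendsto (fun r : ℕ => perc.real (PlaneArm r)) atTop (𝓝 0) := by
  have h1 := plane_asymp
  have h2 : Tendsto (fun r : ℕ => ((r:ℝ)^((1:ℝ)/6))⁻¹) atTop (𝓝 0) :=
    (((tendsto_rpow_atTop (by norm_num : (0:ℝ) < 1/6)).comp
      tendsto_natCast_atTop_atTop)).inv_tendsto_atTop
  have h3 := h1.mul h2
  rw [mul_zero] at h3
  refine h3.congr' ?_
  filter_upwards [eventually_ge_atTop 1] with r hr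
  have hr0 : (0:ℝ) < r := by exact_mod_cast hr
  rw [mul_assoc, mul_inv_cancel₀ (Real.rpow_pos_of_pos hr0 _).ne', mul_one]

/-! ## limits -/

open Pool.Agent.NH38.Fork.GF (lim_top)

theorem lim_close2 {δ : ℕ → ℝ} (hδ : ∀ n, 0 < δ n) (hδ0 : Tendsto δ atTop (𝓝 0)) {c d : ℕ → ℝ}
    {γ : ℝ} (hc : Tendsto (fun n => δ n * c n) atTop (𝓝 γ)) (hd : ∀ n, |d n - c n| ≤ 2) :
    Tendsto (fun n => δ n * d n) atTop (𝓝 γ) := by
  have h1 : Tendsto (fun n => δ n * d n - δ n * c n) atTop (𝓝 0) := by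
    have hδ2 : Tendsto (fun n => δ n * 2) atTop (𝓝 0) := by simpa using hδ0.mul_const 2
    refine squeeze_zero_norm (fun n => ?_) hδ2
    rw [← mul_sub, norm_mul, Real.norm_eq_abs, Real.norm_eq_abs, abs_of_pos (hδ n)]
    exact mul_le_mul_of_nonneg_left (hd n) (hδ n).le
  have h2 := h1.add hc
  simp only [sub_add_cancel, zero_add] at h2
  exact h2

/-- the limit value -/
noncomputable def val (ρ σ : ℝ) : ℝ :=
  cardy (x1 (ρ^2) (σ^2) * (1 - x2 (ρ^2) (σ^2)) / (x2 (ρ^2) (σ^2) * (1 - x1 (ρ^2) (σ^2))))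

theorem even_lim (hE : S1_Exact) (hA : S1_Asy) {α γ β : ℝ} (hα : 0 < α) (hγ : 0 < γ) (hβ : 0 < β)
    {δ : ℕ → ℝ} {a k b : ℕ → ℕ} (hδ : ∀ n, 0 < δ n) (hδ0 : Tendsto δ atTop (𝓝 0))
    (ha : ∀ n, Odd (a n)) (hb : ∀ n, Odd (b n))
    (h1 : Tendsto (fun n => δ n * a n) atTop (𝓝 α))
    (h2 : Tendsto (fun n => δ n * ((2 * k n + 2 : ℕ) : ℝ)) atTop (𝓝 γ))
    (h3 : Tendsto (fun n => δ n * b n) atTop (𝓝 β)) :
    Tendsto (fun n => perc.real (FCross1 (a n) (2 * k n + 2) (b n))) atTop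
      (𝓝 (val (α/(α+γ+β)) (β/(α+γ+β)))) := by
  have hs : 0 < α + γ + β := by positivity
  have hN : Tendsto (fun n => δ n * ((a n + b n + 2 + 2 * k n : ℕ) : ℝ)) atTop (𝓝 (α + γ + β)) := by
    refine ((h1.add h2).add h3).congr fun n => ?_
    push_cast
    ring
  have hN' : Tendsto (fun n => a n + b n + 2 + 2 * k n) atTop atTop := by
    rw [← tendsto_natCast_atTop_iff (R := ℝ)]
    exact lim_top hδ hδ0 hs hN
  have hr : Tendsto (fun n => (a n : ℝ) / ((a n + b n + 2 + 2 * k n : ℕ) : ℝ)) atTop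
      (𝓝 (α / (α + γ + β))) := by
    refine (h1.div hN hs.ne').congr fun n => ?_
    simp only [Pi.div_apply]
    rw [mul_div_mul_left _ _ (hδ n).ne']
  have hr' : Tendsto (fun n => (b n : ℝ) / ((a n + b n + 2 + 2 * k n : ℕ) : ℝ)) atTop
      (𝓝 (β / (α + γ + β))) := by
    refine (h3.div hN hs.ne').congr fun n => ?_
    simp only [Pi.div_apply]
    rw [mul_div_mul_left _ _ (hδ n).ne']
  have hρ1 : α / (α + γ + β) + β / (α + γ + β) < 1 := by
    rw [← add_div, div_lt_one hs]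
    linarith
  refine (hA a b (fun n => a n + b n + 2 + 2 * k n) _ _ (by positivity) (by positivity) hρ1 ha hb
    (fun n => ?_) (fun n => by omega) hN' hr hr').congr fun n => ?_
  · obtain ⟨p, hp⟩ := ha n
    obtain ⟨r, hr⟩ := hb n
    exact ⟨p + r + 1 + 1 + k n, by omega⟩
  · rw [cross_eq (ha n), hE (a n) (k n) (b n) (ha n) (hb n)]

end G

open G Pool.Agent.H863R4 Pool.Agent.NH38.Fork.GF in
theorem t1_G : S1_G := by
  intro hE hA α γ β hα hγ hβ δ a m b hδ hδ0 ha hm hb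
  have a1 : Tendsto (fun n => δ n * ou (a n)) atTop (𝓝 α) := lim_close hδ hδ0 ha fun n => ou_dist _
  have a2 : Tendsto (fun n => δ n * od (a n)) atTop (𝓝 α) := lim_close hδ hδ0 ha fun n => od_dist _
  have b1 : Tendsto (fun n => δ n * ou (b n)) atTop (𝓝 β) := lim_close hδ hδ0 hb fun n => ou_dist _
  have b2 : Tendsto (fun n => δ n * od (b n)) atTop (𝓝 β) := lim_close hδ hδ0 hb fun n => od_dist _
  -- even thickness above and below
  have m1 : Tendsto (fun n => δ n * ((2 * ((m n - 1) / 2) + 2 : ℕ) : ℝ)) atTop (𝓝 γ) := by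
    refine lim_close2 hδ hδ0 hm fun n => ?_
    have h1 : 2 * ((m n - 1) / 2) + 2 ≤ m n + 2 := by omega
    have h2 : m n ≤ 2 * ((m n - 1) / 2) + 2 + 2 := by omega
    have h1' : ((2 * ((m n - 1) / 2) + 2 : ℕ) : ℝ) ≤ m n + 2 := by exact_mod_cast h1
    have h2' : (m n : ℝ) ≤ ((2 * ((m n - 1) / 2) + 2 : ℕ) : ℝ) + 2 := by exact_mod_cast h2
    rw [abs_le]; constructor <;> linarith
  have m2 : Tendsto (fun n => δ n * ((2 * ((m n - 2) / 2) + 2 : ℕ) : ℝ)) atTop (𝓝 γ) := by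
    refine lim_close2 hδ hδ0 hm fun n => ?_
    have h1 : 2 * ((m n - 2) / 2) + 2 ≤ m n + 2 := by omega
    have h2 : m n ≤ 2 * ((m n - 2) / 2) + 2 + 2 := by omega
    have h1' : ((2 * ((m n - 2) / 2) + 2 : ℕ) : ℝ) ≤ m n + 2 := by exact_mod_cast h1
    have h2' : (m n : ℝ) ≤ ((2 * ((m n - 2) / 2) + 2 : ℕ) : ℝ) + 2 := by exact_mod_cast h2
    rw [abs_le]; constructor <;> linarith
  have e1 := (lim_top hδ hδ0 hα ha).eventually_ge_atTop 1
  have e2 := (lim_top hδ hδ0 hγ hm).eventually_ge_atTop 2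
  have e3 := (lim_top hδ hδ0 hβ hb).eventually_ge_atTop 1
  have L1 := even_lim hE hA hα hγ hβ hδ hδ0 (fun n => ou_odd (a n)) (fun n => ou_odd (b n))
    a1 m1 b1
  have L2 := even_lim hE hA hα hγ hβ hδ hδ0 (fun n => od_odd (a n)) (fun n => od_odd (b n))
    a2 m2 b2
  have hmt : Tendsto (fun n => 2 * ((m n - 2) / 2) + 2) atTop atTop := by
    rw [← tendsto_natCast_atTop_iff (R := ℝ)]
    exact lim_top hδ hδ0 hγ m2
  have L3 : Tendsto (fun n => perc.real (Pool.Agent.H981R2.TP.PL.PlaneArm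
      (2 * ((m n - 2) / 2) + 2))) atTop (𝓝 0) := plane_zero.comp hmt
  have L4 := L2.sub L3
  rw [sub_zero] at L4
  refine tendsto_of_tendsto_of_tendsto_of_le_of_le' L4 L1 ?_ ?_
  · filter_upwards [e1, e2, e3] with n h1 h2 h3
    have g1 : 1 ≤ a n := by exact_mod_cast h1
    have g2 : 2 ≤ m n := by exact_mod_cast h2
    have g3 : 1 ≤ b n := by exact_mod_cast h3
    have g4 : od (a n) ≤ a n := od_le (by omega)
    have g5 : od (b n) ≤ b n := od_le (by omega)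
    have hsub : FCross1 (od (a n)) (2 * ((m n - 2) / 2) + 2) (od (b n)) ⊆
        FCross1 (a n) (m n) (b n) ∪ CArm ((m n - 2) / 2 + 1) := by
      refine (G.mono g4 _ g5).trans ?_
      rcases Nat.even_or_odd (m n) with he | ho
      · obtain ⟨c, hc⟩ := he
        have : 2 * ((m n - 2) / 2) + 2 = m n := by omega
        rw [this]
        exact Set.subset_union_left
      · obtain ⟨c, hc⟩ := ho
        have i1 : 2 * ((m n - 2) / 2) + 2 = 2 * ((m n - 2) / 2 + 1) := by ring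
        have i2 : 2 * ((m n - 2) / 2 + 1) + 1 = m n := by omega
        have := lower (a n) (K := (m n - 2) / 2 + 1) (by omega) (b n)
        rw [i2] at this
        rw [i1]
        exact this
    have hle : perc.real (FCross1 (od (a n)) (2 * ((m n - 2) / 2) + 2) (od (b n))) ≤
        perc.real (FCross1 (a n) (m n) (b n)) + perc.real (CArm ((m n - 2) / 2 + 1)) :=
      (measureReal_mono hsub).trans (measureReal_union_le _ _)
    have hc := carm_le ((m n - 2) / 2 + 1)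
    have i3 : 2 * ((m n - 2) / 2 + 1) = 2 * ((m n - 2) / 2) + 2 := by ring
    rw [i3] at hc
    linarith
  · filter_upwards [e2] with n h2
    have g2 : 2 ≤ m n := by exact_mod_cast h2
    refine measureReal_mono ?_
    refine (G.mono (le_ou _) _ (le_ou _)).trans ?_
    rcases Nat.even_or_odd (m n) with he | ho
    · obtain ⟨c, hc⟩ := he
      have : 2 * ((m n - 1) / 2) + 2 = m n := by omega
      rw [this]
    · have := upper (ou (a n)) ho (ou (b n))
      obtain ⟨c, hc⟩ := ho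
      have i1 : 2 * ((m n - 1) / 2) + 2 = m n + 1 := by omega
      rw [i1]
      exact this

end Pool.Agent.H966.T1
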