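import Pool.Agent.H966.T1.Stubs
import Pool.Graph.R_pool_sql_team_seeded_3dad9d7b.NH38.Fork.HG2
import Pool.Graph.R_pool_sql_team_seeded_3dad9d7b.NH38.Fork.Reg

/-!
Forked channels of even width, both inner walls: task T1-H1 (helper225), the homogeneous limit of the
formula `S1_M`.
-/

namespace Pool.Agent.H966.T1

open Pool.Agent.H988R2.Perc hiding X
open Pool.Agent.NH38.Step (om prs EE zs prF Gen on)
open Pool.Agent.NH38.Step.Hom (phi eL DD DD_ne W0 VV bs LP xs xs_zero xs_cont ev_gen phi_app phi_cons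
  om_cube prF_len prF_ne on_ne on_len oA eL_oA eL_C eL_phiL phiL Ev W0_closed
  Lx Lx_cont Lx_map listprod_cont cont_mid prF_zero on_prod QS QS_toL QS_top QS_deg zc sym_P
  sym_coeff invert_phiL mem_VV coeff_mul_T coeff_toL coeff_C_mul' VV_mono bs_mem eL_poly eL_T)
open Pool.Agent.NH38.Fork (zo mm gh gF NZ LR UL gm S_regG t_regz)
open Pool.Agent.NH38.Fork.H2 (LR_cont PX PX_zero om_cont prod3_cont on_app list_zero)
open Filter Topology

namespace H1

open LaurentPolynomial (T C invert)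

/-! ### the odd case of `FS_mem` -/

/-- `zo (w :: S)` as a Laurent polynomial in `w`, `|S| = 2 j` -/
noncomputable def zoL (j : ℕ) (S : List ℂ) (P : Polynomial ℂ) : LP :=
  Polynomial.toLaurent P * T (-(j:ℤ)) * C ((S.prod^j * q^((j+1)*j))⁻¹)

theorem eL_zoL (S : List ℂ) (j : ℕ) (hS : S.length = 2*j) (P : Polynomial ℂ)
    (hP : ∀ w, Z (w :: (S ++ [0])) = P.eval w) (w : ℂ) (hw : w ≠ 0) :
    eL w hw (zoL j S P) = zo (w :: S) := by
  unfold zoL zo
  rw [map_mul, map_mul, eL_poly, eL_T, eL_C, ← hP, List.length_cons, List.prod_cons, hS,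
    List.cons_append]
  have h1 : (2*j+1-1)/2 = j := by omega
  have h2 : (2*j+1+1)/2 = j+1 := by omega
  rw [h1, h2, zpow_neg, zpow_natCast, mul_pow, div_eq_mul_inv, mul_assoc, ← mul_inv]
  congr 2
  ring

theorem odd_mem (S : List ℂ) (j : ℕ) (hS' : S.length = 2*j) (h0 : ∀ c ∈ S, c ≠ 0)
    (P : Polynomial ℂ) (hd : P.natDegree ≤ 2*j) (hP : ∀ w, Z (w :: (S ++ [0])) = P.eval w) :
    Polynomial.toLaurent P * T (-(j:ℤ)) * phiL S - C (P.eval 0) * bs (2*j) ∈ VV (2*j) := by
  have hS : (S ++ [0]).length = 2*j+1 := by simp [hS']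
  have hprod : S.prod ≠ 0 := List.prod_ne_zero (fun h => h0 0 h rfl)
  have hQ : Polynomial.toLaurent P * T (-(j:ℤ)) * phiL S =
      Polynomial.toLaurent (QS S P) * T (-(3*(j:ℤ)+1)) * C (S.prod⁻¹) := by
    rw [QS_toL _ h0, hS']
    have h3 : (T (((2*j : ℕ) : ℤ) + 1) : LP) * T (-(3*(j:ℤ)+1)) = T (-(j:ℤ)) := by
      rw [← LaurentPolynomial.T_add]; congr 1; push_cast; ring
    have h2 : (C S.prod : LP) * C (S.prod⁻¹) = 1 := by
      rw [← map_mul, mul_inv_cancel₀ hprod, map_one]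
    calc Polynomial.toLaurent P * T (-(j:ℤ)) * phiL S
        = phiL S * Polynomial.toLaurent P * (T (((2*j : ℕ) : ℤ) + 1) * T (-(3*(j:ℤ)+1))) *
          (C S.prod * C (S.prod⁻¹)) := by rw [h3, h2]; ring
      _ = _ := by ring
  have hz : ∀ e, e % 3 = 1 → (QS S P).coeff e = 0 := by
    intro e he
    have h1 := zc (j+1) (by omega) _ (by rw [hS]; omega) P (by omega) hP (e+1) (by omega)
    have h2 : QS (S ++ [0]) P = - (Polynomial.X * QS S P) := by
      unfold QS
      rw [List.map_append, List.prod_append]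
      simp only [List.map_cons, List.map_nil, List.prod_cons, List.prod_nil, map_zero, zero_mul,
        sub_zero, zero_sub, mul_one]
      ring
    rw [h2, Polynomial.coeff_neg, Polynomial.coeff_X_mul] at h1
    exact neg_eq_zero.mp h1
  apply mem_VV
  · rw [map_mul, sym_P _ j hS P hP, invert_phiL]
    ring
  · intro e he hei
    rw [hQ, coeff_C_mul', coeff_mul_T]
    obtain ⟨k, hk⟩ : ∃ k : ℕ, e = k := ⟨e.toNat, by omega⟩
    have e1 : e - -(3*(j:ℤ)+1) = ((k + 3*j+1 : ℕ) : ℤ) := by rw [hk]; push_cast; ring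
    rw [e1, coeff_toL]
    have hmu : mu (2*j) = 3*j+1 := by unfold mu; omega
    rw [hmu]
    by_cases hk3 : k % 3 = 0
    · rw [hz _ (by omega), zero_mul, if_neg]
      rw [hk]; intro h
      have : k = 3 * j + 1 := by exact_mod_cast h
      omega
    · by_cases hk4 : k = 3 * j + 1
      · rw [if_pos (by rw [hk, hk4])]
        have h1 := QS_top S P (2*j) hd
        rw [hS'] at h1
        rw [show k + 3*j+1 = 2 + 2 * (2*j) + 2*j by omega, h1, sym_coeff _ j hS P hP]
        field_simp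
      · have hk5 : 3 * j + 1 < k := by
          by_contra hlt
          push Not at hlt
          have hk6 : k < 3 * j + 1 := lt_of_le_of_ne hlt hk4
          rcases (by omega : k % 3 = 1 ∨ k % 3 = 2) with h | h
          · apply hei (2 * (k/3)) (by omega)
            rw [hk]
            have : mu (2 * (k/3)) = k := by unfold mu; omega
            rw [this]
          · apply hei (2 * (k/3) + 1) (by omega)
            rw [hk]
            have : mu (2 * (k/3) + 1) = k := by unfold mu; omega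
            rw [this]
        rw [if_neg (by rw [hk]; intro h; have : k = 3 * j + 1 := by exact_mod_cast h
                       omega)]
        have h1 := QS_deg S P (2*j) hd
        rw [Polynomial.coeff_eq_zero_of_natDegree_lt (by rw [hS'] at h1; omega), zero_mul]

/-- the terms of the formula -/
theorem term_mem (S : List ℂ) (j : ℕ) (hS : S.length = 2*j) (hS0 : ∀ c ∈ S, c ≠ 0) :
    ∃ F ∈ VV (2*j+1), ∀ (w : ℂ) (hw : w ≠ 0), eL w hw F = phi S w * zo (w :: S) := by
  obtain ⟨P, hP, hP'⟩ := (Z_pd (2 * j + 2) ⟨j + 1, by ring⟩).univ [] (S ++ [0])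
    (by simp [hS])
  have hP'' : ∀ w, Z (w :: (S ++ [0])) = P.eval w := fun w => hP' w
  refine ⟨C ((S.prod^j * q^((j+1)*j))⁻¹) * (Polynomial.toLaurent P * T (-(j:ℤ)) * phiL S), ?_,
    fun w hw => ?_⟩
  · rw [← LaurentPolynomial.smul_eq_C_mul]
    refine Submodule.smul_mem _ _ ?_
    have h1 := odd_mem S j hS hS0 P (by omega) hP''
    have h2 : Polynomial.toLaurent P * T (-(j:ℤ)) * phiL S =
        (Polynomial.toLaurent P * T (-(j:ℤ)) * phiL S - C (P.eval 0) * bs (2*j)) +
          C (P.eval 0) * bs (2*j) := by ring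
    rw [h2]
    refine Submodule.add_mem _ (VV_mono (by omega) h1) ?_
    rw [← LaurentPolynomial.smul_eq_C_mul]
    exact Submodule.smul_mem _ _ (bs_mem (by omega))
  · have h3 : C ((S.prod^j * q^((j+1)*j))⁻¹) * (Polynomial.toLaurent P * T (-(j:ℤ)) * phiL S) =
        phiL S * zoL j S P := by
      unfold zoL
      ring
    rw [h3, map_mul, eL_phiL, eL_zoL S j hS P hP'']

/-! ### the formula -/

/-- the factor `(w - q z) (1 - 1/(w z))` as an affine function of `om (q w)` -/
theorem fac_eq (w z : ℂ) (hw : w ≠ 0) (hz : z ≠ 0) :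
    (w - q*z) * (1 - (w*z)⁻¹) = q^2 * om (q * w) - (z⁻¹ + q * z) := by
  have hq3 := q_cube
  unfold om
  rw [mul_inv, mul_inv, q_inv]
  field_simp
  linear_combination (-(w^2*z) - q*z) * hq3

theorem cc1_eq (g0 : ℂ → ℂ) (w v x : ℂ) (hw : w ≠ 0) (hx : x ≠ 0) :
    cc1 g0 w v x = om (q * w) * ((1 - q^2)/3 * q^2 * (((x - q*v) * (1 - (x*v)⁻¹)) * g0 x -
        ((x⁻¹ - q*v) * (1 - (x⁻¹*v)⁻¹)) * g0 x⁻¹) / (x - x⁻¹)) +
      (-((1 - q^2)/3 * ((x⁻¹ + q * x) * ((x - q*v) * (1 - (x*v)⁻¹)) * g0 x -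
        (x + q * x⁻¹) * ((x⁻¹ - q*v) * (1 - (x⁻¹*v)⁻¹)) * g0 x⁻¹) / (x - x⁻¹))) := by
  have e1 := fac_eq w x hw hx
  have e2 := fac_eq w x⁻¹ hw (inv_ne_zero hx)
  rw [inv_inv] at e2
  unfold cc1 Kk
  rw [e1, e2]
  ring

open Classical in
/-- the formula `S1_M` times `phi (A ++ B) ∏ (om w - om x_j) / ∏ (om v - om x_j)` -/
theorem formula {ι : Type} (x : ι → ℂ) (hg : Gen x) (s : Finset ι) (A B : List ℂ)
    (w v : ℂ) (hw : w ≠ 0) (hvx : ∀ j ∈ s, om v ≠ om (x j))
    (h : DD1 x s A B w v = 0) :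
    zs (A ++ B) * (hF x s A B w v * phi (v :: ((A ++ B) ++ prF x s)) w) -
      q * zo (v :: ((A ++ B) ++ prF x s)) * ((w - q*v) * (1 - (w*v)⁻¹) *
        ((∏ j ∈ s, (om (w^3) - om ((x j)^3))) * (gF x ∅ A B w * phi (A ++ B) w))) =
    - (q * ((w - q*v) * (1 - (w*v)⁻¹) * ((∏ j ∈ s, EE (om v) (om (x j)) / (om v - om (x j))) *
        gF x ∅ A B v) * (phi ((A ++ B) ++ prF x s) w * zo (w :: ((A ++ B) ++ prF x s))))) +
    ∑ i ∈ s, q * (gm x s i / (om v - om (x i))) * cc1 (gF x ∅ A B) w v (x i) *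
      (phi (v :: x i :: ((A ++ B) ++ prF x (s.erase i))) w *
        zo (w :: v :: x i :: ((A ++ B) ++ prF x (s.erase i)))) := by
  have hx0 : ∀ i, x i ≠ 0 := fun i => (hg.1 i).1
  have hE : (∏ j ∈ s, EE (om w) (om (x j))) * (∏ j ∈ s, (om w - om (x j))) =
      ∏ j ∈ s, (om (w^3) - om ((x j)^3)) := by
    rw [← Finset.prod_mul_distrib]
    refine Finset.prod_congr rfl fun j _ => ?_
    rw [om_cube w hw, om_cube (x j) (hx0 j)]
    unfold EE
    ring
  have hsq : (∏ j ∈ s, (om w - om (x j)))^2 = ∏ j ∈ s, (om w - om (x j))^2 :=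
    (Finset.prod_pow _ _ _).symm
  have hPv : (∏ j ∈ s, (om v - om (x j))) ≠ 0 :=
    Finset.prod_ne_zero_iff.mpr fun j hj => sub_ne_zero.mpr (hvx j hj)
  unfold DD1 at h
  rw [show ∀ L : List ℂ, A ++ (B ++ L) = (A ++ B) ++ L from fun L => (List.append_assoc _ _ _).symm]
    at h
  rw [Finset.prod_mul_distrib, Finset.prod_mul_distrib, Finset.prod_mul_distrib] at h
  set Pw := ∏ j ∈ s, (om w - om (x j)) with hPwdef
  set Pv := ∏ j ∈ s, (om v - om (x j)) with hPvdef
  have hsum : (om w - om v) * (∑ i ∈ s, gm x s i *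
        (∏ j ∈ s.erase i, (om w - om (x j)) * (om v - om (x j))) * cc1 (gF x ∅ A B) w v (x i) *
        zo (w :: v :: x i :: (A ++ (B ++ prF x (s.erase i))))) *
      (phi (A ++ B) w * Pw) = Pv * ∑ i ∈ s, (gm x s i / (om v - om (x i))) *
        cc1 (gF x ∅ A B) w v (x i) *
      (phi (v :: x i :: ((A ++ B) ++ prF x (s.erase i))) w *
        zo (w :: v :: x i :: ((A ++ B) ++ prF x (s.erase i)))) := by
    rw [Finset.mul_sum, Finset.sum_mul, Finset.mul_sum]
    refine Finset.sum_congr rfl fun i hi => ?_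
    have hi0 : om v - om (x i) ≠ 0 := sub_ne_zero.mpr (hvx i hi)
    rw [phi_cons, phi_cons, phi_app, List.append_assoc, Finset.prod_mul_distrib, hPwdef, hPvdef,
      ← Finset.mul_prod_erase s (fun j => om w - om (x j)) hi,
      ← Finset.mul_prod_erase s (fun j => om v - om (x j)) hi]
    have h2 : (∏ j ∈ s.erase i, (om w - om (x j)))^2 = ∏ j ∈ s.erase i, (om w - om (x j))^2 :=
      (Finset.prod_pow _ _ _).symm
    rw [← h2]
    field_simp
  rw [Finset.prod_div_distrib, ← hPvdef]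
  have e3 : ∑ i ∈ s, q * (gm x s i / (om v - om (x i))) * cc1 (gF x ∅ A B) w v (x i) *
      (phi (v :: x i :: ((A ++ B) ++ prF x (s.erase i))) w *
        zo (w :: v :: x i :: ((A ++ B) ++ prF x (s.erase i)))) =
      q * ∑ i ∈ s, (gm x s i / (om v - om (x i))) * cc1 (gF x ∅ A B) w v (x i) *
      (phi (v :: x i :: ((A ++ B) ++ prF x (s.erase i))) w *
        zo (w :: v :: x i :: ((A ++ B) ++ prF x (s.erase i)))) := by
    rw [Finset.mul_sum]
    exact Finset.sum_congr rfl fun i _ => by ring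
  rw [e3]
  apply mul_left_cancel₀ hPv
  rw [phi_cons, phi_app, ← hsq, ← hE]
  set Evp := ∏ j ∈ s, EE (om v) (om (x j)) with hEv
  set Sm := ∑ i ∈ s, (gm x s i / (om v - om (x i))) * cc1 (gF x ∅ A B) w v (x i) *
      (phi (v :: x i :: ((A ++ B) ++ prF x (s.erase i))) w *
        zo (w :: v :: x i :: ((A ++ B) ++ prF x (s.erase i)))) with hSm
  have e4 : Pv * (Evp / Pv) = Evp := mul_div_cancel₀ _ hPv
  linear_combination (phi (A ++ B) w * Pw) * h + q * hsum +
    (q * ((w - q*v) * (1 - (w*v)⁻¹)) * gF x ∅ A B v * phi (A ++ B) w * Pw^2 *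
      zo (w :: ((A ++ B) ++ prF x s))) * e4

open Classical in
theorem ff_mem (hM : S1_M) {ι : Type} (x : ι → ℂ) (hg : Gen x) (s : Finset ι) (a b : ℕ)
    (ha : Odd a) (hb : Odd b) (v : ℂ) (hv : v ≠ 0) (hvx : ∀ j ∈ s, om v ≠ om (x j)) :
    ∃ F ∈ W0 (a + b + 1 + 2*s.card), ∀ (w : ℂ) (hw : w ≠ 0),
    zs (on (a + b)) * (hF x s (on a) (on b) w v * phi (v :: (on (a + b) ++ prF x s)) w) -
      q * zo (v :: (on (a + b) ++ prF x s)) * ((w - q*v) * (1 - (w*v)⁻¹) *
        ((∏ j ∈ s, (om (w^3) - om ((x j)^3))) * (gF x ∅ (on a) (on b) w * phi (on (a + b)) w))) =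
      eL w hw F := by
  have hx0 : ∀ i, x i ≠ 0 := fun i => (hg.1 i).1
  have hoa : Odd (on a).length := by rw [on_len]; exact ha
  have hob : Odd (on b).length := by rw [on_len]; exact hb
  have h2a : on a ++ on b = on (a + b) := on_app a b
  obtain ⟨c, hc⟩ := ha.add_odd hb
  obtain ⟨F0, hF0, hF0'⟩ := term_mem (on (a + b) ++ prF x s) (c + s.card) (by
    rw [List.length_append, on_len, prF_len]; omega) (by
    intro c hc
    rcases List.mem_append.mp hc with hc | hc
    · exact on_ne _ c hc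
    · exact prF_ne x _ hx0 c hc)
  have e0 : 2 * (c + s.card) + 1 = a + b + 1 + 2*s.card := by omega
  rw [e0] at hF0
  have hT : ∀ i, ∃ F : LP, i ∈ s → F ∈ VV (a + b + 1 + 2*s.card) ∧ ∀ (w : ℂ) (hw : w ≠ 0),
      eL w hw F = phi (v :: x i :: (on (a + b) ++ prF x (s.erase i))) w *
        zo (w :: v :: x i :: (on (a + b) ++ prF x (s.erase i))) := by
    intro i
    by_cases hi : i ∈ s
    · have hc1 : 0 < s.card := Finset.card_pos.mpr ⟨i, hi⟩
      obtain ⟨F, hF, hF'⟩ := term_mem (v :: x i :: (on (a + b) ++ prF x (s.erase i)))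
        (c + s.card) (by
          rw [List.length_cons, List.length_cons, List.length_append, on_len, prF_len,
            Finset.card_erase_of_mem hi]
          omega) (by
          intro c hc
          rcases List.mem_cons.mp hc with rfl | hc
          · exact hv
          rcases List.mem_cons.mp hc with rfl | hc
          · exact hx0 i
          rcases List.mem_append.mp hc with hc | hc
          · exact on_ne _ c hc
          · exact prF_ne x _ hx0 c hc)
      rw [e0] at hF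
      exact ⟨F, fun _ => ⟨hF, hF'⟩⟩
    · exact ⟨0, fun h => absurd h hi⟩
  choose F hF using hT
  set g0 : ℂ → ℂ := gF x ∅ (on a) (on b) with hg0
  obtain ⟨κ, hκ⟩ : ∃ κ : ℂ, κ = (∏ j ∈ s, EE (om v) (om (x j)) / (om v - om (x j))) * g0 v :=
    ⟨_, rfl⟩
  obtain ⟨α, hα⟩ : ∃ α : ι → ℂ, ∀ i, α i = q * (gm x s i / (om v - om (x i))) *
      ((1 - q^2)/3 * q^2 * (((x i - q*v) * (1 - (x i*v)⁻¹)) * g0 (x i) -
        (((x i)⁻¹ - q*v) * (1 - ((x i)⁻¹*v)⁻¹)) * g0 (x i)⁻¹) / (x i - (x i)⁻¹)) :=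
    ⟨_, fun _ => rfl⟩
  obtain ⟨β, hβ⟩ : ∃ β : ι → ℂ, ∀ i, β i = q * (gm x s i / (om v - om (x i))) *
      (-((1 - q^2)/3 * (((x i)⁻¹ + q * x i) * ((x i - q*v) * (1 - (x i*v)⁻¹)) * g0 (x i) -
        (x i + q * (x i)⁻¹) * (((x i)⁻¹ - q*v) * (1 - ((x i)⁻¹*v)⁻¹)) * g0 (x i)⁻¹) /
          (x i - (x i)⁻¹))) :=
    ⟨_, fun _ => rfl⟩
  refine ⟨oA * ((-(q * (q^2 * κ))) • F0 + ∑ i ∈ s, α i • F i) +
    ((q * ((v⁻¹ + q * v) * κ)) • F0 + ∑ i ∈ s, β i • F i), ?_, ?_⟩
  · unfold W0
    refine Submodule.add_mem_sup ?_ ?_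
    · exact ⟨_, Submodule.add_mem _ (Submodule.smul_mem _ _ hF0)
        (Submodule.sum_mem _ fun i hi => Submodule.smul_mem _ _ (hF i hi).1), rfl⟩
    · exact Submodule.add_mem _ (Submodule.smul_mem _ _ hF0)
        (Submodule.sum_mem _ fun i hi => Submodule.smul_mem _ _ (hF i hi).1)
  · intro w hw
    have h := formula x hg s (on a) (on b) w v hw hvx
      (hM x hg s (on a) (on b) w v hoa hob (on_ne a) (on_ne b) hw hv)
    rw [h2a, ← hg0, ← hκ] at h
    rw [h, map_add, map_mul, eL_oA, map_add, map_add, map_sum, map_sum,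
      LaurentPolynomial.smul_eq_C_mul, LaurentPolynomial.smul_eq_C_mul, map_mul, map_mul, eL_C,
      eL_C, hF0' w hw, fac_eq w v hw hv]
    have hs : ∑ i ∈ s, q * (gm x s i / (om v - om (x i))) * cc1 g0 w v (x i) *
        (phi (v :: x i :: (on (a + b) ++ prF x (s.erase i))) w *
          zo (w :: v :: x i :: (on (a + b) ++ prF x (s.erase i)))) =
        om (q * w) * ∑ i ∈ s, eL w hw (α i • F i) + ∑ i ∈ s, eL w hw (β i • F i) := by
      rw [Finset.mul_sum, ← Finset.sum_add_distrib]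
      refine Finset.sum_congr rfl fun i hi => ?_
      rw [LaurentPolynomial.smul_eq_C_mul, LaurentPolynomial.smul_eq_C_mul, map_mul, map_mul, eL_C,
        eL_C, (hF i hi).2 w hw, cc1_eq g0 w v (x i) hw (hx0 i), hα, hβ]
      ring
    rw [hs]
    ring

/-! ### the family -/

/-- the value of `v` along the family -/
noncomputable def vt (k : ℕ) (t : ℂ) : ℂ := xs (k+1) t (Fin.last k)

theorem vt_zero (k : ℕ) : vt k 0 = 1 := xs_zero _ _

theorem xs_succ (k : ℕ) (t : ℂ) (i : Fin k) : xs (k+1) t i.castSucc = xs k t i := rfl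

theorem om_ne_of {v x : ℂ} (hv : v ≠ 0) (hx : x ≠ 0) (h1 : v^6 ≠ x^6) (h2 : (v*x)^6 ≠ 1) :
    om v ≠ om x := by
  intro h
  unfold om at h
  have h3 : (v - x) * (v * x - 1) = 0 := by
    field_simp at h
    linear_combination h
  rcases mul_eq_zero.mp h3 with h4 | h4
  · exact h1 (by rw [sub_eq_zero.mp h4])
  · exact h2 (by rw [sub_eq_zero.mp h4, one_pow])

theorem ev_fam (k : ℕ) : ∀ᶠ t in 𝓝[≠] (0:ℂ), Gen (xs k t) ∧ vt k t ≠ 0 ∧
    ∀ j ∈ (Finset.univ : Finset (Fin k)), om (vt k t) ≠ om (xs k t j) := by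
  filter_upwards [ev_gen (k+1)] with t ht
  refine ⟨⟨fun i => ?_, fun i j hij => ?_⟩, (ht.1 (Fin.last k)).1, fun j _ => ?_⟩
  · have h := ht.1 i.castSucc
    simpa only [xs_succ] using h
  · have h := ht.2 i.castSucc j.castSucc (fun h => hij (Fin.castSucc_injective _ h))
    simpa only [xs_succ] using h
  · have hne : Fin.last k ≠ j.castSucc := (Fin.castSucc_lt_last j).ne'
    have h := ht.2 (Fin.last k) j.castSucc hne
    have h1 := ht.1 j.castSucc
    rw [xs_succ] at h h1
    exact om_ne_of (ht.1 (Fin.last k)).1 h1.1 h.1 h.2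

theorem ul_x (k : ℕ) (i : Fin k) : UL (PX (k+1)) (fun t _ => xs k t i) :=
  Pool.Agent.NH38.Fork.H2.ul_xs (k+1) i.castSucc

theorem ul_v (k : ℕ) : UL (PX (k+1)) (fun t _ => vt k t) :=
  Pool.Agent.NH38.Fork.H2.ul_xs (k+1) (Fin.last k)

/-- constant functions -/
noncomputable def cn (n : ℕ) : List (ℂ → ℂ → ℂ) := (on n).map (fun c => fun (_ _ : ℂ) => c)

theorem cn_map (n : ℕ) (t w : ℂ) : (cn n).map (fun g => g t w) = on n := by
  unfold cn
  rw [List.map_map]
  simp [Function.comp_def]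

theorem cn_ul (P : Polynomial ℂ) (n : ℕ) : ∀ g ∈ cn n, UL P g := by
  intro g hg
  unfold cn at hg
  rw [List.mem_map] at hg
  obtain ⟨c, _, rfl⟩ := hg
  exact UL.const c

theorem cn_len (n : ℕ) : (cn n).length = n := by
  unfold cn
  rw [List.length_map, on_len]

/-- the reflected pairs -/
noncomputable def Lp (k : ℕ) : List (ℂ → ℂ → ℂ) :=
  (Finset.univ : Finset (Fin k)).toList.flatMap
    (fun i => [fun t _ => xs k t i, fun t _ => (xs k t i)⁻¹])

theorem Lp_map (k : ℕ) (t w : ℂ) :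
    (Lp k).map (fun f => f t w) = prF (xs k t) Finset.univ := by
  unfold Lp prF prs
  rw [List.map_flatMap, List.flatMap_map]
  rfl

theorem Lp_len (k : ℕ) : (Lp k).length = 2 * k := by
  have h := congrArg List.length (Lp_map k 0 0)
  rw [List.length_map, prF_len, Finset.card_univ, Fintype.card_fin] at h
  exact h

theorem Lp_ul (k : ℕ) : ∀ g ∈ Lp k, UL (PX (k+1)) g := by
  intro g hg
  unfold Lp at hg
  rw [List.mem_flatMap] at hg
  obtain ⟨i, _, hi⟩ := hg
  rcases List.mem_cons.mp hi with rfl | hi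
  · exact ul_x k i
  · rcases List.mem_cons.mp hi with rfl | hi
    · exact (ul_x k i).inv
    · exact absurd hi List.not_mem_nil

theorem zs_cont (a b k : ℕ) (hab : Even (a + b)) (w : ℂ) (hw : w ≠ 0) :
    ContinuousAt (fun t => zs (w :: vt k t :: (on a ++ (on b ++ prF (xs k t) Finset.univ)))) 0 := by
  have h := (t_regz (PX (k+1)) ((fun _ w => w) :: (fun t _ => vt k t) ::
    (cn a ++ (cn b ++ Lp k))) (by
      intro g hg
      rcases List.mem_cons.mp hg with rfl | hg
      · exact UL.var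
      rcases List.mem_cons.mp hg with rfl | hg
      · exact ul_v k
      rcases List.mem_append.mp hg with hg | hg
      · exact cn_ul _ a g hg
      rcases List.mem_append.mp hg with hg | hg
      · exact cn_ul _ b g hg
      · exact Lp_ul k g hg)).1 (by
      obtain ⟨c, hc⟩ := hab
      refine ⟨c + k + 1, ?_⟩
      simp only [List.length_cons, List.length_append, cn_len, Lp_len]
      omega)
  have h1 := LR_cont h (PX_zero (k+1)) w hw
  simp only [List.map_cons, List.map_append, cn_map, Lp_map] at h1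
  exact h1

theorem zo_cont (n k : ℕ) (hn : Even n) :
    ContinuousAt (fun t => zo (vt k t :: (on n ++ prF (xs k t) Finset.univ))) 0 := by
  have h := (t_regz (PX (k+1)) ((fun t _ => vt k t) :: (cn n ++ Lp k)) (by
      intro g hg
      rcases List.mem_cons.mp hg with rfl | hg
      · exact ul_v k
      rcases List.mem_append.mp hg with hg | hg
      · exact cn_ul _ n g hg
      · exact Lp_ul k g hg)).2 (by
      obtain ⟨c, hc⟩ := hn
      refine ⟨c + k, ?_⟩
      simp only [List.length_cons, List.length_append, cn_len, Lp_len]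
      omega)
  have h1 := LR_cont h (PX_zero (k+1)) 1 one_ne_zero
  simp only [List.map_cons, List.map_append, cn_map, Lp_map] at h1
  exact h1

theorem eh_cont (hR : S1_reg) (a b k : ℕ) (ha : Odd a) (hb : Odd b) (w : ℂ) (hw : w ≠ 0) :
    ContinuousAt (fun t => eh (on a) ((Finset.univ : Finset (Fin k)).toList.map (xs k t)) (on b) w
      (vt k t)) 0 := by
  have h := hR (PX (k+1)) (cn a)
    ((Finset.univ : Finset (Fin k)).toList.map (fun i => fun t _ => xs k t i)) (cn b)
    (fun _ w => w) (fun t _ => vt k t) (by rw [cn_len]; exact ha) (by rw [cn_len]; exact hb)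
    (cn_ul _ a) (by
      intro g hg
      rw [List.mem_map] at hg
      obtain ⟨i, _, rfl⟩ := hg
      exact ul_x k i) (cn_ul _ b) UL.var (ul_v k)
  have h1 := LR_cont h (PX_zero (k+1)) w hw
  simp only [cn_map, List.map_map] at h1
  exact h1

theorem vt_cont (k : ℕ) : ContinuousAt (fun t => vt k t) 0 := (xs_cont (k+1) _).continuousAt

theorem phi_cont (n k : ℕ) (w : ℂ) :
    ContinuousAt (fun t => phi (vt k t :: (on n ++ prF (xs k t) Finset.univ)) w) 0 := by
  simp only [phi_cons]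
  refine ContinuousAt.mul (continuousAt_const.sub ?_) (Pool.Agent.NH38.Fork.HG2.phi_cont n k w)
  exact om_cont (k+1) (Fin.last k)

/-- the left side of the formula along the family -/
noncomputable def ff (a b k : ℕ) (t w : ℂ) : ℂ :=
  zs (on (a + b)) * (hF (xs k t) Finset.univ (on a) (on b) w (vt k t) *
    phi (vt k t :: (on (a + b) ++ prF (xs k t) Finset.univ)) w) -
  q * zo (vt k t :: (on (a + b) ++ prF (xs k t) Finset.univ)) *
    ((w - q * vt k t) * (1 - (w * vt k t)⁻¹) *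
      ((∏ i : Fin k, (om (w^3) - om ((xs k t i)^3))) *
        (gh (on a) [] (on b) w * phi (on (a + b)) w)))

theorem ff_cont (hR : S1_reg) (a b k : ℕ) (ha : Odd a) (hb : Odd b) (w : ℂ) (hw : w ≠ 0) :
    ContinuousAt (fun t => ff a b k t w) 0 := by
  have hab : Even (a + b) := ha.add_odd hb
  unfold ff
  refine ContinuousAt.sub ?_ ?_
  · refine continuousAt_const.mul (ContinuousAt.mul ?_ (phi_cont (a + b) k w))
    unfold hF
    exact (continuousAt_const.mul (zs_cont a b k hab w hw)).sub (eh_cont hR a b k ha hb w hw)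
  · refine (continuousAt_const.mul (zo_cont (a + b) k hab)).mul (ContinuousAt.mul ?_
      ((prod3_cont k w).mul continuousAt_const))
    refine (continuousAt_const.sub (continuousAt_const.mul (vt_cont k))).mul
      (continuousAt_const.sub ((continuousAt_const.mul (vt_cont k)).inv₀ ?_))
    show w * vt k 0 ≠ 0
    rw [vt_zero, mul_one]
    exact hw

theorem lim_mem (hM : S1_M) (hR : S1_reg) (a b k : ℕ) (ha : Odd a) (hb : Odd b) :
    (fun w : DD => ff a b k 0 w.1) ∈ (W0 (a + b + 1 + 2*k)).map Ev := by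
  have hcl := W0_closed (a + b + 1 + 2*k)
  refine hcl.mem_of_tendsto (b := 𝓝[≠] (0:ℂ)) (f := fun t => fun w : DD => ff a b k t w.1) ?_ ?_
  · rw [tendsto_pi_nhds]
    intro w
    exact (ff_cont hR a b k ha hb w.1 (DD_ne w.2)).tendsto.mono_left nhdsWithin_le_nhds
  · filter_upwards [ev_fam k] with t ht
    obtain ⟨h1, h2, h3⟩ := ht
    obtain ⟨F, hF, hF'⟩ := ff_mem hM (xs k t) h1 Finset.univ a b ha hb (vt k t) h2 h3
    rw [Finset.card_univ, Fintype.card_fin] at hF
    refine ⟨F, hF, ?_⟩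
    funext w
    have h2 := hF' w.1 (DD_ne w.2)
    show eL w.1 (DD_ne w.2) F = ff a b k t w.1
    rw [← h2]
    unfold ff
    have h3 : gF (xs k t) ∅ (on a) (on b) w.1 = gh (on a) [] (on b) w.1 := by
      unfold gF
      rw [Finset.toList_empty, List.map_nil]
    rw [h3]

theorem cons_on (n m : ℕ) : (1 : ℂ) :: (on n ++ on m) = on (n + 1 + m) := by
  rw [on_app]
  have : n + 1 + m = (n + m) + 1 := by ring
  rw [this]
  rfl

end H1

theorem t1_H1 : S1_M → S1_reg → S_regG → S1_H1 := by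
  intro hM hR _ a b k ha hb
  obtain ⟨F, hF, hFe⟩ := H1.lim_mem hM hR a b k ha hb
  refine ⟨F, hF, fun w hw => ?_⟩
  have h1 := congrFun hFe ⟨w, hw⟩
  have h2 : eL w (DD_ne hw) F = H1.ff a b k 0 w := h1
  rw [h2]
  unfold H1.ff T1.hF T1.h1
  rw [list_zero, prF_zero, H1.vt_zero, H1.cons_on]
  simp only [xs_zero, one_pow, Finset.prod_const, Finset.card_univ, Fintype.card_fin, mul_one]
  have h3 : om (1:ℂ) = 2 := by unfold om; norm_num
  rw [h3]

end Pool.Agent.H966.T1
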