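import Pool.Agent.H966.T1.Stubs2
import Pool.Graph.R_pool_sql_team_seeded_3dad9d7b.NH38.Fork.H5
import Pool.Graph.R_pool_sql_team_seeded_3dad9d7b.NH38.Fork.HG5
import Pool.Graph.R_pool_sql_team_seeded_3dad9d7b.NH38.Fork.H7
import Pool.Graph.R_pool_sql_team_seeded_3dad9d7b.NH38.Fork.H2

set_option autoImplicit false

/-!
Forked channels of even width, both inner walls, task H23 (helper168): the total mass and the
residue computation.
-/

namespace Pool.Agent.H966.T1.H23

open Pool.Agent.NH38.Step.Hom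
open Pool.Agent.H988R2.Perc (q q_spec q_cube q_ne_zero q_ne_one q_sq_ne_one mu)
open LaurentPolynomial (T C invert)
open Pool.Agent
open Pool.Agent.NH38.Fork (kap sv)

/-! ### the residue functional for even widths -/

/-- the polynomial of the residue functional -/
noncomputable def HP (N : ℕ) : Polynomial ℚ :=
  H337CB.Ps N - (Polynomial.X - 1) * H337CB.Ps (N-1)

/-- its partner -/
noncomputable def HQ (N : ℕ) : Polynomial ℚ :=
  H337CB.P N - (Polynomial.X - 1) * H337CB.P (N-1)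

theorem R_X1 (m : ℕ) (c : ℚ) (F : Polynomial ℚ) :
    H337CB.R (m + 1) c ((Polynomial.X - 1) * F) = H337CB.R m c F := by
  have h := H337CB.R_shift1 m c F
  have e : (Polynomial.X - 1) * F = Polynomial.C (-1) * ((1 - Polynomial.X) * F) := by
    rw [show (Polynomial.C (-1) : Polynomial ℚ) = -1 by simp]
    ring
  rw [e, H337CB.R_C, h]
  ring

theorem RH_swap (m N : ℕ) (hN : 1 ≤ N) (hm : m + 1 < 2 * N) (c : ℚ) (G : Polynomial ℚ) :
    H337CB.R (m + 1) (c + 1/3) (G * HP N) = H337CB.R (m + 1) c (G * HQ N) := by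
  have e1 : G * HP N = H337CB.Ps N * G - (Polynomial.X - 1) * (H337CB.Ps (N-1) * G) := by
    unfold HP; ring
  have e2 : G * HQ N = H337CB.P N * G - (Polynomial.X - 1) * (H337CB.P (N-1) * G) := by
    unfold HQ; ring
  rw [e1, e2, H337CB.R_sub, H337CB.R_sub, R_X1, R_X1, H337CB.R_swap (m+1) N (by omega) c G,
    H337CB.R_swap m (N-1) (by omega) c G]

theorem natDegree_HQ (N : ℕ) (hN : 1 ≤ N) : (HQ N).natDegree ≤ N := by
  unfold HQ
  have h1 := H337CB.natDegree_P_le N
  have h2 := H337CB.natDegree_P_le (N-1)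
  have dX1 : (Polynomial.X - 1 : Polynomial ℚ).natDegree ≤ 1 := by compute_degree
  refine (Polynomial.natDegree_sub_le _ _).trans (max_le h1 ?_)
  refine Polynomial.natDegree_mul_le.trans ?_
  omega

theorem natDegree_HP (N : ℕ) (hN : 1 ≤ N) : (HP N).natDegree ≤ N - 1 := by
  have h1 := H337CB.natDegree_Ps_le N
  have h2 := H337CB.natDegree_Ps_le (N-1)
  have dX1 : (Polynomial.X - 1 : Polynomial ℚ).natDegree ≤ 1 := by compute_degree
  have h3 : (HP N).natDegree ≤ N := by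
    unfold HP
    refine (Polynomial.natDegree_sub_le _ _).trans (max_le h1 ?_)
    refine Polynomial.natDegree_mul_le.trans ?_
    omega
  have h4 : (HP N).coeff N = 0 := by
    unfold HP
    obtain ⟨M, rfl⟩ : ∃ M, N = M + 1 := ⟨N - 1, by omega⟩
    rw [Nat.add_sub_cancel] at *
    rw [sub_mul, one_mul, Polynomial.coeff_sub, Polynomial.coeff_sub, Polynomial.coeff_X_mul,
      Ps_coeff_top, Ps_coeff_top,
      Polynomial.coeff_eq_zero_of_natDegree_lt (lt_of_le_of_lt h2 (Nat.lt_succ_self _))]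
    ring
  rw [Polynomial.natDegree_le_iff_coeff_eq_zero]
  intro i hi
  rcases Nat.lt_or_ge N i with h | h
  · exact Polynomial.coeff_eq_zero_of_natDegree_lt (lt_of_le_of_lt h3 h)
  · have : i = N := by omega
    rw [this]; exact h4

theorem kap_succ (n : ℕ) : (3 * (n:ℚ) + 2) * kap (n+1) = (3 * (n:ℚ) + 4) * kap n := by
  unfold kap
  rw [Finset.prod_range_succ]
  have h : ((n:ℚ) + 2/3) ≠ 0 := by positivity
  field_simp

theorem kap_pos (n : ℕ) : 0 < kap n := by
  unfold kap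
  exact Finset.prod_pos fun i _ => by positivity

theorem P_top (n : ℕ) : (H337CB.P n).coeff n = kap n := by
  have key : ∀ n, (H337CB.P n).coeff n = kap n ∧ (H337CB.P (n+1)).coeff (n+1) = kap (n+1) := by
    intro n
    induction n with
    | zero =>
      constructor
      · rw [H337CB.P_zero]; simp [kap]
      · rw [zero_add, H337CB.P_one]
        have e : (1 + 2 * Polynomial.X : Polynomial ℚ) =
            Polynomial.C 1 + Polynomial.C 2 * Polynomial.X := by
          rw [Polynomial.C_1, show (Polynomial.C 2 : Polynomial ℚ) = 2 from map_ofNat Polynomial.C 2]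
        rw [e, Polynomial.coeff_add, Polynomial.coeff_C_mul_X, Polynomial.coeff_C]
        unfold kap
        norm_num
    | succ n ih =>
      refine ⟨ih.2, ?_⟩
      have h := congrArg (fun p : Polynomial ℚ => p.coeff (n+2)) (H337CB.P_rec n)
      have c1 : (3 * (n : Polynomial ℚ) + 5) = Polynomial.C (3 * (n:ℚ) + 5) := by
        simp only [map_add, map_mul, map_natCast, map_ofNat]
      have c2 : (6 * (n : Polynomial ℚ) + 9) = Polynomial.C (6 * (n:ℚ) + 9) := by
        simp only [map_add, map_mul, map_natCast, map_ofNat]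
      have c3 : (3 * (n : Polynomial ℚ) + 4) = Polynomial.C (3 * (n:ℚ) + 4) := by
        simp only [map_add, map_mul, map_natCast, map_ofNat]
      have d1 : (1 + Polynomial.X : Polynomial ℚ).natDegree ≤ 1 := by compute_degree
      have d2 : ((Polynomial.X - 1 : Polynomial ℚ)^2).natDegree ≤ 2 := by compute_degree
      have e1 : ((1 + Polynomial.X) * H337CB.P (n+1)).coeff (1 + (n+1)) = kap (n+1) := by
        rw [Polynomial.coeff_mul_add_eq_of_natDegree_le d1 (H337CB.natDegree_P_le _), ih.2]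
        have : (1 + Polynomial.X : Polynomial ℚ).coeff 1 = 1 := by
          rw [Polynomial.coeff_add, Polynomial.coeff_X_one, Polynomial.coeff_one]; norm_num
        rw [this, one_mul]
      have e2 : ((Polynomial.X - 1 : Polynomial ℚ)^2 * H337CB.P n).coeff (2 + n) = kap n := by
        rw [Polynomial.coeff_mul_add_eq_of_natDegree_le d2 (H337CB.natDegree_P_le _), ih.1]
        have : ((Polynomial.X - 1 : Polynomial ℚ)^2).coeff 2 = 1 := by
          have e : (Polynomial.X - 1 : Polynomial ℚ)^2 = Polynomial.X^2 -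
              Polynomial.C 2 * Polynomial.X + Polynomial.C 1 := by
            rw [Polynomial.C_1,
              show (Polynomial.C 2 : Polynomial ℚ) = 2 from map_ofNat Polynomial.C 2]
            ring
          rw [e, Polynomial.coeff_add, Polynomial.coeff_sub, Polynomial.coeff_X_pow,
            Polynomial.coeff_C_mul_X, Polynomial.coeff_C]
          norm_num
        rw [this, one_mul]
      simp only [c1, c2, c3, mul_assoc, Polynomial.coeff_C_mul, Polynomial.coeff_sub] at h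
      rw [show n + 2 = 1 + (n+1) by ring, e1] at h
      rw [show 1 + (n+1) = 2 + n by ring, e2] at h
      rw [show 2 + n = n + 1 + 1 by ring] at h
      have h1 := kap_succ n
      have h2 := kap_succ (n+1)
      push_cast at h2
      have h5 : (3 * (n:ℚ) + 5) ≠ 0 := by positivity
      apply mul_left_cancel₀ h5
      linear_combination h + h1 - h2
  exact (key n).1

theorem HQ_top (N : ℕ) (hN : 1 ≤ N) : (HQ N).coeff N = kap N - kap (N-1) := by
  obtain ⟨M, rfl⟩ : ∃ M, N = M + 1 := ⟨N - 1, by omega⟩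
  unfold HQ
  rw [Nat.add_sub_cancel, sub_mul, one_mul, Polynomial.coeff_sub, Polynomial.coeff_sub,
    Polynomial.coeff_X_mul, P_top, P_top, Polynomial.coeff_eq_zero_of_natDegree_lt
      (lt_of_le_of_lt (H337CB.natDegree_P_le M) (Nat.lt_succ_self _))]
  ring

/-- the residue functional -/
noncomputable def RE (N j : ℕ) (h : LP) : ℂ :=
  PowerSeries.coeff (2*N-1) (rho h * kp (H337CB.pw ((j:ℚ) - 1/3) * H337CB.ev (HP N)))

section
variable (N j : ℕ)

theorem RE_add (f g : LP) : RE N j (f + g) = RE N j f + RE N j g := by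
  unfold RE; rw [map_add, add_mul, map_add]

theorem RE_sub (f g : LP) : RE N j (f - g) = RE N j f - RE N j g := by
  unfold RE; rw [map_sub, sub_mul, map_sub]

theorem RE_C (c : ℂ) (f : LP) : RE N j (C c * f) = c * RE N j f := by
  unfold RE; rw [map_mul rho, rho_C, mul_assoc, PowerSeries.coeff_C_mul]

theorem RE_smul (c : ℂ) (f : LP) : RE N j (c • f) = c * RE N j f := by
  rw [LaurentPolynomial.smul_eq_C_mul, RE_C]

theorem RE_zero : RE N j 0 = 0 := by unfold RE; simp

theorem RE_gen (e : ℤ) (r : ℕ) (F : Polynomial ℚ) (hr : r ≤ 2 * N - 1) :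
    RE N j (T e * (T 3 - 1)^r * polyL F) =
      ((H337CB.R (2*N-1-r) ((e:ℚ)/3 + j - 1/3) (F * HP N) : ℚ) : ℂ) := by
  unfold RE H337CB.R
  rw [map_mul rho, map_mul rho, map_pow rho, rho_T3, rho_T, rho_polyL]
  have : kp (H337CB.pw ((e:ℚ)/3)) * PowerSeries.X^r * kp (H337CB.ev F) *
      kp (H337CB.pw ((j:ℚ) - 1/3) * H337CB.ev (HP N)) =
      PowerSeries.X^r * kp (H337CB.pw ((e:ℚ)/3 + j - 1/3) * H337CB.ev (F * HP N)) := by
    rw [show (e:ℚ)/3 + j - 1/3 = (e:ℚ)/3 + (j - 1/3) by ring, H337CB.pw_add]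
    simp only [map_mul]
    ring
  rw [this, PowerSeries.coeff_X_pow_mul', if_pos hr, kp_coeff]

theorem RE_T (e : ℤ) : RE N j (T e) =
    ((H337CB.R (2*N-1) ((e:ℚ)/3 + j - 1/3) (HP N) : ℚ) : ℂ) := by
  have := RE_gen N j e 0 1 (by omega)
  simpa using this

theorem RE_high (hN : 1 ≤ N) {h : LP} (hd : PowerSeries.X^(2*N) ∣ rho h) :
    RE N j h = 0 := by
  obtain ⟨g, hg⟩ := hd
  unfold RE
  rw [hg, mul_assoc, PowerSeries.coeff_X_pow_mul', if_neg (by omega)]

theorem HP_eval_one : (HP N).eval 1 = (H337CB.Ps N).eval 1 := by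
  unfold HP
  simp

/-- the constant `c0` -/
theorem RE_lead (hN : 1 ≤ N) : ∃ c0 : ℂ, c0 ≠ 0 ∧ ∀ g : LP,
    RE N j (g * (dl * (oL - 2)^(N-1))) = c0 * e1 g := by
  obtain ⟨u, hu, hu1⟩ := rho_T1
  refine ⟨2 * (1/3)^(2*N-1) * (((H337CB.Ps N).eval 1 : ℚ) : ℂ), ?_, ?_⟩
  · refine mul_ne_zero (mul_ne_zero two_ne_zero (pow_ne_zero _ (by norm_num))) ?_
    exact_mod_cast (Ps_eval_one_pos N).ne'
  · intro g
    unfold RE
    have h1 : rho (g * (dl * (oL - 2)^(N-1))) * kp (H337CB.pw ((j:ℚ) - 1/3) * H337CB.ev (HP N)) =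
        PowerSeries.X^(2*N-1) * (rho g * rho (T (-(((N-1 : ℕ):ℤ)+1)) * (T 1 + 1)) * u^(2*N-1) *
          kp (H337CB.pw ((j:ℚ) - 1/3) * H337CB.ev (HP N))) := by
      rw [fac_dl, map_mul, map_mul rho (T (-(((N-1 : ℕ):ℤ)+1)) * (T 1 + 1)), map_pow, hu,
        show 2*(N-1)+1 = 2*N-1 by omega, mul_pow]
      ring
    rw [h1, PowerSeries.coeff_X_pow_mul', if_pos le_rfl, Nat.sub_self,
      PowerSeries.coeff_zero_eq_constantCoeff_apply]
    rw [map_mul PowerSeries.constantCoeff, map_mul PowerSeries.constantCoeff,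
      map_mul PowerSeries.constantCoeff, map_pow, hu1, kp_const,
      map_mul PowerSeries.constantCoeff, const_pw, const_ev]
    have h2 : PowerSeries.constantCoeff (rho (T (-(((N-1 : ℕ):ℤ)+1)) * (T 1 + 1))) = 2 := by
      have : e1 (T (-(((N-1 : ℕ):ℤ)+1)) * (T 1 + 1)) = 2 := by
        rw [map_mul, map_add, e1_T, e1_T, map_one]; norm_num
      exact this
    rw [h2]
    have h3 : PowerSeries.constantCoeff (rho g) = e1 g := rfl
    rw [h3, HP_eval_one]
    push_cast
    ring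

end

theorem RE_bs (N j i : ℕ) (hN : N = 2*j) (hi : i < N - 1) : RE N j (bs i) = 0 := by
  unfold bs
  rw [RE_sub, RE_T, RE_T]
  have hm : 2*N-1 = (2*N-2)+1 := by omega
  rcases mu_cases i with ⟨r, h1, h2⟩ | ⟨r, h1, h2⟩
  · rw [h2]
    have a1 : H337CB.R (2*N-1) ((((3*r+1 : ℕ) : ℤ) : ℚ)/3 + j - 1/3) (HP N) = 0 := by
      rw [show (((3*r+1 : ℕ) : ℤ) : ℚ)/3 + j - 1/3 = ((r + j : ℕ) : ℚ) by push_cast; ring]
      exact R_deg _ _ (N-1) _ (natDegree_HP N (by omega)) (by omega)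
    have a2 : H337CB.R (2*N-1) (((-((3*r+1 : ℕ) : ℤ) : ℤ) : ℚ)/3 + j - 1/3) (HP N) = 0 := by
      obtain ⟨s, hs⟩ : ∃ s, j = r + 1 + s := ⟨j - r - 1, by omega⟩
      have hsw := RH_swap (2*N-2) N (by omega) (by omega) ((s : ℕ) : ℚ) 1
      rw [one_mul, one_mul, ← hm] at hsw
      rw [show ((-((3*r+1 : ℕ) : ℤ) : ℤ) : ℚ)/3 + j - 1/3 = ((s : ℕ) : ℚ) + 1/3 by
        rw [hs]; push_cast; ring, hsw]
      exact R_deg _ _ N _ (natDegree_HQ N (by omega)) (by omega)
    rw [a1, a2]; simp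
  · rw [h2]
    have a1 : H337CB.R (2*N-1) ((((3*r+2 : ℕ) : ℤ) : ℚ)/3 + j - 1/3) (HP N) = 0 := by
      have hsw := RH_swap (2*N-2) N (by omega) (by omega) ((r + j : ℕ) : ℚ) 1
      rw [one_mul, one_mul, ← hm] at hsw
      rw [show (((3*r+2 : ℕ) : ℤ) : ℚ)/3 + j - 1/3 = ((r + j : ℕ) : ℚ) + 1/3 by push_cast; ring,
        hsw]
      exact R_deg _ _ N _ (natDegree_HQ N (by omega)) (by omega)
    have a2 : H337CB.R (2*N-1) (((-((3*r+2 : ℕ) : ℤ) : ℤ) : ℚ)/3 + j - 1/3) (HP N) = 0 := by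
      obtain ⟨s, hs⟩ : ∃ s, j = r + 1 + s := ⟨j - r - 1, by omega⟩
      rw [show ((-((3*r+2 : ℕ) : ℤ) : ℤ) : ℚ)/3 + j - 1/3 = ((s : ℕ) : ℚ) by
        rw [hs]; push_cast; ring]
      exact R_deg _ _ (N-1) _ (natDegree_HP N (by omega)) (by omega)
    rw [a1, a2]; simp

theorem RE_VV (N j : ℕ) (hN : N = 2*j) {F : LP} (h : F ∈ VV (N-1)) : RE N j F = 0 := by
  unfold VV at h
  induction h using Submodule.span_induction with
  | mem x hx =>
    obtain ⟨i, hi, rfl⟩ := hx
    exact RE_bs N j i hN hi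
  | zero => exact RE_zero N j
  | add x y _ _ hx hy => rw [RE_add, hx, hy]; ring
  | smul a x _ hx => rw [RE_smul, hx]; simp

theorem RE_bs_top (N j : ℕ) (hN : N = 2*j) (hj : 1 ≤ j) :
    RE N j (bs (N-1)) = ((kap N - kap (N-1) : ℚ) : ℂ) := by
  unfold bs
  have hm : 2*N-1 = (2*N-2)+1 := by omega
  obtain ⟨r, hr⟩ : ∃ r, j = r + 1 := ⟨j - 1, by omega⟩
  have hmu : mu (N-1) = 3*r+2 := by unfold mu; omega
  rw [RE_sub, RE_T, RE_T, hmu]
  have a1 : H337CB.R (2*N-1) ((((3*r+2 : ℕ) : ℤ) : ℚ)/3 + j - 1/3) (HP N) =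
      kap N - kap (N-1) := by
    have hsw := RH_swap (2*N-2) N (by omega) (by omega) ((r + j : ℕ) : ℚ) 1
    rw [one_mul, one_mul, ← hm] at hsw
    rw [show (((3*r+2 : ℕ) : ℤ) : ℚ)/3 + j - 1/3 = ((r + j : ℕ) : ℚ) + 1/3 by push_cast; ring,
      hsw, R_top (2*N-1) (r+j) N _ (natDegree_HQ N (by omega)) (by omega), HQ_top N (by omega)]
  have a2 : H337CB.R (2*N-1) (((-((3*r+2 : ℕ) : ℤ) : ℤ) : ℚ)/3 + j - 1/3) (HP N) = 0 := by
    rw [show ((-((3*r+2 : ℕ) : ℤ) : ℤ) : ℚ)/3 + j - 1/3 = ((0 : ℕ) : ℚ) by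
      rw [hr]; push_cast; ring]
    exact R_deg _ _ (N-1) _ (natDegree_HP N (by omega)) (by omega)
  rw [a1, a2]; simp

/-! ### the general terms -/

theorem RE_K (k n N j : ℕ) (hj : j = n + k + 1) (hN : N = 2*j) (e : ℤ) (c : ℚ)
    (hc : c = ((e:ℤ):ℚ)/3 + 2/3) (G : Polynomial ℚ) :
    RE N j ((T 3 + T (-3) - 2)^k * (T 3 - 1) * (T (-(3*(n:ℤ))) * T e * polyL G)) =
      ((H337CB.R (N + 2*n) c (G * HP N) : ℚ) : ℂ) := by
  have hT0 : (T (-3 * (k:ℤ)) : LP) * T (-(3*(n:ℤ))) * T e = T (e - 3*((n:ℤ)+k)) := by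
    rw [← LaurentPolynomial.T_add, ← LaurentPolynomial.T_add]
    congr 1
    ring
  have e1 : (T 3 + T (-3) - 2 : LP)^k * (T 3 - 1) * (T (-(3*(n:ℤ))) * T e * polyL G) =
      T (e - 3*((n:ℤ)+k)) * (T 3 - 1)^(2*k+1) * polyL G := by
    rw [Pool.Agent.NH38.HG5C.K_pow, ← hT0, pow_succ]
    ring
  have hNN : 2*N - 1 - (2*k+1) = N + 2*n := by omega
  have hc' : (((e - 3*((n:ℤ)+k) : ℤ)) : ℚ)/3 + j - 1/3 = c := by
    rw [hc, hj]
    push_cast
    ring
  rw [e1, RE_gen N j _ _ _ (by omega), hNN, hc']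

/-! ### the core -/

theorem core (a b k n N j : ℕ) (hn : a + b = 2 * n) (hj : j = n + k + 1)
    (hN : N = 2*j) (h g tN v1 v0 Ft : LP)
    (z zM m : ℂ) (hz : z ≠ 0)
    (H1 : C z * (h * (dl * (oL - 2)^(N-1))) -
      C zM * ((oA + 1) * ((T 3 + T (-3) - 2)^k * (g * (dl * (oL - 2)^(a+b))))) = oA * v1 + v0)
    (hv1 : v1 ∈ VV (N-1)) (hv0 : v0 ∈ VV (N-1))
    (H2 : tN * (dl * (oL - 2)^(N-1)) = C zM * bs (N-1) + Ft)
    (hFt : Ft ∈ VV (N-1))
    (H5 : (g - invert g) * (dl * (oL - 2)^(a+b)) = C ((q^2 - q) * (z * m)) *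
      T (-(3*(n:ℤ)+1)) * ((polyL (H337CB.P a) - T 1 * polyL (H337CB.Ps a)) *
        (polyL (H337CB.P b) - T 1 * polyL (H337CB.Ps b))))
    (Q2 : Polynomial ℚ)
    (hQ2 : (Polynomial.X + 1) * Q2 = (H337CB.P a + H337CB.Ps a) * (H337CB.P b + H337CB.Ps b)) :
    ((kap N - kap (N-1) : ℚ) : ℂ) * e1 h =
      (((kap N - kap (N-1) : ℚ) : ℂ) +
        ((H337CB.R (N + 2*n) (2/3) (Q2 * HP N) : ℚ) : ℂ)) * (e1 tN * m) := by
  obtain ⟨c0, hc0, hc⟩ := RE_lead N j (by omega)
  set A : Polynomial ℚ := H337CB.P a * H337CB.P b with hA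
  set S : Polynomial ℚ := H337CB.Ps a * H337CB.Ps b with hS
  set E : Polynomial ℚ := H337CB.P a * H337CB.Ps b + H337CB.Ps a * H337CB.P b with hE
  have hQ2' : (Polynomial.X + 1) * Q2 = A + S + E := by
    rw [hQ2, hA, hS, hE]; ring
  -- degrees
  have dPa := H337CB.natDegree_P_le a
  have dPb := H337CB.natDegree_P_le b
  have dSa := H337CB.natDegree_Ps_le a
  have dSb := H337CB.natDegree_Ps_le b
  have dA : A.natDegree ≤ 2*n := Polynomial.natDegree_mul_le.trans (by omega)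
  have dS : S.natDegree ≤ 2*n := Polynomial.natDegree_mul_le.trans (by omega)
  have dE : E.natDegree ≤ 2*n := (Polynomial.natDegree_add_le _ _).trans (max_le
    (Polynomial.natDegree_mul_le.trans (by omega)) (Polynomial.natDegree_mul_le.trans (by omega)))
  have dQ : Q2.natDegree < 2*n ∨ Q2 = 0 := by
    by_cases h0 : Q2 = 0
    · exact Or.inr h0
    · left
      have hm : (Polynomial.X + 1 : Polynomial ℚ).Monic := by
        have := Polynomial.monic_X_add_C (1:ℚ)
        rwa [Polynomial.C_1] at this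
      have hd1 : (Polynomial.X + 1 : Polynomial ℚ).natDegree = 1 := by
        have := Polynomial.natDegree_X_add_C (1:ℚ)
        rwa [Polynomial.C_1] at this
      have h1 := hm.natDegree_mul' h0
      rw [hQ2', hd1] at h1
      have h2 : (A + S + E).natDegree ≤ 2*n := (Polynomial.natDegree_add_le _ _).trans (max_le
        ((Polynomial.natDegree_add_le _ _).trans (max_le dA dS)) dE)
      omega
  have dQ' : Q2.natDegree ≤ 2*n := by
    rcases dQ with h | h
    · exact h.le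
    · rw [h]; simp
  have cQ : Q2.coeff (2*n) = 0 := by
    rcases dQ with h | h
    · exact Polynomial.coeff_eq_zero_of_natDegree_lt h
    · rw [h]; simp
  have cS : S.coeff (2*n) = 1 := by
    rw [hS, ← hn, Polynomial.coeff_mul_add_eq_of_natDegree_le dSa dSb, Ps_coeff_top, Ps_coeff_top]
    norm_num
  -- the three classes
  set K : LP := (T 3 + T (-3) - 2)^k with hK
  set r : ℂ := ((H337CB.R (N + 2*n) (2/3) (Q2 * HP N) : ℚ) : ℂ) with hr
  set kp' : ℂ := ((kap N - kap (N-1) : ℚ) : ℂ) with hkp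
  set G : LP := K * (T 3 - 1) * (T (-(3*(n:ℤ))) * T (-2) * polyL (Q2 - (S + E)) +
    T (-(3*(n:ℤ))) * T (-1) * polyL (S - Q2) + T (-(3*(n:ℤ))) * T 0 * polyL Q2) with hG
  have hRG : RE N j G = kp' + r := by
    have e1 : G = K * (T 3 - 1) * (T (-(3*(n:ℤ))) * T (-2) * polyL (Q2 - (S + E))) +
        K * (T 3 - 1) * (T (-(3*(n:ℤ))) * T (-1) * polyL (S - Q2)) +
        K * (T 3 - 1) * (T (-(3*(n:ℤ))) * T 0 * polyL Q2) := by
      rw [hG]; ring
    have t0 : H337CB.R (N + 2*n) 0 ((Q2 - (S + E)) * HP N) = 0 := by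
      have d0 : (Q2 - (S + E)).natDegree ≤ 2*n := (Polynomial.natDegree_sub_le _ _).trans
        (max_le dQ' ((Polynomial.natDegree_add_le _ _).trans (max_le dS dE)))
      have h := R_deg (N + 2*n) 0 (2*n + (N-1)) ((Q2 - (S + E)) * HP N)
        (Polynomial.natDegree_mul_le.trans (add_le_add d0 (natDegree_HP N (by omega)))) (by omega)
      rwa [Nat.cast_zero] at h
    have t1 : H337CB.R (N + 2*n) (1/3) ((S - Q2) * HP N) = kap N - kap (N-1) := by
      have d1 : (S - Q2).natDegree ≤ 2*n := (Polynomial.natDegree_sub_le _ _).trans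
        (max_le dS dQ')
      have hsw := RH_swap (N + 2*n - 1) N (by omega) (by omega) 0 (S - Q2)
      rw [show N + 2*n - 1 + 1 = N + 2*n by omega, zero_add] at hsw
      have h := R_top (N + 2*n) 0 (2*n + N) ((S - Q2) * HQ N)
        (Polynomial.natDegree_mul_le.trans (add_le_add d1 (natDegree_HQ N (by omega)))) (by omega)
      rw [Nat.cast_zero] at h
      rw [hsw, h, Polynomial.coeff_mul_add_eq_of_natDegree_le d1 (natDegree_HQ N (by omega)),
        Polynomial.coeff_sub, cS, cQ, HQ_top N (by omega)]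
      ring
    rw [e1, RE_add, RE_add, hK, RE_K k n N j hj hN (-2) 0 (by norm_num),
      RE_K k n N j hj hN (-1) (1/3) (by norm_num), RE_K k n N j hj hN 0 (2/3) (by norm_num),
      t0, t1, ← hr]
    rw [hkp]
    push_cast
    ring
  -- the product
  set Y0 : LP := K * T (-(3*(n:ℤ)+1)) * ((polyL (H337CB.P a) - T 1 * polyL (H337CB.Ps a)) *
        (polyL (H337CB.P b) - T 1 * polyL (H337CB.Ps b))) with hY0
  have hT3 : (T 3 + 1 : LP) = (T 2 - T 1 + 1) * (T 1 + 1) := by
    have e1 : (T 2 : LP) * T 1 = T 3 := (LaurentPolynomial.T_add _ _).symm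
    have e2 : (T 1 : LP) * T 1 = T 2 := (LaurentPolynomial.T_add _ _).symm
    linear_combination e2 - e1
  have hne : (T 3 + 1 : LP) ≠ 0 := by
    intro h0
    have h1 := congrArg e1 h0
    rw [map_add, e1_T, map_one, map_zero] at h1
    norm_num at h1
  have hGY : dl * G = (oL - 2) * (oL + 1) * Y0 := by
    apply mul_left_cancel₀ hne
    have q0 := congrArg polyL hQ2'
    have qA := congrArg polyL hA
    have qS := congrArg polyL hS
    have qE := congrArg polyL hE
    simp only [map_mul, map_add, map_one, polyL_X] at q0 qA qS qE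
    rw [qA, qS, qE] at q0
    have f1 : (T 2 : LP) = T 1 * T 1 := by rw [← LaurentPolynomial.T_add]; rfl
    have f2 : (T 3 : LP) = T 1 * T 1 * T 1 := by
      rw [← LaurentPolynomial.T_add, ← LaurentPolynomial.T_add]; rfl
    have f3 : (T (-2) : LP) = T (-1) * T (-1) := by rw [← LaurentPolynomial.T_add]; rfl
    have f0 : (T 1 : LP) * T (-1) = 1 := T_mul_neg 1
    have f4 : (T (-(3*(n:ℤ)+1)) : LP) = T (-(3*(n:ℤ))) * T (-1) := by
      rw [← LaurentPolynomial.T_add]; congr 1; ring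
    rw [hG, hY0, f4, map_sub polyL, map_sub polyL, map_add polyL, qS, qE, f3,
      LaurentPolynomial.T_zero]
    unfold dl oL
    generalize (T (-(3*(n:ℤ))) : LP) = V
    rw [f2] at q0 ⊢
    clear_value K
    generalize (T 1 : LP) = t at *
    generalize (T (-1) : LP) = s at *
    generalize polyL (H337CB.P a) = P at *
    generalize polyL (H337CB.Ps a) = Q at *
    generalize polyL (H337CB.P b) = P' at *
    generalize polyL (H337CB.Ps b) = Q' at *
    generalize polyL Q2 = W at *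
    linear_combination (K * V * (t - s) * (t^3 - 1) * (s^2 - s + 1)) * q0 + (K * V * (
      -t^6*s*P*Q' -t^6*s*Q*P' -t^6*s*Q*Q' +t^5*s^2*P*Q' +t^5*s^2*Q*P' +t^5*s^2*Q*Q'
      -3*t^5*s*Q*Q' -t^4*s^2*Q*Q' +3*t^4*s*P*Q' +3*t^4*s*Q*P' +2*t^4*s*Q*Q' -t^4*P*P'
      -t^4*P*Q' -t^4*Q*P' -t^4*Q*Q' +t^3*s^2*P*Q' +t^3*s^2*Q*P' -t^3*s*P*P' -2*t^2*s^2*P*P'
      -t^2*s^2*P*Q' -t^2*s^2*Q*P' -t^2*s^2*Q*Q' +2*t^2*s*P*P' +2*t^2*s*P*Q' +2*t^2*s*Q*P'
      -t^2*s*Q*Q' -t*s^2*Q*Q' -2*t*s*P*P' +t*s*P*Q' +t*s*Q*P' +t*P*P' +t*P*Q' +t*Q*P' +t*Q*Q'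
      +s^2*P*Q' +s^2*Q*P' -3*s*P*P' -s*P*Q' -s*Q*P' -s*Q*Q')) * f0
  set DN : LP := dl * (oL - 2)^(N-1) with hDN
  set Da : LP := dl * (oL - 2)^(a+b) with hDa
  have iK : invert K = K := Pool.Agent.NH38.Fork.H5.invert_K k
  have iDN : invert DN = -DN := Pool.Agent.NH38.Fork.H5.invert_D (N-1)
  have iDa : invert Da = -Da := Pool.Agent.NH38.Fork.H5.invert_D (a+b)
  have H5' : K * ((g - invert g) * Da) = -(C (q - q^2) * C (z * m)) * Y0 := by
    rw [H5, hY0]
    have e3 : (C ((q^2 - q) * (z * m)) : LP) = -(C (q - q^2) * C (z * m)) := by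
      rw [← map_mul, ← map_neg]; congr 1; ring
    rw [e3]
    ring
  clear_value DN Da K r Y0 G
  -- the total mass
  have M1 : c0 * e1 tN = zM * kp' := by
    have h1 := congrArg (RE N j) H2
    rw [hc, RE_add, RE_C, RE_bs_top N j hN (by omega), RE_VV N j hN hFt] at h1
    rw [h1, add_zero]
  -- inversion of the formula
  have H1' : -(C z * (invert h * DN)) + C zM * ((oB + 1) * (K * (invert g * Da))) =
      -(oB * v1) - v0 := by
    have h1 := congrArg (fun x : LP => invert x) H1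
    have i1 : invert (C z * (h * DN)) = -(C z * (invert h * DN)) := by
      rw [map_mul, map_mul, LaurentPolynomial.invert_C, iDN]; ring
    have i2 : invert (C zM * ((oA + 1) * (K * (g * Da)))) =
        -(C zM * ((oB + 1) * (K * (invert g * Da)))) := by
      rw [map_mul, map_mul, map_mul, map_mul, map_add, map_one, invert_oA,
        LaurentPolynomial.invert_C, iDa, iK]; ring
    have i3 : invert (oA * v1 + v0) = -(oB * v1) - v0 := by
      rw [map_add, map_mul, invert_oA, invert_VV hv1, invert_VV hv0]; ring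
    have h2 : invert (C z * (h * DN) - C zM * ((oA + 1) * (K * (g * Da)))) =
        invert (oA * v1 + v0) := h1
    rw [map_sub, i1, i2, i3] at h2
    linear_combination h2
  set h' : LP := invert h with hh'
  set g' : LP := invert g with hg'
  set V : LP := C zM * (K * ((g + g') * Da)) + 2 * v1 with hV
  have p1 := oA_oB
  have p2 := oA_sub_oB
  have id1 : C (q - q^2) * dl * V = 2 * (C z * ((h - h') * DN)) +
      (oL - 2) * (C zM * (K * ((g - g') * Da))) := by
    rw [hV]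
    linear_combination (-2) * (H1 + H1') + (-2 * v1 - C zM * K * Da * (g + g')) * p2 +
      C zM * K * Da * (g' - g) * p1
  have id2 : 2 * (C z * (h * DN) + C z * (h' * DN)) = -((oL - 2) * V) +
      C (q - q^2) * dl * (C zM * (K * ((g - g') * Da))) + 4 * (v0 - v1) := by
    rw [hV]
    linear_combination 2 * (H1 - H1') + (2 * v1 + C zM * K * Da * (g + g')) * p1 +
      C zM * K * Da * (g - g') * p2
  have k2 : (C (q - q^2) : LP) * C (q - q^2) = -3 := by
    rw [← map_mul, show (-3 : LP) = C (-3) by rw [map_neg]; congr 1]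
    congr 1
    linear_combination (q^2 - 3 * q + 3) * q_spec
  have d2 : dl * dl = oL * oL - 4 := by
    unfold dl oL
    have f0 : (T 1 : LP) * T (-1) = 1 := T_mul_neg 1
    linear_combination (-4) * f0
  have ec : (C (zM * (z * m)) : LP) = C zM * C (z * m) := map_mul C _ _
  set W : LP := (oL - 2) * V - C (zM * (z * m)) * (3 * dl * Y0 - 4 * G) with hW
  have idW : C (q - q^2) * dl * W = C z * (2 * (oL - 2) * (h - h')) * DN := by
    rw [hW, ec]
    linear_combination (oL - 2) * id1 + (oL - 2)^2 * C zM * H5' -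
      3 * C (q - q^2) * C zM * C (z * m) * Y0 * d2 + 4 * C (q - q^2) * C zM * C (z * m) * hGY
  have id3 : 2 * (C z * (h * DN) + C z * (h' * DN)) = (C 4 * (C (zM * (z * m)) * G) - W) +
      C 4 * (v0 - v1) := by
    rw [id2, hW, ec, show (C (4:ℂ) : LP) = 4 from map_ofNat C 4]
    linear_combination (C (q - q^2) * dl * C zM) * H5' - dl * C zM * C (z * m) * Y0 * k2
  have hord : PowerSeries.X^(2*N) ∣ rho W := by
    obtain ⟨u, hu, hu1⟩ := rho_T1
    have h2 : rho (C (q - q^2) * dl * W) = PowerSeries.X^(2*N+1) *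
        (rho (C z * (2 * (h - h')) * T (-1)) * rho (T (-(((N-1 : ℕ):ℤ)+1)) * (T 1 + 1)) *
          u^(2*N+1)) := by
      have h3 : oL - 2 = T (-1) * (T 1 - 1)^2 := by
        unfold oL
        have f0 : (T 1 : LP) * T (-1) = 1 := T_mul_neg 1
        linear_combination (2 - (T 1 : LP)) * f0
      have h4 : C z * (2 * (oL - 2) * (h - h')) * DN = (C z * (2 * (h - h')) * T (-1)) *
          (T (-(((N-1 : ℕ):ℤ)+1)) * (T 1 + 1)) * (T 1 - 1)^(2*N+1) := by
        rw [hDN, fac_dl, h3, show 2*N+1 = 2 + (2*(N-1)+1) by omega, pow_add]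
        ring
      rw [idW, h4, map_mul, map_mul rho (C z * (2 * (h - h')) * T (-1)), map_pow, hu, mul_pow]
      ring
    have h5 : rho (C (q - q^2) * dl * W) = PowerSeries.X *
        ((PowerSeries.C (q - q^2) * rho (T (-1) * (T 1 + 1)) * u) * rho W) := by
      have h3 : dl = T (-1) * (T 1 + 1) * (T 1 - 1) := by
        have := fac_dl 0
        simpa using this
      rw [h3, map_mul, map_mul, map_mul rho (T (-1) * (T 1 + 1)), hu, rho_C]
      ring
    have h6 : IsUnit (PowerSeries.C (q - q^2) * rho (T (-1) * (T 1 + 1)) * u) := by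
      rw [PowerSeries.isUnit_iff_constantCoeff]
      rw [map_mul, map_mul, hu1]
      have h7 : PowerSeries.constantCoeff (rho (T (-1) * (T 1 + 1))) = 2 := by
        have : e1 (T (-1) * (T 1 + 1)) = 2 := by
          rw [map_mul, map_add, e1_T, e1_T, map_one]; norm_num
        exact this
      rw [h7, isUnit_iff_ne_zero]
      simp only [PowerSeries.constantCoeff_C]
      exact mul_ne_zero (mul_ne_zero q_sub_ne two_ne_zero) (by norm_num)
    have h8 : PowerSeries.X * PowerSeries.X^(2*N) ∣ PowerSeries.X *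
        ((PowerSeries.C (q - q^2) * rho (T (-1) * (T 1 + 1)) * u) * rho W) := by
      rw [← h5, h2, ← pow_succ']
      exact Dvd.intro _ rfl
    have h9 := (mul_dvd_mul_iff_left PowerSeries.X_ne_zero).mp h8
    exact (h6.dvd_mul_left).mp h9
  have R1 := congrArg (RE N j) id3
  have e2 : (2 : LP) = C 2 := (map_ofNat C 2).symm
  rw [e2, RE_C, RE_add, RE_C, RE_C, hc, hc, RE_add, RE_sub, RE_C, RE_C, hRG,
    RE_high N j (by omega) hord, RE_C, RE_sub, RE_VV N j hN hv0, RE_VV N j hN hv1, hh',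
    e1_invert] at R1
  have hfin : (4 * (z * c0)) * (kp' * e1 h) = (4 * (z * c0)) * ((kp' + r) * (e1 tN * m)) := by
    linear_combination kp' * R1 - (4 * z * (kp' + r) * m) * M1
  exact mul_left_cancel₀ (mul_ne_zero (by norm_num : (4:ℂ) ≠ 0) (mul_ne_zero hz hc0)) hfin

/-! ### the polynomial `Q2` -/

/-- `(P_a + P*_a)(P_b + P*_b) / (1 + X)` -/
noncomputable def QQ (a b : ℕ) : Polynomial ℚ :=
  (1 + Polynomial.X) * ∑ j ∈ Finset.range ((a+b)/2), Polynomial.C ((sv a * sv b).coeff j) *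
    (4 * Polynomial.X)^j * (1 - Polynomial.X)^(a+b-2-2*j)

theorem QQ_spec (a b : ℕ) (ha : Odd a) (hb : Odd b) : (Polynomial.X + 1) * QQ a b =
    (H337CB.P a + H337CB.Ps a) * (H337CB.P b + H337CB.Ps b) := by
  refine Pool.Agent.NH38.Fork.HV6.poly_eq fun x hx => ?_
  have hx' : (1 - x) ≠ 0 := sub_ne_zero.mpr (Ne.symm hx)
  have hne : ¬ Even a := Nat.not_even_iff_odd.mpr ha
  have hne' : ¬ Even b := Nat.not_even_iff_odd.mpr hb
  obtain ⟨r, hr⟩ := ha
  obtain ⟨s, hs⟩ := hb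
  unfold QQ
  rw [Polynomial.eval_mul, Polynomial.eval_mul (p := H337CB.P a + H337CB.Ps a),
    Polynomial.eval_add (p := H337CB.P a), Polynomial.eval_add (p := H337CB.P b),
    Pool.Agent.NH38.Fork.HV6.sv_eval x hx, Pool.Agent.NH38.Fork.HV6.sv_eval x hx,
    if_neg hne, if_neg hne']
  have hdeg : (sv a * sv b).natDegree < (a+b)/2 := by
    refine lt_of_le_of_lt Polynomial.natDegree_mul_le ?_
    have h1 := Pool.Agent.NH38.Fork.HV6.pv_natDegree 2 3 a
    have h2 := Pool.Agent.NH38.Fork.HV6.pv_natDegree 2 3 b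
    unfold sv
    omega
  have hev := Polynomial.eval_eq_sum_range' hdeg (4 * x / (1 - x)^2)
  rw [Polynomial.eval_mul] at hev
  have e1 : (1 - x)^a * ((1 + x) / (1 - x)) * Polynomial.eval (4 * x / (1 - x)^2) (sv a) *
      ((1 - x)^b * ((1 + x) / (1 - x)) * Polynomial.eval (4 * x / (1 - x)^2) (sv b)) =
      (1 + x)^2 * ((1 - x)^(a+b-2) * (Polynomial.eval (4 * x / (1 - x)^2) (sv a) *
        Polynomial.eval (4 * x / (1 - x)^2) (sv b))) := by
    have e2 : (1 - x)^a * (1 - x)^b = (1 - x)^(a+b-2) * (1 - x)^2 := by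
      rw [← pow_add, ← pow_add]; congr 1; omega
    have e3 : (1 - x)^a * ((1 + x) / (1 - x)) * Polynomial.eval (4 * x / (1 - x)^2) (sv a) *
      ((1 - x)^b * ((1 + x) / (1 - x)) * Polynomial.eval (4 * x / (1 - x)^2) (sv b)) =
      ((1 - x)^a * (1 - x)^b) * ((1 + x)^2 / (1 - x)^2) *
        (Polynomial.eval (4 * x / (1 - x)^2) (sv a) *
          Polynomial.eval (4 * x / (1 - x)^2) (sv b)) := by
      field_simp
    rw [e3, e2]
    field_simp
  rw [e1, hev]
  simp only [Polynomial.eval_mul, Polynomial.eval_pow, Polynomial.eval_add, Polynomial.eval_one,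
    Polynomial.eval_X, Polynomial.eval_finsetSum, Polynomial.eval_C, Polynomial.eval_sub,
    Polynomial.eval_ofNat]
  rw [Finset.mul_sum, Finset.mul_sum, Finset.mul_sum, Finset.mul_sum]
  refine Finset.sum_congr rfl fun j hj => ?_
  have hj' : j < (a+b)/2 := Finset.mem_range.mp hj
  have e2 : (1 - x)^(a+b-2) = (1 - x)^(a+b-2-2*j) * ((1 - x)^2)^j := by
    rw [← pow_mul, ← pow_add]; congr 1; omega
  rw [e2, div_pow]
  field_simp
  ring

theorem res (a b n N : ℕ) (hn : a + b = 2 * n) :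
    H337CB.R (N + 2*n) (2/3) (QQ a b * HP N) =
      - ∑ j ∈ Finset.range ((a+b)/2), (sv a * sv b).coeff j * 4^j *
        H337CB.R (N + 2 + 2*j) ((j:ℚ) + 2/3)
          ((1 + Polynomial.X) * ((Polynomial.X - 1) * H337CB.Ps (N-1) - H337CB.Ps N)) := by
  have h2 : QQ a b * HP N = ∑ j ∈ Finset.range ((a+b)/2),
      Polynomial.C (-((sv a * sv b).coeff j * 4^j)) * (Polynomial.X^j *
        ((1 - Polynomial.X)^(a+b-2-2*j) * ((1 + Polynomial.X) *
          ((Polynomial.X - 1) * H337CB.Ps (N-1) - H337CB.Ps N)))) := by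
    unfold QQ HP
    rw [Finset.mul_sum, Finset.sum_mul]
    refine Finset.sum_congr rfl fun j _ => ?_
    rw [Polynomial.C_neg, Polynomial.C_mul, Polynomial.C_pow, mul_pow,
      show (Polynomial.C (4:ℚ) : Polynomial ℚ) = 4 from rfl]
    ring
  rw [h2, Pool.Agent.NH38.Fork.H7.R_sum, ← Finset.sum_neg_distrib]
  refine Finset.sum_congr rfl fun j hj => ?_
  have hj' : j < (a+b)/2 := Finset.mem_range.mp hj
  rw [H337CB.R_C, ← R_shiftX, show (2/3 : ℚ) + j = (j:ℚ) + 2/3 by ring,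
    show N + 2*n = (N + 2 + 2*j) + (a+b-2-2*j) by omega, Pool.Agent.NH38.Fork.H7.R_shiftY,
    Even.neg_one_pow]
  · ring
  · exact ⟨n - 1 - j, by omega⟩

end Pool.Agent.H966.T1.H23

namespace Pool.Agent.H966.T1

open Pool.Agent.NH38.Step.Hom
open Pool.Agent.H988R2.Perc (q q_spec q_cube q_ne_zero q_ne_one q_sq_ne_one mu Z Z_pd Z_perm)
open Pool.Agent.NH38.Step (om prs zs on on_odd)
open Pool.Agent.NH38.Fork (zo mm cst gh NZ Lau kap sv S_wid S_OMg)
open LaurentPolynomial (C invert)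
open Pool.Agent

/-- TASK H2 -/
theorem t1_H2 : S1_H2 := by
  intro m hm
  obtain ⟨r, rfl⟩ := hm
  have hlen : (on (2*r+1)).length = 2*r+1 := on_len _
  have h0 : ∀ c ∈ on (2*r+1), c ≠ 0 := on_ne _
  obtain ⟨P, hPd, hP'⟩ := (Z_pd (2*r+2) ⟨r+1, by ring⟩).univ [] (on (2*r+1))
    (by simp [on_len])
  have hP : ∀ w, Z (w :: on (2*r+1)) = P.eval w := fun w => hP' w
  have h1 := FS_mem (on (2*r+1)) r hlen h0 P (by omega) hP
  refine ⟨_, h1, ?_⟩
  intro w hw
  have hw0 : w ≠ 0 := DD_ne hw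
  have hzo : zo (on (2*r+1)) = P.eval 0 * ((on (2*r+1)).prod^r * q^((r+1)*r))⁻¹ := by
    unfold zo
    rw [← hP, on_prod, on_len, show (2*r+1-1)/2 = r by omega, show (2*r+1+1)/2 = r+1 by omega,
      div_eq_mul_inv]
    congr 1
    apply Z_perm (by simp [on_len]; exact ⟨r+1, by ring⟩)
    exact List.perm_append_comm
  rw [hzo, add_sub_cancel, map_mul, eL_phiL, eL_zsL _ r hlen P hP]
  ring

/-- TASK H3 -/
theorem t1_H3 (hH1 : S1_H1) (hH2 : S1_H2) (hOM : S_OMg) (hwid1 : S1_wid) (hmir : S1_mir)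
    (hwid : S_wid) : S1_H3 := by
  intro a b k ha hb
  have ha' : Odd (on a).length := on_odd ha
  have hb' : Odd (on b).length := on_odd hb
  have nza : NZ (on a) := on_ne a
  have nzb : NZ (on b) := on_ne b
  have nzk : NZ (on k) := on_ne k
  have nz0 : NZ ([] : List ℂ) := fun z hz => by simp at hz
  set n : ℕ := (a+b)/2 with hndef
  have hn : a + b = 2 * n := by
    obtain ⟨r, hr⟩ := ha
    obtain ⟨s, hs⟩ := hb
    omega
  set M : ℕ := a + b + 1 + 2*k with hM
  have hMo : Odd M := ⟨n + k, by omega⟩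
  have hMN : a+b+2+2*k - 1 = M := by omega
  -- Laurent polynomials
  obtain ⟨L, hL⟩ := Pool.Agent.NH38.Fork.H5.lau_L
    (hwid1 (on b) (on k) (on a) 1 hb' ha' nzb nzk nza one_ne_zero)
  have hLi : ∀ w (hw : w ≠ 0), eL w hw (invert L) = eh (on a) (on k) (on b) w 1 := by
    intro w hw
    rw [eL_invert, hL, hmir (on a) (on k) (on b) w 1 ha' hb' nza nzk nzb hw one_ne_zero, inv_one]
  obtain ⟨g, hg⟩ := Pool.Agent.NH38.Fork.H5.lau_L (hwid (on a) [] (on b) ha' hb' nza nz0 nzb)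
  have hlist : ∀ w : ℂ, zs (w :: 1 :: (on a ++ (on b ++ on (2*k)))) = zs (w :: on M) := by
    intro w
    congr 2
    unfold on
    rw [List.replicate_append_replicate, List.replicate_append_replicate, ← List.replicate_succ]
    congr 1
    omega
  obtain ⟨r, hr⟩ := hMo
  have hlenM : (on M).length = 2*r+1 := by rw [on_len]; exact hr
  obtain ⟨P, hPd, hP'⟩ := (Z_pd (2*r+2) ⟨r+1, by ring⟩).univ [] (on M)
    (by rw [hlenM]; simp)
  have hP : ∀ w, Z (w :: on M) = P.eval w := fun w => hP' w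
  set tN : LP := zsL r (on M) P with htN
  have htN' : ∀ w (hw : w ≠ 0), eL w hw tN = zs (w :: on M) := fun w hw =>
    eL_zsL (on M) r hlenM P hP w hw
  set h : LP := C (mm (on a) (on b)) * tN - invert L with hh
  have hhe : ∀ w (hw : w ≠ 0), eL w hw h = h1 a b k w := by
    intro w hw
    rw [hh, map_sub, map_mul, eL_C, htN', hLi]
    unfold h1
    rw [hlist]
  obtain ⟨F, hF, hFe⟩ := hH1 a b k ha hb
  unfold W0 at hF
  rw [Submodule.mem_sup] at hF
  obtain ⟨y, hy, v0, hv0, hyz⟩ := hF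
  obtain ⟨v1, hv1, hv1e⟩ := hy
  have hv1e' : oA * v1 = y := hv1e
  obtain ⟨Ft, hFt, hFte⟩ := hH2 M ⟨r, hr⟩
  obtain ⟨d0, hd0, hd00, hd⟩ := hOM a b ha hb
  have hz : zs (on (a+b)) ≠ 0 := by
    rw [hn]
    exact Pool.Agent.NH38.Fork.H5.zs_on_ne _
  have key := H23.core a b k n (a+b+2+2*k) (n+k+1) hn rfl (by omega) h g tN v1 v0 Ft
    (zs (on (a+b))) (zo (on M)) (mm (on a) (on b)) hz
    (by
      apply LP_ext DD DD_inf
      intro w hw0 hw
      have h1 := hFe w hw
      rw [← hyz, ← hv1e'] at h1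
      rw [← h1, hMN]
      simp only [map_sub, map_mul, map_add, map_one, Pool.Agent.NH38.Fork.H5.eL_phiO',
        Pool.Agent.NH38.Fork.H5.eL_K, eL_C, hhe, hg, eL_oA]
      have hqq : om (q * w) + 1 = q * ((w - q) * (1 - w⁻¹)) := by
        unfold om
        rw [mul_inv, q_inv']
        field_simp
        linear_combination w * q_spec
      rw [hqq]
      ring)
    (by rw [hMN]; exact hv1) (by rw [hMN]; exact hv0)
    (by
      apply LP_ext DD DD_inf
      intro w hw0 hw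
      rw [hMN, ← hFte w hw]
      simp only [map_mul, Pool.Agent.NH38.Fork.H5.eL_phiO', htN'])
    (by rw [hMN]; exact hFt)
    (by
      apply LP_ext DD DD_inf
      intro w hw0 hw
      rw [map_mul, map_sub, eL_invert, hg, hg, Pool.Agent.NH38.Fork.H5.eL_phiO, (hd w hw0).1,
        ← hndef]
      simp only [map_mul, map_sub, eL_C, eL_T, Pool.Agent.NH38.Fork.H5.eL_polyL, zpow_one])
    (H23.QQ a b) (H23.QQ_spec a b ha hb)
  rw [H23.res a b n _ hn, Pool.Agent.NH38.Fork.H5.e1_eL, Pool.Agent.NH38.Fork.H5.e1_eL, hhe,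
    htN'] at key
  have hNl : (1 : ℂ) :: on M = on (a+b+2+2*k) := by
    unfold on
    rw [← List.replicate_succ]
    congr 1
    omega
  unfold h1 at key
  rw [hlist, hNl] at key
  have hkap : ((kap (a+b+2+2*k) - kap (a+b+2+2*k-1) : ℚ) : ℂ) ≠ 0 := by
    have h1 := H23.kap_succ (a+b+2+2*k-1)
    rw [show a+b+2+2*k-1+1 = a+b+2+2*k by omega] at h1
    have h2 := H23.kap_pos (a+b+2+2*k-1)
    have h3 : kap (a+b+2+2*k) - kap (a+b+2+2*k-1) ≠ 0 := by
      intro h4
      have h5 : kap (a+b+2+2*k) = kap (a+b+2+2*k-1) := by linear_combination h4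
      rw [h5] at h1
      have h6 : kap (a+b+2+2*k-1) = 0 := by linear_combination (-1/2) * h1
      exact h2.ne' h6
    exact_mod_cast h3
  unfold FR
  rw [Rat.cast_div, div_mul_eq_mul_div, eq_div_iff hkap]
  rw [Rat.cast_neg] at key
  linear_combination -key

end Pool.Agent.H966.T1
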