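import Pool.Agent.H966.T1.Stubs
import Pool.Graph.R_pool_sql_team_seeded_3dad9d7b.NH38.Fork.M4

/-!
Forked channels of even width, both inner walls (helper966), task J (helper412): the two forms of
the formula.
-/

set_option autoImplicit false

namespace Pool.Agent.H966.T1

open Pool.Agent.H988R2.Perc hiding X
open Pool.Agent.NH38.Step (om prs EE zs prF Gen prF_length q4)
open Pool.Agent.NH38.Fork (zo mm gh Dh tt gF NZ cc gm S_DET)

namespace J

theorem tt_nil (A B : List ℂ) (z : ℂ) : tt A [] B z = zo (z :: (A ++ B)) := by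
  simp [tt, prs]

theorem gF_empty {ι : Type} (x : ι → ℂ) (A B : List ℂ) (w : ℂ) :
    gF x ∅ A B w = gh A [] B w := by
  simp [gF]

/-- the base case `s = ∅` -/
theorem hF_empty {ι : Type} (x : ι → ℂ) (hb : S1_base) (A B : List ℂ) (hA : Odd A.length)
    (hB : Odd B.length) (hAn : NZ A) (hBn : NZ B) (w v : ℂ) (hw : w ≠ 0) (hv : v ≠ 0) :
    hF x ∅ A B w v = -(q * Dh A w v B) := by
  have h := hb A B w v hA hB hAn hBn hw hv
  have e : B ++ prF x ∅ = B := by simp [prF, prs]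
  unfold hF
  rw [e]
  have e2 : (∅ : Finset ι).toList.map x = [] := by simp
  rw [e2, h]
  ring

/-- the determinant formula for the complementary event, times `om w - om v` -/
theorem hF_det {ι : Type} (x : ι → ℂ) (hb : S1_base) (hDET : S_DET) (A B : List ℂ)
    (hA : Odd A.length) (hB : Odd B.length) (hAn : NZ A) (hBn : NZ B) (w v : ℂ) (hw : w ≠ 0)
    (hv : v ≠ 0) :
    (om w - om v) * zs (A ++ B) * hF x ∅ A B w v =
      -(q * ((w - q*v) * (1 - (w*v)⁻¹)) * (gh A [] B v * zo (w :: (A ++ B)) -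
        gh A [] B w * zo (v :: (A ++ B)))) := by
  have h := hDET A B w v hA hB hAn hBn hw hv
  rw [tt_nil, tt_nil] at h
  rw [hF_empty x hb A B hA hB hAn hBn w v hw hv]
  have e1 : om w - om v = (w - v) * (1 - (w * v)⁻¹) := by
    unfold om
    field_simp
    ring
  rw [e1]
  linear_combination (-(q * (1 - (w*v)⁻¹))) * h

theorem Kk_sub (w v z : ℂ) (hw : w ≠ 0) (hv : v ≠ 0) (hz : z ≠ 0) :
    Kk w v z - Kk w v z⁻¹ = (1 - q) * ((w - q*v) * (1 - (w*v)⁻¹)) * (z - z⁻¹) := by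
  unfold Kk
  field_simp
  ring

/-- the coefficient of a pair -/
theorem key {ι : Type} (x : ι → ℂ) (hb : S1_base) (hDET : S_DET) (A B : List ℂ)
    (hA : Odd A.length) (hB : Odd B.length) (hAn : NZ A) (hBn : NZ B) (w v y : ℂ) (hw : w ≠ 0)
    (hv : v ≠ 0) (hy : y ≠ 0) (hy2 : y - y⁻¹ ≠ 0) :
    (om v - om y) * zs (A ++ B) * cc (fun z => hF x ∅ A B z v) w y =
      -(q * zo (v :: (A ++ B)) * cc1 (gF x ∅ A B) w v y) +
        q * gh A [] B v * zo (y :: (A ++ B)) * ((w - q*v) * (1 - (w*v)⁻¹)) := by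
  have h1 := hF_det x hb hDET A B hA hB hAn hBn y v hy hv
  have h2 := hF_det x hb hDET A B hA hB hAn hBn y⁻¹ v (inv_ne_zero hy) hv
  rw [Pool.Agent.NH38.Step.om_inv, ← Pool.Agent.NH38.Fork.M4.zo_inv y (A ++ B) hy
    (by rw [List.length_append]; exact hA.add_odd hB)] at h2
  have hk := Kk_sub w v y hw hv hy
  have hK1 : Kk w v y = (w - q*y) * (1 - (w*y)⁻¹) * ((y - q*v) * (1 - (y*v)⁻¹)) := rfl
  have hK2 : Kk w v y⁻¹ = (w - q*y⁻¹) * (1 - w⁻¹*y) * ((y⁻¹ - q*v) * (1 - (y⁻¹*v)⁻¹)) := by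
    unfold Kk
    rw [mul_inv w y⁻¹, inv_inv]
  have hq := q_spec
  have h3 := q_cube
  have hc : (1 - q^2) / 3 * (1 - q) = 1 := by
    linear_combination (-1/3 : ℂ) * hq + (1/3 : ℂ) * h3
  have hyy : (y - y⁻¹) * (y - y⁻¹)⁻¹ = 1 := mul_inv_cancel₀ hy2
  unfold cc cc1
  rw [gF_empty, gF_empty]
  simp only [div_eq_mul_inv] at hc ⊢
  set g1 := gh A [] B y
  set g2 := gh A [] B y⁻¹
  set gv := gh A [] B v
  set tv := zo (v :: (A ++ B))
  set ty := zo (y :: (A ++ B))
  set I := (y - y⁻¹)⁻¹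
  rw [hK1, hK2] at hk ⊢
  linear_combination (-((1 - q^2) * 3⁻¹ * I * ((w - q*y) * (1 - (w*y)⁻¹)))) * h1 +
    ((1 - q^2) * 3⁻¹ * I * ((w - q*y⁻¹) * (1 - w⁻¹*y))) * h2 +
    (q * ((1 - q^2) * 3⁻¹) * I * gv * ty) * hk +
    (q * gv * ty * ((w - q*v) * (1 - (w*v)⁻¹))) * ((1 - q^2) * 3⁻¹ * (1 - q)) * hyy +
    (q * gv * ty * ((w - q*v) * (1 - (w*v)⁻¹))) * hc

end J

open J

open Classical in
theorem t1_J : S1_base → S1_MI → S_DET → S1_J := by
  intro hb hMI hDET ι x hx s A B w v hA hB hAn hBn hw hv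
  have hAB : Even (A ++ B).length := by rw [List.length_append]; exact hA.add_odd hB
  have hn : NZ (A ++ B) := by
    intro z hz
    rcases List.mem_append.mp hz with h | h
    · exact hAn z h
    · exact hBn z h
  have hmi := hMI x hx s (A ++ B) w v hAB hn hw hv
  have hD0 := hF_det x hb hDET A B hA hB hAn hBn w v hw hv
  have hperm : ∀ i, zo (w :: x i :: v :: (A ++ (B ++ prF x (s.erase i)))) =
      zo (w :: v :: x i :: (A ++ (B ++ prF x (s.erase i)))) := by
    intro i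
    refine Pool.Agent.NH38.Fork.M4.zo_perm ?_ ((List.Perm.swap _ _ _).cons _)
    obtain ⟨m, hm⟩ := hAB
    rw [List.length_append] at hm
    simp only [List.length_cons, List.length_append, prF_length]
    exact ⟨m + (s.erase i).card + 1, by omega⟩
  have hsum : (om w - om v) * (∏ j ∈ s, (om v - om (x j))) * zs (A ++ B) *
      (∑ i ∈ s, gm x s i * (∏ j ∈ s.erase i, (om w - om (x j))) *
        cc (fun z => hF x ∅ A B z v) w (x i) *
        zo (w :: x i :: v :: (A ++ (B ++ prF x (s.erase i))))) =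
      -(q * zo (v :: (A ++ B)) * ((om w - om v) * ∑ i ∈ s, gm x s i *
        (∏ j ∈ s.erase i, (om w - om (x j)) * (om v - om (x j))) * cc1 (gF x ∅ A B) w v (x i) *
        zo (w :: v :: x i :: (A ++ (B ++ prF x (s.erase i)))))) +
      q * gh A [] B v * ((w - q*v) * (1 - (w*v)⁻¹)) * ((om w - om v) * ∑ i ∈ s, gm x s i *
        (∏ j ∈ s.erase i, (om w - om (x j)) * (om v - om (x j))) * zo (x i :: (A ++ B)) *
        zo (w :: v :: x i :: ((A ++ B) ++ prF x (s.erase i)))) := by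
    simp only [Finset.mul_sum]
    rw [← Finset.sum_neg_distrib, ← Finset.sum_add_distrib]
    refine Finset.sum_congr rfl ?_
    intro i hi
    have hp : (∏ j ∈ s, (om v - om (x j))) =
        (om v - om (x i)) * ∏ j ∈ s.erase i, (om v - om (x j)) :=
      (Finset.mul_prod_erase s _ hi).symm
    have h6 : (x i)^6 ≠ 1 := (hx.1 i).2
    have hx0 : x i ≠ 0 := (hx.1 i).1
    have hy2 : x i - (x i)⁻¹ ≠ 0 := by
      intro h
      apply h6
      have h1 : x i * x i = 1 := by
        have h2 := sub_eq_zero.mp h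
        calc x i * x i = x i * (x i)⁻¹ := by rw [← h2]
          _ = 1 := mul_inv_cancel₀ hx0
      calc (x i)^6 = (x i * x i)^3 := by ring
        _ = 1 := by rw [h1]; ring
    have hk := key x hb hDET A B hA hB hAn hBn w v (x i) hw hv hx0 hy2
    rw [hperm i, hp, Finset.prod_mul_distrib, List.append_assoc]
    linear_combination ((om w - om v) * gm x s i * (∏ j ∈ s.erase i, (om w - om (x j))) *
      (∏ j ∈ s.erase i, (om v - om (x j))) *
      zo (w :: v :: x i :: (A ++ (B ++ prF x (s.erase i))))) * hk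
  have happ : (A ++ B) ++ prF x s = A ++ (B ++ prF x s) := List.append_assoc _ _ _
  rw [happ] at hmi
  unfold FP1 DD1
  rw [mul_add, hsum, gF_empty, gF_empty]
  simp only [Finset.prod_mul_distrib] at hmi ⊢
  linear_combination (-(zo (v :: (A ++ (B ++ prF x s))) * (∏ j ∈ s, EE (om w) (om (x j))) *
      (∏ j ∈ s, (om v - om (x j))))) * hD0 +
    (q * gh A [] B v * ((w - q*v) * (1 - (w*v)⁻¹))) * hmi

end Pool.Agent.H966.T1
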