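import Pool.Agent.H966.T1.Stubs2
import Pool.Graph.R_pool_sql_team_seeded_3dad9d7b.NH38.Fork.Base
import Pool.Graph.R_pool_sql_team_seeded_3dad9d7b.NH38.Fork.H3

/-!
Forked channels of even width (helper966), task L (helper580): the Plücker relations for the total
masses.
-/

namespace Pool.Agent.H966.T1

open Pool.Agent.H988R2.Perc hiding X
open Pool.Agent.NH38.Step (om prs EE zs prF Gen on cardy pom bev prF_length prF_ne pom_app pom_cons
  om_inv om_q_inv om_q2_inv refl_coeff zs_perm zs_inv zs_rec zs_rec1 zs_om zs_star1 zs_star2 zs_two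
  om_eq_iff)
open Pool.Agent.NH38.Fork
open Polynomial Filter Topology

namespace L

/-! ### widths -/

/-- the degree of `zs` in one variable, and the extreme coefficients -/
theorem zs_lau (l : List ℂ) (m : ℕ) (hl : NZ l) (hm : l.length = 2 * m + 1) :
    Lau (2 * m) m (fun w => zs (w :: l)) (zo l) (zo l) := by
  have hq := q_ne_zero
  have hp : l.prod ≠ 0 := List.prod_ne_zero (fun h => hl 0 h rfl)
  obtain ⟨P, hP, hPe⟩ := (Z_pd (l.length + 1) (by rw [hm]; exact ⟨m + 1, by ring⟩)).univ [] l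
    (by simp)
  simp only [List.nil_append] at hPe
  obtain ⟨d, hd⟩ : ∃ d : ℂ, d = l.prod^m * q^((m+1) * m) := ⟨_, rfl⟩
  have hd0 : d ≠ 0 := by
    rw [hd]
    exact mul_ne_zero (pow_ne_zero _ hp) (pow_ne_zero _ hq)
  have hdeg : P.natDegree ≤ 2 * m := by
    refine hP.trans ?_
    rw [hm]
    omega
  have hc0 : P.coeff 0 = zo l * d := by
    rw [Polynomial.coeff_zero_eq_eval_zero, ← hPe]
    have p1 : (0 :: l).Perm (l ++ [0]) := (List.perm_append_singleton 0 l).symm
    rw [Z_perm (by simp [hm]; exact ⟨m + 1, by ring⟩) p1, QT.zo_mul hl]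
    unfold QT.dz
    rw [hd, hm]
    have e1 : (2 * m + 1 - 1) / 2 = m := by omega
    have e2 : (2 * m + 1 + 1) / 2 = m + 1 := by omega
    rw [e1, e2]
  have hrefl : P.coeff (2 * m) = P.coeff 0 := by
    refine refl_coeff P _ hdeg fun w hw => ?_
    rw [← hPe, ← hPe, Z_inv w l hw ⟨m, hm⟩]
    congr 2
    simp [hm]
  refine ⟨P * C d⁻¹, (Polynomial.natDegree_mul_C_le _ _).trans hdeg, ?_, ?_, fun w hw => ?_⟩
  · rw [Polynomial.coeff_mul_C, hc0, mul_assoc, mul_inv_cancel₀ hd0, mul_one]
  · rw [Polynomial.coeff_mul_C, hrefl, hc0, mul_assoc, mul_inv_cancel₀ hd0, mul_one]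
  · rw [eval_mul, eval_C, ← hPe]
    unfold zs
    simp only [List.prod_cons, List.length_cons]
    have e1 : (l.length + 1) / 2 = m + 1 := by omega
    rw [e1, Nat.add_sub_cancel, hd]
    have hw1 : w^m ≠ 0 := pow_ne_zero _ hw
    rw [mul_pow]
    field_simp

theorem lau_tendsto {n m : ℕ} {f : ℂ → ℂ} {c0 cn : ℂ} (h : Lau n m f c0 cn) :
    Tendsto (fun t => f t * t^m) (𝓝[≠] 0) (𝓝 c0) := by
  obtain ⟨F, -, h0, -, hF⟩ := h
  have h1 : Tendsto (fun t => F.eval t) (𝓝[≠] (0:ℂ)) (𝓝 (F.eval 0)) :=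
    (F.continuous.tendsto 0).mono_left nhdsWithin_le_nhds
  rw [← Polynomial.coeff_zero_eq_eval_zero, h0] at h1
  refine h1.congr' ?_
  filter_upwards [self_mem_nhdsWithin] with t ht
  exact (hF t ht).symm

/-! ### the even relation of the library -/

theorem nz_app {u v : List ℂ} (hu : NZ u) (hv : NZ v) : NZ (u ++ v) := QT.NZ_append hu hv

theorem nz_cons {x : ℂ} {v : List ℂ} (hx : x ≠ 0) (hv : NZ v) : NZ (x :: v) := QT.NZ_cons hx hv

open Classical in
theorem zi {ι : Type} (x : ι → ℂ) (hx : Gen x) (s : Finset ι) (t : ℂ) (C : List ℂ) (w : ℂ)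
    (hC : Odd C.length) (hC0 : NZ C) (ht : t ≠ 0) (hw : w ≠ 0) :
    (∏ j ∈ s, (om w - om (x j))) * zs (t :: C) * zo (w :: t :: (C ++ prF x s)) -
      (∏ j ∈ s, EE (om w) (om (x j))) * zs (t :: (C ++ prF x s)) * zo (w :: t :: C) +
      ∑ i ∈ s, gm x s i * (∏ j ∈ s.erase i, (om w - om (x j))) * zo (x i :: t :: C) *
        zs (w :: x i :: t :: (C ++ prF x (s.erase i))) = 0 := by
  have h := a_ZI x hx s [t] C odd_one hC (nz_cons ht (by simp [NZ])) hC0 w hw
  have e0 : ∀ z, tF x ∅ [t] C z = zo (z :: t :: C) := by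
    intro z
    unfold tF tt
    rw [Finset.toList_empty]
    simp [prs]
  have ett : ∀ z, tt [t] [] C z = zo (z :: t :: C) := by
    intro z
    unfold tt
    simp [prs]
  have e1 : tF x ∅ [t] C = tt [t] [] C := by
    funext z
    rw [e0, ett]
  unfold FP at h
  rw [e1] at h
  have e2 : tF x s [t] C w = zo (w :: t :: (C ++ prF x s)) := rfl
  rw [e2, ett] at h
  refine Eq.trans ?_ h
  congr 1
  refine Finset.sum_congr rfl fun i hi => ?_
  rw [H3.cc_const [t] C odd_one hC w (x i) hw (hx.1 i).1 (hx.1 i).2, ett]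
  rfl

/-! ### the odd relation -/

open Classical in
theorem mz {ι : Type} (x : ι → ℂ) (hx : Gen x) (s : Finset ι) (C : List ℂ) (w : ℂ)
    (hC : Odd C.length) (hC0 : NZ C) (hw : w ≠ 0) :
    (∏ j ∈ s, (om w - om (x j))) * zo C * zs (w :: (C ++ prF x s)) -
      (∏ j ∈ s, EE (om w) (om (x j))) * zo (C ++ prF x s) * zs (w :: C) +
      ∑ i ∈ s, gm x s i * (∏ j ∈ s.erase i, (om w - om (x j))) * zs (x i :: C) *
        zo (w :: x i :: (C ++ prF x (s.erase i))) = 0 := by
  obtain ⟨m, hm⟩ := hC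
  have hC : Odd C.length := ⟨m, hm⟩
  have hx0 : ∀ i, x i ≠ 0 := fun i => (hx.1 i).1
  have hP : ∀ r : Finset ι, NZ (prF x r) := fun r => prF_ne x hx0 r
  have hlen : ∀ r : Finset ι, (C ++ prF x r).length = 2 * (m + r.card) + 1 := by
    intro r
    rw [List.length_append, prF_length, hm]; ring
  have T1 : Tendsto (fun t => zs (t :: C) * t^m) (𝓝[≠] 0) (𝓝 (zo C)) :=
    lau_tendsto (zs_lau C m hC0 hm)
  have T2 : Tendsto (fun t => zo (t :: w :: (C ++ prF x s)) * t^(m + s.card + 1)) (𝓝[≠] 0)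
      (𝓝 (zs (w :: (C ++ prF x s)))) :=
    lau_tendsto (QT.zo_lau (w :: (C ++ prF x s)) (m + s.card) (nz_cons hw (nz_app hC0 (hP s)))
      (by rw [List.length_cons, hlen]; ring))
  have T3 : Tendsto (fun t => zs (t :: (C ++ prF x s)) * t^(m + s.card)) (𝓝[≠] 0)
      (𝓝 (zo (C ++ prF x s))) :=
    lau_tendsto (zs_lau _ (m + s.card) (nz_app hC0 (hP s)) (hlen s))
  have T4 : Tendsto (fun t => zo (t :: w :: C) * t^(m + 1)) (𝓝[≠] 0) (𝓝 (zs (w :: C))) :=
    lau_tendsto (QT.zo_lau (w :: C) m (nz_cons hw hC0) (by rw [List.length_cons, hm]; ring))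
  have T5 : ∀ i, Tendsto (fun t => zo (t :: x i :: C) * t^(m + 1)) (𝓝[≠] 0)
      (𝓝 (zs (x i :: C))) := fun i =>
    lau_tendsto (QT.zo_lau (x i :: C) m (nz_cons (hx0 i) hC0)
      (by rw [List.length_cons, hm]; ring))
  have T6 : ∀ i ∈ s, Tendsto (fun t => zs (t :: w :: x i :: (C ++ prF x (s.erase i))) *
      t^(m + s.card)) (𝓝[≠] 0) (𝓝 (zo (w :: x i :: (C ++ prF x (s.erase i))))) := by
    intro i hi
    refine lau_tendsto (zs_lau _ (m + s.card)
      (nz_cons hw (nz_cons (hx0 i) (nz_app hC0 (hP _)))) ?_)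
    have h1 : (s.erase i).card + 1 = s.card := Finset.card_erase_add_one hi
    rw [List.length_cons, List.length_cons, hlen, ← h1]; ring
  have TT : Tendsto (fun t => (∏ j ∈ s, (om w - om (x j))) * (zs (t :: C) * t^m) *
      (zo (t :: w :: (C ++ prF x s)) * t^(m + s.card + 1)) -
      (∏ j ∈ s, EE (om w) (om (x j))) * (zs (t :: (C ++ prF x s)) * t^(m + s.card)) *
        (zo (t :: w :: C) * t^(m + 1)) +
      ∑ i ∈ s, gm x s i * (∏ j ∈ s.erase i, (om w - om (x j))) *
        (zo (t :: x i :: C) * t^(m + 1)) *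
        (zs (t :: w :: x i :: (C ++ prF x (s.erase i))) * t^(m + s.card))) (𝓝[≠] 0)
      (𝓝 ((∏ j ∈ s, (om w - om (x j))) * zo C * zs (w :: (C ++ prF x s)) -
      (∏ j ∈ s, EE (om w) (om (x j))) * zo (C ++ prF x s) * zs (w :: C) +
      ∑ i ∈ s, gm x s i * (∏ j ∈ s.erase i, (om w - om (x j))) * zs (x i :: C) *
        zo (w :: x i :: (C ++ prF x (s.erase i))))) := by
    refine Tendsto.add (Tendsto.sub ((tendsto_const_nhds.mul T1).mul T2)
      ((tendsto_const_nhds.mul T3).mul T4)) ?_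
    exact tendsto_finsetSum _ fun i hi => (tendsto_const_nhds.mul (T5 i)).mul (T6 i hi)
  refine tendsto_nhds_unique_of_eventuallyEq TT (tendsto_const_nhds (x := (0:ℂ))) ?_
  filter_upwards [self_mem_nhdsWithin] with t ht
  have ht0 : t ≠ 0 := ht
  have h := zi x hx s t C w hC hC0 ht0 hw
  have p1 : zo (w :: t :: (C ++ prF x s)) = zo (t :: w :: (C ++ prF x s)) := by
    refine QT.zo_perm ?_ (List.Perm.swap _ _ _)
    rw [List.length_cons, List.length_cons, hlen]
    exact ⟨m + s.card + 1, by ring⟩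
  have p2 : zo (w :: t :: C) = zo (t :: w :: C) := by
    refine QT.zo_perm ?_ (List.Perm.swap _ _ _)
    rw [List.length_cons, List.length_cons, hm]
    exact ⟨m + 1, by ring⟩
  have p3 : ∀ i, zo (x i :: t :: C) = zo (t :: x i :: C) := by
    intro i
    refine QT.zo_perm ?_ (List.Perm.swap _ _ _)
    rw [List.length_cons, List.length_cons, hm]
    exact ⟨m + 1, by ring⟩
  have p4 : ∀ i ∈ s, zs (w :: x i :: t :: (C ++ prF x (s.erase i))) =
      zs (t :: w :: x i :: (C ++ prF x (s.erase i))) := by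
    intro i hi
    have h1 : (s.erase i).card + 1 = s.card := Finset.card_erase_add_one hi
    refine zs_perm ?_ ?_
    · simp only [List.length_cons, hlen]
      exact ⟨m + (s.erase i).card + 2, by ring⟩
    · exact ((List.Perm.swap t (x i) _).cons w).trans (List.Perm.swap t w _)
  rw [p1, p2] at h
  have hs : ∑ i ∈ s, gm x s i * (∏ j ∈ s.erase i, (om w - om (x j))) * zo (x i :: t :: C) *
        zs (w :: x i :: t :: (C ++ prF x (s.erase i))) =
      ∑ i ∈ s, gm x s i * (∏ j ∈ s.erase i, (om w - om (x j))) * zo (t :: x i :: C) *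
        zs (t :: w :: x i :: (C ++ prF x (s.erase i))) :=
    Finset.sum_congr rfl fun i hi => by rw [p3 i, p4 i hi]
  rw [hs] at h
  have hs2 : ∑ i ∈ s, gm x s i * (∏ j ∈ s.erase i, (om w - om (x j))) *
        (zo (t :: x i :: C) * t^(m + 1)) *
        (zs (t :: w :: x i :: (C ++ prF x (s.erase i))) * t^(m + s.card)) =
      (∑ i ∈ s, gm x s i * (∏ j ∈ s.erase i, (om w - om (x j))) * zo (t :: x i :: C) *
        zs (t :: w :: x i :: (C ++ prF x (s.erase i)))) * t^(2 * m + 1 + s.card) := by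
    rw [Finset.sum_mul]
    refine Finset.sum_congr rfl fun i _ => ?_
    have : t^(2 * m + 1 + s.card) = t^(m+1) * t^(m + s.card) := by rw [← pow_add]; congr 1; ring
    rw [this]; ring
  rw [hs2]
  have e1 : t^(2 * m + 1 + s.card) = t^m * t^(m + s.card + 1) := by rw [← pow_add]; congr 1; ring
  have e2 : t^(2 * m + 1 + s.card) = t^(m + s.card) * t^(m+1) := by rw [← pow_add]; congr 1; ring
  linear_combination t^(2 * m + 1 + s.card) * h -
    (∏ j ∈ s, (om w - om (x j))) * zs (t :: C) * zo (t :: w :: (C ++ prF x s)) * e1 +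
    (∏ j ∈ s, EE (om w) (om (x j))) * zs (t :: (C ++ prF x s)) * zo (t :: w :: C) * e2

/-! ### regularity -/

theorem LR_zs' {P : ℂ[X]} (l : List (ℂ → ℂ → ℂ)) (h : ∀ f ∈ l, UL P f) (hl : Even l.length)
    (g : ℂ → ℂ → List ℂ) (hg : ∀ t w, l.map (fun f => f t w) = g t w) :
    LR P (fun t w => zs (g t w)) :=
  ((t_regz P l h).1 hl).congr fun t w _ _ => by rw [hg]

theorem LR_zo' {P : ℂ[X]} (l : List (ℂ → ℂ → ℂ)) (h : ∀ f ∈ l, UL P f) (hl : Odd l.length)
    (g : ℂ → ℂ → List ℂ) (hg : ∀ t w, l.map (fun f => f t w) = g t w) :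
    LR P (fun t w => zo (g t w)) :=
  ((t_regz P l h).2 hl).congr fun t w _ _ => by rw [hg]

theorem zo_om (x y : ℂ) (l : List ℂ) (hx : x ≠ 0) (hy : y ≠ 0) (h : om x = om y)
    (hl : Even l.length) : zo (x :: l) = zo (y :: l) := by
  rcases (om_eq_iff hx hy).mp h with h1 | h1
  · rw [h1]
  · have : x = y⁻¹ := eq_inv_of_mul_eq_one_left h1
    rw [this]
    exact (QT.zo_inv y l hy hl).symm

theorem zo_one (w : ℂ) : zo [w] = 1 := by
  unfold zo
  rw [List.singleton_append, Z_two]
  simp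

/-- the three term relation -/
noncomputable def P3 (v y : ℂ) (A B : List ℂ) (w : ℂ) : ℂ :=
  (om v - om y) * zo (w :: (A ++ B)) * zs (v :: y :: (A ++ B)) -
    (om w - om y) * zo (v :: (A ++ B)) * zs (w :: y :: (A ++ B)) +
    (om w - om v) * zo (y :: (A ++ B)) * zs (w :: v :: (A ++ B))

theorem zs_swap (a b : ℂ) (l : List ℂ) (h : Even l.length) : zs (a :: b :: l) = zs (b :: a :: l) :=
  zs_perm (by rw [List.length_cons, List.length_cons]; exact (h.add_one).add_one)
    (List.Perm.swap _ _ _)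

theorem P3_self (v y : ℂ) (A B : List ℂ) (hy : y ≠ 0) (hv : v ≠ 0) (he : Even (A ++ B).length)
    (w : ℂ) (hw : w ≠ 0) (h : om w = om v ∨ om w = om y ∨ om v = om y) : P3 v y A B w = 0 := by
  have ho : ∀ z : ℂ, Odd (z :: (A ++ B)).length := fun z => by
    rw [List.length_cons]; exact he.add_one
  unfold P3
  rcases h with h | h | h
  · rw [zo_om w v _ hw hv h he, zs_om w v _ hw hv h (ho y), zs_om w v _ hw hv h (ho v), h]
    ring
  · rw [zo_om w y _ hw hy h he, zs_om w y _ hw hy h (ho y), zs_om w y _ hw hy h (ho v), h,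
      zs_swap y v _ he]
    ring
  · rw [zo_om v y _ hv hy h he, zs_swap w v _ he, zs_om v y _ hv hy h (ho w), zs_swap w y _ he, h]
    ring

theorem P3_reg (v y : ℂ) (a b : ℕ) (ha : Odd a) (hb : Odd b) : Reg a b (P3 v y) := by
  rintro A B rfl rfl
  have he : Even (A.length + B.length) := ha.add_odd hb
  have hA := fn_UL (left_dvd A B)
  have hB := fn_UL (right_dvd A B)
  have hAB : ∀ f ∈ fn A ++ fn B, UL (A ++ B).prod f := by
    intro f hf
    rcases List.mem_append.mp hf with hf | hf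
    · exact hA f hf
    · exact hB f hf
  have hlen : (fn A ++ fn B).length = A.length + B.length := by
    rw [List.length_append, fn_length, fn_length]
  have hmap : ∀ t w : ℂ, (fn A ++ fn B).map (fun f => f t w) = ev A t ++ ev B t := by
    intro t w
    rw [List.map_append, fn_ev, fn_ev]
  have z1 : ∀ f : ℂ → ℂ → ℂ, UL (A ++ B).prod f →
      LR (A ++ B).prod (fun t w => zo (f t w :: (ev A t ++ ev B t))) := by
    intro f hf
    refine LR_zo' (f :: (fn A ++ fn B)) ?_ ?_ _ ?_
    · intro g hg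
      rcases List.mem_cons.mp hg with rfl | hg
      · exact hf
      · exact hAB g hg
    · rw [List.length_cons, hlen]; exact he.add_one
    · intro t w
      rw [List.map_cons, hmap]
  have z2 : ∀ f g : ℂ → ℂ → ℂ, UL (A ++ B).prod f → UL (A ++ B).prod g →
      LR (A ++ B).prod (fun t w => zs (f t w :: g t w :: (ev A t ++ ev B t))) := by
    intro f g hf hg
    refine LR_zs' (f :: g :: (fn A ++ fn B)) ?_ ?_ _ ?_
    · intro k hk
      rcases List.mem_cons.mp hk with rfl | hk
      · exact hf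
      rcases List.mem_cons.mp hk with rfl | hk
      · exact hg
      · exact hAB k hk
    · rw [List.length_cons, List.length_cons, hlen]; exact (he.add_one).add_one
    · intro t w
      rw [List.map_cons, List.map_cons, hmap]
  have o1 : LR (A ++ B).prod (fun _ w => om w) := UL.var.om
  have hv := UL.const (P := (A ++ B).prod) v
  have hy := UL.const (P := (A ++ B).prod) y
  have hw := UL.var (P := (A ++ B).prod)
  exact ((((LR.const (om v - om y)).mul (z1 _ hw)).mul (z2 _ _ hv hy)).sub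
    (((o1.sub (LR.const (om y))).mul (z1 _ hv)).mul (z2 _ _ hw hy))).add
    (((o1.sub (LR.const (om v))).mul (z1 _ hy)).mul (z2 _ _ hw hv))

theorem P3_perm (v y : ℂ) (a b : ℕ) (ha : Odd a) (hb : Odd b) : PermInv a b (P3 v y) := by
  rintro A A' B B' rfl rfl hA hB hAA hBB w hw
  have hp : (A ++ B).Perm (A' ++ B') := hAA.append hBB
  have he : Even (A ++ B).length := by rw [List.length_append]; exact ha.add_odd hb
  have ho : ∀ z : ℂ, Odd (z :: (A ++ B)).length := fun z => by
    rw [List.length_cons]; exact he.add_one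
  have z1 : ∀ z : ℂ, zo (z :: (A ++ B)) = zo (z :: (A' ++ B')) := fun z =>
    QT.zo_perm (ho z) (hp.cons z)
  have z2 : ∀ z z' : ℂ, zs (z :: z' :: (A ++ B)) = zs (z :: z' :: (A' ++ B')) := fun z z' =>
    zs_perm (by rw [List.length_cons]; exact (ho z').add_one) ((hp.cons z').cons z)
  unfold P3
  rw [z1, z1, z1, z2, z2, z2]

theorem P3_wid (v y : ℂ) (hv : v ≠ 0) (hy : y ≠ 0) (A B : List ℂ) (ha : Odd A.length)
    (hb : Odd B.length) (hA : NZ A) (hB : NZ B) :
    ∃ F : ℂ[X], F.natDegree ≤ A.length + B.length + 2 ∧ F.coeff 0 = 0 ∧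
      ∀ w, w ≠ 0 → P3 v y A B w * w^((A.length + B.length)/2 + 1) = F.eval w := by
  obtain ⟨m, hm⟩ : ∃ m, A.length + B.length = 2 * (m + 1) := by
    obtain ⟨i, hi⟩ := ha
    obtain ⟨j, hj⟩ := hb
    exact ⟨i + j, by omega⟩
  have hl : (A ++ B).length = 2 * (m + 1) := by rw [List.length_append, hm]
  have hAB : NZ (A ++ B) := nz_app hA hB
  obtain ⟨F1, d1, -, -, h1⟩ := QT.zo_lau (A ++ B) m hAB hl
  obtain ⟨F2, d2, c2, -, h2⟩ := zs_lau (y :: (A ++ B)) (m + 1) (nz_cons hy hAB)
    (by rw [List.length_cons, hl])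
  obtain ⟨F3, d3, c3, -, h3⟩ := zs_lau (v :: (A ++ B)) (m + 1) (nz_cons hv hAB)
    (by rw [List.length_cons, hl])
  have e1 : (A.length + B.length)/2 + 1 = m + 2 := by omega
  rw [e1]
  refine ⟨C ((om v - om y) * zs (v :: y :: (A ++ B))) * (F1 * X) -
    C (zo (v :: (A ++ B))) * ((X^2 - C (om y) * X + 1) * F2) +
    C (zo (y :: (A ++ B))) * ((X^2 - C (om v) * X + 1) * F3), ?_, ?_, ?_⟩
  · have dq : ∀ c : ℂ, ((X:ℂ[X])^2 - C c * X + 1).natDegree ≤ 2 := by
      intro c
      compute_degree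
    have a1 : (C ((om v - om y) * zs (v :: y :: (A ++ B))) * (F1 * X)).natDegree ≤
        2 * (m + 1) + 2 := by
      refine (natDegree_C_mul_le _ _).trans (natDegree_mul_le.trans ?_)
      have := natDegree_X_le (R := ℂ)
      omega
    have a2 : ∀ c d : ℂ, ∀ F : ℂ[X], F.natDegree ≤ 2 * (m + 1) →
        (C d * ((X^2 - C c * X + 1) * F)).natDegree ≤ 2 * (m + 1) + 2 := by
      intro c d F hF
      refine (natDegree_C_mul_le _ _).trans (natDegree_mul_le.trans ?_)
      have := dq c
      omega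
    rw [hm]
    refine (natDegree_add_le _ _).trans (max_le ?_ (a2 _ _ _ d3))
    exact (natDegree_sub_le _ _).trans (max_le a1 (a2 _ _ _ d2))
  · simp only [coeff_add, coeff_sub, mul_coeff_zero, coeff_C_zero, coeff_X_zero, coeff_one_zero,
      c2, c3, pow_two]
    ring
  · intro w hw
    have g1 := h1 w hw
    have g2 := h2 w hw
    have g3 := h3 w hw
    have ho : ∀ z : ℂ, (om w - z) * w = w^2 - z * w + 1 := by
      intro z
      unfold Pool.Agent.NH38.Step.om
      field_simp
      ring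
    simp only [eval_add, eval_sub, eval_mul, eval_C, eval_X, eval_one, eval_pow]
    rw [← g1, ← g2, ← g3, ← ho, ← ho]
    unfold P3
    ring

theorem pl3 (v y : ℂ) (hv : v ≠ 0) (hy : y ≠ 0) (hy2 : y^2 ≠ 1) (hvy : om v ≠ om y)
    (A B : List ℂ) (ha : Odd A.length)
    (hb : Odd B.length) (hA : NZ A) (hB : NZ B) (w : ℂ) (hw : w ≠ 0) : P3 v y A B w = 0 := by
  classical
  have hyi : y⁻¹ ≠ 0 := inv_ne_zero hy
  have n1 : y ≠ y⁻¹ := by
    intro h
    apply hy2
    calc y^2 = y * y := sq y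
      _ = y * y⁻¹ := by rw [← h]
      _ = 1 := mul_inv_cancel₀ hy
  have n2 : v ≠ y := fun h => hvy (by rw [h])
  have n3 : v ≠ y⁻¹ := fun h => hvy (by rw [h, om_inv])
  refine t_G1 A.length B.length (A.length + B.length + 2) ((A.length + B.length)/2 + 1) ha hb
    1 (by simp) {v, y, y⁻¹} ?_ (P3 v y) ?_ (P3_reg v y _ _ ha hb) (P3_perm v y _ _ ha hb) ?_ ?_ ?_ ?_
    A B rfl rfl hA hB w hw
  · simp only [Finset.mem_insert, Finset.mem_singleton, not_or]
    exact ⟨hv.symm, hy.symm, hyi.symm⟩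
  · rw [Finset.card_eq_three.mpr ⟨v, y, y⁻¹, n2, n3, n1, rfl⟩]
  · intro A' B' hA' hB' hA0 hB0
    have h := P3_wid v y hv hy A' B' (by rw [hA']; exact ha) (by rw [hB']; exact hb) hA0 hB0
    rw [hA', hB'] at h
    exact h
  · intro A' B' u hA' hB' hA0 hB0 hu
    obtain ⟨l, hl⟩ : ∃ l, l = A' ++ B' := ⟨_, rfl⟩
    have hl0 : NZ l := by rw [hl]; exact nz_app hA0 hB0
    have hlo : Odd l.length := by
      rw [hl, List.length_append, hB']
      rw [← hA'] at ha
      have : Even A'.length := Nat.not_odd_iff_even.mp fun h => (Nat.not_odd_iff_even.mpr (h.add_one)) ha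
      exact this.add_odd hb
    have hyl : Even (y :: l).length := by rw [List.length_cons]; exact hlo.add_one
    have hvl : Even (v :: l).length := by rw [List.length_cons]; exact hlo.add_one
    have s1 := M4.zo_starA u l hu hl0 hlo
    have s2 := zs_star1 u (y :: l) (y :: u :: l) hu (nz_cons hy hl0) hyl (List.Perm.swap _ _ _)
    have s3 := zs_star2 u (y :: l) (y :: u :: l) hu (nz_cons hy hl0) hyl (List.Perm.swap _ _ _)
    have s4 := zs_star1 u (v :: l) (v :: u :: l) hu (nz_cons hv hl0) hvl (List.Perm.swap _ _ _)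
    have s5 := zs_star2 u (v :: l) (v :: u :: l) hu (nz_cons hv hl0) hvl (List.Perm.swap _ _ _)
    rw [pom_cons] at s2 s3 s4 s5
    unfold P3
    rw [List.cons_append, ← hl, s2, s3, s4, s5, om_q2_inv]
    simp only [eval_one, mul_one]
    linear_combination (om v - om y) * zs (v :: y :: u :: l) * s1
  · intro A' B' u hA' hB' hA0 hB0 hu
    obtain ⟨l, hl⟩ : ∃ l, l = A' ++ B' := ⟨_, rfl⟩
    have hl0 : NZ l := by rw [hl]; exact nz_app hA0 hB0
    have hlo : Odd l.length := by
      rw [hl, List.length_append, hA']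
      rw [← hB'] at hb
      have : Even B'.length := Nat.not_odd_iff_even.mp fun h => (Nat.not_odd_iff_even.mpr (h.add_one)) hb
      exact ha.add_even this
    have hui : u⁻¹ ≠ 0 := inv_ne_zero hu
    have hp : (A' ++ u :: B').Perm (u :: l) := by rw [hl]; exact List.perm_middle
    have hlen : (A' ++ u :: B').length = l.length + 1 := by rw [hp.length_eq, List.length_cons]
    have q1 : ∀ z : ℂ, zo (z :: (A' ++ u :: B')) = zo (z :: u :: l) := fun z =>
      QT.zo_perm (by rw [List.length_cons, hlen]; exact (hlo.add_one).add_one) (hp.cons z)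
    have q2 : ∀ z z' : ℂ, zs (z :: z' :: (A' ++ u :: B')) = zs (z :: u :: z' :: l) := by
      intro z z'
      refine zs_perm ?_ (((hp.cons z').trans (List.Perm.swap _ _ _)).cons z)
      rw [List.length_cons, List.length_cons, hlen]
      exact ((hlo.add_one).add_one).add_one
    have s1 := M4.zo_starB u l hu hl0 hlo
    have s2 : ∀ z : ℂ, z ≠ 0 → zs ((q * u) :: u :: z :: l) =
        (om (q^2 * u) - om z) * pom (om (q^2 * u)) l * zs (z :: l) := by
      intro z hz
      rw [zs_rec1 u (z :: l) hu (nz_cons hz hl0) (by rw [List.length_cons]; exact hlo.add_one),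
        pom_cons]
    have s3 : ∀ z : ℂ, z ≠ 0 → zs ((q * u⁻¹) :: u :: z :: l) =
        (om (q * u) - om z) * pom (om (q * u)) l * zs (z :: l) := by
      intro z hz
      have hz2 : Even (z :: l).length := by rw [List.length_cons]; exact hlo.add_one
      have r1 : zs ((q * u⁻¹) :: u :: z :: l) = zs ((q * u⁻¹) :: u⁻¹ :: z :: l) := by
        rw [zs_swap _ _ _ hz2, zs_inv u _ hu (by rw [List.length_cons]; exact hz2.add_one),
          zs_swap _ _ _ hz2]
      rw [r1, zs_rec1 u⁻¹ (z :: l) hui (nz_cons hz hl0) hz2, pom_cons, om_q2_inv]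
    unfold P3
    rw [q1, q1, q1, q1, q2, q2, q2, q2, q2, ← hl, s2 y hy, s3 y hy, s2 v hv, s3 v hv, om_q_inv]
    simp only [eval_one, mul_one]
    linear_combination (om v - om y) * zs (v :: u :: y :: l) * s1
  · intro A' B' hA' hB' hA0 hB0 z hz
    have he : Even (A' ++ B').length := by
      rw [List.length_append, hA', hB']; exact ha.add_odd hb
    simp only [Finset.mem_insert, Finset.mem_singleton] at hz
    rcases hz with rfl | rfl | rfl
    · exact P3_self _ _ _ _ hy hv he _ hv (Or.inl rfl)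
    · exact P3_self _ _ _ _ hy hv he _ hy (Or.inr (Or.inl rfl))
    · exact P3_self _ _ _ _ hy hv he _ hyi (Or.inr (Or.inl (om_inv y)))

/-- the three term relation -/
theorem plr (v y w : ℂ) (hv : v ≠ 0) (hy : y ≠ 0) (hw : w ≠ 0) (hy6 : y^6 ≠ 1) (l : List ℂ)
    (hl : Even l.length) (hl0 : NZ l) :
    (om v - om y) * zo (w :: l) * zs (v :: y :: l) -
      (om w - om y) * zo (v :: l) * zs (w :: y :: l) +
      (om w - om v) * zo (y :: l) * zs (w :: v :: l) = 0 := by
  have hy2 : y^2 ≠ 1 := by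
    intro h
    apply hy6
    calc y^6 = (y^2)^3 := by ring
      _ = 1 := by rw [h]; norm_num
  rcases l with _ | ⟨a, B⟩
  · rw [zo_one, zo_one, zo_one, zs_two, zs_two, zs_two]
    ring
  · by_cases hvy : om v = om y
    · exact P3_self v y [a] B hy hv hl w hw (Or.inr (Or.inr hvy))
    · have hb : Odd B.length := by
        rw [List.length_cons] at hl
        exact Nat.not_even_iff_odd.mp fun h => (Nat.not_even_iff_odd.mpr h.add_one) hl
      exact pl3 v y hv hy hy2 hvy [a] B odd_one hb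
        (nz_cons (hl0 a (by simp)) (by simp [NZ])) (fun z hz => hl0 z (List.mem_cons_of_mem a hz))
        w hw

/-! ### the relation for even spectators -/

open Classical in
/-- the left side of `S1_MI` -/
noncomputable def MIe {ι : Type} (x : ι → ℂ) (s : Finset ι) (L : List ℂ) (w v : ℂ) : ℂ :=
  (∏ j ∈ s, EE (om w) (om (x j)) * (om v - om (x j))) * zo (w :: L) * zo (v :: (L ++ prF x s)) -
    (∏ j ∈ s, EE (om v) (om (x j)) * (om w - om (x j))) * zo (v :: L) * zo (w :: (L ++ prF x s)) +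
    (om w - om v) * ∑ i ∈ s, gm x s i *
      (∏ j ∈ s.erase i, (om w - om (x j)) * (om v - om (x j))) * zo (x i :: L) *
      zo (w :: v :: x i :: (L ++ prF x (s.erase i)))

theorem mul_MI {ι : Type} (x : ι → ℂ) (hx : Gen x) (s : Finset ι) (L : List ℂ) (w v : ℂ)
    (hL : Even L.length) (hL0 : NZ L) (hw : w ≠ 0) (hv : v ≠ 0) :
    zs (w :: v :: L) * MIe x s L w v = 0 := by
  classical
  have hx0 : ∀ i, x i ≠ 0 := fun i => (hx.1 i).1
  have hlo : ∀ z : ℂ, Odd (z :: L).length := fun z => by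
    rw [List.length_cons]; exact hL.add_one
  have m1 := mz x hx s (v :: L) w (hlo v) (nz_cons hv hL0) hw
  have m2 := mz x hx s (w :: L) v (hlo w) (nz_cons hw hL0) hv
  simp only [List.cons_append] at m1 m2
  have hcard : ∀ i ∈ s, (s.erase i).card + 1 = s.card := fun i hi => Finset.card_erase_add_one hi
  have ev1 : ∀ r : Finset ι, Even (L ++ prF x r).length := fun r => by
    rw [List.length_append, prF_length]; exact hL.add (even_two_mul _)
  have w1 : zs (v :: w :: (L ++ prF x s)) = zs (w :: v :: (L ++ prF x s)) := zs_swap _ _ _ (ev1 s)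
  have w2 : zs (v :: w :: L) = zs (w :: v :: L) := zs_swap _ _ _ hL
  rw [w1, w2] at m2
  have w3 : ∀ i, zo (w :: x i :: v :: (L ++ prF x (s.erase i))) =
      zo (w :: v :: x i :: (L ++ prF x (s.erase i))) := by
    intro i
    refine QT.zo_perm ?_ ((List.Perm.swap _ _ _).cons w)
    simp only [List.length_cons]
    exact (((ev1 _).add_one).add_one).add_one
  have w4 : ∀ i, zo (v :: x i :: w :: (L ++ prF x (s.erase i))) =
      zo (w :: v :: x i :: (L ++ prF x (s.erase i))) := by
    intro i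
    refine QT.zo_perm ?_ ?_
    · simp only [List.length_cons]
      exact (((ev1 _).add_one).add_one).add_one
    · exact ((List.Perm.swap w (x i) _).cons v).trans (List.Perm.swap w v _)
  have w5 : ∀ i, zs (x i :: v :: L) = zs (v :: x i :: L) := fun i => zs_swap _ _ _ hL
  have w6 : ∀ i, zs (x i :: w :: L) = zs (w :: x i :: L) := fun i => zs_swap _ _ _ hL
  obtain ⟨Pw, hPw⟩ : ∃ c, c = ∏ j ∈ s, (om w - om (x j)) := ⟨_, rfl⟩
  obtain ⟨Pv, hPv⟩ : ∃ c, c = ∏ j ∈ s, (om v - om (x j)) := ⟨_, rfl⟩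
  have key : Pv * zo (w :: L) * ∑ i ∈ s, gm x s i * (∏ j ∈ s.erase i, (om w - om (x j))) *
        zs (x i :: v :: L) * zo (w :: x i :: v :: (L ++ prF x (s.erase i))) -
      Pw * zo (v :: L) * ∑ i ∈ s, gm x s i * (∏ j ∈ s.erase i, (om v - om (x j))) *
        zs (x i :: w :: L) * zo (v :: x i :: w :: (L ++ prF x (s.erase i))) +
      zs (w :: v :: L) * ((om w - om v) * ∑ i ∈ s, gm x s i *
      (∏ j ∈ s.erase i, (om w - om (x j)) * (om v - om (x j))) * zo (x i :: L) *
      zo (w :: v :: x i :: (L ++ prF x (s.erase i)))) = 0 := by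
    rw [Finset.mul_sum, Finset.mul_sum, Finset.mul_sum, Finset.mul_sum, ← Finset.sum_sub_distrib,
      ← Finset.sum_add_distrib]
    refine Finset.sum_eq_zero fun i hi => ?_
    have h3 := plr v (x i) w hv (hx0 i) hw (hx.1 i).2 L hL hL0
    rw [w3, w4, w5, w6, hPw, hPv, ← Finset.mul_prod_erase s (fun j => (om w - om (x j))) hi,
      ← Finset.mul_prod_erase s (fun j => (om v - om (x j))) hi, Finset.prod_mul_distrib]
    linear_combination (gm x s i * (∏ j ∈ s.erase i, (om w - om (x j))) *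
      (∏ j ∈ s.erase i, (om v - om (x j))) *
      zo (w :: v :: x i :: (L ++ prF x (s.erase i)))) * h3
  unfold MIe
  rw [Finset.prod_mul_distrib, Finset.prod_mul_distrib, ← hPw, ← hPv]
  rw [← hPw] at m1
  rw [← hPv] at m2
  linear_combination key - Pv * zo (w :: L) * m1 + Pw * zo (v :: L) * m2

theorem MI_reg {ι : Type} (x : ι → ℂ) (hx : Gen x) (s : Finset ι) (A : List ℂ[X]) (p : ℂ[X])
    (he : Even A.length) (P : ℂ[X]) (hP : (p :: A).prod ∣ P) :
    LR P (fun t w => MIe x s (ev A t) w (p.eval t)) := by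
  classical
  have hx0 : ∀ i, x i ≠ 0 := fun i => (hx.1 i).1
  have hpd : p ∣ P := (Dvd.intro _ (List.prod_cons (a := p) (l := A)).symm).trans hP
  have hAd : A.prod ∣ P := (Dvd.intro_left _ (List.prod_cons (a := p) (l := A)).symm).trans hP
  have hA : ∀ f ∈ fn A, UL P f := fn_UL hAd
  have hp : UL P (fun t _ => p.eval t) := UL.poly hpd
  have hw : UL P (fun _ w => w) := UL.var
  have hc : ∀ c : ℂ, UL P (fun _ _ => c) := fun c => UL.const c
  have cmap : ∀ (l : List ℂ) (t w : ℂ), (l.map (fun c => fun _ _ : ℂ => c)).map (fun f => f t w) =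
      l := by
    intro l t w
    rw [List.map_map]
    exact List.map_id' _
  have cul : ∀ l : List ℂ, ∀ f ∈ l.map (fun c => fun _ _ : ℂ => c), UL P f := by
    intro l f hf
    rw [List.mem_map] at hf
    obtain ⟨c, _, rfl⟩ := hf
    exact hc c
  -- `zo` of a family
  have z1 : ∀ (F : List (ℂ → ℂ → ℂ)) (l : List ℂ), (∀ f ∈ F, UL P f) → Odd F.length →
      Even l.length → LR P (fun t w => zo (F.map (fun f => f t w) ++ (ev A t ++ l))) := by
    intro F l hF hFo hl
    refine LR_zo' (F ++ (fn A ++ l.map (fun c => fun _ _ : ℂ => c))) ?_ ?_ _ ?_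
    · intro g hg
      rcases List.mem_append.mp hg with hg | hg
      · exact hF g hg
      rcases List.mem_append.mp hg with hg | hg
      · exact hA g hg
      · exact cul l g hg
    · rw [List.length_append, List.length_append, fn_length, List.length_map]
      exact hFo.add_even (he.add hl)
    · intro t w
      rw [List.map_append, List.map_append, fn_ev, cmap]
  have z2 : ∀ (f : ℂ → ℂ → ℂ), UL P f → LR P (fun t w => zo (f t w :: ev A t)) := by
    intro f hf
    refine (z1 [f] [] (by intro g hg; rw [List.mem_singleton] at hg; rw [hg]; exact hf) odd_one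
      (by simp)).congr fun t w _ _ => ?_
    simp
  have z3 : ∀ (f : ℂ → ℂ → ℂ), UL P f → LR P (fun t w => zo (f t w :: (ev A t ++ prF x s))) := by
    intro f hf
    refine (z1 [f] (prF x s) (by intro g hg; rw [List.mem_singleton] at hg; rw [hg]; exact hf)
      odd_one (by rw [prF_length]; exact even_two_mul _)).congr fun t w _ _ => ?_
    simp
  have z4 : ∀ i, LR P (fun t w => zo (w :: p.eval t :: x i :: (ev A t ++ prF x (s.erase i)))) := by
    intro i
    refine (z1 [fun _ w => w, fun t _ => p.eval t, fun _ _ => x i] (prF x (s.erase i)) ?_ ?_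
      (by rw [prF_length]; exact even_two_mul _)).congr fun t w _ _ => ?_
    · intro g hg
      simp only [List.mem_cons, List.not_mem_nil, or_false] at hg
      rcases hg with rfl | rfl | rfl
      · exact hw
      · exact hp
      · exact hc _
    · exact ⟨1, rfl⟩
    · simp
  have ow : LR P (fun _ w => om w) := hw.om
  have op : LR P (fun t _ => om (p.eval t)) := hp.om
  have oe : ∀ (φ : ℂ → ℂ → ℂ) (c : ℂ), LR P φ → LR P (fun t w => EE (φ t w) c) := by
    intro φ c hφ
    refine ((((hφ.pow 2).add (hφ.mul (LR.const c))).add (LR.const (c^2))).sub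
      (LR.const 3)).congr fun t w _ _ => ?_
    unfold Pool.Agent.NH38.Step.EE
    rfl
  have os : ∀ (φ : ℂ → ℂ → ℂ) (c : ℂ), LR P φ → LR P (fun t w => φ t w - c) := fun φ c hφ =>
    hφ.sub (LR.const c)
  have q1 : LR P (fun t w => ∏ j ∈ s, EE (om w) (om (x j)) * (om (p.eval t) - om (x j))) :=
    LR.prod s (fun j t w => EE (om w) (om (x j)) * (om (p.eval t) - om (x j)))
      fun j _ => (oe _ _ ow).mul (os _ _ op)
  have q2 : LR P (fun t w => ∏ j ∈ s, EE (om (p.eval t)) (om (x j)) * (om w - om (x j))) :=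
    LR.prod s (fun j t w => EE (om (p.eval t)) (om (x j)) * (om w - om (x j)))
      fun j _ => (oe _ _ op).mul (os _ _ ow)
  have q3 : ∀ i, LR P (fun t w => ∏ j ∈ s.erase i, (om w - om (x j)) *
      (om (p.eval t) - om (x j))) := fun i =>
    LR.prod (s.erase i) (fun j t w => (om w - om (x j)) * (om (p.eval t) - om (x j)))
      fun j _ => (os _ _ ow).mul (os _ _ op)
  have q4 : LR P (fun t w => ∑ i ∈ s, gm x s i *
      (∏ j ∈ s.erase i, (om w - om (x j)) * (om (p.eval t) - om (x j))) * zo (x i :: ev A t) *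
      zo (w :: p.eval t :: x i :: (ev A t ++ prF x (s.erase i)))) :=
    LR.sum s (fun i t w => gm x s i *
      (∏ j ∈ s.erase i, (om w - om (x j)) * (om (p.eval t) - om (x j))) * zo (x i :: ev A t) *
      zo (w :: p.eval t :: x i :: (ev A t ++ prF x (s.erase i)))) fun i _ =>
      ((((LR.const (gm x s i)).mul (q3 i)).mul (z2 _ (hc (x i)))).mul (z4 i))
  exact (((q1.mul (z2 _ hw)).mul (z3 _ hp)).sub ((q2.mul (z2 _ hp)).mul (z3 _ hw))).add
    ((ow.sub op).mul q4)

/-- `Ψ` for the density argument -/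
noncomputable def Psi0 {ι : Type} (x : ι → ℂ) (s : Finset ι) : List ℂ → List ℂ → ℂ → ℂ
  | [], _, _ => 0
  | v :: L, _, w => MIe x s L w v

theorem mi {ι : Type} (x : ι → ℂ) (hx : Gen x) (s : Finset ι) (L : List ℂ) (w v : ℂ)
    (hL : Even L.length) (hL0 : NZ L) (hw : w ≠ 0) (hv : v ≠ 0) : MIe x s L w v = 0 := by
  refine t_DEN (L.length + 1) 0 (Psi0 x s) (fun A _ w => zs (w :: A)) ?_ ?_ ?_ ?_ (v :: L) []
    (List.length_cons) rfl (nz_cons hv hL0) (by simp [NZ]) w hw
  · intro A B hA hB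
    rcases A with _ | ⟨p, A⟩
    · simp at hA
    · have hA' : A.length = L.length := by simpa using hA
      have h := MI_reg x hx s A p (by rw [hA']; exact hL) ((p :: A) ++ B).prod
        (left_dvd (p :: A) B)
      exact h
  · intro A B hA hB
    refine LR_zs' ((fun _ w => w) :: fn A) ?_ ?_ _ ?_
    · intro f hf
      rcases List.mem_cons.mp hf with rfl | hf
      · exact UL.var
      · exact fn_UL (left_dvd A B) f hf
    · rw [List.length_cons, fn_length, hA]
      exact (hL.add_one).add_one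
    · intro t w
      rw [List.map_cons, fn_ev]
  · refine ⟨on (L.length + 1), [], 1, M8.on_length _, rfl, M8.NZ_on _, by simp [NZ], one_ne_zero,
      ?_⟩
    have h := M8.zs_on_ne 1 (L.length + 1) (by
      rw [add_comm]; exact (hL.add_one).add_one)
    exact h
  · intro A B hA hB hA0 hB0 w' hw'
    rcases A with _ | ⟨v', L'⟩
    · simp at hA
    · have hL' : L'.length = L.length := by simpa using hA
      exact mul_MI x hx s L' w' v' (by rw [hL']; exact hL)
        (fun z hz => hA0 z (List.mem_cons_of_mem v' hz)) hw' (hA0 v' (by simp))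

end L

/-- L1 -/
theorem t1_MI : S1_MI := by
  classical
  intro ι x hx s M w v hM hM0 hw hv
  have h := L.mi x hx s M w v hM hM0 hw hv
  unfold L.MIe at h
  exact h

/-- L2 -/
theorem t1_MZ : S1_MZ := by
  intro ι x hx s C w hC hC0 hw
  exact L.mz x hx s C w hC hC0 hw

end Pool.Agent.H966.T1
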