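import Pool.Agent.H966.T1.Stubs
import Pool.Graph.R_pool_sql_team_seeded_3dad9d7b.NH38.Fork.Q2
import Pool.Graph.R_seed8.H988R2.Perc.T13

/-!
Forked channels of even width, both inner walls: mirror symmetry (subtask T1-MIR, helper321).
-/

namespace Pool.Agent.H966.T1

open Pool.Agent.H988R2.Perc hiding X
open Pool.Agent.H492C (comb comb2 pairG up1 jn)
open Pool.Agent.NH38.Step (om prs)
open Pool.Agent.NH38.Fork (cst NZ mm zo na)
open Pool.Agent.NH38.Fork.Q2 (combL pairL combL_apply pairL_apply)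

namespace MIR

/-- the state only relates faces `< n` -/
def Sup (n : ℕ) (R : St) : Prop := ∀ a b, R.rel a b → a = b ∨ (a < n ∧ b < n)

theorem mir_mir {N : ℕ} (hN : Even N) {R : St} (hR : Sup N R) : mir N (mir N R) = R := by
  obtain ⟨M, hM⟩ := hN
  ext x y
  show (x = y ∨ (x % 2 = 1 ∧ y % 2 = 1 ∧ x ≤ N ∧ y ≤ N ∧ (N - x = N - y ∨ ((N - x) % 2 = 1 ∧
    (N - y) % 2 = 1 ∧ N - x ≤ N ∧ N - y ≤ N ∧ R.rel (N - (N - x)) (N - (N - y)))))) ↔ _
  constructor
  · rintro (h | ⟨h1, h2, h3, h4, h | ⟨_, _, _, _, h⟩⟩)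
    · subst h; exact R.eqv.1 _
    · have : x = y := by omega
      subst this; exact R.eqv.1 _
    · rwa [Nat.sub_sub_self h3, Nat.sub_sub_self h4] at h
  · intro h
    rcases R.odd _ _ h with h1 | ⟨h1, h2⟩
    · exact Or.inl h1
    rcases hR _ _ h with h3 | ⟨h3, h4⟩
    · exact Or.inl h3
    refine Or.inr ⟨h1, h2, h3.le, h4.le, Or.inr ⟨by omega, by omega, by omega, by omega, ?_⟩⟩
    rwa [Nat.sub_sub_self h3.le, Nat.sub_sub_self h4.le]

theorem jn_mir_aux {N : ℕ} {R R' : St} {p r : ℕ}
    (h : jn p r (mir N R) (mir N R')) :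
    p = r ∨ (p ≤ N ∧ r ≤ N ∧ jn (N - p) (N - r) R R') := by
  unfold jn at h
  induction h with
  | rel x y h =>
    rcases h with (h | ⟨_, _, h1, h2, h3⟩) | (h | ⟨_, _, h1, h2, h3⟩)
    · exact Or.inl h
    · exact Or.inr ⟨h1, h2, Relation.EqvGen.rel _ _ (Or.inl h3)⟩
    · exact Or.inl h
    · exact Or.inr ⟨h1, h2, Relation.EqvGen.rel _ _ (Or.inr h3)⟩
  | refl x => exact Or.inl rfl
  | symm x y _ ih =>
    rcases ih with h | ⟨h1, h2, h3⟩
    · exact Or.inl h.symm
    · exact Or.inr ⟨h2, h1, Relation.EqvGen.symm _ _ h3⟩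
  | trans x y z _ _ ih1 ih2 =>
    rcases ih1 with h | ⟨h1, h2, h3⟩
    · subst h; exact ih2
    · rcases ih2 with k | ⟨k1, k2, k3⟩
      · subst k; exact Or.inr ⟨h1, h2, h3⟩
      · exact Or.inr ⟨h1, k2, Relation.EqvGen.trans _ _ _ h3 k3⟩

theorem jn_mir {N : ℕ} (hN : Even N) {R R' : St} (hR : Sup N R) (hR' : Sup N R') {p r : ℕ}
    (hp : p ≤ N) (hr : r ≤ N) : jn (N - p) (N - r) (mir N R) (mir N R') ↔ jn p r R R' := by
  constructor
  · intro h
    rcases jn_mir_aux h with h | ⟨_, _, h⟩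
    · have : p = r := by omega
      subst this; exact Relation.EqvGen.refl _
    · rwa [Nat.sub_sub_self hp, Nat.sub_sub_self hr] at h
  · intro h
    rw [← mir_mir hN hR, ← mir_mir hN hR'] at h
    rcases jn_mir_aux h with h | ⟨_, _, h⟩
    · subst h; exact Relation.EqvGen.refl _
    · exact h

theorem jn_comm {R R' : St} {p r : ℕ} : jn p r R R' ↔ jn r p R R' :=
  ⟨fun h => Relation.EqvGen.symm _ _ h, fun h => Relation.EqvGen.symm _ _ h⟩

theorem mir_comb {a b m N : ℕ} (ha : Odd a) (hb : Odd b) (hN : N = a + 2*m + b + 2) {R R' : St}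
    (hR : Sup (a+1) R) (hR' : Sup (b+1) R') :
    mir N (comb ((a+1)/2) R (comb m St.bot R')) =
      comb ((b+1)/2) (mir (b+1) R') (comb m St.bot (mir (a+1) R)) := by
  obtain ⟨a', rfl⟩ := ha
  obtain ⟨b', rfl⟩ := hb
  have e1 : 2 * ((2*a'+1+1)/2) = 2*a'+2 := by omega
  have e2 : 2 * ((2*b'+1+1)/2) = 2*b'+2 := by omega
  subst hN
  ext x y
  simp only [mir, comb, St.bot, e1, e2]
  constructor
  · rintro (h | ⟨h1, h2, h3, h4, h | ⟨h5, h6, h7⟩ | ⟨h5, h6, h | ⟨_, _, h⟩ | ⟨h7, h8, h9⟩⟩⟩)
    · exact Or.inl h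
    · left; omega
    · rcases R.odd _ _ h7 with h8 | ⟨h8, h9⟩
      · left; omega
      refine Or.inr (Or.inr ⟨by omega, by omega, Or.inr (Or.inr ⟨by omega, by omega, Or.inr
        ⟨by omega, by omega, by omega, by omega, ?_⟩⟩)⟩)
      have i1 : 2*a'+1+1 - (x - (2*b'+2) - 2*m) = 2*a'+1+2*m+(2*b'+1)+2-x := by omega
      have i2 : 2*a'+1+1 - (y - (2*b'+2) - 2*m) = 2*a'+1+2*m+(2*b'+1)+2-y := by omega
      rw [i1, i2]; exact h7
    · left; omega
    · left; omega
    · rcases R'.odd _ _ h9 with h10 | ⟨h10, h11⟩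
      · left; omega
      have k1 := hR' _ _ h9
      by_cases hxy : x = y
      · exact Or.inl hxy
      refine Or.inr (Or.inl ⟨by omega, by omega, Or.inr ⟨by omega, by omega, by omega, by omega, ?_⟩⟩)
      have i1 : 2*b'+1+1 - x = 2*a'+1+2*m+(2*b'+1)+2-x - (2*a'+2) - 2*m := by omega
      have i2 : 2*b'+1+1 - y = 2*a'+1+2*m+(2*b'+1)+2-y - (2*a'+2) - 2*m := by omega
      rw [i1, i2]; exact h9
  · rintro (h | ⟨h1, h2, h | ⟨h3, h4, h5, h6, h7⟩⟩ | ⟨h1, h2, h | ⟨_, _, h⟩ | ⟨h3, h4, h |
      ⟨h5, h6, h7, h8, h9⟩⟩⟩)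
    · exact Or.inl h
    · exact Or.inl h
    · rcases R'.odd _ _ h7 with h8 | ⟨h8, h9⟩
      · left; omega
      refine Or.inr ⟨by omega, by omega, by omega, by omega, Or.inr (Or.inr ⟨by omega, by omega,
        Or.inr (Or.inr ⟨by omega, by omega, ?_⟩)⟩)⟩
      have i1 : 2*b'+1+1 - x = 2*a'+1+2*m+(2*b'+1)+2-x - (2*a'+2) - 2*m := by omega
      have i2 : 2*b'+1+1 - y = 2*a'+1+2*m+(2*b'+1)+2-y - (2*a'+2) - 2*m := by omega
      rw [← i1, ← i2]; exact h7
    · left; omega
    · left; omega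
    · left; omega
    · rcases R.odd _ _ h9 with h10 | ⟨h10, h11⟩
      · left; omega
      have k1 := hR _ _ h9
      by_cases hxy : x = y
      · exact Or.inl hxy
      refine Or.inr ⟨by omega, by omega, by omega, by omega, Or.inr (Or.inl ⟨by omega, by omega, ?_⟩)⟩
      have i1 : 2*a'+1+1 - (x - (2*b'+2) - 2*m) = 2*a'+1+2*m+(2*b'+1)+2-x := by omega
      have i2 : 2*a'+1+1 - (y - (2*b'+2) - 2*m) = 2*a'+1+2*m+(2*b'+1)+2-y := by omega
      rw [← i1, ← i2]; exact h9

/-! ### bilinear maps -/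

theorem bil_ext {E : Type} [AddCommMonoid E] [Module ℂ E] {P Q : St → Prop}
    (T T' : (St →₀ ℂ) →ₗ[ℂ] (St →₀ ℂ) →ₗ[ℂ] E)
    (h : ∀ R R', P R → Q R' → T (Finsupp.single R 1) (Finsupp.single R' 1) =
      T' (Finsupp.single R 1) (Finsupp.single R' 1)) (f g : St →₀ ℂ)
    (hf : ∀ R ∈ f.support, P R) (hg : ∀ R ∈ g.support, Q R) : T f g = T' f g := by
  have e : ∀ f : St →₀ ℂ, f = ∑ R ∈ f.support, f R • Finsupp.single R 1 := by
    intro f
    conv_lhs => rw [← Finsupp.sum_single f]
    unfold Finsupp.sum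
    refine Finset.sum_congr rfl fun R _ => ?_
    rw [Finsupp.smul_single, smul_eq_mul, mul_one]
  rw [e f, e g]
  simp only [map_sum, map_smul, LinearMap.sum_apply, LinearMap.smul_apply]
  refine Finset.sum_congr rfl fun R hR => ?_
  congr 1
  refine Finset.sum_congr rfl fun R' hR' => ?_
  rw [h R' R (hf R' hR') (hg R hR)]

theorem comb2_single_single (k : ℕ) (R R' : St) :
    comb2 k (Finsupp.single R 1) (Finsupp.single R' 1) = Finsupp.single (comb k R R') 1 := by
  unfold comb2
  rw [Finsupp.sum_single_index (by simp), Finsupp.sum_single_index (by simp), mul_one]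

open Classical in
theorem pairG_single_single (p r : ℕ) (R R' : St) :
    pairG p r (Finsupp.single R 1) (Finsupp.single R' 1) = if jn p r R R' then 1 else 0 := by
  unfold pairG
  rw [Finsupp.sum_single_index (by simp), Finsupp.sum_single_index (by simp)]
  simp

theorem pairG_mir {N : ℕ} (hN : Even N) {p r : ℕ} (hp : p ≤ N) (hr : r ≤ N) (f g : St →₀ ℂ)
    (hf : ∀ R ∈ f.support, Sup N R) (hg : ∀ R ∈ g.support, Sup N R) :
    pairG (N - p) (N - r) (Finsupp.mapDomain (mir N) f) (Finsupp.mapDomain (mir N) g) =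
      pairG p r f g := by
  have := bil_ext (P := Sup N) (Q := Sup N)
    ((pairL (N - p) (N - r)).compl₁₂ (Finsupp.lmapDomain ℂ ℂ (mir N)) (Finsupp.lmapDomain ℂ ℂ (mir N)))
    (pairL p r) ?_ f g hf hg
  · exact this
  · intro R R' hR hR'
    show pairG _ _ (Finsupp.mapDomain _ _) (Finsupp.mapDomain _ _) = pairG _ _ _ _
    rw [Finsupp.mapDomain_single, Finsupp.mapDomain_single, pairG_single_single,
      pairG_single_single]
    classical
    exact if_congr (jn_mir hN hR hR' hp hr) rfl rfl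

theorem pairG_comm (p r : ℕ) (f g : St →₀ ℂ) : pairG p r f g = pairG r p f g := by
  unfold pairG
  refine Finset.sum_congr rfl fun R _ => Finset.sum_congr rfl fun R' _ => ?_
  dsimp only
  congr 1
  classical
  exact if_congr jn_comm rfl rfl

theorem map_mir_mir {N : ℕ} (hN : Even N) (f : St →₀ ℂ) (hf : ∀ R ∈ f.support, Sup N R) :
    Finsupp.mapDomain (mir N) (Finsupp.mapDomain (mir N) f) = f := by
  rw [← Finsupp.mapDomain_comp]
  conv_rhs => rw [← Finsupp.mapDomain_id (v := f)]
  exact Finsupp.mapDomain_congr fun R hR => mir_mir hN (hf R hR)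

theorem map_mir_comb2 {a b m N : ℕ} (ha : Odd a) (hb : Odd b) (hN : N = a + 2*m + b + 2)
    (f g : St →₀ ℂ) (hf : ∀ R ∈ f.support, Sup (a+1) R) (hg : ∀ R ∈ g.support, Sup (b+1) R) :
    Finsupp.mapDomain (mir N) (comb2 ((a+1)/2) f (comb2 m (Finsupp.single St.bot 1) g)) =
      comb2 ((b+1)/2) (Finsupp.mapDomain (mir (b+1)) g)
        (comb2 m (Finsupp.single St.bot 1) (Finsupp.mapDomain (mir (a+1)) f)) := by
  have := bil_ext (P := Sup (a+1)) (Q := Sup (b+1))
    (((combL ((a+1)/2)).compl₁₂ LinearMap.id (combL m (Finsupp.single St.bot 1))).compr₂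
      (Finsupp.lmapDomain ℂ ℂ (mir N)))
    (((combL ((b+1)/2)).compl₁₂ (Finsupp.lmapDomain ℂ ℂ (mir (b+1)))
      ((combL m (Finsupp.single St.bot 1)).comp (Finsupp.lmapDomain ℂ ℂ (mir (a+1))))).flip)
    ?_ f g hf hg
  · exact this
  · intro R R' hR hR'
    show Finsupp.mapDomain (mir N) (comb2 ((a+1)/2) (Finsupp.single R 1)
        (comb2 m (Finsupp.single St.bot 1) (Finsupp.single R' 1))) =
      comb2 ((b+1)/2) (Finsupp.mapDomain (mir (b+1)) (Finsupp.single R' 1))
        (comb2 m (Finsupp.single St.bot 1) (Finsupp.mapDomain (mir (a+1)) (Finsupp.single R 1)))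
    rw [Finsupp.mapDomain_single, Finsupp.mapDomain_single, comb2_single_single,
      comb2_single_single, comb2_single_single, comb2_single_single, Finsupp.mapDomain_single,
      mir_comb ha hb hN hR hR']

theorem sup_map {N : ℕ} (hN : Even N) (f : St →₀ ℂ) :
    ∀ R ∈ (Finsupp.mapDomain (mir N) f).support, Sup N R := by
  classical
  intro R hR
  have := Finsupp.mapDomain_support hR
  rw [Finset.mem_image] at this
  obtain ⟨S, _, rfl⟩ := this
  obtain ⟨M, hM⟩ := hN
  rintro x y (h | ⟨h1, h2, h3, h4, _⟩)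
  · exact Or.inl h
  · right; omega

theorem sup_comb2 {a b m N : ℕ} (ha : Odd a) (hb : Odd b) (hN : N = a + 2*m + b + 2)
    (f g : St →₀ ℂ) (hf : ∀ R ∈ f.support, Sup (a+1) R) (hg : ∀ R ∈ g.support, Sup (b+1) R) :
    ∀ R ∈ (comb2 ((a+1)/2) f (comb2 m (Finsupp.single St.bot 1) g)).support, Sup N R := by
  have h := map_mir_comb2 (N := N) (m := m) hb ha (by omega) (Finsupp.mapDomain (mir (b+1)) g)
    (Finsupp.mapDomain (mir (a+1)) f) (sup_map hb.add_one _) (sup_map ha.add_one _)
  rw [map_mir_mir ha.add_one _ hf, map_mir_mir hb.add_one _ hg] at h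
  rw [← h]
  refine sup_map ?_ _
  obtain ⟨i, hi⟩ := ha; obtain ⟨j, hj⟩ := hb; exact ⟨i + j + m + 2, by omega⟩

theorem Psi_sup {l : List ℂ} (h : Even l.length) : ∀ R ∈ (Psi l).support, Sup l.length R :=
  fun R hR a b hab => Psi_supp l h R hR a b hab

/-! ### lists -/

theorem prs_length (X : List ℂ) : (prs X).length = 2 * X.length := by
  unfold prs
  induction X with
  | nil => rfl
  | cons x X ih =>
    rw [List.flatMap_cons, List.length_append, ih]
    simp; ring

theorem prs_prod {X : List ℂ} (hX : NZ X) : (prs X).prod = 1 := by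
  unfold prs
  induction X with
  | nil => rfl
  | cons x X ih =>
    rw [List.flatMap_cons, List.prod_append, ih fun z hz => hX z (List.mem_cons_of_mem _ hz)]
    have := hX x List.mem_cons_self
    simp [this]

theorem prs_mir (X : List ℂ) : ((prs X).map (fun x => x⁻¹)).reverse = prs X.reverse := by
  unfold prs
  induction X with
  | nil => rfl
  | cons x X ih =>
    rw [List.flatMap_cons, List.map_append, List.reverse_append, ih, List.reverse_cons,
      List.flatMap_append]
    simp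

theorem inv_inv_list (A : List ℂ) : (A.map (fun x => x⁻¹)).map (fun x => x⁻¹) = A := by
  rw [List.map_map]
  conv_rhs => rw [← List.map_id A]
  exact List.map_congr_left fun x _ => by simp

theorem inv_prod (A : List ℂ) : (A.map (fun x => x⁻¹)).prod = (A.prod)⁻¹ := by
  induction A with
  | nil => simp
  | cons x A ih => rw [List.map_cons, List.prod_cons, List.prod_cons, ih, mul_inv]

theorem NZ_prod {A : List ℂ} (hA : NZ A) : A.prod ≠ 0 := by
  intro h
  rw [List.prod_eq_zero_iff] at h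
  exact hA 0 h rfl

theorem NZ_inv {A : List ℂ} (hA : NZ A) : NZ (A.map (fun x => x⁻¹)) := by
  intro z hz
  rw [List.mem_map] at hz
  obtain ⟨x, hx, rfl⟩ := hz
  exact inv_ne_zero (hA x hx)

theorem NZ_rev {A : List ℂ} (hA : NZ A) : NZ A.reverse := fun z hz => hA z (List.mem_reverse.1 hz)

theorem NZ_prs {X : List ℂ} (hX : NZ X) : NZ (prs X) := by
  intro z hz
  unfold prs at hz
  rw [List.mem_flatMap] at hz
  obtain ⟨x, hx, hz⟩ := hz
  have := hX x hx
  simp only [List.mem_cons, List.not_mem_nil, or_false] at hz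
  rcases hz with rfl | rfl
  · exact this
  · exact inv_ne_zero this

/-! ### the mirror image of the amplitude -/

theorem E1_mir (h1 : S1_PsiM) (h2 : S1_PsiM0) (A X B : List ℂ) (w v : ℂ) (hA : Odd A.length)
    (hB : Odd B.length) (nA : NZ A) (nX : NZ X) (nB : NZ B) (hw : w ≠ 0) (hv : v ≠ 0) :
    E1 A X B w v * (A.prod^(A.length - 1) * B.prod^(B.length - 1)) =
      (A.prod * B.prod * (w * v))^(A.length + B.length + 2*X.length) *
      E1 (B.map (fun x => x⁻¹)).reverse X.reverse (A.map (fun x => x⁻¹)).reverse v⁻¹ w⁻¹ := by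
  set a := A.length with ha
  set b := B.length with hb
  set m := X.length with hm
  set A' := (A.map (fun x => x⁻¹)).reverse with hA'
  set B' := (B.map (fun x => x⁻¹)).reverse with hB'
  have lA' : A'.length = a := by simp [hA', ha]
  have lB' : B'.length = b := by simp [hB', hb]
  set l := A ++ w :: (prs X ++ v :: B) with hl
  set l' := B' ++ v⁻¹ :: (prs X.reverse ++ w⁻¹ :: A') with hl'
  have ll : l.length = a + 2*m + b + 2 := by
    simp only [hl, List.length_append, List.length_cons, prs_length]; omega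
  have ll' : l'.length = a + 2*m + b + 2 := by
    simp only [hl', List.length_append, List.length_cons, prs_length, lA', lB', List.length_reverse]
    omega
  have hrev : (l.map (fun x => x⁻¹)).reverse = l' := by
    rw [hl, hl', hA', hB']
    simp only [List.map_append, List.map_cons, List.reverse_append, List.reverse_cons, ← prs_mir]
    simp
  have hN : Even (a + 2*m + b + 2) := by
    obtain ⟨i, hi⟩ := hA; obtain ⟨j, hj⟩ := hB; exact ⟨i + j + m + 2, by omega⟩
  have nl : NZ l := by
    intro z hz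
    simp only [hl, List.mem_append, List.mem_cons] at hz
    rcases hz with hz | rfl | hz | rfl | hz
    · exact nA z hz
    · exact hw
    · exact NZ_prs nX z hz
    · exact hv
    · exact nB z hz
  have pl : l.prod = A.prod * B.prod * (w * v) := by
    simp only [hl, List.prod_append, List.prod_cons, prs_prod nX]; ring
  -- the lower vector
  have e1 : Psi l = (A.prod * B.prod * (w * v))^(a + b + 2*m) •
      Finsupp.mapDomain (mir (a + 2*m + b + 2)) (Psi l') := by
    have := h1 l (by rw [ll]; exact hN) nl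
    rw [hrev, pl, ll] at this
    rw [this]
    congr 2; omega
  -- the right arm
  have e2 : Finsupp.mapDomain (mir (b+1)) (Psi (0 :: B.map (fun x => x⁻¹))) =
      ((B.prod)⁻¹)^(b-1) • Psi (B.reverse ++ [0]) := by
    have := h2 (B.map (fun x => x⁻¹)) (by simpa using hB) (NZ_inv nB)
    rw [inv_inv_list, inv_prod] at this
    simp only [List.length_map, ← hb] at this
    rw [this, Finsupp.mapDomain_smul, map_mir_mir]
    · exact hB.add_one
    · have h3 : (B.reverse ++ [0]).length = b + 1 := by simp [hb]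
      have h4 := Psi_sup (l := B.reverse ++ [0]) (by rw [h3]; exact hB.add_one)
      rwa [h3] at h4
  -- the left arm
  have e3 : (A.prod)^(a-1) • Finsupp.mapDomain (mir (a+1)) (up1 A) = Psi (0 :: A.reverse) := by
    have := h2 A.reverse (by simpa using hA) (NZ_rev nA)
    rw [this]
    simp only [List.length_reverse, ← ha, List.prod_reverse, List.map_reverse, List.reverse_reverse]
    rfl
  have sA : ∀ R ∈ (up1 A).support, Sup (a+1) R := by
    have h3 : (A.map (fun x => x⁻¹) ++ [0]).length = a + 1 := by simp [ha]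
    have h4 := Psi_sup (l := A.map (fun x => x⁻¹) ++ [0]) (by rw [h3]; exact hA.add_one)
    rwa [h3] at h4
  have sB : ∀ R ∈ (Psi (0 :: B.map (fun x => x⁻¹))).support, Sup (b+1) R := by
    have h3 : (0 :: B.map (fun x => x⁻¹)).length = b + 1 := by simp [hb]
    have h4 := Psi_sup (l := 0 :: B.map (fun x => x⁻¹)) (by rw [h3]; exact hB.add_one)
    rwa [h3] at h4
  -- the upper vector
  have e4 : (A.prod^(a-1) * B.prod^(b-1)) •
      Finsupp.mapDomain (mir (a + 2*m + b + 2)) (U1 A m B) = U1 B' m A' := by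
    unfold U1
    rw [← ha, map_mir_comb2 hA hB rfl _ _ sA sB, e2, H492C.comb2_smul_left, smul_smul]
    have h5 : (A.prod^(a-1) * B.prod^(b-1)) * ((B.prod)⁻¹)^(b-1) = A.prod^(a-1) := by
      have := NZ_prod nB
      rw [inv_pow, mul_assoc, mul_inv_cancel₀ (pow_ne_zero _ this), mul_one]
    have h6 : (B'.length + 1)/2 = (b+1)/2 := by rw [lB']
    have h7 : up1 B' = Psi (B.reverse ++ [0]) := by
      unfold up1
      rw [hB', List.map_reverse, inv_inv_list]
    have h8 : A'.map (fun x => x⁻¹) = A.reverse := by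
      rw [hA', List.map_reverse, inv_inv_list]
    rw [h5, h6, h7, h8, ← e3, H492C.comb2_smul_right, H492C.comb2_smul_right]
  -- the pairing
  have sl' : ∀ R ∈ (Psi l').support, Sup (a + 2*m + b + 2) R := by
    have := Psi_sup (l := l') (by rw [ll']; exact hN)
    rwa [ll'] at this
  have sU : ∀ R ∈ (U1 A m B).support, Sup (a + 2*m + b + 2) R := sup_comb2 hA hB rfl _ _ sA sB
  have e5 : E1 B' X.reverse A' v⁻¹ w⁻¹ = (A.prod^(a-1) * B.prod^(b-1)) *
      pairG (a + 2*m + 2) a (Finsupp.mapDomain (mir (a + 2*m + b + 2)) (Psi l'))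
        (U1 A m B) := by
    unfold E1
    rw [← hl', lB', List.length_reverse, ← hm, ← e4, H492C.G1w.pairG_smul_right]
    congr 1
    rw [← pairG_mir hN (p := b) (r := b + 2*m + 2) (by omega) (by omega) _ _ sl' (sup_map hN _),
      map_mir_mir hN _ sU]
    congr 1 <;> omega
  rw [e5]
  unfold E1
  rw [← hl, ← ha, ← hm, e1, H492C.G1w.pairG_smul_left, pairG_comm]
  ring

theorem eh_mir (h1 : S1_PsiM) (h2 : S1_PsiM0) (A X B : List ℂ) (w v : ℂ) (hA : Odd A.length)
    (hB : Odd B.length) (nA : NZ A) (nX : NZ X) (nB : NZ B) (hw : w ≠ 0) (hv : v ≠ 0) :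
    eh A X B w v =
      eh (B.map (fun x => x⁻¹)).reverse X.reverse (A.map (fun x => x⁻¹)).reverse v⁻¹ w⁻¹ := by
  have h := E1_mir h1 h2 A X B w v hA hB nA nX nB hw hv
  have pA := NZ_prod nA
  have pB := NZ_prod nB
  unfold eh cst
  simp only [List.length_reverse, List.length_map, List.prod_reverse, inv_prod]
  set E := E1 A X B w v
  set E' := E1 (B.map (fun x => x⁻¹)).reverse X.reverse (A.map (fun x => x⁻¹)).reverse v⁻¹ w⁻¹
  obtain ⟨i, hi⟩ := hA
  obtain ⟨j, hj⟩ := hB
  rw [hi, hj] at h ⊢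
  have i1 : 2*i+1-1 = 2*i := by omega
  have i2 : 2*j+1-1 = 2*j := by omega
  have i3 : (2*i+1 + (2*j+1))/2 = i+j+1 := by omega
  have i4 : (2*j+1 + (2*i+1))/2 = i+j+1 := by omega
  have i5 : (2*i+1+1)/2 = i+1 := by omega
  have i6 : (2*j+1+1)/2 = j+1 := by omega
  rw [i1, i2] at h
  rw [i3, i4, i5, i6]
  have hq := q_ne_zero
  have na' : na (A.map (fun x => x⁻¹)).reverse = na A := by unfold na; simp
  have nb' : na (B.map (fun x => x⁻¹)).reverse = na B := by unfold na; simp
  rw [na', nb', add_comm (na B) (na A)]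
  set Q := q^((i+j+1+X.length+1)*(i+j+1+X.length) + (na A + na B)) with hQ
  have hQ0 : Q ≠ 0 := pow_ne_zero _ hq
  set k := X.length
  have e : E = (A.prod * B.prod * (w * v))^(2*i+1+(2*j+1)+2*k) * E' /
      (A.prod^(2*i) * B.prod^(2*j)) := by
    rw [eq_div_iff (by positivity), h]
  have e' : v⁻¹ * w⁻¹ = (w * v)⁻¹ := by rw [mul_inv, mul_comm]
  rw [e, e']
  have pw : w * v ≠ 0 := mul_ne_zero hw hv
  set y := w * v
  set α := A.prod
  set β := B.prod
  simp only [inv_pow]
  field_simp
  ring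

end MIR

open MIR

theorem t1_mir (h1 : S1_PsiM) (h2 : S1_PsiM0) (h3 : S1_perm) (h4 : S1_invB) (h5 : S1_permX) :
    S1_mir := by
  -- inversion of several elements of the right arm
  have inv : ∀ (A X : List ℂ) (w v : ℂ), Odd A.length → NZ A → NZ X → w ≠ 0 → v ≠ 0 →
      ∀ C D : List ℂ, Odd (C.length + D.length) → NZ C → NZ D →
      eh A X (C ++ D) w v = eh A X (C.map (fun x => x⁻¹) ++ D) w v := by
    intro A X w v hA nA nX hw hv C
    induction C with
    | nil => intro D _ _ _; rfl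
    | cons y C ih =>
      intro D hD nC nD
      have hy : y ≠ 0 := nC y List.mem_cons_self
      have nC' : NZ C := fun z hz => nC z (List.mem_cons_of_mem _ hz)
      have hl : Even (C ++ D).length := by
        rw [List.length_append]
        rw [List.length_cons] at hD
        obtain ⟨i, hi⟩ := hD
        exact ⟨i, by omega⟩
      have nCD : NZ (C ++ D) := fun z hz => (List.mem_append.1 hz).elim (nC' z) (nD z)
      have nI : NZ (y⁻¹ :: (C ++ D)) := by
        intro z hz
        rcases List.mem_cons.1 hz with rfl | hz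
        · exact inv_ne_zero hy
        · exact nCD z hz
      have nID : NZ (y⁻¹ :: D) := by
        intro z hz
        rcases List.mem_cons.1 hz with rfl | hz
        · exact inv_ne_zero hy
        · exact nD z hz
      rw [List.cons_append, h4 A X (C ++ D) y hA hl nA nX nCD hy w v hw hv,
        h3 A A X (y⁻¹ :: (C ++ D)) (C ++ (y⁻¹ :: D)) hA
          (by rw [List.length_cons]; exact hl.add_one) nA nX nI (List.Perm.refl _)
          List.perm_middle.symm w v hw hv,
        ih (y⁻¹ :: D) (by simp only [List.length_cons] at hD ⊢; convert hD using 1; ring) nC' nID,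
        h3 A A X (C.map (fun x => x⁻¹) ++ (y⁻¹ :: D)) (y⁻¹ :: (C.map (fun x => x⁻¹) ++ D)) hA ?_ nA nX
          ?_ (List.Perm.refl _) List.perm_middle w v hw hv]
      · rfl
      · simp only [List.length_append, List.length_map, List.length_cons] at hD ⊢
        convert hD using 1; ring
      · intro z hz
        rcases List.mem_append.1 hz with hz | hz
        · exact NZ_inv nC' z hz
        · exact nID z hz
  have invr : ∀ (A X B : List ℂ) (w v : ℂ), Odd A.length → Odd B.length → NZ A → NZ X → NZ B →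
      w ≠ 0 → v ≠ 0 → eh A X B w v = eh A X (B.map (fun x => x⁻¹)).reverse w v := by
    intro A X B w v hA hB nA nX nB hw hv
    have h := inv A X w v hA nA nX hw hv B [] (by simpa using hB) nB (fun z hz => by simp at hz)
    rw [List.append_nil, List.append_nil] at h
    rw [h]
    exact h3 A A X _ _ hA (by simpa using hB) nA nX (NZ_inv nB) (List.Perm.refl _)
      (List.reverse_perm _).symm w v hw hv
  intro A X B w v hA hB nA nX nB hw hv
  rw [invr A X B w v hA hB nA nX nB hw hv,
    eh_mir h1 h2 A X _ w v hA (by simpa using hB) nA nX (NZ_rev (NZ_inv nB)) hw hv,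
    List.map_reverse, List.reverse_reverse, inv_inv_list,
    ← invr B X.reverse A v⁻¹ w⁻¹ hB hA nB (NZ_rev nX) nA (inv_ne_zero hv) (inv_ne_zero hw)]
  exact h5 B X.reverse X A hB hA nB (NZ_rev nX) nA (List.reverse_perm X) v⁻¹ w⁻¹ (inv_ne_zero hv)
    (inv_ne_zero hw)

end Pool.Agent.H966.T1
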