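import Pool.Agent.H966.T1.Stubs
import Pool.Graph.R_seed8.H988R2.Perc.T19

/-!
Forked channels of even width (helper966): the mirror image of the qKZ vector
(tasks `S1_PsiM`, `S1_PsiM0`; helper331).
-/

namespace Pool.Agent.H966.T1

open Pool.Agent.H988R2.Perc hiding X
open Pool.Agent.NH38.Fork (NZ)
open Polynomial

namespace PM

/-! ## mirror images of states -/

theorem mir_rel (N : ℕ) (R : St) (x y : ℕ) : (mir N R).rel x y ↔
    (x = y ∨ (x % 2 = 1 ∧ y % 2 = 1 ∧ x ≤ N ∧ y ≤ N ∧ R.rel (N - x) (N - y))) := Iff.rfl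

theorem mir_le {N x y : ℕ} (hN : N % 2 = 0) (hx : x ≤ N) (hy : y ≤ N) (R : St) :
    (mir N R).rel x y ↔ R.rel (N - x) (N - y) := by
  rw [mir_rel]
  constructor
  · rintro (rfl | h)
    · exact R.eqv.1 _
    · exact h.2.2.2.2
  · intro h
    rcases R.odd _ _ h with h' | ⟨h1, h2⟩
    · left; omega
    · right; exact ⟨by omega, by omega, hx, hy, h⟩

theorem mir_gt {N x y : ℕ} (h : N < x ∨ N < y) (R : St) : (mir N R).rel x y ↔ x = y := by
  rw [mir_rel]
  constructor
  · rintro (h' | h')
    · exact h'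
    · omega
  · exact Or.inl

theorem mir_act {N i : ℕ} (hN : N % 2 = 0) (hi : i + 2 ≤ N) (R : St) :
    mir N (St.act i R) = St.act (N - 2 - i) (mir N R) := by
  apply St.ext'
  intro x y
  rw [St.act_rel]
  by_cases hxy : x ≤ N ∧ y ≤ N
  · obtain ⟨hx, hy⟩ := hxy
    rw [mir_le hN hx hy, St.act_rel, mir_le hN hx hy, mir_le hN hx (by omega),
      mir_le hN (by omega) hy, mir_le hN hx (by omega), mir_le hN (by omega) hy]
    have e1 : N - (N - 2 - i) = i + 2 := by omega
    have e2 : N - (N - 2 - i + 2) = i := by omega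
    rw [e1, e2]
    constructor
    · rintro (h | ⟨h1, h2, h3, h4, h5⟩)
      · left; omega
      · right
        refine ⟨by omega, by omega, by omega, by omega, ?_⟩
        tauto
    · rintro (h | ⟨h1, h2, h3, h4, h5⟩)
      · left; omega
      · right
        refine ⟨by omega, by omega, by omega, by omega, ?_⟩
        tauto
  · have h0 : N < x ∨ N < y := by omega
    rw [mir_gt h0, mir_gt h0]
    constructor
    · exact Or.inl
    · rintro (h | ⟨h1, h2, h3, h4, h5⟩)
      · exact h
      · rcases h5 with h | ⟨h, k⟩ | ⟨h, k⟩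
        · exact h
        · rcases h0 with h0 | h0
          · rw [mir_gt (Or.inl h0)] at h; omega
          · rw [mir_gt (Or.inr h0)] at k; omega
        · rcases h0 with h0 | h0
          · rw [mir_gt (Or.inl h0)] at h; omega
          · rw [mir_gt (Or.inr h0)] at k; omega

theorem low_mir {N i x : ℕ} (hi : i ≤ N) (hx : x ≤ N + 2) (h : x ≠ N - i + 1) :
    N - St.low (N - i) x = St.low i (N + 2 - x) := by
  unfold St.low
  split_ifs <;> omega

theorem mir_ins {N i : ℕ} (hN : N % 2 = 0) (hi : i ≤ N) (R : St) :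
    mir (N + 2) (St.ins i R) = St.ins (N - i) (mir N R) := by
  apply St.ext'
  intro x y
  rw [St.ins_rel]
  by_cases hxy : x ≤ N + 2 ∧ y ≤ N + 2
  · obtain ⟨hx, hy⟩ := hxy
    have l1 : St.low (N - i) x ≤ N := by unfold St.low; split_ifs <;> omega
    have l2 : St.low (N - i) y ≤ N := by unfold St.low; split_ifs <;> omega
    rw [mir_le (by omega) hx hy, St.ins_rel, mir_le hN l1 l2]
    constructor
    · rintro (h | ⟨h1, h2, h3, h4, h5⟩)
      · left; omega
      · right
        refine ⟨by omega, by omega, by omega, by omega, ?_⟩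
        rw [low_mir hi hx (by omega), low_mir hi hy (by omega)]
        exact h5
    · rintro (h | ⟨h1, h2, h3, h4, h5⟩)
      · left; omega
      · right
        refine ⟨by omega, by omega, by omega, by omega, ?_⟩
        rw [low_mir hi hx h3, low_mir hi hy h4] at h5
        exact h5
  · have h0 : N + 2 < x ∨ N + 2 < y := by omega
    rw [mir_gt h0]
    constructor
    · exact Or.inl
    · rintro (h | ⟨h1, h2, h3, h4, h5⟩)
      · exact h
      · have h6 : N < St.low (N - i) x ∨ N < St.low (N - i) y := by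
          unfold St.low
          rcases h0 with h0 | h0
          · left; rw [if_neg (by omega)]; omega
          · right; rw [if_neg (by omega)]; omega
        rw [mir_gt h6] at h5
        unfold St.low at h5
        split_ifs at h5 <;> omega

theorem mir_bot (N : ℕ) : mir N St.bot = St.bot := by
  apply St.ext'
  intro x y
  rw [mir_rel]
  show _ ↔ x = y
  constructor
  · rintro (h | ⟨_, _, h1, h2, h⟩)
    · exact h
    · have h' : N - x = N - y := h
      omega
  · exact Or.inl

theorem map_mir_act {N i : ℕ} (hN : N % 2 = 0) (hi : i + 2 ≤ N) (f : St →₀ ℂ) :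
    Finsupp.mapDomain (mir N) (Finsupp.mapDomain (St.act i) f) =
      Finsupp.mapDomain (St.act (N - 2 - i)) (Finsupp.mapDomain (mir N) f) := by
  rw [← Finsupp.mapDomain_comp, ← Finsupp.mapDomain_comp]
  congr 1
  funext R
  exact mir_act hN hi R

theorem map_mir_ins {N i : ℕ} (hN : N % 2 = 0) (hi : i ≤ N) (f : St →₀ ℂ) :
    Finsupp.mapDomain (mir (N + 2)) (Finsupp.mapDomain (St.ins i) f) =
      Finsupp.mapDomain (St.ins (N - i)) (Finsupp.mapDomain (mir N) f) := by
  rw [← Finsupp.mapDomain_comp, ← Finsupp.mapDomain_comp]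
  congr 1
  funext R
  exact mir_ins hN hi R

/-! ## the mirror image of the vector -/

/-- the right hand side -/
noncomputable def Mv (l : List ℂ) : St →₀ ℂ :=
  l.prod^(l.length - 2) •
    Finsupp.mapDomain (mir l.length) (Psi (l.map (fun x => x⁻¹)).reverse)

theorem Mv_nil : Mv [] = Finsupp.single St.bot 1 := by
  unfold Mv
  simp only [List.length_nil, List.prod_nil, List.map_nil, List.reverse_nil, one_pow, one_smul]
  rw [Psi_nil, Finsupp.mapDomain_single, mir_bot]

theorem rev2 (u v : List ℂ) (x y : ℂ) : ((u ++ x :: y :: v).map (fun x => x⁻¹)).reverse =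
    (v.map (fun x => x⁻¹)).reverse ++ y⁻¹ :: x⁻¹ :: (u.map (fun x => x⁻¹)).reverse := by
  simp

theorem rev1 (u v : List ℂ) (x : ℂ) : ((u ++ x :: v).map (fun x => x⁻¹)).reverse =
    (v.map (fun x => x⁻¹)).reverse ++ x⁻¹ :: (u.map (fun x => x⁻¹)).reverse := by
  simp

theorem Mv_exch (u v : List ℂ) (x y : ℂ) (h : Even (u.length + v.length)) (hx : x ≠ 0)
    (hy : y ≠ 0) :
    (q * x - q^2 * y) • Mv (u ++ y :: x :: v) =
      (q * y - q^2 * x) • Mv (u ++ x :: y :: v) +
      (y - x) • Finsupp.mapDomain (St.act u.length) (Mv (u ++ x :: y :: v)) := by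
  unfold Mv
  have hl1 : (u ++ y :: x :: v).length = u.length + v.length + 2 := by simp; omega
  have hl2 : (u ++ x :: y :: v).length = u.length + v.length + 2 := by simp; omega
  have hp : (u ++ y :: x :: v).prod = (u ++ x :: y :: v).prod := by
    simp only [List.prod_append, List.prod_cons]; ring
  rw [hl1, hl2, hp, rev2, rev2]
  set U := (v.map (fun x => x⁻¹)).reverse with hU
  set V := (u.map (fun x => x⁻¹)).reverse with hV
  have hUl : U.length = v.length := by rw [hU]; simp
  have hVl : V.length = u.length := by rw [hV]; simp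
  have h1 := Psi_exch U V y⁻¹ x⁻¹ (by rw [hUl, hVl, add_comm]; exact h)
  have h2 : (q * x - q^2 * y) • Psi (U ++ x⁻¹ :: y⁻¹ :: V) =
      (q * y - q^2 * x) • Psi (U ++ y⁻¹ :: x⁻¹ :: V) +
      (y - x) • Finsupp.mapDomain (St.act U.length) (Psi (U ++ y⁻¹ :: x⁻¹ :: V)) := by
    have h3 := congrArg (fun f => (x * y) • f) h1
    simp only [smul_add, smul_smul] at h3
    have e1 : x * y * (q * y⁻¹ - q^2 * x⁻¹) = q * x - q^2 * y := by field_simp
    have e2 : x * y * (q * x⁻¹ - q^2 * y⁻¹) = q * y - q^2 * x := by field_simp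
    have e3 : x * y * (x⁻¹ - y⁻¹) = y - x := by field_simp
    rw [e1, e2, e3] at h3
    exact h3
  have hev : (u.length + v.length + 2) % 2 = 0 := by
    obtain ⟨k, hk⟩ := h; omega
  have h4 := congrArg (Finsupp.mapDomain (mir (u.length + v.length + 2))) h2
  rw [Finsupp.mapDomain_add, Finsupp.mapDomain_smul, Finsupp.mapDomain_smul,
    Finsupp.mapDomain_smul, map_mir_act hev (by omega)] at h4
  have e4 : u.length + v.length + 2 - 2 - U.length = u.length := by omega
  rw [e4] at h4
  rw [Finsupp.mapDomain_smul, smul_comm, h4, smul_add]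
  congr 1
  · rw [smul_comm]
  · rw [smul_comm]

theorem fac_reverse (x : ℂ) (l : List ℂ) : fac x l.reverse = fac x l := by
  unfold fac
  rw [List.map_reverse]
  exact List.prod_reverse _

theorem Mv_rec (u v : List ℂ) (x : ℂ) (h : Even (u.length + v.length)) (hx : x ≠ 0)
    (h0 : NZ (u ++ v)) :
    Mv (u ++ x :: (q^2 * x) :: v) =
      fac x (u ++ v) • Finsupp.mapDomain (St.ins u.length) (Mv (u ++ v)) := by
  unfold Mv
  have hl1 : (u ++ x :: (q^2 * x) :: v).length = u.length + v.length + 2 := by simp; omega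
  have hl2 : (u ++ v).length = u.length + v.length := by simp
  rw [hl1, hl2, rev2, List.map_append, List.reverse_append]
  set U := (v.map (fun x => x⁻¹)).reverse with hU
  set V := (u.map (fun x => x⁻¹)).reverse with hV
  have hUl : U.length = v.length := by rw [hU]; simp
  have hVl : V.length = u.length := by rw [hV]; simp
  have h1 := Psi_rec U V ((q^2 * x)⁻¹) (by rw [hUl, hVl, add_comm]; exact h)
  have e1 : q^2 * (q^2 * x)⁻¹ = x⁻¹ := by
    have hq := q_ne_zero
    field_simp
  rw [e1] at h1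
  rw [h1, Finsupp.mapDomain_smul]
  have hev : (u.length + v.length) % 2 = 0 := by
    obtain ⟨k, hk⟩ := h; omega
  rw [map_mir_ins hev (by omega)]
  have e2 : u.length + v.length - U.length = u.length := by omega
  rw [e2, Finsupp.mapDomain_smul, smul_smul, smul_smul]
  congr 1
  have hf : fac (q^2 * x)⁻¹ (U ++ V) = fac (q^2 * x)⁻¹ ((u ++ v).map (fun x => x⁻¹)) := by
    rw [hU, hV, ← List.reverse_append, ← List.map_append, fac_reverse]
  rw [hf]
  have hk := t17_fac_inv x hx (u ++ v) h0
  have hp : (u ++ x :: (q^2 * x) :: v).prod = (u ++ v).prod * (q^2 * x^2) := by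
    simp only [List.prod_append, List.prod_cons]; ring
  rw [hp, Nat.add_sub_cancel]
  rw [hl2] at hk
  rcases Nat.eq_zero_or_pos (u.length + v.length) with h0' | h0'
  · rw [h0']
    have hu : u = [] := List.length_eq_zero_iff.1 (by omega)
    have hv : v = [] := List.length_eq_zero_iff.1 (by omega)
    subst hu hv
    simp [fac]
  · obtain ⟨m, hm⟩ : ∃ m, u.length + v.length = m + 2 := ⟨u.length + v.length - 2, by
      obtain ⟨k, hk⟩ := h; omega⟩
    rw [hm] at hk ⊢
    rw [Nat.add_sub_cancel]
    have hq3 : q^(3*(m+2)) = 1 := by rw [pow_mul, q_cube, one_pow]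
    calc ((u ++ v).prod * (q^2 * x^2))^(m+2) * fac (q^2 * x)⁻¹ ((u ++ v).map (fun x => x⁻¹))
        = (u ++ v).prod^m * q^(2*(m+2)) * ((x^(m+2))^2 * (u ++ v).prod^2 *
          fac (q^2 * x)⁻¹ ((u ++ v).map (fun x => x⁻¹))) := by ring
      _ = q^(3*(m+2)) * (fac x (u ++ v) * (u ++ v).prod^m) := by rw [hk]; ring
      _ = _ := by rw [hq3, one_mul]

/-! ## the difference -/

noncomputable def Dv (l : List ℂ) : St →₀ ℂ := Psi l - Mv l

theorem Dv_exch (u v : List ℂ) (x y : ℂ) (h : Even (u.length + v.length)) (hx : x ≠ 0)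
    (hy : y ≠ 0) :
    (q * x - q^2 * y) • Dv (u ++ y :: x :: v) =
      (q * y - q^2 * x) • Dv (u ++ x :: y :: v) +
      (y - x) • Finsupp.mapDomain (St.act u.length) (Dv (u ++ x :: y :: v)) := by
  unfold Dv
  have e : ∀ f g : St →₀ ℂ, Finsupp.mapDomain (St.act u.length) (f - g) =
      Finsupp.mapDomain (St.act u.length) f - Finsupp.mapDomain (St.act u.length) g := fun f g =>
    map_sub (Finsupp.mapDomain.addMonoidHom (St.act u.length)) f g
  rw [e, smul_sub, smul_sub, smul_sub, Psi_exch u v x y h, Mv_exch u v x y h hx hy]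
  abel

theorem Dv_rec (u v : List ℂ) (x : ℂ) (h : Even (u.length + v.length)) (hx : x ≠ 0)
    (h0 : NZ (u ++ v)) (hD : Dv (u ++ v) = 0) : Dv (u ++ x :: (q^2 * x) :: v) = 0 := by
  unfold Dv at hD ⊢
  rw [Psi_rec u v x h, Mv_rec u v x h hx h0, sub_eq_zero.1 hD, sub_self]

theorem Dv_move {n : ℕ} (ih : ∀ l : List ℂ, l.length = 2*n → NZ l → Dv l = 0) (x : ℂ)
    (hx : x ≠ 0) (u : List ℂ) (hu : NZ u) (m : List ℂ) : ∀ v : List ℂ,
    u.length + m.length + v.length = 2*n → NZ m → NZ v → (∀ z ∈ m, z ≠ q * x) →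
    Dv (u ++ x :: (m ++ (q^2 * x) :: v)) = 0 := by
  induction m using List.reverseRecOn with
  | nil =>
    intro v h _ hv _
    simp only [List.length_nil, add_zero] at h
    rw [List.nil_append]
    have h0 : NZ (u ++ v) := by
      intro z hz
      rcases List.mem_append.1 hz with hz | hz
      · exact hu z hz
      · exact hv z hz
    exact Dv_rec u v x ⟨n, by omega⟩ hx h0 (ih _ (by simpa using h) h0)
  | append_singleton m z ihm =>
    intro v h hm hv hz
    have hz0 : z ≠ 0 := hm z (by simp)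
    have h1 := ihm (z :: v) (by simp at h ⊢; omega) (fun w hw => hm w (by simp [hw]))
      (by
        intro w hw
        rcases List.mem_cons.1 hw with rfl | hw
        · exact hz0
        · exact hv w hw) (fun w hw => hz w (by simp [hw]))
    have h2 := Dv_exch (u ++ x :: m) v (q^2 * x) z (by
      refine ⟨n, ?_⟩
      simp at h ⊢
      omega) (mul_ne_zero (pow_ne_zero _ q_ne_zero) hx) hz0
    have e1 : u ++ x :: m ++ z :: (q^2 * x) :: v = u ++ x :: ((m ++ [z]) ++ (q^2 * x) :: v) := by
      simp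
    have e2 : u ++ x :: m ++ (q^2 * x) :: z :: v = u ++ x :: (m ++ (q^2 * x) :: z :: v) := by
      simp
    rw [e1, e2, h1, smul_zero, Finsupp.mapDomain_zero, smul_zero, add_zero] at h2
    rcases smul_eq_zero.1 h2 with h3 | h3
    · exfalso
      have h4 : q^2 * z = q^3 * x := by linear_combination -h3
      rw [q_cube, one_mul] at h4
      apply hz z (by simp)
      have h5 : q^3 * z = q * x := by linear_combination q * h4
      rwa [q_cube, one_mul] at h5
    · exact h3

/-! ## polynomiality -/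

theorem map_apply (φ : St → St) (f : St →₀ ℂ) (S : Finset St) (hf : f.support ⊆ S) (R : St)
    [∀ a b : St, Decidable (a = b)] :
    Finsupp.mapDomain φ f R = ∑ R' ∈ S, (if φ R' = R then f R' else 0) := by
  unfold Finsupp.mapDomain
  rw [Finsupp.sum_of_support_subset f hf _ (by simp), Finsupp.finsetSum_apply]
  refine Finset.sum_congr rfl fun R' _ => ?_
  rw [Finsupp.single_apply]

theorem Mv_poly (u v : List ℂ) (n : ℕ) (h : u.length + v.length + 1 = 2*(n+1)) (R : St) :
    ∃ P : ℂ[X], P.natDegree ≤ 2*n ∧ ∀ x, x ≠ 0 → Mv (u ++ x :: v) R = P.eval x := by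
  classical
  set U := (v.map (fun x => x⁻¹)).reverse with hU
  set V := (u.map (fun x => x⁻¹)).reverse with hV
  have hUl : U.length = v.length := by rw [hU]; simp
  have hVl : V.length = u.length := by rw [hV]; simp
  have h1 : ∀ R' : St, ∃ P : ℂ[X], P.natDegree ≤ 2*n ∧ ∀ x, x ≠ 0 →
      x^(2*n) * Psi (U ++ x⁻¹ :: V) R' = P.eval x := fun R' => by
    obtain ⟨Q, hQ, hQ'⟩ := (Psi_pd (2*(n+1)) (even_two_mul _) R').univ U V (by omega)
    obtain ⟨P, hP, hP'⟩ := t17_reflect (2*n) Q (by omega)
    exact ⟨P, hP, fun x hx => by rw [← hP' x hx, ← hQ' x⁻¹]⟩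
  choose P hP hP' using h1
  obtain ⟨S, hS⟩ := t17_supp (2*(n+1))
  refine ⟨∑ R' ∈ S, (if mir (2*(n+1)) R' = R then C ((u.prod * v.prod)^(2*n)) * P R' else 0),
    ?_, ?_⟩
  · refine natDegree_sum_le_of_forall_le _ _ fun R' _ => ?_
    split_ifs
    · exact (natDegree_C_mul_le _ _).trans (hP R')
    · simp
  · intro x hx
    have hl : (u ++ x :: v).length = 2*(n+1) := by simp; omega
    unfold Mv
    rw [hl, rev1, Finsupp.smul_apply, smul_eq_mul,
      map_apply (mir (2*(n+1))) _ S (hS _ (by simp; omega)), eval_finsetSum, Finset.mul_sum]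
    refine Finset.sum_congr rfl fun R' _ => ?_
    split_ifs
    · rw [eval_mul, eval_C, ← hP' R' x hx]
      have e1 : 2*(n+1) - 2 = 2*n := by omega
      have e2 : (u ++ x :: v).prod = (u.prod * v.prod) * x := by
        simp only [List.prod_append, List.prod_cons]; ring
      rw [e1, e2, mul_pow]
      ring
    · simp

theorem Dv_poly (u v : List ℂ) (n : ℕ) (h : u.length + v.length + 1 = 2*(n+1)) (R : St) :
    ∃ P : ℂ[X], P.natDegree ≤ 2*n ∧ ∀ x, x ≠ 0 → Dv (u ++ x :: v) R = P.eval x := by
  obtain ⟨P, hP, hP'⟩ := (Psi_pd (2*(n+1)) (even_two_mul _) R).univ u v h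
  obtain ⟨Q, hQ, hQ'⟩ := Mv_poly u v n h R
  refine ⟨P - Q, (natDegree_sub_le _ _).trans (max_le (by omega) hQ), fun x hx => ?_⟩
  unfold Dv
  rw [Finsupp.sub_apply, hP' x, hQ' x hx, eval_sub]

/-! ## genericity -/

def G (u : List ℂ) : Prop := NZ u ∧ u.Nodup ∧ ∀ a ∈ u, ∀ b ∈ u, b ≠ q * a

noncomputable def bad (u : List ℂ) : List ℂ :=
  0 :: (u ++ (u.map (fun a => q * a) ++ u.map (fun a => q^2 * a)))

theorem G_nil : G [] := ⟨fun _ h => by simp at h, List.nodup_nil, fun _ h => by simp at h⟩

theorem G_ext {u : List ℂ} (hu : G u) {y : ℂ} (hy : y ∉ bad u) : G (u ++ [y]) := by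
  obtain ⟨h1, h2, h3⟩ := hu
  unfold bad at hy
  simp only [List.mem_cons, List.mem_append, List.mem_map, not_or, not_exists, not_and] at hy
  obtain ⟨hy0, hy1, hy2, hy3⟩ := hy
  refine ⟨?_, ?_, ?_⟩
  · intro z hz
    rcases List.mem_append.1 hz with hz | hz
    · exact h1 z hz
    · rw [List.mem_singleton] at hz; rw [hz]; exact hy0
  · rw [List.nodup_append]
    refine ⟨h2, List.nodup_singleton _, ?_⟩
    intro a ha b hb e
    rw [List.mem_singleton] at hb
    subst hb
    exact hy1 (e ▸ ha)
  · intro a ha b hb e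
    rcases List.mem_append.1 ha with ha1 | ha1 <;> rcases List.mem_append.1 hb with hb1 | hb1
    · exact h3 a ha1 b hb1 e
    · rw [List.mem_singleton] at hb1
      exact hy2 a ha1 (e.symm.trans hb1)
    · rw [List.mem_singleton] at ha1
      apply hy3 b hb1
      rw [e, ← ha1]
      linear_combination a * q_cube
    · rw [List.mem_singleton] at ha1 hb1
      apply q_ne_one
      have : (q - 1) * y = 0 := by
        rw [ha1, hb1] at e
        linear_combination -e
      rcases mul_eq_zero.1 this with h | h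
      · exact sub_eq_zero.1 h
      · exact absurd h hy0

theorem Dv_generic {n : ℕ} (ih : ∀ l : List ℂ, l.length = 2*n → NZ l → Dv l = 0)
    (s : List ℂ) (hs : s.length = 2*n + 1) (hG : G s) (x : ℂ) (hx : x ≠ 0) :
    Dv (s ++ [x]) = 0 := by
  obtain ⟨h1, h2, h3⟩ := hG
  ext R
  obtain ⟨P, hP, hP'⟩ := Dv_poly s [] n (by simp; omega) R
  have hP0 : P = 0 := by
    refine Polynomial.eq_zero_of_natDegree_lt_card_of_eval_eq_zero' P
      (s.map (fun a => q^2 * a)).toFinset ?_ ?_
    · intro r hr
      rw [List.mem_toFinset, List.mem_map] at hr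
      obtain ⟨a, ha, rfl⟩ := hr
      have ha0 := h1 a ha
      obtain ⟨u, m, hum⟩ := List.append_of_mem ha
      rw [← hP' _ (mul_ne_zero (pow_ne_zero _ q_ne_zero) ha0)]
      have e : s ++ [q^2 * a] = u ++ a :: (m ++ (q^2 * a) :: []) := by rw [hum]; simp
      rw [e, Dv_move ih a ha0 u (fun z hz => h1 z (by rw [hum]; simp [hz])) m []
        (by rw [hum] at hs; simp at hs ⊢; omega) (fun z hz => h1 z (by rw [hum]; simp [hz]))
        (fun z hz => by simp at hz)
        (fun z hz => h3 a ha z (by rw [hum]; simp [hz]))]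
      rfl
    · have hnd : (s.map (fun a => q^2 * a)).Nodup := by
        refine h2.map ?_
        intro a b hab
        exact mul_left_cancel₀ (pow_ne_zero _ q_ne_zero) hab
      rw [List.toFinset_card_of_nodup hnd, List.length_map, hs]
      omega
  have h4 := hP' x hx
  rw [h4, hP0]
  simp

theorem Dv_all {n : ℕ} (ih : ∀ l : List ℂ, l.length = 2*n → NZ l → Dv l = 0) :
    ∀ (k : ℕ) (u v : List ℂ), v.length = k + 1 → u.length + v.length = 2*(n+1) → G u → NZ v →
      Dv (u ++ v) = 0 := by
  intro k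
  induction k with
  | zero =>
    intro u v hv huv hG h0
    obtain ⟨x, rfl⟩ := List.length_eq_one_iff.1 hv
    exact Dv_generic ih u (by simp at huv; omega) hG x (h0 x (by simp))
  | succ k ihk =>
    intro u v hv huv hG h0
    obtain ⟨y, v', rfl⟩ : ∃ y v', v = y :: v' := by
      cases v with
      | nil => simp at hv
      | cons y v' => exact ⟨y, v', rfl⟩
    have hy : y ≠ 0 := h0 y (by simp)
    have h0' : NZ v' := fun z hz => h0 z (List.mem_cons_of_mem _ hz)
    have hv' : v'.length = k + 1 := by simpa using hv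
    ext R
    obtain ⟨P, _, hPe⟩ := Dv_poly u v' n (by simp only [List.length_cons] at huv; omega) R
    have hP0 : P = 0 := by
      refine Polynomial.eq_of_infinite_eval_eq P 0 ?_
      have hfin : ({z | z ∈ bad u} : Set ℂ).Finite := (bad u).finite_toSet
      refine Set.Infinite.mono ?_ hfin.infinite_compl
      intro z hz
      have hz' : z ∉ bad u := hz
      have hz0 : z ≠ 0 := by
        intro e
        exact hz' (by rw [e]; simp [bad])
      show P.eval z = (0 : ℂ[X]).eval z
      rw [eval_zero, ← hPe z hz0]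
      have := ihk (u ++ [z]) v' hv' (by
        rw [List.length_append, List.length_singleton]
        simp only [List.length_cons] at huv
        omega) (G_ext hG hz') h0'
      rw [List.append_assoc, List.singleton_append] at this
      rw [this]
      rfl
    have h4 := hPe y hy
    rw [h4, hP0]
    simp

theorem Dv_zero (n : ℕ) : ∀ l : List ℂ, l.length = 2*n → NZ l → Dv l = 0 := by
  induction n with
  | zero =>
    intro l hl _
    rw [List.length_eq_zero_iff.1 (by omega : l.length = 0)]
    unfold Dv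
    rw [Psi_nil, Mv_nil, sub_self]
  | succ n ih =>
    intro l hl h0
    have := Dv_all ih (2*n+1) [] l (by omega) (by simp; omega) G_nil h0
    simpa using this

end PM

/-- S3: mirror image of the qKZ vector -/
theorem t1_PsiM : S1_PsiM := by
  intro l hl h0
  obtain ⟨n, hn⟩ := hl
  exact sub_eq_zero.1 (PM.Dv_zero n l (by omega) h0)

/-- S4 -/
theorem t1_PsiM0 : S1_PsiM0 := by
  classical
  intro l hl h0
  obtain ⟨n, hn⟩ := hl
  set L := (l.map (fun x => x⁻¹)).reverse with hL
  have hLl : L.length = 2*n + 1 := by rw [hL]; simp [hn]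
  -- the identity for `x ≠ 0`
  have key : ∀ x : ℂ, x ≠ 0 → Psi (x :: l) = l.prod^(l.length - 1) •
      Finsupp.mapDomain (mir (l.length + 1)) (Psi (L ++ [x])) := by
    intro x hx
    have h1 := t1_PsiM (x :: l) ⟨n + 1, by simp; omega⟩ (by
      intro z hz
      rcases List.mem_cons.1 hz with rfl | hz
      · exact hx
      · exact h0 z hz)
    rw [List.map_cons, List.reverse_cons, ← hL, List.length_cons, List.prod_cons] at h1
    rw [h1, Psi_invN x⁻¹ L (inv_ne_zero hx) ⟨n, hLl⟩, inv_inv, Finsupp.mapDomain_smul, smul_smul]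
    congr 1
    have e1 : l.length + 1 - 2 = 2*n := by omega
    have e2 : l.length - 1 = 2*n := by omega
    have e3 : L.length - 1 = 2*n := by omega
    rw [e1, e2, e3, mul_pow, inv_pow]
    have : x^(2*n) ≠ 0 := pow_ne_zero _ hx
    field_simp
  -- both sides are polynomials in `x`
  ext R
  obtain ⟨P, _, hP⟩ := (Psi_pd (2*(n+1)) (even_two_mul _) R).univ [] l (by simp; omega)
  have h1 : ∀ R' : St, ∃ Q : ℂ[X], ∀ x, Psi (L ++ [x]) R' = Q.eval x := fun R' => by
    obtain ⟨Q, _, hQ⟩ := (Psi_pd (2*(n+1)) (even_two_mul _) R').univ L [] (by simp; omega)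
    exact ⟨Q, hQ⟩
  choose Q hQ using h1
  obtain ⟨S, hS⟩ := t17_supp (2*(n+1))
  set W : ℂ[X] := C (l.prod^(l.length - 1)) *
    ∑ R' ∈ S, (if mir (l.length + 1) R' = R then Q R' else 0) with hW
  have hWe : ∀ x, (l.prod^(l.length - 1) •
      Finsupp.mapDomain (mir (l.length + 1)) (Psi (L ++ [x]))) R = W.eval x := by
    intro x
    rw [Finsupp.smul_apply, smul_eq_mul, PM.map_apply (mir (l.length + 1)) _ S
      (hS _ (by simp; omega)), hW, eval_mul, eval_C, eval_finsetSum]
    congr 1
    refine Finset.sum_congr rfl fun R' _ => ?_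
    split_ifs
    · exact hQ R' x
    · simp
  have hPW : P = W := by
    refine Polynomial.eq_of_infinite_eval_eq P W ?_
    refine Set.Infinite.mono ?_ (Set.finite_singleton (0:ℂ)).infinite_compl
    intro x hx
    have hx0 : x ≠ 0 := hx
    show P.eval x = W.eval x
    rw [← hWe x, ← key x hx0]
    exact (hP x).symm
  have h2 := hP 0
  rw [List.nil_append] at h2
  rw [h2, hPW, ← hWe 0]

end Pool.Agent.H966.T1
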