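import Pool.Agent.H966.T1.Stubs
import Pool.Graph.R_pool_sql_team_seeded_3dad9d7b.NH38.Fork.Q2
import Pool.Graph.R_pool_sql_team_seeded_3dad9d7b.NH38.Fork.QT

/-!
Forked channels of even width, both inner walls: total mass, permutations and inversion in the
arms (tasks Q0, Q2; helper731).
-/

set_option autoImplicit false

namespace Pool.Agent.H966.T1

open Pool.Agent.H988R2.Perc hiding X
open Pool.Agent.H492C (comb comb2 pairG up1)
open Pool.Agent.NH38.Step (om prs EE zs prF Gen on cardy pom bev prs_prod prs_length zs_mul)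
open Pool.Agent.NH38.Fork (zo mm na cst gh Dh NZ)
open Polynomial Filter Topology

namespace Q01

open Pool.Agent.NH38.Step.TD (CL eq_of_cont fw_cont bad_spec bad_finite)
open Pool.Agent.NH38.Fork.Q2 (combL combL_apply pairL pairL_apply CV len2 perm_of_swap)

/-- the right arm -/
noncomputable def dn (B : List ℂ) : St →₀ ℂ := Psi (0 :: B.map (fun x => x⁻¹))

theorem E1_eq (A X B : List ℂ) (w v : ℂ) : E1 A X B w v =
    pairG A.length (A.length + 2 * X.length + 2) (Psi (A ++ w :: (prs X ++ v :: B)))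
      (comb2 ((A.length + 1) / 2) (up1 A) (comb2 X.length (Finsupp.single St.bot 1) (dn B))) := rfl

/-- the exchange relation for the right arm -/
theorem dn_exch (u v : List ℂ) (x y : ℂ) (h : Odd (u.length + v.length))
    (hx : x ≠ 0) (hy : y ≠ 0) :
    (q * y - q^2 * x) • dn (u ++ y :: x :: v) = (q * x - q^2 * y) • dn (u ++ x :: y :: v) +
      (x - y) • Finsupp.mapDomain (St.act (u.length + 1)) (dn (u ++ x :: y :: v)) := by
  have hev' : Even (((0 : ℂ) :: u.map (fun x => x⁻¹)).length + (v.map (fun x => x⁻¹)).length) := by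
    rw [List.length_cons, List.length_map, List.length_map, add_right_comm]
    exact Odd.add_one h
  have e2 := Psi_exch ((0 : ℂ) :: u.map (fun x => x⁻¹)) (v.map (fun x => x⁻¹)) x⁻¹ y⁻¹ hev'
  rw [List.length_cons, List.length_map] at e2
  have := congrArg (fun F => (x * y) • F) e2
  simp only [smul_add, smul_smul] at this
  have k1 : x * y * (q * x⁻¹ - q^2 * y⁻¹) = q * y - q^2 * x := by field_simp
  have k2 : x * y * (q * y⁻¹ - q^2 * x⁻¹) = q * x - q^2 * y := by field_simp
  have k3 : x * y * (y⁻¹ - x⁻¹) = x - y := by field_simp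
  rw [k1, k2, k3] at this
  have t1 : ∀ a b : ℂ, dn (u ++ a :: b :: v) =
      Psi (((0 : ℂ) :: u.map (fun x => x⁻¹)) ++ a⁻¹ :: b⁻¹ :: (v.map (fun x => x⁻¹))) := by
    intro a b
    unfold dn
    congr 1
    simp
  rw [t1, t1]
  exact this

theorem swapA_gen (u v X B : List ℂ) (x y w z : ℂ)
    (hA : Odd (u.length + v.length)) (hB : Odd B.length) (hx : x ≠ 0) (hy : y ≠ 0)
    (hxy : q * x - q^2 * y ≠ 0) (hyx : q * y - q^2 * x ≠ 0) :
    E1 (u ++ y :: x :: v) X B w z = E1 (u ++ x :: y :: v) X B w z := by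
  obtain ⟨n, hn⟩ := hA
  obtain ⟨m, hm⟩ := hB
  have hev : Even (u.length + (v ++ w :: (prs X ++ z :: B)).length) := by
    simp only [List.length_append, List.length_cons, prs_length]
    exact ⟨n + m + X.length + 2, by omega⟩
  have e1 := Psi_exch u (v ++ w :: (prs X ++ z :: B)) x y hev
  have e2 := H492C.g1_inv_exch u v x y ⟨n, hn⟩ hx hy
  have hps : ∀ a b : ℂ, Psi ((u ++ a :: b :: v) ++ w :: (prs X ++ z :: B)) =
      Psi (u ++ a :: b :: (v ++ w :: (prs X ++ z :: B))) := by
    intro a b; congr 1; simp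
  rw [E1_eq, E1_eq, len2, len2, hps, hps]
  refine H492C.g1_core _ _ u.length (by omega) (by omega) x y _ _ _ _ e1 ?_ hxy hyx
  rw [← H492C.comb2_smul_left, e2, H492C.comb2_add_left, H492C.comb2_smul_left,
    H492C.comb2_smul_left, H492C.comb2_act_left (by omega)]

theorem swapB_gen (A X u v : List ℂ) (x y w z : ℂ)
    (hA : Odd A.length) (hB : Odd (u.length + v.length)) (hx : x ≠ 0) (hy : y ≠ 0)
    (hxy : q * x - q^2 * y ≠ 0) (hyx : q * y - q^2 * x ≠ 0) :
    E1 A X (u ++ y :: x :: v) w z = E1 A X (u ++ x :: y :: v) w z := by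
  obtain ⟨n, hn⟩ := hA
  obtain ⟨m, hm⟩ := hB
  have hev : Even ((A ++ w :: (prs X ++ z :: u)).length + v.length) := by
    simp only [List.length_append, List.length_cons, prs_length]
    exact ⟨n + m + X.length + 2, by omega⟩
  have e1 := Psi_exch (A ++ w :: (prs X ++ z :: u)) v x y hev
  have e2 := dn_exch u v x y ⟨m, hm⟩ hx hy
  have hps : ∀ a b : ℂ, Psi (A ++ w :: (prs X ++ z :: (u ++ a :: b :: v))) =
      Psi ((A ++ w :: (prs X ++ z :: u)) ++ a :: b :: v) := by
    intro a b; congr 1; simp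
  have hk : (A ++ w :: (prs X ++ z :: u)).length = u.length + 1 + 2 * X.length +
      2 * ((A.length + 1) / 2) := by
    simp only [List.length_append, List.length_cons, prs_length]; omega
  rw [hk] at e1
  rw [E1_eq, E1_eq, hps, hps]
  refine H492C.g1_core _ _ (u.length + 1 + 2 * X.length + 2 * ((A.length + 1) / 2))
    (by omega) (by omega) x y _ _ _ _ e1 ?_ hxy hyx
  rw [← H492C.comb2_smul_right, ← H492C.comb2_smul_right, e2, H492C.comb2_add_right,
    H492C.comb2_smul_right, H492C.comb2_smul_right, H492C.comb2_act_right,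
    H492C.comb2_add_right, H492C.comb2_smul_right, H492C.comb2_smul_right,
    H492C.comb2_act_right]

theorem dn_len2 (u v : List ℂ) (a b : ℂ) : dn (u ++ a :: b :: v) =
    Psi (((0 : ℂ) :: u.map (fun x => x⁻¹)) ++ a⁻¹ :: b⁻¹ :: (v.map (fun x => x⁻¹))) := by
  unfold dn
  congr 1
  simp

theorem CV_dn2 (u v : List ℂ) {f g : ℂ → ℂ} {t₀ : ℂ} (hf : ContinuousAt f t₀)
    (hg : ContinuousAt g t₀) (hf0 : f t₀ ≠ 0) (hg0 : g t₀ ≠ 0) :
    CV (fun t => dn (u ++ f t :: g t :: v)) t₀ := by
  have e : (fun t => dn (u ++ f t :: g t :: v)) = fun t =>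
      Psi (((0 : ℂ) :: u.map (fun x => x⁻¹)) ++ (f t)⁻¹ :: (g t)⁻¹ :: (v.map (fun x => x⁻¹))) :=
    funext fun t => dn_len2 u v _ _
  rw [e]
  exact CV.psi ((CL.const ((0 : ℂ) :: u.map (fun x => x⁻¹)) t₀).append
    (((CL.const (v.map (fun x => x⁻¹)) t₀).cons (hg.inv₀ hg0)).cons (hf.inv₀ hf0)))

theorem E1_contA (u v X B : List ℂ) (w z : ℂ) {f g : ℂ → ℂ} {t₀ : ℂ}
    (hf : ContinuousAt f t₀) (hg : ContinuousAt g t₀) (hf0 : f t₀ ≠ 0) (hg0 : g t₀ ≠ 0) :
    ContinuousAt (fun t => E1 (u ++ f t :: g t :: v) X B w z) t₀ := by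
  have e : (fun t => E1 (u ++ f t :: g t :: v) X B w z) = fun t =>
      pairL (u.length + v.length + 2) (u.length + v.length + 2 + 2 * X.length + 2)
        (Psi (u ++ f t :: g t :: (v ++ w :: (prs X ++ z :: B))))
        (combL ((u.length + v.length + 2 + 1) / 2) (up1 (u ++ f t :: g t :: v))
          (comb2 X.length (Finsupp.single St.bot 1) (dn B))) := by
    funext t
    rw [E1_eq, len2, pairL_apply, combL_apply]
    congr 2
    simp
  rw [e]
  refine CV.cont (CV.map₂ _ (CV.psi (((CL.const u t₀).append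
    (((CL.const (v ++ w :: (prs X ++ z :: B)) t₀).cons hg).cons hf)))) ?_)
  exact CV.map₂ _ (Pool.Agent.NH38.Fork.Q2.CV.up2 u v hf hg hf0 hg0) (CV.const _ t₀)

theorem E1_contB (A X u v : List ℂ) (w z : ℂ) {f g : ℂ → ℂ} {t₀ : ℂ}
    (hf : ContinuousAt f t₀) (hg : ContinuousAt g t₀) (hf0 : f t₀ ≠ 0) (hg0 : g t₀ ≠ 0) :
    ContinuousAt (fun t => E1 A X (u ++ f t :: g t :: v) w z) t₀ := by
  have e : (fun t => E1 A X (u ++ f t :: g t :: v) w z) = fun t =>
      pairL A.length (A.length + 2 * X.length + 2)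
        (Psi ((A ++ w :: (prs X ++ z :: u)) ++ f t :: g t :: v))
        (combL ((A.length + 1) / 2) (up1 A)
          (combL X.length (Finsupp.single St.bot 1) (dn (u ++ f t :: g t :: v)))) := by
    funext t
    rw [E1_eq, pairL_apply, combL_apply, combL_apply]
    congr 2
    simp
  rw [e]
  refine CV.cont (CV.map₂ _ (CV.psi (((CL.const (A ++ w :: (prs X ++ z :: u)) t₀).append
    (((CL.const v t₀).cons hg).cons hf)))) ?_)
  exact CV.map₂ _ (CV.const _ t₀) (CV.map₂ _ (CV.const _ t₀) (CV_dn2 u v hf hg hf0 hg0))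

theorem swapA (u v X B : List ℂ) (x y w z : ℂ)
    (hA : Odd (u.length + v.length)) (hB : Odd B.length) (hx : x ≠ 0) (hy : y ≠ 0) :
    E1 (u ++ y :: x :: v) X B w z = E1 (u ++ x :: y :: v) X B w z := by
  have h1 := E1_contA u v X B w z (f := fun t => t) (g := fun _ => x) (t₀ := y) continuousAt_id
    continuousAt_const hy hx
  have h2 := E1_contA u v X B w z (f := fun _ => x) (g := fun t => t) (t₀ := y)
    continuousAt_const continuousAt_id hx hy
  exact eq_of_cont (F := fun t => E1 (u ++ t :: x :: v) X B w z)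
    (G := fun t => E1 (u ++ x :: t :: v) X B w z) (t₀ := y) h1 h2 _ (bad_finite x)
    (fun t ht => by
    obtain ⟨ht0, h3, h4⟩ := bad_spec x t ht
    exact swapA_gen u v X B x t w z hA hB hx ht0 h3 h4)

theorem swapB (A X u v : List ℂ) (x y w z : ℂ)
    (hA : Odd A.length) (hB : Odd (u.length + v.length)) (hx : x ≠ 0) (hy : y ≠ 0) :
    E1 A X (u ++ y :: x :: v) w z = E1 A X (u ++ x :: y :: v) w z := by
  have h1 := E1_contB A X u v w z (f := fun t => t) (g := fun _ => x) (t₀ := y) continuousAt_id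
    continuousAt_const hy hx
  have h2 := E1_contB A X u v w z (f := fun _ => x) (g := fun t => t) (t₀ := y)
    continuousAt_const continuousAt_id hx hy
  exact eq_of_cont (F := fun t => E1 A X (u ++ t :: x :: v) w z)
    (G := fun t => E1 A X (u ++ x :: t :: v) w z) (t₀ := y) h1 h2 _ (bad_finite x)
    (fun t ht => by
    obtain ⟨ht0, h3, h4⟩ := bad_spec x t ht
    exact swapB_gen A X u v x t w z hA hB hx ht0 h3 h4)

theorem permA {A A' : List ℂ} (X B : List ℂ) (w z : ℂ) (hA : Odd A.length) (hB : Odd B.length)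
    (h0 : NZ A) (hp : A.Perm A') : E1 A X B w z = E1 A' X B w z := by
  refine perm_of_swap A.length (fun A => E1 A X B w z) (fun u v x y h hx hy => ?_) hp [] rfl h0
  refine swapA u v X B x y w z ?_ hB hx hy
  obtain ⟨n, hn⟩ := hA
  exact ⟨n - 1, by omega⟩

theorem permB (A X : List ℂ) {B B' : List ℂ} (w z : ℂ) (hA : Odd A.length) (hB : Odd B.length)
    (h0 : NZ B) (hp : B.Perm B') : E1 A X B w z = E1 A X B' w z := by
  refine perm_of_swap B.length (fun B => E1 A X B w z) (fun u v x y h hx hy => ?_) hp [] rfl h0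
  refine swapB A X u v x y w z hA ?_ hx hy
  obtain ⟨n, hn⟩ := hB
  exact ⟨n - 1, by omega⟩

/-- inversion of the last element of `B` -/
theorem inv_last (A X B : List ℂ) (y w z : ℂ)
    (hA : Odd A.length) (hB : Even B.length) (hy : y ≠ 0) :
    E1 A X (B ++ [y]) w z = y^(A.length + 2 * X.length + 1) * E1 A X (B ++ [y⁻¹]) w z := by
  have h1 : Psi (A ++ w :: (prs X ++ z :: (B ++ [y]))) =
      y^(A.length + 2 * X.length + 1 + B.length) •
        Psi (A ++ w :: (prs X ++ z :: (B ++ [y⁻¹]))) := by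
    have hodd : Odd (A ++ w :: (prs X ++ z :: B)).length := by
      obtain ⟨a, ha⟩ := hA; obtain ⟨b, hb⟩ := hB
      exact ⟨a + b + X.length + 1, by
        simp only [List.length_append, List.length_cons, prs_length]; omega⟩
    have := Psi_invN y (A ++ w :: (prs X ++ z :: B)) hy hodd
    have e : ∀ y : ℂ, A ++ w :: (prs X ++ z :: (B ++ [y])) =
        (A ++ w :: (prs X ++ z :: B)) ++ [y] := by
      intro y; simp
    rw [e, e, this]
    congr 2
    simp only [List.length_append, List.length_cons, prs_length]; omega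
  have h2 : dn (B ++ [y]) = (y⁻¹)^(B.length) • dn (B ++ [y⁻¹]) := by
    have hodd : Odd ((0 : ℂ) :: B.map (fun x => x⁻¹)).length := by
      rw [List.length_cons, List.length_map]; exact hB.add_one
    have := Psi_invN y⁻¹ ((0 : ℂ) :: B.map (fun x => x⁻¹)) (inv_ne_zero hy) hodd
    have e : ∀ y : ℂ, dn (B ++ [y]) = Psi (((0 : ℂ) :: B.map (fun x => x⁻¹)) ++ [y⁻¹]) := by
      intro y; unfold dn; congr 1; simp
    rw [e, e, this, List.length_cons, List.length_map, Nat.add_sub_cancel]
  rw [E1_eq, E1_eq, h1, h2, H492C.G1w.pairG_smul_left, H492C.comb2_smul_right,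
    H492C.comb2_smul_right, H492C.G1w.pairG_smul_right, ← mul_assoc]
  congr 1
  rw [inv_pow, pow_add y (A.length + 2 * X.length + 1)]
  have : y^B.length ≠ 0 := pow_ne_zero _ hy
  field_simp

theorem invB (A X B : List ℂ) (y w z : ℂ) (hA : Odd A.length)
    (hB : Even B.length) (h0 : NZ B) (hy : y ≠ 0) :
    E1 A X (y :: B) w z = y^(A.length + 2 * X.length + 1) * E1 A X (y⁻¹ :: B) w z := by
  have hp : ∀ y : ℂ, y ≠ 0 → E1 A X (y :: B) w z = E1 A X (B ++ [y]) w z := by
    intro y hy
    refine permB A X w z hA (by rw [List.length_cons]; exact hB.add_one) ?_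
      (List.perm_append_singleton y B).symm
    intro z hz
    rcases List.mem_cons.1 hz with h | h
    · rw [h]; exact hy
    · exact h0 z h
  rw [hp y hy, hp y⁻¹ (inv_ne_zero hy), inv_last A X B y w z hA hB hy]

end Q01

open Q01 Pool.Agent.NH38.Fork

theorem t1_perm : S1_perm := by
  intro A A' X B B' hA hB hA0 _ hB0 hpA hpB w v _ _
  unfold eh
  have h1 : E1 A X B w v = E1 A' X B' w v := by
    rw [permA X B w v hA hB hA0 hpA]
    exact permB A' X w v (by rw [← hpA.length_eq]; exact hA) hB hB0 hpB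
  have h2 : cst A B X.length (w * v) = cst A' B' X.length (w * v) := by
    unfold cst na
    rw [hpA.length_eq, hpB.length_eq, hpA.prod_eq, hpB.prod_eq]
  rw [h1, h2]

theorem t1_invB : S1_invB := by
  intro A X B y hA hB hA0 _ hB0 hy w v _ _
  unfold eh
  have h1 := invB A X B y w v hA hB hB0 hy
  have e : A.length + 2 * X.length + 1 = ((A.length + 1) / 2 + X.length) +
      ((A.length + 1) / 2 + X.length) := by
    obtain ⟨n, hn⟩ := hA
    omega
  rw [e] at h1
  have hvn : y^((A.length + 1) / 2 + X.length) ≠ 0 := pow_ne_zero _ hy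
  have h2 : cst A (y :: B) X.length (w * v) =
      (y^((A.length + 1) / 2 + X.length) * y^((A.length + 1) / 2 + X.length)) *
        cst A (y⁻¹ :: B) X.length (w * v) := by
    unfold cst na
    simp only [List.length_cons, List.prod_cons, mul_pow, inv_pow]
    field_simp
  rw [h1, h2, ← pow_add, mul_div_mul_left _ _ (by rw [pow_add]; exact mul_ne_zero hvn hvn)]

theorem t1_Teq : S1_Teq := by
  intro A X B w v ha hb hA hX hB hw hv
  have hp : A.prod ≠ 0 := List.prod_ne_zero (fun h => hA 0 h rfl)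
  have hpB : B.prod ≠ 0 := List.prod_ne_zero (fun h => hB 0 h rfl)
  have h1 := QT.Z_arm ha hA
  have h2 := QT.Z_arm hb hB
  have hl : NZ (w :: v :: (A ++ (B ++ prs X))) :=
    QT.NZ_cons hw (QT.NZ_cons hv (QT.NZ_append hA (QT.NZ_append hB (QT.NZ_prs hX))))
  obtain ⟨m, hm⟩ := ha
  obtain ⟨n, hn⟩ := hb
  have p1 : (A ++ w :: (prs X ++ v :: B)).Perm (w :: v :: (A ++ (B ++ prs X))) := by
    refine List.perm_middle.trans (List.Perm.cons _ ?_)
    have e1 : A ++ (prs X ++ v :: B) = (A ++ prs X) ++ v :: B := by simp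
    rw [e1]
    refine List.perm_middle.trans (List.Perm.cons _ ?_)
    rw [List.append_assoc]
    exact List.Perm.append_left A List.perm_append_comm
  have hlen : (A ++ w :: (prs X ++ v :: B)).length = 2 * (m + n + X.length + 2) := by
    simp only [List.length_append, List.length_cons, prs_length, hm, hn]
    omega
  have p2 : ((0 : ℂ) :: B.map (fun x => x⁻¹)).Perm (B.map (fun x => x⁻¹) ++ [0]) :=
    (List.perm_append_singleton _ _).symm
  have hlenB : ((0 : ℂ) :: B.map (fun x => x⁻¹)).length = 2 * (n + 1) := by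
    rw [List.length_cons, List.length_map, hn]; ring
  unfold TT1 cst mm
  rw [Z_perm (by rw [hlen]; exact even_two_mul _) p1,
    Z_perm (by rw [hlenB]; exact even_two_mul _) p2, ← zs_mul hl]
  have hlen2 : (w :: v :: (A ++ (B ++ prs X))).length = 2 * (m + n + 1 + X.length + 1) := by
    simp only [List.length_append, List.length_cons, prs_length, hm, hn]
    omega
  have e1 : (w :: v :: (A ++ (B ++ prs X))).length / 2 - 1 = m + n + 1 + X.length := by omega
  have e2 : (w :: v :: (A ++ (B ++ prs X))).length / 2 = m + n + 1 + X.length + 1 := by omega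
  have e3 : (A.length + B.length) / 2 = m + n + 1 := by omega
  have e4 : (A.length + 1) / 2 = m + 1 := by omega
  have e5 : (B.length + 1) / 2 = n + 1 := by omega
  have e6 : (A.length - 1) / 2 = m := by omega
  have e7 : (B.length - 1) / 2 = n := by omega
  rw [e6] at h1
  rw [e7] at h2
  rw [e1, e2, e3, e4, e5]
  have hpr : (w :: v :: (A ++ (B ++ prs X))).prod = (w * v) * (A.prod * B.prod) := by
    rw [List.prod_cons, List.prod_cons, List.prod_append, List.prod_append, prs_prod hX]
    ring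
  rw [hpr]
  have hA1 : Z (A.map (fun x => x⁻¹) ++ [0]) = zo A * q^(na A) / A.prod^m :=
    (eq_div_iff (pow_ne_zero _ hp)).mpr h1
  have hB1 : Z (B.map (fun x => x⁻¹) ++ [0]) = zo B * q^(na B) / B.prod^n :=
    (eq_div_iff (pow_ne_zero _ hpB)).mpr h2
  rw [hA1, hB1]
  have hpm : A.prod^m ≠ 0 := pow_ne_zero _ hp
  have hpn : B.prod^n ≠ 0 := pow_ne_zero _ hpB
  rw [pow_add q]
  have f1 : A.prod^(n + 1 + X.length) * A.prod^m = A.prod^(m + n + 1 + X.length) := by
    rw [← pow_add]; congr 1; ring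
  have f2 : B.prod^(m + 1 + X.length) * B.prod^n = B.prod^(m + n + 1 + X.length) := by
    rw [← pow_add]; congr 1; ring
  rw [mul_pow, mul_pow A.prod, ← f1, ← f2, pow_add q (na A)]
  field_simp

end Pool.Agent.H966.T1
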