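import Pool.Agent.H966.T1.Stubs
import Pool.Graph.R_pool_sql_team_seeded_3dad9d7b.NH38.Fork.E7
import Pool.Graph.R_pool_sql_team_seeded_3dad9d7b.NH38.Fork.Q1
import Pool.Graph.R_pool_sql_team_seeded_3dad9d7b.NH38.Fork.QT

/-!
Forked channels of even width, both inner walls: width and extreme coefficients of `eh` in `v`,
and the thin slit (helper935).
-/

namespace Pool.Agent.H966.T1

open Pool.Agent.H988R2.Perc hiding X
open Pool.Agent.H988C
open Pool.Agent.H492C (comb comb2 pairG up1)
open Pool.Agent.NH38.Step (om prs EE zs prF Gen on cardy pom bev)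
open Pool.Agent.NH38.Fork (zo mm na cst gh Dh G T D U tt gF tF NZ ev LR UL Reg Lau PermInv cc gm
  x1 x2 sv vv kap rf EAdj UnifG)
open Pool.Agent.NH38
open Polynomial Filter Topology

namespace Q16

/-! ### linearity -/

/-- the functional of the right arm -/
noncomputable def RL (a k p r : ℕ) (f g : St →₀ ℂ) : (St →₀ ℂ) →ₗ[ℂ] ℂ where
  toFun h := pairG p r f (comb2 ((a+1)/2) g (comb2 k (Finsupp.single St.bot 1) h))
  map_add' h h' := by
    rw [H492C.comb2_add_right, H492C.comb2_add_right, H492C.pairG_add_right]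
  map_smul' c h := by
    rw [H492C.comb2_smul_right, H492C.comb2_smul_right, H492C.pairG_smul_right]
    rfl

theorem RL_apply (a k p r : ℕ) (f g h : St →₀ ℂ) : RL a k p r f g h =
    pairG p r f (comb2 ((a+1)/2) g (comb2 k (Finsupp.single St.bot 1) h)) := rfl

/-- the slide, for a qKZ vector on the right -/
theorem slA_Psi (hS : S1_slA) (a k b : ℕ) (ha : Odd a) (hb : Odd b) (c : ℂ)
    (hc : c = q ∨ c = q^2) (l : List ℂ) (hl : l.length = b + 1) (f g : St →₀ ℂ) :
    pairG a (a + 2*k + 2) (Cs c (a+1+2*k) b f)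
      (comb2 ((a+1)/2) g (comb2 k (Finsupp.single St.bot 1) (Cs q 0 b (Psi l)))) =
    -c * pairG a (a + 1 + 2*k + b) f
      (comb2 ((a+1)/2) g (comb2 k (Finsupp.single St.bot 1) (Psi l))) := by
  obtain ⟨n, rfl⟩ := hb
  have h1 := Step.TD.lin_Psi ((RL a k a (a + 2*k + 2) (Cs c (a+1+2*k) (2*n+1) f) g).comp
    (Fork.E7.CsL q 0 (2*n+1))) l (N := 2*n+2) (by omega)
  have h2 := Step.TD.lin_Psi ((-c) • RL a k a (a + 1 + 2*k + (2*n+1)) f g) l (N := 2*n+2)
    (by omega)
  rw [LinearMap.comp_apply, Fork.E7.CsL_apply, RL_apply] at h1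
  rw [LinearMap.smul_apply, RL_apply, smul_eq_mul] at h2
  rw [h1, h2]
  refine Finset.sum_congr rfl fun w hw => ?_
  rw [mem_LP] at hw
  have e : (2*n+2)/2 = n+1 := by omega
  rw [LinearMap.comp_apply, Fork.E7.CsL_apply, RL_apply, LinearMap.smul_apply, RL_apply,
    smul_eq_mul, e, hS a k n c w f g ha hc hw.2 hw.1]

/-- the slide with the zero strand, for a qKZ vector on the right -/
theorem slB_Psi (hS : S1_slB) (a k b : ℕ) (ha : Odd a) (hb : Odd b) (l : List ℂ)
    (hl : l.length = b + 1) (f g : St →₀ ℂ) :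
    pairG a (a + 2*k + b + 3) (Cs q (a+2+2*k) b
      (Finsupp.mapDomain (St.ins (a+2+2*k+b)) f))
      (comb2 ((a+1)/2) g (comb2 (k+1) (Finsupp.single St.bot 1) (Psi l))) =
    -q^2 * pairG a (a + 2*k + 2) f
      (comb2 ((a+1)/2) g (comb2 k (Finsupp.single St.bot 1) (Cs q 0 b (Psi l)))) := by
  obtain ⟨n, rfl⟩ := hb
  have h1 := Step.TD.lin_Psi (RL a (k+1) a (a + 2*k + (2*n+1) + 3) (Cs q (a+2+2*k) (2*n+1)
      (Finsupp.mapDomain (St.ins (a+2+2*k+(2*n+1))) f)) g) l (N := 2*n+2) (by omega)
  have h2 := Step.TD.lin_Psi ((-q^2) • (RL a k a (a + 2*k + 2) f g).comp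
    (Fork.E7.CsL q 0 (2*n+1))) l (N := 2*n+2) (by omega)
  rw [RL_apply] at h1
  rw [LinearMap.smul_apply, LinearMap.comp_apply, Fork.E7.CsL_apply, RL_apply, smul_eq_mul] at h2
  rw [h1, h2]
  refine Finset.sum_congr rfl fun w hw => ?_
  rw [mem_LP] at hw
  have e : (2*n+2)/2 = n+1 := by omega
  have e2 : a + 2*k + (2*n+1) + 3 = a + 2*k + 2*n + 4 := by ring
  rw [LinearMap.smul_apply, LinearMap.comp_apply, Fork.E7.CsL_apply, RL_apply, RL_apply,
    smul_eq_mul, e, e2, hS a k n w f g ha hw.2 hw.1]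

theorem NZ_inv {B : List ℂ} (hB : NZ B) : ∀ y ∈ B.map (fun x => x⁻¹), y ≠ 0 := by
  intro y hy
  rw [List.mem_map] at hy
  obtain ⟨z, hz, rfl⟩ := hy
  exact inv_ne_zero (hB z hz)

/-- the right arm -/
theorem arm (B : List ℂ) (hb : Odd B.length) (hB : NZ B) :
    Psi (0 :: B.map (fun x => x⁻¹)) = Cs q 0 B.length (up1 B) := by
  have h := Fork.E7.exch0_end (B.map (fun x => x⁻¹)) (NZ_inv hB) [] (by simpa using hb)
  rw [List.length_map] at h
  simpa [up1] using h

/-! ### the top coefficient -/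

theorem exchW_end (W : ℂ) (hW : W ≠ 0) (B : List ℂ) : ∀ (A : List ℂ),
    Odd (A.length + B.length) →
    den W B • Psi (A ++ W⁻¹ :: B) = DLs W A.length B (Psi (A ++ B ++ [W⁻¹])) := by
  induction B with
  | nil => intro A _; simp [DLs, den]
  | cons y B ih =>
    intro A hE
    have hE' : Even (A.length + B.length) := by
      rw [List.length_cons] at hE
      obtain ⟨c, hc⟩ := hE
      exact ⟨c, by omega⟩
    have h1 := exchW A B y W hW hE'
    have h2 := ih (A ++ [y]) (by
      rw [List.length_append, List.length_singleton]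
      rw [List.length_cons] at hE
      obtain ⟨c, hc⟩ := hE
      exact ⟨c, by omega⟩)
    rw [den, mul_comm, ← smul_smul, h1, ← map_smul]
    have e1 : A ++ y :: W⁻¹ :: B = A ++ [y] ++ W⁻¹ :: B := by simp
    rw [e1, h2]
    have e2 : A ++ [y] ++ B ++ [W⁻¹] = A ++ y :: B ++ [W⁻¹] := by simp
    rw [e2]
    simp [DLs]

/-- top coefficient of a linear functional of the vector -/
theorem top_end (F : (St →₀ ℂ) →ₗ[ℂ] ℂ) (A B : List ℂ) (N : ℕ) (hN : A.length + B.length = N + 1)
    (hE : Even N) (p : ℂ[X]) (hp : p.natDegree ≤ N)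
    (hpe : ∀ W, F (Psi (A ++ W :: B)) = p.eval W) :
    p.coeff N = F (Cs (q^2) A.length B.length (Psi (A ++ B ++ [0]))) := by
  have hO : Odd (A.length + B.length) := by rw [hN]; exact hE.add_one
  have hlen : (A ++ B).length = N + 1 := by rw [List.length_append, hN]
  have key : ∀ W : ℂ, W ≠ 0 → den W B * (p.reflect N).eval W =
      F (DLs W A.length B (Psi (A ++ B ++ [W]))) := by
    intro W hW
    have h1 := exchW_end W hW B A hO
    have h2 := Psi_invN W (A ++ B) hW (by rw [hlen]; exact hE.add_one)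
    rw [hlen, Nat.add_sub_cancel] at h2
    have h3 : (p.reflect N).eval W = W^N * p.eval W⁻¹ := by
      have hu : (p.reflect N).eval W * (W⁻¹)^N = p.eval W⁻¹ := by
        have inst : Invertible (W⁻¹) := invertibleOfNonzero (inv_ne_zero hW)
        have := Polynomial.eval₂_reflect_mul_pow (RingHom.id ℂ) W⁻¹ N p hp
        rw [invOf_eq_inv, inv_inv] at this
        simpa [Polynomial.eval₂_eq_eval_map] using this
      rw [← hu, mul_comm (W^N), mul_assoc, ← mul_pow, inv_mul_cancel₀ hW, one_pow, mul_one]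
    rw [h3, ← hpe, ← mul_assoc, mul_comm (den W B), mul_assoc, ← smul_eq_mul (den W B),
      ← map_smul, h1, ← smul_eq_mul, ← map_smul, ← map_smul, ← h2]
  have hl : ∀ W : ℂ, (A ++ B ++ [W]).length = 2 * ((N+2)/2) := by
    intro W
    obtain ⟨k, hk⟩ := hE
    rw [List.length_append, hlen, List.length_singleton]
    omega
  have hcont : Continuous (fun W => F (DLs W A.length B (Psi (A ++ B ++ [W])))) := by
    have e : (fun W => F (DLs W A.length B (Psi (A ++ B ++ [W])))) = fun W =>
        ∑ w ∈ LP (2 * ((N+2)/2)), Fw w (A ++ B ++ [W]) *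
          F (DLs W A.length B (Finsupp.single (Phi ((N+2)/2) w) 1)) := by
      funext W
      rw [Psi_eq (hl W), map_sum, map_sum]
      refine Finset.sum_congr rfl (fun w _ => ?_)
      have e : (Finsupp.single (Phi ((N+2)/2) w) (Fw w (A ++ B ++ [W])) : St →₀ ℂ) =
          (Fw w (A ++ B ++ [W])) • Finsupp.single (Phi ((N+2)/2) w) (1:ℂ) := by
        rw [Finsupp.smul_single, smul_eq_mul, mul_one]
      rw [e, map_smul, map_smul, smul_eq_mul]
    rw [e]
    refine continuous_finsetSum _ (fun w hw => ?_)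
    refine Continuous.mul ?_ (DLs_cont B _ F _)
    obtain ⟨P, _, hP⟩ := (Fw_V hw).pd.univ (A ++ B) [] (by
      have := hl 0
      rw [List.length_append, List.length_singleton] at this
      simpa using this)
    have e2 : (fun W => Fw w (A ++ B ++ [W])) = fun W => P.eval W := by
      funext W; exact hP W
    rw [e2]
    exact P.continuous
  have hcont2 : Continuous (fun W => den W B * (p.reflect N).eval W) := by
    have hd : ∀ B : List ℂ, Continuous (fun W => den W B) := by
      intro B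
      induction B with
      | nil => exact continuous_const
      | cons y B ih => simp only [den]; fun_prop
    exact (hd B).mul (p.reflect N).continuous
  have hfin : den 0 B * (p.reflect N).eval 0 = F (DLs 0 A.length B (Psi (A ++ B ++ [0]))) := by
    have h1 := (hcont2.tendsto 0).mono_left (nhdsWithin_le_nhds (s := {0}ᶜ))
    have h2 := (hcont.tendsto 0).mono_left (nhdsWithin_le_nhds (s := {0}ᶜ))
    have h3 : Filter.Tendsto (fun W => den W B * (p.reflect N).eval W) (nhdsWithin 0 {0}ᶜ)
        (nhds (F (DLs 0 A.length B (Psi (A ++ B ++ [0]))))) := by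
      refine h2.congr' ?_
      filter_upwards [self_mem_nhdsWithin] with W hW
      exact (key W hW).symm
    exact tendsto_nhds_unique h1 h3
  rw [DLs_zero, den_zero, map_smul, smul_eq_mul] at hfin
  have hne : (-q^2)^B.length ≠ 0 := pow_ne_zero _ (neg_ne_zero.mpr (pow_ne_zero _ q_ne_zero))
  have h4 := mul_left_cancel₀ hne hfin
  rw [← h4, ← Polynomial.coeff_zero_eq_eval_zero, Polynomial.coeff_reflect]
  congr 1

end Q16

/-- the width in `v` -/
theorem t1_wid (hS : S1_slA) : S1_wid := by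
  intro A X B w ha hb hA hX hB hw
  have hq := q_ne_zero
  set a := A.length with hadef
  set b := B.length with hbdef
  set k := X.length with hkdef
  have hpr : (prs X).length = 2 * k := Step.prs_length X
  set L : List ℂ := A ++ w :: prs X with hL
  have hLl : L.length = a + 1 + 2*k := by
    rw [hL, List.length_append, List.length_cons, hpr]; omega
  have hN : L.length + B.length = (a + b + 2*k) + 1 := by rw [hLl]; omega
  have hE : Even (a + b + 2*k) := by
    obtain ⟨c, hc⟩ := ha
    obtain ⟨d, hd⟩ := hb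
    exact ⟨c + d + 1 + k, by omega⟩
  have hLB : ∀ v, A ++ w :: (prs X ++ v :: B) = L ++ v :: B := by
    intro v; rw [hL]; simp
  -- the functional
  obtain ⟨F, hF⟩ : ∃ F : (St →₀ ℂ) →ₗ[ℂ] ℂ, F = Fork.E7.PL a (a + 2*k + 2) (U1 A k B) := ⟨_, rfl⟩
  have hU : U1 A k B = comb2 ((a + 1) / 2) (up1 A) (comb2 k (Finsupp.single St.bot 1)
      (Cs q 0 b (Psi (B.map (fun x => x⁻¹) ++ [0])))) := by
    unfold U1
    rw [Q16.arm B hb hB]
    rfl
  have hE1 : ∀ v, E1 A X B w v = F (Psi (L ++ v :: B)) := by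
    intro v
    unfold E1
    rw [hF, Fork.E7.PL_apply, hLB]
  obtain ⟨P, hP, hPe⟩ := Step.TD.lin_poly F L B
  rw [hN, Nat.add_sub_cancel] at hP
  -- the value of the slid functional
  have hG : ∀ c, (c = q ∨ c = q^2) → F (Cs c L.length B.length (Psi (L ++ B ++ [0]))) =
      -c * G A (w :: prs X) B := by
    intro c hc
    rw [hF, Fork.E7.PL_apply, hU, hLl, Q16.slA_Psi hS a k b ha hb c hc _ (by simp [hbdef])]
    congr 1
    unfold G U
    have e1 : ((w :: prs X).length - 1) / 2 = k := by
      rw [List.length_cons, hpr]; omega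
    have e2 : A.length + (w :: prs X).length + B.length = a + 1 + 2*k + b := by
      rw [List.length_cons, hpr]; omega
    have e3 : A ++ (w :: prs X ++ (B ++ [0])) = L ++ B ++ [0] := by rw [hL]; simp
    rw [e1, e2, e3]
    rfl
  have hc0 : P.coeff 0 = -q * G A (w :: prs X) B := by
    rw [Polynomial.coeff_zero_eq_eval_zero, ← hPe,
      Fork.E7.exch0_end B hB L (by rw [hN]; exact hE.add_one), hG q (Or.inl rfl)]
  have hcn : P.coeff (a + b + 2*k) = -q^2 * G A (w :: prs X) B := by
    rw [Q16.top_end F L B (a + b + 2*k) hN hE P hP hPe, hG (q^2) (Or.inr rfl)]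
  -- normalisation
  have pA : A.prod ≠ 0 := List.prod_ne_zero (fun h => hA 0 h rfl)
  have pB : B.prod ≠ 0 := List.prod_ne_zero (fun h => hB 0 h rfl)
  set K := cst A B k w with hK
  have hK0 : K ≠ 0 := by
    rw [hK]
    unfold cst
    exact mul_ne_zero (mul_ne_zero (mul_ne_zero (pow_ne_zero _ hw) (pow_ne_zero _ pA))
      (pow_ne_zero _ pB)) (pow_ne_zero _ hq)
  have hcst : ∀ v, cst A B k (w * v) = v^((a+b)/2 + k) * K := by
    intro v
    rw [hK]
    unfold cst
    rw [mul_pow]
    ring
  refine ⟨C K⁻¹ * P, (Polynomial.natDegree_C_mul_le _ _).trans hP, ?_, ?_, ?_⟩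
  · rw [Polynomial.coeff_C_mul, hc0]
    unfold gh
    rw [← hkdef, ← hK]
    field_simp
  · rw [Polynomial.coeff_C_mul, hcn]
    unfold gh
    rw [← hkdef, ← hK]
    field_simp
  · intro v hv
    rw [Polynomial.eval_mul, Polynomial.eval_C, ← hPe v, ← hE1 v]
    show eh A X B w v * v^((a+b)/2 + k) = _
    unfold eh
    rw [← hkdef, hcst]
    have h1 : v^((a+b)/2 + k) ≠ 0 := pow_ne_zero _ hv
    field_simp

/-- the thin slit -/
theorem t1_base (hS : S1_slB) : S1_base := by
  intro A B w v ha hb hA hB hw hv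
  have hq := q_ne_zero
  have pA : A.prod ≠ 0 := List.prod_ne_zero (fun h => hA 0 h rfl)
  have pB : B.prod ≠ 0 := List.prod_ne_zero (fun h => hB 0 h rfl)
  -- the three leg amplitude
  have h1 := Fork.E7.D_eq A B ha hb hB w v
  rw [Fork.E7.LL_eq A B ha hb] at h1
  -- the part without `act`
  have h2 : Fork.E7.MM A B (Psi (A ++ w :: v :: B)) = -q^2 * E1 A [] B w v := by
    have h3 := Q16.slB_Psi hS A.length 0 B.length ha hb (B.map (fun x => x⁻¹) ++ [0]) (by simp)
      (Psi (A ++ w :: v :: B)) (up1 A)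
    have e0 : Cs q 0 B.length (Psi (B.map (fun x => x⁻¹) ++ [0])) =
        Psi (0 :: B.map (fun x => x⁻¹)) := (Q16.arm B hb hB).symm
    rw [e0] at h3
    have e1 : pairG A.length (A.length + 2 * 0 + 2) (Psi (A ++ w :: v :: B))
        (comb2 ((A.length+1)/2) (up1 A) (comb2 0 (Finsupp.single St.bot 1)
          (Psi (0 :: B.map (fun x => x⁻¹))))) = E1 A [] B w v := rfl
    rw [e1] at h3
    rw [← h3]
    unfold Fork.E7.MM
    have e2 := Fork.E7.pair_ins A.length (A.length + 1 + B.length) (A.length + 1)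
      (Cs q (A.length + 2) B.length
        (Finsupp.mapDomain (St.ins (A.length + 2 + B.length)) (Psi (A ++ w :: v :: B))))
      (Fork.E7.VV A B)
    rw [← e2, Fork.E7.up_a, Fork.E7.up_r _ _ (by obtain ⟨n, hn⟩ := hb; omega)]
    have e3 := Fork.E7.U_one A B ha
    unfold U at e3
    have e4 : Finsupp.mapDomain (St.ins (A.length + 1)) (Fork.E7.VV A B) =
        comb2 ((A.length + 1) / 2) (up1 A) (comb2 1 (Finsupp.single St.bot 1) (up1 B)) := by
      rw [e3]; rfl
    rw [e4]
    have e5 : A.length + 3 + B.length = A.length + 2*0 + B.length + 3 := by ring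
    rw [e5]
    rfl
  rw [h2] at h1
  -- masses
  obtain ⟨m, hm⟩ := id ha
  obtain ⟨n, hn⟩ := id hb
  have hZA := Fork.QT.Z_arm ha hA
  have hZB := Fork.QT.Z_arm hb hB
  have hZ : mass (Psi (A ++ w :: v :: B)) = zs (w :: v :: (A ++ B)) *
      ((w * (v * (A.prod * B.prod)))^(m + n + 1) * q^((m + n + 2) * (m + n + 1))) := by
    have p1 : (A ++ w :: v :: B).Perm (w :: v :: (A ++ B)) :=
      List.perm_middle.trans (List.Perm.cons _ List.perm_middle)
    have hl : (w :: v :: (A ++ B)).length = 2 * (m + n + 2) := by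
      simp only [List.length_cons, List.length_append, hm, hn]; omega
    have h3 : mass (Psi (A ++ w :: v :: B)) = Z (w :: v :: (A ++ B)) := by
      show Z (A ++ w :: v :: B) = _
      exact Z_perm (by rw [p1.length_eq, hl]; exact even_two_mul _) p1
    rw [h3]
    have h4 := Step.zs_mul (l := w :: v :: (A ++ B)) (by
      intro z hz
      rw [List.mem_cons, List.mem_cons, List.mem_append] at hz
      rcases hz with rfl | rfl | hz | hz
      · exact hw
      · exact hv
      · exact hA z hz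
      · exact hB z hz)
    rw [← h4, hl, List.prod_cons, List.prod_cons, List.prod_append]
    have e1 : 2 * (m + n + 2) / 2 = m + n + 2 := by omega
    rw [e1]
    rfl
  have e6 : (A.length - 1) / 2 = m := by omega
  have e7 : (B.length - 1) / 2 = n := by omega
  rw [e6] at hZA
  rw [e7] at hZB
  have hA1 : mass (up1 A) = zo A * q^(na A) / A.prod^m :=
    (eq_div_iff (pow_ne_zero _ pA)).mpr hZA
  have hB1 : mass (up1 B) = zo B * q^(na B) / B.prod^n :=
    (eq_div_iff (pow_ne_zero _ pB)).mpr hZB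
  have hMM : mass (Psi (A ++ w :: v :: B)) * mass (up1 A) * mass (up1 B) =
      cst A B 0 (w * v) * (mm A B * zs (w :: v :: (A ++ B))) := by
    rw [hZ, hA1, hB1]
    unfold cst mm
    have e3 : (A.length + B.length) / 2 = m + n + 1 := by omega
    have e4 : (A.length + 1) / 2 = m + 1 := by omega
    have e5 : (B.length + 1) / 2 = n + 1 := by omega
    rw [e3, e4, e5]
    simp only [add_zero]
    have f1 : A.prod^(m + n + 1) = A.prod^(n + 1) * A.prod^m := by
      rw [← pow_add]; congr 1; ring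
    have f2 : B.prod^(m + n + 1) = B.prod^(m + 1) * B.prod^n := by
      rw [← pow_add]; congr 1; ring
    have hpm : A.prod^m ≠ 0 := pow_ne_zero _ pA
    have hpn : B.prod^n ≠ 0 := pow_ne_zero _ pB
    have f3 : (w * (v * (A.prod * B.prod)))^(m + n + 1) =
        (w * v)^(m + n + 1) * (A.prod^(n + 1) * A.prod^m) * (B.prod^(m + 1) * B.prod^n) := by
      rw [← f1, ← f2, ← mul_pow, ← mul_pow]; congr 1; ring
    rw [f3, pow_add q ((m + n + 1 + 1) * (m + n + 1)), pow_add q (na A)]
    field_simp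
  -- normalisations
  have hcc : Fork.cst3 A B w v = (q^(A.length + 2 + B.length) * (A.prod * (w * v) * B.prod)) *
      cst A B 0 (w * v) := by
    unfold Fork.cst3 cst
    have e3 : (A.length + B.length) / 2 = m + n + 1 := by omega
    have e4 : (A.length + 1) / 2 = m + 1 := by omega
    have e5 : (B.length + 1) / 2 = n + 1 := by omega
    have l1 : A.length + 2 + B.length = 2 * (m + n + 1 + 1) := by omega
    rw [e3, e4, e5, l1]
    have e1 : (m + n + 1 + 2) * (m + n + 1 + 1) + (na A + na B) =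
      2 * (m + n + 1 + 1) + ((m + n + 1 + 0 + 1) * (m + n + 1 + 0) + (na A + na B)) := by ring
    rw [e1, pow_add q (2 * (m + n + 1 + 1))]
    simp only [add_zero]
    ring
  have hc0 : cst A B 0 (w * v) ≠ 0 := by
    unfold cst
    exact mul_ne_zero (mul_ne_zero (mul_ne_zero (pow_ne_zero _ (mul_ne_zero hw hv))
      (pow_ne_zero _ pA)) (pow_ne_zero _ pB)) (pow_ne_zero _ hq)
  have hk0 : q^(A.length + 2 + B.length) * (A.prod * (w * v) * B.prod) ≠ 0 :=
    mul_ne_zero (pow_ne_zero _ hq) (mul_ne_zero (mul_ne_zero pA (mul_ne_zero hw hv)) pB)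
  have hEE : E1 A [] B w v = cst A B 0 (w * v) * eh A [] B w v := by
    unfold eh
    rw [List.length_nil]
    field_simp
  have hD : Dh A w v B = q^2 * eh A [] B w v - q^2 * (mm A B * zs (w :: v :: (A ++ B))) := by
    unfold Dh
    rw [h1, hcc, hEE]
    have h5 : -q^2 * mass (Psi (A ++ w :: v :: B)) * mass (up1 A) * mass (up1 B) =
        -q^2 * (cst A B 0 (w * v) * (mm A B * zs (w :: v :: (A ++ B)))) := by
      rw [← hMM]; ring
    rw [h5]
    field_simp
    ring
  rw [hD]
  have h3 := q_cube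
  linear_combination (-(eh A [] B w v) + mm A B * zs (w :: v :: (A ++ B))) * h3

end Pool.Agent.H966.T1
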