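import Pool.Agent.H966.T1.Stubs
import Pool.Graph.R_pool_sql_team_seeded_3dad9d7b.NH38.Fork.Q8
import Pool.Graph.R_pool_sql_team_seeded_3dad9d7b.NH38.Fork.Q7
import Pool.Graph.R_pool_sql_team_seeded_3dad9d7b.NH38.Fork.Q6
import Pool.Graph.R_pool_sql_team_seeded_3dad9d7b.NH38.Fork.E7
import Pool.Graph.R_seed8.H988R2.Perc.T18

/-!
Forked channels of even width, both inner walls, task Q5 (helper215): the amplitude at
`v = q ζ`, `ζ` in the right arm.
-/

namespace Pool.Agent.H966.T1

open Pool.Agent.H988R2.Perc hiding X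
open Pool.Agent.H492C (comb comb2 pairG up1)
open Pool.Agent.NH38.Step (om prs EE zs prF Gen on cardy pom bev)
open Pool.Agent.NH38.Fork (zo mm na cst gh Dh G T D U tt gF tF NZ ev LR UL Reg Lau PermInv cc gm
  x1 x2 sv vv kap rf EAdj UnifG)
open Polynomial Filter Topology

namespace Q5

open Pool.Agent.NH38.Fork.Q8 (bM bM_apply VP prs_NZ prs_prod' bad_fin)
open Pool.Agent.NH38.Step (om_qq om_inv om_q_inv om_q2_inv pom_app pom_cons pom_nil pom_perm
  fac_app fac_cons' fac_eq_pom prs_length)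
open Pool.Agent.H492C (jn)

/-! ### the upper vector -/

theorem exch0 (l : List ℂ) (hl : Even l.length) {z : ℂ} (hz : z ≠ 0) :
    Psi (0 :: z :: l) = (-q) • Psi (z :: 0 :: l) +
      (-q^2) • Finsupp.mapDomain (St.act 0) (Psi (z :: 0 :: l)) := by
  have h1 := Psi_exch [] l z 0 (by simpa using hl)
  simp only [List.nil_append, List.length_nil] at h1
  have hq3 := q_cube
  have h3 : (q * z - q^2 * 0) = q * z := by ring
  rw [h3] at h1
  have h2 : (q * z) • Psi (0 :: z :: l) = (q * z) • ((-q) • Psi (z :: 0 :: l) +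
      (-q^2) • Finsupp.mapDomain (St.act 0) (Psi (z :: 0 :: l))) := by
    rw [h1, smul_add, smul_smul, smul_smul]
    congr 2
    · ring
    · linear_combination z * hq3
  exact smul_right_injective _ (mul_ne_zero q_ne_zero hz) h2

/-- inversion of the second argument -/
theorem inv2 (l : List ℂ) (hl : Even l.length) {z : ℂ} (hz : z ≠ 0) :
    Psi (0 :: z :: l) = z^l.length • Psi (0 :: z⁻¹ :: l) := by
  have h := Psi_inv1 z (0 :: l) hz (by rw [List.length_cons]; exact hl.add_one)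
  rw [List.length_cons, Nat.add_sub_cancel] at h
  rw [exch0 l hl hz, exch0 l hl (inv_ne_zero hz), h, Finsupp.mapDomain_smul]
  rw [smul_add, smul_comm (-q), smul_comm (-q^2)]

/-- `Psi (0 :: z :: l)` is a vector polynomial in `z` -/
theorem VP2 (l : List ℂ) : VP l.length (fun z => Psi (0 :: z :: l)) := by
  have h : (fun t : ℂ => Psi (0 :: t :: l)) = fun t => ∑ w ∈ LP (l.length + 2),
      Fw w (0 :: t :: l) • Finsupp.single (Phi ((l.length + 2) / 2) w) (1:ℂ) := by
    funext t
    unfold Psi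
    refine Finset.sum_congr (by rw [List.length_cons, List.length_cons]) fun w _ => ?_
    rw [Finsupp.smul_single, smul_eq_mul, mul_one, List.length_cons, List.length_cons]
  rw [h]
  refine VP.sum _ fun w hw => ?_
  obtain ⟨P, hP, hP'⟩ := (Fw_V hw).pd.univ [0] l (by simp; omega)
  have e : (fun t : ℂ => Fw w (0 :: t :: l) • Finsupp.single (Phi ((l.length + 2) / 2) w) (1:ℂ)) =
      fun t => P.eval t • Finsupp.single (Phi ((l.length + 2) / 2) w) (1:ℂ) := by
    funext t
    have := hP' t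
    rw [List.singleton_append] at this
    rw [this]
  rw [e]
  exact VP.poly P (by omega) _

/-! ### self-reciprocal polynomials -/

theorem dick : ∀ n : ℕ, ∃ R : ℂ[X], R.natDegree ≤ n ∧ ∀ z : ℂ, z ≠ 0 →
    z^n + (z⁻¹)^n = R.eval (om z) := by
  intro n
  induction n using Nat.twoStepInduction with
  | zero => exact ⟨C 2, by simp, fun z _ => by simp; norm_num⟩
  | one => exact ⟨X, natDegree_X_le, fun z _ => by simp [om]⟩
  | more n ih0 ih1 =>
    obtain ⟨R0, h0, h0'⟩ := ih0
    obtain ⟨R1, h1, h1'⟩ := ih1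
    refine ⟨X * R1 - R0, ?_, fun z hz => ?_⟩
    · refine (natDegree_sub_le _ _).trans (max_le ?_ (by omega))
      refine (natDegree_mul_le).trans ?_
      have := natDegree_X_le (R := ℂ)
      omega
    · rw [eval_sub, eval_mul, eval_X, ← h0' z hz, ← h1' z hz]
      unfold om
      have h1 : z * z⁻¹ = 1 := mul_inv_cancel₀ hz
      linear_combination (-(z^n) - (z⁻¹)^n) * h1

theorem pal (m : ℕ) (P : ℂ[X]) (hP : P.natDegree ≤ 2*m)
    (h : ∀ z : ℂ, z ≠ 0 → P.eval z = z^(2*m) * P.eval z⁻¹) :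
    ∃ R : ℂ[X], R.natDegree ≤ m ∧ ∀ z : ℂ, z ≠ 0 → P.eval z = z^m * R.eval (om z) := by
  choose D hD hD' using dick
  refine ⟨∑ j ∈ Finset.range (2*m+1), C (P.coeff j / 2) * D ((m - j) + (j - m)), ?_, ?_⟩
  · refine natDegree_sum_le_of_forall_le _ _ fun j hj => ?_
    rw [Finset.mem_range] at hj
    exact (natDegree_C_mul_le _ _).trans ((hD _).trans (by omega))
  · intro z hz
    have h2 : P.eval z = (P.eval z + z^(2*m) * P.eval z⁻¹) / 2 := by
      rw [← h z hz]; ring
    rw [h2, eval_finsetSum, Polynomial.eval_eq_sum_range' (n := 2*m+1) (by omega) z,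
      Polynomial.eval_eq_sum_range' (n := 2*m+1) (by omega) z⁻¹, Finset.mul_sum, Finset.mul_sum,
      ← Finset.sum_add_distrib, Finset.sum_div]
    refine Finset.sum_congr rfl fun j hj => ?_
    rw [Finset.mem_range] at hj
    rw [eval_mul, eval_C, ← hD' _ z hz]
    have hz1 : ∀ n, z^n * (z⁻¹)^n = 1 := fun n => by
      rw [← mul_pow, mul_inv_cancel₀ hz, one_pow]
    rcases Nat.le_total j m with hjm | hjm
    · obtain ⟨d, rfl⟩ := Nat.exists_eq_add_of_le hjm
      have e1 : (j + d - j) + (j - (j + d)) = d := by omega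
      rw [e1, show 2 * (j + d) = j + j + d + d by ring]
      have e2 : z^(j + j + d + d) * (z⁻¹)^j = z^(j + d) * z^d := by
        have := hz1 j
        rw [show j + j + d + d = (j + d + d) + j by ring, pow_add z (j + d + d) j, mul_assoc, this,
          mul_one, pow_add z (j+d) d]
      have e3 : z^(j + d) * (z⁻¹)^d = z^j := by
        rw [pow_add, mul_assoc, hz1, mul_one]
      linear_combination (P.coeff j / 2) * e2 - (P.coeff j / 2) * e3
    · obtain ⟨d, rfl⟩ := Nat.exists_eq_add_of_le hjm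
      have e1 : (m - (m + d)) + (m + d - m) = d := by omega
      rw [e1]
      have hd : d ≤ m := by omega
      obtain ⟨c, rfl⟩ := Nat.exists_eq_add_of_le hd
      have e2 : z^(2 * (d + c)) * (z⁻¹)^(d + c + d) = z^(d + c) * (z⁻¹)^d := by
        rw [pow_add z⁻¹ (d + c) d, ← mul_assoc, two_mul, pow_add z (d + c) (d + c), mul_assoc _ _
          ((z⁻¹)^(d+c)), hz1, mul_one]
      have e3 : z^(d + c) * z^d = z^(d + c + d) := by rw [← pow_add]
      linear_combination (P.coeff (d + c + d) / 2) * e2 - (P.coeff (d + c + d) / 2) * e3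

/-- a linear functional of `Psi (0 :: z :: l)` -/
theorem func (L : (St →₀ ℂ) →ₗ[ℂ] ℂ) (l : List ℂ) (m : ℕ) (hl : l.length = 2 * m) :
    ∃ R : ℂ[X], R.natDegree ≤ m ∧ ∀ z : ℂ, z ≠ 0 →
      L (Psi (0 :: z :: l)) = z^m * R.eval (om z) := by
  obtain ⟨c, hc⟩ := VP2 l
  beta_reduce at hc
  have hP : ∀ z, (∑ i ∈ Finset.range (l.length + 1), C (L (c i)) * X^i : ℂ[X]).eval z =
      L (Psi (0 :: z :: l)) := by
    intro z
    rw [hc z, map_sum, eval_finsetSum]
    refine Finset.sum_congr rfl fun i _ => ?_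
    rw [eval_mul, eval_C, eval_pow, eval_X, map_smul, smul_eq_mul, mul_comm]
  obtain ⟨R, hR, hR'⟩ := pal m (∑ i ∈ Finset.range (l.length + 1), C (L (c i)) * X^i) (by
    refine natDegree_sum_le_of_forall_le _ _ fun j hj => ?_
    rw [Finset.mem_range] at hj
    exact (natDegree_C_mul_X_pow_le _ _).trans (by omega)) (by
    intro z hz
    rw [hP, hP, inv2 l ⟨m, by omega⟩ hz, map_smul, smul_eq_mul, hl])
  exact ⟨R, hR, fun z hz => by rw [← hP z, hR' z hz]⟩

/-! ### the upper right strip has a small arc -/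

theorem cap_succ_ins (i : ℕ) (R : St) : St.cap (i+1) (St.ins i R) = R := by
  apply St.ins_inj (i+1)
  rw [← St.act_eq, St.act_succ_ins]

theorem map_cap_ins (i : ℕ) (f : St →₀ ℂ) :
    Finsupp.mapDomain (St.cap (i+1)) (Finsupp.mapDomain (St.ins i) f) = f := by
  rw [← Finsupp.mapDomain_comp]
  have : St.cap (i+1) ∘ St.ins i = id := funext (cap_succ_ins i)
  rw [this, Finsupp.mapDomain_id]

/-- the small arc `(v, first strand of the right arm)` is straightened -/
theorem straight (A : List ℂ) (k : ℕ) (hA : Odd A.length) (f g : St →₀ ℂ) :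
    bM A k (A.length + 2*k + 2) (Finsupp.mapDomain (St.ins (A.length + 1 + 2*k)) f)
      (Finsupp.mapDomain (St.ins 1) g) = bM A k (A.length + 2*k + 2) f g := by
  rw [bM_apply, bM_apply, Pool.Agent.NH38.Fork.Q7.comb2_ins_right',
    Pool.Agent.NH38.Fork.Q7.comb2_ins_right']
  have e1 : 1 + 2*k + 2*((A.length + 1)/2) = A.length + 2*k + 2 := by
    obtain ⟨c, hc⟩ := hA
    omega
  rw [e1]
  have h := Pool.Agent.NH38.Fork.E7.pair_ins A.length (A.length + 2*k + 2) (A.length + 2*k + 2)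
    (Finsupp.mapDomain (St.ins (A.length + 1 + 2*k)) f)
    (comb2 ((A.length + 1) / 2) (up1 A) (comb2 k (Finsupp.single St.bot 1) g))
  have u1 : St.up (A.length + 2*k + 2) A.length = A.length := by
    unfold St.up
    rw [if_pos (by omega)]
  have u2 : St.up (A.length + 2*k + 2) (A.length + 2*k + 2) = A.length + 2*k + 2 := by
    unfold St.up
    rw [if_pos le_rfl]
  rw [u1, u2] at h
  rw [h]
  have e2 : A.length + 2*k + 2 = A.length + 1 + 2*k + 1 := by ring
  congr 1
  rw [e2, map_cap_ins]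

/-! ### the empty right arm -/

theorem iso_jn {p r : ℕ} {R R' : St} (h : ∀ x, R.rel x r → x = r) (h' : ∀ x, R'.rel x r → x = r)
    (hpr : p ≠ r) : ¬ jn p r R R' := by
  intro hj
  have : ∀ x y, Relation.EqvGen (fun a b => R.rel a b ∨ R'.rel a b) x y → (x = r ↔ y = r) := by
    intro x y hxy
    induction hxy with
    | rel x y h1 =>
      constructor
      · rintro rfl
        rcases h1 with h1 | h1
        · exact h y (R.eqv.2 h1)
        · exact h' y (R'.eqv.2 h1)
      · rintro rfl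
        rcases h1 with h1 | h1
        · exact h x h1
        · exact h' x h1
    | refl x => exact Iff.rfl
    | symm x y _ ih => exact ih.symm
    | trans x y z _ _ ih1 ih2 => exact ih1.trans ih2
  exact hpr ((this _ _ hj).2 rfl)

theorem comb2_single_right (k : ℕ) (R' : St) (f : St →₀ ℂ) :
    comb2 k f (Finsupp.single R' 1) = Finsupp.mapDomain (fun R => comb k R R') f := by
  unfold comb2 Finsupp.mapDomain
  refine Finsupp.sum_congr (fun R _ => ?_)
  rw [Finsupp.sum_single_index]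
  · rw [mul_one]
  · simp

theorem empty_zero (A : List ℂ) (k : ℕ) (hA : Odd A.length) (f : St →₀ ℂ) :
    bM A k (A.length + 2*k + 2) (Finsupp.mapDomain (St.ins (A.length + 1 + 2*k)) f)
      (Finsupp.single St.bot 1) = 0 := by
  classical
  rw [bM_apply, Pool.Agent.NH38.Fork.Q6.comb2_bot, Finsupp.mapDomain_single]
  have e0 : comb k St.bot St.bot = St.bot := by
    apply St.ext'
    intro x y
    rw [Pool.Agent.NH38.Fork.Q6.inner_rel]
    show (x = y ∨ (2*k ≤ x ∧ 2*k ≤ y ∧ x - 2*k = y - 2*k)) ↔ x = y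
    omega
  rw [e0, comb2_single_right, Pool.Agent.H492C.P1_map_left]
  unfold Finsupp.sum
  refine Finset.sum_eq_zero fun R _ => Finset.sum_eq_zero fun R' hR' => ?_
  beta_reduce
  rw [if_neg, mul_zero]
  have hR2 := Finsupp.mapDomain_support hR'
  rw [Finset.mem_image] at hR2
  obtain ⟨R1, _, rfl⟩ := hR2
  obtain ⟨c, hc⟩ := hA
  refine iso_jn ?_ ?_ (by omega)
  · rintro x (h | ⟨_, _, _, h, _⟩)
    · exact h
    · omega
  · intro x
    rw [Pool.Agent.NH38.Fork.Q6.comb_rel]
    rintro (h | ⟨_, h, _⟩ | ⟨h1, h2, h3⟩)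
    · exact h
    · omega
    · have h4 : x - 2 * ((A.length + 1)/2) = A.length + 2*k + 2 - 2 * ((A.length + 1)/2) := h3
      omega

/-! ### the raw form -/

theorem E1_eq (A X B : List ℂ) (w v : ℂ) : E1 A X B w v =
    bM A X.length (A.length + 2 * X.length + 2) (Psi (A ++ w :: (prs X ++ v :: B)))
      (Psi (0 :: B.map (fun x => x⁻¹))) := by
  rw [bM_apply]; rfl

/-- the amplitude at `v = q ζ` -/
theorem E1_fac (A X B : List ℂ) (ha : Odd A.length) (hb : Even B.length) (hA : NZ A) (hX : NZ X)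
    (hB : NZ B) {w : ℂ} (hw : w ≠ 0) {ζ : ℂ} (hζ : ζ ≠ 0) :
    E1 A X (ζ :: B) w (q * ζ) =
      ζ^(A.length + 1 + 2 * X.length + B.length) * (A.prod * w * B.prod) *
        pom (om (q^2 * ζ)) (w :: (A ++ (B ++ prs X))) *
      bM A X.length (A.length + 2 * X.length + 2)
        (Finsupp.mapDomain (St.ins (A.length + 1 + 2 * X.length))
          (Psi ((A ++ w :: prs X) ++ B))) (Psi (0 :: ζ⁻¹ :: B.map (fun x => x⁻¹))) := by
  have hpl := prs_length X
  have hl : (A ++ w :: prs X).length = A.length + 1 + 2 * X.length := by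
    rw [List.length_append, List.length_cons, hpl]; omega
  have h3 := q_cube
  have hqq : q^2 * (q * ζ) = ζ := by linear_combination ζ * h3
  have h1 := Psi_rec (A ++ w :: prs X) B (q * ζ) (by
    rw [hl]
    obtain ⟨n, hn⟩ := ha
    obtain ⟨m, hm⟩ := hb
    exact ⟨n + X.length + m + 1, by omega⟩)
  rw [hqq, hl] at h1
  have e1 : A ++ w :: (prs X ++ (q * ζ) :: ζ :: B) =
      (A ++ w :: prs X) ++ (q * ζ) :: ζ :: B := by simp
  rw [E1_eq, e1, h1, map_smul, LinearMap.smul_apply, smul_eq_mul]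
  have hNZ : ∀ y ∈ (A ++ w :: prs X) ++ B, y ≠ 0 := by
    intro y hy
    rw [List.mem_append, List.mem_append, List.mem_cons] at hy
    rcases hy with (hy | hy | hy) | hy
    · exact hA y hy
    · rw [hy]; exact hw
    · exact prs_NZ X hX y hy
    · exact hB y hy
  have h4 : fac (q * ζ) ((A ++ w :: prs X) ++ B) =
      ζ^(A.length + 1 + 2 * X.length + B.length) * (A.prod * w * B.prod) *
        pom (om (q^2 * ζ)) (w :: (A ++ (B ++ prs X))) := by
    rw [fac_eq_pom _ (mul_ne_zero q_ne_zero hζ) _ hNZ, hqq, om_qq, pom_app, pom_app, pom_cons,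
      pom_cons, pom_app, pom_app, List.prod_append, List.prod_append, List.prod_cons,
      prs_prod' X hX, List.length_append, hl]
    ring
  rw [h4, List.map_cons]

/-- the value when `ζ⁻¹` hits the first parameter of the arm -/
theorem val_raw (A X B' : List ℂ) (ha : Odd A.length) (hb : Odd B'.length)
    (hB : NZ B') {w : ℂ} {β : ℂ} (hβ : β ≠ 0) :
    bM A X.length (A.length + 2 * X.length + 2)
        (Finsupp.mapDomain (St.ins (A.length + 1 + 2 * X.length))
          (Psi ((A ++ w :: prs X) ++ β :: B')))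
        (Psi (0 :: (q * β⁻¹) :: (β :: B').map (fun x => x⁻¹))) =
      -((β⁻¹)^(B'.length + 1) * (B'.prod)⁻¹ * pom (om (q * β)) B') * E1 A X B' w β := by
  have h3 := q_cube
  have hβi : β⁻¹ ≠ 0 := inv_ne_zero hβ
  have hqq : q^2 * (q * β⁻¹) = β⁻¹ := by linear_combination β⁻¹ * h3
  have h1 := Psi_rec [0] (B'.map (fun x => x⁻¹)) (q * β⁻¹) (by
    rw [List.length_singleton, List.length_map]
    obtain ⟨m, hm⟩ := hb
    exact ⟨m + 1, by omega⟩)
  rw [hqq, List.length_singleton] at h1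
  have e1 : (0:ℂ) :: (q * β⁻¹) :: (β :: B').map (fun x => x⁻¹) =
      [0] ++ (q * β⁻¹) :: β⁻¹ :: B'.map (fun x => x⁻¹) := by simp
  rw [e1, h1, map_smul, smul_eq_mul]
  have e2 : [(0:ℂ)] ++ B'.map (fun x => x⁻¹) = 0 :: B'.map (fun x => x⁻¹) := rfl
  rw [e2, straight A X.length ha, E1_eq]
  have e3 : (A ++ w :: prs X) ++ β :: B' = A ++ w :: (prs X ++ β :: B') := by simp
  rw [e3]
  congr 1
  have h5 : ∀ y ∈ B'.map (fun x => x⁻¹), y ≠ 0 := by
    intro y hy
    rw [List.mem_map] at hy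
    obtain ⟨x, hx, rfl⟩ := hy
    exact inv_ne_zero (hB x hx)
  rw [fac_cons', fac_eq_pom _ (mul_ne_zero q_ne_zero hβi) _ h5, om_qq, om_q2_inv,
    Pool.Agent.NH38.Fork.Q7.pom_map_inv, Pool.Agent.NH38.Fork.Q7.prod_map_inv, List.length_map,
    hqq, pow_succ]
  linear_combination (-(β⁻¹)^(B'.length) * β⁻¹ * (B'.prod)⁻¹ * pom (om (q * β)) B') * h3

theorem prod_ne {l : List ℂ} (h : NZ l) : l.prod ≠ 0 := by
  rw [Ne, List.prod_eq_zero_iff]
  exact fun h0 => h 0 h0 rfl

/-- the statement for the first element of `B` -/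
theorem head (A X B : List ℂ) (ha : Odd A.length) (hb : Even B.length) (hA : NZ A) (hX : NZ X)
    (hB : NZ B) {w : ℂ} (hw : w ≠ 0) : ∃ R : ℂ[X], R.natDegree ≤ B.length / 2 ∧
    (B = [] → R = 0) ∧
    (∀ ζ : ℂ, ζ ≠ 0 → eh A X (ζ :: B) w (q * ζ) =
      pom (om (q^2 * ζ)) (w :: (A ++ (B ++ prs X))) * R.eval (om ζ)) ∧
    ∀ (β : ℂ) (B' : List ℂ), B = β :: B' →
      R.eval (om (q^2 * β)) = - (pom (om (q * β)) B' * eh A X B' w β) := by
  obtain ⟨α, hα⟩ := id ha
  obtain ⟨m, hm'⟩ := id hb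
  have hm : B.length = 2 * m := by omega
  have hmd : B.length / 2 = m := by omega
  obtain ⟨K, hK⟩ : ∃ K, K = X.length := ⟨_, rfl⟩
  obtain ⟨L, hL⟩ : ∃ L : (St →₀ ℂ) →ₗ[ℂ] ℂ, L = bM A X.length (A.length + 2 * X.length + 2)
        (Finsupp.mapDomain (St.ins (A.length + 1 + 2 * X.length))
          (Psi ((A ++ w :: prs X) ++ B))) := ⟨_, rfl⟩
  obtain ⟨R0, hR0, hR0'⟩ := func L (B.map (fun x => x⁻¹)) m (by rw [List.length_map, hm])
  have hA0 := prod_ne hA
  have hB0 := prod_ne hB
  have hq0 := q_ne_zero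
  have hq3 := q_cube
  obtain ⟨e, he⟩ : ∃ e, e = ((A.length + (B.length + 1))/2 + K + 1) *
    ((A.length + (B.length + 1))/2 + K) +
    (((A.length+1)/2) * ((A.length-1)/2) + ((B.length+1+1)/2) * ((B.length+1-1)/2)) := ⟨_, rfl⟩
  have h1 : (A.length + (B.length + 1))/2 = α + m + 1 := by omega
  have h2 : (B.length + 1 + 1)/2 = m + 1 := by omega
  have h3 : (A.length + 1)/2 = α + 1 := by omega
  have hE : ∀ ζ : ℂ, cst A (ζ :: B) K (w * (q * ζ)) =
      (w^(α + m + 1 + K) * q^(α + m + 1 + K) * A.prod^(m + 1 + K) * B.prod^(α + 1 + K) *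
        q^e) * ζ^(2 * α + m + 2 + 2 * K) := by
    intro ζ
    unfold cst na
    rw [List.length_cons, List.prod_cons, ← he]
    rw [h1, h2, h3, mul_pow, mul_pow, mul_pow]
    have h4 : ζ^(2 * α + m + 2 + 2 * K) = ζ^(α + m + 1 + K) * ζ^(α + 1 + K) := by
      rw [← pow_add]; congr 1; ring
    rw [h4]
    ring
  obtain ⟨D0, hD0⟩ : ∃ D0 : ℂ, D0 = w^(α + m + 1 + K) * q^(α + m + 1 + K) *
    A.prod^(m + 1 + K) * B.prod^(α + 1 + K) * q^e := ⟨_, rfl⟩
  have hD0n : D0 ≠ 0 := by
    rw [hD0]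
    exact mul_ne_zero (mul_ne_zero (mul_ne_zero (mul_ne_zero (pow_ne_zero _ hw)
      (pow_ne_zero _ hq0)) (pow_ne_zero _ hA0)) (pow_ne_zero _ hB0)) (pow_ne_zero _ hq0)
  rw [← hD0] at hE
  refine ⟨C (A.prod * w * B.prod / D0) * R0, ?_, ?_, ?_, ?_⟩
  · rw [hmd]
    exact (natDegree_C_mul_le _ _).trans hR0
  · intro h
    have hm0 : m = 0 := by rw [h, List.length_nil] at hm; omega
    subst hm0
    have h5 := hR0' 1 one_ne_zero
    rw [h, List.map_nil, T18.Psi_two, pow_zero, one_mul, hL, empty_zero A X.length ha] at h5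
    rw [Polynomial.eq_C_of_natDegree_le_zero hR0, eval_C] at h5
    rw [Polynomial.eq_C_of_natDegree_le_zero hR0, ← h5]
    simp
  · intro ζ hζ
    have h5 := E1_fac A X B ha hb hA hX hB hw hζ
    rw [← hL, hR0' ζ⁻¹ (inv_ne_zero hζ), om_inv] at h5
    unfold eh
    rw [← hK, hE ζ, h5, ← hK, eval_mul, eval_C]
    have h6 : ζ^(A.length + 1 + 2*K + B.length) = ζ^(2 * α + m + 2 + 2 * K) * ζ^m := by
      rw [← pow_add]; congr 1; omega
    have h7 : ζ^m * (ζ⁻¹)^m = 1 := by rw [← mul_pow, mul_inv_cancel₀ hζ, one_pow]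
    rw [h6]
    have hζn : ζ^(2 * α + m + 2 + 2 * K) ≠ 0 := pow_ne_zero _ hζ
    generalize ζ^(2 * α + m + 2 + 2 * K) = Z1 at *
    rw [div_eq_iff (mul_ne_zero hD0n hζn)]
    generalize pom (om (q^2 * ζ)) (w :: (A ++ (B ++ prs X))) = P1
    generalize eval (om ζ) R0 = r0
    have h8 : A.prod * w * B.prod / D0 * D0 = A.prod * w * B.prod := div_mul_cancel₀ _ hD0n
    linear_combination (Z1 * (A.prod * w * B.prod) * P1 * r0) * h7 - (P1 * r0 * Z1) * h8
  · intro β B' hBB
    have hβ : β ≠ 0 := hB β (by rw [hBB]; simp)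
    have hB'NZ : NZ B' := fun z hz => hB z (by rw [hBB]; simp [hz])
    have hB'0 := prod_ne hB'NZ
    have hb' : Odd B'.length := by
      rw [hBB, List.length_cons] at hm
      exact ⟨m - 1, by omega⟩
    have h5 := val_raw (w := w) A X B' ha hb' hB'NZ hβ
    rw [← hBB, ← hL, hR0' _ (mul_ne_zero hq0 (inv_ne_zero hβ)), om_q_inv] at h5
    rw [eval_mul, eval_C]
    unfold eh
    obtain ⟨n, rfl⟩ : ∃ n, m = n + 1 := ⟨m - 1, by
      rw [hBB, List.length_cons] at hm; omega⟩
    have hlB' : B'.length = 2 * n + 1 := by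
      rw [hBB, List.length_cons] at hm; omega
    have hBp : B.prod = β * B'.prod := by rw [hBB, List.prod_cons]
    rw [hBp] at hD0 ⊢
    have hc' : cst A B' X.length (w * β) = w^(α + n + 1 + K) * β^(α + n + 1 + K) *
        A.prod^(n + 1 + K) * B'.prod^(α + 1 + K) *
        q^((α + n + 1 + K + 1) * (α + n + 1 + K) + ((α + 1) * α + (n + 1) * n)) := by
      unfold cst na
      rw [← hK]
      have d1 : (A.length + B'.length)/2 = α + n + 1 := by omega
      have d2 : (B'.length + 1)/2 = n + 1 := by omega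
      have d3 : (A.length - 1)/2 = α := by omega
      have d4 : (B'.length - 1)/2 = n := by omega
      rw [d1, d2, h3, d3, d4, mul_pow]
    have he2 : e = (α + (n + 1) + 1 + K + 1) * (α + (n + 1) + 1 + K) +
        ((α + 1) * α + (n + 2) * (n + 1)) := by
      have d3 : (A.length - 1)/2 = α := by omega
      have d4 : (B.length + 1 - 1)/2 = n + 1 := by omega
      rw [he, h1, h2, h3, d3, d4]
    have hc'0 : cst A B' X.length (w * β) ≠ 0 := by
      rw [hc']
      exact mul_ne_zero (mul_ne_zero (mul_ne_zero (mul_ne_zero (pow_ne_zero _ hw)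
        (pow_ne_zero _ hβ)) (pow_ne_zero _ hA0)) (pow_ne_zero _ hB'0)) (pow_ne_zero _ hq0)
    -- comparison of the constants
    have hcmp : D0 * (q^(n+1) * β^(n+1)) = A.prod * w * β * cst A B' X.length (w * β) := by
      have hqe : q^(α + (n + 1) + 1 + K) * q^e * q^(n+1) =
          q^((α + n + 1 + K + 1) * (α + n + 1 + K) + ((α + 1) * α + (n + 1) * n)) := by
        have h9 : q^(3 * ((α + n + 1 + K + 1) + (n + 1))) = 1 := by
          rw [pow_mul, q_cube, one_pow]
        rw [← pow_add, ← pow_add, ← mul_one (q^((α + n + 1 + K + 1) * (α + n + 1 + K) +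
          ((α + 1) * α + (n + 1) * n))), ← h9, ← pow_add, he2]
        congr 1
        ring
      rw [hc', ← hqe, hD0]
      ring
    generalize cst A B' X.length (w * β) = c' at *
    generalize E1 A X B' w β = E at *
    generalize pom (om (q * β)) B' = P1 at *
    generalize eval (om (q^2 * β)) R0 = r0 at *
    rw [hlB'] at h5
    have hq1 : q^(n+1) ≠ 0 := pow_ne_zero _ hq0
    have hβ1 : β^(n+1) ≠ 0 := pow_ne_zero _ hβ
    have h10 : r0 * (q^(n+1) * β^(n+1) * B'.prod) = -(P1 * E) := by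
      have e1 : (β⁻¹)^(n+1) * β^(n+1) = 1 := by
        rw [← mul_pow, inv_mul_cancel₀ hβ, one_pow]
      have e2 : (β⁻¹)^(2*n+1+1) * (β^(n+1) * β^(n+1)) = 1 := by
        rw [← pow_add, show 2*n+1+1 = n+1+(n+1) by ring, ← mul_pow, inv_mul_cancel₀ hβ, one_pow]
      have e3 : (B'.prod)⁻¹ * B'.prod = 1 := inv_mul_cancel₀ hB'0
      rw [mul_pow] at h5
      generalize (β⁻¹)^(2*n+1+1) = g2 at *
      generalize (β⁻¹)^(n+1) = g1 at *
      generalize (B'.prod)⁻¹ = g3 at *
      calc r0 * (q^(n+1) * β^(n+1) * B'.prod)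
          = (q^(n+1) * g1 * r0) * (β^(n+1) * β^(n+1)) * B'.prod := by
            linear_combination (-(q^(n+1) * r0 * β^(n+1) * B'.prod)) * e1
        _ = -(g2 * g3 * P1) * E * (β^(n+1) * β^(n+1)) * B'.prod := by rw [h5]
        _ = -(P1 * E) := by
            linear_combination (-(g3 * P1 * E * B'.prod)) * e2 - (P1 * E) * e3
    rw [div_mul_eq_mul_div, div_eq_iff hD0n]
    have h11 : E / c' * c' = E := div_mul_cancel₀ _ hc'0
    apply mul_left_cancel₀ (mul_ne_zero hq1 hβ1)
    linear_combination (A.prod * w * β) * h10 + (P1 * (E / c')) * hcmp + (A.prod * w * β * P1) * h11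

/-! ### uniqueness -/

theorem om_surj (c : ℂ) : ∃ z : ℂ, z ≠ 0 ∧ om z = c := by
  obtain ⟨s, hs⟩ := IsAlgClosed.exists_pow_nat_eq (c^2 - 4) (n := 2) (by norm_num)
  have h1 : ((c + s) / 2) * ((c - s) / 2) = 1 := by linear_combination (-1/4 : ℂ) * hs
  refine ⟨(c + s) / 2, left_ne_zero_of_mul_eq_one h1, ?_⟩
  unfold om
  rw [inv_eq_of_mul_eq_one_right h1]
  ring

theorem uniq {L : List ℂ} (hL : NZ L) {R R' : ℂ[X]}
    (h : ∀ ζ : ℂ, ζ ≠ 0 → pom (om (q^2 * ζ)) L * R.eval (om ζ) =
      pom (om (q^2 * ζ)) L * R'.eval (om ζ)) : R = R' := by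
  apply Polynomial.eq_of_infinite_eval_eq
  have hfin := (bad_fin L hL).image om
  refine hfin.infinite_compl.mono fun c hc => ?_
  obtain ⟨z, hz, rfl⟩ := om_surj c
  show R.eval (om z) = R'.eval (om z)
  have h1 : pom (om (q^2 * z)) L ≠ 0 := by
    intro h0
    exact hc ⟨z, Or.inr ⟨hz, h0⟩, rfl⟩
  exact mul_left_cancel₀ h1 (h z hz)

end Q5

open Q5 in
open Pool.Agent.NH38.Fork.Q8 (prs_NZ) in
open Pool.Agent.NH38.Step (om_inv om_q_inv om_q2_inv pom_app pom_cons pom_perm) in
theorem t1_bnode : S1_perm → S1_invB → S1_bnode := by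
  intro hperm hinvB A X B ha hb hA hX hB w hw
  obtain ⟨R, h1, h2, h3, -⟩ := head A X B ha hb hA hX hB hw
  have hNZ : NZ (w :: (A ++ (B ++ prs X))) := by
    intro y hy
    rw [List.mem_cons, List.mem_append, List.mem_append] at hy
    rcases hy with hy | hy | hy | hy
    · rw [hy]; exact hw
    · exact hA y hy
    · exact hB y hy
    · exact prs_NZ X hX y hy
  refine ⟨R, h1, h2, h3, fun β B' hp => ?_⟩
  have hB1 : NZ (β :: B') := fun z hz => hB z (hp.mem_iff.2 hz)
  have hβ : β ≠ 0 := hB1 β (by simp)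
  have hB'NZ : NZ B' := fun z hz => hB1 z (by simp [hz])
  have hβi : β⁻¹ ≠ 0 := inv_ne_zero hβ
  have hb1 : Even (β :: B').length := by rw [← hp.length_eq]; exact hb
  have hpom : ∀ a : ℂ, pom a (w :: (A ++ ((β :: B') ++ prs X))) =
      pom a (w :: (A ++ (B ++ prs X))) := fun a =>
    pom_perm a (((hp.symm.append_right _).append_left _).cons _)
  have hq0 := q_ne_zero
  constructor
  · obtain ⟨R', k1, k2, k3, k4⟩ := head A X (β :: B') ha hb1 hA hX hB1 hw
    have hRR : R = R' := by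
      refine uniq hNZ fun ζ hζ => ?_
      have hζB : NZ (ζ :: B) := by
        intro z hz
        rw [List.mem_cons] at hz
        rcases hz with hz | hz
        · rw [hz]; exact hζ
        · exact hB z hz
      rw [← h3 ζ hζ, ← hpom, ← k3 ζ hζ]
      exact hperm A A X (ζ :: B) (ζ :: β :: B') ha (by rw [List.length_cons]; exact hb.add_one)
        hA hX hζB (List.Perm.refl _) (hp.cons ζ) w (q * ζ) hw (mul_ne_zero hq0 hζ)
    rw [hRR]
    exact k4 β B' rfl
  · have hB2 : NZ (β⁻¹ :: B') := by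
      intro z hz
      rw [List.mem_cons] at hz
      rcases hz with hz | hz
      · rw [hz]; exact hβi
      · exact hB'NZ z hz
    have hb2 : Even (β⁻¹ :: B').length := by rw [List.length_cons] at hb1 ⊢; exact hb1
    have hpom2 : ∀ a : ℂ, pom a (w :: (A ++ ((β⁻¹ :: B') ++ prs X))) =
        pom a (w :: (A ++ (B ++ prs X))) := by
      intro a
      rw [← hpom, pom_cons, pom_cons, pom_app, pom_app, pom_app, pom_app, pom_cons, pom_cons,
        om_inv]
    obtain ⟨R', k1, k2, k3, k4⟩ := head A X (β⁻¹ :: B') ha hb2 hA hX hB2 hw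
    have hRR : R = R' := by
      refine uniq hNZ fun ζ hζ => ?_
      have hζB : NZ (ζ :: B) := by
        intro z hz
        rw [List.mem_cons] at hz
        rcases hz with hz | hz
        · rw [hz]; exact hζ
        · exact hB z hz
      have hζB' : NZ (ζ :: B') := by
        intro z hz
        rw [List.mem_cons] at hz
        rcases hz with hz | hz
        · rw [hz]; exact hζ
        · exact hB'NZ z hz
      have hζB2 : NZ (β⁻¹ :: ζ :: B') := by
        intro z hz
        rw [List.mem_cons] at hz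
        rcases hz with hz | hz
        · rw [hz]; exact hβi
        · exact hζB' z hz
      have hoB' : Even (ζ :: B').length := by rw [List.length_cons] at hb1 ⊢; exact hb1
      have hqζ := mul_ne_zero hq0 hζ
      rw [← h3 ζ hζ, ← hpom2, ← k3 ζ hζ]
      rw [hperm A A X (ζ :: B) (β :: ζ :: B') ha (by rw [List.length_cons]; exact hb.add_one)
        hA hX hζB (List.Perm.refl _) ((hp.cons ζ).trans (List.Perm.swap β ζ B')) w (q * ζ) hw hqζ,
        hinvB A X (ζ :: B') β ha hoB' hA hX hζB' hβ w (q * ζ) hw hqζ]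
      exact hperm A A X (β⁻¹ :: ζ :: B') (ζ :: β⁻¹ :: B') ha
        (by rw [List.length_cons]; exact hoB'.add_one)
        hA hX hζB2 (List.Perm.refl _) (List.Perm.swap ζ β⁻¹ B') w (q * ζ) hw hqζ
    have h5 := k4 β⁻¹ B' rfl
    rw [om_q2_inv, om_q_inv] at h5
    rw [hRR]
    exact h5

end Pool.Agent.H966.T1
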