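import Pool.Agent.H966.T1.Stubs
import Pool.Graph.R_pool_sql_team_seeded_3dad9d7b.NH38.Fork.Reg

/-!
Forked channels of even width (helper966), task Q7 (helper127): regularity of `eh` along
polynomial families of parameters.
-/

namespace Pool.Agent.H966.T1

open Pool.Agent.H988R2.Perc hiding X
open Pool.Agent.H492C (comb comb2 pairG up1)
open Pool.Agent.NH38.Step (om prs EE zs prF Gen on cardy pom bev)
open Pool.Agent.NH38.Fork (zo mm na cst gh Dh NZ LR UL)
open Pool.Agent.NH38.Fork.Rg Pool.Agent.NH38.Fork.M4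
open Polynomial

namespace Q7

variable {P : ℂ[X]}

/-- inverses, with a zero in front -/
noncomputable def iv0 (l : List (ℂ → ℂ → ℂ)) : List (ℂ → ℂ → ℂ) :=
  (fun _ _ => 0) :: l.map (fun f t w => (f t w)⁻¹)

theorem vl_iv0 (l : List (ℂ → ℂ → ℂ)) (t w : ℂ) :
    vl (iv0 l) t w = 0 :: (vl l t w).map (fun x => x⁻¹) := by
  unfold iv0
  rw [vl_cons]
  unfold vl
  rw [List.map_map, List.map_map]
  rfl

theorem vlr_up0 (l : List (ℂ → ℂ → ℂ)) (h : ∀ f ∈ l, UL P f) :
    VLR P (fun t w => Psi (0 :: (vl l t w).map (fun x => x⁻¹))) := by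
  have h1 := vlr_psi (P := P) (iv0 l) (fun f hf => by
    unfold iv0 at hf
    rcases List.mem_cons.mp hf with hf | hf
    · rw [hf]
      exact lr_const 0
    · rw [List.mem_map] at hf
      obtain ⟨g, hg, rfl⟩ := hf
      exact (h g hg).2)
  refine (iff_of_eq (congrArg (VLR P) ?_)).mp h1
  funext t w
  rw [vl_iv0]

theorem vlr_U1 (A B : List (ℂ → ℂ → ℂ)) (m : ℕ) (hA : ∀ f ∈ A, UL P f) (hB : ∀ f ∈ B, UL P f) :
    VLR P (fun t w => U1 (vl A t w) m (vl B t w)) := by
  have h1 := vlr_comb2 (vlr_up A hA) (vlr_comb2 (vlr_single (P := P) St.bot) (vlr_up0 B hB) m)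
    ((A.length + 1)/2)
  refine (iff_of_eq (congrArg (VLR P) ?_)).mp h1
  funext t w
  unfold U1
  rw [vl_length]

theorem lr_E1 (A X B : List (ℂ → ℂ → ℂ)) (f h : ℂ → ℂ → ℂ) (hA : ∀ f ∈ A, UL P f)
    (hX : ∀ f ∈ X, UL P f) (hB : ∀ f ∈ B, UL P f) (hf : UL P f) (hh : UL P h) :
    LR P (fun t w => E1 (vl A t w) (vl X t w) (vl B t w) (f t w) (h t w)) := by
  have h1 := vlr_psi (P := P) (A ++ f :: (prf X ++ h :: B)) (fun g hg => by
    simp only [List.mem_append, List.mem_cons] at hg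
    rcases hg with hg | hg | hg | hg | hg
    · exact (hA g hg).1
    · rw [hg]; exact hf.1
    · exact (ul_prf X hX g hg).1
    · rw [hg]; exact hh.1
    · exact (hB g hg).1)
  have h2 := lr_pairG h1 (vlr_U1 A B X.length hA hB) A.length (A.length + 2 * X.length + 2)
  refine (iff_of_eq (congrArg (LR P) ?_)).mp h2
  funext t w
  unfold E1
  rw [vl_app, vl_cons, vl_app, vl_cons, vl_prf, vl_length, vl_length]

end Q7

open Q7 in
theorem t1_reg : S1_reg := by
  intro P A X B f h _ _ hA hX hB hf hh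
  have h1 := lr_E1 A X B f h hA hX hB hf hh
  have h2 := (ul_cst A B (fun t w => f t w * h t w) X.length hA hB (ul_mul hf hh)).2
  refine (iff_of_eq (congrArg (LR P) ?_)).mp (h1.m4mul h2)
  funext t w
  rw [← div_eq_mul_inv]
  unfold eh
  rw [List.length_map]
  rfl

end Pool.Agent.H966.T1
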