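import Pool.Agent.H966.T1.Stubs
import Pool.Graph.R_pool_sql_team_seeded_3dad9d7b.NH38.Fork.Q6
import Pool.Graph.R_pool_sql_team_seeded_3dad9d7b.NH38.Fork.Q7

/-!
Forked channels of even width, both inner walls (project of helper966): task SL (helper400),
the slides `S1_slA`, `S1_slB`.
-/

namespace Pool.Agent.H966.T1

open Pool.Agent.H988R2.Perc hiding X
open Pool.Agent.H492C (comb comb2 pairG up1 jn)

namespace SL

open Pool.Agent.H988C (Cop Cs mapDomain_Cop_comm cap_Cs cap_ins_right dyck_arc gconn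
  gconn_ins_right gconn_right ins_rel_self q_sq_spec ins_zero_bot act_rel_self)

/-! ### operators on an inserted arc -/

theorem Cop_Cop_ins {c : ℂ} (hc : c^2 + c + 1 = 0) (i : ℕ) (f : St →₀ ℂ) :
    Cop c i (Cop c (i+1) (Finsupp.mapDomain (St.ins i) f)) =
      Finsupp.mapDomain (St.ins (i+1)) f := by
  have hc3 : c^3 = 1 := by linear_combination (c - 1) * hc
  unfold Cop
  simp only [Finsupp.mapDomain_add, Finsupp.mapDomain_smul, ← Finsupp.mapDomain_comp, smul_add,
    smul_smul]
  have e1 : St.act (i+1) ∘ St.ins i = St.ins (i+1) := funext (St.act_succ_ins i)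
  have e2 : St.act i ∘ St.ins i = St.ins i := funext (St.act_ins_self i)
  have e3 : St.act i ∘ St.ins (i+1) = St.ins i := funext (St.act_ins_succ i)
  rw [e1, e2, e3]
  have h4 : c^4 = c := by linear_combination c * hc3
  have r1 : -c * -c + (-c^2 * -c + -c^2 * -c^2) = 0 := by
    linear_combination hc + hc3 + h4
  have r2 : -c * -c^2 = 1 := by linear_combination hc3
  rw [r2, one_smul]
  have : ∀ x y : St →₀ ℂ, (-c * -c) • x + y + ((-c^2 * -c) • x + (-c^2 * -c^2) • x) =
      y + (-c * -c + (-c^2 * -c + -c^2 * -c^2)) • x := by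
    intro x y
    rw [add_smul, add_smul]; abel
  rw [this, r1, zero_smul, add_zero]

theorem Cs_ins_left (c : ℂ) (i : ℕ) : ∀ (n a : ℕ), i ≤ a → ∀ f : St →₀ ℂ,
    Cs c (a+2) n (Finsupp.mapDomain (St.ins i) f) = Finsupp.mapDomain (St.ins i) (Cs c a n f) := by
  intro n
  induction n with
  | zero => intro a _ f; rfl
  | succ n ih =>
    intro a ha f
    rw [Cs, Cs, show a + 2 + 1 = (a+1) + 2 by ring, ih (a+1) (by omega)]
    refine (mapDomain_Cop_comm (fun R => ?_) _).symm
    rw [St.act_ins_left (by omega)]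
    rfl

/-- pulling a strand over an arc -/
theorem Cs_ins {c : ℂ} (hc : c^2 + c + 1 = 0) (k : ℕ) : ∀ (a n : ℕ), k ≤ n → ∀ f : St →₀ ℂ,
    Cs c a (n+2) (Finsupp.mapDomain (St.ins (a+k)) f) =
      Finsupp.mapDomain (St.ins (a+k+1)) (Cs c a n f) := by
  induction k with
  | zero =>
    intro a n _ f
    rw [Cs, Cs, add_zero, show a+1+1 = a+2 by ring, Cs_ins_left c a n a le_rfl,
      Cop_Cop_ins hc]
  | succ k ih =>
    intro a n hn f
    obtain ⟨n, rfl⟩ : ∃ n', n = n' + 1 := ⟨n-1, by omega⟩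
    have := ih (a+1) n (by omega) f
    rw [show a + 1 + k = a + (k+1) by ring] at this
    rw [Cs, this]
    exact (mapDomain_Cop_comm (fun R => (St.act_ins_right (by omega) R).symm) _).symm

/-! ### the bilinear form -/

theorem pairG_ins_right (p r i : ℕ) (f g : St →₀ ℂ) :
    pairG (St.up i p) (St.up i r) f (Finsupp.mapDomain (St.ins i) g) =
      pairG p r (Finsupp.mapDomain (St.cap i) f) g := by
  classical
  rw [H492C.G1w.pairG_map_right, H492C.G1w.pairG_map_left]
  refine Finsupp.sum_congr (fun R _ => Finsupp.sum_congr (fun R' _ => ?_))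
  have h : jn (St.up i p) (St.up i r) R (St.ins i R') ↔ jn p r (St.cap i R) R' :=
    gconn_ins_right p r i R R'
  by_cases h1 : jn p r (St.cap i R) R'
  · rw [if_pos h1, if_pos (h.2 h1)]
  · rw [if_neg h1, if_neg (fun k => h1 (h.1 k))]

/-- the end `x + 2` of an arc inserted at an odd `x` -/
theorem pairG_end_right {p x : ℕ} (hx : x % 2 = 1) (f g : St →₀ ℂ) :
    pairG p (x+2) f (Finsupp.mapDomain (St.ins x) g) =
      pairG p x f (Finsupp.mapDomain (St.ins x) g) := by
  classical
  rw [H492C.G1w.pairG_map_right, H492C.G1w.pairG_map_right]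
  refine Finsupp.sum_congr (fun R _ => Finsupp.sum_congr (fun R' _ => ?_))
  have h : jn p (x+2) R (St.ins x R') ↔ jn p x R (St.ins x R') :=
    gconn_right (Or.inr (ins_rel_self hx R'))
  by_cases h1 : jn p x R (St.ins x R')
  · rw [if_pos h1, if_pos (h.2 h1)]
  · rw [if_neg h1, if_neg (fun k => h1 (h.1 k))]

theorem pairG_end_left {p x : ℕ} (hx : x % 2 = 1) (f g : St →₀ ℂ) :
    pairG p (x+2) (Finsupp.mapDomain (St.ins x) f) g =
      pairG p x (Finsupp.mapDomain (St.ins x) f) g := by
  classical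
  rw [H492C.G1w.pairG_map_left, H492C.G1w.pairG_map_left]
  refine Finsupp.sum_congr (fun R _ => Finsupp.sum_congr (fun R' _ => ?_))
  have h : jn p (x+2) (St.ins x R) R' ↔ jn p x (St.ins x R) R' :=
    gconn_right (Or.inl (ins_rel_self hx R))
  by_cases h1 : jn p x (St.ins x R) R'
  · rw [if_pos h1, if_pos (h.2 h1)]
  · rw [if_neg h1, if_neg (fun k => h1 (h.1 k))]

/-- upper arc at `p + i`, ends `a` and `p + m + 2` -/
theorem pairG_arc {a p m i : ℕ} (ha : a ≤ p) (hpm : (p + m) % 2 = 1) (hi : i ≤ m)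
    (f g : St →₀ ℂ) : pairG a (p + m + 2) f (Finsupp.mapDomain (St.ins (p+i)) g) =
      pairG a (p + m) (Finsupp.mapDomain (St.cap (p+i)) f) g := by
  have hs : St.up (p+i) a = a := by unfold St.up; rw [if_pos (by omega)]
  rcases Nat.lt_or_ge i m with h | h
  · have ht : St.up (p+i) (p+m) = p+m+2 := by unfold St.up; rw [if_neg (by omega)]
    have := pairG_ins_right a (p+m) (p+i) f g
    rw [hs, ht] at this
    exact this
  · have him : i = m := by omega
    subst him
    have ht : St.up (p+i) (p+i) = p+i := by unfold St.up; rw [if_pos le_rfl]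
    have := pairG_ins_right a (p+i) (p+i) f g
    rw [hs, ht] at this
    rw [pairG_end_right hpm, this]

/-- upper arc at `x + j`, ends `a` and `x` not touched -/
theorem pairG_arc' {a x j : ℕ} (ha : a ≤ x) (f g : St →₀ ℂ) :
    pairG a x f (Finsupp.mapDomain (St.ins (x+j)) g) =
      pairG a x (Finsupp.mapDomain (St.cap (x+j)) f) g := by
  have hs : St.up (x+j) a = a := by unfold St.up; rw [if_pos (by omega)]
  have ht : St.up (x+j) x = x := by unfold St.up; rw [if_pos (by omega)]
  have := pairG_ins_right a x (x+j) f g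
  rw [hs, ht] at this
  exact this

theorem pairG_zero {p r : ℕ} (φ ψ : St → St) (h : ∀ R R', ¬ jn p r (φ R) (ψ R'))
    (f g : St →₀ ℂ) : pairG p r (Finsupp.mapDomain φ f) (Finsupp.mapDomain ψ g) = 0 := by
  classical
  rw [H492C.G1w.pairG_map_right, Finsupp.sum_mapDomain_index]
  · refine Finset.sum_eq_zero (fun R _ => Finset.sum_eq_zero (fun R' _ => ?_))
    simp only []
    rw [if_neg (h R R'), mul_zero]
  · intro R; simp
  · intro R b c
    rw [← Finsupp.sum_add]
    refine Finsupp.sum_congr (fun R' _ => ?_)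
    ring

/-! ### the upper vector -/

/-- the upper vector: left block `g`, `k` small arcs, right block `h` -/
noncomputable def W (a k : ℕ) (g h : St →₀ ℂ) : St →₀ ℂ :=
  comb2 ((a+1)/2) g (comb2 k (Finsupp.single St.bot 1) h)

theorem W_ins {a p : ℕ} (ha : Odd a) (k : ℕ) (hp : p = a + 1 + 2*k) (i : ℕ) (g h : St →₀ ℂ) :
    W a k g (Finsupp.mapDomain (St.ins i) h) =
      Finsupp.mapDomain (St.ins (p + i)) (W a k g h) := by
  have e1 : p + i = i + 2*k + 2*((a + 1)/2) := by
    obtain ⟨c, hc⟩ := ha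
    omega
  unfold W
  rw [NH38.Fork.Q7.comb2_ins_right', NH38.Fork.Q7.comb2_ins_right', e1]

theorem comb_bot_bot (k : ℕ) : comb k St.bot St.bot = St.bot := by
  apply St.ext'
  intro x y
  have hb : ∀ a b : ℕ, St.bot.rel a b ↔ a = b := fun _ _ => Iff.rfl
  rw [NH38.Fork.Q6.comb_rel]
  simp only [hb]
  omega

theorem W_bot (a k : ℕ) (g : St →₀ ℂ) : W a k g (Finsupp.single St.bot 1) =
    Finsupp.mapDomain (fun R => comb ((a+1)/2) R St.bot) g := by
  have e1 : comb2 k (Finsupp.single St.bot 1) (Finsupp.single St.bot 1) =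
      (Finsupp.single St.bot 1 : St →₀ ℂ) := by
    unfold comb2
    rw [Finsupp.sum_single_index, Finsupp.sum_single_index, comb_bot_bot, one_mul]
    · rw [mul_zero, Finsupp.single_zero]
    · rw [Finsupp.sum_single_index] <;> rw [zero_mul, Finsupp.single_zero]
  unfold W
  rw [e1]
  unfold comb2 Finsupp.mapDomain
  refine Finsupp.sum_congr (fun R _ => ?_)
  rw [Finsupp.sum_single_index, mul_one]
  rw [mul_zero, Finsupp.single_zero]

theorem comb_bot_iso {K r : ℕ} (hr : 2*K ≤ r) (R : St) (x : ℕ)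
    (h : (comb K R St.bot).rel x r) : x = r := by
  rcases h with h | ⟨_, h, _⟩ | ⟨h1, h2, h3⟩
  · exact h
  · omega
  · have : x - 2*K = r - 2*K := h3
    omega

/-- a state of the lower strip with isolated face `r` -/
theorem zero_bot {a k r : ℕ} (ha : Odd a) (hr : a < r) (φ : St → St)
    (hφ : ∀ R x, (φ R).rel x r → x = r) (f g : St →₀ ℂ) :
    pairG a r (Finsupp.mapDomain φ f) (W a k g (Finsupp.single St.bot 1)) = 0 := by
  rw [W_bot]
  refine pairG_zero _ _ (fun R R' => ?_) f g
  refine H492C.jn_isol (by omega) _ _ (hφ R) (fun x hx => comb_bot_iso ?_ R' x hx)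
  obtain ⟨c, hc⟩ := ha
  omega

theorem act0_bot : St.act 0 St.bot = St.bot := by
  apply St.ext'
  intro x y
  have hb : ∀ a b : ℕ, St.bot.rel a b ↔ a = b := fun _ _ => Iff.rfl
  rw [Pool.Agent.H988C.act_bot_rel, hb]
  omega

theorem Cs_one_bot : Cs q 0 1 (Finsupp.single St.bot 1) = Finsupp.single St.bot 1 := by
  show Cop q 0 (Finsupp.single St.bot 1) = _
  unfold Cop
  rw [Finsupp.mapDomain_single, act0_bot, ← add_smul]
  have : -q + -q^2 = 1 := by linear_combination -q_spec
  rw [this, one_smul]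

theorem Phi_two {S : Word} (hS : Dyck S) (hl : S.length = 2*0+2) : Phi (0+1) S = St.bot := by
  cases hS with
  | nil => simp at hl
  | ins i w' hi hw' =>
    have hl' : w'.length = 0 := by rw [length_ins] at hl; omega
    have hw0 : w' = [] := List.length_eq_zero_iff.mp hl'
    subst hw0
    have hi0 : i = 0 := by simpa using hi
    subst hi0
    rw [Phi_ins (n := 0) Dyck.nil rfl (by omega)]
    exact ins_zero_bot

theorem cap_comb_bot {K x : ℕ} (hx : 2*K ≤ x) (R : St) :
    St.cap x (comb K R St.bot) = comb K R St.bot := by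
  apply St.ins_inj x
  rw [← St.act_eq]
  apply St.ext'
  intro u v
  rw [St.act_rel, St.ins_rel]
  simp only [NH38.Fork.Q6.comb_rel]
  have hb : ∀ a b : ℕ, St.bot.rel a b ↔ a = b := fun _ _ => Iff.rfl
  simp only [hb]
  have ho := R.odd u v
  unfold St.low
  constructor
  · rintro (h | ⟨h1, h2, h3, h4, (h | ⟨h, h'⟩ | ⟨h, h'⟩)⟩)
    · exact Or.inl h
    · rcases h with h | ⟨k1, k2, k3⟩ | ⟨k1, k2, k3⟩
      · exact Or.inl h
      · refine Or.inr ⟨h1, h2, h3, h4, Or.inr (Or.inl ?_)⟩
        rw [if_pos (by omega), if_pos (by omega)]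
        exact ⟨k1, k2, k3⟩
      · left; omega
    · have e1 : u = x := by
        rcases h with h | ⟨_, h, _⟩ | ⟨_, _, h⟩ <;> omega
      have e2 : v = x + 2 := by
        rcases h' with h | ⟨_, h, _⟩ | ⟨_, _, h⟩ <;> omega
      refine Or.inr ⟨h1, h2, h3, h4, Or.inl ?_⟩
      rw [if_pos (by omega), if_neg (by omega)]
      omega
    · have e1 : u = x + 2 := by
        rcases h with h | ⟨_, h, _⟩ | ⟨_, _, h⟩ <;> omega
      have e2 : v = x := by
        rcases h' with h | ⟨_, h, _⟩ | ⟨_, _, h⟩ <;> omega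
      refine Or.inr ⟨h1, h2, h3, h4, Or.inl ?_⟩
      rw [if_neg (by omega), if_pos (by omega)]
      omega
  · rintro (h | ⟨h1, h2, h3, h4, h⟩)
    · exact Or.inl h
    · rcases h with h | ⟨k1, k2, k3⟩ | ⟨k1, k2, k3⟩
      · by_cases hu : u ≤ x
        · by_cases hv : v ≤ x
          · rw [if_pos hu, if_pos hv] at h
            exact Or.inl h
          · rw [if_pos hu, if_neg hv] at h
            refine Or.inr ⟨h1, h2, h3, h4, Or.inr (Or.inl ⟨Or.inl (by omega), Or.inl (by omega)⟩)⟩
        · by_cases hv : v ≤ x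
          · rw [if_neg hu, if_pos hv] at h
            refine Or.inr ⟨h1, h2, h3, h4, Or.inr (Or.inr ⟨Or.inl (by omega), Or.inl (by omega)⟩)⟩
          · rw [if_neg hu, if_neg hv] at h
            left; omega
      · have hu : u ≤ x := by
          by_contra hu
          rw [if_neg hu] at k1
          omega
        have hv : v ≤ x := by
          by_contra hv
          rw [if_neg hv] at k2
          omega
        rw [if_pos hu] at k1 k3
        rw [if_pos hv] at k2 k3
        exact Or.inr ⟨h1, h2, h3, h4, Or.inl (Or.inr (Or.inl ⟨k1, k2, k3⟩))⟩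
      · by_cases hu : u ≤ x
        · by_cases hv : v ≤ x
          · rw [if_pos hu] at k1 k3
            rw [if_pos hv] at k2 k3
            left; omega
          · rw [if_pos hu] at k1 k3
            rw [if_neg hv] at k2 k3
            refine Or.inr ⟨h1, h2, h3, h4, Or.inr (Or.inl ⟨Or.inl (by omega), Or.inl (by omega)⟩)⟩
        · by_cases hv : v ≤ x
          · rw [if_neg hu] at k1 k3
            rw [if_pos hv] at k2 k3
            refine Or.inr ⟨h1, h2, h3, h4, Or.inr (Or.inr ⟨Or.inl (by omega), Or.inl (by omega)⟩)⟩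
          · rw [if_neg hu] at k1 k3
            rw [if_neg hv] at k2 k3
            left; omega

/-! ### slide A -/

theorem Cs_arc (m i : ℕ) (hi : i ≤ m) (S : St) :
    Cs q 0 (m+2) (Finsupp.single (St.ins i S) 1) =
      Finsupp.mapDomain (St.ins (i+1)) (Cs q 0 m (Finsupp.single S 1)) := by
  have h := Cs_ins q_spec i 0 m hi (Finsupp.single S 1)
  rw [Finsupp.mapDomain_single, zero_add] at h
  exact h

theorem slA {a k p : ℕ} (ha : Odd a) (hp : p = a + 1 + 2*k) {c : ℂ} (hc : c^2 + c + 1 = 0)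
    (n : ℕ) : ∀ S : Word, Dyck S → S.length = 2*n+2 → ∀ f g : St →₀ ℂ,
    pairG a (p + 1) (Cs c p (2*n+1) f)
      (W a k g (Cs q 0 (2*n+1) (Finsupp.single (Phi (n+1) S) 1))) =
    -c * pairG a (p + (2*n+1)) f (W a k g (Finsupp.single (Phi (n+1) S) 1)) := by
  have hpar : p % 2 = 0 := by
    obtain ⟨d, hd⟩ := ha
    omega
  induction n with
  | zero =>
    intro S hS hl f g
    rw [Phi_two hS hl, Cs_one_bot]
    show pairG a (p + 1) (Cop c p f) _ = _
    unfold Cop
    rw [H492C.G1w.pairG_add_left, H492C.G1w.pairG_smul_left, H492C.G1w.pairG_smul_left,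
      zero_bot ha (by omega) (St.act p)]
    · ring
    · intro R x h
      exact (act_rel_self p x R).1 ((St.act p R).eqv.2 h)
  | succ n ih =>
    intro S hS hl f g
    obtain ⟨i, S', hi, hS', hl', rfl⟩ := dyck_arc (n := n) hS (by omega)
    have e1 : Phi (n+1+1) (ins i S') = St.ins i (Phi (n+1) S') :=
      Phi_ins hS' (by omega) (by omega)
    have e2 : (Finsupp.single (St.ins i (Phi (n+1) S')) 1 : St →₀ ℂ) =
        Finsupp.mapDomain (St.ins i) (Finsupp.single (Phi (n+1) S') 1) := by
      rw [Finsupp.mapDomain_single]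
    have e3 : 2*(n+1)+1 = (2*n+1)+2 := by ring
    rw [e1, e3, Cs_arc _ _ hi, W_ins ha k hp (i+1), e2, W_ins ha k hp i,
      show p + (i+1) = (p + 1) + i by ring, pairG_arc' (by omega),
      cap_Cs hc i p (2*n+1) hi, ih S' hS' hl', show p + (2*n+1+2) = p + (2*n+1) + 2 by ring,
      pairG_arc (by omega) (by omega) hi]

/-! ### slide B -/

theorem slB {a k P : ℕ} (ha : Odd a) (hP : P = a + 2 + 2*k) (n : ℕ) :
    ∀ S : Word, Dyck S → S.length = 2*n+2 → ∀ f g : St →₀ ℂ,
    pairG a (P + 1 + (2*n+1)) (Cs q P (2*n+1) (Finsupp.mapDomain (St.ins (P + (2*n+1))) f))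
      (W a (k+1) g (Finsupp.single (Phi (n+1) S) 1)) =
    -q^2 * pairG a P f (W a k g (Cs q 0 (2*n+1) (Finsupp.single (Phi (n+1) S) 1))) := by
  have hpar : P % 2 = 1 := by
    obtain ⟨d, hd⟩ := ha
    omega
  have hp : P - 1 = a + 1 + 2*k := by omega
  have hp' : P + 1 = a + 1 + 2*(k+1) := by omega
  induction n with
  | zero =>
    intro S hS hl f g
    rw [Phi_two hS hl, Cs_one_bot]
    show pairG a (P + 2) (Cop q P (Finsupp.mapDomain (St.ins (P + 1)) f)) _ = _
    unfold Cop
    rw [H492C.G1w.pairG_add_left, H492C.G1w.pairG_smul_left, H492C.G1w.pairG_smul_left,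
      zero_bot ha (by omega) (St.ins (P+1)), ← Finsupp.mapDomain_comp]
    · have : St.act P ∘ St.ins (P+1) = St.ins P := funext (St.act_ins_succ P)
      rw [this, pairG_end_left hpar, mul_zero, zero_add]
      have hs : St.up P a = a := by unfold St.up; rw [if_pos (by omega)]
      have ht : St.up P P = P := by unfold St.up; rw [if_pos le_rfl]
      have h := NH38.Fork.Q6.pairG_ins_left a P P f (W a (k+1) g (Finsupp.single St.bot 1))
      rw [hs, ht] at h
      rw [h, W_bot, W_bot, ← Finsupp.mapDomain_comp]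
      have e : St.cap P ∘ (fun R => comb ((a+1)/2) R St.bot) =
          (fun R => comb ((a+1)/2) R St.bot) := by
        funext R
        exact cap_comb_bot (by omega) R
      rw [e]
    · intro R x h
      rcases h with h | ⟨_, _, _, h, _⟩
      · exact h
      · exact absurd rfl h
  | succ n ih =>
    intro S hS hl f g
    obtain ⟨i, S', hi, hS', hl', rfl⟩ := dyck_arc (n := n) hS (by omega)
    have e1 : Phi (n+1+1) (ins i S') = St.ins i (Phi (n+1) S') :=
      Phi_ins hS' (by omega) (by omega)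
    have e2 : (Finsupp.single (St.ins i (Phi (n+1) S')) 1 : St →₀ ℂ) =
        Finsupp.mapDomain (St.ins i) (Finsupp.single (Phi (n+1) S') 1) := by
      rw [Finsupp.mapDomain_single]
    have e3 : 2*(n+1)+1 = (2*n+1)+2 := by ring
    have e4 : St.cap (P+i) ∘ St.ins (P + (2*n+1+2)) = St.ins (P+(2*n+1)) ∘ St.cap (P+i) := by
      funext R
      show St.cap (P+i) (St.ins (P + (2*n+1+2)) R) = St.ins (P+(2*n+1)) (St.cap (P+i) R)
      rw [H988C.cap_ins_right (by omega)]
      rfl
    rw [e1, e3, Cs_arc _ _ hi, W_ins ha k hp (i+1), e2, W_ins ha (k+1) hp' i,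
      show P + 1 + (2*n+1+2) = P + 1 + (2*n+1) + 2 by ring,
      pairG_arc (by omega) (by omega) hi,
      cap_Cs q_spec i P (2*n+1) hi, ← Finsupp.mapDomain_comp, e4, Finsupp.mapDomain_comp,
      ih S' hS' hl', show P - 1 + (i+1) = P + i by omega, pairG_arc' (by omega)]

end SL

open SL in
theorem t1_slA : S1_slA := by
  intro a k n c S f g ha hc hS hl
  have hc' : c^2 + c + 1 = 0 := by
    rcases hc with rfl | rfl
    · exact q_spec
    · exact H988C.q_sq_spec
  have h := slA (a := a) (k := k) ha rfl hc' n S hS hl f g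
  have e : a + 2*k + 2 = a + 1 + 2*k + 1 := by ring
  rw [e]
  exact h

open SL in
theorem t1_slB : S1_slB := by
  intro a k n S f g ha hS hl
  have h := slB (a := a) (k := k) ha rfl n S hS hl f g
  have e1 : a + 2*k + 2 = a + 2 + 2*k := by ring
  have e2 : a + 2*k + 2*n + 4 = a + 2 + 2*k + 1 + (2*n+1) := by ring
  rw [e1, e2]
  exact h

end Pool.Agent.H966.T1
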