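import Pool.Agent.H966.T1.Mk
import Pool.Agent.H966.T1.SL
import Pool.Agent.H966.T1.PM
import Pool.Agent.H966.T1.MIR
import Pool.Agent.H966.T1.Q01
import Pool.Agent.H966.T1.Q5
import Pool.Agent.H966.T1.Q16
import Pool.Agent.H966.T1.Q7
import Pool.Agent.H966.T1.L
import Pool.Agent.H966.T1.J
import Pool.Agent.H966.T1.H1
import Pool.Agent.H966.T1.H23
import Pool.Agent.H966.T1.C
import Pool.Agent.H966.T1.A1
import Pool.Agent.H966.T1.A2
import Pool.Agent.H966.T1.A3
import Pool.Agent.H966.T1.P1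
import Pool.Agent.H966.T1.G
import Pool.Graph.R_pool_sql_team_seeded_3dad9d7b.NH38.Fork.GMain

/-!
Forked channels of even width, both inner walls (helper966): the assembly.
-/

namespace Pool.Agent.H966.T1

open Pool.Agent.H988R2.Perc hiding X
open Pool.Agent.NH38.Step (om prs EE zs prF Gen on cardy pom bev on_odd)
open Pool.Agent.NH38.Fork (zo mm na cst gh Dh G T D U tt gF tF NZ ev LR UL Reg Lau PermInv cc gm
  x1 x2 sv vv kap rf EAdj UnifG t_OMg t_ttwid t_Teq a_wid a_DET t_regG)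
open Pool.Agent.NH38.Fork.M8 (NZ_on on_length)
open Polynomial Filter Topology MeasureTheory

section Asm

variable (hpX : S1_permX) (hiX : S1_invX) (hn : S1_node) (hlaw : S1_lawE)

theorem kap_lt (n : ℕ) : kap n < kap (n+1) := by
  have h1 : kap (n+1) = kap n * (((n:ℚ) + 4/3) / (n + 2/3)) := by
    unfold Pool.Agent.NH38.Fork.kap
    rw [Finset.prod_range_succ]
  have h2 : 0 < kap n := by
    unfold Pool.Agent.NH38.Fork.kap
    exact Finset.prod_pos fun i _ => by positivity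
  have h3 : 1 < ((n:ℚ) + 4/3) / (n + 2/3) := by
    rw [lt_div_iff₀ (by positivity)]
    linarith
  rw [h1]
  nlinarith

theorem FR_eq (a b N : ℕ) (hN : Even N) (h : a + b + 2 ≤ N) : FR a b N = FT a b N := by
  unfold FR FT
  have hk : kap N - kap (N-1) ≠ 0 := by
    obtain ⟨M, rfl⟩ : ∃ M, N = M + 1 := ⟨N - 1, by omega⟩
    rw [Nat.add_sub_cancel]
    exact (sub_pos.2 (kap_lt M)).ne'
  rw [div_eq_iff hk, Finset.sum_mul]
  refine Finset.sum_congr rfl fun j hj => ?_
  rw [Finset.mem_range] at hj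
  have h1 := t1_C N j hN (by omega) (by omega)
  rw [mul_assoc, mul_assoc]
  rw [h1]
  ring

include hpX in
theorem a_mir : S1_mir := t1_mir t1_PsiM t1_PsiM0 t1_perm t1_invB hpX

theorem a_base : S1_base := t1_base t1_slB
theorem a_wid1 : S1_wid := t1_wid t1_slA
theorem a_bnode : S1_bnode := t1_bnode t1_perm t1_invB
theorem a_J : S1_J := t1_J a_base t1_MI a_DET

include hpX hiX hn in
theorem a_M1 : S1_M := t_M a_wid1 t1_reg a_J t1_MI t1_MZ a_base a_bnode hn hpX hiX t1_perm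
  t1_invB (a_mir hpX)

include hpX hiX hn in
theorem a_H1 : S1_H1 := t1_H1 (a_M1 hpX hiX hn) t1_reg t_regG

include hpX hiX hn in
theorem a_H3 : S1_H3 := t1_H3 (a_H1 hpX hiX hn) t1_H2 (t_OMg t_ttwid t_Teq) a_wid1 (a_mir hpX)
  a_wid

include hpX hiX hn hlaw in
theorem a_Exact : S1_Exact := by
  intro a k b ha hb
  have h1 := t1_PF hlaw t1_PsiM0 a k b ha hb
  have h2 := t1_TF hlaw a k b ha hb
  have h3 := a_H3 hpX hiX hn a b k ha hb
  have h4 := t1_Teq (on a) (on k) (on b) 1 1 (on_odd ha) (on_odd hb) (NZ_on a) (NZ_on k) (NZ_on b)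
    one_ne_zero one_ne_zero
  have hN : Even (a+b+2+2*k) := by
    obtain ⟨r, hr⟩ := ha
    obtain ⟨s, hs⟩ := hb
    exact ⟨r + s + 2 + k, by omega⟩
  rw [FR_eq a b (a+b+2+2*k) hN (by omega)] at h3
  have hl : zs (1 :: 1 :: (on a ++ (on b ++ prs (on k)))) = zs (on (a+b+2+2*k)) := by
    rw [Pool.Agent.NH38.Fork.H3.prs_on]
    congr 1
    unfold Pool.Agent.NH38.Step.on
    rw [List.replicate_append_replicate, List.replicate_append_replicate, ← List.replicate_succ,
      ← List.replicate_succ]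
    congr 1
    omega
  rw [hl] at h4
  have hc : cst (on a) (on b) (on k).length ((1:ℂ) * 1) ≠ 0 := by
    intro h0
    apply h2
    rw [h4, h0, zero_mul]
  have h5 : E1 (on a) (on k) (on b) 1 1 =
      ((FT a b (a+b+2+2*k) : ℚ) : ℂ) * TT1 (on a) (on k) (on b) 1 1 := by
    unfold eh at h3
    rw [div_eq_iff hc] at h3
    rw [h3, h4]
    ring
  rw [h5] at h1
  have h6 := mul_right_cancel₀ h2 h1
  have h7 : ((FT a b (a+b+2+2*k) : ℚ) : ℂ) = (((FT a b (a+b+2+2*k) : ℚ) : ℝ) : ℂ) := by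
    push_cast; rfl
  rw [h7] at h6
  exact_mod_cast h6

include hpX hiX hn hlaw in
theorem a_Asy : S1_Asy := by
  refine t1_Asy (t1_F4 t1_WI) ?_
  intro a b ha hb
  have h := a_Exact hpX hiX hn hlaw a 0 b ha hb
  have h1 : perc.real (ECross1 a 0 b) ≤ 1 := measureReal_le_one
  rw [h] at h1
  have h2 : ((FT a b (a+b+2+2*0) : ℚ) : ℝ) ≤ ((1 : ℚ) : ℝ) := by simpa using h1
  exact_mod_cast h2

include hpX hiX hn hlaw in
theorem a_Lim : S1_Lim := t1_G (a_Exact hpX hiX hn hlaw) (a_Asy hpX hiX hn hlaw)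

end Asm

end Pool.Agent.H966.T1
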