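import Pool.Agent.H966.T1.Stubs2
import Pool.Graph.R_seed8.H988R2.Perc.T16
import Pool.Graph.R_seed8.H988R2.Perc.T20
import Pool.Graph.R_seed8.H988R2.Perc.T24
import Pool.Graph.R_seed8.H988R2.Perc.T26

/-! P0: stationary law of the states of a strip of even width (helper966), adapted from T20 and T24
of helper988's library project. -/

namespace Pool.Agent.H966.T1

open Pool.Agent.H988R2.Perc hiding X
open Pool.Agent.NH38.Step (on)
open Filter Topology

namespace P0

open Pool.Agent.H988R2.Perc.T20 Pool.Agent.H988R2.Perc.T24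

theorem fwd_eqE (L : ℕ) (hL : Even L) (k : ℕ) (hk : k ≤ L) :
    Psi ((-q^2) :: List.replicate k 1 ++ (-q) :: List.replicate (L-k) 1) =
      fwd k (Psi ((-q^2) :: (-q) :: List.replicate L 1)) := by
  induction k with
  | zero => simp [fwd]
  | succ k ih =>
    have ih' := ih (by omega)
    simp only [fwd]
    rw [← ih']
    obtain ⟨m, hm⟩ : ∃ m, L - k = m + 1 := ⟨L - k - 1, by omega⟩
    have hm' : L - (k+1) = m := by omega
    rw [hm, hm']
    have hu : ((-q^2) :: List.replicate k (1:ℂ)).length = k + 1 := by simp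
    have key := move_right ((-q^2) :: List.replicate k (1:ℂ)) (List.replicate m 1) (by
      simp only [List.length_cons, List.length_replicate]
      obtain ⟨t, ht⟩ := hL
      exact ⟨t, by omega⟩)
    rw [hu] at key
    have e1 : (-q^2) :: List.replicate (k+1) (1:ℂ) ++ (-q) :: List.replicate m 1
        = ((-q^2) :: List.replicate k (1:ℂ)) ++ 1 :: (-q) :: List.replicate m 1 := by
      rw [List.replicate_succ']; simp
    have e2 : (-q^2) :: List.replicate k (1:ℂ) ++ (-q) :: List.replicate (m+1) 1
        = ((-q^2) :: List.replicate k (1:ℂ)) ++ (-q) :: 1 :: List.replicate m 1 := by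
      rw [List.replicate_succ]
    rw [e1, e2]
    exact key

theorem bwd_eqE (L : ℕ) (hL : Even L) (k : ℕ) (hk : k ≤ L) :
    bwd k (Psi ((-q^2) :: List.replicate k 1 ++ (-q^2) :: List.replicate (L-k) 1)) =
      Psi ((-q^2) :: (-q^2) :: List.replicate L 1) := by
  induction k with
  | zero => simp [bwd]
  | succ k ih =>
    have ih' := ih (by omega)
    simp only [bwd]
    rw [← ih']
    obtain ⟨m, hm⟩ : ∃ m, L - k = m + 1 := ⟨L - k - 1, by omega⟩
    have hm' : L - (k+1) = m := by omega
    rw [hm, hm']
    have hu : ((-q^2) :: List.replicate k (1:ℂ)).length = k + 1 := by simp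
    have key := move_left ((-q^2) :: List.replicate k (1:ℂ)) (List.replicate m 1) (by
      simp only [List.length_cons, List.length_replicate]
      obtain ⟨t, ht⟩ := hL
      exact ⟨t, by omega⟩)
    rw [hu] at key
    have e1 : (-q^2) :: List.replicate (k+1) (1:ℂ) ++ (-q^2) :: List.replicate m 1
        = ((-q^2) :: List.replicate k (1:ℂ)) ++ 1 :: (-q^2) :: List.replicate m 1 := by
      rw [List.replicate_succ']; simp
    have e2 : (-q^2) :: List.replicate k (1:ℂ) ++ (-q^2) :: List.replicate (m+1) 1
        = ((-q^2) :: List.replicate k (1:ℂ)) ++ (-q^2) :: 1 :: List.replicate m 1 := by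
      rw [List.replicate_succ]
    rw [e1, e2]
    rw [key]

theorem fac_neE (L : ℕ) : fac (-q^2) (List.replicate L 1) ≠ 0 := by
  unfold fac
  rw [List.map_replicate, List.prod_replicate]
  have h4 := q4
  have hq := q_ne_zero
  apply pow_ne_zero
  have : (-q^2 - q^2 * 1) * (-q^2 * 1 - q^2) = 4 * q := by
    linear_combination 4 * h4
  rw [this]
  exact mul_ne_zero (by norm_num) hq

theorem stationaryE (L : ℕ) (hL : Even L) :
    Tvec L (Psi (List.replicate L 1)) = Psi (List.replicate L 1) := by
  set l0 : List ℂ := List.replicate L 1 with hl0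
  set v0 := Psi l0 with hv0
  have hlen : l0.length = L := by simp [hl0]
  have h4 := q4
  have h3 := q_cube
  have hqs := q_spec
  have hq := q_ne_zero
  -- recursion at the start
  have hrec : Psi ((-q^2) :: (-q) :: l0) = fac (-q^2) l0 • Finsupp.mapDomain (St.ins 0) v0 := by
    have := Psi_rec [] l0 (-q^2) (by simpa [hlen] using hL)
    have e : q^2 * (-q^2) = -q := by linear_combination -h4
    rw [e] at this
    simpa using this
  -- forward
  have hf := fwd_eqE L hL L le_rfl
  rw [Nat.sub_self] at hf
  simp only [List.replicate_zero] at hf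
  -- inversion of the last variable
  have hinv : Psi ((-q^2) :: List.replicate L 1 ++ [(-q)]) =
      (-q)^L • Psi ((-q^2) :: List.replicate L 1 ++ [(-q^2)]) := by
    have := Psi_invN (-q) ((-q^2) :: List.replicate L 1) (neg_ne_zero.mpr hq)
      (by simpa using hL.add_one)
    have e : (-q)⁻¹ = -q^2 := by
      rw [inv_eq_iff_eq_inv]
      have : (-q^2) ≠ 0 := neg_ne_zero.mpr (pow_ne_zero _ hq)
      apply mul_right_cancel₀ this
      rw [inv_mul_cancel₀ this]
      linear_combination h3
    rw [e] at this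
    simpa using this
  have hb := bwd_eqE L hL L le_rfl
  rw [Nat.sub_self] at hb
  simp only [List.replicate_zero] at hb
  -- inversion of the first variable
  have hinv1 : Psi ((-q^2) :: (-q^2) :: l0) = (-q^2)^L • Psi ((-q) :: (-q^2) :: l0) := by
    have := Psi_inv1 (-q^2) ((-q^2) :: l0) (neg_ne_zero.mpr (pow_ne_zero _ hq))
      (by simp only [List.length_cons, hlen]; exact hL.add_one)
    have e : (-q^2)⁻¹ = -q := by
      rw [inv_eq_iff_eq_inv]
      have : (-q) ≠ 0 := neg_ne_zero.mpr hq
      apply mul_right_cancel₀ this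
      rw [inv_mul_cancel₀ this]
      linear_combination h3
    rw [e] at this
    simpa [hlen] using this
  -- exchange
  have hexch : Psi ((-q^2) :: (-q) :: l0) =
      Finsupp.mapDomain (St.act 0) (Psi ((-q) :: (-q^2) :: l0)) := by
    have := Psi_exch [] l0 (-q) (-q^2) (by simpa [hlen] using hL)
    have e1 : q * (-q) - q^2 * (-q^2) = -q^2 + q := by linear_combination h4
    have e2 : q * (-q^2) - q^2 * (-q) = 0 := by ring
    have e3 : (-q^2) - (-q) = -q^2 + q := by ring
    rw [e1, e2, e3, zero_smul, zero_add] at this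
    have hne : -q^2 + q ≠ 0 := by
      intro h
      have h1 : q * (1 - q) = 0 := by linear_combination h
      rcases mul_eq_zero.mp h1 with h2 | h2
      · exact hq h2
      · exact q_ne_one (by linear_combination -h2)
    have h5 := congrArg (fun f => (-q^2 + q)⁻¹ • f) this
    simp only [smul_smul, inv_mul_cancel₀ hne, one_smul] at h5
    simpa using h5
  -- cancel ins 0
  have hact : ∀ g : St →₀ ℂ, Finsupp.mapDomain (St.act 0) g =
      Finsupp.mapDomain (St.ins 0) (Finsupp.mapDomain (St.cap 0) g) := by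
    intro g
    rw [← Finsupp.mapDomain_comp]
    congr 1
    funext R
    exact St.act_eq 0 R
  have hcap : Finsupp.mapDomain (St.cap 0) (Psi ((-q) :: (-q^2) :: l0)) = fac (-q^2) l0 • v0 := by
    apply Finsupp.mapDomain_injective (St.ins_inj 0)
    rw [← hact, ← hexch, hrec, mapDomain_lin]
  -- conclusion
  have hmain : fac (-q^2) l0 • Tvec L v0 = fac (-q^2) l0 • v0 := by
    rw [← Tvec_smul]
    unfold Tvec
    rw [mapDomain_lin, ← hrec]
    rw [← hf]
    have e1 : (-q^2) :: List.replicate L (1:ℂ) ++ [-q] =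
      (-q^2) :: List.replicate L 1 ++ [(-q)] := rfl
    rw [hinv, bwd_smul]
    rw [hb, hinv1, smul_smul, mapDomain_lin, hcap]
    have e3 : (-q)^L * (-q^2)^L = 1 := by
      rw [← mul_pow]
      have : -q * -q^2 = 1 := by linear_combination h3
      rw [this, one_pow]
    rw [e3, one_smul]
  have hne : fac (-q^2) l0 ≠ 0 := fac_neE L
  have h5 := congrArg (fun f => (fac (-q^2) l0)⁻¹ • f) hmain
  simp only [smul_smul, inv_mul_cancel₀ hne, one_smul] at h5
  exact h5

theorem gT_botE {L : ℕ} (hL : Even L) {R : St} (hR : Bd (L+1) R) : gT L R = St.bot := by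
  have hL2 : L % 2 = 0 := Nat.even_iff.mp hL
  have h1 : gfwd L (St.ins 0 R) = St.bot := by
    apply St.ext
    funext a b
    apply propext
    constructor
    · intro h
      change a = b
      rcases gfwd_rel L _ a b h with h | ⟨h1, h2⟩
      · exact h
      · rcases h1 with h | ⟨o1, o2, n1, n2, h⟩
        · exact h
        · rcases hR _ _ h with h | ⟨l1, l2⟩
          · unfold St.low at h
            split_ifs at h <;> omega
          · exfalso
            unfold St.low at l1
            have := (h2 (a - 1) (by omega) (by split_ifs at l1 <;> omega) (by omega)).1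
            omega
    · intro h
      change a = b at h
      subst h
      exact (gfwd L (St.ins 0 R)).eqv.refl a
  unfold gT
  rw [h1, gbwd_bot]
  apply St.ext
  funext a b
  apply propext
  constructor
  · intro h
    change (St.act 0 St.bot).rel (St.up 0 a) (St.up 0 b) at h
    rw [act_even_bot (by norm_num)] at h
    change St.up 0 a = St.up 0 b at h
    change a = b
    unfold St.up at h
    split_ifs at h <;> omega
  · intro h
    change a = b at h
    subst h
    exact (St.cap 0 St.bot).eqv.refl a

theorem mapDomain_gTE {L : ℕ} (hL : Even L) {f : St →₀ ℂ} (hf : BdV (L+1) f) :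
    Finsupp.mapDomain (gT L) f = Finsupp.single St.bot (mass f) := by
  unfold Finsupp.mapDomain mass
  rw [Finsupp.sum, Finsupp.sum, Finsupp.single_finsetSum]
  refine Finset.sum_congr rfl fun R hR => ?_
  rw [gT_botE hL (hf R hR)]

theorem contractE {L : ℕ} (hL : Even L) {f : St →₀ ℂ} (hf : BdV (L+1) f) (hm : mass f = 0) :
    nrm (Tvec L f) ≤ (1 - (1/2)^L * (1/2)^L) * nrm f := by
  have h := (dob_Tvec L).dec f
  rw [mapDomain_gTE hL hf, hm, Finsupp.single_zero, smul_zero, sub_zero] at h
  exact h

theorem iter_boundE {L : ℕ} (hL : Even L) {f : St →₀ ℂ} (hf : BdV (L+1) f) (hm : mass f = 0)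
    (M : ℕ) : nrm ((Tvec L)^[M] f) ≤ (1 - (1/2)^L * (1/2)^L)^M * nrm f ∧
      BdV (L+1) ((Tvec L)^[M] f) ∧ mass ((Tvec L)^[M] f) = 0 := by
  induction M with
  | zero => simp [hf, hm]
  | succ M ih =>
    obtain ⟨h1, h2, h3⟩ := ih
    rw [Function.iterate_succ_apply']
    refine ⟨(contractE hL h2 h3).trans ?_, h2.Tvec, by rw [(dob_Tvec L).mass, h3]⟩
    rw [pow_succ, mul_comm ((1 - (1/2)^L * (1/2)^L)^M) (1 - (1/2)^L * (1/2)^L), mul_assoc]
    exact mul_le_mul_of_nonneg_left h1 (by linarith [(dob_Tvec L).le])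

theorem coreE (L : ℕ) (hL : Even L) (v : St →₀ ℂ) (hT : Tvec L v = v)
    (hs : ∀ R ∈ v.support, ∀ a b, R.rel a b → a = b ∨ (a < L + 1 ∧ b < L + 1))
    (hm : mass v ≠ 0) :
    Tendsto (fun M => nrm (law L M - (mass v)⁻¹ • v)) atTop (𝓝 0) := by
  set w : St →₀ ℂ := (mass v)⁻¹ • v with hw
  have hwT : Tvec L w = w := by rw [hw, (dob_Tvec L).smul, hT]
  have hwm : mass w = 1 := by rw [hw, T24.mass_smul, inv_mul_cancel₀ hm]
  have hwB : BdV (L+1) w := BdV.smul (fun R hR => hs R hR) _
  set u : St →₀ ℂ := Finsupp.single St.bot 1 + (-1 : ℂ) • w with hu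
  have huB : BdV (L+1) u := by
    refine BdV.add ?_ (hwB.smul _)
    intro R hR a b h
    have : R = St.bot := by
      have := Finsupp.support_single_subset hR
      simpa using this
    subst this
    exact Or.inl h
  have hum : mass u = 0 := by
    rw [hu, T24.mass_add, T24.mass_smul, T24.mass_single, hwm]; ring
  have hlaw : ∀ M, law L M = (Tvec L)^[M] u + w := by
    intro M
    have e : (Finsupp.single St.bot 1 : St →₀ ℂ) = u + w := by
      rw [hu]; simp
    rw [law, e, iter_add, iter_fix L M w hwT]
  set ρ : ℝ := 1 - (1/2)^L * (1/2)^L with hρ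
  have hρ0 : 0 ≤ ρ := by have := (dob_Tvec L).le; linarith
  have hρ1 : ρ < 1 := by
    have : (0:ℝ) < (1/2)^L * (1/2)^L := by positivity
    linarith
  have hlim : Tendsto (fun M : ℕ => ρ^M * nrm u) atTop (𝓝 0) := by
    have := (tendsto_pow_atTop_nhds_zero_of_lt_one hρ0 hρ1).mul_const (nrm u)
    simpa using this
  refine squeeze_zero (fun _ => nrm_nonneg _) (fun M => ?_) hlim
  obtain ⟨h1, _, _⟩ := iter_boundE hL huB hum M
  rw [hlaw M, add_sub_cancel_right]
  exact h1

end P0

open P0 in
theorem t1_lawE : S1_lawE := by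
  intro N hN hN2
  obtain ⟨n, hn⟩ := hN
  have hN' : Even N := ⟨n, hn⟩
  have hm : mass (Psi (on N)) ≠ 0 := by
    have h := Z_ones n
    have e : on N = List.replicate (2*n) 1 := by
      unfold Pool.Agent.NH38.Step.on
      congr 1
      omega
    rw [e]
    change Z (List.replicate (2*n) 1) ≠ 0
    rw [h]
    refine mul_ne_zero (pow_ne_zero _ q_ne_zero) ?_
    exact_mod_cast (chi_pos (2*n)).ne'
  refine ⟨hm, ?_⟩
  have h := coreE N hN' (Psi (on N)) (stationaryE N hN') (fun R hR a b hab => by
    have hlen : (on N).length = N := by simp [Pool.Agent.NH38.Step.on]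
    have := Psi_supp (on N) (by rw [hlen]; exact hN') R hR a b hab
    rw [hlen] at this
    rcases this with h | ⟨h1, h2⟩
    · exact Or.inl h
    · exact Or.inr ⟨by omega, by omega⟩) hm
  have e : ∀ M, law N M + (-1 : ℂ) • ((mass (Psi (on N)))⁻¹ • Psi (on N)) =
      law N M - (mass (Psi (on N)))⁻¹ • Psi (on N) := by
    intro M
    rw [neg_one_smul, sub_eq_add_neg]
  simp only [e]
  exact h

end Pool.Agent.H966.T1
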