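import Pool.Agent.H966.T1.Stubs
import Pool.Graph.R_pool_sql_team_seeded_3dad9d7b.NH38.Fork.Q3
import Pool.Graph.R_pool_sql_team_seeded_3dad9d7b.NH38.Fork.Q6

/-!
Forked channels, both inner walls (helper966), tasks Q3, Q4 (helper418): `eh` depends only on the
multiset of the reflected pairs; recursion at `v = q² x⁻¹`.
-/

namespace Pool.Agent.H966.T1

open Pool.Agent.H988R2.Perc hiding X
open Pool.Agent.H492C (comb comb2 pairG up1)
open Pool.Agent.NH38.Step (om prs EE zs prF Gen on cardy pom bev)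
open Pool.Agent.NH38.Fork (zo mm na cst gh Dh G T D U tt gF tF NZ ev LR UL Reg Lau PermInv cc gm
  x1 x2 sv vv kap rf EAdj UnifG)
open Polynomial Filter Topology


namespace Q34

open Pool.Agent.NH38.Step.TD (CL lin_cont eq_of_cont pair_core prs_cons prs_append badP_spec)
open Pool.Agent.NH38.Fork.Q3 (pL pL_apply act_comb2_bot)
open Pool.Agent.NH38.Fork.Q6 (comb_rel inner_rel pairG_ins_left pairG_smul_left comb2_map_right
  comb2_bot)
open Pool.Agent.H492C (jn)

theorem act_U1 {A B : List ℂ} (ha : Odd A.length) {m j : ℕ} (hj : Even j) (h : j + 1 < 2 * m) :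
    Finsupp.mapDomain (St.act (j + (A.length + 1))) (U1 A m B) = U1 A m B := by
  have e : A.length + 1 = 2 * ((A.length + 1) / 2) := by
    obtain ⟨n, hn⟩ := ha; omega
  unfold U1
  conv_lhs => rw [e]
  rw [← e]
  conv_lhs => rw [show j + (A.length + 1) = j + 2 * ((A.length + 1) / 2) by omega]
  rw [← Pool.Agent.H492C.comb2_act_right, act_comb2_bot hj h]

theorem L_act {A B : List ℂ} (ha : Odd A.length) {m j r : ℕ} (hj : Even j) (h : j + 1 < 2 * m)
    (hr : j + A.length + 2 < r) (f : St →₀ ℂ) :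
    pL A.length r (U1 A m B) (Finsupp.mapDomain (St.act (j + (A.length + 1))) f) =
      pL A.length r (U1 A m B) f := by
  rw [pL_apply, pL_apply, Pool.Agent.H492C.pairG_act (by omega) (by omega), act_U1 ha hj h]

/-- general middle block -/
noncomputable def EY (A Y B : List ℂ) (w v : ℂ) : ℂ :=
  pairG A.length (A.length + Y.length + 2) (Psi (A ++ w :: (Y ++ v :: B)))
    (U1 A (Y.length / 2) B)

theorem E1_EY (A X B : List ℂ) (w v : ℂ) : E1 A X B w v = EY A (prs X) B w v := by
  unfold E1 EY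
  rw [Pool.Agent.NH38.Step.prs_length, Nat.mul_div_cancel_left _ (by norm_num : 0 < 2)]

theorem EY_eq (A B : List ℂ) (w v : ℂ) (Y : List ℂ) {m r : ℕ} (hm : Y.length = 2 * m)
    (hr : r = A.length + Y.length + 2) :
    EY A Y B w v = pL A.length r (U1 A m B) (Psi ((A ++ w :: Y) ++ v :: B)) := by
  subst hr
  have e : Y.length / 2 = m := by rw [hm]; omega
  unfold EY
  rw [pL_apply, e]
  congr 2
  simp

theorem swapY_gen (A B Y1 Y2 : List ℂ) (ha : Odd A.length) (hb : Odd B.length)
    (h1 : Even Y1.length) (h2 : Even Y2.length) (w v x y : ℂ) (hne : q * x - q^2 * y ≠ 0) :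
    EY A (Y1 ++ y :: x :: Y2) B w v = EY A (Y1 ++ x :: y :: Y2) B w v := by
  obtain ⟨n1, hn1⟩ := h1
  obtain ⟨n2, hn2⟩ := h2
  have hl : ∀ a b : ℂ, (Y1 ++ a :: b :: Y2).length = 2 * (n1 + n2 + 1) := by
    intro a b; simp only [List.length_append, List.length_cons]; omega
  have hps : ∀ a b : ℂ, Psi ((A ++ w :: (Y1 ++ a :: b :: Y2)) ++ v :: B) =
      Psi ((A ++ w :: Y1) ++ a :: b :: (Y2 ++ v :: B)) := by
    intro a b; congr 1; simp
  have hk : (A ++ w :: Y1).length = Y1.length + (A.length + 1) := by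
    simp only [List.length_append, List.length_cons]; omega
  have e1 := Psi_exch (A ++ w :: Y1) (Y2 ++ v :: B) x y (by
    rw [hk]
    simp only [List.length_append, List.length_cons]
    obtain ⟨n, hn⟩ := ha
    obtain ⟨m, hm⟩ := hb
    exact ⟨n + m + n1 + n2 + 2, by omega⟩)
  rw [hk] at e1
  set r := A.length + (2 * (n1 + n2 + 1)) + 2 with hr
  rw [EY_eq A B w v _ (hl y x) (r := r) (by rw [hl]), EY_eq A B w v _ (hl x y) (r := r) (by rw [hl]),
    hps, hps]
  apply mul_left_cancel₀ hne
  have hE : Even Y1.length := ⟨n1, hn1⟩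
  have e2 := congrArg (pL A.length r (U1 A (n1 + n2 + 1) B)) e1
  rw [map_add, map_smul, map_smul, map_smul, L_act ha hE (by omega) (by omega)] at e2
  simp only [smul_eq_mul] at e2
  have hq := q_spec
  linear_combination e2 + ((y - x) * pL A.length r (U1 A (n1 + n2 + 1) B)
    (Psi ((A ++ w :: Y1) ++ x :: y :: (Y2 ++ v :: B)))) * hq

theorem swapP_gen (A B X1 X2 : List ℂ) (ha : Odd A.length) (hb : Odd B.length) (w v x y : ℂ)
    (hx : x ≠ 0) (hy : y ≠ 0)
    (d1 : q * x⁻¹ - q^2 * y ≠ 0) (d2 : q * x - q^2 * y ≠ 0) (d3 : q * x⁻¹ - q^2 * y⁻¹ ≠ 0)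
    (d4 : q * x - q^2 * y⁻¹ ≠ 0) :
    EY A (prs (X1 ++ y :: x :: X2)) B w v = EY A (prs (X1 ++ x :: y :: X2)) B w v := by
  have hpl : ∀ X : List ℂ, (prs X).length = 2 * X.length := fun X =>
    Pool.Agent.NH38.Step.prs_length X
  have hl : ∀ a b : ℂ, (prs (X1 ++ a :: b :: X2)).length = 2 * (X1.length + X2.length + 2) := by
    intro a b
    rw [hpl]; simp only [List.length_append, List.length_cons]; ring
  have hps : ∀ a b : ℂ, Psi ((A ++ w :: prs (X1 ++ a :: b :: X2)) ++ v :: B) =
      Psi ((A ++ w :: prs X1) ++ a :: a⁻¹ :: b :: b⁻¹ :: (prs X2 ++ v :: B)) := by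
    intro a b; congr 1
    rw [prs_append, prs_cons, prs_cons]; simp
  have hk : (A ++ w :: prs X1).length = 2 * X1.length + (A.length + 1) := by
    simp only [List.length_append, List.length_cons, hpl]; omega
  set U0 := A ++ w :: prs X1 with hU
  set V := prs X2 ++ v :: B with hV
  have hVl : V.length = 2 * X2.length + (B.length + 1) := by
    rw [hV]; simp only [List.length_append, List.length_cons, hpl]
  have hUe : Even U0.length := by
    rw [hk]; exact (even_two_mul _).add ha.add_one
  have hVe : Even V.length := by rw [hVl]; exact (even_two_mul _).add hb.add_one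
  set r := A.length + (2 * (X1.length + X2.length + 2)) + 2 with hr
  rw [EY_eq A B w v _ (hl y x) (r := r) (by rw [hl]), EY_eq A B w v _ (hl x y) (r := r) (by rw [hl]),
    hps, hps]
  -- the exchanges
  have e1 := Psi_exch (U0 ++ [x]) (y⁻¹ :: V) x⁻¹ y (by
    simp only [List.length_append, List.length_cons, List.length_nil]
    obtain ⟨m, hm⟩ := hUe
    obtain ⟨n, hn⟩ := hVe
    exact ⟨m + n + 1, by omega⟩)
  have e2 := Psi_exch U0 (x⁻¹ :: y⁻¹ :: V) x y (by
    simp only [List.length_cons]
    obtain ⟨m, hm⟩ := hUe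
    obtain ⟨n, hn⟩ := hVe
    exact ⟨m + n + 1, by omega⟩)
  have e3 := Psi_exch (U0 ++ [y, x]) V x⁻¹ y⁻¹ (by
    simp only [List.length_append, List.length_cons, List.length_nil]
    obtain ⟨m, hm⟩ := hUe
    obtain ⟨n, hn⟩ := hVe
    exact ⟨m + n + 1, by omega⟩)
  have e4 := Psi_exch (U0 ++ [y]) (x⁻¹ :: V) x y⁻¹ (by
    simp only [List.length_append, List.length_cons, List.length_nil]
    obtain ⟨m, hm⟩ := hUe
    obtain ⟨n, hn⟩ := hVe
    exact ⟨m + n + 1, by omega⟩)
  simp only [List.append_assoc, List.cons_append, List.nil_append, List.length_append,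
    List.length_cons, List.length_nil, zero_add] at e1 e3 e4
  have hj : Even (2 * X1.length) := even_two_mul _
  have hj2 : Even (2 * X1.length + 2) := ⟨X1.length + 1, by ring⟩
  exact pair_core (pL A.length r (U1 A (X1.length + X2.length + 2) B)) U0.length
    (fun f => by
      rw [hk]
      exact L_act ha hj (by omega) (by omega) f)
    (fun f => by
      rw [hk,
        show 2 * X1.length + (A.length + 1) + 2 = (2 * X1.length + 2) + (A.length + 1) by ring]
      exact L_act ha hj2 (by omega) (by omega) f)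
    x x⁻¹ y y⁻¹ (mul_inv_cancel₀ hx) (mul_inv_cancel₀ hy) _ _ _ _ _ e1 e2 e3 e4 d1 d2 d3 d4

theorem swapP (A B X1 X2 : List ℂ) (ha : Odd A.length) (hb : Odd B.length) (w v x y : ℂ)
    (hx : x ≠ 0) (hy : y ≠ 0) :
    EY A (prs (X1 ++ y :: x :: X2)) B w v = EY A (prs (X1 ++ x :: y :: X2)) B w v := by
  have hpl : ∀ X : List ℂ, (prs X).length = 2 * X.length := fun X =>
    Pool.Agent.NH38.Step.prs_length X
  have hl : ∀ a b : ℂ, (prs (X1 ++ a :: b :: X2)).length = 2 * (X1.length + X2.length + 2) := by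
    intro a b
    rw [hpl]; simp only [List.length_append, List.length_cons]; ring
  set r := A.length + (2 * (X1.length + X2.length + 2)) + 2 with hr
  have hcont : ∀ (f g : ℂ → ℂ), ContinuousAt f y → ContinuousAt g y → f y ≠ 0 → g y ≠ 0 →
      ContinuousAt (fun t => EY A (prs (X1 ++ f t :: g t :: X2)) B w v) y := by
    intro f g hf hg hf0 hg0
    have e : (fun t => EY A (prs (X1 ++ f t :: g t :: X2)) B w v) = fun t =>
        pL A.length r (U1 A (X1.length + X2.length + 2) B)
          (Psi ((A ++ w :: prs X1) ++ f t :: (f t)⁻¹ :: g t :: (g t)⁻¹ ::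
            (prs X2 ++ v :: B))) := by
      funext t
      rw [EY_eq A B w v _ (hl _ _) (r := r) (by rw [hl])]
      congr 2
      rw [prs_append, prs_cons, prs_cons]; simp
    rw [e]
    have c1 : CL _ (fun t => (A ++ w :: prs X1) ++ f t :: (f t)⁻¹ :: g t :: (g t)⁻¹ ::
        (prs X2 ++ v :: B)) y :=
      (CL.const (A ++ w :: prs X1) y).append
        (((((CL.const (prs X2 ++ v :: B) y).cons (hg.inv₀ hg0)).cons hg).cons
          (hf.inv₀ hf0)).cons hf)
    exact lin_cont _ _ _ c1.1 y c1.2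
  have h1 := hcont (fun t => t) (fun _ => x) continuousAt_id continuousAt_const hy hx
  have h2 := hcont (fun _ => x) (fun t => t) continuousAt_const continuousAt_id hx hy
  have key := eq_of_cont (F := fun t => EY A (prs (X1 ++ t :: x :: X2)) B w v)
    (G := fun t => EY A (prs (X1 ++ x :: t :: X2)) B w v) h1 h2
    ({0, q * x⁻¹ / q^2, q * x / q^2, q * x, q * x⁻¹} : Set ℂ) (Set.toFinite _)
    (fun z hz => by
      obtain ⟨hz0, h3, h4, h5, h6⟩ := badP_spec x z hx hz
      exact swapP_gen A B X1 X2 ha hb w v x z hx hz0 h3 h4 h5 h6)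
  exact key

theorem permP (A B : List ℂ) (ha : Odd A.length) (hb : Odd B.length) (w v : ℂ) {l l' : List ℂ}
    (hp : l.Perm l') : ∀ (u : List ℂ), (∀ z ∈ u ++ l, z ≠ 0) →
      EY A (prs (u ++ l)) B w v = EY A (prs (u ++ l')) B w v := by
  induction hp with
  | nil => intro u _; rfl
  | @cons x l1 l2 h ih =>
    intro u h0
    have e1 : u ++ x :: l1 = (u ++ [x]) ++ l1 := by simp
    have e2 : u ++ x :: l2 = (u ++ [x]) ++ l2 := by simp
    rw [e1] at h0 ⊢
    rw [e2]
    exact ih (u ++ [x]) h0
  | swap x y l =>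
    intro u h0
    exact swapP A B u l ha hb w v x y (h0 x (by simp)) (h0 y (by simp))
  | @trans l1 l2 l3 p1 p2 ih1 ih2 =>
    intro u h0
    rw [ih1 u h0]
    refine ih2 u (fun z hz => h0 z ?_)
    rw [List.mem_append] at hz ⊢
    rcases hz with h | h
    · exact Or.inl h
    · exact Or.inr (p1.mem_iff.mpr h)

/-- swap of two neighbours at an even position of the middle block -/
theorem swapY (A B Y1 Y2 : List ℂ) (ha : Odd A.length) (hb : Odd B.length)
    (h1 : Even Y1.length) (h2 : Even Y2.length) (w v x y : ℂ) :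
    EY A (Y1 ++ y :: x :: Y2) B w v = EY A (Y1 ++ x :: y :: Y2) B w v := by
  obtain ⟨n1, hn1⟩ := id h1
  obtain ⟨n2, hn2⟩ := id h2
  have hl : ∀ a b : ℂ, (Y1 ++ a :: b :: Y2).length = 2 * (n1 + n2 + 1) := by
    intro a b; simp only [List.length_append, List.length_cons]; omega
  set r := A.length + (2 * (n1 + n2 + 1)) + 2 with hr
  have hcont : ∀ (f g : ℂ → ℂ), ContinuousAt f x → ContinuousAt g x →
      ContinuousAt (fun t => EY A (Y1 ++ f t :: g t :: Y2) B w v) x := by
    intro f g hf hg
    have e : (fun t => EY A (Y1 ++ f t :: g t :: Y2) B w v) = fun t =>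
        pL A.length r (U1 A (n1 + n2 + 1) B)
          (Psi ((A ++ w :: Y1) ++ f t :: g t :: (Y2 ++ v :: B))) := by
      funext t
      rw [EY_eq A B w v _ (hl _ _) (r := r) (by rw [hl])]
      congr 2
      simp
    rw [e]
    have c1 : CL _ (fun t => (A ++ w :: Y1) ++ f t :: g t :: (Y2 ++ v :: B)) x :=
      (CL.const (A ++ w :: Y1) x).append (((CL.const (Y2 ++ v :: B) x).cons hg).cons hf)
    exact lin_cont _ _ _ c1.1 x c1.2
  have c1 := hcont (fun t => t) (fun _ => y) continuousAt_id continuousAt_const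
  have c2 := hcont (fun _ => y) (fun t => t) continuousAt_const continuousAt_id
  have key := eq_of_cont (F := fun t => EY A (Y1 ++ t :: y :: Y2) B w v)
    (G := fun t => EY A (Y1 ++ y :: t :: Y2) B w v) c1 c2 ({q * y / q^2} : Set ℂ)
    (Set.toFinite _) (fun z hz => by
      have h3 : q * y - q^2 * z ≠ 0 := by
        intro h'
        apply hz
        rw [Set.mem_singleton_iff, eq_div_iff (pow_ne_zero _ q_ne_zero)]
        linear_combination -h'
      exact swapY_gen A B Y1 Y2 ha hb h1 h2 w v y z h3)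
  exact key.symm

/-! ### capping the last small arc and the first strand of the right arm -/

theorem cc_rel (k m : ℕ) (R R' : St) (x y : ℕ) : (comb k R (comb m St.bot R')).rel x y ↔
    x = y ∨ (x < 2*k ∧ y < 2*k ∧ R.rel x y) ∨
      ∃ s t, x = 2*k + 2*m + s ∧ y = 2*k + 2*m + t ∧ R'.rel s t := by
  rw [comb_rel, inner_rel]
  constructor
  · rintro (h | h | ⟨h1, h2, (h | ⟨l1, l2, l3⟩)⟩)
    · exact Or.inl h
    · exact Or.inr (Or.inl h)
    · left; omega
    · exact Or.inr (Or.inr ⟨_, _, by omega, by omega, l3⟩)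
  · rintro (h | h | ⟨s, t, rfl, rfl, h⟩)
    · exact Or.inl h
    · exact Or.inr (Or.inl h)
    · refine Or.inr (Or.inr ⟨by omega, by omega, Or.inr ⟨by omega, by omega, ?_⟩⟩)
      have e1 : 2*k + 2*m + s - 2*k - 2*m = s := by omega
      have e2 : 2*k + 2*m + t - 2*k - 2*m = t := by omega
      rw [e1, e2]; exact h

theorem cap_comb' (k m : ℕ) (R R' : St) :
    St.cap (2*k + 2*m + 1) (comb k R (comb (m+1) St.bot R')) = comb k R (comb m St.bot R') := by
  apply St.ext'
  intro x y
  rw [St.cap_rel, St.act_rel]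
  simp only [cc_rel]
  have up1 : ∀ x, x ≤ 2*k + 2*m + 1 → St.up (2*k + 2*m + 1) x = x :=
    fun x h => by unfold St.up; rw [if_pos h]
  have up2 : ∀ x, ¬ x ≤ 2*k + 2*m + 1 → St.up (2*k + 2*m + 1) x = x + 2 :=
    fun x h => by unfold St.up; rw [if_neg h]
  have low : ∀ x y : ℕ, x ≤ 2*k + 2*m + 1 → (x = y ∨ (x < 2*k ∧ y < 2*k ∧ R.rel x y) ∨
      ∃ s t, x = 2*k + 2*(m+1) + s ∧ y = 2*k + 2*(m+1) + t ∧ R'.rel s t) →
      x = y ∨ (x < 2*k ∧ y < 2*k ∧ R.rel x y) := by
    rintro x y hx (h | h | ⟨s, t, h, _⟩)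
    · exact Or.inl h
    · exact Or.inr h
    · omega
  have low' : ∀ x y : ℕ, y ≤ 2*k + 2*m + 1 → (x = y ∨ (x < 2*k ∧ y < 2*k ∧ R.rel x y) ∨
      ∃ s t, x = 2*k + 2*(m+1) + s ∧ y = 2*k + 2*(m+1) + t ∧ R'.rel s t) →
      x = y ∨ (x < 2*k ∧ y < 2*k ∧ R.rel x y) := by
    rintro x y hx (h | h | ⟨s, t, _, h, _⟩)
    · exact Or.inl h
    · exact Or.inr h
    · omega
  by_cases hx : x ≤ 2*k + 2*m + 1
  · by_cases hy : y ≤ 2*k + 2*m + 1
    · rw [up1 x hx, up1 y hy]
      constructor
      · rintro (h | ⟨h1, h2, h3, h4, (h | ⟨h, h'⟩ | ⟨h, h'⟩)⟩)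
        · exact Or.inl h
        · rcases low x y hx h with h | h
          · exact Or.inl h
          · exact Or.inr (Or.inl h)
        · rcases low' _ y hy h' with h | h <;> omega
        · rcases low x _ hx h with h | h <;> omega
      · rintro (h | ⟨h1, h2, h3⟩ | ⟨s, t, h1, h2, h3⟩)
        · exact Or.inl h
        · rcases R.odd _ _ h3 with h | ⟨k1, k2⟩
          · exact Or.inl h
          · exact Or.inr ⟨k1, k2, by omega, by omega, Or.inl (Or.inr (Or.inl ⟨h1, h2, h3⟩))⟩
        · rcases R'.odd _ _ h3 with h | ⟨k1, k2⟩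
          · left; omega
          · left; omega
    · rw [up1 x hx, up2 y hy]
      constructor
      · rintro (h | ⟨h1, h2, h3, h4, (h | ⟨h, h'⟩ | ⟨h, h'⟩)⟩)
        · omega
        · rcases low x _ hx h with h | h <;> omega
        · -- x ~ i, i + 2 ~ y
          have hxi : x = 2*k + 2*m + 1 := by
            rcases low x _ hx h with h | h <;> omega
          right; right
          rcases h' with h' | ⟨h', _⟩ | ⟨s, t, k1, k2, k3⟩
          · exact ⟨1, 1, by omega, by omega, R'.eqv.1 _⟩
          · omega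
          · have hs : s = 1 := by omega
            subst hs
            exact ⟨1, t, by omega, by omega, k3⟩
        · rcases low x _ hx h with h | h <;> omega
      · rintro (h | ⟨h1, h2, h3⟩ | ⟨s, t, h1, h2, h3⟩)
        · omega
        · omega
        · rcases R'.odd _ _ h3 with h | ⟨k1, k2⟩
          · omega
          · have hs : s = 1 := by omega
            subst hs
            exact Or.inr ⟨by omega, by omega, by omega, by omega,
              Or.inr (Or.inl ⟨Or.inl (by omega), Or.inr (Or.inr ⟨1, t, by omega, by omega, h3⟩)⟩)⟩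
  · by_cases hy : y ≤ 2*k + 2*m + 1
    · rw [up2 x hx, up1 y hy]
      constructor
      · rintro (h | ⟨h1, h2, h3, h4, (h | ⟨h, h'⟩ | ⟨h, h'⟩)⟩)
        · omega
        · rcases low' _ y hy h with h | h <;> omega
        · rcases low' _ y hy h' with h | h <;> omega
        · have hyi : y = 2*k + 2*m + 1 := by
            rcases low' _ y hy h' with h | h <;> omega
          right; right
          rcases h with h' | ⟨h', _⟩ | ⟨s, t, k1, k2, k3⟩
          · exact ⟨1, 1, by omega, by omega, R'.eqv.1 _⟩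
          · omega
          · have ht : t = 1 := by omega
            subst ht
            exact ⟨s, 1, by omega, by omega, k3⟩
      · rintro (h | ⟨h1, h2, h3⟩ | ⟨s, t, h1, h2, h3⟩)
        · omega
        · omega
        · rcases R'.odd _ _ h3 with h | ⟨k1, k2⟩
          · omega
          · have ht : t = 1 := by omega
            subst ht
            exact Or.inr ⟨by omega, by omega, by omega, by omega,
              Or.inr (Or.inr ⟨Or.inr (Or.inr ⟨s, 1, by omega, by omega, h3⟩), Or.inl (by omega)⟩)⟩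
    · rw [up2 x hx, up2 y hy]
      constructor
      · rintro (h | ⟨h1, h2, h3, h4, (h | ⟨h, h'⟩ | ⟨h, h'⟩)⟩)
        · left; omega
        · rcases h with h | ⟨h, _⟩ | ⟨s, t, k1, k2, k3⟩
          · left; omega
          · omega
          · exact Or.inr (Or.inr ⟨s, t, by omega, by omega, k3⟩)
        · rcases low' _ _ (by omega) h with h | h <;> omega
        · rcases low _ _ (by omega) h' with h | h <;> omega
      · rintro (h | ⟨h1, h2, h3⟩ | ⟨s, t, h1, h2, h3⟩)
        · left; omega
        · omega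
        · rcases R'.odd _ _ h3 with h | ⟨k1, k2⟩
          · left; omega
          · exact Or.inr ⟨by omega, by omega, by omega, by omega, Or.inl (Or.inr (Or.inr
              ⟨s, t, by omega, by omega, h3⟩))⟩

theorem cap_U1 {A : List ℂ} (ha : Odd A.length) (m : ℕ) (B : List ℂ) :
    Finsupp.mapDomain (St.cap (A.length + 2*m + 2)) (U1 A (m+1) B) = U1 A m B := by
  have hk : A.length + 1 = 2 * ((A.length + 1) / 2) := by
    have := Nat.odd_iff.mp ha
    omega
  unfold U1
  rw [comb2_bot, comb2_bot, comb2_map_right, comb2_map_right, Finsupp.mapDomain_sum]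
  refine Finsupp.sum_congr (fun R _ => ?_)
  rw [Finsupp.mapDomain_sum]
  refine Finsupp.sum_congr (fun R' _ => ?_)
  rw [Finsupp.mapDomain_single,
    show A.length + 2*m + 2 = 2 * ((A.length + 1) / 2) + 2*m + 1 by omega, cap_comb']

/-- the end `i + 2` may be replaced by `i` after an insertion at `i` -/
theorem pairG_ins_end (p i : ℕ) (hi : i % 2 = 1) (f g : St →₀ ℂ) :
    pairG p (i+2) (Finsupp.mapDomain (St.ins i) f) g =
      pairG p i (Finsupp.mapDomain (St.ins i) f) g := by
  classical
  unfold pairG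
  rw [Finsupp.sum_mapDomain_index, Finsupp.sum_mapDomain_index]
  · refine Finsupp.sum_congr (fun R _ => ?_)
    refine Finsupp.sum_congr (fun R' _ => ?_)
    have h : jn p (i+2) (St.ins i R) R' ↔ jn p i (St.ins i R) R' :=
      Pool.Agent.H988C.gconn_right (Or.inl (Pool.Agent.H988C.ins_rel_self hi R))
    by_cases h1 : jn p i (St.ins i R) R'
    · rw [if_pos h1, if_pos (h.2 h1)]
    · rw [if_neg h1, if_neg (fun k => h1 (h.1 k))]
  · intro R; simp
  · intro R b c
    rw [← Finsupp.sum_add]
    refine Finsupp.sum_congr (fun R' _ => ?_)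
    ring
  · intro R; simp
  · intro R b c
    rw [← Finsupp.sum_add]
    refine Finsupp.sum_congr (fun R' _ => ?_)
    ring

theorem E1_rec {A B : List ℂ} (X : List ℂ) (ha : Odd A.length) (hb : Odd B.length) (w x : ℂ) :
    E1 A (X ++ [x]) B w (q^2 * x⁻¹) =
      fac x⁻¹ ((A ++ w :: (prs X ++ [x])) ++ B) * E1 A X B w x := by
  have hpl : ∀ X : List ℂ, (prs X).length = 2 * X.length := fun X =>
    Pool.Agent.NH38.Step.prs_length X
  have hul : (A ++ w :: (prs X ++ [x])).length = A.length + 2 * X.length + 2 := by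
    simp only [List.length_append, List.length_cons, List.length_nil, hpl]; omega
  have e1 := Psi_rec (A ++ w :: (prs X ++ [x])) B x⁻¹ (by
    rw [hul]
    obtain ⟨m, hm⟩ := ha
    obtain ⟨n, hn⟩ := hb
    exact ⟨m + n + X.length + 2, by omega⟩)
  rw [hul] at e1
  have hl : A ++ w :: (prs (X ++ [x]) ++ (q^2 * x⁻¹) :: B) =
      (A ++ w :: (prs X ++ [x])) ++ x⁻¹ :: (q^2 * x⁻¹) :: B := by
    rw [prs_append, prs_cons]
    simp [prs]
  have hl2 : (A ++ w :: (prs X ++ [x])) ++ B = A ++ w :: (prs X ++ x :: B) := by simp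
  have hX : (X ++ [x]).length = X.length + 1 := by simp
  unfold E1
  rw [hl, e1, pairG_smul_left, hX]
  congr 1
  rw [show A.length + 2 * (X.length + 1) + 2 = (A.length + 2 * X.length + 2) + 2 by ring,
    pairG_ins_end _ _ (by have := Nat.odd_iff.mp ha; omega)]
  have h2 := pairG_ins_left A.length (A.length + 2 * X.length + 2) (A.length + 2 * X.length + 2)
    (Psi (A ++ w :: (prs X ++ x :: B))) (U1 A (X.length + 1) B)
  have u1 : St.up (A.length + 2 * X.length + 2) A.length = A.length := by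
    unfold St.up; rw [if_pos (by omega)]
  have u2 : St.up (A.length + 2 * X.length + 2) (A.length + 2 * X.length + 2) =
      A.length + 2 * X.length + 2 := by
    unfold St.up; rw [if_pos le_rfl]
  rw [u1, u2, cap_U1 ha] at h2
  rw [hl2]
  exact h2

end Q34

open Q34

theorem t1_permX : S1_permX := by
  intro A X X' B ha hb _ hX _ hp w v _ _
  unfold eh
  rw [hp.length_eq, E1_EY, E1_EY]
  congr 1
  exact permP A B ha hb w v hp [] hX

theorem t1_invX : S1_invX := by
  intro A X B x ha hb _ _ _ _ w v _ _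
  unfold eh
  rw [List.length_cons, List.length_cons, E1_EY, E1_EY]
  congr 1
  rw [Pool.Agent.NH38.Step.TD.prs_cons, Pool.Agent.NH38.Step.TD.prs_cons, inv_inv]
  have h2 : Even (prs X).length := by
    rw [Pool.Agent.NH38.Step.prs_length]; exact even_two_mul _
  exact (swapY A B [] (prs X) ha hb (by simp) h2 w v x x⁻¹).symm

theorem t1_node : S1_node := by
  intro A X B x ha hb hA hX hB hx w hw
  have hq := q_ne_zero
  have hxi : x⁻¹ ≠ 0 := inv_ne_zero hx
  have hv : q^2 * x⁻¹ ≠ 0 := mul_ne_zero (pow_ne_zero 2 hq) hxi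
  have hperm : (x :: X).Perm (X ++ [x]) := (List.perm_append_singleton x X).symm
  have hXx : NZ (x :: X) := by
    intro z hz
    rcases List.mem_cons.mp hz with rfl | hz
    · exact hx
    · exact hX z hz
  rw [t1_permX A (x :: X) (X ++ [x]) B ha hb hA hXx hB hperm w _ hw hv]
  have hPX : (prs X).prod = 1 := Pool.Agent.NH38.Step.prs_prod hX
  have hA0 : A.prod ≠ 0 := List.prod_ne_zero (fun h => hA 0 h rfl)
  have hB0 : B.prod ≠ 0 := List.prod_ne_zero (fun h => hB 0 h rfl)
  obtain ⟨s, hs⟩ : ∃ s, A.length + B.length = 2 * s := by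
    obtain ⟨m, hm⟩ := ha
    obtain ⟨n, hn⟩ := hb
    exact ⟨m + n + 1, by omega⟩
  have hl : (X ++ [x]).length = X.length + 1 := by simp
  -- the factor
  have hfac : fac x⁻¹ ((A ++ w :: (prs X ++ [x])) ++ B) =
      (q^2 * x⁻¹)^(2 * (s + X.length + 1)) * (A.prod * w * x * B.prod) *
        ((om (q^2 * x) - om w) * (om (q^2 * x) - om x) * pom (om (q^2 * x)) (A ++ B) *
          pom (om (q^2 * x)) (prs X)) := by
    have hne : ∀ z ∈ (A ++ w :: (prs X ++ [x])) ++ B, z ≠ 0 := by
      intro z hz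
      simp only [List.mem_append, List.mem_cons, List.not_mem_nil, or_false] at hz
      rcases hz with (hz | rfl | hz | rfl) | hz
      · exact hA z hz
      · exact hw
      · exact Pool.Agent.NH38.Step.prs_ne hX z hz
      · exact hx
      · exact hB z hz
    rw [Pool.Agent.NH38.Step.fac_eq_pom _ hxi _ hne, Pool.Agent.NH38.Step.om_q_inv]
    have hlen : ((A ++ w :: (prs X ++ [x])) ++ B).length = 2 * (s + X.length + 1) := by
      simp only [List.length_append, List.length_cons, List.length_nil,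
        Pool.Agent.NH38.Step.prs_length]
      omega
    rw [hlen]
    simp only [Pool.Agent.NH38.Step.pom_app, Pool.Agent.NH38.Step.pom_cons,
      Pool.Agent.NH38.Step.pom_nil, List.prod_append, List.prod_cons, List.prod_nil, hPX]
    ring
  have hcst : cst A B (X.length + 1) (w * (q^2 * x⁻¹)) =
      (q^2 * x⁻¹)^(2 * (s + X.length + 1)) * (A.prod * w * x * B.prod) *
        cst A B X.length (w * x) := by
    unfold cst
    rw [hs, Nat.mul_div_cancel_left _ (by norm_num : 0 < 2)]
    have e1 : x⁻¹ ^ (2 * (s + X.length + 1)) * x * x^(s + X.length) =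
        x⁻¹ ^ (s + X.length + 1) := by
      have : x⁻¹ ^ (2 * (s + X.length + 1)) = x⁻¹ ^ (s + X.length + 1) * x⁻¹ ^ (s + X.length + 1) := by
        rw [← pow_add]; congr 1; ring
      rw [this, mul_assoc, mul_assoc, ← pow_succ', ← mul_pow, inv_mul_cancel₀ hx, one_pow, mul_one]
    have e2 : q^(2 * (s + X.length + 1)) * q^((s + (X.length + 1) + 1) * (s + (X.length + 1)) +
        (na A + na B)) = q^(2 * (2 * (s + X.length + 1))) *
          q^((s + X.length + 1) * (s + X.length) + (na A + na B)) := by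
      rw [← pow_add, ← pow_add]; congr 1; ring
    have lhs : (w * (q^2 * x⁻¹))^(s + (X.length + 1)) * A.prod^((B.length+1)/2 + (X.length + 1)) *
        B.prod^((A.length+1)/2 + (X.length + 1)) *
        q^((s + (X.length + 1) + 1) * (s + (X.length + 1)) + (na A + na B)) =
        w^(s + X.length + 1) * A.prod^((B.length+1)/2 + X.length + 1) *
        B.prod^((A.length+1)/2 + X.length + 1) * x⁻¹ ^ (s + X.length + 1) *
        (q^(2 * (s + X.length + 1)) * q^((s + (X.length + 1) + 1) * (s + (X.length + 1)) +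
        (na A + na B))) := by
      rw [mul_pow, mul_pow, ← pow_mul]
      ring
    rw [lhs, e2, ← e1, mul_pow, mul_pow, ← pow_mul]
    ring
  have hc0 : cst A B X.length (w * x) ≠ 0 := by
    unfold cst
    exact mul_ne_zero (mul_ne_zero (mul_ne_zero (pow_ne_zero _ (mul_ne_zero hw hx))
      (pow_ne_zero _ hA0)) (pow_ne_zero _ hB0)) (pow_ne_zero _ hq)
  have hK : (q^2 * x⁻¹)^(2 * (s + X.length + 1)) * (A.prod * w * x * B.prod) ≠ 0 :=
    mul_ne_zero (pow_ne_zero _ hv) (mul_ne_zero (mul_ne_zero (mul_ne_zero hA0 hw) hx) hB0)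
  unfold eh
  rw [hl, E1_rec X ha hb w x, hfac, hcst]
  set K := (q^2 * x⁻¹)^(2 * (s + X.length + 1)) * (A.prod * w * x * B.prod) with hKd
  rw [mul_assoc K, mul_div_mul_left _ _ hK, mul_div_assoc]

end Pool.Agent.H966.T1
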