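import Pool.Agent.H966.T1.Main0
import Pool.Agent.H966.T1.Q34
import Pool.Agent.H966.T1.P0

/-! Forked channels of even width, both inner walls (helper966): the final theorems. -/

namespace Pool.Agent.H966.T1

theorem t_Exact : S1_Exact := a_Exact t1_permX t1_invX t1_node t1_lawE

theorem t_Lim : S1_Lim := a_Lim t1_permX t1_invX t1_node t1_lawE

end Pool.Agent.H966.T1
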