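import Pool.Agent.H966.T1.Stubs2
import Pool.Graph.R_pool_sql_team_seeded_3dad9d7b.NH38.Fork.P

/-!
Forked channels of even width, both inner walls: the percolation link (helper962).
The states of a strip of even width have no wired wall; the right arm is the mirror image of a
left arm.
-/

namespace Pool.Agent.H966.T1

open Pool.Agent.H988R2.Perc Pool.Agent.H980R3.Slit Relation MeasureTheory Finset Filter Topology
open Pool.Agent.NH38.Step (on prs)
open Pool.Agent.H492C (comb comb2 pairG up1 jn)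
open Pool.Agent.NH38.Fork (NZ)
open Pool.Agent.H988R2.Perc.T21 (Rep SA SF SB fF fB SA_add SA_iso eqvGen_iso rel_refl eqvGen_congr)

namespace P1

/-! ### the state of a strip of even width describes the connectivity (no wired wall: the dummy
wired column `W` of `SA` has no vertices) -/

theorem rep_ins {L t W : ℕ} (ht : t % 2 = 0) (hW : 0 < W) {o : ℕ → ℕ → Bool} {R : St}
    (h : Rep L R (SA W o (fun j k => 1 ≤ j ∧ j ≤ L ∧ k < t)) (fun a => (a, t))) :
    Rep (L+2) (R.ins 0) (SA W o (SF L t 0)) (fF t 0) := by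
  have hE : ∀ a b, SA W o (fun j k => 1 ≤ j ∧ j ≤ L ∧ k < t) a b ↔ SA W o (SF L t 0) a b := by
    intro a b
    have : (fun j k => 1 ≤ j ∧ j ≤ L ∧ k < t) = SF L t 0 := by
      funext j k
      apply propext
      unfold SF
      constructor
      · rintro ⟨h1, h2, h3⟩; exact ⟨h1, h2, Or.inl h3⟩
      · rintro ⟨h1, h2, h3 | ⟨_, h3⟩⟩
        · exact ⟨h1, h2, h3⟩
        · omega
    rw [this]
  have hv := SA_iso W o (SF L t 0) (0, t+1) (by simp only; omega)
    (by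
      rintro i k hi ⟨h1, h2, h3⟩
      refine ⟨fun _ => ⟨?_, ?_⟩, fun _ => ⟨?_, ?_⟩⟩ <;>
      · intro h
        simp only [Prod.mk.injEq] at h
        omega)
    (by rintro i k ⟨h, _⟩; exact h)
  intro a b ha hb haL hbL
  by_cases ha1 : a = 1
  · by_cases hb1 : b = 1
    · subst ha1; subst hb1
      simp [EqvGen.refl, rel_refl]
    · constructor
      · rintro (h | ⟨_, _, h, _⟩)
        · omega
        · exact absurd ha1 h
      · intro h
        exfalso
        rcases eqvGen_iso _ _ hv.1 hv.2 h with h | ⟨h, _⟩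
        · simp only [fF] at h
          split_ifs at h <;> simp only [Prod.mk.injEq] at h <;> omega
        · apply h
          simp [fF, ha1]
  · by_cases hb1 : b = 1
    · constructor
      · rintro (h | ⟨_, _, _, h, _⟩)
        · omega
        · exact absurd hb1 h
      · intro h
        exfalso
        rcases eqvGen_iso _ _ hv.1 hv.2 h with h | ⟨_, h⟩
        · simp only [fF] at h
          split_ifs at h <;> simp only [Prod.mk.injEq] at h <;> omega
        · apply h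
          simp [fF, hb1]
    · have e1 : fF t 0 a = (a-2, t) := by
        unfold fF; rw [if_neg (by omega)]
      have e2 : fF t 0 b = (b-2, t) := by
        unfold fF; rw [if_neg (by omega)]
      rw [e1, e2]
      have := h (a-2) (b-2) (by omega) (by omega) (by omega) (by omega)
      simp only at this
      rw [← eqvGen_congr hE, ← this]
      have e3 : St.low 0 a = a - 2 := by
        unfold St.low; rw [if_neg (by omega)]
      have e4 : St.low 0 b = b - 2 := by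
        unfold St.low; rw [if_neg (by omega)]
      constructor
      · rintro (h | ⟨_, _, _, _, h⟩)
        · subst h; exact rel_refl R _
        · rw [e3, e4] at h; exact h
      · intro h
        refine Or.inr ⟨ha, hb, by omega, by omega, ?_⟩
        rw [e3, e4]; exact h

theorem rep_fwd {L t W : ℕ} (ht : t % 2 = 0) (hL : L % 2 = 0) (hW : L < W) {o : ℕ → ℕ → Bool}
    {R : St} (h : Rep (L+2) R (SA W o (SF L t 0)) (fF t 0)) (i : ℕ) (hi : i ≤ L) :
    Rep (L+2) (fwdS i (actBit o t) R) (SA W o (SF L t i)) (fF t i) := by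
  induction i with
  | zero => simpa [fwdS] using h
  | succ i ih =>
    have ih := ih (by omega)
    simp only [fwdS]
    have hSadd : ∀ i' k', SF L t (i+1) i' k' ↔ (SF L t i i' k' ∨ (i' = i+1 ∧ k' = t)) := by
      intro i' k'; unfold SF; omega
    by_cases hodd : (i+1) % 2 = 1
    · have hact : actBit o t (i+1) = o t (i+1) := by
        unfold actBit; rw [if_pos hodd]
      rw [hact]
      have key := ih.join (i := i+1) hodd (by omega) (o t (i+1)) (i+1, t) (i+1-1, t+1)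
        (by
          right
          constructor
          · unfold fF; rw [if_neg (by omega)]; simp
          · unfold fF; rw [if_pos (by omega)])
      refine key.congr ?_ ?_
      · intro a b
        exact SA_add W o (SF L t i) (SF L t (i+1)) (i+1) t _ _ hSadd
          (Or.inl ⟨by omega, rfl, rfl⟩) a b
      · intro a ha haL
        unfold fF
        by_cases h1 : a ≤ i + 1
        · rw [if_pos h1, if_pos (by omega)]
        · rw [if_neg h1, if_neg (by omega)]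
    · have hact : actBit o t (i+1) = !(o t (i+1)) := by
        unfold actBit; rw [if_neg hodd]
      rw [hact]
      have hv := SA_iso W o (SF L t i) (i+1, t+1) (by simp only; omega)
        (by
          rintro i' k hi ⟨h1, h2, h3⟩
          refine ⟨fun _ => ⟨?_, ?_⟩, fun _ => ⟨?_, ?_⟩⟩ <;>
          · intro h
            simp only [Prod.mk.injEq] at h
            omega)
        (by rintro i k ⟨h, _⟩; exact h)
      have key := ih.move (i := i+1) (α' := fF t (i+1)) (by omega) (o t (i+1))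
        (i+1, t+1) hv.1 hv.2
        (by unfold fF; rw [if_pos (by omega)]; simp)
        (by
          intro a ha haL hai
          unfold fF
          by_cases h1 : a ≤ i + 1
          · rw [if_pos h1, if_pos (by omega)]
          · rw [if_neg h1, if_neg (by omega)])
        (by
          intro a ha haL h
          unfold fF at h
          split_ifs at h <;> simp only [Prod.mk.injEq] at h <;> omega)
      refine key.congr ?_ ?_
      · intro a b
        have e : fF t i (i+1+1) = (i+1-1, t) := by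
          unfold fF; rw [if_neg (by omega)]; simp
        rw [e]
        exact SA_add W o (SF L t i) (SF L t (i+1)) (i+1) t _ _ hSadd
          (Or.inr ⟨by omega, rfl, rfl⟩) a b
      · intro a ha haL; rfl

theorem rep_turn {L t W : ℕ} (hL : L % 2 = 0) {o : ℕ → ℕ → Bool} {R : St}
    (h : Rep (L+2) R (SA W o (SF L t L)) (fF t L)) :
    Rep (L+2) R (SA W o (SB L t L)) (fB t L) := by
  have hE : SF L t L = SB L t L := by
    funext j k
    apply propext
    unfold SF SB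
    omega
  rw [hE] at h
  refine h.congr (fun _ _ => Iff.rfl) ?_
  intro a ha haL
  have h1 : a ≤ L + 1 := by omega
  unfold fF fB; rw [if_pos h1, if_pos h1]

theorem rep_bwd {L t W : ℕ} (ht : t % 2 = 0) (hL : L % 2 = 0) (hW : L < W) {o : ℕ → ℕ → Bool}
    (i : ℕ) (hi : i ≤ L) : ∀ {R : St}
    (_ : Rep (L+2) R (SA W o (SB L t i)) (fB t i)),
    Rep (L+2) (bwdS i (actBit o (t+1)) R) (SA W o (SB L t 0)) (fB t 0) := by
  induction i with
  | zero => intro R h; simpa [bwdS] using h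
  | succ i ih =>
    intro R h
    simp only [bwdS]
    apply ih (by omega)
    have hSadd : ∀ i' k', SB L t i i' k' ↔ (SB L t (i+1) i' k' ∨ (i' = i+1 ∧ k' = t+1)) := by
      intro i' k'; unfold SB; omega
    by_cases hodd : (i+1) % 2 = 1
    · have hact : actBit o (t+1) (i+1) = o (t+1) (i+1) := by
        unfold actBit; rw [if_pos hodd]
      rw [hact]
      have key := h.join (i := i+1) hodd (by omega) (o (t+1) (i+1)) (i+1-1, t+1) (i+1, t+1+1)
        (by
          left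
          constructor
          · unfold fB; rw [if_pos (by omega)]
          · unfold fB; rw [if_neg (by omega)]; simp)
      refine key.congr ?_ ?_
      · intro a b
        exact SA_add W o (SB L t (i+1)) (SB L t i) (i+1) (t+1) _ _ hSadd
          (Or.inr ⟨by omega, rfl, rfl⟩) a b
      · intro a ha haL
        unfold fB
        by_cases h1 : a ≤ i + 1
        · rw [if_pos (by omega), if_pos (by omega)]
        · rw [if_neg (by omega), if_neg (by omega)]
    · have hact : actBit o (t+1) (i+1) = !(o (t+1) (i+1)) := by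
        unfold actBit; rw [if_neg hodd]
      rw [hact]
      have hv := SA_iso W o (SB L t (i+1)) (i, t+2) (by simp only; omega)
        (by
          rintro i' k hi ⟨h1, h2, h3⟩
          refine ⟨fun _ => ⟨?_, ?_⟩, fun _ => ⟨?_, ?_⟩⟩ <;>
          · intro h
            simp only [Prod.mk.injEq] at h
            omega)
        (by rintro i k ⟨h, _⟩; exact h)
      have key := h.move (i := i+1) (α' := fB t i) (by omega) (o (t+1) (i+1))
        (i, t+2) hv.1 hv.2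
        (by unfold fB; rw [if_neg (by omega)]; simp)
        (by
          intro a ha haL hai
          unfold fB
          by_cases h1 : a ≤ i + 1
          · rw [if_pos h1, if_pos (by omega)]
          · rw [if_neg h1, if_neg (by omega)])
        (by
          intro a ha haL h
          unfold fB at h
          split_ifs at h <;> simp only [Prod.mk.injEq] at h <;> omega)
      refine key.congr ?_ ?_
      · intro a b
        have e : fB t (i+1) (i+1+1) = (i+1, t+1) := by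
          unfold fB; rw [if_pos (by omega)]; simp
        rw [e]
        exact SA_add W o (SB L t (i+1)) (SB L t i) (i+1) (t+1) _ _ hSadd
          (Or.inl ⟨by omega, rfl, by simp⟩) a b
      · intro a ha haL; rfl

theorem rep_cap {L t W : ℕ} {o : ℕ → ℕ → Bool} {R : St}
    (h : Rep (L+2) R (SA W o (SB L t 0)) (fB t 0)) :
    Rep L (R.cap 0) (SA W o (fun j k => 1 ≤ j ∧ j ≤ L ∧ k < t+2)) (fun a => (a, t+2)) := by
  intro a b ha hb haL hbL
  have hE : SB L t 0 = (fun j k => 1 ≤ j ∧ j ≤ L ∧ k < t+2) := by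
    funext j k
    apply propext
    unfold SB
    omega
  rw [hE] at h
  have h1 := h (a+2) (b+2) (by omega) (by omega) (by omega) (by omega)
  have e1 : fB t 0 (a+2) = (a, t+2) := by
    unfold fB; rw [if_neg (by omega)]; simp
  have e2 : fB t 0 (b+2) = (b, t+2) := by
    unfold fB; rw [if_neg (by omega)]; simp
  rw [e1, e2] at h1
  rw [← h1]
  change (R.act 0).rel (St.up 0 a) (St.up 0 b) ↔ _
  rw [T21.up_zero a ha, T21.up_zero b hb, T21.act_rel_even R 0 _ _ rfl (by omega) (by omega)]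
  constructor
  · rintro (h | ⟨_, _, h⟩)
    · rw [h]; exact rel_refl R _
    · exact h
  · intro h
    exact Or.inr ⟨by omega, by omega, h⟩

theorem rep_X (L W : ℕ) (hL : L % 2 = 0) (hW : L < W) (o : ℕ → ℕ → Bool) (M : ℕ) :
    Rep L (X L (actBit o) M) (SA W o (fun j k => 1 ≤ j ∧ j ≤ L ∧ k < 2*M))
      (fun a => (a, 2*M)) := by
  induction M with
  | zero =>
    intro a b ha hb haL hbL
    change a = b ↔ _
    constructor
    · rintro rfl; exact EqvGen.refl _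
    · intro h
      have key : ∀ x y : ℕ × ℕ, EqvGen (SA W o (fun j k => 1 ≤ j ∧ j ≤ L ∧ k < 2*0)) x y →
          x = y ∨ (x.1 = W ∧ y.1 = W) := by
        intro x y h
        induction h with
        | rel a b h =>
          rcases h with ⟨i, k, ⟨_, _, h⟩, _⟩ | h
          · omega
          · exact Or.inr h
        | refl a => exact Or.inl rfl
        | symm a b _ ih =>
          rcases ih with h | ⟨h, h'⟩
          · exact Or.inl h.symm
          · exact Or.inr ⟨h', h⟩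
        | trans a b d _ _ ih1 ih2 =>
          rcases ih1 with h | ⟨h, h'⟩ <;> rcases ih2 with k | ⟨k, k'⟩
          · exact Or.inl (h.trans k)
          · subst h; exact Or.inr ⟨k, k'⟩
          · subst k; exact Or.inr ⟨h, h'⟩
          · exact Or.inr ⟨h, k'⟩
      rcases key _ _ h with h | ⟨h, h'⟩
      · simpa using h
      · simp only at h h'
        omega
  | succ M ih =>
    simp only [X]
    have h1 := rep_ins (t := 2*M) (by omega) (by omega) ih
    have h2 := rep_fwd (t := 2*M) (by omega) hL hW h1 L le_rfl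
    have h3 := rep_turn (t := 2*M) hL h2
    have h4 := rep_bwd (t := 2*M) (by omega) hL hW L le_rfl h3
    have h5 := rep_cap h4
    exact h5

/-- connectivity in the lower strip, no wired wall -/
theorem X_sem (L : ℕ) (hL : Even L) (M : ℕ) (o : ℕ → ℕ → Bool) (a b : ℕ) (ha : a % 2 = 1)
    (hb : b % 2 = 1) (haL : a ≤ L) (hbL : b ≤ L) :
    (X L (actBit o) M).rel a b ↔ EqvGen (StripAdj L (2*M) o) (a, 2*M) (b, 2*M) := by
  have hL0 : L % 2 = 0 := Nat.even_iff.mp hL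
  rw [rep_X L (L+1) hL0 (by omega) o M a b ha hb haL hbL]
  have key : ∀ x y : ℕ × ℕ, EqvGen (SA (L+1) o (fun j k => 1 ≤ j ∧ j ≤ L ∧ k < 2*M)) x y →
      EqvGen (StripAdj L (2*M) o) x y ∨ (x.1 = L+1 ∧ y.1 = L+1) := by
    have hout : ∀ x y : ℕ × ℕ, EqvGen (StripAdj L (2*M) o) x y → x.1 = L + 1 → y = x := by
      intro x y h hx
      have := eqvGen_iso (StripAdj L (2*M) o) x
        (by
          rintro z ⟨i, k, h1, h2, h3, h4, ⟨_, h6, h7⟩ | ⟨_, h6, h7⟩⟩
          · rw [h6] at hx; simp only at hx; omega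
          · rw [h6] at hx; simp only at hx; omega)
        (by
          rintro z ⟨i, k, h1, h2, h3, h4, ⟨_, h6, h7⟩ | ⟨_, h6, h7⟩⟩
          · rw [h7] at hx; simp only at hx; omega
          · rw [h7] at hx; simp only at hx; omega) h
      rcases this with h | ⟨h, _⟩
      · exact h.symm
      · exact absurd rfl h
    intro x y h
    induction h with
    | rel a b h =>
      rcases h with ⟨i, k, ⟨h1, h2, h3⟩, h4, h5⟩ | h
      · exact Or.inl (EqvGen.rel _ _ ⟨i, k, h1, h2, h3, h4, h5⟩)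
      · exact Or.inr h
    | refl a => exact Or.inl (EqvGen.refl _)
    | symm a b _ ih =>
      rcases ih with h | ⟨h, h'⟩
      · exact Or.inl (h.symm _ _)
      · exact Or.inr ⟨h', h⟩
    | trans a b d _ _ ih1 ih2 =>
      rcases ih1 with h | ⟨h, h'⟩ <;> rcases ih2 with k | ⟨k, k'⟩
      · exact Or.inl (h.trans _ _ _ k)
      · have := hout b a (h.symm _ _) k
        subst this; exact Or.inr ⟨k, k'⟩
      · have := hout b d k h'
        subst this; exact Or.inr ⟨h, h'⟩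
      · exact Or.inr ⟨h, k'⟩
  constructor
  · intro h
    rcases key _ _ h with h | ⟨h, _⟩
    · exact h
    · simp only at h; omega
  · intro h
    refine h.mono ?_
    rintro x y ⟨i, k, h1, h2, h3, h4, h5⟩
    exact Or.inl ⟨i, k, ⟨h1, h2, h3⟩, h4, h5⟩

/-- faces beyond `L` are isolated -/
theorem X_supp (L : ℕ) (M : ℕ) (c : ℕ → ℕ → Bool) (a b : ℕ)
    (h : (X L c M).rel a b) : a = b ∨ (a ≤ L ∧ b ≤ L) := by
  induction M generalizing a b with
  | zero => exact Or.inl h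
  | succ M ih =>
    simp only [X] at h
    have h1 : ∀ a b, ((X L c M).ins 0).rel a b → a = b ∨ (a ≤ L+2 ∧ b ≤ L+2) := by
      rintro a b (h | ⟨ha, hb, _, _, h⟩)
      · exact Or.inl h
      · have := ih _ _ h
        unfold St.low at this
        rw [if_neg (by omega), if_neg (by omega)] at this
        omega
    have h2 := T21.supp_fwd (c (2*M)) L le_rfl h1
    have h3 := T21.supp_bwd (c (2*M+1)) L le_rfl h2
    have h4 := T21.supp_act (i := 0) (by omega) h3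
    have h5 := h4 _ _ h
    unfold St.up at h5
    split_ifs at h5 <;> omega

/-! ### geometry: the window graph, coordinates `(column, time)` -/

/-- lower strip (no wired wall) -/
def EL (N M : ℕ) (ω : Conf) (p p' : ℤ × ℤ) : Prop := GP 1 N (-(2 * (M : ℤ))) 0 ω p p'

/-- right arm: columns `c..N`, the left wall `c` is wired (times `≥ 0`) -/
def ER (c N M : ℕ) (ω : Conf) (p p' : ℤ × ℤ) : Prop :=
  GP (c + 1) N 0 (2 * (M : ℤ)) ω p p' ∨ (p.1 = c ∧ p'.1 = c ∧ 0 ≤ p.2 ∧ 0 ≤ p'.2)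

/-- the parts of the window graph -/
def EP (a c N M : ℕ) (ω : Conf) : Fin 3 → ℤ × ℤ → ℤ × ℤ → Prop
  | 0 => EL N M ω
  | 1 => Pool.Agent.H980R3.Slit.E1 a M ω
  | 2 => ER c N M ω

/-- the window graph -/
def EW (a c N M : ℕ) (ω : Conf) (p p' : ℤ × ℤ) : Prop := ∃ i, EP a c N M ω i p p'

/-- open bits of the right arm, read downwards and in the mirror `c ↦ N - c` -/
def oFutM (N : ℕ) (ω : Conf) (M : ℕ) (k i : ℕ) : Bool :=
  ω (edgeOf ((N : ℤ) + 1 - i) (2 * (M : ℤ) - 1 - k))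

/-- lower state -/
theorem low_iff (N : ℕ) (hN : Even N) (M : ℕ) (ω : Conf) (x y : ℕ) (hx : x % 2 = 1)
    (hy : y % 2 = 1) (hxN : x ≤ N) (hyN : y ≤ N) :
    (X N (actBit (oPast ω M)) M).rel x y ↔ EqvGen (EL N M ω) ((x : ℤ), 0) ((y : ℤ), 0) := by
  rw [X_sem N hN M (oPast ω M) x y hx hy hxN hyN]
  constructor
  · intro h
    have := T22.eqvGen_map (F := EL N M ω)
      (fun p : ℕ × ℕ => (((p.1 : ℤ), (p.2 : ℤ) - 2 * M) : ℤ × ℤ)) ?_ h
    · simpa using this
    · rintro p p' ⟨i, k, h1, h2, h3, h4, h5⟩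
      refine Relation.EqvGen.rel _ _ ⟨i, (k : ℤ) - 2 * M, by omega, by omega, by omega,
          by omega, h4, ?_⟩
      rcases h5 with ⟨e1, e2, e3⟩ | ⟨e1, e2, e3⟩
      · left
        subst e2 e3
        refine ⟨by omega, by simp, ?_⟩
        apply Prod.ext <;> simp <;> omega
      · right
        subst e2 e3
        refine ⟨by omega, ?_, ?_⟩
        · apply Prod.ext
          · simp; omega
          · simp
        · apply Prod.ext <;> simp <;> omega
  · intro h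
    have := T22.eqvGen_map (F := StripAdj N (2*M) (oPast ω M))
      (fun p : ℤ × ℤ => ((p.1.toNat, (p.2 + 2 * M).toNat) : ℕ × ℕ)) ?_ h
    · have e : ((0 : ℤ) + 2 * M).toNat = 2 * M := by omega
      simp only [Int.toNat_natCast, e] at this
      exact this
    · rintro p p' ⟨i, r, h1, h2, h3, h4, h5, h6⟩
      refine Relation.EqvGen.rel _ _ ⟨i.toNat, (r + 2 * M).toNat, by omega, by omega,
          by omega, ?_, ?_⟩
      · unfold oPast
        have e1 : ((i.toNat : ℕ) : ℤ) = i := by omega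
        have e2 : (((r + 2 * M).toNat : ℕ) : ℤ) - 2 * M = r := by omega
        rw [e1, e2]; exact h5
      · rcases h6 with ⟨e1, e2, e3⟩ | ⟨e1, e2, e3⟩
        · left
          subst e2 e3
          refine ⟨by omega, by simp, ?_⟩
          apply Prod.ext <;> simp <;> omega
        · right
          subst e2 e3
          refine ⟨by omega, ?_, ?_⟩
          · apply Prod.ext
            · simp
            · simp
          · apply Prod.ext <;> simp <;> omega

/-- state of the right arm -/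
theorem right_iff (c b M : ℕ) (ω : Conf) (x y : ℕ) (hc : Odd c) (hb : Odd b) (hx : x % 2 = 1)
    (hy : y % 2 = 1) (hxb : x ≤ b) (hyb : y ≤ b) :
    (X b (actBit (oFutM (c + b) ω M)) M).rel x y ↔
      EqvGen (ER c (c+b) M ω) (((c + b : ℕ) : ℤ) - x, 0) (((c + b : ℕ) : ℤ) - y, 0) := by
  have hc1 : c % 2 = 1 := Nat.odd_iff.mp hc
  have hb1 : b % 2 = 1 := Nat.odd_iff.mp hb
  rw [Pool.Agent.H988R2.Perc.X_sem b hb M (oFutM (c + b) ω M) x y hx hy hxb hyb]
  constructor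
  · intro h
    have := T22.eqvGen_map (F := ER c (c+b) M ω)
      (fun p : ℕ × ℕ => ((((c + b : ℕ) : ℤ) - p.1, ((2 * M - p.2 : ℕ) : ℤ)) : ℤ × ℤ)) ?_ h
    · simpa using this
    · rintro p p' (⟨i, k, h1, h2, h3, h4, h5⟩ | ⟨h1, h2⟩)
      · apply Relation.EqvGen.symm
        refine Relation.EqvGen.rel _ _ (Or.inl ⟨((c + b : ℕ) : ℤ) + 1 - i, 2 * M - 1 - k, by omega,
          by omega, by omega, by omega, h4, ?_⟩)
        rcases h5 with ⟨e1, e2, e3⟩ | ⟨e1, e2, e3⟩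
        · left
          subst e2 e3
          refine ⟨by omega, ?_, ?_⟩
          · apply Prod.ext <;> dsimp only <;> omega
          · apply Prod.ext <;> dsimp only <;> omega
        · right
          subst e2 e3
          refine ⟨by omega, ?_, ?_⟩
          · apply Prod.ext <;> dsimp only <;> omega
          · apply Prod.ext <;> dsimp only <;> omega
      · exact Relation.EqvGen.rel _ _ (Or.inr ⟨by dsimp only; omega, by dsimp only; omega,
          by dsimp only; omega, by dsimp only; omega⟩)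
  · intro h
    have := T22.eqvGen_map
      (F := fun p p' => StripAdj b (2*M) (oFutM (c + b) ω M) p p' ∨ (p.1 = b ∧ p'.1 = b))
      (fun p : ℤ × ℤ => (((((c + b : ℕ) : ℤ) - p.1).toNat, (2 * M - p.2).toNat) : ℕ × ℕ)) ?_ h
    · have e : (2 * (M : ℤ) - 0).toNat = 2 * M := by omega
      have e1 : (((c + b : ℕ) : ℤ) - (((c + b : ℕ) : ℤ) - x)).toNat = x := by omega
      have e2 : (((c + b : ℕ) : ℤ) - (((c + b : ℕ) : ℤ) - y)).toNat = y := by omega
      simp only [e, e1, e2] at this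
      exact this
    · rintro p p' (⟨i, r, h1, h2, h3, h4, h5, h6⟩ | ⟨h1, h2, h3, h4⟩)
      · apply Relation.EqvGen.symm
        refine Relation.EqvGen.rel _ _ (Or.inl ⟨(((c + b : ℕ) : ℤ) + 1 - i).toNat,
          (2 * M - 1 - r).toNat, by omega, by omega, by omega, ?_, ?_⟩)
        · unfold oFutM
          have e1 : ((c + b : ℕ) : ℤ) + 1 - (((((c + b : ℕ) : ℤ) + 1 - i).toNat : ℕ) : ℤ) = i := by
            omega
          have e2 : 2 * (M : ℤ) - 1 - (((2 * (M : ℤ) - 1 - r).toNat : ℕ) : ℤ) = r := by omega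
          rw [e1, e2]; exact h5
        · rcases h6 with ⟨e1, e2, e3⟩ | ⟨e1, e2, e3⟩
          · left
            subst e2 e3
            refine ⟨by omega, ?_, ?_⟩
            · apply Prod.ext <;> dsimp only <;> omega
            · apply Prod.ext <;> dsimp only <;> omega
          · right
            subst e2 e3
            refine ⟨by omega, ?_, ?_⟩
            · apply Prod.ext <;> dsimp only <;> omega
            · apply Prod.ext <;> dsimp only <;> omega
      · exact Relation.EqvGen.rel _ _ (Or.inr ⟨by dsimp only; omega, by dsimp only; omega⟩)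

/-! ### gluing -/

/-- vertices reached in a part -/
theorem eqv_V {α : Type*} {E : α → α → Prop} {V : α → Prop}
    (h : ∀ p p', E p p' → V p ∧ V p') {p q : α} (hpq : EqvGen E p q) (hp : V p) : V q :=
  (T22.eqvGen_iff V (fun a b hab => ⟨fun _ => (h a b hab).2, fun _ => (h a b hab).1⟩) hpq).1 hp

/-- gluing of graphs meeting in a slice -/
theorem glue {V ι : Type*} {E : ι → V → V → Prop} {W : ι → V → Prop} {σ : ℕ → V}
    {S : ι → ℕ → Prop} {J : ℕ → ℕ → Prop}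
    (hE : ∀ i p p', E i p p' → W i p ∧ W i p')
    (hI : ∀ i j p, i ≠ j → W i p → W j p → ∃ x, p = σ x ∧ S i x ∧ S j x)
    (hJ : ∀ i x y, S i x → S i y → EqvGen (E i) (σ x) (σ y) → EqvGen J x y)
    (hW : ∀ i x, S i x → W i (σ x))
    {x y : ℕ} {i0 j0 : ι} (hx : S i0 x) (hy : S j0 y)
    (h : EqvGen (fun p p' => ∃ i, E i p p') (σ x) (σ y)) : EqvGen J x y := by
  classical
  let P : V → Prop := fun p => ∃ i z, S i z ∧ EqvGen J x z ∧ EqvGen (E i) (σ z) p
  have key : ∀ j p, P p → W j p → ∃ z, S j z ∧ EqvGen J x z ∧ EqvGen (E j) (σ z) p := by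
    rintro j p ⟨i, z, hz, hJz, hEz⟩ hp
    by_cases hij : i = j
    · subst hij; exact ⟨z, hz, hJz, hEz⟩
    · have hip : W i p := eqv_V (hE i) hEz (hW i z hz)
      obtain ⟨z', rfl, h1, h2⟩ := hI i j p hij hip hp
      exact ⟨z', h2, hJz.trans _ _ _ (hJ i z z' hz h1 hEz), EqvGen.refl _⟩
  have main : P (σ x) ↔ P (σ y) := by
    refine T22.eqvGen_iff P ?_ h
    rintro p p' ⟨j, hj⟩
    obtain ⟨w1, w2⟩ := hE j p p' hj
    constructor
    · intro hP
      obtain ⟨z, h1, h2, h3⟩ := key j p hP w1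
      exact ⟨j, z, h1, h2, h3.trans _ _ _ (EqvGen.rel _ _ hj)⟩
    · intro hP
      obtain ⟨z, h1, h2, h3⟩ := key j p' hP w2
      exact ⟨j, z, h1, h2, h3.trans _ _ _ ((EqvGen.rel _ _ hj).symm _ _)⟩
  obtain ⟨z, h1, h2, h3⟩ := key j0 _ (main.1 ⟨i0, x, hx, EqvGen.refl _, EqvGen.refl _⟩) (hW j0 y hy)
  exact h2.trans _ _ _ (hJ j0 z y h1 hy h3)

/-- the window event -/
def WinF1 (a k b M : ℕ) : Set Conf :=
  {ω | conn3 a (2*k+1) (X (a+2+2*k+b) (actBit (oPast ω M)) M) (X a (actBit (oFut ω M)) M)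
    (comb k St.bot (mir (b+1) (X b (actBit (oFutM (a+2+2*k+b) ω M)) M)))}

/-- vertices of the parts -/
def VV (a c N : ℕ) : Fin 3 → ℤ × ℤ → Prop
  | 0 => fun p => p.2 ≤ 0 ∧ (p.1 + p.2) % 2 = 1 ∧ 0 ≤ p.1 ∧ p.1 ≤ N
  | 1 => fun p => 0 ≤ p.2 ∧ p.1 ≤ a ∧ (((p.1 + p.2) % 2 = 1 ∧ 0 ≤ p.1) ∨ p.1 = a)
  | 2 => fun p => 0 ≤ p.2 ∧ c ≤ p.1 ∧ (((p.1 + p.2) % 2 = 1 ∧ p.1 ≤ N) ∨ p.1 = c)

/-- the slices -/
def SV (a c N : ℕ) : Fin 3 → ℕ → Prop
  | 0 => fun x => x % 2 = 1 ∧ x ≤ N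
  | 1 => fun x => x % 2 = 1 ∧ x ≤ a
  | 2 => fun x => x % 2 = 1 ∧ c ≤ x ∧ x ≤ N

theorem ep_V (a c N M : ℕ) (ω : Conf) (i : Fin 3) (p p' : ℤ × ℤ) (h : EP a c N M ω i p p') :
    VV a c N i p ∧ VV a c N i p' := by
  fin_cases i
  · change GP 1 N (-(2 * (M : ℤ))) 0 ω p p' at h
    obtain ⟨f1, f2, f3, f4, f5, f6, f7, f8, f9⟩ := C05.gp_facts h
    exact ⟨⟨by omega, f4, by omega, f7⟩, ⟨by omega, f5, by omega, f9⟩⟩
  · change GP 1 a 0 (2 * (M : ℤ)) ω p p' ∨ (p.1 = a ∧ p'.1 = a ∧ 0 ≤ p.2 ∧ 0 ≤ p'.2) at h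
    rcases h with h | ⟨h1, h2, h3, h4⟩
    · obtain ⟨f1, f2, f3, f4, f5, f6, f7, f8, f9⟩ := C05.gp_facts h
      exact ⟨⟨by omega, f7, Or.inl ⟨f4, by omega⟩⟩, ⟨by omega, f9, Or.inl ⟨f5, by omega⟩⟩⟩
    · exact ⟨⟨h3, h1.le, Or.inr h1⟩, ⟨h4, h2.le, Or.inr h2⟩⟩
  · change GP (c + 1) N 0 (2 * (M : ℤ)) ω p p' ∨ (p.1 = c ∧ p'.1 = c ∧ 0 ≤ p.2 ∧ 0 ≤ p'.2) at h
    rcases h with h | ⟨h1, h2, h3, h4⟩
    · obtain ⟨f1, f2, f3, f4, f5, f6, f7, f8, f9⟩ := C05.gp_facts h
      exact ⟨⟨by omega, by omega, Or.inl ⟨f4, f7⟩⟩, ⟨by omega, by omega, Or.inl ⟨f5, f9⟩⟩⟩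
    · exact ⟨⟨h3, h1.ge, Or.inr h1⟩, ⟨h4, h2.ge, Or.inr h2⟩⟩

/-- a point on the slice -/
theorem slice_eq {p : ℤ × ℤ} (h0 : p.2 = 0) (h1 : 0 ≤ p.1) :
    p = ((fun x : ℕ => (((x : ℕ) : ℤ), (0 : ℤ))) p.1.toNat) := by
  apply Prod.ext
  · dsimp only; omega
  · exact h0

theorem inter_V {a c N : ℕ} (hac : a < c) (i j : Fin 3) (p : ℤ × ℤ)
    (hij : i ≠ j) (hi : VV a c N i p) (hj : VV a c N j p) :
    ∃ x : ℕ, p = ((fun x : ℕ => (((x : ℕ) : ℤ), (0 : ℤ))) x) ∧ SV a c N i x ∧ SV a c N j x := by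
  have h01 : VV a c N 0 p → VV a c N 1 p →
      ∃ x : ℕ, p = ((fun x : ℕ => (((x : ℕ) : ℤ), (0 : ℤ))) x) ∧ SV a c N 0 x ∧ SV a c N 1 x := by
    rintro ⟨f1, f2, f3, f4⟩ ⟨g1, g2, g3⟩
    refine ⟨p.1.toNat, slice_eq (by omega) f3, ⟨by omega, by omega⟩, ⟨by omega, by omega⟩⟩
  have h02 : VV a c N 0 p → VV a c N 2 p →
      ∃ x : ℕ, p = ((fun x : ℕ => (((x : ℕ) : ℤ), (0 : ℤ))) x) ∧ SV a c N 0 x ∧ SV a c N 2 x := by
    rintro ⟨f1, f2, f3, f4⟩ ⟨g1, g2, g3⟩
    refine ⟨p.1.toNat, slice_eq (by omega) f3, ⟨by omega, by omega⟩, ⟨by omega, by omega,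
      by omega⟩⟩
  have h12 : VV a c N 1 p → VV a c N 2 p → False := by
    rintro ⟨f1, f2, f3⟩ ⟨g1, g2, g3⟩
    omega
  fin_cases i <;> fin_cases j
  · exact absurd rfl hij
  · exact h01 hi hj
  · exact h02 hi hj
  · obtain ⟨x, h1, h2, h3⟩ := h01 hj hi
    exact ⟨x, h1, h3, h2⟩
  · exact absurd rfl hij
  · exact absurd (h12 hi hj) id
  · obtain ⟨x, h1, h2, h3⟩ := h02 hj hi
    exact ⟨x, h1, h3, h2⟩
  · exact absurd (h12 hj hi) id
  · exact absurd rfl hij

theorem slice_V {a c N : ℕ} (i : Fin 3) (x : ℕ) (h : SV a c N i x) :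
    VV a c N i ((fun x : ℕ => (((x : ℕ) : ℤ), (0 : ℤ))) x) := by
  fin_cases i
  · obtain ⟨h1, h2⟩ := h
    exact ⟨le_rfl, by dsimp only; omega, by dsimp only; omega, by dsimp only; omega⟩
  · obtain ⟨h1, h2⟩ := h
    exact ⟨le_rfl, by dsimp only; omega, Or.inl ⟨by dsimp only; omega, by dsimp only; omega⟩⟩
  · obtain ⟨h1, h2, h3⟩ := h
    exact ⟨le_rfl, by dsimp only; omega, Or.inl ⟨by dsimp only; omega, by dsimp only; omega⟩⟩

/-- the window event is a crossing of the window graph -/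
theorem win_iff {a b : ℕ} (k M : ℕ) (ω : Conf) (ha : Odd a) (hb : Odd b) :
    ω ∈ WinF1 a k b M ↔ EqvGen (EW a (a+2+2*k) (a+2+2*k+b) M ω) ((a : ℤ), 0)
      (((a+2+2*k : ℕ) : ℤ), 0) := by
  have ha1 : a % 2 = 1 := Nat.odd_iff.mp ha
  have hb1 : b % 2 = 1 := Nat.odd_iff.mp hb
  have hc : Odd (a+2+2*k) := Nat.odd_iff.mpr (by omega)
  have hN : Even (a+2+2*k+b) := Nat.even_iff.mpr (by omega)
  set R := X (a+2+2*k+b) (actBit (oPast ω M)) M with hR
  set R1 := X a (actBit (oFut ω M)) M with hR1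
  set R2 := X b (actBit (oFutM (a+2+2*k+b) ω M)) M with hR2
  set J := J3 a R R1 (comb k St.bot (mir (b+1) R2)) with hJ
  have hwin : ω ∈ WinF1 a k b M ↔ EqvGen J a (a+2+2*k) := by
    show EqvGen J a (a+(2*k+1)+1) ↔ _
    rw [show a+(2*k+1)+1 = a+2+2*k by ring]
  rw [hwin]
  -- the third relation
  have h3 : ∀ x y : ℕ, x % 2 = 1 → y % 2 = 1 → a+2+2*k ≤ x → a+2+2*k ≤ y → x ≤ a+2+2*k+b →
      y ≤ a+2+2*k+b → (R2.rel (a+2+2*k+b - x) (a+2+2*k+b - y) ↔
        EqvGen (ER (a+2+2*k) (a+2+2*k+b) M ω) ((x : ℤ), 0) ((y : ℤ), 0)) := by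
    intro x y hx hy h1 h2 h3 h4
    rw [hR2, right_iff (a+2+2*k) b M ω (a+2+2*k+b - x) (a+2+2*k+b - y) hc hb (by omega) (by omega)
      (by omega) (by omega)]
    have e1 : ((a+2+2*k+b : ℕ) : ℤ) - ((a+2+2*k+b - x : ℕ) : ℤ) = x := by omega
    have e2 : ((a+2+2*k+b : ℕ) : ℤ) - ((a+2+2*k+b - y : ℕ) : ℤ) = y := by omega
    rw [e1, e2]
  constructor
  · intro h
    have := T22.eqvGen_map (F := EW a (a+2+2*k) (a+2+2*k+b) M ω)
      (fun x : ℕ => (((x : ℕ) : ℤ), (0 : ℤ))) ?_ h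
    · exact this
    · intro x y hxy
      by_cases hne : x = y
      · subst hne; exact EqvGen.refl _
      rcases hxy with h | ⟨h, hx, hy⟩ | ⟨hx, hy, h⟩
      · have ho : x % 2 = 1 ∧ y % 2 = 1 := by
          rcases R.odd _ _ h with h' | h'
          · exact absurd h' hne
          · exact h'
        have hs : x ≤ a+2+2*k+b ∧ y ≤ a+2+2*k+b := by
          rcases X_supp (a+2+2*k+b) M _ _ _ h with h' | h'
          · exact absurd h' hne
          · exact h'
        exact ((low_iff (a+2+2*k+b) hN M ω x y ho.1 ho.2 hs.1 hs.2).1 h).mono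
          (fun _ _ h => ⟨0, h⟩)
      · have ho : x % 2 = 1 ∧ y % 2 = 1 := by
          rcases R1.odd _ _ h with h' | h'
          · exact absurd h' hne
          · exact h'
        exact ((t_C01 a M ω x y ha ho.1 ho.2 hx hy).1 h).mono (fun _ _ h => ⟨1, h⟩)
      · rcases h with h | ⟨_, _, h⟩ | ⟨h1, h2, h⟩
        · exact absurd h (by omega)
        · have h' : x - (a+1) = y - (a+1) := h
          omega
        · rcases h with h | ⟨h4, h5, h6, h7, h⟩
          · omega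
          · have e1 : b + 1 - (x - (a+1) - 2*k) = a+2+2*k+b - x := by omega
            have e2 : b + 1 - (y - (a+1) - 2*k) = a+2+2*k+b - y := by omega
            rw [e1, e2] at h
            exact ((h3 x y (by omega) (by omega) (by omega) (by omega) (by omega) (by omega)).1
              h).mono (fun _ _ h => ⟨2, h⟩)
  · intro h
    refine glue (E := EP a (a+2+2*k) (a+2+2*k+b) M ω) (W := VV a (a+2+2*k) (a+2+2*k+b))
      (S := SV a (a+2+2*k) (a+2+2*k+b)) (σ := (fun x : ℕ => (((x : ℕ) : ℤ), (0 : ℤ))))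
      (ep_V a (a+2+2*k) (a+2+2*k+b) M ω) (inter_V (by omega)) ?_ slice_V (i0 := 1) (j0 := 2)
      ⟨ha1, le_rfl⟩ ⟨by omega, le_rfl, by omega⟩ h
    intro i x y hx hy h
    fin_cases i
    · obtain ⟨x1, x2⟩ := hx
      obtain ⟨y1, y2⟩ := hy
      exact EqvGen.rel _ _ (Or.inl ((low_iff (a+2+2*k+b) hN M ω x y x1 y1 x2 y2).2 h))
    · obtain ⟨x1, x2⟩ := hx
      obtain ⟨y1, y2⟩ := hy
      exact EqvGen.rel _ _ (Or.inr (Or.inl ⟨(t_C01 a M ω x y ha x1 y1 x2 y2).2 h, x2, y2⟩))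
    · obtain ⟨x1, x2, x3⟩ := hx
      obtain ⟨y1, y2, y3⟩ := hy
      have h4 := (h3 x y x1 y1 x2 y2 x3 y3).2 h
      refine EqvGen.rel _ _ (Or.inr (Or.inr ⟨by omega, by omega, Or.inr (Or.inr ⟨by omega,
        by omega, Or.inr ⟨by omega, by omega, by omega, by omega, ?_⟩⟩)⟩))
      have e1 : b + 1 - (x - (a+1) - 2*k) = a+2+2*k+b - x := by omega
      have e2 : b + 1 - (y - (a+1) - 2*k) = a+2+2*k+b - y := by omega
      rw [e1, e2]
      exact h4

/-! ### window crossings and crossings of the fork -/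

theorem EAdj1.symm {a k b : ℕ} {ω : Conf} {x y : ℤ × ℤ} (h : EAdj1 a k b ω x y) :
    EAdj1 a k b ω y x := by
  obtain ⟨h1, h2, h3, h4⟩ := h
  exact ⟨T22.openAdj_symm h1, h3, h2, fun h => h4 ⟨h.2.1, h.1, h.2.2.2.2.1, h.2.2.2.2.2,
    h.2.2.1, h.2.2.2.1⟩⟩

/-- an edge of the window graph, in `ℤ²` -/
theorem ep_edge {a k b M : ℕ} {ω : Conf} {i : Fin 3} {p p' : ℤ × ℤ}
    (h : EP a (a+2+2*k) (a+2+2*k+b) M ω i p p') :
    ((p.1 + p.2) % 2 = 1 ∧ (p'.1 + p'.2) % 2 = 1 ∧ EAdj1 a k b ω (T22.toZ p) (T22.toZ p')) ∨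
    (p.1 = a ∧ p'.1 = a ∧ 0 ≤ p.2 ∧ 0 ≤ p'.2) ∨
    (p.1 = ((a+2+2*k : ℕ) : ℤ) ∧ p'.1 = ((a+2+2*k : ℕ) : ℤ) ∧ 0 ≤ p.2 ∧ 0 ≤ p'.2) := by
  have main : ∀ lo hi t0 t1 : ℤ, GP lo hi t0 t1 ω p p' → 1 ≤ lo → hi ≤ ((a+2+2*k+b : ℕ) : ℤ) →
      -(2 * (M : ℤ)) ≤ t0 → t1 ≤ 2 * (M : ℤ) →
      (t1 ≤ 0 ∨ hi ≤ a ∨ ((a+2+2*k : ℕ) : ℤ) + 1 ≤ lo) →
      ((p.1 + p.2) % 2 = 1 ∧ (p'.1 + p'.2) % 2 = 1 ∧
        EAdj1 a k b ω (T22.toZ p) (T22.toZ p')) := by
    intro lo hi t0 t1 h h1 h2 h3 h4 h5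
    have hg : GAdj (a+2+2*k+b) M ω p p' := by
      obtain ⟨i, r, g1, g2, g3, g4, g5, g6⟩ := h
      exact ⟨i, r, by omega, by omega, by omega, by omega, g5, g6⟩
    have ho := T22.gadj_open hg
    obtain ⟨f1, f2, f3, f4, f5, f6, f7, f8, f9⟩ := C05.gp_facts h
    have hcol : (p.1 + 1 = p'.1 ∨ p.1 = p'.1 + 1) ∧ (lo ≤ p.1 ∨ lo ≤ p'.1) := by
      obtain ⟨i, r, g1, g2, g3, g4, g5, ⟨g6, rfl, rfl⟩ | ⟨g6, rfl, rfl⟩⟩ := h
      · dsimp only; omega
      · dsimp only; omega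
    have d1 := T22.toZ_diff p f4
    have d2 := T22.toZ_diff p' f5
    have e1 := C06.toZ_sum p f4
    have e2 := C06.toZ_sum p' f5
    refine ⟨f4, f5, ho, ⟨by omega, by omega⟩, ⟨by omega, by omega⟩, ?_⟩
    rw [d1, d2, e1, e2]
    rintro ⟨q1, q2, q3, q4, q5, q6⟩
    omega
  fin_cases i
  · left
    change GP 1 ((a+2+2*k+b : ℕ) : ℤ) (-(2 * (M : ℤ))) 0 ω p p' at h
    exact main _ _ _ _ h le_rfl le_rfl le_rfl (by omega) (Or.inl le_rfl)
  · change GP 1 a 0 (2 * (M : ℤ)) ω p p' ∨ (p.1 = a ∧ p'.1 = a ∧ 0 ≤ p.2 ∧ 0 ≤ p'.2) at h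
    rcases h with h | h
    · left
      exact main _ _ _ _ h le_rfl (by omega) (by omega) le_rfl (Or.inr (Or.inl le_rfl))
    · exact Or.inr (Or.inl h)
  · change GP (((a+2+2*k : ℕ) : ℤ) + 1) ((a+2+2*k+b : ℕ) : ℤ) 0 (2 * (M : ℤ)) ω p p' ∨
      (p.1 = ((a+2+2*k : ℕ) : ℤ) ∧ p'.1 = ((a+2+2*k : ℕ) : ℤ) ∧ 0 ≤ p.2 ∧ 0 ≤ p'.2) at h
    rcases h with h | h
    · left
      exact main _ _ _ _ h (by omega) le_rfl (by omega) le_rfl (Or.inr (Or.inr le_rfl))
    · exact Or.inr (Or.inr h)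

theorem cross_of_win {a k b M : ℕ} {ω : Conf}
    (h : EqvGen (EW a (a+2+2*k) (a+2+2*k+b) M ω) ((a : ℤ), 0) (((a+2+2*k : ℕ) : ℤ), 0)) :
    ω ∈ ECross1 a k b := by
  by_contra hc
  let P : ℤ × ℤ → Prop := fun p => (p.1 = a ∧ 0 ≤ p.2) ∨ ((p.1 + p.2) % 2 = 1 ∧
    ∃ x : ℤ × ℤ, x.1 - x.2 = a ∧ 1 ≤ x.1 + x.2 ∧ ReflTransGen (EAdj1 a k b ω) x (T22.toZ p))
  have wired : ∀ p : ℤ × ℤ, p.1 = ((a+2+2*k : ℕ) : ℤ) → 0 ≤ p.2 → ¬ P p := by
    rintro p hp hp2 (⟨h1, h2⟩ | ⟨h1, x, hx1, hx2, h2⟩)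
    · omega
    · refine hc ⟨x, T22.toZ p, hx1, hx2, by rw [T22.toZ_diff p h1, hp], ?_, h2⟩
      rw [C06.toZ_sum p h1]; omega
  have step : ∀ p p' : ℤ × ℤ, (p.1 + p.2) % 2 = 1 → (p'.1 + p'.2) % 2 = 1 →
      EAdj1 a k b ω (T22.toZ p) (T22.toZ p') → P p → P p' := by
    rintro p p' f1 f2 hadj hP
    have d1 := T22.toZ_diff p f1
    have e1 := C06.toZ_sum p f1
    right
    refine ⟨f2, ?_⟩
    rcases hP with ⟨h1, h2⟩ | ⟨h1, x, hx1, hx2, h2⟩
    · exact ⟨T22.toZ p, by omega, by omega, ReflTransGen.single hadj⟩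
    · exact ⟨x, hx1, hx2, h2.tail hadj⟩
  have key : P ((a : ℤ), 0) ↔ P (((a+2+2*k : ℕ) : ℤ), 0) := by
    refine T22.eqvGen_iff P ?_ h
    rintro p p' ⟨i, h1⟩
    rcases ep_edge h1 with ⟨f1, f2, f3⟩ | ⟨g1, g2, g3, g4⟩ | ⟨g1, g2, g3, g4⟩
    · exact ⟨step p p' f1 f2 f3, step p' p f2 f1 (EAdj1.symm f3)⟩
    · exact ⟨fun _ => Or.inl ⟨g2, g4⟩, fun _ => Or.inl ⟨g1, g3⟩⟩
    · exact ⟨fun h => absurd h (wired p g1 g3), fun h => absurd h (wired p' g2 g4)⟩
  have hP1 : P ((a : ℤ), 0) := Or.inl ⟨rfl, le_refl _⟩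
  exact wired _ rfl le_rfl (key.1 hP1)

theorem gp_mono {lo hi t0 t1 s0 s1 : ℤ} (h0 : s0 ≤ t0) (h1 : t1 ≤ s1) {ω : Conf} {p p' : ℤ × ℤ}
    (h : GP lo hi t0 t1 ω p p') : GP lo hi s0 s1 ω p p' := by
  obtain ⟨i, r, h1, h2, h3, h4, h5, h6⟩ := h
  exact ⟨i, r, h1, h2, by omega, by omega, h5, h6⟩

theorem ew_mono {a c N M M' : ℕ} (hM : M ≤ M') {ω : Conf} {p p' : ℤ × ℤ}
    (h : EW a c N M ω p p') : EW a c N M' ω p p' := by
  obtain ⟨i, h⟩ := h
  refine ⟨i, ?_⟩
  fin_cases i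
  · exact gp_mono (by omega) le_rfl h
  · rcases h with h | h
    · exact Or.inl (gp_mono le_rfl (by omega) h)
    · exact Or.inr h
  · rcases h with h | h
    · exact Or.inl (gp_mono le_rfl (by omega) h)
    · exact Or.inr h

theorem gadj_ew {a k b M : ℕ} {ω : Conf} {p p' : ℤ × ℤ} (h : GAdj (a+2+2*k+b) M ω p p')
    (hs : ¬ (0 ≤ p.2 ∧ 0 ≤ p'.2 ∧ (a : ℤ) ≤ p.1 ∧ p.1 ≤ ((a+2+2*k : ℕ) : ℤ) ∧ (a : ℤ) ≤ p'.1 ∧
      p'.1 ≤ ((a+2+2*k : ℕ) : ℤ))) :
    EW a (a+2+2*k) (a+2+2*k+b) M ω p p' := by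
  obtain ⟨i, r, h1, h2, h3, h4, h5, h6⟩ := h
  by_cases hr : r < 0
  · exact ⟨0, i, r, h1, h2, h3, hr, h5, h6⟩
  · have hi : ¬ ((a : ℤ) ≤ i - 1 ∧ i ≤ ((a+2+2*k : ℕ) : ℤ)) := by
      rintro ⟨g1, g2⟩
      apply hs
      rcases h6 with ⟨h6, rfl, rfl⟩ | ⟨h6, rfl, rfl⟩
      · dsimp only
        refine ⟨by omega, by omega, by omega, by omega, by omega, by omega⟩
      · dsimp only
        refine ⟨by omega, by omega, by omega, by omega, by omega, by omega⟩
    by_cases hia : i ≤ a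
    · exact ⟨1, Or.inl ⟨i, r, h1, hia, by omega, h4, h5, h6⟩⟩
    · exact ⟨2, Or.inl ⟨i, r, by omega, h2, by omega, h4, h5, h6⟩⟩

/-- an open edge of the fork belongs to a large window -/
theorem open_ew (a k b : ℕ) (ω : Conf) (x y : ℤ × ℤ) (h : EAdj1 a k b ω x y) (M : ℕ)
    (hM : |x.1 + x.2| + |y.1 + y.2| + 1 ≤ M) :
    EqvGen (EW a (a+2+2*k) (a+2+2*k+b) M ω) (x.1 - x.2, x.1 + x.2 - 1)
      (y.1 - y.2, y.1 + y.2 - 1) := by
  obtain ⟨h, ⟨hx0, hx⟩, ⟨hy0, hy⟩, hs⟩ := h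
  have hb1 := abs_le.mp (le_refl |x.1 + x.2|)
  have hb2 := abs_le.mp (le_refl |y.1 + y.2|)
  obtain ⟨x1, x2⟩ := x
  obtain ⟨y1, y2⟩ := y
  dsimp only at *
  rcases h with ⟨e, h⟩ | ⟨e, h⟩ | ⟨e, h⟩ | ⟨e, h⟩
  · simp only [Prod.mk.injEq] at e
    obtain ⟨rfl, rfl⟩ := e
    refine EqvGen.rel _ _ (gadj_ew (T22.gadj_h (a+2+2*k+b) M ω _ _ h (by omega)
      (by omega) (by omega) (by omega)) ?_)
    dsimp only
    omega
  · simp only [Prod.mk.injEq] at e
    obtain ⟨rfl, rfl⟩ := e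
    refine EqvGen.symm _ _ (EqvGen.rel _ _ (gadj_ew (T22.gadj_h (a+2+2*k+b) M ω _ _ h (by omega)
      (by omega) (by omega) (by omega)) ?_))
    dsimp only
    omega
  · simp only [Prod.mk.injEq] at e
    obtain ⟨rfl, rfl⟩ := e
    refine EqvGen.rel _ _ (gadj_ew (T22.gadj_v (a+2+2*k+b) M ω _ _ h (by omega)
      (by omega) (by omega) (by omega)) ?_)
    dsimp only
    omega
  · simp only [Prod.mk.injEq] at e
    obtain ⟨rfl, rfl⟩ := e
    refine EqvGen.symm _ _ (EqvGen.rel _ _ (gadj_ew (T22.gadj_v (a+2+2*k+b) M ω _ _ h (by omega)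
      (by omega) (by omega) (by omega)) ?_))
    dsimp only
    omega

theorem win_of_cross {a k b : ℕ} {ω : Conf} (h : ω ∈ ECross1 a k b) :
    ∃ M, EqvGen (EW a (a+2+2*k) (a+2+2*k+b) M ω) ((a : ℤ), 0) (((a+2+2*k : ℕ) : ℤ), 0) := by
  obtain ⟨x, y, hx, hx1, hy, hy1, h⟩ := h
  have key : ∃ M : ℕ, EqvGen (EW a (a+2+2*k) (a+2+2*k+b) M ω) (x.1 - x.2, x.1 + x.2 - 1)
      (y.1 - y.2, y.1 + y.2 - 1) := by
    clear hy hy1
    induction h with
    | refl => exact ⟨0, EqvGen.refl _⟩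
    | tail _ hs ih =>
      rename_i y z _
      obtain ⟨M, ih⟩ := ih
      obtain ⟨M', hM'⟩ : ∃ M' : ℕ, M ≤ M' ∧ |y.1 + y.2| + |z.1 + z.2| + 1 ≤ (M' : ℤ) := by
        refine ⟨M + (|y.1 + y.2| + |z.1 + z.2| + 1).toNat, by omega, ?_⟩
        have := Int.self_le_toNat (|y.1 + y.2| + |z.1 + z.2| + 1)
        push_cast
        push_cast at this
        omega
      exact ⟨M', EqvGen.trans _ _ _ (ih.mono (fun _ _ => ew_mono hM'.1))
        (open_ew a k b ω y z hs M' hM'.2)⟩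
  obtain ⟨M, hM⟩ := key
  refine ⟨M, EqvGen.trans _ _ _ (EqvGen.rel _ _ ⟨1, Or.inr ⟨rfl, ?_, le_refl _, ?_⟩⟩)
    (EqvGen.trans _ _ _ hM (EqvGen.rel _ _ ⟨2, Or.inr ⟨?_, rfl, ?_, le_refl _⟩⟩))⟩
  · exact hx
  · dsimp only; omega
  · exact hy
  · dsimp only; omega

theorem win_mono {a b : ℕ} (k : ℕ) (ha : Odd a) (hb : Odd b) : Monotone (WinF1 a k b) := by
  intro M M' hM ω h
  rw [win_iff k M' ω ha hb]
  exact ((win_iff k M ω ha hb).1 h).mono fun _ _ h => ew_mono hM h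

theorem iUnion_win {a b : ℕ} (k : ℕ) (ha : Odd a) (hb : Odd b) :
    ⋃ M, WinF1 a k b M = ECross1 a k b := by
  ext ω
  rw [Set.mem_iUnion]
  constructor
  · rintro ⟨M, h⟩
    exact cross_of_win ((win_iff k M ω ha hb).1 h)
  · intro h
    obtain ⟨M, hM⟩ := win_of_cross h
    exact ⟨M, (win_iff k M ω ha hb).2 hM⟩

/-! ### probabilities -/

/-- edge of a coordinate of the right arm -/
def eM (N M : ℕ) (j : ℕ × ℕ) : Edge := edgeOf ((N : ℤ) + 1 - j.2) (2 * (M : ℤ) - 1 - j.1)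

/-- bits of the right arm as a set -/
def tM (N b M : ℕ) (ω : Conf) : Finset (ℕ × ℕ) :=
  (T23.SS b M).filter (fun j => ω (eM N M j) = true)

theorem X_futM (N b M : ℕ) (ω : Conf) :
    X b (actBit (oFutM N ω M)) M = X b (actBit (T23.bits (tM N b M ω))) M := by
  apply T23.X_congr
  intro k i hk h1 h2
  have : oFutM N ω M k i = T23.bits (tM N b M ω) k i := by
    have hm : (k, i) ∈ T23.SS b M := by rw [T23.mem_SS]; exact ⟨hk, h1, h2⟩
    have e : (k, i) ∈ tM N b M ω ↔ oFutM N ω M k i = true := by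
      unfold tM
      rw [mem_filter]
      exact ⟨fun h => h.2, fun h => ⟨hm, h⟩⟩
    unfold T23.bits
    rw [Bool.eq_iff_iff, decide_eq_true_iff]
    exact e.symm
  simp only [actBit, this]

/-- index set of the coordinates -/
abbrev JF (a k b M : ℕ) := (↥(T23.SS (a+2+2*k+b) M) ⊕ ↥(T23.SS a M)) ⊕ ↥(T23.SS b M)

/-- the edges -/
def eeF (a k b M : ℕ) : JF a k b M → Edge
  | Sum.inl (Sum.inl j) => T23.eP M j
  | Sum.inl (Sum.inr j) => T23.eF M j
  | Sum.inr j => eM (a+2+2*k+b) M j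

theorem eeF_inj (a k b M : ℕ) : Function.Injective (eeF a k b M) := by
  rintro ((⟨⟨j, i⟩, h⟩ | ⟨⟨j, i⟩, h⟩) | ⟨⟨j, i⟩, h⟩) ((⟨⟨j', i'⟩, h'⟩ | ⟨⟨j', i'⟩, h'⟩) | ⟨⟨j', i'⟩, h'⟩) hh
  all_goals
    simp only [eeF, T23.eP, T23.eF, eM] at hh
    have := T23.edgeOf_inj hh
    rw [T23.mem_SS] at h h'
    simp only at h h'
    try simp only [Sum.inl.injEq, Sum.inr.injEq, Subtype.mk.injEq, Prod.mk.injEq]
    push_cast at this
    omega

/-- the bit prescribed by a triple of sets -/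
def bbF (a k b M : ℕ) (p0 p1 p2 : Finset (ℕ × ℕ)) : JF a k b M → Bool
  | Sum.inl (Sum.inl j) => decide (j.1 ∈ p0)
  | Sum.inl (Sum.inr j) => decide (j.1 ∈ p1)
  | Sum.inr j => decide (j.1 ∈ p2)

/-- a cell -/
def cellF (a k b M : ℕ) (p0 p1 p2 : Finset (ℕ × ℕ)) : Set Conf :=
  {ω | T23.tP (a+2+2*k+b) M ω = p0 ∧ T23.tF a M ω = p1 ∧ tM (a+2+2*k+b) b M ω = p2}

theorem cellF_eq (a k b M : ℕ) (p0 p1 p2 : Finset (ℕ × ℕ)) (h0 : p0 ⊆ T23.SS (a+2+2*k+b) M)
    (h1 : p1 ⊆ T23.SS a M) (h2 : p2 ⊆ T23.SS b M) :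
    cellF a k b M p0 p1 p2 =
      ⋂ j : JF a k b M, (fun ω : Conf => ω (eeF a k b M j)) ⁻¹' {bbF a k b M p0 p1 p2 j} := by
  ext ω
  simp only [cellF, T23.tP, T23.tF, tM, Set.mem_ofPred_eq, Set.mem_iInter, Set.mem_preimage,
    Set.mem_singleton_iff]
  rw [C08.filter_eq_iff _ _ (fun j => ω (T23.eP M j)) h0,
    C08.filter_eq_iff _ _ (fun j => ω (T23.eF M j)) h1,
    C08.filter_eq_iff _ _ (fun j => ω (eM (a+2+2*k+b) M j)) h2]
  constructor
  · rintro ⟨e0, e1, e2⟩ ((j | j) | j)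
    · exact e0 j
    · exact e1 j
    · exact e2 j
  · intro h
    exact ⟨fun j => h (Sum.inl (Sum.inl j)), fun j => h (Sum.inl (Sum.inr j)),
      fun j => h (Sum.inr j)⟩

theorem card_JF (a k b M : ℕ) :
    Fintype.card (JF a k b M) = 2*M*(a+2+2*k+b) + 2*M*a + 2*M*b := by
  have h : ∀ L, (T23.SS L M).card = 2*M*L := by
    intro L
    rw [T23.SS, card_product, card_range, Nat.card_Icc, Nat.add_sub_cancel]
  rw [Fintype.card_sum, Fintype.card_sum, Fintype.card_coe, Fintype.card_coe, Fintype.card_coe,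
    h, h, h]

theorem cellF_prob (a k b M : ℕ) (p0 p1 p2 : Finset (ℕ × ℕ)) (h0 : p0 ⊆ T23.SS (a+2+2*k+b) M)
    (h1 : p1 ⊆ T23.SS a M) (h2 : p2 ⊆ T23.SS b M) : MeasurableSet (cellF a k b M p0 p1 p2) ∧
    perc (cellF a k b M p0 p1 p2) = (1/2) ^ (2*M*(a+2+2*k+b) + 2*M*a + 2*M*b) := by
  rw [cellF_eq a k b M p0 p1 p2 h0 h1 h2]
  refine ⟨C08.measurableSet_cyl _ _, ?_⟩
  rw [C08.perc_cyl _ (eeF_inj a k b M), card_JF]

/-- the state of the upper half above the slit and the right arm -/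
def rs (k b : ℕ) (R : St) : St := comb k St.bot (mir (b+1) R)

open Classical in
/-- the good cells -/
noncomputable def goodF (a k b M : ℕ) : Finset C10.Tr :=
  ((T23.SS (a+2+2*k+b) M).powerset ×ˢ ((T23.SS a M).powerset ×ˢ (T23.SS b M).powerset)).filter
    (fun p => conn3 a (2*k+1) (X (a+2+2*k+b) (actBit (T23.bits p.1)) M)
      (X a (actBit (T23.bits p.2.1)) M) (rs k b (X b (actBit (T23.bits p.2.2)) M)))

theorem mem_goodF {a k b M : ℕ} {p : C10.Tr} :
    p ∈ goodF a k b M ↔ (p.1 ⊆ T23.SS (a+2+2*k+b) M ∧ p.2.1 ⊆ T23.SS a M ∧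
      p.2.2 ⊆ T23.SS b M) ∧
      conn3 a (2*k+1) (X (a+2+2*k+b) (actBit (T23.bits p.1)) M)
        (X a (actBit (T23.bits p.2.1)) M) (rs k b (X b (actBit (T23.bits p.2.2)) M)) := by
  classical
  unfold goodF
  rw [Finset.mem_filter, Finset.mem_product, Finset.mem_product, Finset.mem_powerset,
    Finset.mem_powerset, Finset.mem_powerset]

theorem winF_eq (a k b M : ℕ) :
    WinF1 a k b M = ⋃ p ∈ goodF a k b M, cellF a k b M p.1 p.2.1 p.2.2 := by
  ext ω
  simp only [WinF1, Set.mem_ofPred_eq, Set.mem_iUnion, exists_prop]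
  rw [T23.X_past, T23.X_fut, X_futM]
  constructor
  · intro h
    refine ⟨(T23.tP (a+2+2*k+b) M ω, T23.tF a M ω, tM (a+2+2*k+b) b M ω), ?_, rfl, rfl, rfl⟩
    rw [mem_goodF]
    exact ⟨⟨filter_subset _ _, filter_subset _ _, filter_subset _ _⟩, h⟩
  · rintro ⟨⟨p1, p2, p3⟩, hp, h1, h2, h3⟩
    simp only at h1 h2 h3
    subst h1 h2 h3
    rw [mem_goodF] at hp
    exact hp.2

open Classical in
theorem sum_goodF (a k b M : ℕ) :
    (∑ t0 ∈ (T23.SS (a+2+2*k+b) M).powerset, ∑ t1 ∈ (T23.SS a M).powerset,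
        ∑ t2 ∈ (T23.SS b M).powerset,
        (if conn3 a (2*k+1) (X (a+2+2*k+b) (actBit (T23.bits t0)) M)
          (X a (actBit (T23.bits t1)) M)
          (rs k b (X b (actBit (T23.bits t2)) M)) then (1 : ℂ) else 0)) =
      ((goodF a k b M).card : ℂ) := by
  unfold goodF
  rw [Finset.natCast_card_filter, Finset.sum_product]
  refine Finset.sum_congr rfl fun t0 _ => ?_
  rw [Finset.sum_product]

/-- the vector of the upper half above the slit and the right arm -/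
noncomputable def sh (k b : ℕ) (h : St →₀ ℂ) : St →₀ ℂ := Finsupp.mapDomain (rs k b) h

theorem sh_eq (k b : ℕ) (h : St →₀ ℂ) :
    comb2 k (Finsupp.single St.bot 1) (Finsupp.mapDomain (mir (b+1)) h) = sh k b h := by
  rw [Pool.Agent.NH38.Fork.PP.sh_eq]
  unfold Pool.Agent.NH38.Fork.PP.sh sh
  rw [← Finsupp.mapDomain_comp]
  rfl

theorem sh_smul (k b : ℕ) (c : ℂ) (h : St →₀ ℂ) : sh k b (c • h) = c • sh k b h :=
  Finsupp.mapDomain_smul _ _

theorem prob_winF (a k b M : ℕ) : ((perc.real (WinF1 a k b M) : ℝ) : ℂ) =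
    pair3 a (2*k+1) (law (a+2+2*k+b) M) (law a M) (sh k b (law b M)) := by
  classical
  have hc : ∀ p ∈ goodF a k b M, MeasurableSet (cellF a k b M p.1 p.2.1 p.2.2) ∧
      perc (cellF a k b M p.1 p.2.1 p.2.2) =
        (1/2) ^ (2*M*(a+2+2*k+b) + 2*M*a + 2*M*b) := by
    intro p hp
    obtain ⟨⟨h1, h2, h3⟩, _⟩ := mem_goodF.1 hp
    exact cellF_prob a k b M p.1 p.2.1 p.2.2 h1 h2 h3
  have hs : sh k b (law b M) = ((1/2 : ℂ))^(2*M*b) • ∑ t ∈ (T23.SS b M).powerset,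
      Finsupp.single (rs k b (X b (actBit (T23.bits t)) M)) (1:ℂ) := by
    rw [T23.law_eq, sh_smul]
    congr 1
    unfold sh
    rw [Finsupp.mapDomain_finsetSum]
    refine Finset.sum_congr rfl fun t _ => ?_
    rw [Finsupp.mapDomain_single]
  rw [hs, T23.law_eq, T23.law_eq, t_C09, winF_eq, measureReal_biUnion_finset]
  · have h1 : ∀ p ∈ goodF a k b M, perc.real (cellF a k b M p.1 p.2.1 p.2.2) =
        (1/2 : ℝ)^(2*M*(a+2+2*k+b) + 2*M*a + 2*M*b) := by
      intro p hp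
      rw [measureReal_def, (hc p hp).2]
      simp
    rw [Finset.sum_congr rfl h1, Finset.sum_const, nsmul_eq_mul]
    rw [sum_goodF]
    push_cast
    rw [← pow_add, ← pow_add, mul_comm]
  · intro p _ p' _ hne
    rw [Function.onFun, Set.disjoint_left]
    rintro ω ⟨h1, h2, h3⟩ ⟨h4, h5, h6⟩
    exact hne (Prod.ext (h1.symm.trans h4) (Prod.ext (h2.symm.trans h5) (h3.symm.trans h6)))
  · intro p hp
    exact (hc p hp).1

theorem finalF (hlaw : S1_lawE) (a k b : ℕ) (ha : Odd a) (hb : Odd b) :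
    ((perc.real (ECross1 a k b) : ℝ) : ℂ) =
      pair3 a (2*k+1) (Psi (on (a+2+2*k+b))) (psi1 a) (sh k b (psi1 b)) /
        (mass (Psi (on (a+2+2*k+b))) * mass (psi1 a) * mass (psi1 b)) := by
  have ha1 : a % 2 = 1 := Nat.odd_iff.mp ha
  have hb1 : b % 2 = 1 := Nat.odd_iff.mp hb
  have hN : Even (a+2+2*k+b) := Nat.even_iff.mpr (by omega)
  obtain ⟨n0, hl0⟩ := hlaw (a+2+2*k+b) hN (by omega)
  have e1 : Tendsto (fun M => perc.real (WinF1 a k b M)) atTop
      (𝓝 (perc.real (ECross1 a k b))) := by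
    have h1 : Tendsto (fun M => perc (WinF1 a k b M)) atTop (𝓝 (perc (⋃ M, WinF1 a k b M))) :=
      tendsto_measure_iUnion_atTop (win_mono k ha hb)
    rw [iUnion_win k ha hb] at h1
    exact (ENNReal.tendsto_toReal (measure_ne_top perc (ECross1 a k b))).comp h1
  have e2 : Tendsto (fun M => ((perc.real (WinF1 a k b M) : ℝ) : ℂ)) atTop
      (𝓝 ((perc.real (ECross1 a k b) : ℝ) : ℂ)) :=
    (Complex.continuous_ofReal.tendsto _).comp e1
  have hlim : Tendsto (fun M => T24.nrm (sh k b (law b M) + (-1 : ℂ) •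
      sh k b ((mass (psi1 b))⁻¹ • psi1 b))) atTop (𝓝 0) := by
    refine squeeze_zero (fun _ => T24.nrm_nonneg _) (fun M => ?_) (psi1_law t_C12 b hb)
    rw [← sh_smul]
    unfold sh
    rw [← Finsupp.mapDomain_add]
    exact T24.nrm_mapDomain_le _ _
  have e3 := t_C13 t_C11 a (2*k+1) (law (a+2+2*k+b)) (law a) (fun M => sh k b (law b M)) _ _ _
    hl0 (psi1_law t_C12 a ha) hlim
  have e4 : Tendsto (fun M => ((perc.real (WinF1 a k b M) : ℝ) : ℂ)) atTop
      (𝓝 (pair3 a (2*k+1) ((mass (Psi (on (a+2+2*k+b))))⁻¹ • Psi (on (a+2+2*k+b)))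
        ((mass (psi1 a))⁻¹ • psi1 a) (sh k b ((mass (psi1 b))⁻¹ • psi1 b)))) := by
    refine e3.congr fun M => ?_
    rw [prob_winF a k b M]
  have e5 := tendsto_nhds_unique e2 e4
  obtain ⟨_, _, _, s1, s2, s3, _⟩ := t_C11
  rw [e5, s1, s2, sh_smul, s3]
  have n1 := psi1_mass_ne a ha
  have n2 := psi1_mass_ne b hb
  field_simp

/-! ### the glued amplitude -/

theorem prs_on (k : ℕ) : prs (on k) = on (2*k) := by
  induction k with
  | zero => rfl
  | succ k ih =>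
    unfold Pool.Agent.NH38.Step.prs Pool.Agent.NH38.Step.on at *
    rw [List.replicate_succ, List.flatMap_cons, ih, show 2*(k+1) = 2*k+1+1 by ring,
      List.replicate_succ, List.replicate_succ]
    simp

theorem low_eq (a k b : ℕ) :
    on a ++ 1 :: (prs (on k) ++ 1 :: on b) = on (a+2+2*k+b) := by
  rw [prs_on]
  unfold Pool.Agent.NH38.Step.on
  rw [show a+2+2*k+b = a + ((2*k + (b + 1)) + 1) by ring, List.replicate_add,
    List.replicate_succ, List.replicate_add, List.replicate_succ]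

theorem inv_on (b : ℕ) : (on b).map (fun x => x⁻¹) = on b := by
  unfold Pool.Agent.NH38.Step.on
  rw [List.map_replicate, inv_one]

theorem len_on (n : ℕ) : (on n).length = n := by simp [Pool.Agent.NH38.Step.on]

theorem nz_on (n : ℕ) : NZ (on n) := by
  intro z hz
  unfold Pool.Agent.NH38.Step.on at hz
  rw [List.eq_of_mem_replicate hz]
  exact one_ne_zero

/-- the right arm of the homogeneous strip -/
theorem psi0_on (hm : S1_PsiM0) (b : ℕ) (hb : Odd b) :
    Psi (0 :: on b) = Finsupp.mapDomain (mir (b+1)) (psi1 b) := by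
  have h := hm (on b) (by rw [len_on]; exact hb) (nz_on b)
  have e : (on b).prod = 1 := by
    unfold Pool.Agent.NH38.Step.on
    rw [List.prod_replicate, one_pow]
  rw [h, inv_on, len_on, e, one_pow, one_smul]
  unfold Pool.Agent.NH38.Step.on psi1
  rw [List.reverse_replicate]

theorem E1_eq (hm : S1_PsiM0) (a k b : ℕ) (ha : Odd a) (hb : Odd b) :
    T1.E1 (on a) (on k) (on b) 1 1 =
      pair3 a (2*k+1) (Psi (on (a+2+2*k+b))) (psi1 a) (sh k b (psi1 b)) := by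
  unfold T1.E1 T1.U1
  rw [low_eq, len_on, len_on, inv_on, psi0_on hm b hb, sh_eq,
    Pool.Agent.NH38.Fork.PP.up1_on, show a + 2*k + 2 = a + (2*k+1) + 1 by ring,
    Pool.Agent.NH38.Fork.PP.pairG_eq a (2*k+1) ha]

theorem T1_eq (a k b : ℕ) (hb : Odd b) :
    TT1 (on a) (on k) (on b) 1 1 =
      mass (Psi (on (a+2+2*k+b))) * (mass (psi1 a) * mass (psi1 b)) := by
  unfold TT1
  rw [low_eq, inv_on, inv_on]
  have e : Z (0 :: on b) = Z (on b ++ [0]) := by
    refine Z_perm ?_ ?_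
    · rw [List.length_cons, len_on]; exact hb.add_one
    · have := (List.perm_append_comm (l₁ := [(0:ℂ)]) (l₂ := on b))
      simpa using this
  rw [e]
  rfl

end P1

open P1

theorem t1_TF (hlaw : S1_lawE) : S1_TF := by
  intro a k b ha hb
  have ha1 : a % 2 = 1 := Nat.odd_iff.mp ha
  have hb1 : b % 2 = 1 := Nat.odd_iff.mp hb
  rw [T1_eq a k b hb]
  exact mul_ne_zero (hlaw _ (Nat.even_iff.mpr (by omega)) (by omega)).1
    (mul_ne_zero (psi1_mass_ne a ha) (psi1_mass_ne b hb))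

theorem t1_PF (hlaw : S1_lawE) (hm : S1_PsiM0) : S1_PF := by
  intro a k b ha hb
  have ha1 : a % 2 = 1 := Nat.odd_iff.mp ha
  have hb1 : b % 2 = 1 := Nat.odd_iff.mp hb
  have n0 := (hlaw (a+2+2*k+b) (Nat.even_iff.mpr (by omega)) (by omega)).1
  have n1 := psi1_mass_ne a ha
  have n2 := psi1_mass_ne b hb
  rw [T1_eq a k b hb, E1_eq hm a k b ha hb, finalF hlaw a k b ha hb]
  field_simp

end Pool.Agent.H966.T1
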