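import Pool.Graph.R_pool_sql_team_seeded_3dad9d7b.NH38.Fork.Stubs4
import Pool.Graph.R_seed8.H988C.BotTop

/-!
Forked channels of even width, both inner walls (helper966): definitions.

Critical bond percolation on `ℤ²` in the forked channel: a half-infinite strip (columns `0..N`,
`N = a + 2k + 2 + b`, below) with two half-infinite strips (arms) on top of it: columns `0..a` and
`a+2k+2..N`; `a`, `b` odd.  Crossing event: the inner wall of the left arm (column `a`) is joined to
the inner wall of the right arm (column `a+2k+2`).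
-/

namespace Pool.Agent.H966.T1

open Pool.Agent.H988R2.Perc hiding X
open Pool.Agent.H492C (comb comb2 pairG up1)
open Pool.Agent.NH38.Step (om prs EE zs prF Gen on cardy pom bev)
open Pool.Agent.NH38.Fork (zo mm na cst gh Dh G T D U tt gF tF NZ ev LR UL Reg Lau PermInv cc gm
  x1 x2 sv vv kap rf EAdj UnifG)
open Polynomial Filter Topology

/-! ## glued qKZ vectors -/

/-- upper vector: left arm (parameters `A⁻¹, 0`), `m` small arcs, right arm (parameters `0, B⁻¹`) -/
noncomputable def U1 (A : List ℂ) (m : ℕ) (B : List ℂ) : St →₀ ℂ :=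
  comb2 ((A.length + 1) / 2) (up1 A) (comb2 m (Finsupp.single St.bot 1)
    (Psi (0 :: B.map (fun x => x⁻¹))))

/-- the glued amplitude: lower parameters `A, w, X^±, v, B`; indicator of
`{face |A| ~ face |A| + 2|X| + 2}` (the path `w` is joined to `v`) -/
noncomputable def E1 (A X B : List ℂ) (w v : ℂ) : ℂ :=
  pairG A.length (A.length + 2 * X.length + 2) (Psi (A ++ w :: (prs X ++ v :: B)))
    (U1 A X.length B)

/-- total mass -/
noncomputable def TT1 (A X B : List ℂ) (w v : ℂ) : ℂ :=
  Z (A ++ w :: (prs X ++ v :: B)) *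
    (Z (A.map (fun x => x⁻¹) ++ [0]) * Z (0 :: B.map (fun x => x⁻¹)))

/-- normalised amplitude -/
noncomputable def eh (A X B : List ℂ) (w v : ℂ) : ℂ := E1 A X B w v / cst A B X.length (w * v)

/-- mirror image of a state on the faces `0..N` (`N` even) -/
def mir (N : ℕ) (R : St) : St where
  rel x y := x = y ∨ (x % 2 = 1 ∧ y % 2 = 1 ∧ x ≤ N ∧ y ≤ N ∧ R.rel (N - x) (N - y))
  eqv := by
    obtain ⟨hr, hs, ht⟩ := R.eqv
    refine ⟨fun _ => Or.inl rfl, ?_, ?_⟩
    · rintro a b (h | ⟨h1, h2, h3, h4, h5⟩)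
      · exact Or.inl h.symm
      · exact Or.inr ⟨h2, h1, h4, h3, hs h5⟩
    · rintro a b c (h | ⟨h1, h2, h3, h4, h5⟩) (k | ⟨k1, k2, k3, k4, k5⟩)
      · exact Or.inl (h.trans k)
      · subst h; exact Or.inr ⟨k1, k2, k3, k4, k5⟩
      · subst k; exact Or.inr ⟨h1, h2, h3, h4, h5⟩
      · exact Or.inr ⟨h1, k2, h3, k4, ht h5 k5⟩
  odd := by
    rintro a b (h | ⟨h1, h2, _⟩)
    · exact Or.inl h
    · exact Or.inr ⟨h1, h2⟩

/-! ## the formula -/

variable {ι : Type} (x : ι → ℂ)

/-- normalised amplitude of the complementary event, for a finite family of pairs -/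
noncomputable def hF (s : Finset ι) (A B : List ℂ) (w v : ℂ) : ℂ :=
  mm A B * zs (w :: v :: (A ++ (B ++ prF x s))) - eh A (s.toList.map x) B w v

/-- the kernel -/
noncomputable def Kk (w v z : ℂ) : ℂ :=
  (w - q*z) * (1 - (w*z)⁻¹) * ((z - q*v) * (1 - (z*v)⁻¹))

/-- the coefficient of a pair, times `(om w - om x)(om v - om x)` -/
noncomputable def cc1 (g0 : ℂ → ℂ) (w v x : ℂ) : ℂ :=
  (1 - q^2) / 3 * (Kk w v x * g0 x - Kk w v x⁻¹ * g0 x⁻¹) / (x - x⁻¹)

open Classical in
/-- the one body formula: the difference of the two sides, times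
`(om w - om v) ∏ (om w - om x_j)(om v - om x_j)` -/
noncomputable def DD1 (s : Finset ι) (A B : List ℂ) (w v : ℂ) : ℂ :=
  (om w - om v) * (∏ j ∈ s, (om w - om (x j)) * (om v - om (x j))) * zs (A ++ B) *
      hF x s A B w v -
    q * ((w - q*v) * (1 - (w*v)⁻¹) *
        ((∏ j ∈ s, EE (om w) (om (x j)) * (om v - om (x j))) * gF x ∅ A B w *
            zo (v :: (A ++ (B ++ prF x s))) -
          (∏ j ∈ s, EE (om v) (om (x j)) * (om w - om (x j))) * gF x ∅ A B v *
            zo (w :: (A ++ (B ++ prF x s)))) +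
      (om w - om v) * ∑ i ∈ s, gm x s i *
        (∏ j ∈ s.erase i, (om w - om (x j)) * (om v - om (x j))) * cc1 (gF x ∅ A B) w v (x i) *
        zo (w :: v :: x i :: (A ++ (B ++ prF x (s.erase i)))))

open Classical in
/-- the formula in the variable `w`, for a family `g s A B w v` (spectators `v, A, B`), times
`∏ (om w - om x_j)` -/
noncomputable def FP1 (g : Finset ι → List ℂ → List ℂ → ℂ → ℂ → ℂ) (s : Finset ι) (A B : List ℂ)
    (w v : ℂ) : ℂ :=
  (∏ j ∈ s, (om w - om (x j))) * zo (v :: (A ++ B)) * g s A B w v -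
    (∏ j ∈ s, EE (om w) (om (x j))) * zo (v :: (A ++ (B ++ prF x s))) * g ∅ A B w v +
    ∑ i ∈ s, gm x s i * (∏ j ∈ s.erase i, (om w - om (x j))) *
      cc (fun z => g ∅ A B z v) w (x i) *
      zo (w :: x i :: v :: (A ++ (B ++ prF x (s.erase i))))

end Pool.Agent.H966.T1
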