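import Pool.Agent.H966.T1.Stubs
import Pool.Graph.R_pool_sql_team_seeded_3dad9d7b.NH38.Fork.Base

/-!
Forked channels of even width (helper966), task M, part a: the kernel, the thin slit, the mirror
image.
-/

namespace Pool.Agent.H966.T1

open Pool.Agent.H988R2.Perc hiding X
open Pool.Agent.NH38.Step (om prs EE zs prF Gen on cardy pom bev)
open Pool.Agent.NH38.Fork (zo mm na cst gh Dh G T D U tt gF tF NZ ev LR UL Reg Lau PermInv cc gm)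
open Polynomial

namespace M

/-! ### the kernel -/

theorem K0_om {w v : ℂ} (hw : w ≠ 0) (hv : v ≠ 0) :
    (w - v) * (1 - (w*v)⁻¹) = om w - om v := by
  unfold Pool.Agent.NH38.Step.om
  field_simp
  ring

theorem K0_inv {w v : ℂ} (hw : w ≠ 0) (hv : v ≠ 0) :
    (v⁻¹ - q*w⁻¹) * (1 - (v⁻¹*w⁻¹)⁻¹) = -((w - q*v) * (1 - (w*v)⁻¹)) := by
  rw [mul_inv, inv_inv, inv_inv]
  field_simp
  ring

theorem K0_node {w y : ℂ} (hw : w ≠ 0) (hy : y ≠ 0) :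
    (w - q*(q^2*y⁻¹)) * (1 - (w*(q^2*y⁻¹))⁻¹) = (w - q*y) * (1 - (w*y)⁻¹) := by
  have h3 := q_cube
  have e1 : q*(q^2*y⁻¹) = y⁻¹ := by rw [← mul_assoc, ← pow_succ', h3, one_mul]
  have e2 : (w*(q^2*y⁻¹))⁻¹ = w⁻¹ * (q * y) := by
    rw [mul_inv, mul_inv, inv_inv, Pool.Agent.NH38.Step.q2inv]
  rw [e1, e2]
  field_simp

theorem Kk_inv {w v z : ℂ} (hw : w ≠ 0) (hv : v ≠ 0) (hz : z ≠ 0) :
    Kk v⁻¹ w⁻¹ z = Kk w v z⁻¹ := by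
  unfold Kk
  rw [mul_inv, mul_inv, mul_inv, mul_inv]
  simp only [inv_inv]
  field_simp
  ring

theorem Kk_node {w y z : ℂ} (hy : y ≠ 0) (hz : z ≠ 0) :
    Kk w (q^2*y⁻¹) z = Kk w y z := by
  unfold Kk
  rw [K0_node hz hy]

theorem Kk_sub {w v z : ℂ} (hw : w ≠ 0) (hv : v ≠ 0) (hz : z ≠ 0) :
    Kk w v z - Kk w v z⁻¹ = (1 - q) * ((w - q*v) * (1 - (w*v)⁻¹)) * (z - z⁻¹) := by
  have h3 := q_cube
  unfold Kk
  rw [mul_inv, mul_inv, mul_inv, mul_inv, mul_inv]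
  simp only [inv_inv]
  field_simp
  ring

theorem cc1_inv (g0 : ℂ → ℂ) (w v x : ℂ) : cc1 g0 w v x⁻¹ = cc1 g0 w v x := by
  unfold cc1
  rw [inv_inv]
  have e3 : x⁻¹ - x = -(x - x⁻¹) := by ring
  rw [e3, div_neg, ← neg_div]
  congr 1
  ring

theorem cc1_om (g0 : ℂ → ℂ) (w v : ℂ) {x y : ℂ} (hx : x ≠ 0) (hy : y ≠ 0) (h : om x = om y) :
    cc1 g0 w v x = cc1 g0 w v y := by
  rcases (Pool.Agent.NH38.Step.om_eq_iff hx hy).mp h with h1 | h1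
  · rw [h1]
  · have : x = y⁻¹ := eq_inv_of_mul_eq_one_left h1
    rw [this, cc1_inv]

theorem cc1_self (g0 : ℂ → ℂ) {w y : ℂ} (hy : y ≠ 0) (h : y - y⁻¹ ≠ 0) :
    cc1 g0 w y y = (w - q*y) * (1 - (w*y)⁻¹) * g0 y := by
  unfold cc1 Kk
  rw [inv_mul_cancel₀ hy, inv_one, sub_self, mul_zero, mul_zero, zero_mul, sub_zero, div_eq_iff h]
  have h1 : y * (1 - (y*y)⁻¹) = y - y⁻¹ := by field_simp
  have h2 := q_spec
  have h3 := q_cube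
  have e1 : (y - q*y) * (1 - (y*y)⁻¹) = (1 - q) * (y - y⁻¹) := by
    rw [← h1]; ring
  rw [e1]
  have e2 : (1 - q^2) * (1 - q) = 3 := by linear_combination h3 - h2
  linear_combination ((w - q*y) * (1 - (w*y)⁻¹) * g0 y * (y - y⁻¹) / 3) * e2

theorem cc1_node (g0 : ℂ → ℂ) {w y x : ℂ} (hy : y ≠ 0) (hx : x ≠ 0) :
    cc1 g0 w (q^2*y⁻¹) x = cc1 g0 w y x := by
  unfold cc1
  rw [Kk_node hy hx, Kk_node hy (inv_ne_zero hx)]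

theorem cc1_mir (g0 g1 : ℂ → ℂ) (τ : ℂ) {w v x : ℂ} (hw : w ≠ 0) (hv : v ≠ 0) (hx : x ≠ 0)
    (h : x - x⁻¹ ≠ 0) (h1 : g1 x = τ - g0 x⁻¹) (h2 : g1 x⁻¹ = τ - g0 x) :
    cc1 g1 v⁻¹ w⁻¹ x = cc1 g0 w v x - (w - q*v) * (1 - (w*v)⁻¹) * τ := by
  unfold cc1
  rw [Kk_inv hw hv hx, Kk_inv hw hv (inv_ne_zero hx), inv_inv, h1, h2]
  have e1 := Kk_sub hw hv hx
  have h2 := q_spec
  have h3 := q_cube
  have e2 : (1 - q^2) * (1 - q) = 3 := by linear_combination h3 - h2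
  rw [div_eq_iff h, sub_mul, div_mul_cancel₀ _ h]
  linear_combination (-(1 - q^2)/3*τ) * e1 - ((w - q*v) * (1 - (w*v)⁻¹) * τ * (x - x⁻¹)/3) * e2

end M

end Pool.Agent.H966.T1
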