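import Pool.Agent.H966.T1.Ma

/-!
Forked channels of even width (helper966), task M, part b: the thin slit, the mirror image.
-/

namespace Pool.Agent.H966.T1

open Pool.Agent.H988R2.Perc hiding X
open Pool.Agent.NH38.Step (om prs EE zs prF Gen on cardy pom bev)
open Pool.Agent.NH38.Fork (zo mm na cst gh Dh G T D U tt gF tF NZ ev LR UL Reg Lau PermInv cc gm
  S_DET S_DUAL)
open Pool.Agent.NH38.Fork.M7 (NZ_app NZ_cons NZ_nil NZ_map NZ_prF NZ_prs NZ_perm zo_perm zo_inv
  zo_rec pom_prs pom_toList pom_prF)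
open Polynomial

namespace M

theorem prF_empty {ι : Type} (x : ι → ℂ) : prF x ∅ = [] := by
  unfold Pool.Agent.NH38.Step.prF
  rw [Finset.toList_empty]
  rfl

theorem gF_empty {ι : Type} (x : ι → ℂ) (A B : List ℂ) (w : ℂ) : gF x ∅ A B w = gh A [] B w := by
  unfold Pool.Agent.NH38.Fork.gF
  rw [Finset.toList_empty, List.map_nil]

/-- the thin slit -/
theorem base (hb : S1_base) (hD : S_DET) {ι : Type} (x : ι → ℂ) (A B : List ℂ) (w v : ℂ)
    (hA : Odd A.length) (hB : Odd B.length) (zA : NZ A) (zB : NZ B) (hw : w ≠ 0) (hv : v ≠ 0) :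
    DD1 x ∅ A B w v = 0 := by
  have h1 := hb A B w v hA hB zA zB hw hv
  have h2 := hD A B w v hA hB zA zB hw hv
  have h3 := K0_om hw hv
  unfold DD1 hF
  rw [Finset.toList_empty, List.map_nil, prF_empty, gF_empty, gF_empty, List.append_nil]
  simp only [Finset.prod_empty, Finset.sum_empty, one_mul, mul_one, mul_zero, add_zero]
  rw [h1]
  unfold Pool.Agent.NH38.Fork.tt at h2
  have e0 : A ++ (B ++ prs []) = A ++ B := by
    show A ++ (B ++ []) = A ++ B
    rw [List.append_nil]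
  rw [e0] at h2
  rw [← h3]
  linear_combination (-(q * (1 - (w*v)⁻¹))) * h2

/-! ### the mirror image -/

theorem zo_inv' {L : List ℂ} (hL : Even L.length) {z : ℂ} (hz : z ≠ 0) :
    zo (z⁻¹ :: L) = zo (z :: L) := (zo_inv z L hz hL).symm

/-- the value of the second point of a list can be inverted -/
theorem zo_inv2 {L : List ℂ} (hL : Odd L.length) {y z : ℂ} (hz : z ≠ 0) :
    zo (y :: z⁻¹ :: L) = zo (y :: z :: L) := by
  have h1 : ∀ u : ℂ, Odd (y :: u :: L).length := by
    intro u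
    rw [List.length_cons, List.length_cons]
    exact hL.add_one.add_one
  rw [zo_perm (h1 _) (List.Perm.swap _ _ _), zo_perm (h1 _) (List.Perm.swap _ _ _)]
  exact zo_inv' (by rw [List.length_cons]; exact hL.add_one) hz

theorem zs_inv' {L : List ℂ} (hL : Odd L.length) {z : ℂ} (hz : z ≠ 0) :
    zs (z⁻¹ :: L) = zs (z :: L) := Pool.Agent.NH38.Step.zs_inv z L hz hL |>.symm

theorem zs_inv2 {L : List ℂ} (hL : Even L.length) {y z : ℂ} (hz : z ≠ 0) :
    zs (y :: z⁻¹ :: L) = zs (y :: z :: L) := by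
  have h1 : ∀ u : ℂ, Even (y :: u :: L).length := by
    intro u
    rw [List.length_cons, List.length_cons]
    exact hL.add_one.add_one
  rw [Pool.Agent.NH38.Step.zs_perm (h1 _) (List.Perm.swap _ _ _),
    Pool.Agent.NH38.Step.zs_perm (h1 _) (List.Perm.swap _ _ _)]
  exact zs_inv' (by rw [List.length_cons]; exact hL.add_one) hz

theorem len2 {A B L : List ℂ} (hA : Odd A.length) (hB : Odd B.length) (hL : Even L.length) :
    Even (A ++ (B ++ L)).length := by
  rw [List.length_append, List.length_append]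
  exact hA.add_odd (hB.add_even hL)

theorem swapAB (A B L : List ℂ) : (B ++ (A ++ L)).Perm (A ++ (B ++ L)) := by
  rw [← List.append_assoc, ← List.append_assoc]
  exact List.Perm.append_right L List.perm_append_comm

theorem prF_even {ι : Type} (x : ι → ℂ) (s : Finset ι) : Even (prF x s).length := by
  rw [Pool.Agent.NH38.Fork.M7.prF_length]
  exact even_two_mul _

theorem hF_mir (hm : S1_mir) {ι : Type} {x : ι → ℂ} (hx : ∀ i, x i ≠ 0) (s : Finset ι)
    {A B : List ℂ} {w v : ℂ} (hA : Odd A.length) (hB : Odd B.length) (zA : NZ A) (zB : NZ B)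
    (hw : w ≠ 0) (hv : v ≠ 0) : hF x s B A v⁻¹ w⁻¹ = hF x s A B w v := by
  unfold hF
  rw [← hm A (s.toList.map x) B w v hA hB zA (NZ_map hx s) zB hw hv]
  have e1 : mm B A = mm A B := by unfold Pool.Agent.NH38.Fork.mm; ring
  have hL := len2 hA hB (prF_even x s)
  have hL' := len2 hB hA (prF_even x s)
  have e2 : zs (v⁻¹ :: w⁻¹ :: (B ++ (A ++ prF x s))) = zs (w :: v :: (A ++ (B ++ prF x s))) := by
    rw [zs_inv2 hL' hw, zs_inv' (by rw [List.length_cons]; exact hL'.add_one) hv]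
    refine Pool.Agent.NH38.Step.zs_perm ?_ ?_
    · rw [List.length_cons, List.length_cons]; exact hL'.add_one.add_one
    · exact (List.Perm.swap _ _ _).trans (((swapAB A B _).cons v).cons w)
  rw [e1, e2]

theorem gF_mir (hDU : S_DUAL) {ι : Type} (x : ι → ℂ) {A B : List ℂ} {z : ℂ} (hA : Odd A.length)
    (hB : Odd B.length) (zA : NZ A) (zB : NZ B) (hz : z ≠ 0) :
    gF x ∅ B A z⁻¹ = mm A B * zo (z :: (A ++ B)) - gF x ∅ A B z := by
  have h := hDU A B z hA hB zA zB hz
  unfold Pool.Agent.NH38.Fork.tt at h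
  have e0 : A ++ (B ++ prs []) = A ++ B := by
    show A ++ (B ++ []) = A ++ B
    rw [List.append_nil]
  rw [e0] at h
  rw [gF_empty, gF_empty]
  linear_combination h

open Classical in
/-- the mirror image of the formula -/
theorem mirror (hm : S1_mir) (hMI : S1_MI) (hDU : S_DUAL) {ι : Type} {x : ι → ℂ} (hg : Gen x)
    (s : Finset ι) {A B : List ℂ} {w v : ℂ} (hA : Odd A.length) (hB : Odd B.length) (zA : NZ A)
    (zB : NZ B) (hw : w ≠ 0) (hv : v ≠ 0) : DD1 x s B A v⁻¹ w⁻¹ = - DD1 x s A B w v := by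
  have hx : ∀ i, x i ≠ 0 := fun i => (hg.1 i).1
  have hAB : Even (A ++ B).length := by rw [List.length_append]; exact hA.add_odd hB
  have hMI' := hMI x hg s (A ++ B) w v hAB (NZ_app zA zB) hw hv
  have e1 : zs (B ++ A) = zs (A ++ B) := by
    refine Pool.Agent.NH38.Step.zs_perm ?_ List.perm_append_comm
    rw [List.length_append]; exact hB.add_odd hA
  have e2 : ∀ z : ℂ, z ≠ 0 → ∀ r : Finset ι,
      zo (z⁻¹ :: (B ++ (A ++ prF x r))) = zo (z :: (A ++ (B ++ prF x r))) := by
    intro z hz r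
    have hL' := len2 hB hA (prF_even x r)
    rw [zo_inv' hL' hz]
    exact zo_perm (by rw [List.length_cons]; exact hL'.add_one) ((swapAB A B _).cons z)
  have e3 : ∀ i : ι, ∀ r : Finset ι, zo (v⁻¹ :: w⁻¹ :: x i :: (B ++ (A ++ prF x r))) =
      zo (w :: v :: x i :: (A ++ (B ++ prF x r))) := by
    intro i r
    have hL' := len2 hB hA (prF_even x r)
    have h1 : Odd (x i :: (B ++ (A ++ prF x r))).length := by
      rw [List.length_cons]; exact hL'.add_one
    rw [zo_inv2 h1 hw, zo_inv' (by rw [List.length_cons]; exact h1.add_one) hv]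
    refine zo_perm ?_ ?_
    · rw [List.length_cons, List.length_cons]; exact h1.add_one.add_one
    · exact (List.Perm.swap _ _ _).trans ((((swapAB A B _).cons (x i)).cons v).cons w)
  have e4 : ∀ i ∈ s, cc1 (gF x ∅ B A) v⁻¹ w⁻¹ (x i) = cc1 (gF x ∅ A B) w v (x i) -
      (w - q*v) * (1 - (w*v)⁻¹) * (mm A B * zo (x i :: (A ++ B))) := by
    intro i _
    have hxi := Pool.Agent.NH38.Fork.M2a.sub_inv_ne (hx i) (hg.1 i).2
    refine cc1_mir _ _ _ hw hv (hx i) hxi ?_ ?_
    · have := gF_mir hDU x hA hB zA zB (inv_ne_zero (hx i))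
      rw [inv_inv] at this
      rw [this, zo_inv' hAB (hx i)]
    · exact gF_mir hDU x hA hB zA zB (hx i)
  have e5 : ∀ r : Finset ι, A ++ (B ++ prF x r) = (A ++ B) ++ prF x r := fun r =>
    (List.append_assoc _ _ _).symm
  unfold DD1
  rw [hF_mir hm hx s hA hB zA zB hw hv, e1, K0_inv hw hv, gF_mir hDU x hA hB zA zB hw,
    gF_mir hDU x hA hB zA zB hv, e2 w hw, e2 v hv]
  simp only [Pool.Agent.NH38.Step.om_inv]
  have e6 : (∑ i ∈ s, gm x s i *
        (∏ j ∈ s.erase i, (om v - om (x j)) * (om w - om (x j))) * cc1 (gF x ∅ B A) v⁻¹ w⁻¹ (x i) *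
        zo (v⁻¹ :: w⁻¹ :: x i :: (B ++ (A ++ prF x (s.erase i))))) =
      (∑ i ∈ s, gm x s i *
        (∏ j ∈ s.erase i, (om w - om (x j)) * (om v - om (x j))) * cc1 (gF x ∅ A B) w v (x i) *
        zo (w :: v :: x i :: (A ++ (B ++ prF x (s.erase i))))) -
      (w - q*v) * (1 - (w*v)⁻¹) * mm A B * ∑ i ∈ s, gm x s i *
        (∏ j ∈ s.erase i, (om w - om (x j)) * (om v - om (x j))) * zo (x i :: (A ++ B)) *
        zo (w :: v :: x i :: (A ++ (B ++ prF x (s.erase i)))) := by
    rw [Finset.mul_sum, ← Finset.sum_sub_distrib]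
    refine Finset.sum_congr rfl fun i hi => ?_
    rw [e3, e4 i hi]
    have e7 : (∏ j ∈ s.erase i, (om v - om (x j)) * (om w - om (x j))) =
        ∏ j ∈ s.erase i, (om w - om (x j)) * (om v - om (x j)) :=
      Finset.prod_congr rfl fun j _ => mul_comm _ _
    rw [e7]
    ring
  rw [e6]
  have e8 : (∏ j ∈ s, (om v - om (x j)) * (om w - om (x j))) =
      ∏ j ∈ s, (om w - om (x j)) * (om v - om (x j)) :=
    Finset.prod_congr rfl fun j _ => mul_comm _ _
  rw [e8]
  simp only [← e5] at hMI'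
  linear_combination (-(q * ((w - q*v) * (1 - (w*v)⁻¹)) * mm A B)) * hMI'

end M

end Pool.Agent.H966.T1
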