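import Pool.Agent.H966.T1.Mb

/-!
Forked channels of even width (helper966), task M, part c: symmetries of the formula.
-/

namespace Pool.Agent.H966.T1

open Pool.Agent.H988R2.Perc hiding X
open Pool.Agent.NH38.Step (om prs EE zs prF Gen on cardy pom bev)
open Pool.Agent.NH38.Fork (zo mm na cst gh Dh G T D U tt gF tF NZ ev LR UL Reg Lau PermInv cc gm
  S_DET S_DUAL S_perm S_invB)
open Pool.Agent.NH38.Fork.M7 (NZ_app NZ_cons NZ_nil NZ_map NZ_prF NZ_prs NZ_perm zo_perm zo_inv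
  zo_rec pom_prs pom_toList pom_prF)
open Polynomial

namespace M

variable {ι : Type} {x : ι → ℂ}

open Classical in
theorem DD1_congr {s : Finset ι} {A B A' B' : List ℂ} {w v : ℂ} (hx : ∀ i, x i ≠ 0)
    (hw : w ≠ 0) (hv : v ≠ 0)
    (e1 : zs (A ++ B) = zs (A' ++ B')) (e2 : hF x s A B w v = hF x s A' B' w v)
    (e3 : ∀ z, z ≠ 0 → gF x ∅ A B z = gF x ∅ A' B' z)
    (e4 : ∀ z, zo (z :: (A ++ (B ++ prF x s))) = zo (z :: (A' ++ (B' ++ prF x s))))
    (e5 : ∀ i, zo (w :: v :: x i :: (A ++ (B ++ prF x (s.erase i)))) =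
      zo (w :: v :: x i :: (A' ++ (B' ++ prF x (s.erase i))))) :
    DD1 x s A B w v = DD1 x s A' B' w v := by
  unfold DD1
  rw [e1, e2, e3 w hw, e3 v hv, e4 v, e4 w]
  have e6 : (∑ i ∈ s, gm x s i *
        (∏ j ∈ s.erase i, (om w - om (x j)) * (om v - om (x j))) * cc1 (gF x ∅ A B) w v (x i) *
        zo (w :: v :: x i :: (A ++ (B ++ prF x (s.erase i))))) =
      ∑ i ∈ s, gm x s i *
        (∏ j ∈ s.erase i, (om w - om (x j)) * (om v - om (x j))) * cc1 (gF x ∅ A' B') w v (x i) *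
        zo (w :: v :: x i :: (A' ++ (B' ++ prF x (s.erase i)))) := by
    refine Finset.sum_congr rfl fun i _ => ?_
    have e7 : cc1 (gF x ∅ A B) w v (x i) = cc1 (gF x ∅ A' B') w v (x i) := by
      unfold cc1
      rw [e3 _ (hx i), e3 _ (inv_ne_zero (hx i))]
    rw [e5 i, e7]
  rw [e6]

theorem zo_AB {A B A' B' L : List ℂ} (hA : Odd A.length) (hB : Odd B.length) (hL : Even L.length)
    (pA : A.Perm A') (pB : B.Perm B') (z : ℂ) :
    zo (z :: (A ++ (B ++ L))) = zo (z :: (A' ++ (B' ++ L))) := by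
  refine zo_perm ?_ ((pA.append (pB.append (List.Perm.refl L))).cons z)
  rw [List.length_cons]
  exact (len2 hA hB hL).add_one

theorem zo_AB3 {A B A' B' L : List ℂ} (hA : Odd A.length) (hB : Odd B.length) (hL : Even L.length)
    (pA : A.Perm A') (pB : B.Perm B') (z y u : ℂ) :
    zo (z :: y :: u :: (A ++ (B ++ L))) = zo (z :: y :: u :: (A' ++ (B' ++ L))) := by
  refine zo_perm ?_ ((((pA.append (pB.append (List.Perm.refl L))).cons u).cons y).cons z)
  rw [List.length_cons, List.length_cons, List.length_cons]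
  exact (len2 hA hB hL).add_one.add_one.add_one

theorem hF_perm (hp : S1_perm) (hx : ∀ i, x i ≠ 0) (s : Finset ι) {A B A' B' : List ℂ}
    {w v : ℂ} (hA : Odd A.length) (hB : Odd B.length) (zA : NZ A) (zB : NZ B)
    (pA : A.Perm A') (pB : B.Perm B') (hw : w ≠ 0) (hv : v ≠ 0) :
    hF x s A B w v = hF x s A' B' w v := by
  unfold hF
  rw [hp A A' (s.toList.map x) B B' hA hB zA (NZ_map hx s) zB pA pB w v hw hv]
  have e1 : mm A B = mm A' B' := by
    unfold Pool.Agent.NH38.Fork.mm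
    rw [zo_perm hA pA, zo_perm hB pB]
  have hL := len2 hA hB (prF_even x s)
  have e2 : zs (w :: v :: (A ++ (B ++ prF x s))) = zs (w :: v :: (A' ++ (B' ++ prF x s))) := by
    refine Pool.Agent.NH38.Step.zs_perm ?_ (((pA.append (pB.append (List.Perm.refl _))).cons v).cons w)
    rw [List.length_cons, List.length_cons]; exact hL.add_one.add_one
  rw [e1, e2]

theorem DD1_perm (hp : S1_perm) (hp0 : S_perm) (hx : ∀ i, x i ≠ 0) (s : Finset ι)
    {A B A' B' : List ℂ} {w v : ℂ} (hA : Odd A.length) (hB : Odd B.length) (zA : NZ A) (zB : NZ B)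
    (pA : A.Perm A') (pB : B.Perm B') (hw : w ≠ 0) (hv : v ≠ 0) :
    DD1 x s A B w v = DD1 x s A' B' w v := by
  classical
  refine DD1_congr hx hw hv ?_ (hF_perm hp hx s hA hB zA zB pA pB hw hv) ?_ ?_ ?_
  · refine Pool.Agent.NH38.Step.zs_perm ?_ (pA.append pB)
    rw [List.length_append]; exact hA.add_odd hB
  · intro z hz
    exact hp0 A A' _ B B' hA hB zA (NZ_map hx ∅) zB pA pB z hz
  · exact fun z => zo_AB hA hB (prF_even x s) pA pB z
  · exact fun i => zo_AB3 hA hB (prF_even x _) pA pB w v (x i)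

theorem zo_invm {A B L : List ℂ} (hA : Odd A.length) (hB : Even B.length) (hL : Even L.length)
    (z : ℂ) {y : ℂ} (hy : y ≠ 0) :
    zo (z :: (A ++ ((y :: B) ++ L))) = zo (z :: (A ++ ((y⁻¹ :: B) ++ L))) := by
  have h1 : ∀ u : ℂ, (z :: (A ++ ((u :: B) ++ L))).Perm (u :: z :: (A ++ (B ++ L))) := fun u =>
    ((List.perm_middle (a := u) (l₁ := A) (l₂ := B ++ L)).cons z).trans (List.Perm.swap _ _ _)
  have h2 : ∀ u : ℂ, Odd (z :: (A ++ ((u :: B) ++ L))).length := by
    intro u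
    rw [List.length_cons]
    refine (len2 hA ?_ hL).add_one
    rw [List.length_cons]; exact hB.add_one
  rw [zo_perm (h2 _) (h1 _), zo_perm (h2 _) (h1 _)]
  refine zo_inv _ _ hy ?_
  have := h2 y
  rw [(h1 y).length_eq, List.length_cons] at this
  rcases this with ⟨m, hm⟩
  exact ⟨m, by omega⟩

theorem zo_invm3 {A B L : List ℂ} (hA : Odd A.length) (hB : Even B.length) (hL : Even L.length)
    (z z' z'' : ℂ) {y : ℂ} (hy : y ≠ 0) :
    zo (z :: z' :: z'' :: (A ++ ((y :: B) ++ L))) =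
      zo (z :: z' :: z'' :: (A ++ ((y⁻¹ :: B) ++ L))) := by
  have h0 : ∀ u : ℂ, (z :: z' :: z'' :: (A ++ ((u :: B) ++ L))).Perm
      (z :: (A ++ ((u :: B) ++ (z' :: z'' :: L)))) := by
    intro u
    refine List.Perm.cons z ?_
    have h1 : ((z' :: z'' :: (A ++ ((u :: B) ++ L)))) = [z', z''] ++ ((A ++ (u :: B)) ++ L) := by
      simp
    have h2 : (A ++ ((u :: B) ++ (z' :: z'' :: L))) = (A ++ (u :: B)) ++ ([z', z''] ++ L) := by
      simp
    rw [h1, h2, ← List.append_assoc, ← List.append_assoc (A ++ (u :: B))]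
    exact List.Perm.append_right L List.perm_append_comm
  have h2 : ∀ u : ℂ, Odd (z :: z' :: z'' :: (A ++ ((u :: B) ++ L))).length := by
    intro u
    rw [List.length_cons, List.length_cons, List.length_cons]
    refine (len2 hA ?_ hL).add_one.add_one.add_one
    rw [List.length_cons]; exact hB.add_one
  rw [zo_perm (h2 _) (h0 _), zo_perm (h2 _) (h0 _)]
  refine zo_invm hA hB ?_ z hy
  rw [List.length_cons, List.length_cons]
  exact hL.add_one.add_one

theorem zs_invm {A B L : List ℂ} (hA : Odd A.length) (hB : Even B.length) (hL : Even L.length)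
    {y : ℂ} (hy : y ≠ 0) :
    zs (A ++ ((y :: B) ++ L)) = zs (A ++ ((y⁻¹ :: B) ++ L)) := by
  have h1 : ∀ u : ℂ, (A ++ ((u :: B) ++ L)).Perm (u :: (A ++ (B ++ L))) := fun u =>
    (List.perm_middle (a := u) (l₁ := A) (l₂ := B ++ L))
  have h2 : ∀ u : ℂ, Even (A ++ ((u :: B) ++ L)).length := by
    intro u
    refine (len2 hA ?_ hL)
    rw [List.length_cons]; exact hB.add_one
  rw [Pool.Agent.NH38.Step.zs_perm (h2 _) (h1 _), Pool.Agent.NH38.Step.zs_perm (h2 _) (h1 _)]
  refine (zs_inv' ?_ hy).symm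
  have := h2 y
  rw [(h1 y).length_eq, List.length_cons] at this
  rcases this with ⟨m, hm⟩
  exact ⟨m - 1, by omega⟩

theorem zs_invm2 {A B L : List ℂ} (hA : Odd A.length) (hB : Even B.length) (hL : Even L.length)
    (z z' : ℂ) {y : ℂ} (hy : y ≠ 0) :
    zs (z :: z' :: (A ++ ((y :: B) ++ L))) = zs (z :: z' :: (A ++ ((y⁻¹ :: B) ++ L))) := by
  have h0 : ∀ u : ℂ, (z :: z' :: (A ++ ((u :: B) ++ L))).Perm
      (A ++ ((u :: B) ++ (z :: z' :: L))) := by
    intro u
    have h1 : ((z :: z' :: (A ++ ((u :: B) ++ L)))) = [z, z'] ++ ((A ++ (u :: B)) ++ L) := by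
      simp
    have h2 : (A ++ ((u :: B) ++ (z :: z' :: L))) = (A ++ (u :: B)) ++ ([z, z'] ++ L) := by
      simp
    rw [h1, h2, ← List.append_assoc, ← List.append_assoc (A ++ (u :: B))]
    exact List.Perm.append_right L List.perm_append_comm
  have h2 : ∀ u : ℂ, Even (z :: z' :: (A ++ ((u :: B) ++ L))).length := by
    intro u
    rw [List.length_cons, List.length_cons]
    refine (len2 hA ?_ hL).add_one.add_one
    rw [List.length_cons]; exact hB.add_one
  rw [Pool.Agent.NH38.Step.zs_perm (h2 _) (h0 _), Pool.Agent.NH38.Step.zs_perm (h2 _) (h0 _)]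
  refine zs_invm hA hB ?_ hy
  rw [List.length_cons, List.length_cons]
  exact hL.add_one.add_one

theorem hF_inv (hi : S1_invB) (hx : ∀ i, x i ≠ 0) (s : Finset ι) {A B : List ℂ}
    {w v y : ℂ} (hA : Odd A.length) (hB : Even B.length) (zA : NZ A) (zB : NZ B)
    (hy : y ≠ 0) (hw : w ≠ 0) (hv : v ≠ 0) :
    hF x s A (y :: B) w v = hF x s A (y⁻¹ :: B) w v := by
  unfold hF
  rw [hi A (s.toList.map x) B y hA hB zA (NZ_map hx s) zB hy w v hw hv,
    zs_invm2 hA hB (prF_even x s) w v hy]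
  have e1 : mm A (y :: B) = mm A (y⁻¹ :: B) := by
    unfold Pool.Agent.NH38.Fork.mm
    rw [zo_inv y B hy hB]
  rw [e1]

theorem DD1_inv (hi : S1_invB) (hi0 : S_invB) (hx : ∀ i, x i ≠ 0) (s : Finset ι)
    {A B : List ℂ} {w v y : ℂ} (hA : Odd A.length) (hB : Even B.length) (zA : NZ A) (zB : NZ B)
    (hy : y ≠ 0) (hw : w ≠ 0) (hv : v ≠ 0) :
    DD1 x s A (y :: B) w v = DD1 x s A (y⁻¹ :: B) w v := by
  classical
  refine DD1_congr hx hw hv ?_ (hF_inv hi hx s hA hB zA zB hy hw hv) ?_ ?_ ?_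
  · have := zs_invm (L := []) hA hB (by simp) hy
    simpa using this
  · intro z hz
    exact hi0 A _ B y hA hB zA (NZ_map hx ∅) zB hy z hz
  · exact fun z => zo_invm hA hB (prF_even x s) z hy
  · exact fun i => zo_invm3 hA hB (prF_even x _) w v (x i) hy

end M

end Pool.Agent.H966.T1
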