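import Pool.Agent.H966.T1.Mc

/-!
Forked channels of even width (helper966), task M, part d: zeros of the formula at `om v = om w`,
`om v = om x`, and the recursion at `v = q² x⁻¹`.
-/

namespace Pool.Agent.H966.T1

open Pool.Agent.H988R2.Perc hiding X
open Pool.Agent.NH38.Step (om prs EE zs prF Gen on cardy pom bev EE_fac EE_comm om_inv om_q2_inv
  om_q_inv pom_cons pom_app zs_perm zs_rec)
open Pool.Agent.NH38.Fork (zo mm na cst gh Dh G T D U tt gF tF NZ ev LR UL Reg Lau PermInv cc gm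
  S_DET S_DUAL S_perm S_invB)
open Pool.Agent.NH38.Fork.M7 (NZ_app NZ_cons NZ_nil NZ_map NZ_prF NZ_prs NZ_perm zo_perm zo_inv
  zo_rec pom_prs pom_toList)
open Pool.Agent.NH38.Fork.M2a (sub_inv_ne gm_mul om_sub_ne)
open Polynomial

namespace M

variable {ι : Type} {x : ι → ℂ}

/-- zero at `v = w` -/
theorem zero_w (s : Finset ι) (A B : List ℂ) (w : ℂ) : DD1 x s A B w w = 0 := by
  classical
  unfold DD1
  rw [sub_self]
  have e : (∏ j ∈ s, EE (om w) (om (x j)) * (om w - om (x j))) =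
      (∏ j ∈ s, EE (om w) (om (x j)) * (om w - om (x j))) := rfl
  ring

/-- zero at `v = 1/w` -/
theorem zero_w' (s : Finset ι) (A B : List ℂ) {w : ℂ} (hw : w ≠ 0) :
    DD1 x s A B w w⁻¹ = 0 := by
  classical
  unfold DD1
  rw [om_inv, sub_self, mul_inv_cancel₀ hw, inv_one, sub_self]
  ring

/-- `y` has the same `om` as `x i` -/
theorem y_ne {x : ι → ℂ} (hg : Gen x) {i : ι} {y : ℂ} (hy : y ≠ 0) (hom : om (x i) = om y) :
    y - y⁻¹ ≠ 0 := by
  have hx : ∀ i, x i ≠ 0 := fun i => (hg.1 i).1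
  have hxi := sub_inv_ne (hx i) (hg.1 i).2
  rcases (Pool.Agent.NH38.Step.om_eq_iff (hx i) hy).mp hom with h1 | h1
  · rw [← h1]; exact hxi
  · have : y = (x i)⁻¹ := eq_inv_of_mul_eq_one_right h1
    rw [this, inv_inv]
    intro h
    apply hxi
    linear_combination -h

open Classical in
/-- permutation of `A ++ (B ++ prF x s)` -/
theorem permE (hx : ∀ i, x i ≠ 0) {s : Finset ι} {i : ι} (hi : i ∈ s)
    {y : ℂ} (hy : y ≠ 0) (h : om (x i) = om y) (A B : List ℂ) :
    (A ++ (B ++ prF x s)).Perm (y :: y⁻¹ :: (A ++ (B ++ prF x (s.erase i)))) :=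
  Pool.Agent.NH38.Fork.M2a.perm_erase x hx hi y hy h A B

/-- `zo` depends on the values of `om` -/
theorem zo_om {L : List ℂ} (hL : Even L.length) {y z : ℂ} (hy : y ≠ 0) (hz : z ≠ 0)
    (h : om y = om z) : zo (y :: L) = zo (z :: L) := by
  rcases (Pool.Agent.NH38.Step.om_eq_iff hy hz).mp h with h1 | h1
  · rw [h1]
  · have : y = z⁻¹ := eq_inv_of_mul_eq_one_left h1
    rw [this]; exact zo_inv' hL hz

open Classical in
/-- zero at `om v = om (x i)` -/
theorem zero_x (hg : Gen x) {s : Finset ι} {i : ι} (hi : i ∈ s) {y : ℂ} (hy : y ≠ 0)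
    (hom : om (x i) = om y) {A B : List ℂ} (hA : Odd A.length) (hB : Odd B.length) {w : ℂ}
    (hw : w ≠ 0) : DD1 x s A B w y = 0 := by
  have hx : ∀ i, x i ≠ 0 := fun i => (hg.1 i).1
  have hyi := y_ne hg hy hom
  unfold DD1
  have h0 : (∏ j ∈ s, (om w - om (x j)) * (om y - om (x j))) = 0 :=
    Finset.prod_eq_zero hi (by rw [hom, sub_self, mul_zero])
  have h0' : (∏ j ∈ s, EE (om w) (om (x j)) * (om y - om (x j))) = 0 :=
    Finset.prod_eq_zero hi (by rw [hom, sub_self, mul_zero])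
  rw [h0, h0']
  have hsum : (∑ l ∈ s, gm x s l *
        (∏ j ∈ s.erase l, (om w - om (x j)) * (om y - om (x j))) * cc1 (gF x ∅ A B) w y (x l) *
        zo (w :: y :: x l :: (A ++ (B ++ prF x (s.erase l))))) =
      gm x s i * (∏ j ∈ s.erase i, (om w - om (x j)) * (om y - om (x j))) *
        cc1 (gF x ∅ A B) w y (x i) *
        zo (w :: y :: x i :: (A ++ (B ++ prF x (s.erase i)))) := by
    refine Finset.sum_eq_single_of_mem i hi ?_
    intro l hl hli
    have : (∏ j ∈ s.erase l, (om w - om (x j)) * (om y - om (x j))) = 0 :=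
      Finset.prod_eq_zero (Finset.mem_erase.mpr ⟨hli.symm, hi⟩) (by rw [hom, sub_self, mul_zero])
    rw [this, mul_zero, zero_mul, zero_mul]
  rw [hsum, cc1_om _ _ _ (hx i) hy hom, cc1_self _ hy hyi]
  have hev := len2 hA hB (prF_even x (s.erase i))
  have e1 : zo (w :: y :: x i :: (A ++ (B ++ prF x (s.erase i)))) =
      zo (w :: (A ++ (B ++ prF x s))) := by
    have hl : Odd (w :: (A ++ (B ++ prF x s))).length := by
      rw [List.length_cons]; exact (len2 hA hB (prF_even x s)).add_one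
    rw [zo_perm hl ((permE hx hi hy hom A B).cons w)]
    have ho : ∀ a b c : ℂ, Odd (a :: b :: c :: (A ++ (B ++ prF x (s.erase i)))).length := by
      intro a b c
      rw [List.length_cons, List.length_cons, List.length_cons]; exact hev.add_one.add_one.add_one
    rw [zo_perm (ho w y (x i)) (((List.Perm.swap _ _ _).cons w).trans (List.Perm.swap _ _ _)),
      zo_perm (ho w y y⁻¹) (((List.Perm.swap _ _ _).cons w).trans (List.Perm.swap _ _ _))]
    refine zo_om ?_ (hx i) (inv_ne_zero hy) (by rw [om_inv, hom])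
    rw [List.length_cons, List.length_cons]; exact hev.add_one.add_one
  rw [e1]
  have e2 := gm_mul x s i (fun j hj => om_sub_ne hg (Finset.ne_of_mem_erase hj).symm)
  have e3 : (∏ j ∈ s, EE (om y) (om (x j)) * (om w - om (x j))) =
      (EE (om y) (om (x i)) * (om w - om (x i))) *
        ((∏ j ∈ s.erase i, EE (om y) (om (x j))) * ∏ j ∈ s.erase i, (om w - om (x j))) := by
    rw [← Finset.mul_prod_erase s _ hi, Finset.prod_mul_distrib]
  have e4 : (∏ j ∈ s.erase i, (om w - om (x j)) * (om y - om (x j))) =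
      (∏ j ∈ s.erase i, (om w - om (x j))) * ∏ j ∈ s.erase i, (om y - om (x j)) :=
    Finset.prod_mul_distrib
  rw [e3, e4]
  rw [hom] at e2 ⊢
  linear_combination (-q * (om w - om y) * (∏ j ∈ s.erase i, (om w - om (x j))) *
    ((w - q*y) * (1 - (w*y)⁻¹) * gF x ∅ A B y) * zo (w :: (A ++ (B ++ prF x s)))) * e2

end M

end Pool.Agent.H966.T1
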