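import Pool.Agent.H966.T1.Md

/-!
Forked channels of even width (helper966), task M, part e: the recursion at `v = q² x⁻¹`.
-/

namespace Pool.Agent.H966.T1

open Pool.Agent.H988R2.Perc hiding X
open Pool.Agent.NH38.Step (om prs EE zs prF Gen on cardy pom bev EE_fac EE_comm om_inv om_q2_inv
  om_q_inv pom_cons pom_app zs_perm zs_rec)
open Pool.Agent.NH38.Fork (zo mm na cst gh Dh G T D U tt gF tF NZ ev LR UL Reg Lau PermInv cc gm
  S_DET S_DUAL S_perm S_invB)
open Pool.Agent.NH38.Fork.M7 (NZ_app NZ_cons NZ_nil NZ_map NZ_prF NZ_prs NZ_perm zo_perm zo_inv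
  zo_rec pom_prs pom_toList pom_prF)
open Pool.Agent.NH38.Fork.M2a (sub_inv_ne gm_mul om_sub_ne)
open Polynomial

namespace M

variable {ι : Type} {x : ι → ℂ}

theorem NZ_L (hx : ∀ i, x i ≠ 0) {A B : List ℂ} (zA : NZ A) (zB : NZ B) (s : Finset ι) :
    NZ (A ++ (B ++ prF x s)) := NZ_app zA (NZ_app zB (NZ_prF hx s))

/-- `zo` at `y⁻¹, q² y⁻¹` -/
theorem zo_nd {L : List ℂ} (hL : Odd L.length) (zL : NZ L) {y : ℂ} (hy : y ≠ 0) :
    zo (y⁻¹ :: (q^2 * y⁻¹) :: L) = -(pom (om (q^2 * y)) L * zo L) := by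
  rw [zo_rec y⁻¹ L (inv_ne_zero hy) zL hL, om_q_inv]

theorem zs_nd {L : List ℂ} (hL : Even L.length) (zL : NZ L) {y : ℂ} (hy : y ≠ 0) :
    zs (y⁻¹ :: (q^2 * y⁻¹) :: L) = pom (om (q^2 * y)) L * zs L := by
  rw [zs_rec y⁻¹ L (inv_ne_zero hy) zL hL, om_q_inv]

open Classical in
theorem eh_node (hn : S1_node) (hpX : S1_permX) (hiX : S1_invX) (hx : ∀ i, x i ≠ 0)
    {s : Finset ι} {i : ι} (hi : i ∈ s) {y : ℂ} (hy : y ≠ 0) (hom : om (x i) = om y)
    {A B : List ℂ} (hA : Odd A.length) (hB : Odd B.length) (zA : NZ A) (zB : NZ B) {w : ℂ}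
    (hw : w ≠ 0) : eh A (s.toList.map x) B w (q^2 * y⁻¹) =
      (om (q^2 * y) - om w) * (om (q^2 * y) - om y) * pom (om (q^2 * y)) (A ++ B) *
      pom (om (q^2 * y)) (prF x (s.erase i)) * eh A ((s.erase i).toList.map x) B w y := by
  have hv : q^2 * y⁻¹ ≠ 0 := mul_ne_zero (pow_ne_zero _ q_ne_zero) (inv_ne_zero hy)
  have h1 := hpX A (s.toList.map x) (x i :: ((s.erase i).toList.map x)) B hA hB zA
    (NZ_map hx s) zB (Pool.Agent.NH38.Fork.M1.toList_erase x hi) w (q^2 * y⁻¹) hw hv
  have h2 : eh A (x i :: ((s.erase i).toList.map x)) B w (q^2 * y⁻¹) =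
      eh A (y :: ((s.erase i).toList.map x)) B w (q^2 * y⁻¹) := by
    rcases (Pool.Agent.NH38.Step.om_eq_iff (hx i) hy).1 hom with h3 | h3
    · rw [h3]
    · have h4 : y = (x i)⁻¹ := eq_inv_of_mul_eq_one_right h3
      rw [hiX A _ B (x i) hA hB zA (NZ_map hx _) zB (hx i) _ _ hw hv, ← h4]
  rw [h1, h2, hn A ((s.erase i).toList.map x) B y hA hB zA (NZ_map hx _) zB hy w hw]
  rfl

open Classical in
theorem hF_node (hn : S1_node) (hpX : S1_permX) (hiX : S1_invX) (hx : ∀ i, x i ≠ 0)
    {s : Finset ι} {i : ι} (hi : i ∈ s) {y : ℂ} (hy : y ≠ 0) (hom : om (x i) = om y)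
    {A B : List ℂ} (hA : Odd A.length) (hB : Odd B.length) (zA : NZ A) (zB : NZ B) {w : ℂ}
    (hw : w ≠ 0) : hF x s A B w (q^2 * y⁻¹) =
      (om (q^2 * y) - om w) * (om (q^2 * y) - om y) * pom (om (q^2 * y)) (A ++ B) *
      pom (om (q^2 * y)) (prF x (s.erase i)) * hF x (s.erase i) A B w y := by
  unfold hF
  rw [eh_node hn hpX hiX hx hi hy hom hA hB zA zB hw]
  have hev := len2 hA hB (prF_even x (s.erase i))
  have e1 : zs (w :: (q^2 * y⁻¹) :: (A ++ (B ++ prF x s))) =
      (om (q^2 * y) - om w) * ((om (q^2 * y) - om y) * (pom (om (q^2 * y)) (A ++ B) *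
      pom (om (q^2 * y)) (prF x (s.erase i)))) *
        zs (w :: y :: (A ++ (B ++ prF x (s.erase i)))) := by
    have h1 : (w :: (q^2 * y⁻¹) :: (A ++ (B ++ prF x s))).Perm
        (y⁻¹ :: (q^2 * y⁻¹) :: w :: y :: (A ++ (B ++ prF x (s.erase i)))) := by
      refine (((permE hx hi hy hom A B).cons _).cons _).trans ?_
      -- w, Q, y, y', L ~ y', Q, w, y, L
      set L := A ++ (B ++ prF x (s.erase i))
      have p1 : (w :: (q^2 * y⁻¹) :: y :: y⁻¹ :: L).Perm (y⁻¹ :: w :: (q^2 * y⁻¹) :: y :: L) :=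
        List.perm_middle (a := y⁻¹) (l₁ := [w, q^2 * y⁻¹, y]) (l₂ := L)
      exact p1.trans ((List.Perm.swap _ _ _).cons _)
    have h2 : Even (w :: (q^2 * y⁻¹) :: (A ++ (B ++ prF x s))).length := by
      rw [List.length_cons, List.length_cons]
      exact (len2 hA hB (prF_even x s)).add_one.add_one
    have h3 : Even (w :: y :: (A ++ (B ++ prF x (s.erase i)))).length := by
      rw [List.length_cons, List.length_cons]
      exact hev.add_one.add_one
    rw [zs_perm h2 h1, zs_nd h3 (NZ_cons hw (NZ_cons hy (NZ_L hx zA zB _))) hy]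
    rw [pom_cons, pom_cons, pom_app, pom_app, pom_app]
    ring
  rw [e1]
  ring

open Classical in
/-- recursion at `v = q² y⁻¹`, `om y = om (x i)` -/
theorem node (hn : S1_node) (hpX : S1_permX) (hiX : S1_invX) (hg : Gen x)
    {s : Finset ι} {i : ι} (hi : i ∈ s) {y : ℂ} (hy : y ≠ 0) (hom : om (x i) = om y)
    {A B : List ℂ} (hA : Odd A.length) (hB : Odd B.length) (zA : NZ A) (zB : NZ B) {w : ℂ}
    (hw : w ≠ 0) :
    DD1 x s A B w (q^2 * y⁻¹) * ∏ j ∈ s.erase i, (om y - om (x j)) =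
      (om w - om (q*y)) * (om (q*y) - om y) * (om (q^2 * y) - om w) * (om (q^2 * y) - om y) *
        (∏ j ∈ s.erase i, (om (q*y) - om (x j))) *
        pom (om (q^2 * y)) (A ++ (B ++ prF x (s.erase i))) * DD1 x (s.erase i) A B w y := by
  have hx : ∀ i, x i ≠ 0 := fun i => (hg.1 i).1
  have hyi := y_ne hg hy hom
  have hev := len2 hA hB (prF_even x (s.erase i))
  have hpL : pom (om (q^2 * y)) (A ++ (B ++ prF x (s.erase i))) =
      pom (om (q^2 * y)) (A ++ B) * pom (om (q^2 * y)) (prF x (s.erase i)) := by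
    rw [pom_app, pom_app, pom_app]; ring
  have e1 : zo ((q^2 * y⁻¹) :: (A ++ (B ++ prF x s))) =
      -((om (q^2 * y) - om y) * pom (om (q^2 * y)) (A ++ (B ++ prF x (s.erase i))) *
        zo (y :: (A ++ (B ++ prF x (s.erase i))))) := by
    have h1 : ((q^2 * y⁻¹) :: (A ++ (B ++ prF x s))).Perm
        (y⁻¹ :: (q^2 * y⁻¹) :: y :: (A ++ (B ++ prF x (s.erase i)))) := by
      refine ((permE hx hi hy hom A B).cons _).trans ?_
      exact List.perm_middle (a := y⁻¹) (l₁ := [q^2 * y⁻¹, y])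
        (l₂ := A ++ (B ++ prF x (s.erase i)))
    have h2 : Odd ((q^2 * y⁻¹) :: (A ++ (B ++ prF x s))).length := by
      rw [List.length_cons]
      exact (len2 hA hB (prF_even x s)).add_one
    rw [zo_perm h2 h1, zo_nd (by rw [List.length_cons]; exact hev.add_one)
      (NZ_cons hy (NZ_L hx zA zB _)) hy, pom_cons]
  have e2 : zo (w :: (q^2 * y⁻¹) :: x i :: (A ++ (B ++ prF x (s.erase i)))) =
      -((om (q^2 * y) - om w) * pom (om (q^2 * y)) (A ++ (B ++ prF x (s.erase i))) *
        zo (w :: (A ++ (B ++ prF x (s.erase i))))) := by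
    have h2 : ∀ a b c : ℂ, Odd (a :: b :: c :: (A ++ (B ++ prF x (s.erase i)))).length := by
      intro a b c
      rw [List.length_cons, List.length_cons, List.length_cons]
      exact hev.add_one.add_one.add_one
    have h1 : (w :: (q^2 * y⁻¹) :: x i :: (A ++ (B ++ prF x (s.erase i)))).Perm
        (x i :: w :: (q^2 * y⁻¹) :: (A ++ (B ++ prF x (s.erase i)))) :=
      List.perm_middle (a := x i) (l₁ := [w, q^2 * y⁻¹]) (l₂ := A ++ (B ++ prF x (s.erase i)))
    rw [zo_perm (h2 _ _ _) h1, zo_om (z := y⁻¹) (by rw [List.length_cons, List.length_cons]; exact hev.add_one.add_one)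
      (hx i) (inv_ne_zero hy) (by rw [om_inv, hom]),
      zo_perm (h2 _ _ _) ((List.Perm.swap _ _ _).cons _), zo_nd (by rw [List.length_cons]; exact hev.add_one)
      (NZ_cons hw (NZ_L hx zA zB _)) hy, pom_cons]
  have e3 : ∀ l ∈ s.erase i, zo (w :: (q^2 * y⁻¹) :: x l :: (A ++ (B ++ prF x (s.erase l)))) =
      -((om (q^2 * y) - om y) * (om (q^2 * y) - om w) * (om (q^2 * y) - om (x l)) *
        (pom (om (q^2 * y)) (A ++ B) * pom (om (q^2 * y)) (prF x ((s.erase i).erase l))) *
        zo (w :: y :: x l :: (A ++ (B ++ prF x ((s.erase i).erase l))))) := by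
    intro l hl
    have hli : l ≠ i := Finset.ne_of_mem_erase hl
    have hil : i ∈ s.erase l := Finset.mem_erase.mpr ⟨hli.symm, hi⟩
    have h1 : (w :: (q^2 * y⁻¹) :: x l :: (A ++ (B ++ prF x (s.erase l)))).Perm
        (y⁻¹ :: (q^2 * y⁻¹) :: w :: y :: x l :: (A ++ (B ++ prF x ((s.erase i).erase l)))) := by
      have q1 := permE hx hil hy hom A B
      rw [Finset.erase_right_comm] at q1
      refine (((q1.cons _).cons _).cons _).trans ?_
      set L := (A ++ (B ++ prF x ((s.erase i).erase l)))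
      refine (List.perm_middle (a := y⁻¹) (l₁ := [w, q^2 * y⁻¹, x l, y]) (l₂ := L)).trans ?_
      refine List.Perm.cons _ ?_
      refine (List.Perm.swap _ _ _).trans ?_
      exact ((List.Perm.swap _ _ _).cons _).cons _
    have h2 : Odd (w :: (q^2 * y⁻¹) :: x l :: (A ++ (B ++ prF x (s.erase l)))).length := by
      rw [List.length_cons, List.length_cons, List.length_cons]
      exact (len2 hA hB (prF_even x _)).add_one.add_one.add_one
    have h3 : Odd (w :: y :: x l :: (A ++ (B ++ prF x ((s.erase i).erase l)))).length := by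
      rw [List.length_cons, List.length_cons, List.length_cons]
      exact (len2 hA hB (prF_even x _)).add_one.add_one.add_one
    rw [zo_perm h2 h1, zo_nd h3 (NZ_cons hw (NZ_cons hy (NZ_cons (hx l) (NZ_L hx zA zB _)))) hy,
      pom_cons, pom_cons, pom_cons, pom_app, pom_app, pom_app]
    ring
  have hpos : ∀ j ∈ s.erase i, om (x i) - om (x j) ≠ 0 :=
    fun j hj => om_sub_ne hg (Finset.ne_of_mem_erase hj).symm
  have hgm := gm_mul x s i hpos
  have hEEy : EE (om y) (om y) = (om y - om (q*y)) * (om y - om (q^2*y)) := EE_fac _ y hy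
  have hEEw : EE (om w) (om y) = (om w - om (q*y)) * (om w - om (q^2*y)) := EE_fac _ y hy
  unfold DD1
  rw [hF_node hn hpX hiX hx hi hy hom hA hB zA zB hw, e1, K0_node hw hy, om_q2_inv]
  have z0 : (∏ j ∈ s, EE (om (q * y)) (om (x j)) * (om w - om (x j))) = 0 := by
    apply Finset.prod_eq_zero hi
    rw [hom, EE_fac _ y hy, sub_self, zero_mul, zero_mul]
  rw [z0, zero_mul, zero_mul, sub_zero]
  -- the sum
  have t2 : (∑ l ∈ s, gm x s l *
        (∏ j ∈ s.erase l, (om w - om (x j)) * (om (q*y) - om (x j))) *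
        cc1 (gF x ∅ A B) w (q^2*y⁻¹) (x l) *
        zo (w :: (q^2*y⁻¹) :: x l :: (A ++ (B ++ prF x (s.erase l))))) *
        (∏ j ∈ s.erase i, (om y - om (x j))) =
      -(EE (om y) (om y) * (∏ j ∈ s.erase i, EE (om y) (om (x j)) * (om w - om (x j))) *
        (∏ j ∈ s.erase i, (om (q*y) - om (x j))) * ((w - q*y) * (1 - (w*y)⁻¹) * gF x ∅ A B y) *
        ((om (q^2 * y) - om w) * pom (om (q^2 * y)) (A ++ (B ++ prF x (s.erase i))) *
        zo (w :: (A ++ (B ++ prF x (s.erase i)))))) +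
      (om w - om y) * (om (q*y) - om y) * (om (q^2 * y) - om w) * (om (q^2 * y) - om y) *
        (∏ j ∈ s.erase i, (om (q*y) - om (x j))) *
        pom (om (q^2 * y)) (A ++ (B ++ prF x (s.erase i))) *
      ∑ l ∈ s.erase i, gm x (s.erase i) l *
        (∏ j ∈ (s.erase i).erase l, (om w - om (x j)) * (om y - om (x j))) *
        cc1 (gF x ∅ A B) w y (x l) *
        zo (w :: y :: x l :: (A ++ (B ++ prF x ((s.erase i).erase l)))) := by
    rw [← Finset.add_sum_erase s _ hi, add_mul]
    congr 1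
    · rw [e2, cc1_node _ hy (hx i), cc1_om _ _ _ (hx i) hy hom, cc1_self _ hy hyi]
      rw [Finset.prod_mul_distrib, Finset.prod_mul_distrib]
      rw [hom] at hgm
      linear_combination (-(∏ j ∈ s.erase i, (om w - om (x j))) *
        (∏ j ∈ s.erase i, (om (q*y) - om (x j))) * ((w - q*y) * (1 - (w*y)⁻¹) * gF x ∅ A B y) *
        ((om (q^2 * y) - om w) * pom (om (q^2 * y)) (A ++ (B ++ prF x (s.erase i))) *
        zo (w :: (A ++ (B ++ prF x (s.erase i)))))) * hgm
    · rw [Finset.sum_mul, Finset.mul_sum]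
      refine Finset.sum_congr rfl fun l hl => ?_
      have hli : l ≠ i := Finset.ne_of_mem_erase hl
      have hls : l ∈ s := Finset.mem_of_mem_erase hl
      have hil : i ∈ s.erase l := Finset.mem_erase.mpr ⟨hli.symm, hi⟩
      have hg1 : gm x s l = gm x (s.erase i) l * (EE (om (x l)) (om (x i)) /
          (om (x l) - om (x i))) := by
        unfold Pool.Agent.NH38.Fork.gm
        rw [← Finset.mul_prod_erase (s.erase l) _ hil, Finset.erase_right_comm]
        ring
      have p1 : (∏ j ∈ s.erase l, (om w - om (x j)) * (om (q*y) - om (x j))) =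
          (om w - om (x i)) * (om (q * y) - om (x i)) *
            ((∏ j ∈ (s.erase i).erase l, (om w - om (x j))) *
              ∏ j ∈ (s.erase i).erase l, (om (q*y) - om (x j))) := by
        rw [← Finset.mul_prod_erase (s.erase l) _ hil, Finset.erase_right_comm,
          Finset.prod_mul_distrib]
      have p2 : (∏ j ∈ s.erase i, (om (q * y) - om (x j))) =
          (om (q * y) - om (x l)) * ∏ j ∈ (s.erase i).erase l, (om (q * y) - om (x j)) := by
        rw [← Finset.mul_prod_erase (s.erase i) _ hl]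
      have p3 : (∏ j ∈ s.erase i, (om y - om (x j))) = (om y - om (x l)) *
          ∏ j ∈ (s.erase i).erase l, (om y - om (x j)) := by
        rw [← Finset.mul_prod_erase (s.erase i) _ hl]
      have p4 : pom (om (q^2 * y)) (prF x (s.erase i)) = (om (q^2 * y) - om (x l))^2 *
          pom (om (q^2 * y)) (prF x ((s.erase i).erase l)) := by
        rw [pom_prF, pom_prF, ← Finset.mul_prod_erase (s.erase i) _ hl]
        ring
      rw [hg1, p1, p2, p3, hpL, p4, e3 l hl, cc1_node _ hy (hx l), hom, EE_fac (om (x l)) y hy,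
        Finset.prod_mul_distrib]
      have hd : om (x l) - om y ≠ 0 := by rw [← hom]; exact om_sub_ne hg hli
      have hd2 : (om (x l) - om y) * (om (x l) - om y)⁻¹ = 1 := mul_inv_cancel₀ hd
      rw [div_eq_mul_inv]
      generalize (om (x l) - om y)⁻¹ = D at *
      generalize gm x (s.erase i) l = c1
      generalize (∏ j ∈ (s.erase i).erase l, (om (q * y) - om (x j))) = c2
      generalize (∏ j ∈ (s.erase i).erase l, (om y - om (x j))) = c3
      generalize pom (om (q^2 * y)) (prF x ((s.erase i).erase l)) = c4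
      generalize zo (w :: y :: x l :: (A ++ (B ++ prF x ((s.erase i).erase l)))) = c5
      generalize cc1 (gF x ∅ A B) w y (x l) = c6
      generalize pom (om (q^2 * y)) (A ++ B) = c7
      generalize (∏ j ∈ (s.erase i).erase l, (om w - om (x j))) = c8
      linear_combination (c1 * c2 * c3 * c4 * c5 * c6 * c7 * c8 * (om w - om y) *
        (om (q*y) - om y) * (om (x l) - om (q * y)) *
        (om (x l) - om (q^2 * y)) * (om (q^2 * y) - om w) * (om (q^2 * y) - om y) *
        (om (q^2 * y) - om (x l))) * hd2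
  have p5 : (∏ j ∈ s, (om w - om (x j)) * (om (q*y) - om (x j))) =
      (om w - om y) * (om (q * y) - om y) *
        ((∏ j ∈ s.erase i, (om w - om (x j))) * ∏ j ∈ s.erase i, (om (q*y) - om (x j))) := by
    rw [← Finset.mul_prod_erase s _ hi, Finset.prod_mul_distrib, hom]
  have p6 : (∏ j ∈ s, EE (om w) (om (x j)) * (om (q*y) - om (x j))) =
      EE (om w) (om y) * (om (q * y) - om y) *
        ((∏ j ∈ s.erase i, EE (om w) (om (x j))) * ∏ j ∈ s.erase i, (om (q*y) - om (x j))) := by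
    rw [← Finset.mul_prod_erase s _ hi, Finset.prod_mul_distrib, hom]
  have p7 : (∏ j ∈ s.erase i, (om w - om (x j)) * (om y - om (x j))) =
      (∏ j ∈ s.erase i, (om w - om (x j))) * ∏ j ∈ s.erase i, (om y - om (x j)) :=
    Finset.prod_mul_distrib
  have p8 : (∏ j ∈ s.erase i, EE (om w) (om (x j)) * (om y - om (x j))) =
      (∏ j ∈ s.erase i, EE (om w) (om (x j))) * ∏ j ∈ s.erase i, (om y - om (x j)) :=
    Finset.prod_mul_distrib
  rw [p5, p6, p7, p8, hEEw]
  rw [hEEy] at t2
  generalize (∑ l ∈ s, gm x s l *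
        (∏ j ∈ s.erase l, (om w - om (x j)) * (om (q*y) - om (x j))) *
        cc1 (gF x ∅ A B) w (q^2*y⁻¹) (x l) *
        zo (w :: (q^2*y⁻¹) :: x l :: (A ++ (B ++ prF x (s.erase l))))) = S1 at *
  generalize (∑ l ∈ s.erase i, gm x (s.erase i) l *
        (∏ j ∈ (s.erase i).erase l, (om w - om (x j)) * (om y - om (x j))) *
        cc1 (gF x ∅ A B) w y (x l) *
        zo (w :: y :: x l :: (A ++ (B ++ prF x ((s.erase i).erase l))))) = S2 at *
  rw [hpL] at *
  linear_combination (-(q * (om w - om (q*y)))) * t2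


end M

end Pool.Agent.H966.T1
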