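import Pool.Agent.H966.T1.Me

/-!
Forked channels of even width (helper966), task M, part f: the width of the formula in `v`.
-/

namespace Pool.Agent.H966.T1

open Pool.Agent.H988R2.Perc hiding X
open Pool.Agent.NH38.Step (om prs EE zs prF Gen on cardy pom bev EE_fac EE_comm om_inv om_q2_inv
  om_q_inv pom_cons pom_app zs_perm zs_rec zs_mul refl_coeff)
open Pool.Agent.NH38.Fork (zo mm na cst gh Dh G T D U tt gF tF NZ ev LR UL Reg Lau PermInv cc gm
  S_DET S_DUAL S_perm S_invB S_wid S_ttwid S_M FP)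
open Pool.Agent.NH38.Fork.M7 (NZ_app NZ_cons NZ_nil NZ_map NZ_prF NZ_prs NZ_perm zo_perm zo_inv
  zo_rec pom_prs pom_toList pom_prF)
open Pool.Agent.NH38.Fork.M2a (sub_inv_ne gm_mul om_sub_ne)
open Pool.Agent.NH38.Fork.M2b (lau_congr lau_const lau_mul lau_smul lau_add lau_sub lau_prod lau_om
  lau_EE)
open Polynomial

namespace M

/-- the degree in one variable, and the extreme coefficients -/
theorem zs_lau (l : List ℂ) (m : ℕ) (hl : NZ l) (hm : l.length = 2 * m + 1) :
    Lau (2 * m) m (fun w => zs (w :: l)) (zo l) (zo l) := by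
  have hq := q_ne_zero
  have hp : l.prod ≠ 0 := List.prod_ne_zero (fun h => hl 0 h rfl)
  obtain ⟨P, hP, hPe⟩ := (Z_pd (l.length + 1) (by rw [hm]; exact ⟨m + 1, by ring⟩)).univ [] l
    (by simp)
  simp only [List.nil_append] at hPe
  obtain ⟨d, hd⟩ : ∃ d : ℂ, d = l.prod^m * q^((m+1) * m) := ⟨_, rfl⟩
  have hd0 : d ≠ 0 := by
    rw [hd]
    exact mul_ne_zero (pow_ne_zero _ hp) (pow_ne_zero _ hq)
  have hdeg : P.natDegree ≤ 2 * m := by
    refine hP.trans ?_
    rw [hm]
    omega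
  have hc0 : P.coeff 0 = zo l * d := by
    rw [Polynomial.coeff_zero_eq_eval_zero, ← hPe]
    have p1 : (0 :: l).Perm (l ++ [0]) := (List.perm_append_comm (l₁ := [0]) (l₂ := l))
    rw [Z_perm (by simp [hm]; exact ⟨m + 1, by ring⟩) p1]
    unfold Pool.Agent.NH38.Fork.zo
    have e1 : (l.length - 1) / 2 = m := by omega
    have e2 : (l.length + 1) / 2 = m + 1 := by omega
    rw [e1, e2, ← hd, div_mul_cancel₀ _ hd0]
  have hrefl : P.coeff (2 * m) = P.coeff 0 := by
    refine refl_coeff P _ hdeg fun w hw => ?_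
    rw [← hPe, ← hPe, Z_inv w l hw ⟨m, by simp [hm]⟩]
    congr 2
    simp [hm]
  refine ⟨P * C d⁻¹, (Polynomial.natDegree_mul_C_le _ _).trans hdeg, ?_, ?_, fun w hw => ?_⟩
  · rw [Polynomial.coeff_mul_C, hc0, mul_assoc, mul_inv_cancel₀ hd0, mul_one]
  · rw [Polynomial.coeff_mul_C, hrefl, hc0, mul_assoc, mul_inv_cancel₀ hd0, mul_one]
  · rw [eval_mul, eval_C, ← hPe]
    unfold Pool.Agent.NH38.Step.zs
    simp only [List.prod_cons, List.length_cons]
    have e1 : (l.length + 1) / 2 = m + 1 := by omega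
    rw [e1, Nat.add_sub_cancel, hd]
    have hw1 : w^m ≠ 0 := pow_ne_zero _ hw
    rw [mul_pow]
    field_simp

theorem lau_sum' {κ : Type} [DecidableEq κ] (s : Finset κ) (f : κ → ℂ → ℂ) (n m : ℕ)
    (c0 c1 : κ → ℂ) (h : ∀ i ∈ s, Lau n m (f i) (c0 i) (c1 i)) :
    Lau n m (fun w => ∑ i ∈ s, f i w) (∑ i ∈ s, c0 i) (∑ i ∈ s, c1 i) := by
  induction s using Finset.induction_on with
  | empty => exact ⟨0, by simp, by simp, by simp, fun w _ => by simp⟩
  | insert i s hi ih =>
    have h1 := lau_add (h i (Finset.mem_insert_self i s))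
      (ih fun j hj => h j (Finset.mem_insert_of_mem hj))
    rw [Finset.sum_insert hi, Finset.sum_insert hi]
    exact lau_congr h1 fun w _ => by rw [Finset.sum_insert hi]

theorem lau_K0 {z : ℂ} (hz : z ≠ 0) :
    Lau (2 * 1) 1 (fun v => (z - q*v) * (1 - (z*v)⁻¹)) (-1) (-q) := by
  refine ⟨C (-q) * X^2 + C (z + q * z⁻¹) * X - 1, ?_, ?_, ?_, fun v hv => ?_⟩
  · compute_degree
  · simp
  · have : (C (-q) * X^2 + C (z + q * z⁻¹) * X - 1 : ℂ[X]).coeff (2 * 1) = -q := by
      simp [coeff_one]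
    exact this
  · simp only [eval_add, eval_sub, eval_mul, eval_pow, eval_X, eval_C, eval_one, pow_one]
    field_simp
    ring

theorem lau_cc1 (g0 : ℂ → ℂ) {w x : ℂ} (hx : x ≠ 0) : Lau (2 * 1) 1 (fun v => cc1 g0 w v x)
    (-(cc g0 w x)) (-(q * cc g0 w x)) := by
  have h1 := lau_smul ((1 - q^2) / 3 * ((w - q*x) * (1 - (w*x)⁻¹) * g0 x) / (x - x⁻¹)) (lau_K0 hx)
  have h2 := lau_smul ((1 - q^2) / 3 * ((w - q*x⁻¹) * (1 - (w*x⁻¹)⁻¹) * g0 x⁻¹) / (x - x⁻¹))
    (lau_K0 (inv_ne_zero hx))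
  have h3 := lau_sub h1 h2
  have e1 : (w*x⁻¹)⁻¹ = w⁻¹*x := by rw [mul_inv, inv_inv]
  have c0 : (1 - q^2) / 3 * ((w - q*x) * (1 - (w*x)⁻¹) * g0 x) / (x - x⁻¹) * -1 -
      (1 - q^2) / 3 * ((w - q*x⁻¹) * (1 - (w*x⁻¹)⁻¹) * g0 x⁻¹) / (x - x⁻¹) * -1 =
      -(cc g0 w x) := by
    unfold Pool.Agent.NH38.Fork.cc
    rw [e1]
    ring
  have c1 : (1 - q^2) / 3 * ((w - q*x) * (1 - (w*x)⁻¹) * g0 x) / (x - x⁻¹) * -q -
      (1 - q^2) / 3 * ((w - q*x⁻¹) * (1 - (w*x⁻¹)⁻¹) * g0 x⁻¹) / (x - x⁻¹) * -q =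
      -(q * cc g0 w x) := by
    unfold Pool.Agent.NH38.Fork.cc
    rw [e1]
    ring
  rw [c0, c1] at h3
  refine lau_congr h3 fun v hv => ?_
  unfold cc1 Kk
  ring

variable {ι : Type} {x : ι → ℂ}

open Classical in
/-- the width of the formula -/
theorem DD1_wid (hwid1 : S1_wid) (hwid : S_wid) (htt : S_ttwid) (hM : S_M) (hg : Gen x)
    (s : Finset ι) {A B : List ℂ} (hA : Odd A.length) (hB : Odd B.length) (zA : NZ A) (zB : NZ B)
    {w : ℂ} (hw : w ≠ 0) : ∃ F : ℂ[X], F.natDegree ≤ A.length + B.length + 4 * s.card + 1 ∧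
      F.coeff 0 = 0 ∧ ∀ v, v ≠ 0 →
        DD1 x s A B w v * v^((A.length + B.length)/2 + 2 * s.card + 1) = F.eval v := by
  have hx : ∀ i, x i ≠ 0 := fun i => (hg.1 i).1
  obtain ⟨h, hh⟩ : ∃ h, A.length + B.length = 2 * h := by
    obtain ⟨m, hm⟩ := hA
    obtain ⟨m', hm'⟩ := hB
    exact ⟨m + m' + 1, by omega⟩
  set k := s.card with hk
  set M := A ++ (B ++ prF x s) with hMdef
  have hML : M.length = 2 * h + 2 * k := by
    rw [hMdef, List.length_append, List.length_append, Pool.Agent.NH38.Fork.M7.prF_length]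
    omega
  have zM : NZ M := NZ_L hx zA zB s
  have hX : (s.toList.map x).length = k := by rw [List.length_map, Finset.length_toList]
  -- `hF`
  have k1 := zs_lau (w :: M) (h + k) (NZ_cons hw zM) (by rw [List.length_cons, hML]; ring)
  have k2 := hwid1 A (s.toList.map x) B w hA hB zA (NZ_map hx s) zB hw
  rw [hX, hh, Nat.mul_div_cancel_left h (by norm_num)] at k2
  have d1 : 2 * h + 2 * k = 2 * (h + k) := by ring
  rw [d1] at k2
  have k3 := lau_sub (lau_smul (mm A B) k1) k2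
  have kF : Lau (2 * (h + k)) (h + k) (fun v => hF x s A B w v)
      (mm A B * zo (w :: M) + q * gF x s A B w) (mm A B * zo (w :: M) + q^2 * gF x s A B w) := by
    have c0 : mm A B * zo (w :: M) - -q * gh A (s.toList.map x) B w =
        mm A B * zo (w :: M) + q * gF x s A B w := by
      unfold Pool.Agent.NH38.Fork.gF; ring
    have c1 : mm A B * zo (w :: M) - -q^2 * gh A (s.toList.map x) B w =
        mm A B * zo (w :: M) + q^2 * gF x s A B w := by
      unfold Pool.Agent.NH38.Fork.gF; ring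
    rw [c0, c1] at k3
    refine lau_congr k3 fun v hv => ?_
    unfold hF
    rw [zs_perm (l := w :: v :: M) ?_ (List.Perm.swap _ _ _)]
    rw [List.length_cons, List.length_cons, hML]
    exact ⟨h + k + 1, by ring⟩
  -- the first term
  have p1 := lau_prod s (fun j v => om v - om (x j)) 1 (fun j _ => lau_om (om (x j)))
  have p2 := lau_prod s (fun j v => EE (om v) (om (x j))) 2 (fun j _ => lau_EE (om (x j)))
  rw [← hk] at p1 p2
  have o1 := lau_smul (-1) (lau_om (om w))
  have t1 := lau_smul ((∏ j ∈ s, (om w - om (x j))) * zs (A ++ B)) (lau_mul (lau_mul o1 p1) kF)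
  -- the second term
  have k4 := htt A (s.toList.map x) B hA hB zA (NZ_map hx s) zB
  rw [hX, hh, Nat.mul_div_cancel_left h (by norm_num), d1] at k4
  have k5 := hwid A [] B hA hB zA (NZ_nil) zB
  rw [hh, Nat.mul_div_cancel_left h (by norm_num)] at k5
  have e0 : A ++ (B ++ prs []) = A ++ B := by
    show A ++ (B ++ []) = A ++ B
    rw [List.append_nil]
  rw [e0] at k5
  have t2 := lau_smul ((∏ j ∈ s, EE (om w) (om (x j))) * gF x ∅ A B w) (lau_mul (lau_K0 hw)
    (lau_mul p1 k4))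
  have t3 := lau_smul ((∏ j ∈ s, (om w - om (x j))) * zo (w :: M)) (lau_mul (lau_K0 hw)
    (lau_mul p2 k5))
  -- the sum
  have t4 := lau_sum' s (fun i v => (-1 * (om v - om w)) * (gm x s i *
        (∏ j ∈ s.erase i, (om w - om (x j)) * (om v - om (x j))) * cc1 (gF x ∅ A B) w v (x i) *
        zo (w :: v :: x i :: (A ++ (B ++ prF x (s.erase i))))))
    (2 * (h + 2 * k + 1)) (h + 2 * k + 1)
    (fun i => gm x s i * (∏ j ∈ s.erase i, (om w - om (x j))) * cc (gF x ∅ A B) w (x i) *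
      zs (w :: x i :: (A ++ (B ++ prF x (s.erase i)))))
    (fun i => q * (gm x s i * (∏ j ∈ s.erase i, (om w - om (x j))) * cc (gF x ∅ A B) w (x i) *
      zs (w :: x i :: (A ++ (B ++ prF x (s.erase i)))))) (by
    intro i hi
    have hc := Finset.card_erase_add_one hi
    obtain ⟨k', hk'⟩ : ∃ k', k = k' + 1 := ⟨(s.erase i).card, by omega⟩
    have hk2 : (s.erase i).card = k' := by omega
    obtain ⟨h', hh'⟩ : ∃ h', h = h' + 1 := ⟨h - 1, by have := hA.pos; have := hB.pos; omega⟩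
    have q1 := lau_prod (s.erase i) (fun j v => om v - om (x j)) 1
      (fun j _ => lau_om (om (x j)))
    have q2 := lau_cc1 (gF x ∅ A B) (w := w) (hx i)
    have hMi : (A ++ (B ++ prF x (s.erase i))).length = 2 * h + 2 * k' := by
      rw [List.length_append, List.length_append, Pool.Agent.NH38.Fork.M7.prF_length, hk2]
      omega
    have q3 := Pool.Agent.NH38.Fork.QT.zo_lau (w :: x i :: (A ++ (B ++ prF x (s.erase i))))
      (h + k') (NZ_cons hw (NZ_cons (hx i) (NZ_L hx zA zB _))) (by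
        rw [List.length_cons, List.length_cons, hMi]; ring)
    have q4 := lau_smul (gm x s i * (∏ j ∈ s.erase i, (om w - om (x j))))
      (lau_mul o1 (lau_mul (lau_mul q1 q2) q3))
    rw [hk2] at q4
    have f1 : 2 * 1 + (2 * (1 * k') + 2 * 1 + 2 * (h + k' + 1)) = 2 * (h + 2 * k + 1) := by
      rw [hk']; ring
    have f2 : 1 + (1 * k' + 1 + (h + k' + 1)) = h + 2 * k + 1 := by rw [hk']; ring
    rw [f1, f2] at q4
    have g0 : gm x s i * (∏ j ∈ s.erase i, (om w - om (x j))) *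
        (-1 * 1 * (1 * -(cc (gF x ∅ A B) w (x i)) *
          zs (w :: x i :: (A ++ (B ++ prF x (s.erase i)))))) =
        gm x s i * (∏ j ∈ s.erase i, (om w - om (x j))) * cc (gF x ∅ A B) w (x i) *
          zs (w :: x i :: (A ++ (B ++ prF x (s.erase i)))) := by ring
    have g1 : gm x s i * (∏ j ∈ s.erase i, (om w - om (x j))) *
        (-1 * 1 * (1 * -(q * cc (gF x ∅ A B) w (x i)) *
          zs (w :: x i :: (A ++ (B ++ prF x (s.erase i)))))) =
        q * (gm x s i * (∏ j ∈ s.erase i, (om w - om (x j))) * cc (gF x ∅ A B) w (x i) *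
          zs (w :: x i :: (A ++ (B ++ prF x (s.erase i))))) := by ring
    rw [g0, g1] at q4
    refine lau_congr q4 fun v hv => ?_
    rw [Finset.prod_mul_distrib]
    have e2 : zo (w :: v :: x i :: (A ++ (B ++ prF x (s.erase i)))) =
        zo (v :: w :: x i :: (A ++ (B ++ prF x (s.erase i)))) := by
      refine zo_perm ?_ (List.Perm.swap _ _ _)
      rw [List.length_cons, List.length_cons, List.length_cons, hMi]
      exact ⟨h + k' + 1, by ring⟩
    rw [e2]
    ring)
  -- all together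
  have d2 : 2 * 1 + 2 * (1 * k) + 2 * (h + k) = 2 * (h + 2 * k + 1) := by ring
  have d3 : 1 + 1 * k + (h + k) = h + 2 * k + 1 := by ring
  have d4 : 2 * 1 + (2 * (1 * k) + 2 * (h + k)) = 2 * (h + 2 * k + 1) := by ring
  have d5 : 1 + (1 * k + (h + k)) = h + 2 * k + 1 := by ring
  have d6 : 2 * 1 + (2 * (2 * k) + (2 * h + 2 * List.length ([] : List ℂ))) =
    2 * (h + 2 * k + 1) := by rw [List.length_nil]; ring
  have d7 : 1 + (2 * k + (h + List.length ([] : List ℂ))) = h + 2 * k + 1 := by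
    rw [List.length_nil]; ring
  rw [d2, d3] at t1
  rw [d4, d5] at t2
  rw [d6, d7] at t3
  have t := lau_add t1 (lau_smul (-q) (lau_add (lau_sub t2 t3) t4))
  have hFP := hM x hg s A B hA hB zA zB w hw
  unfold Pool.Agent.NH38.Fork.FP at hFP
  have hMd : A ++ (B ++ prs (s.toList.map x)) = M := rfl
  rw [hMd] at t
  rw [← hMdef] at hFP
  have h3 := q_cube
  obtain ⟨F, hF1, hF2, hF3, hF4⟩ := t
  have hF2' : F.coeff 0 = 0 := by
    rw [hF2]
    linear_combination (-q) * hFP + (mm A B * zs (A ++ B) * zo (w :: M) *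
      (∏ j ∈ s, (om w - om (x j)))) * h3
  have hF3' : F.coeff (2 * (h + 2 * k + 1)) = 0 := by
    rw [hF3, ← Finset.mul_sum]
    linear_combination (-q^2) * hFP + (mm A B * zs (A ++ B) * zo (w :: M) *
      (∏ j ∈ s, (om w - om (x j)))) * h3
  refine ⟨F, ?_, hF2', fun v hv => ?_⟩
  · have hlt : F.natDegree < 2 * (h + 2 * k + 1) := by
      rcases lt_or_eq_of_le hF1 with h1 | h1
      · exact h1
      · exfalso
        rw [← h1] at hF3'
        have h2 : F = 0 := leadingCoeff_eq_zero.mp hF3'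
        rw [h2, natDegree_zero] at h1
        omega
    omega
  · have hm : (A.length + B.length) / 2 + 2 * k + 1 = h + 2 * k + 1 := by
      rw [hh, Nat.mul_div_cancel_left h (by norm_num)]
    rw [hm, ← hF4 v hv]
    congr 1
    unfold DD1
    have e5 : tt A (s.toList.map x) B v = zo (v :: M) := rfl
    have e6 : gh A [] B v = gF x ∅ A B v := (gF_empty x A B v).symm
    beta_reduce
    rw [e5, e6, Finset.prod_mul_distrib, Finset.prod_mul_distrib, Finset.prod_mul_distrib,
      ← Finset.mul_sum]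
    ring

end M

end Pool.Agent.H966.T1
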