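import Pool.Agent.H966.T1.Mf

/-!
Forked channels of even width (helper966), task M, part g: generic position, counting of zeros.
-/

namespace Pool.Agent.H966.T1

open Pool.Agent.H988R2.Perc hiding X
open Pool.Agent.NH38.Step (om prs EE zs prF Gen on cardy pom bev EE_fac EE_comm om_inv om_q2_inv
  om_q_inv pom_cons pom_app zs_perm zs_rec zs_mul refl_coeff)
open Pool.Agent.NH38.Fork (zo mm na cst gh Dh G T D U tt gF tF NZ ev LR UL Reg Lau PermInv cc gm
  S_DET S_DUAL S_perm S_invB S_wid S_ttwid S_M FP)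
open Pool.Agent.NH38.Fork.M7 (NZ_app NZ_cons NZ_nil NZ_map NZ_prF NZ_prs NZ_perm zo_perm zo_inv
  zo_rec pom_prs pom_toList pom_prF)
open Pool.Agent.NH38.Fork.M2a (sub_inv_ne gm_mul om_sub_ne)
open Polynomial

namespace M

/-- generic pairs -/
def RR (z y : ℂ) : Prop := z^6 ≠ y^6 ∧ (z*y)^6 ≠ 1

/-- the genericity polynomial -/
noncomputable def gN : List ℂ → ℂ
  | [] => 1
  | (z :: l) => (z^6 - 1) * (l.map (fun y => (z^6 - y^6) * ((z*y)^6 - 1))).prod * gN l

theorem gN_ne (l : List ℂ) : gN l ≠ 0 ↔ (∀ z ∈ l, z^6 ≠ 1) ∧ l.Pairwise RR := by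
  induction l with
  | nil => simp [gN]
  | cons z l ih =>
    rw [gN, mul_ne_zero_iff, mul_ne_zero_iff, ih, List.pairwise_cons]
    have h1 : (l.map (fun y => (z^6 - y^6) * ((z*y)^6 - 1))).prod ≠ 0 ↔ ∀ y ∈ l, RR z y := by
      rw [Ne, List.prod_eq_zero_iff, List.mem_map]
      push Not
      refine forall₂_congr fun y _ => ?_
      unfold RR
      rw [mul_ne_zero_iff, sub_ne_zero, sub_ne_zero]
    rw [h1, sub_ne_zero]
    constructor
    · rintro ⟨⟨h1, h2⟩, h3, h4⟩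
      refine ⟨?_, h2, h4⟩
      intro y hy
      rcases List.mem_cons.1 hy with rfl | hy
      · exact h1
      · exact h3 y hy
    · rintro ⟨h1, h2, h3⟩
      exact ⟨⟨h1 z List.mem_cons_self, h2⟩, fun y hy => h1 y (List.mem_cons_of_mem _ hy), h3⟩

theorem exists_RR (l : List ℂ) : ∃ z : ℂ, z ≠ 0 ∧ z^6 ≠ 1 ∧ ∀ y ∈ l, RR z y := by
  obtain ⟨r, hr, h⟩ := Pool.Agent.NH38.Fork.U34.bound l
  have hr0 : 0 < r := by linarith
  have hn : ‖(r:ℂ)‖ = r := by rw [Complex.norm_real, Real.norm_of_nonneg hr0.le]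
  refine ⟨(r:ℂ), by exact_mod_cast hr0.ne', ?_, fun y hy => ⟨?_, ?_⟩⟩
  · intro h6
    have h1 : ‖(r:ℂ)^6‖ = 1 := by rw [h6, norm_one]
    rw [norm_pow, hn] at h1
    have : r = 1 := (pow_eq_one_iff_of_nonneg hr0.le (by norm_num)).mp h1
    linarith
  · intro h6
    have h1 : ‖(r:ℂ)^6‖ = ‖y^6‖ := by rw [h6]
    rw [norm_pow, norm_pow, hn] at h1
    have h2 : r = ‖y‖ := (pow_left_inj₀ hr0.le (norm_nonneg y) (by norm_num)).mp h1
    have := (h y hy).1
    linarith
  · intro h6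
    have h1 : ‖((r:ℂ)*y)^6‖ = 1 := by rw [h6, norm_one]
    rw [norm_pow] at h1
    have h2 : ‖(r:ℂ)*y‖ = 1 := (pow_eq_one_iff_of_nonneg (norm_nonneg _) (by norm_num)).mp h1
    rw [norm_mul, hn] at h2
    have h3 : ‖y⁻¹‖ = r := by
      rw [norm_inv]
      exact (eq_inv_of_mul_eq_one_left h2).symm
    have := (h y hy).2.1
    linarith

theorem exists_B (l : List ℂ) (hl : gN l ≠ 0) (n : ℕ) : ∃ B : List ℂ, B.length = n ∧ NZ B ∧
    gN (B ++ l) ≠ 0 := by
  induction n with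
  | zero => exact ⟨[], rfl, NZ_nil, hl⟩
  | succ n ih =>
    obtain ⟨B, h1, h2, h3⟩ := ih
    obtain ⟨z, hz, hz6, hR⟩ := exists_RR (B ++ l)
    refine ⟨z :: B, by rw [List.length_cons, h1], NZ_cons hz h2, ?_⟩
    rw [gN_ne] at h3 ⊢
    rw [List.cons_append]
    refine ⟨?_, List.pairwise_cons.2 ⟨hR, h3.2⟩⟩
    intro y hy
    rcases List.mem_cons.1 hy with rfl | hy
    · exact hz6
    · exact h3.1 y hy

theorem gN_X {ι : Type} {x : ι → ℂ} (hg : Gen x) (s : Finset ι) : gN (s.toList.map x) ≠ 0 := by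
  rw [gN_ne]
  constructor
  · intro z hz
    rw [List.mem_map] at hz
    obtain ⟨i, -, rfl⟩ := hz
    exact (hg.1 i).2
  · rw [List.pairwise_map]
    exact (Finset.nodup_toList s).imp fun {i j} hij => hg.2 i j hij

theorem exists_w {ι : Type} {x : ι → ℂ} (hg : Gen x) (s : Finset ι) :
    ∃ w : ℂ, w ≠ 0 ∧ gN (w :: s.toList.map x) ≠ 0 := by
  obtain ⟨B, h1, h2, h3⟩ := exists_B _ (gN_X hg s) 1
  obtain ⟨w, rfl⟩ := List.length_eq_one_iff.1 h1
  exact ⟨w, h2 w List.mem_cons_self, h3⟩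

/-- the zeros of generic data are distinct -/
theorem nodup_flat (l : List (ℂ × List ℂ)) (h0 : ∀ p ∈ l, p.1 ≠ 0)
    (h1 : ∀ p ∈ l, p.2.Nodup) (h2 : ∀ p ∈ l, ∀ y ∈ p.2, y^6 = p.1^6 ∨ y^6 * p.1^6 = 1)
    (h3 : l.Pairwise (fun p p' => RR p.1 p'.1)) : (l.flatMap (fun p => p.2)).Nodup := by
  rw [List.nodup_flatMap]
  refine ⟨h1, ?_⟩
  refine List.Pairwise.imp_of_mem ?_ h3
  intro p p' hp hp' hR y hy hy'
  have k1 := h2 p hp y hy
  have k2 := h2 p' hp' y hy'
  obtain ⟨r1, r2⟩ := hR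
  rw [mul_pow] at r2
  have n1 : p.1^6 ≠ 0 := pow_ne_zero _ (h0 p hp)
  have n2 : p'.1^6 ≠ 0 := pow_ne_zero _ (h0 p' hp')
  rcases k1 with k1 | k1 <;> rcases k2 with k2 | k2
  · exact r1 (k1.symm.trans k2)
  · exact r2 (by rw [← k1]; exact k2)
  · exact r2 (by rw [← k2, mul_comm]; exact k1)
  · apply r1
    have : y^6 * p.1^6 = y^6 * p'.1^6 := by rw [k1, k2]
    have hy0 : y^6 ≠ 0 := by
      intro h
      rw [h, zero_mul] at k1
      exact zero_ne_one k1
    exact mul_left_cancel₀ hy0 this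

/-- counting zeros -/
theorem count {F : ℂ[X]} {Z : List ℂ} {n : ℕ} (h1 : F.natDegree ≤ n) (h0 : F.coeff 0 = 0)
    (hZ : Z.Nodup) (hZ0 : ∀ z ∈ Z, z ≠ 0) (hn : n ≤ Z.length) (h : ∀ z ∈ Z, F.eval z = 0) :
    F = 0 := by
  classical
  have hnd : (0 :: Z).Nodup := by
    rw [List.nodup_cons]
    exact ⟨fun h => hZ0 0 h rfl, hZ⟩
  refine Polynomial.eq_zero_of_natDegree_lt_card_of_eval_eq_zero' F (0 :: Z).toFinset ?_ ?_
  · intro z hz
    rw [List.mem_toFinset] at hz
    rcases List.mem_cons.1 hz with rfl | hz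
    · rw [← coeff_zero_eq_eval_zero, h0]
    · exact h z hz
  · rw [List.toFinset_card_of_nodup hnd, List.length_cons]
    omega

theorem sq_of6 {z : ℂ} (h6 : z^6 ≠ 1) (c : ℂ) (hc : c^3 = 1) : z * z ≠ c := by
  intro h
  apply h6
  calc z^6 = (z*z)^3 := by ring
    _ = 1 := by rw [h, hc]

theorem nodup2 {z : ℂ} (hz : z ≠ 0) (h6 : z^6 ≠ 1) (c : ℂ) (hc : c ≠ 0) :
    [c * z, c * z⁻¹].Nodup := by
  rw [List.nodup_cons, List.mem_singleton]
  refine ⟨?_, List.nodup_singleton _⟩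
  intro h
  have h1 : z = z⁻¹ := mul_left_cancel₀ hc h
  have h2 : z * z = 1 := by
    nth_rw 2 [h1]
    exact mul_inv_cancel₀ hz
  exact sq_of6 h6 1 (one_pow _) h2

theorem nodup4 {z : ℂ} (hz : z ≠ 0) (h6 : z^6 ≠ 1) :
    [z, z⁻¹, q^2 * z, q^2 * z⁻¹].Nodup := by
  have hq2 : q^2 ≠ 0 := pow_ne_zero _ q_ne_zero
  have h3 := q_cube
  have hq21 : q^2 ≠ 1 := Pool.Agent.NH38.Fork.M4.q2_ne_one
  have e1 : z ≠ z⁻¹ := by
    intro h
    have h2 : z * z = 1 := by
      nth_rw 2 [h]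
      exact mul_inv_cancel₀ hz
    exact sq_of6 h6 1 (one_pow _) h2
  have e2 : z ≠ q^2 * z := by
    intro h
    apply hq21
    have : 1 * z = q^2 * z := by rw [one_mul]; exact h
    exact (mul_right_cancel₀ hz this).symm
  have e3 : z ≠ q^2 * z⁻¹ := by
    intro h
    have h2 : z * z = q^2 := by
      nth_rw 2 [h]
      field_simp
    refine sq_of6 h6 (q^2) ?_ h2
    calc (q^2)^3 = (q^3)^2 := by ring
      _ = 1 := by rw [h3, one_pow]
  have e4 : z⁻¹ ≠ q^2 * z := by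
    intro h
    have h2 : z * z = q := by
      have : q * (z * z⁻¹) = q * (z * (q^2 * z)) := by rw [← h]
      rw [mul_inv_cancel₀ hz, mul_one] at this
      rw [this]
      linear_combination (-(z*z)) * h3
    exact sq_of6 h6 q h3 h2
  have e5 : z⁻¹ ≠ q^2 * z⁻¹ := by
    intro h
    apply hq21
    have : 1 * z⁻¹ = q^2 * z⁻¹ := by rw [one_mul]; exact h
    exact (mul_right_cancel₀ (inv_ne_zero hz) this).symm
  have e6 : q^2 * z ≠ q^2 * z⁻¹ := by
    intro h
    exact e1 (mul_left_cancel₀ hq2 h)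
  simp only [List.nodup_cons, List.mem_cons, List.not_mem_nil, or_false, not_or, List.nodup_nil,
    not_false_eq_true, and_true]
  exact ⟨⟨e1, e2, e3⟩, ⟨e4, e5⟩, e6⟩

variable {ι : Type} {x : ι → ℂ}

open Classical in
/-- generic vanishing -/
theorem gen_zero (hwid1 : S1_wid) (hwid : S_wid) (htt : S_ttwid) (hM : S_M)
    (hn : S1_node) (hpX : S1_permX) (hiX : S1_invX) (hP : S1_perm) (hp0 : S_perm) (hg : Gen x)
    (s : Finset ι) {A B : List ℂ} (hA : Odd A.length) (hB : Odd B.length)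
    (hAB : A.length ≤ B.length) (zA : NZ A) (zB : NZ B)
    {w : ℂ} (hw : w ≠ 0) (hgen : gN (B ++ (w :: s.toList.map x)) ≠ 0)
    (ih : ∀ i ∈ s, ∀ v, v ≠ 0 → DD1 x (s.erase i) A B w v = 0)
    (hBZ : ∀ (ζ : ℂ) (B' : List ℂ), B.Perm (ζ :: B') → DD1 x s A (ζ :: B') w (q * ζ) = 0 ∧
      DD1 x s A (ζ :: B') w (q * ζ⁻¹) = 0) {v : ℂ} (hv : v ≠ 0) : DD1 x s A B w v = 0 := by
  have hx : ∀ i, x i ≠ 0 := fun i => (hg.1 i).1
  have hq0 : (q:ℂ) ≠ 0 := q_ne_zero
  have hq2 : (q:ℂ)^2 ≠ 0 := pow_ne_zero _ q_ne_zero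
  have h6 : (q:ℂ)^6 = 1 := Pool.Agent.NH38.Step.q6
  have h26 : ((q:ℂ)^2)^6 = 1 := Pool.Agent.NH38.Step.q26
  obtain ⟨F, hF1, hF0, hF⟩ := DD1_wid hwid1 hwid htt hM hg s hA hB zA zB hw
  rw [gN_ne] at hgen
  obtain ⟨g1, g2⟩ := hgen
  set l : List (ℂ × List ℂ) := B.map (fun ζ => (ζ, [q * ζ, q * ζ⁻¹])) ++
    ((w, [1 * w, 1 * w⁻¹]) :: (s.toList.map x).map (fun z => (z, [z, z⁻¹, q^2 * z, q^2 * z⁻¹])))
    with hl
  have hl1 : l.map Prod.fst = B ++ (w :: s.toList.map x) := by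
    rw [hl, List.map_append, List.map_map, List.map_cons, List.map_map]
    congr 1
    · exact List.map_id' B
    · congr 1
      exact List.map_id' _
  have hcases : ∀ p ∈ l, (∃ ζ ∈ B, p = (ζ, [q * ζ, q * ζ⁻¹])) ∨ p = (w, [1 * w, 1 * w⁻¹]) ∨
      ∃ i ∈ s, p = (x i, [x i, (x i)⁻¹, q^2 * x i, q^2 * (x i)⁻¹]) := by
    intro p hp
    rw [hl, List.mem_append, List.mem_map, List.mem_cons, List.mem_map] at hp
    rcases hp with ⟨ζ, h1, h2⟩ | hp | ⟨z, h1, h2⟩
    · exact Or.inl ⟨ζ, h1, h2.symm⟩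
    · exact Or.inr (Or.inl hp)
    · rw [List.mem_map] at h1
      obtain ⟨i, h3, h4⟩ := h1
      exact Or.inr (Or.inr ⟨i, Finset.mem_toList.1 h3, by rw [h4]; exact h2.symm⟩)
  have hl0 : ∀ p ∈ l, p.1 ≠ 0 := by
    intro p hp
    rcases hcases p hp with ⟨ζ, h1, rfl⟩ | rfl | ⟨i, h1, rfl⟩
    · exact zB ζ h1
    · exact hw
    · exact hx i
  have hl6 : ∀ p ∈ l, p.1^6 ≠ 1 := by
    intro p hp
    apply g1
    rw [← hl1]
    exact List.mem_map_of_mem hp
  have hnd : (l.flatMap (fun p => p.2)).Nodup := by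
    refine nodup_flat l hl0 ?_ ?_ ?_
    · intro p hp
      have k0 := hl0 p hp
      have k6 := hl6 p hp
      rcases hcases p hp with ⟨ζ, h1, rfl⟩ | rfl | ⟨i, h1, rfl⟩
      · exact nodup2 k0 k6 q hq0
      · exact nodup2 k0 k6 1 one_ne_zero
      · exact nodup4 k0 k6
    · intro p hp y hy
      have k0 := hl0 p hp
      have k2 : ∀ z : ℂ, z ≠ 0 → z⁻¹^6 * z^6 = 1 := by
        intro z hz
        rw [← mul_pow, inv_mul_cancel₀ hz, one_pow]
      rcases hcases p hp with ⟨ζ, h1, rfl⟩ | rfl | ⟨i, h1, rfl⟩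
      · simp only [List.mem_cons, List.not_mem_nil, or_false] at hy
        rcases hy with rfl | rfl
        · left; rw [mul_pow, h6, one_mul]
        · right; rw [mul_pow, h6, one_mul]; exact k2 _ k0
      · simp only [List.mem_cons, List.not_mem_nil, or_false, one_mul] at hy
        rcases hy with rfl | rfl
        · left; rfl
        · right; exact k2 _ k0
      · simp only [List.mem_cons, List.not_mem_nil, or_false] at hy
        rcases hy with rfl | rfl | rfl | rfl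
        · left; rfl
        · right; exact k2 _ k0
        · left; rw [mul_pow, h26, one_mul]
        · right; rw [mul_pow, h26, one_mul]; exact k2 _ k0
    · rw [← hl1, List.pairwise_map] at g2
      exact g2
  have hlen : A.length + B.length + 4 * s.card + 1 ≤ (l.flatMap (fun p => p.2)).length := by
    rw [hl, List.flatMap_append, List.length_append, List.flatMap_cons, List.length_append]
    have e1 : ((B.map (fun ζ => (ζ, [q * ζ, q * ζ⁻¹]))).flatMap (fun p => p.2)).length =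
        2 * B.length := by
      clear * -
      induction B with
      | nil => rfl
      | cons z B ih =>
        rw [List.map_cons, List.flatMap_cons, List.length_append, ih]
        simp
        ring
    have e2 : ∀ Y : List ℂ, ((Y.map (fun z => (z, [z, z⁻¹, q^2 * z, q^2 * z⁻¹]))).flatMap
        (fun p => p.2)).length = 4 * Y.length := by
      intro Y
      induction Y with
      | nil => rfl
      | cons z B ih =>
        rw [List.map_cons, List.flatMap_cons, List.length_append, ih]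
        simp
        ring
    rw [e1, e2, List.length_map, Finset.length_toList]
    simp only [List.length_cons, List.length_nil]
    omega
  -- nodes
  have hnode : ∀ i ∈ s, ∀ y, y ≠ 0 → om (x i) = om y → DD1 x s A B w (q^2 * y⁻¹) = 0 := by
    intro i hi y hy hom
    have h1 := node hn hpX hiX hg hi hy hom hA hB zA zB hw
    rw [ih i hi y hy, mul_zero] at h1
    refine (mul_eq_zero.mp h1).resolve_right ?_
    refine Finset.prod_ne_zero_iff.mpr fun j hj => ?_
    rw [← hom]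
    exact om_sub_ne hg (Finset.ne_of_mem_erase hj).symm
  have hzero : ∀ p ∈ l, ∀ y ∈ p.2, y ≠ 0 ∧ DD1 x s A B w y = 0 := by
    intro p hp y hy
    have k0 := hl0 p hp
    rcases hcases p hp with ⟨ζ, h1, rfl⟩ | rfl | ⟨i, h1, rfl⟩
    · obtain ⟨B1, B2, hB12⟩ := List.append_of_mem h1
      have hperm : B.Perm (ζ :: (B1 ++ B2)) := by rw [hB12]; exact List.perm_middle
      have hz := hBZ ζ _ hperm
      have hy0 : y ≠ 0 := by
        simp only [List.mem_cons, List.not_mem_nil, or_false] at hy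
        rcases hy with rfl | rfl
        · exact mul_ne_zero hq0 k0
        · exact mul_ne_zero hq0 (inv_ne_zero k0)
      refine ⟨hy0, ?_⟩
      rw [DD1_perm hP hp0 hx s hA hB zA zB (List.Perm.refl A) hperm hw hy0]
      simp only [List.mem_cons, List.not_mem_nil, or_false] at hy
      rcases hy with rfl | rfl
      · exact hz.1
      · exact hz.2
    · simp only [List.mem_cons, List.not_mem_nil, or_false, one_mul] at hy
      rcases hy with rfl | rfl
      · exact ⟨k0, zero_w s A B _⟩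
      · exact ⟨inv_ne_zero k0, zero_w' s A B k0⟩
    · simp only [List.mem_cons, List.not_mem_nil, or_false] at hy
      rcases hy with rfl | rfl | rfl | rfl
      · exact ⟨k0, zero_x hg h1 k0 rfl hA hB hw⟩
      · exact ⟨inv_ne_zero k0, zero_x hg h1 (inv_ne_zero k0) (om_inv _).symm hA hB hw⟩
      · refine ⟨mul_ne_zero hq2 k0, ?_⟩
        have := hnode i h1 (x i)⁻¹ (inv_ne_zero k0) (om_inv _).symm
        rwa [inv_inv] at this
      · exact ⟨mul_ne_zero hq2 (inv_ne_zero k0), hnode i h1 (x i) k0 rfl⟩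
  have hFz : F = 0 := by
    refine count hF1 hF0 hnd ?_ hlen ?_
    · intro z hz
      rw [List.mem_flatMap] at hz
      obtain ⟨p, hp, hz⟩ := hz
      exact (hzero p hp z hz).1
    · intro z hz
      rw [List.mem_flatMap] at hz
      obtain ⟨p, hp, hz⟩ := hz
      obtain ⟨k1, k2⟩ := hzero p hp z hz
      rw [← hF z k1, k2, zero_mul]
  have := hF v hv
  rw [hFz, eval_zero] at this
  exact (mul_eq_zero.mp this).resolve_right (pow_ne_zero _ hv)

end M

end Pool.Agent.H966.T1
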