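import Pool.Agent.H966.T1.Mg

/-!
Forked channels of even width (helper966), task M, part h: regularity and density.
-/

namespace Pool.Agent.H966.T1

open Pool.Agent.H988R2.Perc hiding X
open Pool.Agent.NH38.Step (om prs EE zs prF Gen on cardy pom bev EE_fac EE_comm om_inv om_q2_inv
  om_q_inv pom_cons pom_app zs_perm zs_rec zs_mul refl_coeff)
open Pool.Agent.NH38.Fork (zo mm na cst gh Dh G T D U tt gF tF NZ ev LR UL Reg Lau PermInv cc gm
  S_DET S_DUAL S_perm S_invB S_wid S_ttwid S_M FP S_regz S_regG S_DEN fn fn_length fn_ev fn_UL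
  left_dvd right_dvd)
open Pool.Agent.NH38.Fork.M7 (NZ_app NZ_cons NZ_nil NZ_map NZ_prF NZ_prs NZ_perm zo_perm zo_inv
  zo_rec pom_prs pom_toList pom_prF)
open Pool.Agent.NH38.Fork.M2a (sub_inv_ne gm_mul om_sub_ne)
open Pool.Agent.NH38.Fork.M8 (cn cn_at cn_length cn_UL app_UL cons_UL reg_zs reg_zs2 reg_gF
  NZ_on on_length zs_on_ne exists_om_ne)
open Polynomial

namespace M

section Reg

variable {ι : Type} {x : ι → ℂ} {P : ℂ[X]}
variable (hz : S_regz) (hG : S_regG) (hR : S1_reg)
variable {A B : List (ℂ → ℂ → ℂ)} {f h k : ℂ → ℂ → ℂ}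

include hz in
theorem reg_zo1 (s : List ℂ) (hs : Even s.length) (hA : Odd A.length) (hB : Odd B.length)
    (uA : ∀ g ∈ A, UL P g) (uB : ∀ g ∈ B, UL P g) (uf : UL P f) :
    LR P (fun t w => zo (f t w :: (A.map (fun g => g t w) ++
      (B.map (fun g => g t w) ++ s)))) := by
  have h := (hz P (f :: (A ++ (B ++ cn s)))
    (cons_UL uf (app_UL uA (app_UL uB (cn_UL s))))).2 (by
    simp only [List.length_cons, List.length_append, cn_length]
    exact (hA.add_odd (hB.add_even hs)).add_one)
  refine h.congr fun t w _ _ => ?_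
  simp only [List.map_cons, List.map_append, cn_at]

include hz in
theorem reg_zo3 (s : List ℂ) (hs : Even s.length) (hA : Odd A.length) (hB : Odd B.length)
    (uA : ∀ g ∈ A, UL P g) (uB : ∀ g ∈ B, UL P g) (uf : UL P f) (uh : UL P h) (uk : UL P k) :
    LR P (fun t w => zo (f t w :: h t w :: k t w :: (A.map (fun g => g t w) ++
      (B.map (fun g => g t w) ++ s)))) := by
  have h := (hz P (f :: h :: k :: (A ++ (B ++ cn s)))
    (cons_UL uf (cons_UL uh (cons_UL uk (app_UL uA (app_UL uB (cn_UL s))))))).2 (by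
    simp only [List.length_cons, List.length_append, cn_length]
    exact (hA.add_odd (hB.add_even hs)).add_one.add_one.add_one)
  refine h.congr fun t w _ _ => ?_
  simp only [List.map_cons, List.map_append, cn_at]

include hz in
theorem reg_zs2' (s : List ℂ) (hs : Even s.length) (hA : Odd A.length) (hB : Odd B.length)
    (uA : ∀ g ∈ A, UL P g) (uB : ∀ g ∈ B, UL P g) (uf : UL P f) (uh : UL P h) :
    LR P (fun t w => zs (f t w :: h t w :: (A.map (fun g => g t w) ++
      (B.map (fun g => g t w) ++ s)))) := by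
  have h := (hz P (f :: h :: (A ++ (B ++ cn s)))
    (cons_UL uf (cons_UL uh (app_UL uA (app_UL uB (cn_UL s)))))).1 (by
    simp only [List.length_cons, List.length_append, cn_length]
    exact (hA.add_odd (hB.add_even hs)).add_one.add_one)
  refine h.congr fun t w _ _ => ?_
  simp only [List.map_cons, List.map_append, cn_at]

include hz in
theorem reg_mm (hA : Odd A.length) (hB : Odd B.length)
    (uA : ∀ g ∈ A, UL P g) (uB : ∀ g ∈ B, UL P g) :
    LR P (fun t w => mm (A.map (fun g => g t w)) (B.map (fun g => g t w))) :=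
  ((hz P A uA).2 hA).mul ((hz P B uB).2 hB)

include hz hR in
theorem reg_hF (s : Finset ι) (hA : Odd A.length) (hB : Odd B.length)
    (uA : ∀ g ∈ A, UL P g) (uB : ∀ g ∈ B, UL P g) (uf : UL P f) (uh : UL P h) :
    LR P (fun t w => hF x s (A.map (fun g => g t w)) (B.map (fun g => g t w))
      (f t w) (h t w)) := by
  have h1 := hR P A (cn (s.toList.map x)) B f h hA hB uA (cn_UL _) uB uf uh
  have h2 := (reg_mm hz hA hB uA uB).mul (reg_zs2' (P := P) hz (prF x s) (prF_even x s) hA hB uA
    uB uf uh)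
  refine (h2.sub h1).congr fun t w _ _ => ?_
  unfold hF
  simp only [cn_at]

theorem reg_K0 (uf : UL P f) (uh : UL P h) :
    LR P (fun t w => (f t w - q * h t w) * (1 - (f t w * h t w)⁻¹)) :=
  (uf.1.sub (uh.1.smul q)).mul ((LR.const 1).sub (uf.mul uh).2)

theorem reg_Kk (z : ℂ) (uf : UL P f) (uh : UL P h) :
    LR P (fun t w => Kk (f t w) (h t w) z) := by
  have h1 : LR P (fun t w => (f t w - q * z) * (1 - (f t w * z)⁻¹)) :=
    (uf.1.sub (LR.const _)).mul ((LR.const 1).sub (uf.mul (UL.const z)).2)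
  have h2 : LR P (fun t w => (z - q * h t w) * (1 - (z * h t w)⁻¹)) :=
    ((LR.const z).sub (uh.1.smul q)).mul ((LR.const 1).sub ((UL.const z).mul uh).2)
  exact h1.mul h2

include hG in
theorem reg_cc1 (i : ι) (hA : Odd A.length) (hB : Odd B.length)
    (uA : ∀ g ∈ A, UL P g) (uB : ∀ g ∈ B, UL P g) (uf : UL P f) (uh : UL P h) :
    LR P (fun t w => cc1 (gF x ∅ (A.map (fun g => g t w)) (B.map (fun g => g t w)))
      (f t w) (h t w) (x i)) := by
  have k2 := reg_gF (x := x) hG ∅ hA hB uA uB (UL.const (P := P) (x i))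
  have k3 := reg_gF (x := x) hG ∅ hA hB uA uB (UL.const (P := P) (x i)⁻¹)
  have m1 := reg_Kk (P := P) (x i) uf uh
  have m2 := reg_Kk (P := P) (x i)⁻¹ uf uh
  refine (((LR.const ((1 - q^2) / 3)).mul ((m1.mul k2).sub (m2.mul k3))).mul
    (LR.const ((x i - (x i)⁻¹)⁻¹))).congr fun t w _ _ => ?_
  unfold cc1
  simp only [div_eq_mul_inv]

include hz hG hR in
theorem reg_DD1 (s : Finset ι) (hA : Odd A.length) (hB : Odd B.length)
    (uA : ∀ g ∈ A, UL P g) (uB : ∀ g ∈ B, UL P g) (uf : UL P f) (uh : UL P h) :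
    LR P (fun t w => DD1 x s (A.map (fun g => g t w)) (B.map (fun g => g t w))
      (f t w) (h t w)) := by
  classical
  have of := uf.om
  have oh := uh.om
  have hEE : ∀ {g : ℂ → ℂ → ℂ} (_ : LR P g) (c : ℂ), LR P (fun t w => EE (g t w) c) := by
    intro g hg c
    refine ((((hg.pow 2).add (hg.mul (LR.const c))).add
        ((LR.const c).pow 2)).sub (LR.const 3)).congr fun t w _ _ => ?_
    rfl
  have e0 : LR P (fun t w => zs (A.map (fun g => g t w) ++ B.map (fun g => g t w))) :=
    (reg_zs hz [] (by simp) hA hB uA uB).congr fun t w _ _ => by rw [List.append_nil]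
  have e1 : LR P (fun t w => ∏ j ∈ s, (om (f t w) - om (x j)) * (om (h t w) - om (x j))) :=
    LR.prod s (fun j t w => (om (f t w) - om (x j)) * (om (h t w) - om (x j)))
      fun j _ => (of.sub (LR.const _)).mul (oh.sub (LR.const _))
  have e2 := reg_hF (x := x) hz hR s hA hB uA uB uf uh
  have T1 := (((of.sub oh).mul e1).mul e0).mul e2
  have e3 : LR P (fun t w => ∏ j ∈ s, EE (om (f t w)) (om (x j)) * (om (h t w) - om (x j))) :=
    LR.prod s (fun j t w => EE (om (f t w)) (om (x j)) * (om (h t w) - om (x j)))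
      fun j _ => (hEE of _).mul (oh.sub (LR.const _))
  have e4 : LR P (fun t w => ∏ j ∈ s, EE (om (h t w)) (om (x j)) * (om (f t w) - om (x j))) :=
    LR.prod s (fun j t w => EE (om (h t w)) (om (x j)) * (om (f t w) - om (x j)))
      fun j _ => (hEE oh _).mul (of.sub (LR.const _))
  have e5 := reg_gF (x := x) hG ∅ hA hB uA uB uf
  have e6 := reg_gF (x := x) hG ∅ hA hB uA uB uh
  have e7 := reg_zo1 (P := P) hz (prF x s) (prF_even x s) hA hB uA uB uf
  have e8 := reg_zo1 (P := P) hz (prF x s) (prF_even x s) hA hB uA uB uh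
  have T2 := (reg_K0 uf uh).mul (((e3.mul e5).mul e8).sub ((e4.mul e6).mul e7))
  have T3 := LR.sum s (fun i t w => gm x s i *
        (∏ j ∈ s.erase i, (om (f t w) - om (x j)) * (om (h t w) - om (x j))) *
        cc1 (gF x ∅ (A.map (fun g => g t w)) (B.map (fun g => g t w))) (f t w) (h t w) (x i) *
        zo (f t w :: h t w :: x i :: (A.map (fun g => g t w) ++
          (B.map (fun g => g t w) ++ prF x (s.erase i))))) (by
      intro i _
      have k1 : LR P (fun t w => ∏ j ∈ s.erase i,
          (om (f t w) - om (x j)) * (om (h t w) - om (x j))) :=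
        LR.prod _ (fun j t w => (om (f t w) - om (x j)) * (om (h t w) - om (x j)))
          fun j _ => (of.sub (LR.const _)).mul (oh.sub (LR.const _))
      exact (((LR.const (gm x s i)).mul k1).mul (reg_cc1 (x := x) hG i hA hB uA uB uf uh)).mul
        (reg_zo3 (P := P) hz (prF x (s.erase i)) (prF_even x _) hA hB uA uB uf uh
          (UL.const (x i))))
  refine (T1.sub ((T2.add ((of.sub oh).mul T3)).smul q)).congr fun t w _ _ => ?_
  unfold DD1
  rfl

include hz hR in
theorem reg_FP1 (s : Finset ι) (hA : Odd A.length) (hB : Odd B.length)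
    (uA : ∀ g ∈ A, UL P g) (uB : ∀ g ∈ B, UL P g) (uf : UL P f) (uh : UL P h) :
    LR P (fun t w => FP1 x (hF x) s (A.map (fun g => g t w)) (B.map (fun g => g t w))
      (f t w) (h t w)) := by
  classical
  have of := uf.om
  have e1 : LR P (fun t w => ∏ j ∈ s, (om (f t w) - om (x j))) :=
    LR.prod s (fun j t w => (om (f t w) - om (x j))) fun j _ => (of.sub (LR.const _))
  have e2 : LR P (fun t w => zo (h t w :: (A.map (fun g => g t w) ++ B.map (fun g => g t w)))) :=
    (reg_zo1 (P := P) hz [] (by simp) hA hB uA uB uh).congr fun t w _ _ => by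
      rw [List.append_nil]
  have e3 := reg_hF (x := x) hz hR s hA hB uA uB uf uh
  have e4 : LR P (fun t w => ∏ j ∈ s, EE (om (f t w)) (om (x j))) :=
    LR.prod s (fun j t w => EE (om (f t w)) (om (x j))) fun j _ => by
      refine ((((of.pow 2).add (of.mul (LR.const (om (x j))))).add
        ((LR.const (om (x j))).pow 2)).sub
        (LR.const 3)).congr fun t w _ _ => ?_
      rfl
  have e5 := reg_zo1 (P := P) hz (prF x s) (prF_even x s) hA hB uA uB uh
  have e6 := reg_hF (x := x) hz hR ∅ hA hB uA uB uf uh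
  have e7 := LR.sum s (fun i t w => gm x s i * (∏ j ∈ s.erase i, (om (f t w) - om (x j))) *
      cc (fun z => hF x ∅ (A.map (fun g => g t w)) (B.map (fun g => g t w)) z (h t w)) (f t w)
        (x i) * zo (f t w :: x i :: h t w :: (A.map (fun g => g t w) ++
        (B.map (fun g => g t w) ++ prF x (s.erase i))))) (by
    intro i _
    have k1 : LR P (fun t w => ∏ j ∈ s.erase i, (om (f t w) - om (x j))) :=
      LR.prod _ (fun j t w => (om (f t w) - om (x j))) fun j _ => (of.sub (LR.const _))
    have k2 := reg_hF (x := x) hz hR ∅ hA hB uA uB (UL.const (P := P) (x i)) uh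
    have k3 := reg_hF (x := x) hz hR ∅ hA hB uA uB (UL.const (P := P) (x i)⁻¹) uh
    have k5 : LR P (fun t w => cc (fun z => hF x ∅ (A.map (fun g => g t w))
        (B.map (fun g => g t w)) z (h t w)) (f t w) (x i)) := by
      have m1 : LR P (fun t w => (f t w - q * x i) * (1 - (f t w)⁻¹ * (x i)⁻¹)) :=
        (uf.1.sub (LR.const _)).mul ((LR.const 1).sub (uf.2.mul (LR.const _)))
      have m2 : LR P (fun t w => (f t w - q * (x i)⁻¹) * (1 - (f t w)⁻¹ * x i)) :=
        (uf.1.sub (LR.const _)).mul ((LR.const 1).sub (uf.2.mul (LR.const _)))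
      refine (((LR.const ((1 - q^2) / 3)).mul ((m1.mul k2).sub (m2.mul k3))).mul
        (LR.const ((x i - (x i)⁻¹)⁻¹))).congr fun t w _ _ => ?_
      unfold Pool.Agent.NH38.Fork.cc
      simp only [mul_inv, div_eq_mul_inv]
    exact (((LR.const (gm x s i)).mul k1).mul k5).mul
      (reg_zo3 (P := P) hz (prF x (s.erase i)) (prF_even x _) hA hB uA uB uf (UL.const (x i)) uh))
  refine ((((e1.mul e2).mul e3).sub ((e4.mul e5).mul e6)).add e7).congr fun t w _ _ => ?_
  unfold FP1
  rfl

theorem reg_gN : ∀ (L : List (ℂ → ℂ → ℂ)), (∀ g ∈ L, LR P g) →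
    LR P (fun t w => gN (L.map (fun g => g t w)))
  | [], _ => (LR.const 1).congr fun t w _ _ => rfl
  | (g :: L), hL => by
    have hg := hL g List.mem_cons_self
    have ih := reg_gN L fun k hk => hL k (List.mem_cons_of_mem _ hk)
    have h1 := LR.list_prod (P := P) L (fun k t w => ((g t w)^6 - (k t w)^6) *
      ((g t w * k t w)^6 - 1)) fun k hk => by
        have hk' := hL k (List.mem_cons_of_mem _ hk)
        exact ((hg.pow 6).sub (hk'.pow 6)).mul (((hg.mul hk').pow 6).sub (LR.const 1))
    refine ((((hg.pow 6).sub (LR.const 1)).mul h1).mul ih).congr fun t w _ _ => ?_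
    rw [List.map_cons, gN, List.map_map]
    rfl

end Reg

end M

end Pool.Agent.H966.T1
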