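import Pool.Agent.H966.T1.Mh

/-!
Forked channels of even width (helper966), task M, part i: zeros at `v = q ζ`, `ζ ∈ B`.
-/

namespace Pool.Agent.H966.T1

open Pool.Agent.H988R2.Perc hiding X
open Pool.Agent.NH38.Step (om prs EE zs prF Gen on cardy pom bev EE_fac EE_comm om_inv om_q2_inv
  om_q_inv pom_cons pom_app pom_perm zs_perm zs_rec zs_mul refl_coeff)
open Pool.Agent.NH38.Fork (zo mm na cst gh Dh G T D U tt gF tF NZ ev LR UL Reg Lau PermInv cc gm
  S_DET S_DUAL S_perm S_invB S_wid S_ttwid S_M FP S_regz S_regG S_DEN fn fn_length fn_ev fn_UL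
  left_dvd right_dvd)
open Pool.Agent.NH38.Fork.M7 (NZ_app NZ_cons NZ_nil NZ_map NZ_prF NZ_prs NZ_perm zo_perm zo_inv
  zo_rec pom_prs pom_toList pom_prF)
open Pool.Agent.NH38.Fork.M2a (sub_inv_ne gm_mul om_sub_ne)
open Pool.Agent.NH38.Fork.M8 (cn cn_at cn_length cn_UL app_UL cons_UL reg_zs reg_zs2 reg_gF
  NZ_on on_length zs_on_ne exists_om_ne)
open Polynomial

namespace M

variable {ι : Type} {x : ι → ℂ}

/-- the amplitude for a finite family of pairs -/
noncomputable def eF (x : ι → ℂ) (s : Finset ι) (A B : List ℂ) (w v : ℂ) : ℂ :=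
  eh A (s.toList.map x) B w v

/-- the total mass for a finite family of pairs -/
noncomputable def mF (x : ι → ℂ) (s : Finset ι) (A B : List ℂ) (w v : ℂ) : ℂ :=
  mm A B * zs (w :: v :: (A ++ (B ++ prF x s)))

theorem cc_sub (g h : ℂ → ℂ) (w z : ℂ) : cc (fun y => g y - h y) w z = cc g w z - cc h w z := by
  unfold Pool.Agent.NH38.Fork.cc
  ring

theorem FP1_split (s : Finset ι) (A B : List ℂ) (w v : ℂ) :
    FP1 x (hF x) s A B w v = FP1 x (mF x) s A B w v - FP1 x (eF x) s A B w v := by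
  classical
  have e : ∀ (r : Finset ι) (z : ℂ), hF x r A B z v = mF x r A B z v - eF x r A B z v :=
    fun r z => rfl
  unfold FP1
  simp only [e, cc_sub]
  have e2 : (∑ i ∈ s, gm x s i * (∏ j ∈ s.erase i, (om w - om (x j))) *
      (cc (fun z => mF x ∅ A B z v) w (x i) - cc (fun z => eF x ∅ A B z v) w (x i)) *
      zo (w :: x i :: v :: (A ++ (B ++ prF x (s.erase i))))) =
      (∑ i ∈ s, gm x s i * (∏ j ∈ s.erase i, (om w - om (x j))) *
      cc (fun z => mF x ∅ A B z v) w (x i) *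
      zo (w :: x i :: v :: (A ++ (B ++ prF x (s.erase i))))) -
      ∑ i ∈ s, gm x s i * (∏ j ∈ s.erase i, (om w - om (x j))) *
      cc (fun z => eF x ∅ A B z v) w (x i) *
      zo (w :: x i :: v :: (A ++ (B ++ prF x (s.erase i)))) := by
    rw [← Finset.sum_sub_distrib]
    exact Finset.sum_congr rfl fun i _ => by ring
  rw [e2]
  ring

theorem cc_sym (g : ℂ → ℂ) {w z : ℂ} (hw : w ≠ 0) (hz : z ≠ 0) (h : z - z⁻¹ ≠ 0)
    (hg : g z⁻¹ = g z) : cc g w z = g z := by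
  unfold Pool.Agent.NH38.Fork.cc
  rw [hg, div_eq_iff h]
  have h2 := q_spec
  have h3 := q_cube
  have e2 : (1 - q^2) * (1 - q) = 3 := by linear_combination h3 - h2
  have e1 : (w - q*z) * (1 - (w*z)⁻¹) - (w - q*z⁻¹) * (1 - w⁻¹*z) = (1 - q) * (z - z⁻¹) := by
    rw [mul_inv]
    field_simp
    ring
  linear_combination ((1 - q^2)/3 * g z) * e1 + (g z * (z - z⁻¹)/3) * e2

theorem FP1_mass (hMZ : S1_MZ) (hg : Gen x) (s : Finset ι) {A B : List ℂ} (hA : Odd A.length)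
    (hB : Odd B.length) (zA : NZ A) (zB : NZ B) {w v : ℂ} (hw : w ≠ 0) (hv : v ≠ 0) :
    FP1 x (mF x) s A B w v = 0 := by
  classical
  have hx : ∀ i, x i ≠ 0 := fun i => (hg.1 i).1
  have hAB : Even (A ++ B).length := by rw [List.length_append]; exact hA.add_odd hB
  have h := hMZ x hg s (v :: (A ++ B)) w (by rw [List.length_cons]; exact hAB.add_one)
    (NZ_cons hv (NZ_app zA zB)) hw
  have e0 : ∀ r : Finset ι, (v :: (A ++ B)) ++ prF x r = v :: (A ++ (B ++ prF x r)) := by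
    intro r
    rw [List.cons_append, List.append_assoc]
  simp only [e0] at h
  have e1 : ∀ z : ℂ, mF x ∅ A B z v = mm A B * zs (z :: v :: (A ++ B)) := by
    intro z
    unfold mF
    rw [prF_empty, List.append_nil]
  have e2 : ∀ i ∈ s, cc (fun z => mF x ∅ A B z v) w (x i) =
      mm A B * zs (x i :: v :: (A ++ B)) := by
    intro i _
    have hxi := sub_inv_ne (hx i) (hg.1 i).2
    rw [cc_sym (fun z => mF x ∅ A B z v) hw (hx i) hxi ?_, e1]
    show mF x ∅ A B (x i)⁻¹ v = mF x ∅ A B (x i) v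
    rw [e1, e1, zs_inv' (by rw [List.length_cons]; exact hAB.add_one) (hx i)]
  have e3 : (∑ i ∈ s, gm x s i * (∏ j ∈ s.erase i, (om w - om (x j))) *
      cc (fun z => mF x ∅ A B z v) w (x i) *
      zo (w :: x i :: v :: (A ++ (B ++ prF x (s.erase i))))) =
      mm A B * ∑ i ∈ s, gm x s i * (∏ j ∈ s.erase i, (om w - om (x j))) *
        zs (x i :: v :: (A ++ B)) * zo (w :: x i :: v :: (A ++ (B ++ prF x (s.erase i)))) := by
    rw [Finset.mul_sum]
    refine Finset.sum_congr rfl fun i hi => ?_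
    rw [e2 i hi]
    ring
  unfold FP1
  rw [e3, e1 w]
  unfold mF
  linear_combination (mm A B) * h

/-! ### the node -/

/-- `zo` at `q ζ, ζ` -/
theorem zo_z {L : List ℂ} (hL : Odd L.length) (zL : NZ L) {ζ : ℂ} (hζ : ζ ≠ 0) :
    zo ((q * ζ) :: ζ :: L) = -(pom (om (q^2 * ζ)) L * zo L) := by
  have hq := q_ne_zero
  have h := zo_rec (q * ζ) L (mul_ne_zero hq hζ) zL hL
  have e1 : q^2 * (q * ζ) = ζ := by rw [← mul_assoc, ← pow_succ, q_cube, one_mul]
  rw [e1, Pool.Agent.NH38.Step.om_qq] at h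
  exact h

theorem zo_zm {A B L : List ℂ} (hA : Odd A.length) (hB : Even B.length) (hL : Even L.length)
    (zA : NZ A) (zB : NZ B) (zL : NZ L) {ζ : ℂ} (hζ : ζ ≠ 0) :
    zo ((q * ζ) :: (A ++ ((ζ :: B) ++ L))) =
      -(pom (om (q^2 * ζ)) (A ++ (B ++ L)) * zo (A ++ (B ++ L))) := by
  have h1 : ((q * ζ) :: (A ++ ((ζ :: B) ++ L))).Perm ((q * ζ) :: ζ :: (A ++ (B ++ L))) :=
    (List.perm_middle (a := ζ) (l₁ := A) (l₂ := B ++ L)).cons _
  have h2 : Odd ((q * ζ) :: (A ++ ((ζ :: B) ++ L))).length := by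
    rw [List.length_cons]
    refine (len2 hA ?_ hL).add_one
    rw [List.length_cons]; exact hB.add_one
  have h3 : Odd (A ++ (B ++ L)).length := by
    rw [List.length_append, List.length_append]
    exact hA.add_even (hB.add hL)
  rw [zo_perm h2 h1, zo_z h3 (NZ_app zA (NZ_app zB zL)) hζ]

theorem zo_zm2 {A B L : List ℂ} (hA : Odd A.length) (hB : Even B.length) (hL : Even L.length)
    (zA : NZ A) (zB : NZ B) (zL : NZ L) {ζ y z : ℂ} (hζ : ζ ≠ 0) (hy : y ≠ 0) (hz : z ≠ 0) :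
    zo (y :: z :: (q * ζ) :: (A ++ ((ζ :: B) ++ L))) =
      -((om (q^2 * ζ) - om y) * ((om (q^2 * ζ) - om z) * pom (om (q^2 * ζ)) (A ++ (B ++ L))) *
        zo (y :: z :: (A ++ (B ++ L)))) := by
  have h1 : (y :: z :: (q * ζ) :: (A ++ ((ζ :: B) ++ L))).Perm
      ((q * ζ) :: ζ :: y :: z :: (A ++ (B ++ L))) := by
    refine (List.perm_middle (a := q * ζ) (l₁ := [y, z]) (l₂ := A ++ ((ζ :: B) ++ L))).trans ?_
    refine List.Perm.cons _ ?_
    have : [y, z] ++ (A ++ ((ζ :: B) ++ L)) = (y :: z :: A) ++ (ζ :: (B ++ L)) := by simp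
    rw [this]
    exact List.perm_middle
  have h3 : Odd (A ++ (B ++ L)).length := by
    rw [List.length_append, List.length_append]
    exact hA.add_even (hB.add hL)
  have h2 : Odd (y :: z :: (q * ζ) :: (A ++ ((ζ :: B) ++ L))).length := by
    rw [h1.length_eq, List.length_cons, List.length_cons, List.length_cons, List.length_cons]
    exact h3.add_one.add_one.add_one.add_one
  rw [zo_perm h2 h1, zo_z ?_ (NZ_cons hy (NZ_cons hz (NZ_app zA (NZ_app zB zL)))) hζ,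
    pom_cons, pom_cons]
  rw [List.length_cons, List.length_cons]
  exact h3.add_one.add_one

open Classical in
/-- the polynomial of the node -/
noncomputable def QQ (x : ι → ℂ) (s : Finset ι) (A B : List ℂ) (w : ℂ) (Rs : ℂ[X]) (R0 : ℂ → ℂ[X]) :
    ℂ[X] :=
  C ((∏ j ∈ s, (om w - om (x j))) * zo (A ++ B)) * Rs -
    C ((∏ j ∈ s, EE (om w) (om (x j))) * zo (A ++ (B ++ prF x s))) * R0 w +
    ∑ i ∈ s, C (gm x s i * (∏ j ∈ s.erase i, (om w - om (x j))) *
      zo (w :: x i :: (A ++ (B ++ prF x (s.erase i))))) *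
      (C ((1 - q^2) / 3 * ((w - q*(x i)) * (1 - (w*(x i))⁻¹)) / (x i - (x i)⁻¹)) * R0 (x i) -
       C ((1 - q^2) / 3 * ((w - q*(x i)⁻¹) * (1 - w⁻¹*(x i))) / (x i - (x i)⁻¹)) * R0 (x i)⁻¹)

theorem QQ_deg {s : Finset ι} {A B : List ℂ} {w : ℂ} {Rs : ℂ[X]} {R0 : ℂ → ℂ[X]} {n : ℕ}
    (h1 : Rs.natDegree ≤ n) (h0 : ∀ z, (R0 z).natDegree ≤ n) :
    (QQ x s A B w Rs R0).natDegree ≤ n := by
  classical
  have hC : ∀ (c : ℂ) (p : ℂ[X]), p.natDegree ≤ n → (C c * p).natDegree ≤ n :=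
    fun c p hp => (natDegree_C_mul_le c p).trans hp
  unfold QQ
  refine natDegree_add_le_of_degree_le ((natDegree_sub_le _ _).trans (max_le (hC _ _ h1)
    (hC _ _ (h0 w)))) (natDegree_sum_le_of_forall_le _ _ fun i _ => ?_)
  exact hC _ _ ((natDegree_sub_le _ _).trans (max_le (hC _ _ (h0 _)) (hC _ _ (h0 _))))

open Classical in
theorem QQ_eval (s : Finset ι) (A B : List ℂ) (w : ℂ) (Rs : ℂ[X]) (R0 : ℂ → ℂ[X]) (u : ℂ) :
    (QQ x s A B w Rs R0).eval u =
      (∏ j ∈ s, (om w - om (x j))) * zo (A ++ B) * Rs.eval u -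
      (∏ j ∈ s, EE (om w) (om (x j))) * zo (A ++ (B ++ prF x s)) * (R0 w).eval u +
      ∑ i ∈ s, gm x s i * (∏ j ∈ s.erase i, (om w - om (x j))) *
        zo (w :: x i :: (A ++ (B ++ prF x (s.erase i)))) *
        cc (fun z => (R0 z).eval u) w (x i) := by
  unfold QQ
  rw [eval_add, eval_sub, eval_mul, eval_mul, eval_C, eval_C, eval_finsetSum]
  congr 1
  refine Finset.sum_congr rfl fun i _ => ?_
  rw [eval_mul, eval_sub, eval_mul, eval_mul, eval_C, eval_C, eval_C]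
  unfold Pool.Agent.NH38.Fork.cc
  ring

theorem cc_smul (g : ℂ → ℂ) (c w z : ℂ) : cc (fun y => c * g y) w z = c * cc g w z := by
  unfold Pool.Agent.NH38.Fork.cc
  ring

theorem cc_congr {g h : ℂ → ℂ} (w z : ℂ) (h1 : g z = h z) (h2 : g z⁻¹ = h z⁻¹) :
    cc g w z = cc h w z := by
  unfold Pool.Agent.NH38.Fork.cc
  rw [h1, h2]

open Classical in
/-- the amplitude part of the formula at `v = q ζ` -/
theorem FP1_node (hg : Gen x) (s : Finset ι) {A B : List ℂ} (hA : Odd A.length)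
    (hB : Even B.length) (zA : NZ A) (zB : NZ B) {w : ℂ} (hw : w ≠ 0)
    {Rs : ℂ[X]} {R0 : ℂ → ℂ[X]}
    (h1 : ∀ ζ : ℂ, ζ ≠ 0 → eh A (s.toList.map x) (ζ :: B) w (q * ζ) =
      pom (om (q^2 * ζ)) (w :: (A ++ (B ++ prs (s.toList.map x)))) * Rs.eval (om ζ))
    (h0 : ∀ z : ℂ, z ≠ 0 → ∀ ζ : ℂ, ζ ≠ 0 → eh A [] (ζ :: B) z (q * ζ) =
      pom (om (q^2 * ζ)) (z :: (A ++ (B ++ prs []))) * (R0 z).eval (om ζ))
    {ζ : ℂ} (hζ : ζ ≠ 0) :
    FP1 x (eF x) s A (ζ :: B) w (q * ζ) =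
      -((pom (om (q^2 * ζ)) (A ++ B))^2 * (∏ j ∈ s, (om (q^2 * ζ) - om (x j)))^2 *
        (om (q^2 * ζ) - om w)) * (QQ x s A B w Rs R0).eval (om ζ) := by
  have hx : ∀ i, x i ≠ 0 := fun i => (hg.1 i).1
  set o := om (q^2 * ζ) with ho
  have hpX : ∀ r : Finset ι, pom o (A ++ (B ++ prF x r)) =
      pom o (A ++ B) * (∏ j ∈ r, (o - om (x j)))^2 := by
    intro r
    rw [pom_app, pom_app, pom_prF, pom_app]; ring
  have e1 : eF x s A (ζ :: B) w (q * ζ) = (o - om w) *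
      (pom o (A ++ B) * (∏ j ∈ s, (o - om (x j)))^2) * Rs.eval (om ζ) := by
    unfold eF
    rw [h1 ζ hζ, ← ho, pom_cons]
    have : A ++ (B ++ prs (s.toList.map x)) = A ++ (B ++ prF x s) := rfl
    rw [this, hpX]
  have e0 : ∀ z, z ≠ 0 → eF x ∅ A (ζ :: B) z (q * ζ) = (o - om z) * pom o (A ++ B) *
      (R0 z).eval (om ζ) := by
    intro z hz
    unfold eF
    rw [Finset.toList_empty, List.map_nil, h0 z hz ζ hζ, ← ho, pom_cons]
    have : A ++ (B ++ prs []) = A ++ B := by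
      show A ++ (B ++ []) = A ++ B
      rw [List.append_nil]
    rw [this]
  have z1 : zo ((q * ζ) :: (A ++ (ζ :: B))) = -(pom o (A ++ B) * zo (A ++ B)) := by
    have := zo_zm (L := []) hA hB (by simp) zA zB (NZ_nil) hζ
    simpa using this
  have z2 : zo ((q * ζ) :: (A ++ ((ζ :: B) ++ prF x s))) =
      -(pom o (A ++ B) * (∏ j ∈ s, (o - om (x j)))^2 * zo (A ++ (B ++ prF x s))) := by
    rw [zo_zm hA hB (prF_even x s) zA zB (NZ_prF hx s) hζ, ← ho, hpX]
  have z3 : ∀ i ∈ s, zo (w :: x i :: (q * ζ) :: (A ++ ((ζ :: B) ++ prF x (s.erase i)))) =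
      -((o - om w) * ((o - om (x i)) * (pom o (A ++ B) * (∏ j ∈ s.erase i, (o - om (x j)))^2)) *
        zo (w :: x i :: (A ++ (B ++ prF x (s.erase i))))) := by
    intro i _
    rw [zo_zm2 hA hB (prF_even x _) zA zB (NZ_prF hx _) hζ hw (hx i), ← ho, hpX]
  have c1 : ∀ i ∈ s, cc (fun z => eF x ∅ A (ζ :: B) z (q * ζ)) w (x i) =
      (o - om (x i)) * pom o (A ++ B) * cc (fun z => (R0 z).eval (om ζ)) w (x i) := by
    intro i _
    rw [← cc_smul]
    refine cc_congr w (x i) (e0 _ (hx i)) ?_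
    show eF x ∅ A (ζ :: B) (x i)⁻¹ (q * ζ) = _
    rw [e0 _ (inv_ne_zero (hx i)), om_inv]
  unfold FP1
  rw [e1, e0 w hw, z1, z2, QQ_eval]
  have e3 : (∑ i ∈ s, gm x s i * (∏ j ∈ s.erase i, (om w - om (x j))) *
      cc (fun z => eF x ∅ A (ζ :: B) z (q * ζ)) w (x i) *
      zo (w :: x i :: (q * ζ) :: (A ++ ((ζ :: B) ++ prF x (s.erase i))))) =
      -((pom o (A ++ B))^2 * (∏ j ∈ s, (o - om (x j)))^2 * (o - om w)) *
      ∑ i ∈ s, gm x s i * (∏ j ∈ s.erase i, (om w - om (x j))) *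
        zo (w :: x i :: (A ++ (B ++ prF x (s.erase i)))) *
        cc (fun z => (R0 z).eval (om ζ)) w (x i) := by
    rw [Finset.mul_sum]
    refine Finset.sum_congr rfl fun i hi => ?_
    rw [c1 i hi, z3 i hi]
    have m1 : (∏ j ∈ s, (o - om (x j))) = (o - om (x i)) * ∏ j ∈ s.erase i, (o - om (x j)) := by
      rw [← Finset.mul_prod_erase s _ hi]
    rw [m1]
    ring
  rw [e3]
  ring

open Classical in
/-- value of the polynomial at `om (q² β)` -/
theorem QQ_zero (hx : ∀ i, x i ≠ 0) (s : Finset ι) {A B B' : List ℂ} {β : ℂ}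
    (hA : Odd A.length) (hB : Even B.length)
    (hp : B.Perm (β :: B')) {w : ℂ} (hw : w ≠ 0) {Rs : ℂ[X]} {R0 : ℂ → ℂ[X]}
    (h1 : Rs.eval (om (q^2 * β)) = - (pom (om (q * β)) B' * eh A (s.toList.map x) B' w β))
    (h0 : ∀ z : ℂ, z ≠ 0 →
      (R0 z).eval (om (q^2 * β)) = - (pom (om (q * β)) B' * eh A [] B' z β)) :
    (QQ x s A B w Rs R0).eval (om (q^2 * β)) =
      -(pom (om (q * β)) B') * FP1 x (eF x) s A B' w β := by
  have hBo : Odd (A ++ B).length := by
    rw [List.length_append]; exact hA.add_even hB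
  have hBl : ∀ r : Finset ι, Odd (A ++ (B ++ prF x r)).length := by
    intro r
    rw [List.length_append, List.length_append]; exact hA.add_even (hB.add (prF_even x r))
  have p0 : ∀ L : List ℂ, (A ++ (B ++ L)).Perm (β :: (A ++ (B' ++ L))) := by
    intro L
    refine (List.Perm.append_left A (hp.append_right L)).trans ?_
    exact List.perm_middle
  have z1 : zo (A ++ B) = zo (β :: (A ++ B')) := by
    have := p0 []
    rw [List.append_nil, List.append_nil] at this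
    exact zo_perm hBo this
  have z2 : zo (A ++ (B ++ prF x s)) = zo (β :: (A ++ (B' ++ prF x s))) :=
    zo_perm (hBl s) (p0 _)
  have z3 : ∀ i, zo (w :: x i :: (A ++ (B ++ prF x (s.erase i)))) =
      zo (w :: x i :: β :: (A ++ (B' ++ prF x (s.erase i)))) := by
    intro i
    refine zo_perm ?_ (((p0 _).cons _).cons _)
    rw [List.length_cons, List.length_cons]
    exact (hBl _).add_one.add_one
  have c1 : ∀ i ∈ s, cc (fun z => (R0 z).eval (om (q^2 * β))) w (x i) =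
      -(pom (om (q * β)) B') * cc (fun z => eF x ∅ A B' z β) w (x i) := by
    intro i _
    rw [← cc_smul]
    have e0 : ∀ z, z ≠ 0 → (R0 z).eval (om (q^2 * β)) =
        -(pom (om (q * β)) B') * eF x ∅ A B' z β := by
      intro z hz
      unfold eF
      rw [Finset.toList_empty, List.map_nil, h0 z hz]
      ring
    exact cc_congr w (x i) (e0 _ (hx i)) (e0 _ (inv_ne_zero (hx i)))
  rw [QQ_eval, h1, h0 w hw, z1, z2]
  have e3 : (∑ i ∈ s, gm x s i * (∏ j ∈ s.erase i, (om w - om (x j))) *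
        zo (w :: x i :: (A ++ (B ++ prF x (s.erase i)))) *
        cc (fun z => (R0 z).eval (om (q^2 * β))) w (x i)) =
      -(pom (om (q * β)) B') * ∑ i ∈ s, gm x s i * (∏ j ∈ s.erase i, (om w - om (x j))) *
      cc (fun z => eF x ∅ A B' z β) w (x i) *
      zo (w :: x i :: β :: (A ++ (B' ++ prF x (s.erase i)))) := by
    rw [Finset.mul_sum]
    refine Finset.sum_congr rfl fun i hi => ?_
    rw [c1 i hi, z3 i]
    ring
  rw [e3]
  unfold FP1
  have e4 : eF x ∅ A B' w β = eh A [] B' w β := by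
    unfold eF
    rw [Finset.toList_empty, List.map_nil]
  have e5 : eF x s A B' w β = eh A (s.toList.map x) B' w β := rfl
  rw [e4, e5]
  ring

end M

end Pool.Agent.H966.T1
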