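import Pool.Agent.H966.T1.Mi

/-!
Forked channels of even width (helper966), task M, part j: the induction.
-/

namespace Pool.Agent.H966.T1

open Pool.Agent.H988R2.Perc hiding X
open Pool.Agent.NH38.Step (om prs EE zs prF Gen on cardy pom bev EE_fac EE_comm om_inv om_q2_inv
  om_q_inv pom_cons pom_app pom_perm zs_perm zs_rec zs_mul refl_coeff)
open Pool.Agent.NH38.Fork (zo mm na cst gh Dh G T D U tt gF tF NZ ev LR UL Reg Lau PermInv cc gm
  S_DET S_DUAL S_perm S_invB S_wid S_ttwid S_M FP S_regz S_regG S_DEN fn fn_length fn_ev fn_UL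
  left_dvd right_dvd)
open Pool.Agent.NH38.Fork.M7 (NZ_app NZ_cons NZ_nil NZ_map NZ_prF NZ_prs NZ_perm zo_perm zo_inv
  zo_rec pom_prs pom_toList pom_prF)
open Pool.Agent.NH38.Fork.M2a (sub_inv_ne gm_mul om_sub_ne)
open Pool.Agent.NH38.Fork.M8 (cn cn_at cn_length cn_UL app_UL cons_UL reg_zs reg_zs2 reg_gF
  NZ_on on_length zs_on_ne exists_om_ne)
open Polynomial

namespace M

variable {ι : Type} {x : ι → ℂ}

theorem om_q2_inj {y z : ℂ} (hy : y ≠ 0) (hz : z ≠ 0) (h : RR y z) :
    om (q^2 * y) ≠ om (q^2 * z) := by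
  have hq2 : (q:ℂ)^2 ≠ 0 := pow_ne_zero _ q_ne_zero
  have h26 : ((q:ℂ)^2)^6 = 1 := Pool.Agent.NH38.Step.q26
  intro he
  rcases (Pool.Agent.NH38.Step.om_eq_iff (mul_ne_zero hq2 hy) (mul_ne_zero hq2 hz)).mp he with h1 | h1
  · apply h.1
    rw [mul_left_cancel₀ hq2 h1]
  · apply h.2
    calc (y*z)^6 = ((q^2)^6)^2 * (y*z)^6 := by rw [h26, one_pow, one_mul]
      _ = (q^2 * y * (q^2 * z))^6 := by ring
      _ = 1 := by rw [h1, one_pow]

/-- the amplitude part of the formula vanishes at `v = q ζ` -/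
theorem eF_BZ (hbn : S1_bnode) (hg : Gen x) (s : Finset ι) {A B : List ℂ} (hA : Odd A.length)
    (hB : Even B.length) (zA : NZ A) (zB : NZ B) {w : ℂ} (hw : w ≠ 0)
    (hnd : (B.map (fun β => om (q^2 * β))).Nodup)
    (ih : ∀ (β : ℂ) (B' : List ℂ), B.Perm (β :: B') → FP1 x (eF x) s A B' w β = 0)
    {ζ : ℂ} (hζ : ζ ≠ 0) : FP1 x (eF x) s A (ζ :: B) w (q * ζ) = 0 := by
  classical
  have hx : ∀ i, x i ≠ 0 := fun i => (hg.1 i).1
  obtain ⟨Rs, d1, n1, f1, v1⟩ := hbn A (s.toList.map x) B hA hB zA (NZ_map hx s) zB w hw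
  have hch : ∀ z : ℂ, ∃ R : ℂ[X], R.natDegree ≤ B.length / 2 ∧ (B = [] → R = 0) ∧ (z ≠ 0 →
      (∀ ζ : ℂ, ζ ≠ 0 → eh A [] (ζ :: B) z (q * ζ) =
        pom (om (q^2 * ζ)) (z :: (A ++ (B ++ prs []))) * R.eval (om ζ)) ∧
      ∀ (β : ℂ) (B' : List ℂ), B.Perm (β :: B') →
        R.eval (om (q^2 * β)) = - (pom (om (q * β)) B' * eh A [] B' z β) ∧
        R.eval (om (q * β)) = - (pom (om (q^2 * β)) B' * eh A [] B' z β⁻¹)) := by
    intro z
    rcases eq_or_ne z 0 with h | h
    · exact ⟨0, by simp, fun _ => rfl, fun h' => absurd h h'⟩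
    · obtain ⟨R, d0, n0, f0, v0⟩ := hbn A [] B hA hB zA NZ_nil zB z h
      exact ⟨R, d0, n0, fun _ => ⟨f0, v0⟩⟩
  choose R0 hR0 using hch
  rw [FP1_node hg s hA hB zA zB hw f1 (fun z hz => ((hR0 z).2.2 hz).1) hζ]
  have hQ : QQ x s A B w Rs R0 = 0 := by
    rcases B with _ | ⟨β0, B0⟩
    · have h1 : Rs = 0 := n1 rfl
      have h2 : ∀ z, R0 z = 0 := fun z => (hR0 z).2.1 rfl
      unfold QQ
      simp only [h1, h2, mul_zero, sub_zero, Finset.sum_const_zero, add_zero]
    · set B := β0 :: B0 with hBdef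
      refine Polynomial.eq_zero_of_natDegree_lt_card_of_eval_eq_zero' _
        (B.map (fun β => om (q^2 * β))).toFinset ?_ ?_
      · intro u hu
        rw [List.mem_toFinset, List.mem_map] at hu
        obtain ⟨β, hβ, rfl⟩ := hu
        obtain ⟨B1, B2, hB12⟩ := List.append_of_mem hβ
        have hp : B.Perm (β :: (B1 ++ B2)) := by rw [hB12]; exact List.perm_middle
        rw [QQ_zero hx s hA hB hp hw (v1 β _ hp).1
          (fun z hz => (((hR0 z).2.2 hz).2 β _ hp).1), ih β _ hp, mul_zero]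
      · rw [List.toFinset_card_of_nodup hnd, List.length_map]
        have h1 := QQ_deg (x := x) (s := s) (A := A) (B := B) (w := w) d1 (fun z => (hR0 z).1)
        have h2 : 0 < B.length := by rw [hBdef, List.length_cons]; omega
        omega
  rw [hQ, eval_zero, mul_zero]

/-- the second form of the formula, from the first -/
theorem FP1_of_DD1 (hz : S_regz) (hR : S1_reg) (hDEN : S_DEN) (hJ : S1_J) (hg : Gen x)
    (s : Finset ι) {a b : ℕ} (ha : Odd a) (hb : Odd b) {w : ℂ} (hw : w ≠ 0)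
    (h : ∀ A B : List ℂ, A.length = a → B.length = b → NZ A → NZ B → ∀ v, v ≠ 0 →
      DD1 x s A B w v = 0) :
    ∀ A B : List ℂ, A.length = a → B.length = b → NZ A → NZ B → ∀ v, v ≠ 0 →
      FP1 x (hF x) s A B w v = 0 := by
  classical
  obtain ⟨v0, hv0, hv0'⟩ : ∃ v0 : ℂ, v0 ≠ 0 ∧ (om w - om v0) *
      (∏ j ∈ s, (om v0 - om (x j))) ≠ 0 := by
    obtain ⟨v0, h0, h1, h2⟩ := exists_RR (w :: s.toList.map x)
    refine ⟨v0, h0, mul_ne_zero ?_ (Finset.prod_ne_zero_iff.mpr fun j hj => ?_)⟩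
    · intro he
      have hR := h2 w List.mem_cons_self
      rcases (Pool.Agent.NH38.Step.om_eq_iff hw h0).mp (sub_eq_zero.mp he) with h3 | h3
      · exact hR.1 (by rw [h3])
      · exact hR.2 (by rw [mul_comm, h3, one_pow])
    · intro he
      have hR := h2 (x j) (List.mem_cons_of_mem _ (List.mem_map_of_mem (Finset.mem_toList.2 hj)))
      rcases (Pool.Agent.NH38.Step.om_eq_iff h0 (hg.1 j).1).mp (sub_eq_zero.mp he) with h3 | h3
      · exact hR.1 (by rw [h3])
      · exact hR.2 (by rw [h3, one_pow])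
  refine hDEN a b (fun A B v => FP1 x (hF x) s A B w v)
    (fun A B v => (om w - om v) * (∏ j ∈ s, (om v - om (x j))) * zs (A ++ B))
    ?_ ?_ ⟨on a, on b, v0, on_length _, on_length _, NZ_on _, NZ_on _, hv0, ?_⟩ ?_
  · intro A' B' hA' hB'
    have hA'' : Odd (fn A').length := by rw [fn_length, hA']; exact ha
    have hB'' : Odd (fn B').length := by rw [fn_length, hB']; exact hb
    refine (reg_FP1 (x := x) (P := (A' ++ B').prod) (f := fun _ _ => w) (h := fun _ v => v)
      hz hR s hA'' hB'' (fn_UL (left_dvd A' B')) (fn_UL (right_dvd A' B')) (UL.const w)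
      UL.var).congr fun t w _ _ => ?_
    rw [fn_ev, fn_ev]
  · intro A' B' hA' hB'
    have hA'' : Odd (fn A').length := by rw [fn_length, hA']; exact ha
    have hB'' : Odd (fn B').length := by rw [fn_length, hB']; exact hb
    have k0 : LR (A' ++ B').prod (fun _ v => om w - om v) := (LR.const _).sub UL.var.om
    have k1 : LR (A' ++ B').prod (fun t v => ∏ j ∈ s, (om v - om (x j))) :=
      LR.prod s (fun j t v => om v - om (x j)) fun j _ => UL.var.om.sub (LR.const _)
    have k2 := reg_zs (P := (A' ++ B').prod) hz [] (by simp) hA'' hB''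
      (fn_UL (left_dvd A' B')) (fn_UL (right_dvd A' B'))
    refine ((k0.mul k1).mul k2).congr fun t w _ _ => ?_
    rw [fn_ev, fn_ev, List.append_nil]
  · exact mul_ne_zero hv0' (zs_on_ne _ _ (ha.add_odd hb))
  · intro A' B' hA' hB' nA' nB' v' hv'
    have h1 := hJ x hg s A' B' w v' (by rw [hA']; exact ha) (by rw [hB']; exact hb) nA' nB' hw hv'
    rw [h A' B' hA' hB' nA' nB' v' hv', mul_zero] at h1
    exact h1

open Classical in
/-- the zeros of the formula at `v = q ζ` -/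
theorem BZ (hz : S_regz) (hG : S_regG) (hR : S1_reg) (hDEN : S_DEN) (hJ : S1_J) (hMZ : S1_MZ)
    (hbn : S1_bnode) (hg : Gen x)
    (s : Finset ι) {a b : ℕ} (ha : Odd a) (hb : Even b) {w : ℂ} (hw : w ≠ 0)
    (h : ∀ A B : List ℂ, A.length = a → B.length + 1 = b → NZ A → NZ B → ∀ v, v ≠ 0 →
      DD1 x s A B w v = 0) :
    ∀ A B : List ℂ, A.length = a → B.length = b → NZ A → NZ B → ∀ ζ, ζ ≠ 0 →
      DD1 x s A (ζ :: B) w (q * ζ) = 0 := by
  have hx : ∀ i, x i ≠ 0 := fun i => (hg.1 i).1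
  have hq0 : (q:ℂ) ≠ 0 := q_ne_zero
  -- the amplitude part for the shorter list
  have ih : ∀ A B : List ℂ, A.length = a → B.length + 1 = b → NZ A → NZ B → ∀ v, v ≠ 0 →
      FP1 x (eF x) s A B w v = 0 := by
    intro A B hA hB zA zB v hv
    have hb' : Odd B.length := by
      rcases Nat.even_or_odd B.length with h1 | h1
      · exfalso
        have := h1.add_one
        rw [hB] at this
        exact (Nat.not_odd_iff_even.2 hb) this
      · exact h1
    have h1 := FP1_of_DD1 hz hR hDEN hJ hg s ha hb' hw (fun A' B' hA' hB' => h A' B' hA'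
      (by rw [hB']; exact hB)) A B hA rfl zA zB v hv
    rw [FP1_split, FP1_mass hMZ hg s (by rw [hA]; exact ha) hb' zA zB hw hv] at h1
    linear_combination -h1
  -- for generic lists
  have hgen : ∀ A B : List ℂ, A.length = a → B.length = b → NZ A → NZ B → ∀ ζ, ζ ≠ 0 →
      gN B ≠ 0 → zo ((q * ζ) :: (A ++ (ζ :: B))) * DD1 x s A (ζ :: B) w (q * ζ) = 0 := by
    intro A B hA hB zA zB ζ hζ hgB
    rw [gN_ne] at hgB
    have hA' : Odd A.length := by rw [hA]; exact ha
    have hB' : Even B.length := by rw [hB]; exact hb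
    have hnd : (B.map (fun β => om (q^2 * β))).Nodup := by
      rw [List.Nodup, List.pairwise_map]
      refine List.Pairwise.imp_of_mem ?_ hgB.2
      intro y z hy hz' hR
      exact om_q2_inj (zB y hy) (zB z hz') hR
    have h1 := eF_BZ hbn hg s hA' hB' zA zB hw hnd (fun β B' hp => by
      refine ih A B' hA ?_ zA ?_ β ?_
      · rw [← hB, hp.length_eq, List.length_cons]
      · intro z hz'
        exact zB z (hp.mem_iff.2 (List.mem_cons_of_mem _ hz'))
      · exact zB β (hp.mem_iff.2 List.mem_cons_self)) hζ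
    have hBo : Odd (ζ :: B).length := by rw [List.length_cons]; exact hB'.add_one
    have hqζ : q * ζ ≠ 0 := mul_ne_zero hq0 hζ
    have h2 : FP1 x (hF x) s A (ζ :: B) w (q * ζ) = 0 := by
      rw [FP1_split, FP1_mass hMZ hg s hA' hBo zA (NZ_cons hζ zB) hw hqζ, h1, sub_zero]
    have h3 := hJ x hg s A (ζ :: B) w (q * ζ) hA' hBo zA (NZ_cons hζ zB) hw hqζ
    rw [h2, mul_zero] at h3
    exact h3.symm
  have uqv : ∀ P : ℂ[X], UL P (fun _ v => q * v) := fun P => (UL.const q).mul UL.var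
  have hregD : Reg a b (fun A B ζ => DD1 x s A (ζ :: B) w (q * ζ)) := by
    intro A' B' hA' hB'
    have hA'' : Odd (fn A').length := by rw [fn_length, hA']; exact ha
    have hB'' : Odd ((fun (_ v : ℂ) => v) :: fn B').length := by
      rw [List.length_cons, fn_length, hB']; exact hb.add_one
    refine (reg_DD1 (x := x) (P := (A' ++ B').prod) (f := fun _ _ => w) (h := fun _ v => q * v)
      hz hG hR s hA'' hB'' (fn_UL (left_dvd A' B')) (cons_UL UL.var (fn_UL (right_dvd A' B')))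
      (UL.const w) (uqv _)).congr fun t w _ _ => ?_
    rw [List.map_cons, fn_ev, fn_ev]
  have hregZ : Reg a b (fun A B ζ => zo ((q * ζ) :: (A ++ (ζ :: B)))) := by
    intro A' B' hA' hB'
    have hA'' : Odd (fn A').length := by rw [fn_length, hA']; exact ha
    have hB'' : Odd ((fun (_ v : ℂ) => v) :: fn B').length := by
      rw [List.length_cons, fn_length, hB']; exact hb.add_one
    refine (reg_zo1 (P := (A' ++ B').prod) (f := fun _ v => q * v) hz [] (by simp)
      hA'' hB'' (fn_UL (left_dvd A' B')) (cons_UL UL.var (fn_UL (right_dvd A' B')))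
      (uqv _)).congr fun t w _ _ => ?_
    rw [List.append_nil, List.map_cons, fn_ev, fn_ev]
  -- first density
  have h1 : ∀ A B : List ℂ, A.length = a → B.length = b → NZ A → NZ B → ∀ ζ, ζ ≠ 0 →
      zo ((q * ζ) :: (A ++ (ζ :: B))) * DD1 x s A (ζ :: B) w (q * ζ) = 0 := by
    obtain ⟨B0, b1, b2, b3⟩ := exists_B [] (by simp [gN]) b
    rw [List.append_nil] at b3
    refine hDEN a b (fun A B ζ => zo ((q * ζ) :: (A ++ (ζ :: B))) *
        DD1 x s A (ζ :: B) w (q * ζ)) (fun A B ζ => gN B)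
      ?_ ?_ ⟨on a, B0, 1, on_length _, b1, NZ_on _, b2, one_ne_zero, b3⟩ ?_
    · intro A' B' hA' hB'
      exact (hregZ A' B' hA' hB').mul (hregD A' B' hA' hB')
    · intro A' B' hA' hB'
      refine (reg_gN (P := (A' ++ B').prod) (fn B') fun g hg' =>
        (fn_UL (right_dvd A' B') g hg').1).congr fun t w _ _ => ?_
      rw [fn_ev]
    · intro A' B' hA' hB' nA' nB' v' hv'
      rcases eq_or_ne (gN B') 0 with h2 | h2
      · rw [h2, zero_mul]
      · rw [hgen A' B' hA' hB' nA' nB' v' hv' h2, mul_zero]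
  -- second density
  have hne : zo ((q * 2) :: (on a ++ ((2:ℂ) :: on b))) ≠ 0 := by
    have h2 := Pool.Agent.NH38.Fork.M8.tF_ne (x := x) a b ha hb
    unfold Pool.Agent.NH38.Fork.tF Pool.Agent.NH38.Fork.tt at h2
    rw [Finset.toList_empty] at h2
    have e : ((q * 2) :: (on a ++ (((2:ℂ) :: on b) ++ prs ([].map x)))) =
        ((q * 2) :: (on a ++ ((2:ℂ) :: on b))) := by
      show ((q * 2) :: (on a ++ (((2:ℂ) :: on b) ++ []))) = _
      rw [List.append_nil]
    rw [e] at h2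
    exact h2
  refine hDEN a b (fun A B ζ => DD1 x s A (ζ :: B) w (q * ζ))
    (fun A B ζ => zo ((q * ζ) :: (A ++ (ζ :: B))))
    hregD hregZ ⟨on a, on b, 2, on_length _, on_length _, NZ_on _, NZ_on _, two_ne_zero, hne⟩ h1

end M

end Pool.Agent.H966.T1
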