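import Pool.Agent.H966.T1.Mj

/-!
Forked channels of even width (helper966), task M: the formula.
-/

namespace Pool.Agent.H966.T1

open Pool.Agent.H988R2.Perc hiding X
open Pool.Agent.NH38.Step (om prs EE zs prF Gen on cardy pom bev)
open Pool.Agent.NH38.Fork (zo mm na cst gh Dh G T D U tt gF tF NZ ev LR UL Reg Lau PermInv cc gm
  S_DET S_DUAL S_perm S_invB S_wid S_ttwid S_M FP S_regz S_regG S_DEN fn fn_length fn_ev fn_UL
  left_dvd right_dvd)
open Pool.Agent.NH38.Fork.M7 (NZ_app NZ_cons NZ_nil NZ_map)
open Pool.Agent.NH38.Fork.M8 (cn cn_at cn_length cn_UL app_UL cons_UL reg_zs reg_zs2 reg_gF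
  NZ_on on_length zs_on_ne exists_om_ne)
open Polynomial

theorem t_M0 (hwid1 : S1_wid) (hwid : S_wid) (htt : S_ttwid) (hM : S_M) (hz : S_regz)
    (hG : S_regG) (hR : S1_reg) (hDEN : S_DEN) (hDET : S_DET) (hDU : S_DUAL) (hJ : S1_J)
    (hMI : S1_MI) (hMZ : S1_MZ) (hb : S1_base) (hbn : S1_bnode) (hn : S1_node)
    (hpX : S1_permX) (hiX : S1_invX) (hP : S1_perm) (hP0 : S_perm) (hi : S1_invB)
    (hi0 : S_invB) (hm : S1_mir) : S1_M := by
  classical
  intro ι x hg
  have hx : ∀ i, x i ≠ 0 := fun i => (hg.1 i).1
  have key : ∀ (n : ℕ) (s : Finset ι), s.card = n → ∀ (m a b : ℕ), a + b = m → Odd a → Odd b →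
      ∀ A B : List ℂ, A.length = a → B.length = b → NZ A → NZ B → ∀ w v, w ≠ 0 → v ≠ 0 →
      DD1 x s A B w v = 0 := by
    intro n
    induction n with
    | zero =>
      intro s hs m a b _ ha hb' A B hA hB zA zB w v hw hv
      rw [Finset.card_eq_zero.1 hs]
      exact M.base hb hDET x A B w v (by rw [hA]; exact ha) (by rw [hB]; exact hb') zA zB hw hv
    | succ n ihn =>
      intro s hs m
      induction m using Nat.strong_induction_on with
      | _ m ihm =>
        have direct : ∀ a b : ℕ, a + b = m → Odd a → Odd b → a ≤ b →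
            ∀ A B : List ℂ, A.length = a → B.length = b → NZ A → NZ B → ∀ w v, w ≠ 0 → v ≠ 0 →
            DD1 x s A B w v = 0 := by
          intro a b hab ha hb' hle
          obtain ⟨b', hbb⟩ : ∃ b', b = b' + 1 := ⟨b - 1, by have := hb'.pos; omega⟩
          have hbe : Even b' := by
            rw [hbb] at hb'
            rcases Nat.even_or_odd b' with h1 | h1
            · exact h1
            · exact absurd hb' (Nat.not_odd_iff_even.2 h1.add_one)
          have hBZ : ∀ w, w ≠ 0 → ∀ A B : List ℂ, A.length = a → B.length = b' → NZ A → NZ B →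
              ∀ ζ, ζ ≠ 0 → DD1 x s A (ζ :: B) w (q * ζ) = 0 := by
            intro w hw
            refine M.BZ hz hG hR hDEN hJ hMZ hbn hg s ha hbe hw ?_
            intro A B hA hB zA zB v hv
            refine ihm (a + B.length) (by omega) a B.length rfl ha ?_ A B hA rfl zA zB w v hw hv
            rcases Nat.even_or_odd B.length with h1 | h1
            · exfalso
              have := h1.add_one
              rw [hB] at this
              exact (Nat.not_odd_iff_even.2 hbe) this
            · exact h1
          intro A B hA hB zA zB w v hw hv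
          obtain ⟨w0, hw0, hw0'⟩ := M.exists_w hg s
          obtain ⟨B0, b1, b2, b3⟩ := M.exists_B _ hw0' b
          refine hDEN a b (fun A B w => DD1 x s A B w v)
            (fun A B w => M.gN (B ++ (w :: s.toList.map x)))
            ?_ ?_ ⟨on a, B0, w0, on_length _, b1, NZ_on _, b2, hw0, b3⟩ ?_ A B hA hB zA zB w hw
          · intro A' B' hA' hB'
            have hA'' : Odd (fn A').length := by rw [fn_length, hA']; exact ha
            have hB'' : Odd (fn B').length := by rw [fn_length, hB']; exact hb'
            refine (M.reg_DD1 (x := x) (P := (A' ++ B').prod) (f := fun _ w => w)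
              (h := fun _ _ => v) hz hG hR s hA'' hB'' (fn_UL (left_dvd A' B'))
              (fn_UL (right_dvd A' B')) UL.var (UL.const v)).congr fun t w _ _ => ?_
            rw [fn_ev, fn_ev]
          · intro A' B' hA' hB'
            refine (M.reg_gN (P := (A' ++ B').prod) (fn B' ++ ((fun _ w => w) ::
              cn (s.toList.map x))) fun g hg' => ?_).congr fun t w _ _ => ?_
            · rcases List.mem_append.1 hg' with h1 | h1
              · exact (fn_UL (right_dvd A' B') g h1).1
              · rcases List.mem_cons.1 h1 with rfl | h1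
                · exact LR.var
                · exact (cn_UL (s.toList.map x) g h1).1
            · rw [List.map_append, List.map_cons, fn_ev, cn_at]
          · intro A' B' hA' hB' nA' nB' w' hw'
            rcases eq_or_ne (M.gN (B' ++ (w' :: s.toList.map x))) 0 with h2 | h2
            · rw [h2, zero_mul]
            · have hA'' : Odd A'.length := by rw [hA']; exact ha
              have hB'' : Odd B'.length := by rw [hB']; exact hb'
              rw [M.gen_zero hwid1 hwid htt hM hn hpX hiX hP hP0 hg s hA'' hB''
                (by rw [hA', hB']; exact hle) nA' nB' hw' h2 ?_ ?_ hv, mul_zero]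
              · intro i hi' v' hv'
                exact ihn (s.erase i) (by rw [Finset.card_erase_of_mem hi', hs]; rfl) (a + b) a b
                  rfl ha hb' A' B' hA' hB' nA' nB' w' v' hw' hv'
              · intro ζ B'' hperm
                have hζ : ζ ≠ 0 := nB' ζ (hperm.mem_iff.2 List.mem_cons_self)
                have nB'' : NZ B'' := fun z hz' => nB' z (hperm.mem_iff.2
                  (List.mem_cons_of_mem _ hz'))
                have hl : B''.length = b' := by
                  have := hperm.length_eq
                  rw [List.length_cons, hB'] at this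
                  omega
                refine ⟨hBZ w' hw' A' B'' hA' hl nA' nB'' ζ hζ, ?_⟩
                rw [M.DD1_inv hi hi0 hx s hA'' (by rw [hl]; exact hbe) nA' nB'' hζ hw'
                  (mul_ne_zero q_ne_zero (inv_ne_zero hζ))]
                exact hBZ w' hw' A' B'' hA' hl nA' nB'' ζ⁻¹ (inv_ne_zero hζ)
        intro a b hab ha hb' A B hA hB zA zB w v hw hv
        rcases le_total a b with hle | hle
        · exact direct a b hab ha hb' hle A B hA hB zA zB w v hw hv
        · have h1 := M.mirror hm hMI hDU hg s (A := A) (B := B) (by rw [hA]; exact ha)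
            (by rw [hB]; exact hb') zA zB hw hv
          have h2 := direct b a (by omega) hb' ha hle B A hB hA zB zA v⁻¹ w⁻¹
            (inv_ne_zero hv) (inv_ne_zero hw)
          rw [h2] at h1
          exact neg_eq_zero.mp h1.symm
  intro s A B w v hA hB zA zB hw hv
  exact key s.card s rfl _ A.length B.length rfl hA hB A B rfl rfl zA zB w v hw hv

/-- **the formula** -/
theorem t_M (hwid1 : S1_wid) (hR : S1_reg) (hJ : S1_J) (hMI : S1_MI) (hMZ : S1_MZ)
    (hb : S1_base) (hbn : S1_bnode) (hn : S1_node) (hpX : S1_permX) (hiX : S1_invX)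
    (hP : S1_perm) (hi : S1_invB) (hm : S1_mir) : S1_M :=
  t_M0 hwid1 Pool.Agent.NH38.Fork.a_wid Pool.Agent.NH38.Fork.t_ttwid Pool.Agent.NH38.Fork.a_M
    Pool.Agent.NH38.Fork.t_regz Pool.Agent.NH38.Fork.t_regG hR Pool.Agent.NH38.Fork.t_DEN
    Pool.Agent.NH38.Fork.a_DET Pool.Agent.NH38.Fork.a_DUAL hJ hMI hMZ hb hbn hn hpX hiX hP
    Pool.Agent.NH38.Fork.t_perm hi Pool.Agent.NH38.Fork.t_invB hm

end Pool.Agent.H966.T1
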