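import Pool.Agent.H966.T1.Defs

/-!
Forked channels of even width, both inner walls (helper966): statements of the tasks
(nothing is proved here, except trivial assemblies).
-/

namespace Pool.Agent.H966.T1

open Pool.Agent.H988R2.Perc hiding X
open Pool.Agent.H492C (comb comb2 pairG up1)
open Pool.Agent.NH38.Step (om prs EE zs prF Gen on cardy pom bev)
open Pool.Agent.NH38.Step.Hom (phi eL DD DD_ne W0 VV bs LP)
open Pool.Agent.NH38.Fork (zo mm na cst gh Dh G T D U tt gF tF NZ ev LR UL Reg Lau PermInv cc gm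
  x1 x2 sv vv kap rf EAdj UnifG)
open Polynomial Filter Topology MeasureTheory

/-! ## TASKS S: slides and the mirror image -/

/-- S1: the strand `v` is pulled to the right (extreme coefficients) -/
def S1_slA : Prop := ∀ (a k n : ℕ) (c : ℂ) (S : Word) (f g : St →₀ ℂ), Odd a → (c = q ∨ c = q^2) →
  Dyck S → S.length = 2*n+2 →
  pairG a (a + 2*k + 2) (H988C.Cs c (a+1+2*k) (2*n+1) f)
      (comb2 ((a+1)/2) g (comb2 k (Finsupp.single St.bot 1)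
        (H988C.Cs q 0 (2*n+1) (Finsupp.single (Phi (n+1) S) 1)))) =
    -c * pairG a (a + 1 + 2*k + (2*n+1)) f
      (comb2 ((a+1)/2) g (comb2 k (Finsupp.single St.bot 1) (Finsupp.single (Phi (n+1) S) 1)))

/-- S2: the strand `v` closed with a zero strand -/
def S1_slB : Prop := ∀ (a k n : ℕ) (S : Word) (f g : St →₀ ℂ), Odd a →
  Dyck S → S.length = 2*n+2 →
  pairG a (a + 2*k + 2*n + 4) (H988C.Cs q (a+2+2*k) (2*n+1)
      (Finsupp.mapDomain (St.ins (a+2+2*k+(2*n+1))) f))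
      (comb2 ((a+1)/2) g (comb2 (k+1) (Finsupp.single St.bot 1)
        (Finsupp.single (Phi (n+1) S) 1))) =
    -q^2 * pairG a (a + 2*k + 2) f
      (comb2 ((a+1)/2) g (comb2 k (Finsupp.single St.bot 1)
        (H988C.Cs q 0 (2*n+1) (Finsupp.single (Phi (n+1) S) 1))))

/-- S3: mirror image of the qKZ vector -/
def S1_PsiM : Prop := ∀ l : List ℂ, Even l.length → NZ l →
  Psi l = l.prod^(l.length - 2) •
    Finsupp.mapDomain (mir l.length) (Psi (l.map (fun x => x⁻¹)).reverse)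

/-- S4 -/
def S1_PsiM0 : Prop := ∀ l : List ℂ, Odd l.length → NZ l →
  Psi (0 :: l) = l.prod^(l.length - 1) •
    Finsupp.mapDomain (mir (l.length + 1)) (Psi ((l.map (fun x => x⁻¹)).reverse ++ [0]))

/-! ## TASKS Q: qKZ facts for `eh` -/

/-- Q0: total mass -/
def S1_Teq : Prop := ∀ (A X B : List ℂ) (w v : ℂ), Odd A.length → Odd B.length → NZ A → NZ X →
  NZ B → w ≠ 0 → v ≠ 0 → TT1 A X B w v =
    cst A B X.length (w * v) * (zs (w :: v :: (A ++ (B ++ prs X))) * mm A B)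

/-- Q1: width in `v` and extreme coefficients -/
def S1_wid : Prop := ∀ (A X B : List ℂ) (w : ℂ), Odd A.length → Odd B.length → NZ A → NZ X →
  NZ B → w ≠ 0 → Lau (A.length + B.length + 2*X.length) ((A.length + B.length)/2 + X.length)
    (fun v => eh A X B w v) (-q * gh A X B w) (-q^2 * gh A X B w)

/-- Q2: permutations of `A` and of `B`, inversion of an element of `B` -/
def S1_perm : Prop := ∀ A A' X B B' : List ℂ, Odd A.length → Odd B.length → NZ A → NZ X → NZ B →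
  A.Perm A' → B.Perm B' → ∀ w v, w ≠ 0 → v ≠ 0 → eh A X B w v = eh A' X B' w v

def S1_invB : Prop := ∀ (A X B : List ℂ) (y : ℂ), Odd A.length → Even B.length → NZ A → NZ X →
  NZ B → y ≠ 0 → ∀ w v, w ≠ 0 → v ≠ 0 → eh A X (y :: B) w v = eh A X (y⁻¹ :: B) w v

/-- Q3: `eh` depends only on the multiset of the reflected pairs -/
def S1_permX : Prop := ∀ A X X' B : List ℂ, Odd A.length → Odd B.length → NZ A → NZ X → NZ B →
  X.Perm X' → ∀ w v, w ≠ 0 → v ≠ 0 → eh A X B w v = eh A X' B w v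

def S1_invX : Prop := ∀ (A X B : List ℂ) (x : ℂ), Odd A.length → Odd B.length → NZ A → NZ X →
  NZ B → x ≠ 0 → ∀ w v, w ≠ 0 → v ≠ 0 → eh A (x :: X) B w v = eh A (x⁻¹ :: X) B w v

/-- Q4: recursion at `v = q² x⁻¹` -/
def S1_node : Prop := ∀ (A X B : List ℂ) (x : ℂ), Odd A.length → Odd B.length → NZ A → NZ X →
  NZ B → x ≠ 0 → ∀ w, w ≠ 0 → eh A (x :: X) B w (q^2 * x⁻¹) =
    (om (q^2 * x) - om w) * (om (q^2 * x) - om x) * pom (om (q^2 * x)) (A ++ B) *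
      pom (om (q^2 * x)) (prs X) * eh A X B w x

/-- Q5: the amplitude at `v = q ζ`, `ζ ∈ B`: it is given by a polynomial `R` in `om ζ` whose values
at `om ζ = om (q² β)`, `β ∈ B`, are amplitudes with a shorter list. -/
def S1_bnode : Prop := ∀ A X B : List ℂ, Odd A.length → Even B.length → NZ A → NZ X → NZ B →
  ∀ w, w ≠ 0 → ∃ R : ℂ[X], R.natDegree ≤ B.length / 2 ∧ (B = [] → R = 0) ∧
    (∀ ζ : ℂ, ζ ≠ 0 → eh A X (ζ :: B) w (q * ζ) =
      pom (om (q^2 * ζ)) (w :: (A ++ (B ++ prs X))) * R.eval (om ζ)) ∧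
    ∀ (β : ℂ) (B' : List ℂ), B.Perm (β :: B') →
      R.eval (om (q^2 * β)) = - (pom (om (q * β)) B' * eh A X B' w β) ∧
      R.eval (om (q * β)) = - (pom (om (q^2 * β)) B' * eh A X B' w β⁻¹)

/-- Q6: the thin slit -/
def S1_base : Prop := ∀ (A B : List ℂ) (w v : ℂ), Odd A.length → Odd B.length → NZ A → NZ B →
  w ≠ 0 → v ≠ 0 → eh A [] B w v = mm A B * zs (w :: v :: (A ++ B)) + q * Dh A w v B

/-- Q7: regularity -/
def S1_reg : Prop := ∀ (P : ℂ[X]) (A X B : List (ℂ → ℂ → ℂ)) (f h : ℂ → ℂ → ℂ),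
  Odd A.length → Odd B.length → (∀ g ∈ A, UL P g) → (∀ g ∈ X, UL P g) → (∀ g ∈ B, UL P g) →
  UL P f → UL P h → LR P (fun t w => eh (A.map (fun g => g t w)) (X.map (fun g => g t w))
    (B.map (fun g => g t w)) (f t w) (h t w))

/-- Q8: mirror symmetry -/
def S1_mir : Prop := ∀ (A X B : List ℂ) (w v : ℂ), Odd A.length → Odd B.length → NZ A → NZ X →
  NZ B → w ≠ 0 → v ≠ 0 → eh A X B w v = eh B X A v⁻¹ w⁻¹

/-! ## TASKS L: identities for the total masses (determinants) -/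

open Classical in
/-- L1: a Plücker relation, spectators `L` (even), two more points `w, v` -/
def S1_MI : Prop := ∀ {ι : Type} (x : ι → ℂ), Gen x → ∀ (s : Finset ι) (L : List ℂ) (w v : ℂ),
  Even L.length → NZ L → w ≠ 0 → v ≠ 0 →
  (∏ j ∈ s, EE (om w) (om (x j)) * (om v - om (x j))) * zo (w :: L) * zo (v :: (L ++ prF x s)) -
    (∏ j ∈ s, EE (om v) (om (x j)) * (om w - om (x j))) * zo (v :: L) * zo (w :: (L ++ prF x s)) +
    (om w - om v) * ∑ i ∈ s, gm x s i *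
      (∏ j ∈ s.erase i, (om w - om (x j)) * (om v - om (x j))) * zo (x i :: L) *
      zo (w :: v :: x i :: (L ++ prF x (s.erase i))) = 0

open Classical in
/-- L2: a Plücker relation, spectators `C` (odd), one more point `w` -/
def S1_MZ : Prop := ∀ {ι : Type} (x : ι → ℂ), Gen x → ∀ (s : Finset ι) (C : List ℂ) (w : ℂ),
  Odd C.length → NZ C → w ≠ 0 →
  (∏ j ∈ s, (om w - om (x j))) * zo C * zs (w :: (C ++ prF x s)) -
    (∏ j ∈ s, EE (om w) (om (x j))) * zo (C ++ prF x s) * zs (w :: C) +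
    ∑ i ∈ s, gm x s i * (∏ j ∈ s.erase i, (om w - om (x j))) * zs (x i :: C) *
      zo (w :: x i :: (C ++ prF x (s.erase i))) = 0

/-! ## TASKS M: the formula -/

open Classical in
/-- M1: the two forms of the formula -/
def S1_J : Prop := ∀ {ι : Type} (x : ι → ℂ), Gen x → ∀ (s : Finset ι) (A B : List ℂ) (w v : ℂ),
  Odd A.length → Odd B.length → NZ A → NZ B → w ≠ 0 → v ≠ 0 →
  (om w - om v) * (∏ j ∈ s, (om v - om (x j))) * zs (A ++ B) * FP1 x (hF x) s A B w v =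
    zo (v :: (A ++ B)) * DD1 x s A B w v

/-- M: the formula -/
def S1_M : Prop := ∀ {ι : Type} (x : ι → ℂ), Gen x → ∀ (s : Finset ι) (A B : List ℂ) (w v : ℂ),
  Odd A.length → Odd B.length → NZ A → NZ B → w ≠ 0 → v ≠ 0 → DD1 x s A B w v = 0

/-! ## TASKS H: homogeneous limit -/

/-- `hF` at `A = B = X = 1,…,1` and `v = 1` -/
noncomputable def h1 (a b k : ℕ) (w : ℂ) : ℂ :=
  mm (on a) (on b) * zs (w :: 1 :: (on a ++ (on b ++ on (2*k)))) - eh (on a) (on k) (on b) w 1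

/-- H1: the limit of the formula `S1_M` -/
def S1_H1 : Prop := ∀ a b k : ℕ, Odd a → Odd b → ∃ F ∈ W0 (a + b + 1 + 2*k), ∀ (w : ℂ)
  (hw : w ∈ DD), zs (on (a + b)) * (h1 a b k w * phi (on (a + b + 1 + 2*k)) w) -
    q * zo (on (a + b + 1 + 2*k)) * ((w - q) * (1 - w⁻¹) * ((om (w^3) - 2)^k *
      (gh (on a) [] (on b) w * phi (on (a+b)) w))) = eL w (DD_ne hw) F

/-- H2: the total mass -/
def S1_H2 : Prop := ∀ m : ℕ, Odd m → ∃ F ∈ VV m, ∀ (w : ℂ) (hw : w ∈ DD),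
  zs (w :: on m) * phi (on m) w =
    eL w (DD_ne hw) (LaurentPolynomial.C (zo (on m)) * bs m + F)

/-- the crossing probability, first form; `N = a + b + 2 + 2k` = width -/
noncomputable def FR (a b N : ℕ) : ℚ :=
  (∑ j ∈ Finset.range ((a+b)/2), (sv a * sv b).coeff j * 4^j *
    H337CB.R (N + 2 + 2*j) ((j:ℚ) + 2/3) ((1 + X) * ((X - 1) * H337CB.Ps (N-1) - H337CB.Ps N))) /
    (kap N - kap (N-1))

/-- H3: the value -/
def S1_H3 : Prop := ∀ a b k : ℕ, Odd a → Odd b →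
  eh (on a) (on k) (on b) 1 1 = ((FR a b (a+b+2+2*k) : ℚ) : ℂ) *
    (zs (on (a+b+2+2*k)) * mm (on a) (on b))

/-! ## TASKS C: closed form -/

/-- the constant, `N = 2n + 4` -/
noncomputable def M1 (n : ℕ) : ℚ :=
  1/3 * ∏ i ∈ Finset.range n, ((2*(i:ℚ) + 3) * (3*i + 10) / ((i + 4) * (6*i + 13)))

/-- coefficients, `N` = width -/
noncomputable def nj (N j : ℕ) : ℚ := M1 ((N-4)/2) / 9 *
  ∏ i ∈ Finset.range j, (4 * ((i:ℚ) + 2/3) * (i + 4/3) / (((N:ℚ) - 3 - 2*i) * (N + 4 + 2*i)))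

/-- the crossing probability; `a`, `b` = widths of the arms, `N` = width -/
noncomputable def FT (a b N : ℕ) : ℚ :=
  ∑ j ∈ Finset.range ((a+b)/2), (sv a * sv b).coeff j * nj N j

/-- C1: evaluation of the residues -/
def S1_C : Prop := ∀ N j : ℕ, Even N → 4 ≤ N → 2*j + 4 ≤ N →
  4^j * H337CB.R (N + 2 + 2*j) ((j:ℚ) + 2/3)
    ((1 + X) * ((X - 1) * H337CB.Ps (N-1) - H337CB.Ps N)) = (kap N - kap (N-1)) * nj N j

/-! ## TASKS A: asymptotics -/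

/-- A1 -/
def S1_Asy : Prop := ∀ (a b N : ℕ → ℕ) (ρ σ : ℝ), 0 < ρ → 0 < σ → ρ + σ < 1 →
  (∀ i, Odd (a i)) → (∀ i, Odd (b i)) → (∀ i, Even (N i)) → (∀ i, a i + b i < N i) →
  Tendsto N atTop atTop → Tendsto (fun i => (a i : ℝ) / N i) atTop (𝓝 ρ) →
  Tendsto (fun i => (b i : ℝ) / N i) atTop (𝓝 σ) →
  Tendsto (fun i => ((FT (a i) (b i) (N i) : ℚ) : ℝ)) atTop
    (𝓝 (cardy (x1 (ρ^2) (σ^2) * (1 - x2 (ρ^2) (σ^2)) /
      (x2 (ρ^2) (σ^2) * (1 - x1 (ρ^2) (σ^2))))))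

/-! ## TASKS P: percolation -/

/-- Column `u - v`, height `u + v`. Open edges of the fork with arms of widths `a`, `b` and a slit
of thickness `2k+2`: columns in `[0, a+2+2k+b]`, the edges with both ends at height `≥ 1` and both
ends in columns of `[a, a+2+2k]` are removed. -/
def EAdj1 (a k b : ℕ) (ω : Conf) (x y : ℤ × ℤ) : Prop :=
  OpenAdj ω x y ∧ (0 ≤ x.1 - x.2 ∧ x.1 - x.2 ≤ ((a+2+2*k+b : ℕ) : ℤ)) ∧
    (0 ≤ y.1 - y.2 ∧ y.1 - y.2 ≤ ((a+2+2*k+b : ℕ) : ℤ)) ∧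
    ¬ (1 ≤ x.1 + x.2 ∧ 1 ≤ y.1 + y.2 ∧ (a:ℤ) ≤ x.1 - x.2 ∧ x.1 - x.2 ≤ ((a+2+2*k : ℕ) : ℤ) ∧
      (a:ℤ) ≤ y.1 - y.2 ∧ y.1 - y.2 ≤ ((a+2+2*k : ℕ) : ℤ))

/-- the inner wall of the left arm is joined to the inner wall of the right arm -/
def ECross1 (a k b : ℕ) : Set Conf :=
  {ω | ∃ x y : ℤ × ℤ, x.1 - x.2 = a ∧ 1 ≤ x.1 + x.2 ∧ y.1 - y.2 = ((a+2+2*k : ℕ) : ℤ) ∧
    1 ≤ y.1 + y.2 ∧ Relation.ReflTransGen (EAdj1 a k b ω) x y}

/-- P1 -/
def S1_PF : Prop := ∀ a k b : ℕ, Odd a → Odd b →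
  ((perc.real (ECross1 a k b) : ℝ) : ℂ) * TT1 (on a) (on k) (on b) 1 1 =
    E1 (on a) (on k) (on b) 1 1

/-- P2 -/
def S1_TF : Prop := ∀ a k b : ℕ, Odd a → Odd b → TT1 (on a) (on k) (on b) 1 1 ≠ 0

/-- the exact formula -/
def S1_Exact : Prop := ∀ a k b : ℕ, Odd a → Odd b →
  perc.real (ECross1 a k b) = ((FT a b (a+b+2+2*k) : ℚ) : ℝ)

/-! ## TASKS G: all widths, the scaling limit -/

/-- Column `u - v`, height `u + v`. Open edges of the forked channel: columns in `[-a, m+b]`; the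
edges with both ends at height `≥ 0` and both ends in columns of `[0, m]` are removed. -/
def FAdj1 (a m b : ℕ) (ω : Conf) (x y : ℤ × ℤ) : Prop :=
  OpenAdj ω x y ∧ -(a:ℤ) ≤ x.1 - x.2 ∧ x.1 - x.2 ≤ ((m+b : ℕ) : ℤ) ∧
    -(a:ℤ) ≤ y.1 - y.2 ∧ y.1 - y.2 ≤ ((m+b : ℕ) : ℤ) ∧
    ¬ (0 ≤ x.1 + x.2 ∧ 0 ≤ y.1 + y.2 ∧ 0 ≤ x.1 - x.2 ∧ x.1 - x.2 ≤ m ∧
      0 ≤ y.1 - y.2 ∧ y.1 - y.2 ≤ m)

/-- There is an open path of the forked channel from a vertex of the inner wall of the left arm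
(column `0`, height `≥ 0`) to a vertex of the inner wall of the right arm (column `m`,
height `≥ 0`). -/
def FCross1 (a m b : ℕ) : Set Conf :=
  {ω | ∃ x y : ℤ × ℤ, x.1 - x.2 = 0 ∧ 0 ≤ x.1 + x.2 ∧ y.1 - y.2 = (m : ℤ) ∧ 0 ≤ y.1 + y.2 ∧
    Relation.ReflTransGen (FAdj1 a m b ω) x y}

/-- the scaling limit -/
def S1_Lim : Prop := ∀ (α γ β : ℝ), 0 < α → 0 < γ → 0 < β → ∀ (δ : ℕ → ℝ) (a m b : ℕ → ℕ),
  (∀ n, 0 < δ n) → Tendsto δ atTop (𝓝 0) → Tendsto (fun n => δ n * a n) atTop (𝓝 α) →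
  Tendsto (fun n => δ n * m n) atTop (𝓝 γ) → Tendsto (fun n => δ n * b n) atTop (𝓝 β) →
  Tendsto (fun n => perc.real (FCross1 (a n) (m n) (b n))) atTop
    (𝓝 (cardy (x1 ((α/(α+γ+β))^2) ((β/(α+γ+β))^2) * (1 - x2 ((α/(α+γ+β))^2) ((β/(α+γ+β))^2)) /
      (x2 ((α/(α+γ+β))^2) ((β/(α+γ+β))^2) * (1 - x1 ((α/(α+γ+β))^2) ((β/(α+γ+β))^2))))))

/-- TASK G: prove `S1_Exact → S1_Asy → S1_Lim` -/
def S1_G : Prop := S1_Exact → S1_Asy → S1_Lim

end Pool.Agent.H966.T1
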