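import Pool.Agent.H966.T1.Stubs
import Pool.Graph.R_seed8.H988R2.Perc.T24

/-!
Forked channels of even width, both inner walls (helper966): statements of the tasks, part 2
(finer cuts; nothing is proved here).
-/

namespace Pool.Agent.H966.T1

open Pool.Agent.H988R2.Perc hiding X
open Pool.Agent.H492C (comb comb2 pairG up1)
open Pool.Agent.NH38.Step (om prs EE zs prF Gen on cardy pom bev)
open Pool.Agent.NH38.Fork (zo mm na cst gh Dh NZ x1 x2 rf Bt)
open Polynomial Filter Topology MeasureTheory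

/-! ## asymptotics -/

/-- coefficients of Appell's function `F_4(5/3, 4/3; 4/3, 4/3; A, B)` -/
noncomputable def wp1 (A B : ℝ) (m : ℕ) : ℝ := ∑ i ∈ Finset.range (m+1),
  rf (5/3) m * rf (4/3) m / (rf (4/3) i * (Nat.factorial i : ℝ) * (rf (4/3) (m-i) *
    (Nat.factorial (m-i) : ℝ))) * B^i * A^(m-i)

/-- coefficients of Appell's function `F_4(2/3, 4/3; 4/3, 4/3; A, B)` -/
noncomputable def ap1 (A B : ℝ) (m : ℕ) : ℝ := ∑ i ∈ Finset.range (m+1),
  rf (2/3) m * rf (4/3) m / (rf (4/3) i * (Nat.factorial i : ℝ) * (rf (4/3) (m-i) *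
    (Nat.factorial (m-i) : ℝ))) * B^i * A^(m-i)

/-- A1: the algebraic generating function -/
def S1_WI : Prop := ∀ A B : ℝ, 0 < A → 0 < B → Real.sqrt A + Real.sqrt B < 1 →
  HasSum (wp1 A B) ((x2 A B - x1 A B)^(-(5:ℝ)/3))

/-- A2: the limit function -/
def S1_F4 : Prop := ∀ ρ σ : ℝ, 0 < ρ → 0 < σ → ρ + σ < 1 →
  HasSum (fun m => (2*ρ*σ)^((2:ℝ)/3) * (3 / (2*Bt)) * ap1 (ρ^2) (σ^2) m)
    (cardy (x1 (ρ^2) (σ^2) * (1 - x2 (ρ^2) (σ^2)) / (x2 (ρ^2) (σ^2) * (1 - x1 (ρ^2) (σ^2)))))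

/-! ## percolation -/

/-- P0: the law of the states of a strip of even width -/
def S1_lawE : Prop := ∀ N : ℕ, Even N → 2 ≤ N → mass (Psi (on N)) ≠ 0 ∧
  Tendsto (fun M => T24.nrm (law N M + (-1 : ℂ) • ((mass (Psi (on N)))⁻¹ • Psi (on N)))) atTop (𝓝 0)

end Pool.Agent.H966.T1
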